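import Pool.Agent.Lib.MP_4952d6_mp.Pq.P08

/-!
# Pr.R01: jump kernels, definitions

`H + Lam * ∑ᵢ (1 - ε K_i)` where `K_i` is the convolution with the even probability density `K` in the position of particle `i` and
`ε = 1` or `ε = -1`. The term of particle `i` is
`½ ∫∫ K(x_i - z) |f(x) - ε f(x^{i → z})|² dz dx = ‖f‖² - ε Re ⟨f, K_i f⟩`.
(For `K = 1`, `ε = 1` this is the gap term of Pq/P01.)
-/

set_option autoImplicit false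
set_option linter.unusedSectionVars false
set_option linter.unusedVariables false
open MeasureTheory Function Filter Topology Set ComplexConjugate
open scoped ENNReal

namespace Pool.Agent.Lib.MP_4952d6_mp.LK

open LA

variable {ι : Type*} [Fintype ι] [DecidableEq ι]

/-- Even bounded probability densities on the torus. -/
structure Ker (K : T3 → ℝ) : Prop where
  bm : BM K
  nonneg : ∀ z, 0 ≤ K z
  even : ∀ z, K (-z) = K z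
  int : ∫ z, K z ∂lam3 = 1

/-- jump term of particle `i` with a weight `w` -/
noncomputable def gkW (K : T3 → ℝ) (ε : ℝ) (w : (ι → T3) → ℝ≥0∞) (i : ι) (f : (ι → T3) → ℂ) : ℝ≥0∞ :=
  2⁻¹ * ∫⁻ x, ∫⁻ z, w x * (ENNReal.ofReal (K (x i - z)) * ‖f x - (ε : ℂ) * f (update x i z)‖ₑ ^ 2)
    ∂lam3 ∂(piN ι)

/-- jump term of particle `i` -/
noncomputable def gk (K : T3 → ℝ) (ε : ℝ) (i : ι) (f : (ι → T3) → ℂ) : ℝ≥0∞ :=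
  2⁻¹ * ∫⁻ x, ∫⁻ z, ENNReal.ofReal (K (x i - z)) * ‖f x - (ε : ℂ) * f (update x i z)‖ₑ ^ 2
    ∂lam3 ∂(piN ι)

/-- the same as a real number -/
noncomputable def rk (K : T3 → ℝ) (ε : ℝ) (i : ι) (f : (ι → T3) → ℂ) : ℝ :=
  1 / 2 * ∫ x, ∫ z, K (x i - z) * ‖f x - (ε : ℂ) * f (update x i z)‖ ^ 2 ∂lam3 ∂(piN ι)

/-- `Re ⟨G ψ, (1 - ε K_i) ψ⟩` -/
noncomputable def bk (K : T3 → ℝ) (ε : ℝ) (i : ι) (ψ : (ι → T3) → ℂ) (G : (ι → T3) → ℝ) : ℝ :=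
  ∫ x, ∫ z, G x * (K (x i - z) * (‖ψ x‖ ^ 2 - ε * (conj (ψ x) * ψ (update x i z)).re)) ∂lam3 ∂(piN ι)

/-- the commutator term `(ε / 2) ∫∫ K (F(x) - F(x^{i → z}))² Re (conj ψ(x) ψ(x^{i → z})) dz dx` -/
noncomputable def ck (K : T3 → ℝ) (ε : ℝ) (i : ι) (ψ : (ι → T3) → ℂ) (F : (ι → T3) → ℝ) : ℝ :=
  ε / 2 * ∫ x, ∫ z, (F x - F (update x i z)) ^ 2 * (K (x i - z) * (conj (ψ x) * ψ (update x i z)).re)
    ∂lam3 ∂(piN ι)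

/-- `½ ∫∫ K (F(x) - F(x^{i → z}))² ‖ψ(x)‖² dz dx` -/
noncomputable def dk (K : T3 → ℝ) (i : ι) (ψ : (ι → T3) → ℂ) (F : (ι → T3) → ℝ) : ℝ :=
  1 / 2 * ∫ x, ∫ z, (F x - F (update x i z)) ^ 2 * (K (x i - z) * ‖ψ x‖ ^ 2) ∂lam3 ∂(piN ι)

/-- Ground state energy of `n` particles with the jump term. -/
noncomputable def E0K (R₀ : ℝ) (𝒱 : T3 → ℝ≥0∞) (K : T3 → ℝ) (ε Lam : ℝ) (n : ℕ) : ℝ≥0∞ :=
  ⨅ (φ : (Fin n → T3) → ℂ) (_ : tAdm R₀ 𝒱 φ), (tE 𝒱 φ + ENNReal.ofReal Lam * ∑ i, gk K ε i φ)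

/-- A minimiser of the functional with the jump term, with chemical potential `μ` and energy `e`. -/
structure MiniK (l Lam : ℝ) (K : T3 → ℝ) (ε R₀ : ℝ) (𝒱 : T3 → ℝ≥0∞) (μ e : ℝ) (ψ : (ι → T3) → ℂ)
    (g : ι → Fin 3 → (ι → T3) → ℂ) : Prop where
  ker : Ker K
  eps : ε = 1 ∨ ε = -1
  hv : AEMeasurable 𝒱 lam3
  hev : ∀ y, 𝒱 (-y) = 𝒱 y
  fe : FE R₀ 𝒱 ψ g
  nrm : ∫ x, ‖ψ x‖ ^ 2 ∂(piN ι) = 1
  mu0 : 0 ≤ μ
  e0 : 0 ≤ e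
  la0 : 0 ≤ Lam
  la1 : Lam * l ^ 2 ≤ 1
  hmin : ∀ (φ : (ι → T3) → ℂ) (f : ι → Fin 3 → (ι → T3) → ℂ), HG φ f → Core R₀ φ →
    ENNReal.ofReal e * ∫⁻ x, ‖φ x‖ₑ ^ 2 ∂(piN ι)
      ≤ eS 𝒱 Finset.univ φ f + ENNReal.ofReal Lam * ∑ i, gk K ε i φ
  heq : rE 𝒱 Finset.univ ψ g + Lam * ∑ i, rk K ε i ψ = e
  chem : ∀ T : Finset ι, ENNReal.ofReal (e - (T.card : ℝ) * μ) ≤ E0K R₀ 𝒱 K ε Lam Tᶜ.card

/-- Number of particles near `y` (radius `2 l`) after one jump. -/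
noncomputable def nKB (K : T3 → ℝ) (l : ℝ) (y : T3) (x : ι → T3) : ℝ :=
  ∑ i, ∫ z, K (x i - z) * F2_chi (2 * l) (z - y) ∂lam3

/-- `nTh` after one jump. -/
noncomputable def nKT (K θ : T3 → ℝ) (y : T3) (x : ι → T3) : ℝ :=
  ∑ i, ∫ z, K (x i - z) * θ (z - y) ^ 2 ∂lam3

end Pool.Agent.Lib.MP_4952d6_mp.LK
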