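import Pool.Agent.Lib.MP_4952d6_mp.Pr.R01

/-!
# Pr.R02 (leaf A): the jump term of one particle

Model Pq/P02 and Pq/P03 (`P03_swap`, `P03_mul`, `P03_re`, `P03_sq1`, `P03_sq2`, `P03_re_int`, `P03_bm1`, `P03_bm2`, `P03_swj_bm` are used as they are; `P03_re i ψ q = Re (conj ψ(q.1) ψ(update q.1 i q.2))`).
New: the weight `kq K i q = K (q.1 i - q.2)` is `BM` on the product space (`BM.comp`, measurability of `q ↦ q.1 i - q.2`), it is invariant under `LB.swj i`
(`swj i (x, z) = (update x i z, x i)`: `K (z - x i) = K (x i - z)` by `Ker.even`, `kq_swj`), and `∫ z, K (x i - z) = 1` (`kq_int`, translation and reflection invariance of `lam3`), so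
`∫ q, kq K i q * ‖f q.1‖² = ∫ ‖f‖²`.
* `rk_two`: expand `‖a - ε b‖² = ‖a‖² + ‖b‖² - 2 ε Re(conj a b)` (`ε² = 1`), `P03_swap` for the second term.
* `gkW_eq`: as `gqW_eq` (Pq/P02 l.170-205).
* `rk_le`: `|Re (conj a b)| ≤ (‖a‖² + ‖b‖²)/2`.
* `rk_neg`: from `rk_two`.
-/

set_option autoImplicit false
set_option linter.unusedSectionVars false
set_option linter.unusedVariables false
open MeasureTheory Function Filter Topology Set ComplexConjugate
open scoped ENNReal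

namespace Pool.Agent.Lib.MP_4952d6_mp.LK

open LA

variable {ι : Type*} [Fintype ι] [DecidableEq ι]

open LG

/-- the weight of a jump -/
noncomputable def kq (K : T3 → ℝ) (i : ι) (q : (ι → T3) × T3) : ℝ := K (q.1 i - q.2)

theorem kq_bm {K : T3 → ℝ} (hK : Ker K) (i : ι) : BM (kq K i) :=
  hK.bm.comp (((measurable_pi_apply i).comp measurable_fst).sub measurable_snd)

theorem kq_nonneg {K : T3 → ℝ} (hK : Ker K) (i : ι) (q : (ι → T3) × T3) : 0 ≤ kq K i q :=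
  hK.nonneg _

theorem kq_swj {K : T3 → ℝ} (hK : Ker K) (i : ι) (q : (ι → T3) × T3) :
    kq K i (LB.swj i q) = kq K i q := by
  unfold kq LB.swj
  dsimp only
  rw [update_self, ← hK.even (q.1 i - q.2), neg_sub]

/-- the density of the jumps has integral one -/
theorem kq_int {K : T3 → ℝ} (hK : Ker K) (u : T3) : ∫ z, K (u - z) ∂lam3 = 1 := by
  rw [integral_sub_left_eq_self K lam3 u]
  exact hK.int

theorem kq_int' {K : T3 → ℝ} (hK : Ker K) (u : T3) : ∫ z, K (z - u) ∂lam3 = 1 := by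
  rw [integral_sub_right_eq_self K u]
  exact hK.int

/-- integrals of functions of the first variable -/
theorem kq_fst {K : T3 → ℝ} (hK : Ker K) (i : ι) {h : (ι → T3) → ℝ} (hh : Integrable h (piN ι)) :
    ∫ q, kq K i q * h q.1 ∂((piN ι).prod lam3) = ∫ x, h x ∂(piN ι) := by
  have h1 : Integrable (fun q : (ι → T3) × T3 => h q.1) ((piN ι).prod lam3) :=
    (measurePreserving_fst (μ := piN ι) (ν := lam3)).integrable_comp_of_integrable hh
  rw [integral_prod _ (P03_mul h1 (kq_bm hK i))]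
  refine integral_congr_ae (Eventually.of_forall fun x => ?_)
  unfold kq
  dsimp only
  rw [integral_mul_const, kq_int hK, one_mul]

theorem pair_intK {K : T3 → ℝ} (hK : Ker K) (ε : ℝ) {f : (ι → T3) → ℂ} (hf : MemLp f 2 (piN ι))
    (i : ι) : Integrable (fun q : (ι → T3) × T3 => kq K i q
      * ‖f q.1 - (ε : ℂ) * f (update q.1 i q.2)‖ ^ 2) ((piN ι).prod lam3) :=
  P03_mul (((P03_fst_memLp hf).sub ((P03_upd_memLp hf i).const_mul (ε : ℂ))).integrable_norm_pow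
    two_ne_zero) (kq_bm hK i)

theorem rk_nonneg {K : T3 → ℝ} (hK : Ker K) (ε : ℝ) (i : ι) (f : (ι → T3) → ℂ) : 0 ≤ rk K ε i f := by
  unfold rk
  exact mul_nonneg (by norm_num) (integral_nonneg fun x => integral_nonneg fun z =>
    mul_nonneg (hK.nonneg _) (sq_nonneg _))

/-- the form as an integral over the product space -/
theorem rk_prod {K : T3 → ℝ} (hK : Ker K) (ε : ℝ) {f : (ι → T3) → ℂ} (hf : MemLp f 2 (piN ι))
    (i : ι) : rk K ε i f = 1 / 2 * ∫ q, kq K i q * ‖f q.1 - (ε : ℂ) * f (update q.1 i q.2)‖ ^ 2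
      ∂((piN ι).prod lam3) := by
  unfold rk
  rw [integral_prod _ (pair_intK hK ε hf i)]
  rfl

/-- the form as a norm minus a mixed term -/
theorem rk_two {K : T3 → ℝ} (hK : Ker K) {ε : ℝ} (hε : ε = 1 ∨ ε = -1) {f : (ι → T3) → ℂ}
    (hf : MemLp f 2 (piN ι)) (i : ι) :
    rk K ε i f = (∫ x, ‖f x‖ ^ 2 ∂(piN ι))
      - ε * ∫ q, kq K i q * P03_re i f q ∂((piN ι).prod lam3) := by
  have hε2 : ε ^ 2 = 1 := by
    rcases hε with h | h <;> rw [h] <;> norm_num
  have hB := kq_bm hK i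
  have i1 := P03_mul (P03_sq1 (ι := ι) hf) hB
  have i2 := P03_mul (P03_sq2 hf i) hB
  have i3 := P03_mul (P03_re_int hf i) hB
  have h1 : ∫ q, kq K i q * ‖f q.1‖ ^ 2 ∂((piN ι).prod lam3) = ∫ x, ‖f x‖ ^ 2 ∂(piN ι) :=
    kq_fst hK i (int_sq hf)
  have h2 : ∫ q, kq K i q * ‖f (update q.1 i q.2)‖ ^ 2 ∂((piN ι).prod lam3)
      = ∫ x, ‖f x‖ ^ 2 ∂(piN ι) := by
    rw [(P03_swap i hf hB).1, ← h1]
    refine integral_congr_ae (Eventually.of_forall fun q => ?_)
    dsimp only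
    rw [kq_swj hK]
  rw [rk_prod hK ε hf i]
  have e : ∫ q : (ι → T3) × T3, kq K i q * ‖f q.1 - (ε : ℂ) * f (update q.1 i q.2)‖ ^ 2
      ∂((piN ι).prod lam3)
      = ∫ q : (ι → T3) × T3, (kq K i q * ‖f q.1‖ ^ 2 + kq K i q * ‖f (update q.1 i q.2)‖ ^ 2
        - 2 * ε * (kq K i q * P03_re i f q)) ∂((piN ι).prod lam3) := by
    refine integral_congr_ae (Eventually.of_forall fun q => ?_)
    dsimp only
    rw [P03_norm, norm_mul, Complex.norm_real, mul_pow, Real.norm_eq_abs, sq_abs, hε2, one_mul]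
    have h3 : (conj (f q.1) * ((ε : ℂ) * f (update q.1 i q.2))).re = ε * P03_re i f q := by
      unfold P03_re
      have h4 : conj (f q.1) * ((ε : ℂ) * f (update q.1 i q.2))
          = (ε : ℂ) * (conj (f q.1) * f (update q.1 i q.2)) := by ring
      rw [h4, Complex.re_ofReal_mul]
    rw [h3]
    ring
  have i12 : Integrable (fun q : (ι → T3) × T3 => kq K i q * ‖f q.1‖ ^ 2
      + kq K i q * ‖f (update q.1 i q.2)‖ ^ 2) ((piN ι).prod lam3) := i1.add i2
  rw [e, integral_sub i12 (i3.const_mul (2 * ε)), integral_add i1 i2, integral_const_mul, h1, h2]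
  ring

theorem gkW_one (K : T3 → ℝ) (ε : ℝ) (i : ι) (f : (ι → T3) → ℂ) :
    gkW K ε (fun _ => 1) i f = gk K ε i f := by
  unfold gkW gk
  simp only [one_mul]

/-- weighted form; the weight need not be independent of `x i` -/
theorem gkW_eq {K : T3 → ℝ} (hK : Ker K) (ε : ℝ) {f : (ι → T3) → ℂ} (hf : MemLp f 2 (piN ι)) (i : ι)
    {Z : (ι → T3) → ℝ} (hZ : BM Z) (hZ0 : ∀ x, 0 ≤ Z x) :
    gkW K ε (fun x => ENNReal.ofReal (Z x)) i f
      = ENNReal.ofReal (1 / 2 * ∫ x, ∫ z, Z x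
          * (K (x i - z) * ‖f x - (ε : ℂ) * f (update x i z)‖ ^ 2) ∂lam3 ∂(piN ι)) := by
  have hi : Integrable (fun q : (ι → T3) × T3 => Z q.1 * (kq K i q
      * ‖f q.1 - (ε : ℂ) * f (update q.1 i q.2)‖ ^ 2)) ((piN ι).prod lam3) :=
    P03_mul (pair_intK hK ε hf i) (P03_bm1 hZ)
  have e0 : ∫ x, ∫ z, Z x * (K (x i - z) * ‖f x - (ε : ℂ) * f (update x i z)‖ ^ 2) ∂lam3 ∂(piN ι)
      = ∫ q : (ι → T3) × T3, Z q.1 * (kq K i q
        * ‖f q.1 - (ε : ℂ) * f (update q.1 i q.2)‖ ^ 2) ∂((piN ι).prod lam3) :=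
    (integral_prod _ hi).symm
  rw [e0, ENNReal.ofReal_mul (by norm_num),
    ofReal_integral_eq_lintegral_ofReal hi
      (Eventually.of_forall fun q => mul_nonneg (hZ0 _) (mul_nonneg (kq_nonneg hK i q)
        (sq_nonneg _)))]
  unfold gkW
  congr 1
  · rw [one_div, ENNReal.ofReal_inv_of_pos (by norm_num)]
    norm_num
  · have e1 : ∀ q : (ι → T3) × T3, ENNReal.ofReal (Z q.1 * (kq K i q
          * ‖f q.1 - (ε : ℂ) * f (update q.1 i q.2)‖ ^ 2))
        = ENNReal.ofReal (Z q.1) * (ENNReal.ofReal (kq K i q)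
          * ‖f q.1 - (ε : ℂ) * f (update q.1 i q.2)‖ₑ ^ 2) := by
      intro q
      rw [ENNReal.ofReal_mul (hZ0 _), ENNReal.ofReal_mul (kq_nonneg hK i q),
        ENNReal.ofReal_pow (norm_nonneg _), ofReal_norm]
    simp only [e1]
    have hm : AEMeasurable (fun q : (ι → T3) × T3 => ENNReal.ofReal (Z q.1)
        * (ENNReal.ofReal (kq K i q) * ‖f q.1 - (ε : ℂ) * f (update q.1 i q.2)‖ₑ ^ 2))
        ((piN ι).prod lam3) :=
      (hZ.meas.ennreal_ofReal.comp measurable_fst).aemeasurable.mul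
        ((kq_bm hK i).meas.ennreal_ofReal.aemeasurable.mul
        (((P03_fst_memLp hf).1.sub ((P03_upd_memLp hf i).const_mul (ε : ℂ)).1).enorm.pow_const 2))
    rw [lintegral_prod _ hm]
    rfl

theorem gk_eq {K : T3 → ℝ} (hK : Ker K) (ε : ℝ) {f : (ι → T3) → ℂ} (hf : MemLp f 2 (piN ι)) (i : ι) :
    gk K ε i f = ENNReal.ofReal (rk K ε i f) := by
  have h := gkW_eq hK ε hf i (BM.const 1) fun _ => zero_le_one
  simp only [ENNReal.ofReal_one, gkW_one, one_mul] at h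
  rw [h]
  rfl

theorem gk_const_mul (K : T3 → ℝ) (ε : ℝ) (i : ι) (c : ℂ) (f : (ι → T3) → ℂ) :
    gk K ε i (fun x => c * f x) = ‖c‖ₑ ^ 2 * gk K ε i f := by
  unfold gk
  have e : ∀ (x : ι → T3) (z : T3), ENNReal.ofReal (K (x i - z))
        * ‖c * f x - (ε : ℂ) * (c * f (update x i z))‖ₑ ^ 2
      = ‖c‖ₑ ^ 2 * (ENNReal.ofReal (K (x i - z)) * ‖f x - (ε : ℂ) * f (update x i z)‖ₑ ^ 2) := by
    intro x z
    have h : c * f x - (ε : ℂ) * (c * f (update x i z)) = c * (f x - (ε : ℂ) * f (update x i z)) := by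
      ring
    rw [h, enorm_mul, mul_pow]
    ring
  have hc : ‖c‖ₑ ^ 2 ≠ ⊤ := ENNReal.pow_ne_top enorm_ne_top
  simp only [e]
  simp only [lintegral_const_mul' _ _ hc]
  ring

theorem rk_le {K : T3 → ℝ} (hK : Ker K) {ε : ℝ} (hε : ε = 1 ∨ ε = -1) {f : (ι → T3) → ℂ}
    (hf : MemLp f 2 (piN ι)) (i : ι) : rk K ε i f ≤ 2 * ∫ x, ‖f x‖ ^ 2 ∂(piN ι) := by
  have hε' : -ε = 1 ∨ -ε = -1 := by
    rcases hε with h | h
    · right
      rw [h]
    · left
      rw [h, neg_neg]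
  have h1 := rk_two hK hε hf i
  have h2 := rk_two hK hε' hf i
  have h3 := rk_nonneg hK (-ε) i f
  rw [h2] at h3
  rw [h1]
  linarith

/-- the other sign -/
theorem rk_neg {K : T3 → ℝ} (hK : Ker K) {f : (ι → T3) → ℂ} (hf : MemLp f 2 (piN ι)) (i : ι) :
    rk K (-1) i f = 2 * (∫ x, ‖f x‖ ^ 2 ∂(piN ι)) - rk K 1 i f := by
  rw [rk_two hK (Or.inr rfl) hf i, rk_two hK (Or.inl rfl) hf i]
  ring

end Pool.Agent.Lib.MP_4952d6_mp.LK
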