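import Pool.Agent.Lib.MP_4952d6_mp.Pr.R02

/-!
# Pr.R03 (leaf B): multipliers and the jump term

Model Pq/P03 (copy; every integrand has the additional factor `kq K i q`, which is `BM`, nonnegative, invariant under `LB.swj i`, of integral one in `z`).
* `rk_mG`: `‖Ga - εG'b‖² = G²‖a‖² + G'²‖b‖² - 2εGG' Re`, `GG' = (G² + G'²)/2 - (G - G')²/2`, exchange `P03_swap` (for `G'²‖b‖²` and `G'² Re`); `ε² = 1`.
* `ck_le`: `ε Re (conj a b) ≤ (‖a‖² + ‖b‖²)/2`, `P03_swap`; `(F - F')²` is invariant.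
* `bk_indep`: `Z' = Z`: `Z K (‖a‖² - ε Re)`, symmetrise.
* `bk_ge`: `G K (‖a‖² - ε Re) ≥ G K (‖a‖² - ‖b‖²)/2 ≥ - G K ‖b‖²/2`, `P03_swap`, Fubini.
-/

set_option autoImplicit false
set_option linter.unusedSectionVars false
set_option linter.unusedVariables false
open MeasureTheory Function Filter Topology Set ComplexConjugate
open scoped ENNReal

namespace Pool.Agent.Lib.MP_4952d6_mp.LK

open LA

variable {ι : Type*} [Fintype ι] [DecidableEq ι]

open LG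

private theorem R03_wm {K : T3 → ℝ} (hK : Ker K) (i : ι) {G : (ι → T3) → ℝ} (hG : BM G) :
    BM (fun q : (ι → T3) × T3 => kq K i q * G q.1) := (kq_bm hK i).mul (P03_bm1 hG)

private theorem R03_wm2 {K : T3 → ℝ} (hK : Ker K) (i : ι) {G : (ι → T3) → ℝ} (hG : BM G) :
    BM (fun q : (ι → T3) × T3 => kq K i q * G (update q.1 i q.2)) :=
  (kq_bm hK i).mul (P03_bm2 hG i)

private theorem R03_wd {K : T3 → ℝ} (hK : Ker K) (i : ι) {F : (ι → T3) → ℝ} (hF : BM F) :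
    BM (fun q : (ι → T3) × T3 => kq K i q * (F q.1 - F (update q.1 i q.2)) ^ 2) :=
  (kq_bm hK i).mul (((P03_bm1 hF).sub (P03_bm2 hF i)).pow 2)

private theorem R03_bk {K : T3 → ℝ} (hK : Ker K) (ε : ℝ) {ψ : (ι → T3) → ℂ}
    (hψ : MemLp ψ 2 (piN ι)) (i : ι) {G : (ι → T3) → ℝ} (hG : BM G) :
    bk K ε i ψ G = (∫ q, kq K i q * G q.1 * ‖ψ q.1‖ ^ 2 ∂((piN ι).prod lam3))
      - ε * ∫ q, kq K i q * G q.1 * P03_re i ψ q ∂((piN ι).prod lam3) := by
  have i1 := P03_mul (P03_sq1 hψ) (R03_wm hK i hG)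
  have i2 := (P03_mul (P03_re_int hψ i) (R03_wm hK i hG)).const_mul ε
  rw [← integral_const_mul, ← integral_sub i1 i2]
  have e : bk K ε i ψ G = ∫ x, ∫ z, (fun q : (ι → T3) × T3 => kq K i q * G q.1 * ‖ψ q.1‖ ^ 2
      - ε * (kq K i q * G q.1 * P03_re i ψ q)) (x, z) ∂lam3 ∂(piN ι) := by
    unfold bk P03_re kq
    refine integral_congr_ae (Eventually.of_forall fun x => ?_)
    dsimp only
    refine integral_congr_ae (Eventually.of_forall fun z => ?_)
    dsimp only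
    ring
  rw [e]
  exact (integral_prod _ (i1.sub i2)).symm

private theorem R03_rk2 {K : T3 → ℝ} (hK : Ker K) {ε : ℝ} (hε : ε = 1 ∨ ε = -1)
    {f : (ι → T3) → ℂ} (hf : MemLp f 2 (piN ι)) (i : ι) :
    rk K ε i f = (∫ q, kq K i q * ‖f q.1‖ ^ 2 ∂((piN ι).prod lam3))
      - ε * ∫ q, kq K i q * P03_re i f q ∂((piN ι).prod lam3) := by
  rw [rk_two hK hε hf i, ← kq_fst hK i (h := fun x => ‖f x‖ ^ 2) (hf.integrable_norm_pow two_ne_zero)]

private theorem R03_ck {K : T3 → ℝ} (hK : Ker K) (ε : ℝ) {ψ : (ι → T3) → ℂ}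
    (hψ : MemLp ψ 2 (piN ι)) (i : ι) {F : (ι → T3) → ℝ} (hF : BM F) :
    ck K ε i ψ F = ε / 2 * ∫ q, kq K i q * (F q.1 - F (update q.1 i q.2)) ^ 2 * P03_re i ψ q
      ∂((piN ι).prod lam3) := by
  have h1 := P03_mul (P03_re_int hψ i) (R03_wd hK i hF)
  unfold ck
  rw [integral_prod _ h1]
  congr 1
  refine integral_congr_ae (Eventually.of_forall fun x => ?_)
  dsimp only
  refine integral_congr_ae (Eventually.of_forall fun z => ?_)
  unfold P03_re kq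
  dsimp only
  ring

private theorem R03_dk {K : T3 → ℝ} (hK : Ker K) {ψ : (ι → T3) → ℂ}
    (hψ : MemLp ψ 2 (piN ι)) (i : ι) {F : (ι → T3) → ℝ} (hF : BM F) :
    dk K i ψ F = 1 / 2 * ∫ q, kq K i q * (F q.1 - F (update q.1 i q.2)) ^ 2 * ‖ψ q.1‖ ^ 2
      ∂((piN ι).prod lam3) := by
  have h1 := P03_mul (P03_sq1 hψ) (R03_wd hK i hF)
  unfold dk
  rw [integral_prod _ h1]
  congr 1
  refine integral_congr_ae (Eventually.of_forall fun x => ?_)
  dsimp only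
  refine integral_congr_ae (Eventually.of_forall fun z => ?_)
  unfold kq
  dsimp only
  ring

/-- `ε Re (conj a b) ≤ (‖a‖² + ‖b‖²) / 2` -/
private theorem R03_re_le {ε : ℝ} (hε : ε = 1 ∨ ε = -1) (a b : ℂ) :
    ε * (conj a * b).re ≤ (‖a‖ ^ 2 + ‖b‖ ^ 2) / 2 := by
  rcases hε with h | h
  · subst h
    have := P03_re_le a b
    linarith
  · subst h
    have h1 := P03_re_le a (-b)
    rw [norm_neg, mul_neg, Complex.neg_re] at h1
    linarith

private theorem R03_norm {ε : ℝ} (hε : ε = 1 ∨ ε = -1) (a b : ℂ) :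
    ‖a - (ε : ℂ) * b‖ ^ 2 = ‖a‖ ^ 2 + ‖b‖ ^ 2 - 2 * (ε * (conj a * b).re) := by
  rcases hε with h | h
  · subst h
    have := P03_norm a b
    rw [Complex.ofReal_one, one_mul, this]
    ring
  · subst h
    have h1 := P03_norm a (-b)
    rw [norm_neg, mul_neg, Complex.neg_re] at h1
    have e : a - ((-1 : ℝ) : ℂ) * b = a - -b := by
      rw [Complex.ofReal_neg, Complex.ofReal_one]
      ring
    rw [e, h1]
    ring

private theorem R03_swj {K : T3 → ℝ} (hK : Ker K) (i : ι) (G : (ι → T3) → ℝ)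
    (q : (ι → T3) × T3) :
    kq K i (LB.swj i q) * G (LB.swj i q).1 = kq K i q * G (update q.1 i q.2) := by
  rw [kq_swj hK]
  rfl


theorem bk_one {K : T3 → ℝ} (hK : Ker K) {ε : ℝ} (hε : ε = 1 ∨ ε = -1) {ψ : (ι → T3) → ℂ}
    (hψ : MemLp ψ 2 (piN ι)) (i : ι) : bk K ε i ψ (fun _ => 1) = rk K ε i ψ := by
  rw [R03_bk hK ε hψ i (BM.const 1), R03_rk2 hK hε hψ i]
  simp only [mul_one]

/-- `Re ⟨(1 - s G)² ψ, (1 - ε K_i) ψ⟩` -/
theorem bk_expand {K : T3 → ℝ} (hK : Ker K) {ε : ℝ} (hε : ε = 1 ∨ ε = -1) {ψ : (ι → T3) → ℂ}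
    (hψ : MemLp ψ 2 (piN ι)) (i : ι) {G : (ι → T3) → ℝ} (hG : BM G) (s : ℝ) :
    bk K ε i ψ (fun x => (1 - s * G x) ^ 2)
      = rk K ε i ψ - 2 * s * bk K ε i ψ G + s ^ 2 * bk K ε i ψ (fun x => G x ^ 2) := by
  have hG2 : BM (fun x => G x ^ 2) := hG.pow 2
  have hG1 : BM (fun x => (1 - s * G x) ^ 2) := ((BM.const 1).sub (hG.const_mul s)).pow 2
  rw [← bk_one hK hε hψ i, R03_bk hK ε hψ i hG1, R03_bk hK ε hψ i (BM.const 1), R03_bk hK ε hψ i hG,
    R03_bk hK ε hψ i hG2]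
  have key : ∀ {f : (ι → T3) × T3 → ℝ}, Integrable f ((piN ι).prod lam3) →
      ∫ q, kq K i q * (1 - s * G q.1) ^ 2 * f q ∂((piN ι).prod lam3)
        = (∫ q, kq K i q * 1 * f q ∂((piN ι).prod lam3))
          - 2 * s * (∫ q, kq K i q * G q.1 * f q ∂((piN ι).prod lam3))
          + s ^ 2 * ∫ q, kq K i q * G q.1 ^ 2 * f q ∂((piN ι).prod lam3) := by
    intro f hf
    have j1 : Integrable (fun q => kq K i q * 1 * f q) ((piN ι).prod lam3) :=
      P03_mul hf (R03_wm hK i (BM.const 1))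
    have j2 := (P03_mul hf (R03_wm hK i hG)).const_mul (2 * s)
    have j3 := (P03_mul hf (R03_wm hK i hG2)).const_mul (s ^ 2)
    have j12 : Integrable (fun q => kq K i q * 1 * f q - 2 * s * (kq K i q * G q.1 * f q))
        ((piN ι).prod lam3) := j1.sub j2
    rw [← integral_const_mul, ← integral_const_mul, ← integral_sub j1 j2, ← integral_add j12 j3]
    refine integral_congr_ae (Eventually.of_forall fun q => ?_)
    dsimp only
    ring
  rw [key (P03_sq1 hψ), key (P03_re_int hψ i)]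
  ring

/-- jump term of `G ψ` -/
theorem rk_mG {K : T3 → ℝ} (hK : Ker K) {ε : ℝ} (hε : ε = 1 ∨ ε = -1) {ψ : (ι → T3) → ℂ}
    (hψ : MemLp ψ 2 (piN ι)) (i : ι) {G : (ι → T3) → ℝ} (hG : BM G) :
    rk K ε i (mG G ψ) = bk K ε i ψ (fun x => G x ^ 2) + ck K ε i ψ G := by
  have hGψ : MemLp (mG G ψ) 2 (piN ι) := by
    obtain ⟨C, hC0, hC⟩ := hG.exists_nonneg_bound
    refine hψ.of_le_mul (c := C) ?_ (Eventually.of_forall fun x => ?_)
    · exact (Complex.measurable_ofReal.comp hG.meas).aestronglyMeasurable.mul hψ.1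
    · unfold mG
      rw [norm_mul, Complex.norm_real]
      exact mul_le_mul_of_nonneg_right (hC x) (norm_nonneg _)
  have hG2 : BM (fun x => G x ^ 2) := hG.pow 2
  have hGG : BM (fun q : (ι → T3) × T3 => kq K i q * (G q.1 * G (update q.1 i q.2))) :=
    (kq_bm hK i).mul ((P03_bm1 hG).mul (P03_bm2 hG i))
  have hH1 : BM (fun q : (ι → T3) × T3 => kq K i q * G q.1 ^ 2) := R03_wm hK i hG2
  have hH2 : BM (fun q : (ι → T3) × T3 => kq K i q * G (update q.1 i q.2) ^ 2) :=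
    R03_wm2 hK i hG2
  rw [R03_rk2 hK hε hGψ i, R03_bk hK ε hψ i hG2, R03_ck hK ε hψ i hG]
  have e1 : ∫ q : (ι → T3) × T3, kq K i q * ‖mG G ψ q.1‖ ^ 2 ∂((piN ι).prod lam3)
      = ∫ q : (ι → T3) × T3, kq K i q * G q.1 ^ 2 * ‖ψ q.1‖ ^ 2 ∂((piN ι).prod lam3) := by
    refine integral_congr_ae (Eventually.of_forall fun q => ?_)
    unfold mG
    dsimp only
    rw [norm_mul, Complex.norm_real, Real.norm_eq_abs, mul_pow, sq_abs]
    ring
  have e2 : ∫ q : (ι → T3) × T3, kq K i q * P03_re i (mG G ψ) q ∂((piN ι).prod lam3)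
      = ∫ q : (ι → T3) × T3, kq K i q * (G q.1 * G (update q.1 i q.2)) * P03_re i ψ q
        ∂((piN ι).prod lam3) := by
    refine integral_congr_ae (Eventually.of_forall fun q => ?_)
    unfold P03_re mG
    dsimp only
    simp only [map_mul, Complex.conj_ofReal, Complex.mul_re, Complex.mul_im, Complex.ofReal_re,
      Complex.ofReal_im, Complex.conj_re, Complex.conj_im]
    ring
  have e3 : ∫ q : (ι → T3) × T3, kq K i q * (G q.1 - G (update q.1 i q.2)) ^ 2 * P03_re i ψ q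
      ∂((piN ι).prod lam3)
      = 2 * (∫ q : (ι → T3) × T3, kq K i q * G q.1 ^ 2 * P03_re i ψ q ∂((piN ι).prod lam3))
        - 2 * ∫ q : (ι → T3) × T3, kq K i q * (G q.1 * G (update q.1 i q.2)) * P03_re i ψ q
          ∂((piN ι).prod lam3) := by
    have j1 := P03_mul (P03_re_int hψ i) hH1
    have j2 := P03_mul (P03_re_int hψ i) hH2
    have j3 := (P03_mul (P03_re_int hψ i) hGG).const_mul 2
    have h1 : ∫ q : (ι → T3) × T3, kq K i q * G (update q.1 i q.2) ^ 2 * P03_re i ψ q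
        ∂((piN ι).prod lam3)
        = ∫ q : (ι → T3) × T3, kq K i q * G q.1 ^ 2 * P03_re i ψ q ∂((piN ι).prod lam3) := by
      rw [← (P03_swap i hψ (H := fun q : (ι → T3) × T3 => kq K i q * G q.1 ^ 2) hH1).2]
      refine integral_congr_ae (Eventually.of_forall fun q => ?_)
      dsimp only
      rw [R03_swj hK i (fun x => G x ^ 2) q]
    have h2 : 2 * (∫ q : (ι → T3) × T3, kq K i q * G q.1 ^ 2 * P03_re i ψ q ∂((piN ι).prod lam3))
        = (∫ q : (ι → T3) × T3, kq K i q * G q.1 ^ 2 * P03_re i ψ q ∂((piN ι).prod lam3))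
          + ∫ q : (ι → T3) × T3, kq K i q * G (update q.1 i q.2) ^ 2 * P03_re i ψ q
            ∂((piN ι).prod lam3) := by
      rw [h1]
      ring
    have j12 : Integrable (fun q : (ι → T3) × T3 => kq K i q * G q.1 ^ 2 * P03_re i ψ q
        + kq K i q * G (update q.1 i q.2) ^ 2 * P03_re i ψ q) ((piN ι).prod lam3) := j1.add j2
    rw [h2, ← integral_const_mul, ← integral_add j1 j2, ← integral_sub j12 j3]
    refine integral_congr_ae (Eventually.of_forall fun q => ?_)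
    dsimp only
    ring
  rw [e1, e2, e3]
  ring

/-- quadratic in `s` -/
theorem ck_affine (K : T3 → ℝ) (ε : ℝ) {ψ : (ι → T3) → ℂ} (i : ι) (G : (ι → T3) → ℝ) (s : ℝ) :
    ck K ε i ψ (fun x => 1 - s * G x) = s ^ 2 * ck K ε i ψ G := by
  unfold ck
  have h1 : ∀ x : ι → T3, ∫ z, (1 - s * G x - (1 - s * G (update x i z))) ^ 2
      * (K (x i - z) * (conj (ψ x) * ψ (update x i z)).re) ∂lam3
      = s ^ 2 * ∫ z, (G x - G (update x i z)) ^ 2
        * (K (x i - z) * (conj (ψ x) * ψ (update x i z)).re) ∂lam3 := by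
    intro x
    rw [← integral_const_mul]
    refine integral_congr_ae (Eventually.of_forall fun z => ?_)
    dsimp only
    ring
  simp only [h1]
  rw [integral_const_mul]
  ring

theorem ck_le {K : T3 → ℝ} (hK : Ker K) {ε : ℝ} (hε : ε = 1 ∨ ε = -1) {ψ : (ι → T3) → ℂ}
    (hψ : MemLp ψ 2 (piN ι)) (i : ι) {F : (ι → T3) → ℝ} (hF : BM F) : ck K ε i ψ F ≤ dk K i ψ F := by
  have hH := R03_wd hK i hF
  rw [R03_ck hK ε hψ i hF, R03_dk hK hψ i hF]
  have j1 := P03_mul (P03_sq1 hψ) hH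
  have j2 := P03_mul (P03_sq2 hψ i) hH
  have j3 := (P03_mul (P03_re_int hψ i) hH).const_mul ε
  have h1 : ∫ q : (ι → T3) × T3, kq K i q * (F q.1 - F (update q.1 i q.2)) ^ 2
      * ‖ψ (update q.1 i q.2)‖ ^ 2 ∂((piN ι).prod lam3)
      = ∫ q : (ι → T3) × T3, kq K i q * (F q.1 - F (update q.1 i q.2)) ^ 2 * ‖ψ q.1‖ ^ 2
        ∂((piN ι).prod lam3) := by
    rw [(P03_swap i hψ hH).1]
    refine integral_congr_ae (Eventually.of_forall fun q => ?_)
    dsimp only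
    rw [kq_swj hK]
    unfold LB.swj
    dsimp only
    rw [update_idem, update_eq_self]
    ring
  have h2 : ∫ q : (ι → T3) × T3, ε * (kq K i q * (F q.1 - F (update q.1 i q.2)) ^ 2
      * P03_re i ψ q) ∂((piN ι).prod lam3)
      ≤ ∫ q : (ι → T3) × T3, (1 / 2 * (kq K i q * (F q.1 - F (update q.1 i q.2)) ^ 2
          * ‖ψ q.1‖ ^ 2)
        + 1 / 2 * (kq K i q * (F q.1 - F (update q.1 i q.2)) ^ 2 * ‖ψ (update q.1 i q.2)‖ ^ 2))
        ∂((piN ι).prod lam3) := by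
    refine integral_mono j3 ((j1.const_mul _).add (j2.const_mul _)) fun q => ?_
    have h3 := mul_le_mul_of_nonneg_left (R03_re_le hε (ψ q.1) (ψ (update q.1 i q.2)))
      (mul_nonneg (kq_nonneg hK i q) (sq_nonneg (F q.1 - F (update q.1 i q.2))))
    have h4 : ε * (kq K i q * (F q.1 - F (update q.1 i q.2)) ^ 2 * P03_re i ψ q)
        = kq K i q * (F q.1 - F (update q.1 i q.2)) ^ 2
          * (ε * (conj (ψ q.1) * ψ (update q.1 i q.2)).re) := by
      unfold P03_re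
      ring
    refine (h4.trans_le h3).trans (le_of_eq ?_)
    ring
  rw [integral_add (j1.const_mul _) (j2.const_mul _), integral_const_mul, integral_const_mul,
    integral_const_mul, h1] at h2
  have e : ε / 2 * ∫ q, kq K i q * (F q.1 - F (update q.1 i q.2)) ^ 2 * P03_re i ψ q
      ∂((piN ι).prod lam3) = 1 / 2 * (ε * ∫ q, kq K i q * (F q.1 - F (update q.1 i q.2)) ^ 2
      * P03_re i ψ q ∂((piN ι).prod lam3)) := by ring
  rw [e]
  refine mul_le_mul_of_nonneg_left ?_ (by norm_num)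
  linarith

/-- a weight which does not depend on `x i` -/
theorem bk_indep {K : T3 → ℝ} (hK : Ker K) {ε : ℝ} (hε : ε = 1 ∨ ε = -1) {ψ : (ι → T3) → ℂ}
    (hψ : MemLp ψ 2 (piN ι)) (i : ι) {Z : (ι → T3) → ℝ} (hZ : BM Z)
    (hdep : ∀ x z, Z (update x i z) = Z x) :
    bk K ε i ψ Z = 1 / 2 * ∫ x, ∫ z, Z x * (K (x i - z) * ‖ψ x - (ε : ℂ) * ψ (update x i z)‖ ^ 2)
      ∂lam3 ∂(piN ι) := by
  have j1 := P03_mul (P03_sq1 hψ) (R03_wm hK i hZ)
  have j2 := P03_mul (P03_sq2 hψ i) (R03_wm hK i hZ)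
  have j3 := P03_mul (P03_re_int hψ i) (R03_wm hK i hZ)
  have hP : ∀ q : (ι → T3) × T3, kq K i q * Z q.1
      * ‖ψ q.1 - (ε : ℂ) * ψ (update q.1 i q.2)‖ ^ 2
      = kq K i q * Z q.1 * ‖ψ q.1‖ ^ 2 + kq K i q * Z q.1 * ‖ψ (update q.1 i q.2)‖ ^ 2
        - 2 * ε * (kq K i q * Z q.1 * P03_re i ψ q) := by
    intro q
    rw [R03_norm hε]
    unfold P03_re
    ring
  have j12 : Integrable (fun q : (ι → T3) × T3 => kq K i q * Z q.1 * ‖ψ q.1‖ ^ 2
      + kq K i q * Z q.1 * ‖ψ (update q.1 i q.2)‖ ^ 2) ((piN ι).prod lam3) := j1.add j2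
  have hI : Integrable (fun q : (ι → T3) × T3 => kq K i q * Z q.1
      * ‖ψ q.1 - (ε : ℂ) * ψ (update q.1 i q.2)‖ ^ 2) ((piN ι).prod lam3) := by
    simp only [hP]
    exact j12.sub (j3.const_mul (2 * ε))
  have e0 : ∫ x, ∫ z, Z x * (K (x i - z) * ‖ψ x - (ε : ℂ) * ψ (update x i z)‖ ^ 2)
      ∂lam3 ∂(piN ι)
      = ∫ q : (ι → T3) × T3, kq K i q * Z q.1 * ‖ψ q.1 - (ε : ℂ) * ψ (update q.1 i q.2)‖ ^ 2
        ∂((piN ι).prod lam3) := by
    rw [integral_prod _ hI]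
    refine integral_congr_ae (Eventually.of_forall fun x => ?_)
    dsimp only
    refine integral_congr_ae (Eventually.of_forall fun z => ?_)
    unfold kq
    dsimp only
    ring
  have h1 : ∫ q : (ι → T3) × T3, kq K i q * Z q.1 * ‖ψ (update q.1 i q.2)‖ ^ 2
      ∂((piN ι).prod lam3)
      = ∫ q : (ι → T3) × T3, kq K i q * Z q.1 * ‖ψ q.1‖ ^ 2 ∂((piN ι).prod lam3) := by
    rw [(P03_swap i hψ (R03_wm hK i hZ)).1]
    refine integral_congr_ae (Eventually.of_forall fun q => ?_)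
    dsimp only
    rw [R03_swj hK i Z q, hdep]
  have e1 : ∫ q : (ι → T3) × T3, kq K i q * Z q.1
      * ‖ψ q.1 - (ε : ℂ) * ψ (update q.1 i q.2)‖ ^ 2 ∂((piN ι).prod lam3)
      = (∫ q : (ι → T3) × T3, kq K i q * Z q.1 * ‖ψ q.1‖ ^ 2 ∂((piN ι).prod lam3))
        + (∫ q : (ι → T3) × T3, kq K i q * Z q.1 * ‖ψ (update q.1 i q.2)‖ ^ 2
          ∂((piN ι).prod lam3))
        - 2 * ε * ∫ q : (ι → T3) × T3, kq K i q * Z q.1 * P03_re i ψ q ∂((piN ι).prod lam3) := by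
    rw [← integral_add j1 j2, ← integral_const_mul, ← integral_sub j12 (j3.const_mul (2 * ε))]
    exact integral_congr_ae (Eventually.of_forall hP)
  rw [e0, e1, h1, R03_bk hK ε hψ i hZ]
  ring

/-- a nonnegative weight -/
theorem bk_ge {K : T3 → ℝ} (hK : Ker K) {ε : ℝ} (hε : ε = 1 ∨ ε = -1) {ψ : (ι → T3) → ℂ}
    (hψ : MemLp ψ 2 (piN ι)) (i : ι) {Z : (ι → T3) → ℝ} (hZ : BM Z) (hZ0 : ∀ x, 0 ≤ Z x) :
    -(1 / 2 * ∫ x, (∫ z, K (x i - z) * Z (update x i z) ∂lam3) * ‖ψ x‖ ^ 2 ∂(piN ι))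
      ≤ bk K ε i ψ Z := by
  have j1 := P03_mul (P03_sq1 hψ) (R03_wm hK i hZ)
  have j2 := P03_mul (P03_sq2 hψ i) (R03_wm hK i hZ)
  have j3 := (P03_mul (P03_re_int hψ i) (R03_wm hK i hZ)).const_mul ε
  have j4 := P03_mul (P03_sq1 hψ) (R03_wm2 hK i hZ)
  have h1 : ∫ q : (ι → T3) × T3, kq K i q * Z q.1 * ‖ψ (update q.1 i q.2)‖ ^ 2
      ∂((piN ι).prod lam3)
      = ∫ x, (∫ z, K (x i - z) * Z (update x i z) ∂lam3) * ‖ψ x‖ ^ 2 ∂(piN ι) := by
    rw [(P03_swap i hψ (R03_wm hK i hZ)).1]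
    have e1 : ∫ q : (ι → T3) × T3, kq K i (LB.swj i q) * Z (LB.swj i q).1 * ‖ψ q.1‖ ^ 2
        ∂((piN ι).prod lam3)
        = ∫ q : (ι → T3) × T3, kq K i q * Z (update q.1 i q.2) * ‖ψ q.1‖ ^ 2
          ∂((piN ι).prod lam3) := by
      refine integral_congr_ae (Eventually.of_forall fun q => ?_)
      dsimp only
      rw [R03_swj hK i Z q]
    rw [e1, integral_prod _ j4]
    refine integral_congr_ae (Eventually.of_forall fun x => ?_)
    dsimp only
    rw [integral_mul_const]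
    rfl
  have h2 : ∫ q : (ι → T3) × T3, ε * (kq K i q * Z q.1 * P03_re i ψ q) ∂((piN ι).prod lam3)
      ≤ ∫ q : (ι → T3) × T3, (1 / 2 * (kq K i q * Z q.1 * ‖ψ q.1‖ ^ 2)
        + 1 / 2 * (kq K i q * Z q.1 * ‖ψ (update q.1 i q.2)‖ ^ 2)) ∂((piN ι).prod lam3) := by
    refine integral_mono j3 ((j1.const_mul _).add (j2.const_mul _)) fun q => ?_
    have h3 := mul_le_mul_of_nonneg_left (R03_re_le hε (ψ q.1) (ψ (update q.1 i q.2)))
      (mul_nonneg (kq_nonneg hK i q) (hZ0 q.1))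
    have h4 : ε * (kq K i q * Z q.1 * P03_re i ψ q)
        = kq K i q * Z q.1 * (ε * (conj (ψ q.1) * ψ (update q.1 i q.2)).re) := by
      unfold P03_re
      ring
    refine (h4.trans_le h3).trans (le_of_eq ?_)
    ring
  rw [integral_add (j1.const_mul _) (j2.const_mul _), integral_const_mul, integral_const_mul,
    integral_const_mul, h1] at h2
  have h3 : 0 ≤ ∫ q : (ι → T3) × T3, kq K i q * Z q.1 * ‖ψ q.1‖ ^ 2 ∂((piN ι).prod lam3) :=
    integral_nonneg fun q => mul_nonneg (mul_nonneg (kq_nonneg hK i q) (hZ0 _)) (sq_nonneg _)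
  rw [R03_bk hK ε hψ i hZ]
  linarith

end Pool.Agent.Lib.MP_4952d6_mp.LK
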