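import Pool.Agent.Lib.MP_4952d6_mp.Pr.R02

/-!
# Pr.R04 (leaf C): the ground state energy with the jump term bounds the energy from below; slices

Model Pq/P04 (copy, all lemmas). The only new factor is `ENNReal.ofReal (K (x i - z))`; under the relabelling `A3_L e` and under `glue p x y` (for `¬ p i`) the coordinate `x i` is
transformed in the same way as the function, so `gk` is invariant and the inner integral acts on the slice. Measurability: `kq_bm`.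
-/

set_option autoImplicit false
set_option linter.unusedSectionVars false
set_option linter.unusedVariables false
open MeasureTheory Function Filter Topology Set ComplexConjugate
open scoped ENNReal

namespace Pool.Agent.Lib.MP_4952d6_mp.LK

open LA

variable {ι : Type*} [Fintype ι] [DecidableEq ι]

open LG

theorem R04_le {n : ℕ} {R₀ Lam : ℝ} {𝒱 : T3 → ℝ≥0∞} (hev : ∀ y, 𝒱 (-y) = 𝒱 y)
    (K : T3 → ℝ) (ε : ℝ)
    {φ : (Fin n → T3) → ℂ} {h : Fin n → Fin 3 → (Fin n → T3) → ℂ} (hφ : HG φ h)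
    (hc : Core R₀ φ) :
    E0K R₀ 𝒱 K ε Lam n * ∫⁻ x, ‖φ x‖ₑ ^ 2 ∂(piN (Fin n))
      ≤ eS 𝒱 Finset.univ φ h + ENNReal.ofReal Lam * ∑ i, gk K ε i φ := by
  by_cases htop : eS 𝒱 Finset.univ φ h = ⊤
  · rw [htop, top_add]
    exact le_top
  have hr := lint_sq hφ.mem
  set r : ℝ := ∫ x, ‖φ x‖ ^ 2 ∂(piN (Fin n)) with hrdef
  have hr0 : 0 ≤ r := integral_nonneg fun x => sq_nonneg _
  rcases hr0.eq_or_lt with h0 | hpos
  · rw [hr, ← h0, ENNReal.ofReal_zero, mul_zero]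
    exact bot_le
  rw [hr]
  have hs : 0 ≤ (Real.sqrt r)⁻¹ := inv_nonneg.2 (Real.sqrt_nonneg r)
  have hs2 : ((Real.sqrt r)⁻¹) ^ 2 = r⁻¹ := by
    rw [inv_pow, Real.sq_sqrt hr0]
  have hE : tE 𝒱 φ = eS 𝒱 Finset.univ φ h := tE_eq_eS hev hφ
  have hsm := tE_smul 𝒱 φ (Real.sqrt r)⁻¹ hs
  rw [hs2, hE] at hsm
  have hgs : ∀ i, gk K ε i (fun x => (((Real.sqrt r)⁻¹ : ℝ) : ℂ) * φ x) =
      ENNReal.ofReal r⁻¹ * gk K ε i φ := by
    intro i
    rw [gk_const_mul, ← ofReal_norm, Complex.norm_real, Real.norm_of_nonneg hs,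
      ← ENNReal.ofReal_pow hs, hs2]
  have hadm : tAdm R₀ 𝒱 (fun x => (((Real.sqrt r)⁻¹ : ℝ) : ℂ) * φ x) := by
    refine ⟨hφ.mem.const_mul _, ?_, ?_, ?_⟩
    · have h1 : ∀ x, ‖(((Real.sqrt r)⁻¹ : ℝ) : ℂ) * φ x‖ ^ 2 = r⁻¹ * ‖φ x‖ ^ 2 := by
        intro x
        rw [norm_mul, mul_pow, Complex.norm_real, Real.norm_of_nonneg hs, hs2]
      simp_rw [h1]
      rw [integral_const_mul, ← hrdef]
      exact inv_mul_cancel₀ hpos.ne'
    · intro x i j hij hx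
      show (((Real.sqrt r)⁻¹ : ℝ) : ℂ) * φ x = 0
      rw [hc x i j hij hx, mul_zero]
    · rw [hsm]
      exact ENNReal.mul_lt_top ENNReal.ofReal_lt_top (lt_top_iff_ne_top.2 htop)
  have h2 : E0K R₀ 𝒱 K ε Lam n ≤ ENNReal.ofReal r⁻¹ *
      (eS 𝒱 Finset.univ φ h + ENNReal.ofReal Lam * ∑ i, gk K ε i φ) := by
    have h3 : ENNReal.ofReal r⁻¹ * (eS 𝒱 Finset.univ φ h + ENNReal.ofReal Lam * ∑ i, gk K ε i φ)
        = tE 𝒱 (fun x => (((Real.sqrt r)⁻¹ : ℝ) : ℂ) * φ x) + ENNReal.ofReal Lam *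
          ∑ i, gk K ε i (fun x => (((Real.sqrt r)⁻¹ : ℝ) : ℂ) * φ x) := by
      rw [hsm, Finset.sum_congr rfl fun i _ => hgs i, ← Finset.mul_sum, mul_add, mul_left_comm]
    rw [h3]
    exact iInf₂_le _ hadm
  calc E0K R₀ 𝒱 K ε Lam n * ENNReal.ofReal r
      ≤ (ENNReal.ofReal r⁻¹ * (eS 𝒱 Finset.univ φ h + ENNReal.ofReal Lam * ∑ i, gk K ε i φ))
        * ENNReal.ofReal r := by gcongr
    _ = (ENNReal.ofReal r⁻¹ * ENNReal.ofReal r) *
        (eS 𝒱 Finset.univ φ h + ENNReal.ofReal Lam * ∑ i, gk K ε i φ) := by ring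
    _ = eS 𝒱 Finset.univ φ h + ENNReal.ofReal Lam * ∑ i, gk K ε i φ := by
      rw [← ENNReal.ofReal_mul (inv_nonneg.2 hr0), inv_mul_cancel₀ hpos.ne', ENNReal.ofReal_one,
        one_mul]

theorem R04_gk {n : ℕ} (K : T3 → ℝ) (ε : ℝ) (e : ι ≃ Fin n) (φ : (ι → T3) → ℂ) (j : Fin n) :
    gk K ε j (fun y => φ (A3_L e y)) = gk K ε (e.symm j) φ := by
  unfold gk
  congr 1
  rw [← A3_lint e (fun x => ∫⁻ z, ENNReal.ofReal (K (x (e.symm j) - z)) *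
    ‖φ x - (ε : ℂ) * φ (update x (e.symm j) z)‖ₑ ^ 2 ∂lam3)]
  refine lintegral_congr fun y => ?_
  refine lintegral_congr fun z => ?_
  show ENNReal.ofReal (K (y j - z)) * ‖φ (A3_L e y) - (ε : ℂ) * φ (A3_L e (update y j z))‖ₑ ^ 2 = _
  rw [P04_upd, A3_L_apply, Equiv.apply_symm_apply]

theorem E0K_le_card {n : ℕ} {R₀ Lam : ℝ} {𝒱 : T3 → ℝ≥0∞} (hev : ∀ y, 𝒱 (-y) = 𝒱 y)
    {K : T3 → ℝ} (hK : Ker K) (ε : ℝ) (hn : Fintype.card ι = n)
    {φ : (ι → T3) → ℂ} {h : ι → Fin 3 → (ι → T3) → ℂ} (hφ : HG φ h) (hc : Core R₀ φ) :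
    E0K R₀ 𝒱 K ε Lam n * ∫⁻ x, ‖φ x‖ₑ ^ 2 ∂(piN ι)
      ≤ eS 𝒱 Finset.univ φ h + ENNReal.ofReal Lam * ∑ i, gk K ε i φ := by
  let e : ι ≃ Fin n := Fintype.equivFinOfCardEq hn
  have h1 := R04_le (R₀ := R₀) (Lam := Lam) hev K ε (A3_HG e hφ) (by
    intro y i j hij hy
    refine hc (A3_L e y) (e.symm i) (e.symm j) (fun h => hij (e.symm.injective h)) ?_
    rw [A3_L_apply, A3_L_apply, Equiv.apply_symm_apply, Equiv.apply_symm_apply]
    exact hy)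
  have h2 : ∫⁻ y, ‖φ (A3_L e y)‖ₑ ^ 2 ∂(piN (Fin n)) = ∫⁻ x, ‖φ x‖ₑ ^ 2 ∂(piN ι) :=
    A3_lint e (fun x => ‖φ x‖ₑ ^ 2)
  have h3 : eS 𝒱 Finset.univ (fun y => φ (A3_L e y)) (fun j α y => h (e.symm j) α (A3_L e y)) =
      eS 𝒱 Finset.univ φ h := by
    unfold eS
    congr 1
    · rw [← Equiv.sum_comp e.symm]
      refine Finset.sum_congr rfl fun j _ => Finset.sum_congr rfl fun α _ => ?_
      exact A3_lint e (fun x => ‖h (e.symm j) α x‖ₑ ^ 2)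
    · rw [← A3_lint e (fun x => potS 𝒱 Finset.univ x * ‖φ x‖ₑ ^ 2)]
      refine lintegral_congr fun y => ?_
      rw [A3_potS]
  have h4 : ∑ j, gk K ε j (fun y => φ (A3_L e y)) = ∑ i, gk K ε i φ := by
    rw [← Equiv.sum_comp e.symm]
    exact Finset.sum_congr rfl fun j _ => R04_gk K ε e φ j
  rw [h2, h3, h4] at h1
  exact h1

/-- the inner integral of the jump term -/
noncomputable def R04_I (K : T3 → ℝ) (ε : ℝ) (i : ι) (ψ : (ι → T3) → ℂ) (x : ι → T3) : ℝ≥0∞ :=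
  ∫⁻ z, ENNReal.ofReal (K (x i - z)) * ‖ψ x - (ε : ℂ) * ψ (update x i z)‖ₑ ^ 2 ∂lam3

theorem R04_joint {K : T3 → ℝ} (hK : Ker K) (ε : ℝ) {ψ : (ι → T3) → ℂ} (hψ : MemLp ψ 2 (piN ι))
    (i : ι) : AEMeasurable (fun q : (ι → T3) × T3 => ENNReal.ofReal (K (q.1 i - q.2)) *
      ‖ψ q.1 - (ε : ℂ) * ψ (update q.1 i q.2)‖ₑ ^ 2) ((piN ι).prod lam3) := by
  have h1 : AEStronglyMeasurable (fun q : (ι → T3) × T3 => ψ q.1) ((piN ι).prod lam3) :=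
    hψ.1.comp_fst
  have h2 : AEStronglyMeasurable (fun q : (ι → T3) × T3 => ψ (update q.1 i q.2))
      ((piN ι).prod lam3) := hψ.1.comp_measurePreserving (LB.mp_upd i)
  have h3 : Measurable (fun q : (ι → T3) × T3 => ENNReal.ofReal (K (q.1 i - q.2))) :=
    (kq_bm hK i).meas.ennreal_ofReal
  exact h3.aemeasurable.mul ((h1.sub (h2.const_mul _)).enorm.pow_const 2)

theorem R04_Im {K : T3 → ℝ} (hK : Ker K) (ε : ℝ) {ψ : (ι → T3) → ℂ} (hψ : MemLp ψ 2 (piN ι)) (i : ι) :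
    AEMeasurable (R04_I K ε i ψ) (piN ι) :=
  (R04_joint hK ε hψ i).lintegral_prod_right'

theorem R04_gkW {K : T3 → ℝ} (hK : Ker K) (ε : ℝ) {ψ : (ι → T3) → ℂ} (hψ : MemLp ψ 2 (piN ι)) (i : ι) (w : (ι → T3) → ℝ≥0∞) :
    gkW K ε w i ψ = 2⁻¹ * ∫⁻ x, w x * R04_I K ε i ψ x ∂(piN ι) := by
  unfold gkW
  congr 1
  have h1 := (R04_joint hK ε hψ i).aestronglyMeasurable.prodMk_left
  refine lintegral_congr_ae ?_
  filter_upwards [h1] with x hx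
  exact lintegral_const_mul'' _ hx.aemeasurable

theorem R04_slice (K : T3 → ℝ) (ε : ℝ) (p : ι → Prop) [DecidablePred p] (ψ : (ι → T3) → ℂ) {i : ι} (hi : ¬ p i)
    (x : {i // p i} → T3) (y : {i // ¬ p i} → T3) :
    R04_I K ε i ψ (glue p x y) = R04_I K ε (⟨i, hi⟩ : {i // ¬ p i}) (fun y => ψ (glue p x y)) y := by
  unfold R04_I
  refine lintegral_congr fun z => ?_
  have h1 : update (glue p x y) i z = glue p x (update y ⟨i, hi⟩ z) := by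
    funext j
    by_cases hj : j = i
    · subst hj
      rw [update_self, A4_glue_neg p x _ hi, update_self]
    · rw [update_of_ne hj]
      by_cases hpj : p j
      · rw [A4_glue_pos p x y hpj, A4_glue_pos p x _ hpj]
      · rw [A4_glue_neg p x y hpj, A4_glue_neg p x _ hpj, update_of_ne]
        exact fun h => hj (congrArg Subtype.val h)
  rw [h1, A4_glue_neg p x y hi]

theorem R04_gk_I (K : T3 → ℝ) (ε : ℝ) (i : ι) (ψ : (ι → T3) → ℂ) :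
    gk K ε i ψ = 2⁻¹ * ∫⁻ x, R04_I K ε i ψ x ∂(piN ι) := rfl

theorem R04_main {K : T3 → ℝ} (hK : Ker K) (ε : ℝ) (p : ι → Prop) [DecidablePred p]
    {R₀ Lam : ℝ} {𝒱 : T3 → ℝ≥0∞}
    (hv : AEMeasurable 𝒱 lam3)
    (hev : ∀ y, 𝒱 (-y) = 𝒱 y) {S : Finset ι} (hS : ∀ i, i ∈ S ↔ ¬ p i)
    {w : (ι → T3) → ℝ≥0∞} (hw : Measurable w)
    {W : ({i // p i} → T3) → ℝ≥0∞} (hW : ∀ x y, w (glue p x y) = W x) (hWm : Measurable W)
    {ψ : (ι → T3) → ℂ} {g : ι → Fin 3 → (ι → T3) → ℂ} (h : HG ψ g) (hc : Core R₀ ψ) :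
    E0K R₀ 𝒱 K ε Lam S.card * ∫⁻ x, w x * ‖ψ x‖ₑ ^ 2 ∂(piN ι)
      ≤ eW 𝒱 S w ψ g + ENNReal.ofReal Lam * ∑ i ∈ S, gkW K ε w i ψ := by
  have hψm : AEMeasurable (fun x => ‖ψ x‖ₑ ^ 2) (piN ι) :=
    h.mem.aestronglyMeasurable.enorm.pow_const 2
  have hgm : ∀ i α, AEMeasurable (fun x => ‖g i α x‖ₑ ^ 2) (piN ι) := fun i α =>
    (h.gmem i α).aestronglyMeasurable.enorm.pow_const 2
  have hpm : AEMeasurable (fun x => potS 𝒱 S x * ‖ψ x‖ₑ ^ 2) (piN ι) := (aem_potS hv S).mul hψm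
  have hIm : ∀ i, AEMeasurable (R04_I K ε i ψ) (piN ι) := R04_Im hK ε h.mem
  have hcard : Fintype.card {i // ¬ p i} = S.card := Fintype.card_of_subtype S hS
  have hslice : ∀ᵐ x ∂(piN {i // p i}),
      E0K R₀ 𝒱 K ε Lam S.card * (W x * ∫⁻ y, ‖ψ (glue p x y)‖ₑ ^ 2 ∂(piN {i // ¬ p i})) ≤
        ((∑ i ∈ S, ∑ α, W x * ∫⁻ y, ‖g i α (glue p x y)‖ₑ ^ 2 ∂(piN {i // ¬ p i})) +
          W x * ∫⁻ y, potS 𝒱 S (glue p x y) * ‖ψ (glue p x y)‖ₑ ^ 2 ∂(piN {i // ¬ p i})) +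
          ENNReal.ofReal Lam * ∑ i ∈ S,
            2⁻¹ * (W x * ∫⁻ y, R04_I K ε i ψ (glue p x y) ∂(piN {i // ¬ p i})) := by
    filter_upwards [h.slice p] with x hx
    have h1 := E0K_le_card (R₀ := R₀) (Lam := Lam) hev hK ε hcard hx (by
      intro y i j hij hy
      refine hc (glue p x y) i.1 j.1 (fun h => hij (Subtype.ext h)) ?_
      rw [A4_glue_neg p x y i.2, A4_glue_neg p x y j.2]
      exact hy)
    have h2 : W x * eS 𝒱 Finset.univ (fun y : {i // ¬ p i} → T3 => ψ (glue p x y))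
        (fun j α y => g j.1 α (glue p x y)) =
        (∑ i ∈ S, ∑ α, W x * ∫⁻ y, ‖g i α (glue p x y)‖ₑ ^ 2 ∂(piN {i // ¬ p i})) +
          W x * ∫⁻ y, potS 𝒱 S (glue p x y) * ‖ψ (glue p x y)‖ₑ ^ 2 ∂(piN {i // ¬ p i}) := by
      unfold eS
      rw [mul_add]
      congr 1
      · rw [Finset.sum_subtype S hS, Finset.mul_sum]
        refine Finset.sum_congr rfl fun i _ => ?_
        rw [Finset.mul_sum]
      · congr 1
        refine lintegral_congr fun y => ?_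
        rw [A4_potS p 𝒱 hS]
    have h3 : W x * (ENNReal.ofReal Lam * ∑ i : {i // ¬ p i},
        gk K ε i (fun y : {i // ¬ p i} → T3 => ψ (glue p x y))) =
        ENNReal.ofReal Lam * ∑ i ∈ S,
            2⁻¹ * (W x * ∫⁻ y, R04_I K ε i ψ (glue p x y) ∂(piN {i // ¬ p i})) := by
      rw [mul_left_comm, Finset.sum_subtype S hS, Finset.mul_sum]
      congr 1
      refine Finset.sum_congr rfl fun i _ => ?_
      rw [R04_gk_I, mul_left_comm]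
      congr 2
      refine lintegral_congr fun y => ?_
      exact (R04_slice K ε p ψ i.2 x y).symm
    rw [← h2, ← h3, ← mul_add, mul_left_comm]
    gcongr
  have hWF : ∀ {F : (ι → T3) → ℝ≥0∞}, AEMeasurable F (piN ι) →
      AEMeasurable (fun x => W x * ∫⁻ y, F (glue p x y) ∂(piN {i // ¬ p i})) (piN {i // p i}) :=
    fun hF => hWm.aemeasurable.mul (A4_aem p hF)
  have hWI : ∀ i, AEMeasurable (fun x => 2⁻¹ * (W x * ∫⁻ y, R04_I K ε i ψ (glue p x y)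
      ∂(piN {i // ¬ p i}))) (piN {i // p i}) := fun i => (hWF (hIm i)).const_mul _
  calc E0K R₀ 𝒱 K ε Lam S.card * ∫⁻ x, w x * ‖ψ x‖ₑ ^ 2 ∂(piN ι)
      = E0K R₀ 𝒱 K ε Lam S.card * ∫⁻ x, W x * ∫⁻ y, ‖ψ (glue p x y)‖ₑ ^ 2 ∂(piN {i // ¬ p i})
          ∂(piN {i // p i}) := by
        rw [A4_lintW p hW hw hψm]
    _ ≤ ∫⁻ x, E0K R₀ 𝒱 K ε Lam S.card *
          (W x * ∫⁻ y, ‖ψ (glue p x y)‖ₑ ^ 2 ∂(piN {i // ¬ p i})) ∂(piN {i // p i}) :=
        lintegral_const_mul_le _ _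
    _ ≤ ∫⁻ x, (((∑ i ∈ S, ∑ α, W x * ∫⁻ y, ‖g i α (glue p x y)‖ₑ ^ 2 ∂(piN {i // ¬ p i})) +
          W x * ∫⁻ y, potS 𝒱 S (glue p x y) * ‖ψ (glue p x y)‖ₑ ^ 2 ∂(piN {i // ¬ p i})) +
          ENNReal.ofReal Lam * ∑ i ∈ S,
            2⁻¹ * (W x * ∫⁻ y, R04_I K ε i ψ (glue p x y) ∂(piN {i // ¬ p i}))) ∂(piN {i // p i}) :=
        lintegral_mono_ae hslice
    _ = eW 𝒱 S w ψ g + ENNReal.ofReal Lam * ∑ i ∈ S, gkW K ε w i ψ := by
        rw [lintegral_add_right' _ ((Finset.aemeasurable_fun_sum _ fun i _ => hWI i).const_mul _)]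
        congr 1
        · unfold eW
          rw [lintegral_add_right' _ (hWF hpm), A4_lintW p hW hw hpm]
          congr 1
          rw [lintegral_finsetSum' _
            (fun i _ => Finset.aemeasurable_fun_sum _ fun α _ => hWF (hgm i α))]
          refine Finset.sum_congr rfl fun i _ => ?_
          rw [lintegral_finsetSum' _ (fun α _ => hWF (hgm i α))]
          refine Finset.sum_congr rfl fun α _ => ?_
          rw [A4_lintW p hW hw (hgm i α)]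
        · rw [lintegral_const_mul'' _ (Finset.aemeasurable_fun_sum _ fun i _ => hWI i)]
          congr 1
          rw [lintegral_finsetSum' _ (fun i _ => hWI i)]
          refine Finset.sum_congr rfl fun i _ => ?_
          rw [R04_gkW hK ε h.mem, lintegral_const_mul'' _ (hWF (hIm i)), A4_lintW p hW hw (hIm i)]

theorem slice_energyK {R₀ Lam : ℝ} {𝒱 : T3 → ℝ≥0∞} (hv : AEMeasurable 𝒱 lam3)
    (hev : ∀ y, 𝒱 (-y) = 𝒱 y) {K : T3 → ℝ} (hK : Ker K) (ε : ℝ) {S : Finset ι}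
    {w : (ι → T3) → ℝ≥0∞} (hw : Measurable w)
    (hdep : ∀ x y : ι → T3, (∀ i ∈ S, x i = y i) → w x = w y)
    {ψ : (ι → T3) → ℂ} {g : ι → Fin 3 → (ι → T3) → ℂ} (h : HG ψ g) (hc : Core R₀ ψ) :
    E0K R₀ 𝒱 K ε Lam Sᶜ.card * ∫⁻ x, w x * ‖ψ x‖ₑ ^ 2 ∂(piN ι)
      ≤ eW 𝒱 Sᶜ w ψ g + ENNReal.ofReal Lam * ∑ i ∈ Sᶜ, gkW K ε w i ψ := by
  refine R04_main hK ε (fun i => i ∈ S) hv hev (fun i => Finset.mem_compl) hw
    (W := fun x => w (glue (fun i => i ∈ S) x (fun _ => 0))) (fun x y => hdep _ _ ?_) ?_ h hc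
  · intro i hi
    rw [A4_glue_pos (fun i => i ∈ S) _ _ hi, A4_glue_pos (fun i => i ∈ S) _ _ hi]
  · have h1 : Measurable (fun q : ({i // i ∈ S} → T3) × ({i // ¬ i ∈ S} → T3) =>
        glue (fun i => i ∈ S) q.1 q.2) := (mp_glue (fun i => i ∈ S)).measurable
    have h2 : Measurable (fun x : {i // i ∈ S} → T3 => (x, (fun _ => 0 : {i // ¬ i ∈ S} → T3))) :=
      measurable_id.prodMk measurable_const
    exact hw.comp (h1.comp h2)

end Pool.Agent.Lib.MP_4952d6_mp.LK
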