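import Pool.Agent.Lib.MP_4952d6_mp.Pq.P06
import Pool.Agent.Lib.MP_4952d6_mp.Pr.R03
import Pool.Agent.Lib.MP_4952d6_mp.Pr.R04

/-!
# Pr.R06 (leaf E): energy bound with localisation, with the jump term

Model Pq/P06 (copy; `P06_w, P06_fst, P06_snd, P06_swap_sq, P06_fst_int, P06_mG_re, P06_mG_mem, P06_Th_bm, P06_sumTh, P06_weight` are used as they are).
`ims_K`: for one particle, `∑_S rk K ε i (Th_S Φ) = rk K ε i Φ + ε ∫ kq (1 - θ₁θ₁' - θ₂θ₂') Re (conj Φ(x) Φ(x'))` (`rk_two`, `P06_sumTh`, the sum of the squares of `Th` is 1);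
`0 ≤ 1 - θ₁θ₁' - θ₂θ₂' ≤ χ(x i - y) + χ(z - y)` (`P06_weight`, `χ = F2_chi (2 l)`), `|Re (conj a b)| ≤ (‖a‖² + ‖b‖²)/2`, exchange (`P06_swap_sq`, `kq_swj`):
the error is at most `∫ kq (χ(x i - y) + χ(z - y)) ‖Φ x‖²`, and `∫ z, K (x i - z) = 1` (`kq_int`). Sum over `i`: `nB l y x + nKB K l y x`.
`loc_energyK`: model `P06_E3_one`, `loc_energyG` (Pq/P06) with `slice_energyK`, `gkW_one`, `ims_K`.
-/

set_option autoImplicit false
set_option linter.unusedSectionVars false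
set_option linter.unusedVariables false
open MeasureTheory Function Filter Topology Set ComplexConjugate
open scoped ENNReal

namespace Pool.Agent.Lib.MP_4952d6_mp.LK

open LA

variable {ι : Type*} [Fintype ι] [DecidableEq ι]

open LG

/-- after one jump the number of particles is still bounded and measurable -/
theorem nKB_bm {K : T3 → ℝ} (hK : Ker K) (l : ℝ) (y : T3) : BM (fun x : ι → T3 => nKB K l y x) := by
  unfold nKB
  refine BM.finset_sum Finset.univ fun i _ => ?_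
  have hm : Measurable fun q : (ι → T3) × T3 => q.2 - y := measurable_snd.sub measurable_const
  exact BM.integral_right (f := fun (x : ι → T3) (z : T3) => K (x i - z) * F2_chi (2 * l) (z - y))
    ((kq_bm hK i).mul ((F2_chi_bm (2 * l)).comp hm)) lam3

private lemma R06_re_le {ε : ℝ} (hε : ε = 1 ∨ ε = -1) (z w : ℂ) :
    ε * (conj z * w).re ≤ 1 / 2 * (‖z‖ ^ 2 + ‖w‖ ^ 2) := by
  have h1 := P06_re_le z w
  have h2 := P06_re_le (-z) w
  have e2 : (conj (-z) * w).re = -(conj z * w).re := by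
    rw [map_neg, neg_mul, Complex.neg_re]
  rw [e2, norm_neg] at h2
  rcases hε with rfl | rfl
  · linarith
  · linarith

/-- one particle -/
private lemma R06_ims_one {l : ℝ} (hl : 0 < l) {K : T3 → ℝ} (hK : Ker K) {ε : ℝ}
    (hε : ε = 1 ∨ ε = -1) {θ₁ θ₂ : T3 → ℝ}
    {θ₁' θ₂' : Fin 3 → T3 → ℝ} (hL : Loc2 l θ₁ θ₂ θ₁' θ₂') (h2 : ∀ x, 0 ≤ θ₂ x) (y : T3)
    {Φ : (ι → T3) → ℂ} (hΦ : MemLp Φ 2 (piN ι)) (i : ι) :
    ∑ S ∈ (Finset.univ : Finset ι).powerset, rk K ε i (mG (Th θ₁ θ₂ y S) Φ)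
      ≤ rk K ε i Φ + ∫ x, (F2_chi (2 * l) (x i - y) + ∫ z, K (x i - z) * F2_chi (2 * l) (z - y) ∂lam3)
        * ‖Φ x‖ ^ 2 ∂(piN ι) := by
  have hre : Integrable (P03_re i Φ) ((piN ι).prod lam3) := P03_re_int hΦ i
  have hΦ2 := int_sq hΦ
  have bK : BM (kq K i) := kq_bm hK i
  have hB : ∀ S : Finset ι, BM (fun x : ι → T3 => Th θ₁ θ₂ y S x) := fun S => P06_Th_bm hL y S
  have hmi : Measurable fun x : ι → T3 => x i - y := (measurable_pi_apply i).sub measurable_const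
  have hmq : Measurable fun q : (ι → T3) × T3 => q.2 - y := measurable_snd.sub measurable_const
  -- sum over `S`
  have s1 : ∀ S : Finset ι, rk K ε i (mG (Th θ₁ θ₂ y S) Φ)
      = (∫ x, Th θ₁ θ₂ y S x ^ 2 * ‖Φ x‖ ^ 2 ∂(piN ι))
        - ε * ∫ q : (ι → T3) × T3, kq K i q * (Th θ₁ θ₂ y S q.1 * Th θ₁ θ₂ y S (update q.1 i q.2))
          * P03_re i Φ q ∂((piN ι).prod lam3) := by
    intro S
    rw [rk_two hK hε (P06_mG_mem (hB S) hΦ) i]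
    simp only [P03_re, P06_mG_re, F3_norm, mul_assoc]
  have i1 : ∀ S : Finset ι, Integrable (fun x => Th θ₁ θ₂ y S x ^ 2 * ‖Φ x‖ ^ 2) (piN ι) :=
    fun S => F3_x hΦ ((hB S).pow 2)
  have i2 : ∀ S : Finset ι, Integrable (fun q : (ι → T3) × T3 => kq K i q * (Th θ₁ θ₂ y S q.1
      * Th θ₁ θ₂ y S (update q.1 i q.2)) * P03_re i Φ q)
      ((piN ι).prod lam3) := fun S => P06_w (bK.mul ((P06_fst (hB S)).mul (P06_snd (hB S) i))) hre
  have s2 : ∑ S ∈ (Finset.univ : Finset ι).powerset, rk K ε i (mG (Th θ₁ θ₂ y S) Φ)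
      = (∫ x, ‖Φ x‖ ^ 2 ∂(piN ι))
        - ε * ∫ q : (ι → T3) × T3, kq K i q * (θ₁ (q.1 i - y) * θ₁ (q.2 - y)
          + θ₂ (q.1 i - y) * θ₂ (q.2 - y)) * P03_re i Φ q ∂((piN ι).prod lam3) := by
    rw [Finset.sum_congr rfl fun S _ => s1 S, Finset.sum_sub_distrib, ← Finset.mul_sum,
      ← integral_finsetSum _ fun S _ => i1 S, ← integral_finsetSum _ fun S _ => i2 S]
    have g1 : ∫ x, ∑ S ∈ (Finset.univ : Finset ι).powerset, Th θ₁ θ₂ y S x ^ 2 * ‖Φ x‖ ^ 2 ∂(piN ι)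
        = ∫ x, ‖Φ x‖ ^ 2 ∂(piN ι) := by
      refine integral_congr_ae (Eventually.of_forall fun x => ?_)
      beta_reduce
      rw [← Finset.sum_mul, Th_sum hL y x, one_mul]
    have g2 : ∫ q : (ι → T3) × T3, ∑ S ∈ (Finset.univ : Finset ι).powerset, kq K i q
        * (Th θ₁ θ₂ y S q.1 * Th θ₁ θ₂ y S (update q.1 i q.2)) * P03_re i Φ q ∂((piN ι).prod lam3)
        = ∫ q : (ι → T3) × T3, kq K i q * (θ₁ (q.1 i - y) * θ₁ (q.2 - y)
          + θ₂ (q.1 i - y) * θ₂ (q.2 - y)) * P03_re i Φ q ∂((piN ι).prod lam3) := by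
      refine integral_congr_ae (Eventually.of_forall fun q => ?_)
      beta_reduce
      rw [← Finset.sum_mul, ← Finset.mul_sum, P06_sumTh hL y i q.1 q.2]
    rw [g1, g2]
  have bθ₁ : BM θ₁ := ⟨(hL.wd1 0).sm.measurable, (hL.wd1 0).bdd⟩
  have bθ₂ : BM θ₂ := ⟨(hL.wd2 0).sm.measurable, (hL.wd2 0).bdd⟩
  have hmf : Measurable fun q : (ι → T3) × T3 => q.1 i - y := hmi.comp measurable_fst
  have bW : BM (fun q : (ι → T3) × T3 => kq K i q * (θ₁ (q.1 i - y) * θ₁ (q.2 - y)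
      + θ₂ (q.1 i - y) * θ₂ (q.2 - y))) :=
    bK.mul (((bθ₁.comp hmf).mul (bθ₁.comp hmq)).add ((bθ₂.comp hmf).mul (bθ₂.comp hmq)))
  have bW1 : BM (fun q : (ι → T3) × T3 => kq K i q * (1 - (θ₁ (q.1 i - y) * θ₁ (q.2 - y)
      + θ₂ (q.1 i - y) * θ₂ (q.2 - y)))) :=
    bK.mul ((BM.const 1).sub (((bθ₁.comp hmf).mul (bθ₁.comp hmq)).add
      ((bθ₂.comp hmf).mul (bθ₂.comp hmq))))
  have bc : BM (fun q : (ι → T3) × T3 => kq K i q
      * (F2_chi (2 * l) (q.1 i - y) + F2_chi (2 * l) (q.2 - y))) :=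
    bK.mul (((F2_chi_bm (2 * l)).comp hmf).add ((F2_chi_bm (2 * l)).comp hmq))
  have s3 : ∑ S ∈ (Finset.univ : Finset ι).powerset, rk K ε i (mG (Th θ₁ θ₂ y S) Φ)
      = rk K ε i Φ + ∫ q : (ι → T3) × T3, ε * (kq K i q * (1 - (θ₁ (q.1 i - y) * θ₁ (q.2 - y)
        + θ₂ (q.1 i - y) * θ₂ (q.2 - y))) * P03_re i Φ q) ∂((piN ι).prod lam3) := by
    rw [s2, rk_two hK hε hΦ i, integral_const_mul]
    have e1 : ∫ q : (ι → T3) × T3, kq K i q * (1 - (θ₁ (q.1 i - y) * θ₁ (q.2 - y)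
        + θ₂ (q.1 i - y) * θ₂ (q.2 - y))) * P03_re i Φ q ∂((piN ι).prod lam3)
        = (∫ q : (ι → T3) × T3, kq K i q * P03_re i Φ q ∂((piN ι).prod lam3))
          - ∫ q : (ι → T3) × T3, kq K i q * (θ₁ (q.1 i - y) * θ₁ (q.2 - y)
            + θ₂ (q.1 i - y) * θ₂ (q.2 - y)) * P03_re i Φ q ∂((piN ι).prod lam3) := by
      rw [← integral_sub (P06_w bK hre) (P06_w bW hre)]
      refine integral_congr_ae (Eventually.of_forall fun q => ?_)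
      ring
    rw [e1]
    ring
  have j1 := int_sq (P06_m1 hΦ)
  have j2 := int_sq (P06_m2 hΦ i)
  have k1 := P06_w bc j1
  have k2 := P06_w bc j2
  have s4 : ∫ q : (ι → T3) × T3, ε * (kq K i q * (1 - (θ₁ (q.1 i - y) * θ₁ (q.2 - y)
        + θ₂ (q.1 i - y) * θ₂ (q.2 - y))) * P03_re i Φ q) ∂((piN ι).prod lam3)
      ≤ ∫ q : (ι → T3) × T3, (1 / 2 * (kq K i q
          * (F2_chi (2 * l) (q.1 i - y) + F2_chi (2 * l) (q.2 - y))
          * ‖Φ q.1‖ ^ 2) + 1 / 2 * (kq K i q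
          * (F2_chi (2 * l) (q.1 i - y) + F2_chi (2 * l) (q.2 - y))
          * ‖Φ (update q.1 i q.2)‖ ^ 2)) ∂((piN ι).prod lam3) := by
    refine integral_mono ((P06_w bW1 hre).const_mul ε) ((k1.const_mul _).add (k2.const_mul _))
      fun q => ?_
    obtain ⟨w0, w1⟩ := P06_weight hl hL h2 (q.1 i - y) (q.2 - y)
    have h3 := mul_le_mul_of_nonneg_left (R06_re_le hε (Φ q.1) (Φ (update q.1 i q.2))) w0
    have h4 : 0 ≤ 1 / 2 * (‖Φ q.1‖ ^ 2 + ‖Φ (update q.1 i q.2)‖ ^ 2) := by positivity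
    have h5 := mul_le_mul_of_nonneg_right w1 h4
    have h6 := mul_le_mul_of_nonneg_left (h3.trans h5) (kq_nonneg hK i q)
    calc ε * (kq K i q * (1 - (θ₁ (q.1 i - y) * θ₁ (q.2 - y)
        + θ₂ (q.1 i - y) * θ₂ (q.2 - y))) * P03_re i Φ q)
        = kq K i q * ((1 - (θ₁ (q.1 i - y) * θ₁ (q.2 - y) + θ₂ (q.1 i - y) * θ₂ (q.2 - y)))
          * (ε * (conj (Φ q.1) * Φ (update q.1 i q.2)).re)) := by
          unfold P03_re
          ring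
      _ ≤ _ := h6
      _ = _ := by ring
  have s5 : ∫ q : (ι → T3) × T3, (1 / 2 * (kq K i q
          * (F2_chi (2 * l) (q.1 i - y) + F2_chi (2 * l) (q.2 - y))
          * ‖Φ q.1‖ ^ 2) + 1 / 2 * (kq K i q
          * (F2_chi (2 * l) (q.1 i - y) + F2_chi (2 * l) (q.2 - y))
          * ‖Φ (update q.1 i q.2)‖ ^ 2)) ∂((piN ι).prod lam3)
      = ∫ q : (ι → T3) × T3, kq K i q * (F2_chi (2 * l) (q.1 i - y) + F2_chi (2 * l) (q.2 - y))
          * ‖Φ q.1‖ ^ 2 ∂((piN ι).prod lam3) := by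
    have e2 := P06_swap_sq hΦ i bc
    have e3 : ∫ q : (ι → T3) × T3, (fun q : (ι → T3) × T3 => kq K i q
          * (F2_chi (2 * l) (q.1 i - y) + F2_chi (2 * l) (q.2 - y))) (LB.swj i q)
          * ‖Φ q.1‖ ^ 2 ∂((piN ι).prod lam3)
        = ∫ q : (ι → T3) × T3, kq K i q * (F2_chi (2 * l) (q.1 i - y) + F2_chi (2 * l) (q.2 - y))
          * ‖Φ q.1‖ ^ 2 ∂((piN ι).prod lam3) := by
      refine integral_congr_ae (Eventually.of_forall fun q => ?_)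
      beta_reduce
      rw [kq_swj hK i q]
      simp only [LB.swj, update_self]
      ring
    rw [integral_add (k1.const_mul _) (k2.const_mul _), integral_const_mul, integral_const_mul, e2, e3]
    ring
  have s6 : ∫ q : (ι → T3) × T3, kq K i q * (F2_chi (2 * l) (q.1 i - y) + F2_chi (2 * l) (q.2 - y))
          * ‖Φ q.1‖ ^ 2 ∂((piN ι).prod lam3)
      = ∫ x, (F2_chi (2 * l) (x i - y) + ∫ z, K (x i - z) * F2_chi (2 * l) (z - y) ∂lam3)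
        * ‖Φ x‖ ^ 2 ∂(piN ι) := by
    rw [integral_prod _ k1]
    refine integral_congr_ae (Eventually.of_forall fun x => ?_)
    simp only [kq]
    rw [integral_mul_const]
    congr 1
    have mz : Measurable fun z : T3 => x i - z := measurable_const.sub measurable_id
    have hKz : BM (fun z : T3 => K (x i - z)) := hK.bm.comp mz
    have h4 : Integrable (fun z : T3 => K (x i - z)) lam3 := hKz.integrable lam3
    have h5 : Integrable (fun z : T3 => K (x i - z) * F2_chi (2 * l) (z - y)) lam3 :=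
      (hKz.mul ((F2_chi_bm (2 * l)).comp (measurable_id.sub measurable_const))).integrable lam3
    have e4 : ∀ z : T3, K (x i - z) * (F2_chi (2 * l) (x i - y) + F2_chi (2 * l) (z - y))
        = K (x i - z) * F2_chi (2 * l) (x i - y) + K (x i - z) * F2_chi (2 * l) (z - y) := fun z => by
      ring
    simp only [e4]
    rw [integral_add (h4.mul_const _) h5, integral_mul_const, kq_int hK, one_mul]
  rw [s3]
  linarith [s4.trans (le_of_eq (s5.trans s6))]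

theorem ims_K {l : ℝ} (hl : 0 < l) (hl8 : l ≤ 1 / 8) {K : T3 → ℝ} (hK : Ker K) {ε : ℝ}
    (hε : ε = 1 ∨ ε = -1) {θ₁ θ₂ : T3 → ℝ}
    {θ₁' θ₂' : Fin 3 → T3 → ℝ} (hL : Loc2 l θ₁ θ₂ θ₁' θ₂') (h2 : ∀ x, 0 ≤ θ₂ x) (y : T3)
    {Φ : (ι → T3) → ℂ} (hΦ : MemLp Φ 2 (piN ι)) :
    ∑ S ∈ (Finset.univ : Finset ι).powerset, ∑ i, rk K ε i (mG (Th θ₁ θ₂ y S) Φ)
      ≤ (∑ i, rk K ε i Φ) + ∫ x, (nB l y x + nKB K l y x) * ‖Φ x‖ ^ 2 ∂(piN ι) := by
  rw [Finset.sum_comm]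
  refine (Finset.sum_le_sum fun i _ => R06_ims_one hl hK hε hL h2 y hΦ i).trans (le_of_eq ?_)
  rw [Finset.sum_add_distrib]
  congr 1
  have hmi : ∀ i : ι, Measurable fun x : ι → T3 => x i - y := fun i =>
    (measurable_pi_apply i).sub measurable_const
  have hmq : Measurable fun q : (ι → T3) × T3 => q.2 - y := measurable_snd.sub measurable_const
  have bI : ∀ i : ι, BM (fun x : ι → T3 => ∫ z, K (x i - z) * F2_chi (2 * l) (z - y) ∂lam3) :=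
    fun i => BM.integral_right
      (f := fun (x : ι → T3) (z : T3) => K (x i - z) * F2_chi (2 * l) (z - y))
      ((kq_bm hK i).mul ((F2_chi_bm (2 * l)).comp hmq)) lam3
  rw [← integral_finsetSum _ fun i _ => F3_x hΦ
    (((F2_chi_bm (2 * l)).comp (hmi i)).add (bI i))]
  refine integral_congr_ae (Eventually.of_forall fun x => ?_)
  beta_reduce
  rw [← Finset.sum_mul, Finset.sum_add_distrib]
  rfl

/-- the bound for one set of particles -/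
private lemma R06_E3_one {R₀ Lam l μ e κ : ℝ} {𝒱 : T3 → ℝ≥0∞} (hv : AEMeasurable 𝒱 lam3)
    (hev : ∀ y, 𝒱 (-y) = 𝒱 y) (hLam : 0 ≤ Lam)
    {K : T3 → ℝ} (hK : Ker K) {ε : ℝ} (hε : ε = 1 ∨ ε = -1) {θ₁ θ₂ : T3 → ℝ}
    {θ₁' θ₂' : Fin 3 → T3 → ℝ} (hL : Loc2 l θ₁ θ₂ θ₁' θ₂') (y : T3) {Φ : (ι → T3) → ℂ}
    {g : ι → Fin 3 → (ι → T3) → ℂ} (h : FE R₀ 𝒱 Φ g)
    (hchem : ∀ T : Finset ι, ENNReal.ofReal (e - (T.card : ℝ) * μ) ≤ E0K R₀ 𝒱 K ε Lam Tᶜ.card)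
    {v : T3 → ℝ≥0∞} (hvm : Measurable v) (hle : ∀ᵐ z ∂lam3, R₀ ≤ rr z → v z ≤ 𝒱 z)
    {C : Type*} [Fintype C] {q : C → Set T3} (hq : ∀ c, MeasurableSet (q c))
    (hdis : ∀ c c', c ≠ c' → Disjoint (q c) (q c')) (hκ : 0 ≤ κ)
    (hbox : ∀ c, BoxIneq (ENNReal.ofReal κ) v (q c))
    (hcov : ∀ x, rr (x - y) < 2 * l → ∃ c, x ∈ q c) (S : Finset ι) :
    ((κ - μ) * (S.card : ℝ) + (e - κ * (Fintype.card C : ℝ))) *
        ∫ x, Th θ₁ θ₂ y S x ^ 2 * ‖Φ x‖ ^ 2 ∂(piN ι)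
      ≤ rE 𝒱 Finset.univ (mG (Th θ₁ θ₂ y S) Φ)
        (mGg (Th θ₁ θ₂ y S) (Thg θ₁ θ₂ θ₁' θ₂' y S) Φ g)
        + Lam * ∑ i, rk K ε i (mG (Th θ₁ θ₂ y S) Φ) := by
  have hχ := h.mul (Th_WDN hL y S)
  set χ := mG (Th θ₁ θ₂ y S) Φ with hχd
  set γ := mGg (Th θ₁ θ₂ y S) (Thg θ₁ θ₂ θ₁' θ₂' y S) Φ g with hγd
  -- the norm
  have hJ : ∫ x, Th θ₁ θ₂ y S x ^ 2 * ‖Φ x‖ ^ 2 ∂(piN ι) = ∫ x, ‖χ x‖ ^ 2 ∂(piN ι) := by
    refine integral_congr_ae (Eventually.of_forall fun x => ?_)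
    simp only [hχd, mG]
    rw [norm_mul, mul_pow, Complex.norm_real, Real.norm_eq_abs, sq_abs]
  set J := ∫ x, ‖χ x‖ ^ 2 ∂(piN ι) with hJd
  have hJ0 : 0 ≤ J := integral_nonneg fun x => sq_nonneg _
  have hI : ∫⁻ x, ‖χ x‖ₑ ^ 2 ∂(piN ι) = ENNReal.ofReal J := lint_sq hχ.hg.mem
  have hrE := rE_eq hv hχ.hg hχ.fin
  have hgq : ∀ i : ι, gk K ε i χ = ENNReal.ofReal (rk K ε i χ) := fun i => gk_eq hK ε hχ.hg.mem i
  have hrq0 : 0 ≤ ∑ i, rk K ε i χ := Finset.sum_nonneg fun i _ => rk_nonneg hK ε i χ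
  have hG : ENNReal.ofReal Lam * ∑ i, gk K ε i χ = ENNReal.ofReal (Lam * ∑ i, rk K ε i χ) := by
    rw [ENNReal.ofReal_mul hLam, ENNReal.ofReal_sum_of_nonneg fun i _ => rk_nonneg hK ε i χ]
    simp only [hgq]
  -- splitting of the energy
  have hsplit : eS 𝒱 S χ γ + eS 𝒱 Sᶜ χ γ ≤ eS 𝒱 Finset.univ χ γ := by
    unfold eS
    have h1 : (∑ i ∈ S, ∑ α, ∫⁻ x, ‖γ i α x‖ₑ ^ 2 ∂(piN ι))
        + (∑ i ∈ Sᶜ, ∑ α, ∫⁻ x, ‖γ i α x‖ₑ ^ 2 ∂(piN ι))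
        = ∑ i, ∑ α, ∫⁻ x, ‖γ i α x‖ₑ ^ 2 ∂(piN ι) := Finset.sum_add_sum_compl S _
    have hm : AEMeasurable (fun x => potS 𝒱 S x * ‖χ x‖ₑ ^ 2) (piN ι) :=
      (aem_potS hv S).mul (hχ.hg.mem.aestronglyMeasurable.enorm.pow_const 2)
    have h2 : (∫⁻ x, potS 𝒱 S x * ‖χ x‖ₑ ^ 2 ∂(piN ι))
        + (∫⁻ x, potS 𝒱 Sᶜ x * ‖χ x‖ₑ ^ 2 ∂(piN ι))
        ≤ ∫⁻ x, potS 𝒱 Finset.univ x * ‖χ x‖ₑ ^ 2 ∂(piN ι) := by
      rw [← lintegral_add_left' hm]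
      refine lintegral_mono fun x => ?_
      simp only [← add_mul]
      exact mul_le_mul_left (potS_split S x) _
    calc _ = ((∑ i ∈ S, ∑ α, ∫⁻ x, ‖γ i α x‖ₑ ^ 2 ∂(piN ι))
        + (∑ i ∈ Sᶜ, ∑ α, ∫⁻ x, ‖γ i α x‖ₑ ^ 2 ∂(piN ι)))
        + ((∫⁻ x, potS 𝒱 S x * ‖χ x‖ₑ ^ 2 ∂(piN ι))
        + (∫⁻ x, potS 𝒱 Sᶜ x * ‖χ x‖ₑ ^ 2 ∂(piN ι))) := by
          rw [add_add_add_comm]
      _ ≤ _ := by
          rw [h1]
          exact add_le_add le_rfl h2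
  have hgsplit : ∑ i ∈ Sᶜ, gk K ε i χ ≤ ∑ i, gk K ε i χ :=
    Finset.sum_le_sum_of_subset (Finset.subset_univ _)
  -- the particles outside
  have hout : ENNReal.ofReal (e - (S.card : ℝ) * μ) * ENNReal.ofReal J
      ≤ eS 𝒱 Sᶜ χ γ + ENNReal.ofReal Lam * ∑ i ∈ Sᶜ, gk K ε i χ := by
    have h1 := slice_energyK (Lam := Lam) hv hev hK ε (S := S) (w := fun _ => 1) measurable_const
      (fun _ _ _ => rfl) hχ.hg hχ.core
    have h2 : eW 𝒱 Sᶜ (fun _ => 1) χ γ = eS 𝒱 Sᶜ χ γ := by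
      unfold eW eS
      simp only [one_mul]
    rw [h2] at h1
    simp only [one_mul, gkW_one] at h1
    rw [hI] at h1
    exact (mul_le_mul_left (hchem S) _).trans h1
  -- the particles inside
  have hin : ENNReal.ofReal κ * ((S.card : ℝ≥0∞) * ENNReal.ofReal J)
      ≤ eS 𝒱 S χ γ + ENNReal.ofReal κ * (Fintype.card C : ℝ≥0∞) * ENNReal.ofReal J := by
    have h1 := crowd_ineq hv hvm hle hq hdis ENNReal.ofReal_ne_top hbox hχ.hg hχ.core S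
    rw [hI] at h1
    refine le_trans (mul_le_mul_right ?_ _) h1
    rw [← hI, ← lintegral_const_mul' _ _ (ENNReal.natCast_ne_top _)]
    refine lintegral_mono fun x => ?_
    by_cases hx : Th θ₁ θ₂ y S x = 0
    · have : χ x = 0 := by simp only [hχd, mG, hx]; simp
      simp [this]
    · refine mul_le_mul_left ?_ _
      have h2 : ∀ i ∈ S, (1 : ℝ≥0∞) ≤ ∑ c, (q c).indicator (fun _ => (1 : ℝ≥0∞)) (x i) := by
        intro i hi
        obtain ⟨c, hc⟩ := hcov (x i) (Th_supp hL hx i hi)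
        calc (1 : ℝ≥0∞) = (q c).indicator (fun _ => (1 : ℝ≥0∞)) (x i) := by
              rw [Set.indicator_of_mem hc]
          _ ≤ _ := Finset.single_le_sum
              (f := fun c => (q c).indicator (fun _ => (1 : ℝ≥0∞)) (x i))
              (fun _ _ => zero_le) (Finset.mem_univ c)
      calc (S.card : ℝ≥0∞) = ∑ i ∈ S, (1 : ℝ≥0∞) := by simp
        _ ≤ _ := Finset.sum_le_sum h2
  -- in reals
  have h3 : ENNReal.ofReal (κ * ((S.card : ℝ) * J)) + ENNReal.ofReal (max (e - (S.card : ℝ) * μ) 0 * J)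
      ≤ (ENNReal.ofReal (rE 𝒱 Finset.univ χ γ) + ENNReal.ofReal (Lam * ∑ i, rk K ε i χ))
        + ENNReal.ofReal (κ * (Fintype.card C : ℝ) * J) := by
    rw [hrE.2.1, ← hG]
    have e1 : ENNReal.ofReal (κ * ((S.card : ℝ) * J)) =
        ENNReal.ofReal κ * ((S.card : ℝ≥0∞) * ENNReal.ofReal J) := by
      rw [ENNReal.ofReal_mul hκ, ENNReal.ofReal_mul (Nat.cast_nonneg _), ENNReal.ofReal_natCast]
    have e2 : ENNReal.ofReal (max (e - (S.card : ℝ) * μ) 0 * J) =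
        ENNReal.ofReal (e - (S.card : ℝ) * μ) * ENNReal.ofReal J := by
      rw [ENNReal.ofReal_mul (le_max_right _ _)]
      congr 1
      rw [ENNReal.ofReal_max]
      simp
    have e3 : ENNReal.ofReal (κ * (Fintype.card C : ℝ) * J) =
        ENNReal.ofReal κ * (Fintype.card C : ℝ≥0∞) * ENNReal.ofReal J := by
      rw [ENNReal.ofReal_mul (by positivity), ENNReal.ofReal_mul hκ, ENNReal.ofReal_natCast]
    rw [e1, e2, e3]
    calc _ ≤ (eS 𝒱 S χ γ + ENNReal.ofReal κ * (Fintype.card C : ℝ≥0∞) * ENNReal.ofReal J)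
        + (eS 𝒱 Sᶜ χ γ + ENNReal.ofReal Lam * ∑ i ∈ Sᶜ, gk K ε i χ) := add_le_add hin hout
      _ = ((eS 𝒱 S χ γ + eS 𝒱 Sᶜ χ γ) + ENNReal.ofReal Lam * ∑ i ∈ Sᶜ, gk K ε i χ)
        + ENNReal.ofReal κ * (Fintype.card C : ℝ≥0∞) * ENNReal.ofReal J := by
          ring
      _ ≤ _ := add_le_add (add_le_add hsplit (mul_le_mul_right hgsplit _)) le_rfl
  have hLq : 0 ≤ Lam * ∑ i, rk K ε i χ := mul_nonneg hLam hrq0
  rw [← ENNReal.ofReal_add (by positivity) (mul_nonneg (le_max_right _ _) hJ0),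
    ← ENNReal.ofReal_add hrE.2.2 hLq,
    ← ENNReal.ofReal_add (add_nonneg hrE.2.2 hLq) (by positivity)] at h3
  have h4 := (ENNReal.ofReal_le_ofReal_iff (add_nonneg (add_nonneg hrE.2.2 hLq)
    (by positivity))).mp h3
  have h5 : (e - (S.card : ℝ) * μ) * J ≤ max (e - (S.card : ℝ) * μ) 0 * J :=
    mul_le_mul_of_nonneg_right (le_max_left _ _) hJ0
  rw [hJ]
  linarith

theorem loc_energyK {R₀ Lam l μ e κ : ℝ} {𝒱 : T3 → ℝ≥0∞} (hv : AEMeasurable 𝒱 lam3)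
    (hev : ∀ y, 𝒱 (-y) = 𝒱 y) (hl : 0 < l) (hl8 : l ≤ 1 / 8) (hLam : 0 ≤ Lam)
    {K : T3 → ℝ} (hK : Ker K) {ε : ℝ} (hε : ε = 1 ∨ ε = -1) {θ₁ θ₂ : T3 → ℝ}
    {θ₁' θ₂' : Fin 3 → T3 → ℝ} (hL : Loc2 l θ₁ θ₂ θ₁' θ₂') (h2 : ∀ x, 0 ≤ θ₂ x) (y : T3)
    {Φ : (ι → T3) → ℂ} {g : ι → Fin 3 → (ι → T3) → ℂ} (h : FE R₀ 𝒱 Φ g)
    (hchem : ∀ T : Finset ι, ENNReal.ofReal (e - (T.card : ℝ) * μ) ≤ E0K R₀ 𝒱 K ε Lam Tᶜ.card)
    {v : T3 → ℝ≥0∞} (hvm : Measurable v) (hle : ∀ᵐ z ∂lam3, R₀ ≤ rr z → v z ≤ 𝒱 z)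
    {C : Type*} [Fintype C] {q : C → Set T3} (hq : ∀ c, MeasurableSet (q c))
    (hdis : ∀ c c', c ≠ c' → Disjoint (q c) (q c')) (hκ : 0 ≤ κ)
    (hbox : ∀ c, BoxIneq (ENNReal.ofReal κ) v (q c))
    (hcov : ∀ x, rr (x - y) < 2 * l → ∃ c, x ∈ q c) :
    ∫ x, ((κ - μ) * nTh θ₁ y x - κ * (Fintype.card C : ℝ) + e - Dth θ₁' θ₂' y x
        - Lam * (nB l y x + nKB K l y x)) * ‖Φ x‖ ^ 2 ∂(piN ι)
      ≤ rE 𝒱 Finset.univ Φ g + Lam * ∑ i, rk K ε i Φ := by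
  have hΦ := h.hg.mem
  have hint : ∀ S : Finset ι, Integrable (fun x => Th θ₁ θ₂ y S x ^ 2 * ‖Φ x‖ ^ 2) (piN ι) :=
    fun S => E3_int h.hg.mem ((E3_meas hL y S).pow_const 2) (C := 1) fun x => by
      rw [abs_of_nonneg (sq_nonneg _)]
      exact E3_le hL y S x
  obtain ⟨hn, hn0, hn1, hB⟩ := nTh_bm (ι := ι) hL
  have hNB : BM (fun x : ι → T3 => nB l y x + nKB K l y x) :=
    (F3_slice hB y).add (nKB_bm hK l y)
  have hG : Integrable (fun x : ι → T3 => (nB l y x + nKB K l y x)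
      * ‖Φ x‖ ^ 2) (piN ι) := F3_x hΦ hNB
  have hsum : ∑ S ∈ (Finset.univ : Finset ι).powerset,
      ((κ - μ) * (S.card : ℝ) + (e - κ * (Fintype.card C : ℝ))) *
        ∫ x, Th θ₁ θ₂ y S x ^ 2 * ‖Φ x‖ ^ 2 ∂(piN ι)
      ≤ (rE 𝒱 Finset.univ Φ g + ∫ x, Dth θ₁' θ₂' y x * ‖Φ x‖ ^ 2 ∂(piN ι))
        + Lam * ((∑ i, rk K ε i Φ)
          + ∫ x, (nB l y x + nKB K l y x) * ‖Φ x‖ ^ 2 ∂(piN ι)) := by
    rw [← ims hv hL y h]
    refine le_trans (Finset.sum_le_sum fun S _ =>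
      R06_E3_one hv hev hLam hK hε hL y h hchem hvm hle hq hdis hκ hbox hcov S) ?_
    rw [Finset.sum_add_distrib, ← Finset.mul_sum]
    have h3 := mul_le_mul_of_nonneg_left (ims_K hl hl8 hK hε hL h2 y hΦ) hLam
    linarith
  have hD : Integrable (fun x : ι → T3 => Dth θ₁' θ₂' y x * ‖Φ x‖ ^ 2) (piN ι) := by
    refine E3_int h.hg.mem (C := ∑ _i : ι, 3 / l ^ 2) ?_ fun x => ?_
    · unfold Dth
      refine Finset.measurable_sum _ fun i _ => Finset.measurable_sum _ fun α _ => ?_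
      have h1 : Measurable fun x : ι → T3 => x i - y := (measurable_pi_apply i).sub measurable_const
      exact (((hL.meas1 α).comp h1).pow_const 2).add (((hL.meas2 α).comp h1).pow_const 2)
    · unfold Dth
      rw [abs_of_nonneg (Finset.sum_nonneg fun i _ => Finset.sum_nonneg fun α _ => by positivity)]
      exact Finset.sum_le_sum fun i _ => hL.grad (x i - y)
  have hA : ∑ S ∈ (Finset.univ : Finset ι).powerset,
      ((κ - μ) * (S.card : ℝ) + (e - κ * (Fintype.card C : ℝ))) *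
        ∫ x, Th θ₁ θ₂ y S x ^ 2 * ‖Φ x‖ ^ 2 ∂(piN ι)
      = ∫ x, ((κ - μ) * nTh θ₁ y x + (e - κ * (Fintype.card C : ℝ))) * ‖Φ x‖ ^ 2 ∂(piN ι) := by
    simp only [← integral_const_mul]
    rw [← integral_finsetSum _ fun S _ => (hint S).const_mul _]
    refine integral_congr_ae (Eventually.of_forall fun x => ?_)
    simp only
    have h1 := Th_sum hL y x
    have h2 := Th_card hL y x
    calc ∑ S ∈ (Finset.univ : Finset ι).powerset,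
          ((κ - μ) * (S.card : ℝ) + (e - κ * (Fintype.card C : ℝ)))
            * (Th θ₁ θ₂ y S x ^ 2 * ‖Φ x‖ ^ 2)
        = ((κ - μ) * (∑ S ∈ (Finset.univ : Finset ι).powerset, (S.card : ℝ) * Th θ₁ θ₂ y S x ^ 2)
          + (e - κ * (Fintype.card C : ℝ))
            * ∑ S ∈ (Finset.univ : Finset ι).powerset, Th θ₁ θ₂ y S x ^ 2) * ‖Φ x‖ ^ 2 := by
          rw [Finset.mul_sum, Finset.mul_sum, ← Finset.sum_add_distrib, Finset.sum_mul]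
          exact Finset.sum_congr rfl fun S _ => by ring
      _ = _ := by rw [h1, h2, mul_one]
  have hN : Integrable (fun x : ι → T3 => ((κ - μ) * nTh θ₁ y x + (e - κ * (Fintype.card C : ℝ)))
      * ‖Φ x‖ ^ 2) (piN ι) :=
    F3_x hΦ (((F3_slice hn y).const_mul _).add (BM.const _))
  have hfin : ∫ x, ((κ - μ) * nTh θ₁ y x - κ * (Fintype.card C : ℝ) + e - Dth θ₁' θ₂' y x
        - Lam * (nB l y x + nKB K l y x))
        * ‖Φ x‖ ^ 2 ∂(piN ι)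
      = (∫ x, ((κ - μ) * nTh θ₁ y x + (e - κ * (Fintype.card C : ℝ))) * ‖Φ x‖ ^ 2 ∂(piN ι))
        - (∫ x, Dth θ₁' θ₂' y x * ‖Φ x‖ ^ 2 ∂(piN ι))
        - Lam * ∫ x, (nB l y x + nKB K l y x) * ‖Φ x‖ ^ 2 ∂(piN ι) := by
    have hND : Integrable (fun x : ι → T3 => ((κ - μ) * nTh θ₁ y x
        + (e - κ * (Fintype.card C : ℝ))) * ‖Φ x‖ ^ 2 - Dth θ₁' θ₂' y x * ‖Φ x‖ ^ 2) (piN ι) :=
      hN.sub hD
    rw [← integral_sub hN hD, ← integral_const_mul, ← integral_sub hND (hG.const_mul Lam)]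
    refine integral_congr_ae (Eventually.of_forall fun x => ?_)
    simp only
    ring
  rw [hfin, ← hA]
  linarith

end Pool.Agent.Lib.MP_4952d6_mp.LK
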