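import Pool.Agent.Lib.MP_4952d6_mp.Pr.R03
import Pool.Agent.Lib.MP_4952d6_mp.Pq.P07

/-!
# Pr.R07 (leaf F1): particle numbers after one jump

* `nKT_eq`: `nKT K θ y x = ∫ w, K w * nTh θ (y + w) x` (substitution `z = x i - w`, `integral_sub_left_eq_self`: `∫ z, F (x i - z) = ∫ z, F z`; `x i - w - y = x i - (y + w)`); the same for
  `nKB_eq` with `nB l (y + w) x` (`nB` is the sum of `F2_chi (2 l) (x i - y)` by definition).
* `nKB_bm2`, `nKT_bm2`: bounded measurable in both variables (`BM.integral_right`, see `F3_avg` in Pk/G53; sum over `i`).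
* `coverK`: by `nKB_eq` and Fubini `∫ y, nKB K l y x * nTh θ₁ y x ^ p = ∫ w, K w * ∫ y, nB l (y + w) x * nTh θ₁ y x ^ p`; for fixed `w` the inner integral is at most
  `54 ∫ y, nTh θ₁ y x ^ (p + 1)`: proof of `cover` (Pk/G53 l.1717-1835) with `nB l (y + w) x ≤ (1/V) ∫ z, χ z * nTh θ₁ (y + w + z) x`, then for every shift `c`
  `∫ y, nTh θ₁ (y + c) x * nTh θ₁ y x ^ p ≤ ∫ y, nTh θ₁ y x ^ (p + 1)` (weighted AM-GM `a b^p ≤ (a^(p+1) + p b^(p+1))/(p+1)`, translation invariance; see how `cover` does it).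
* `momKT`: `nKT_eq`, Jensen (`(∫ K g)^p ≤ ∫ K g^p` for `g ≥ 0`, `∫ K = 1`: `ConvexOn.map_integral_le` or Hoelder, see how the repository does it in `htj`/`nzp` lemmas, Po/N09 `nzp_mono`),
  Fubini, translation invariance.
* `R07_dk`: as `P07_dq` (Pq/P07): `P07_point` for `q = p + 1` and `∫ z, K (x i - z) (θ₁(x i - y)² + θ₁(z - y)²) dz = θ₁(x i - y)² + ∫ z, K (x i - z) θ₁(z - y)²`; sum over `i`:
  `∑ dk ≤ ½ q² ∫ (n + 1)^(2q-2) (n + n') ‖ψ‖²`, `n = nTh`, `n' = nKT`; for `a = n + 1 ≥ 1`: `a^(2q-2) (n + n') ≤ a^(2q) + a^(2q-2) n' ≤ a^(2q) + a^(2q) + n'^(2q)`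
  (`a^(2q-2) n' ≤ a^(2q)` if `n' ≤ a²`..., simpler: `a^(2q-2) n' ≤ max (a, n')^(2q-1) ≤ a^(2q) + 1 + n'^(2q)`), and `P07_two`. For `q = 0` both sides are `0` (the left side by `pow_zero`).
-/

set_option autoImplicit false
set_option linter.unusedSectionVars false
set_option linter.unusedVariables false
open MeasureTheory Function Filter Topology Set ComplexConjugate
open scoped ENNReal

namespace Pool.Agent.Lib.MP_4952d6_mp.LK

open LA

variable {ι : Type*} [Fintype ι] [DecidableEq ι]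

open LG

private lemma R07_sub (K F : T3 → ℝ) (u y : T3) :
    ∫ z, K (u - z) * F (z - y) ∂lam3 = ∫ w, K w * F (u - (y + w)) ∂lam3 := by
  rw [← integral_sub_left_eq_self (fun z => K (u - z) * F (z - y)) lam3 u]
  refine integral_congr_ae (Eventually.of_forall fun w => ?_)
  have e1 : u - (u - w) = w := sub_sub_cancel u w
  have e2 : u - w - y = u - (y + w) := by rw [sub_sub, add_comm]
  simp only [e1, e2]

private lemma R07_m1 (u : T3) : Measurable fun z : T3 => u - z :=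
  (continuous_const.sub continuous_id).measurable

private lemma R07_m2 (u y : T3) : Measurable fun w : T3 => u - (y + w) :=
  (continuous_const.sub (continuous_const.add continuous_id)).measurable

private lemma R07_chi (l : ℝ) (y : T3) (x : ι → T3) :
    nB l y x = ∑ i, F2_chi (2 * l) (x i - y) := rfl

private lemma R07_int1 {K : T3 → ℝ} (hK : Ker K) (u : T3) : ∫ z, K (u - z) ∂lam3 = 1 := by
  rw [integral_sub_left_eq_self K lam3 u]
  exact hK.int

private lemma R07_mul {g : T3 → ℝ} (c : ℝ) (K : T3 → ℝ) :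
    ∫ z, g z * (K z * c) ∂lam3 = (∫ z, g z * K z ∂lam3) * c := by
  rw [← integral_mul_const]
  refine integral_congr_ae (Eventually.of_forall fun z => ?_)
  simp only
  ring

theorem nKT_eq {K : T3 → ℝ} (hK : Ker K) {l : ℝ} {θ₁ θ₂ : T3 → ℝ} {θ₁' θ₂' : Fin 3 → T3 → ℝ}
    (hL : Loc2 l θ₁ θ₂ θ₁' θ₂') (y : T3) (x : ι → T3) :
    nKT K θ₁ y x = ∫ w, K w * nTh θ₁ (y + w) x ∂lam3 := by
  unfold nKT nTh
  have hT := H3_theta hL
  have e1 : ∀ i : ι, ∫ z, K (x i - z) * θ₁ (z - y) ^ 2 ∂lam3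
      = ∫ w, K w * θ₁ (x i - (y + w)) ^ 2 ∂lam3 := fun i =>
    R07_sub K (fun v => θ₁ v ^ 2) (x i) y
  rw [Finset.sum_congr rfl fun i _ => e1 i, ← integral_finsetSum]
  · refine integral_congr_ae (Eventually.of_forall fun w => ?_)
    simp only [Finset.mul_sum]
  · intro i _
    exact (hK.bm.mul ((hT.comp (R07_m2 (x i) y)).pow 2)).integrable _

theorem nKB_eq {K : T3 → ℝ} (hK : Ker K) (l : ℝ) (y : T3) (x : ι → T3) :
    nKB K l y x = ∫ w, K w * nB l (y + w) x ∂lam3 := by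
  unfold nKB
  have e1 : ∀ i : ι, ∫ z, K (x i - z) * F2_chi (2 * l) (z - y) ∂lam3
      = ∫ w, K w * F2_chi (2 * l) (x i - (y + w)) ∂lam3 := fun i =>
    R07_sub K (F2_chi (2 * l)) (x i) y
  rw [Finset.sum_congr rfl fun i _ => e1 i, ← integral_finsetSum]
  · refine integral_congr_ae (Eventually.of_forall fun w => ?_)
    simp only [R07_chi, Finset.mul_sum]
  · intro i _
    exact (hK.bm.mul ((F2_chi_bm (2 * l)).comp (R07_m2 (x i) y))).integrable _

private lemma R07_m3 : Measurable fun q : (T3 × (ι → T3)) × T3 => (q.1.1 + q.2, q.1.2) := by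
  have hadd : Measurable fun q : T3 × T3 => q.1 + q.2 :=
    (continuous_fst.add continuous_snd).measurable
  exact (hadd.comp ((measurable_fst.comp measurable_fst).prodMk measurable_snd)).prodMk
    (measurable_snd.comp measurable_fst)

private lemma R07_avg {K : T3 → ℝ} (hK : Ker K) {H : T3 × (ι → T3) → ℝ} (hH : BM H) :
    BM (fun p : T3 × (ι → T3) => ∫ w, K w * H (p.1 + w, p.2) ∂lam3) :=
  BM.integral_right (f := fun (p : T3 × (ι → T3)) w => K w * H (p.1 + w, p.2))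
    ((hK.bm.comp measurable_snd).mul (hH.comp R07_m3)) lam3

theorem nKT_bm2 {K : T3 → ℝ} (hK : Ker K) {l : ℝ} {θ₁ θ₂ : T3 → ℝ} {θ₁' θ₂' : Fin 3 → T3 → ℝ}
    (hL : Loc2 l θ₁ θ₂ θ₁' θ₂') : BM (fun p : T3 × (ι → T3) => nKT K θ₁ p.1 p.2) := by
  have e : (fun p : T3 × (ι → T3) => nKT K θ₁ p.1 p.2)
      = fun p => ∫ w, K w * nTh θ₁ (p.1 + w) p.2 ∂lam3 := by
    funext p
    exact nKT_eq hK hL p.1 p.2
  rw [e]
  exact R07_avg hK (nTh_bm (ι := ι) hL).1

private lemma R07_nB (l : ℝ) : BM (fun p : T3 × (ι → T3) => nB l p.1 p.2) := by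
  have hmap : ∀ i : ι, Measurable (fun p : T3 × (ι → T3) => p.2 i - p.1) := fun i =>
    ((measurable_pi_apply i).comp measurable_snd).sub measurable_fst
  exact BM.finset_sum Finset.univ fun i _ => (F2_chi_bm (2 * l)).comp (hmap i)

theorem nKB_bm2 {K : T3 → ℝ} (hK : Ker K) (l : ℝ) :
    BM (fun p : T3 × (ι → T3) => nKB K l p.1 p.2) := by
  have e : (fun p : T3 × (ι → T3) => nKB K l p.1 p.2)
      = fun p => ∫ w, K w * nB l (p.1 + w) p.2 ∂lam3 := by
    funext p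
    exact nKB_eq hK l p.1 p.2
  rw [e]
  exact R07_avg hK (R07_nB l)

theorem nKT_nonneg {K : T3 → ℝ} (hK : Ker K) (θ : T3 → ℝ) (y : T3) (x : ι → T3) :
    0 ≤ nKT K θ y x := by
  exact Finset.sum_nonneg fun i _ => integral_nonneg fun z => mul_nonneg (hK.nonneg _) (sq_nonneg _)

theorem nKB_nonneg {K : T3 → ℝ} (hK : Ker K) (l : ℝ) (y : T3) (x : ι → T3) : 0 ≤ nKB K l y x := by
  exact Finset.sum_nonneg fun i _ => integral_nonneg fun z =>
    mul_nonneg (hK.nonneg _) (F2_chi_nonneg _ _)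

private lemma R07_cover {l : ℝ} (hl : 0 < l) (hl8 : l ≤ 1 / 8) {θ₁ θ₂ : T3 → ℝ}
    {θ₁' θ₂' : Fin 3 → T3 → ℝ} (hL : Loc2 l θ₁ θ₂ θ₁' θ₂') (p : ℕ) (x : ι → T3) (c : T3) :
    ∫ y, nB l (y + c) x * nTh θ₁ y x ^ p ∂lam3 ≤ 54 * ∫ y, nTh θ₁ y x ^ (p + 1) ∂lam3 := by
  obtain ⟨b1, h0, h1, b2⟩ := nTh_bm (ι := ι) hL
  have mx : Measurable fun y : T3 => (y, x) := measurable_id.prodMk measurable_const
  have bN : BM (fun y : T3 => nTh θ₁ y x) := b1.comp mx
  have mc : Measurable fun y : T3 => y + c := (continuous_id.add continuous_const).measurable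
  have bB : BM (fun y : T3 => nB l (y + c) x) := (F2_slice b2 x).comp mc
  have hN0 : ∀ y, 0 ≤ nTh θ₁ y x := fun y => h0 y x
  have bθ : BM θ₁ := ⟨(hL.wd1 0).sm.measurable, (hL.wd1 0).bdd⟩
  set V := sig / 3 * l ^ 3 with hV
  have hV0 : 0 < V := by
    have := sig_pos
    positivity
  obtain ⟨χ, hχ⟩ : ∃ χ : T3 → ℝ, χ = F2_chi (3 * l) := ⟨_, rfl⟩
  have bχ : BM χ := hχ ▸ F2_chi_bm (3 * l)
  have hχ0 : ∀ z, 0 ≤ χ z := hχ ▸ F2_chi_nonneg (3 * l)
  have iχ : ∫ z, χ z ∂lam3 = 27 * V := by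
    rw [hχ, F2_chi_int (by linarith) (by linarith), hV]
    ring
  have hpt : ∀ u : T3, V * {z : T3 | rr z ≤ 2 * l}.indicator (fun _ => (1 : ℝ)) u
      ≤ ∫ z, χ z * θ₁ (u - z) ^ 2 ∂lam3 := by
    intro u
    rw [hχ, hV]
    exact F2_point hl hl8 bθ hL.one u
  have hadd : Measurable fun q : T3 × T3 => q.1 + c + q.2 :=
    ((continuous_fst.add continuous_const).add continuous_snd).measurable
  -- pointwise in `y`
  have key : ∀ y, V * nB l (y + c) x ≤ ∫ z, χ z * nTh θ₁ (y + c + z) x ∂lam3 := by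
    intro y
    have e1 : V * nB l (y + c) x
        = ∑ i, V * {z : T3 | rr z ≤ 2 * l}.indicator (fun _ => (1 : ℝ)) (x i - (y + c)) := by
      unfold nB
      rw [Finset.mul_sum]
    have e2 : ∫ z, χ z * nTh θ₁ (y + c + z) x ∂lam3
        = ∑ i, ∫ z, χ z * θ₁ ((x i - (y + c)) - z) ^ 2 ∂lam3 := by
      rw [← integral_finsetSum]
      · refine integral_congr_ae (Eventually.of_forall fun z => ?_)
        simp only [nTh, Finset.mul_sum, sub_sub]
      · intro i _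
        have hm : Measurable fun z : T3 => x i - (y + c) - z :=
          (continuous_const.sub continuous_id).measurable
        exact (bχ.mul ((bθ.comp hm).pow 2)).integrable _
    rw [e1, e2]
    exact Finset.sum_le_sum fun i _ => hpt (x i - (y + c))
  -- the double integral
  have bQ : BM (uncurry fun y z : T3 => χ z * nTh θ₁ (y + c + z) x) :=
    (bχ.comp measurable_snd).mul (bN.comp hadd)
  have bG : BM (uncurry fun y z : T3 => χ z * nTh θ₁ (y + c + z) x ^ (p + 1)) :=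
    (bχ.comp measurable_snd).mul ((bN.comp hadd).pow (p + 1))
  have bQ1 : BM (fun y : T3 => ∫ z, χ z * nTh θ₁ (y + c + z) x ∂lam3) := BM.integral_right bQ lam3
  have bG1 : BM (fun y : T3 => ∫ z, χ z * nTh θ₁ (y + c + z) x ^ (p + 1) ∂lam3) :=
    BM.integral_right bG lam3
  have iG : ∫ y, ∫ z, χ z * nTh θ₁ (y + c + z) x ^ (p + 1) ∂lam3 ∂lam3
      = 27 * V * ∫ y, nTh θ₁ y x ^ (p + 1) ∂lam3 := by
    rw [integral_integral_swap (bG.integrable _)]
    have e3 : ∀ z : T3, ∫ y, χ z * nTh θ₁ (y + c + z) x ^ (p + 1) ∂lam3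
        = χ z * ∫ y, nTh θ₁ y x ^ (p + 1) ∂lam3 := by
      intro z
      have e4 := integral_add_right_eq_self (μ := lam3) (fun y => nTh θ₁ y x ^ (p + 1)) (c + z)
      rw [integral_const_mul, ← e4]
      refine congrArg (fun t => χ z * t) (integral_congr_ae (Eventually.of_forall fun y => ?_))
      simp only [add_assoc]
    simp only [e3]
    rw [integral_mul_const, iχ]
  have h3 : V * ∫ y, nB l (y + c) x * nTh θ₁ y x ^ p ∂lam3
      ≤ ∫ y, ((∫ z, χ z * nTh θ₁ (y + c + z) x ^ (p + 1) ∂lam3)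
        + 27 * V * nTh θ₁ y x ^ (p + 1)) ∂lam3 := by
    rw [← integral_const_mul]
    refine integral_mono (((bB.mul (bN.pow p)).const_mul V).integrable _)
      ((bG1.add ((bN.pow (p + 1)).const_mul (27 * V))).integrable _) fun y => ?_
    simp only
    have h4 : V * (nB l (y + c) x * nTh θ₁ y x ^ p)
        ≤ (∫ z, χ z * nTh θ₁ (y + c + z) x ∂lam3) * nTh θ₁ y x ^ p := by
      rw [← mul_assoc]
      exact mul_le_mul_of_nonneg_right (key y) (pow_nonneg (hN0 y) p)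
    refine h4.trans ?_
    rw [← integral_mul_const, ← iχ, ← integral_mul_const, ← integral_add]
    · have my : Measurable fun z : T3 => y + c + z := (continuous_const.add continuous_id).measurable
      refine integral_mono (((bχ.mul (bN.comp my)).mul (BM.const _)).integrable _)
        (((bχ.mul ((bN.comp my).pow (p + 1))).add (bχ.mul (BM.const _))).integrable _) fun z => ?_
      simp only
      have h5 := F2_young (hN0 (y + c + z)) (hN0 y) p
      have h6 := mul_le_mul_of_nonneg_left h5 (hχ0 z)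
      linarith
    · have my : Measurable fun z : T3 => y + c + z := (continuous_const.add continuous_id).measurable
      exact (bχ.mul ((bN.comp my).pow (p + 1))).integrable _
    · exact (bχ.mul (BM.const _)).integrable _
  rw [integral_add (bG1.integrable _) (((bN.pow (p + 1)).const_mul (27 * V)).integrable _), iG,
    integral_const_mul] at h3
  have h7 : V * ∫ y, nB l (y + c) x * nTh θ₁ y x ^ p ∂lam3
      ≤ V * (54 * ∫ y, nTh θ₁ y x ^ (p + 1) ∂lam3) := by linarith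
  exact le_of_mul_le_mul_left h7 hV0

theorem coverK {K : T3 → ℝ} (hK : Ker K) {l : ℝ} (hl : 0 < l) (hl8 : l ≤ 1 / 8) {θ₁ θ₂ : T3 → ℝ}
    {θ₁' θ₂' : Fin 3 → T3 → ℝ} (hL : Loc2 l θ₁ θ₂ θ₁' θ₂') (p : ℕ) (x : ι → T3) :
    ∫ y, nKB K l y x * nTh θ₁ y x ^ p ∂lam3 ≤ 54 * ∫ y, nTh θ₁ y x ^ (p + 1) ∂lam3 := by
  obtain ⟨b1, h0, h1, b2⟩ := nTh_bm (ι := ι) hL
  have bN : BM (fun y : T3 => nTh θ₁ y x) := F2_slice b1 x
  have bB : BM (fun y : T3 => nB l y x) := F2_slice b2 x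
  have hadd : Measurable fun q : T3 × T3 => q.1 + q.2 :=
    (continuous_fst.add continuous_snd).measurable
  have bG : BM (uncurry fun y w : T3 => K w * (nB l (y + w) x * nTh θ₁ y x ^ p)) :=
    (hK.bm.comp measurable_snd).mul ((bB.comp hadd).mul ((bN.comp measurable_fst).pow p))
  have e1 : ∫ y, nKB K l y x * nTh θ₁ y x ^ p ∂lam3
      = ∫ y, ∫ w, K w * (nB l (y + w) x * nTh θ₁ y x ^ p) ∂lam3 ∂lam3 := by
    refine integral_congr_ae (Eventually.of_forall fun y => ?_)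
    simp only
    rw [nKB_eq hK l y x, ← integral_mul_const]
    refine integral_congr_ae (Eventually.of_forall fun w => ?_)
    simp only
    ring
  rw [e1, integral_integral_swap (bG.integrable _)]
  have bG2 : BM (uncurry fun w y : T3 => K w * (nB l (y + w) x * nTh θ₁ y x ^ p)) :=
    bG.comp measurable_swap
  have bG3 : BM (fun w : T3 => ∫ y, K w * (nB l (y + w) x * nTh θ₁ y x ^ p) ∂lam3) :=
    BM.integral_right bG2 lam3
  have h3 : ∫ w, ∫ y, K w * (nB l (y + w) x * nTh θ₁ y x ^ p) ∂lam3 ∂lam3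
      ≤ ∫ w, K w * (54 * ∫ y, nTh θ₁ y x ^ (p + 1) ∂lam3) ∂lam3 := by
    refine integral_mono (bG3.integrable _) ((hK.bm.mul (BM.const _)).integrable _) fun w => ?_
    simp only
    rw [integral_const_mul]
    exact mul_le_mul_of_nonneg_left (R07_cover hl hl8 hL p x w) (hK.nonneg w)
  refine h3.trans (le_of_eq ?_)
  rw [integral_mul_const, hK.int, one_mul]

private lemma R07_jensen {K : T3 → ℝ} (hK : Ker K) {g : T3 → ℝ} (hg : BM g) (hg0 : ∀ z, 0 ≤ g z)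
    (p : ℕ) : (∫ w, K w * g w ∂lam3) ^ p ≤ ∫ w, K w * g w ^ p ∂lam3 := by
  rcases Nat.eq_zero_or_pos p with hp | hp
  · subst hp
    simp only [pow_zero, mul_one]
    rw [hK.int]
  · obtain ⟨q, rfl⟩ : ∃ q, p = q + 1 := ⟨p - 1, by omega⟩
    obtain ⟨m, hm⟩ : ∃ m, m = ∫ w, K w * g w ∂lam3 := ⟨_, rfl⟩
    have hm0 : 0 ≤ m := by
      rw [hm]
      exact integral_nonneg fun w => mul_nonneg (hK.nonneg w) (hg0 w)
    have i1 : Integrable (fun w => K w * g w) lam3 := (hK.bm.mul hg).integrable _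
    have i2 : Integrable K lam3 := hK.bm.integrable _
    have h1 : ∫ w, (K w * (m ^ (q + 1) - (q + 1) * m ^ q * m) + (q + 1) * m ^ q * (K w * g w)) ∂lam3
        ≤ ∫ w, K w * g w ^ (q + 1) ∂lam3 := by
      refine integral_mono ((i2.mul_const _).add (i1.const_mul _))
        ((hK.bm.mul (hg.pow (q + 1))).integrable _) fun w => ?_
      have h2 := H3_tangent q (hg0 w) hm0
      have h3 := mul_le_mul_of_nonneg_left h2 (hK.nonneg w)
      simp only
      linarith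
    rw [integral_add (i2.mul_const _) (i1.const_mul _), integral_mul_const, integral_const_mul,
      hK.int, ← hm] at h1
    rw [← hm]
    linarith

theorem momKT {K : T3 → ℝ} (hK : Ker K) {l : ℝ} {θ₁ θ₂ : T3 → ℝ} {θ₁' θ₂' : Fin 3 → T3 → ℝ}
    (hL : Loc2 l θ₁ θ₂ θ₁' θ₂') (p : ℕ) (x : ι → T3) :
    ∫ y, nKT K θ₁ y x ^ p ∂lam3 ≤ ∫ y, nTh θ₁ y x ^ p ∂lam3 := by
  obtain ⟨b1, h0, h1, b2⟩ := nTh_bm (ι := ι) hL
  have bN : BM (fun y : T3 => nTh θ₁ y x) := F2_slice b1 x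
  have hadd : Measurable fun q : T3 × T3 => q.1 + q.2 :=
    (continuous_fst.add continuous_snd).measurable
  have bG : BM (uncurry fun y w : T3 => K w * nTh θ₁ (y + w) x ^ p) :=
    (hK.bm.comp measurable_snd).mul ((bN.comp hadd).pow p)
  have bG1 : BM (fun y : T3 => ∫ w, K w * nTh θ₁ (y + w) x ^ p ∂lam3) :=
    BM.integral_right bG lam3
  have bK : BM (fun y : T3 => nKT K θ₁ y x) := F2_slice (nKT_bm2 hK hL) x
  have h2 : ∫ y, nKT K θ₁ y x ^ p ∂lam3 ≤ ∫ y, ∫ w, K w * nTh θ₁ (y + w) x ^ p ∂lam3 ∂lam3 := by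
    refine integral_mono ((bK.pow p).integrable _) (bG1.integrable _) fun y => ?_
    simp only
    rw [nKT_eq hK hL y x]
    have my : Measurable fun w : T3 => y + w := (continuous_const.add continuous_id).measurable
    exact R07_jensen hK (g := fun w => nTh θ₁ (y + w) x) (bN.comp my) (fun w => h0 _ _) p
  refine h2.trans (le_of_eq ?_)
  rw [integral_integral_swap (bG.integrable _)]
  have e3 : ∀ w : T3, ∫ y, K w * nTh θ₁ (y + w) x ^ p ∂lam3
      = K w * ∫ y, nTh θ₁ y x ^ p ∂lam3 := by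
    intro w
    rw [integral_const_mul, integral_add_right_eq_self (fun y => nTh θ₁ y x ^ p) w]
  simp only [e3]
  rw [integral_mul_const, hK.int, one_mul]

private lemma R07_alg {n m : ℝ} (hn : 0 ≤ n) (hm : 0 ≤ m) (p : ℕ) :
    (n + 1) ^ (2 * p) * (n + m)
      ≤ 2 * 4 ^ (p + 1) * (1 + n ^ (2 * (p + 1)) + m ^ (2 * (p + 1))) := by
  have ha : 1 ≤ n + 1 := by linarith
  have h1 : (n + 1) ^ (2 * p) * n ≤ (n + 1) ^ (2 * (p + 1)) := by
    have h2 : n ≤ (n + 1) ^ 2 := by nlinarith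
    have h3 := mul_le_mul_of_nonneg_left h2 (show 0 ≤ (n + 1) ^ (2 * p) by positivity)
    refine h3.trans (le_of_eq ?_)
    ring
  have h2 : (n + 1) ^ (2 * p) * m ≤ (n + 1) ^ (2 * (p + 1)) + m ^ (2 * (p + 1)) := by
    rcases le_total m (n + 1) with h | h
    · have h3 : m ≤ (n + 1) ^ 2 := by nlinarith
      have h4 := mul_le_mul_of_nonneg_left h3 (show 0 ≤ (n + 1) ^ (2 * p) by positivity)
      have h5 : (n + 1) ^ (2 * p) * (n + 1) ^ 2 = (n + 1) ^ (2 * (p + 1)) := by ring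
      have h6 : 0 ≤ m ^ (2 * (p + 1)) := pow_nonneg hm _
      linarith
    · have h3 : (n + 1) ^ (2 * p) ≤ m ^ (2 * p) := pow_le_pow_left₀ (by linarith) h _
      have h4 : m ≤ m ^ 2 := by nlinarith
      have h5 := mul_le_mul h3 h4 hm (by positivity)
      have h6 : m ^ (2 * p) * m ^ 2 = m ^ (2 * (p + 1)) := by ring
      have h7 : 0 ≤ (n + 1) ^ (2 * (p + 1)) := by positivity
      linarith
  have h3 := P07_two hn (p + 1)
  have h4 : (1 : ℝ) ≤ 4 ^ (p + 1) := one_le_pow₀ (by norm_num)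
  have h5 : 0 ≤ m ^ (2 * (p + 1)) := pow_nonneg hm _
  have h6 : m ^ (2 * (p + 1)) ≤ 4 ^ (p + 1) * m ^ (2 * (p + 1)) := by nlinarith
  have h7 : 0 ≤ (4 : ℝ) ^ (p + 1) * m ^ (2 * (p + 1)) := by positivity
  rw [mul_add]
  calc (n + 1) ^ (2 * p) * n + (n + 1) ^ (2 * p) * m
      ≤ 2 * (4 ^ (p + 1) * (1 + n ^ (2 * (p + 1)))) + 4 ^ (p + 1) * m ^ (2 * (p + 1)) := by linarith
    _ ≤ 2 * 4 ^ (p + 1) * (1 + n ^ (2 * (p + 1)) + m ^ (2 * (p + 1))) := by
        rw [mul_add (2 * 4 ^ (p + 1))]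
        linarith

/-- the commutator terms of all particles -/
theorem R07_dk {K : T3 → ℝ} (hK : Ker K) {l : ℝ} {θ₁ θ₂ : T3 → ℝ} {θ₁' θ₂' : Fin 3 → T3 → ℝ}
    (hL : Loc2 l θ₁ θ₂ θ₁' θ₂') (y : T3) (q : ℕ) {ψ : (ι → T3) → ℂ} (hψ : MemLp ψ 2 (piN ι)) :
    ∑ i, dk K i ψ (fun x => nTh θ₁ y x ^ q)
      ≤ 2 * (q : ℝ) ^ 2 * 4 ^ q
        * ∫ x, (1 + nTh θ₁ y x ^ (2 * q) + nKT K θ₁ y x ^ (2 * q)) * ‖ψ x‖ ^ 2 ∂(piN ι) := by
  rcases Nat.eq_zero_or_pos q with hq | hq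
  · subst hq
    have e : ∀ i : ι, dk K i ψ (fun x => nTh θ₁ y x ^ 0) = 0 := by
      intro i
      unfold dk
      simp
    rw [Finset.sum_eq_zero fun i _ => e i]
    simp
  obtain ⟨p, rfl⟩ : ∃ p, q = p + 1 := ⟨q - 1, by omega⟩
  obtain ⟨hn, hn0, hn1, hB⟩ := nTh_bm (ι := ι) hL
  have hny : BM (fun x : ι → T3 => nTh θ₁ y x) := F3_slice hn y
  have hT := H3_theta hL
  have hKT : BM (fun x : ι → T3 => nKT K θ₁ y x) := F3_slice (nKT_bm2 hK hL) y
  have hmi : ∀ i : ι, Measurable fun x : ι → T3 => x i - y := fun i =>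
    (measurable_pi_apply i).sub measurable_const
  have hmz : Measurable fun z : T3 => z - y := measurable_id.sub measurable_const
  have hmk : ∀ i : ι, Measurable fun r : (ι → T3) × T3 => r.1 i - r.2 := fun i =>
    ((measurable_pi_apply i).comp measurable_fst).sub measurable_snd
  have hms : Measurable fun r : (ι → T3) × T3 => r.2 - y := measurable_snd.sub measurable_const
  have bJ : ∀ i : ι, BM (fun x : ι → T3 => ∫ z, K (x i - z) * θ₁ (z - y) ^ 2 ∂lam3) := fun i =>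
    BM.integral_right (f := fun (x : ι → T3) z => K (x i - z) * θ₁ (z - y) ^ 2)
      ((hK.bm.comp (hmk i)).mul ((hT.comp hms).pow 2)) lam3
  have bR : ∀ i : ι, BM (fun x : ι → T3 => ((p : ℝ) + 1) ^ 2 * (nTh θ₁ y x + 1) ^ (2 * p)
      * (θ₁ (x i - y) ^ 2 + ∫ z, K (x i - z) * θ₁ (z - y) ^ 2 ∂lam3)) := fun i =>
    (((hny.add (BM.const 1)).pow (2 * p)).const_mul (((p : ℝ) + 1) ^ 2)).mul
      (((hT.comp (hmi i)).pow 2).add (bJ i))
  -- one particle
  have h1 : ∀ i : ι, dk K i ψ (fun x => nTh θ₁ y x ^ (p + 1))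
      ≤ 1 / 2 * ∫ x, (((p : ℝ) + 1) ^ 2 * (nTh θ₁ y x + 1) ^ (2 * p)
        * (θ₁ (x i - y) ^ 2 + ∫ z, K (x i - z) * θ₁ (z - y) ^ 2 ∂lam3)) * ‖ψ x‖ ^ 2 ∂(piN ι) := by
    intro i
    unfold dk
    refine mul_le_mul_of_nonneg_left ?_ (by norm_num)
    have bQ : BM (fun r : (ι → T3) × T3 =>
        (nTh θ₁ y r.1 ^ (p + 1) - nTh θ₁ y (update r.1 i r.2) ^ (p + 1)) ^ 2) :=
      ((P06_fst (hny.pow (p + 1))).sub (P06_snd (hny.pow (p + 1)) i)).pow 2
    have bQK : BM (fun r : (ι → T3) × T3 =>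
        (nTh θ₁ y r.1 ^ (p + 1) - nTh θ₁ y (update r.1 i r.2) ^ (p + 1)) ^ 2 * K (r.1 i - r.2)) :=
      bQ.mul (hK.bm.comp (hmk i))
    have bI : BM (fun x : ι → T3 => ∫ z, (nTh θ₁ y x ^ (p + 1)
        - nTh θ₁ y (update x i z) ^ (p + 1)) ^ 2 * K (x i - z) ∂lam3) :=
      BM.integral_right (f := fun x z => (nTh θ₁ y x ^ (p + 1)
        - nTh θ₁ y (update x i z) ^ (p + 1)) ^ 2 * K (x i - z)) bQK lam3
    have e1 : ∫ x, ∫ z, (nTh θ₁ y x ^ (p + 1) - nTh θ₁ y (update x i z) ^ (p + 1)) ^ 2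
        * (K (x i - z) * ‖ψ x‖ ^ 2) ∂lam3 ∂(piN ι)
        = ∫ x, (∫ z, (nTh θ₁ y x ^ (p + 1) - nTh θ₁ y (update x i z) ^ (p + 1)) ^ 2
          * K (x i - z) ∂lam3) * ‖ψ x‖ ^ 2 ∂(piN ι) := by
      refine integral_congr_ae (Eventually.of_forall fun x => ?_)
      exact R07_mul (g := fun z => (nTh θ₁ y x ^ (p + 1) - nTh θ₁ y (update x i z) ^ (p + 1)) ^ 2)
        (‖ψ x‖ ^ 2) (fun z => K (x i - z))
    rw [e1]
    refine integral_mono (F3_x hψ bI) (F3_x hψ (bR i)) fun x => ?_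
    refine mul_le_mul_of_nonneg_right ?_ (sq_nonneg _)
    have bx : BM (fun z : T3 => (nTh θ₁ y x ^ (p + 1)
        - nTh θ₁ y (update x i z) ^ (p + 1)) ^ 2 * K (x i - z)) :=
      bQK.comp (φ := fun z : T3 => (x, z)) (measurable_const.prodMk measurable_id)
    have bk1 : BM (fun z : T3 => K (x i - z)) := hK.bm.comp (R07_m1 (x i))
    have bk2 : BM (fun z : T3 => K (x i - z) * θ₁ (z - y) ^ 2) := bk1.mul ((hT.comp hmz).pow 2)
    have bz : BM (fun z : T3 => ((p : ℝ) + 1) ^ 2 * (nTh θ₁ y x + 1) ^ (2 * p)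
        * (θ₁ (x i - y) ^ 2 * K (x i - z) + K (x i - z) * θ₁ (z - y) ^ 2)) :=
      ((bk1.const_mul (θ₁ (x i - y) ^ 2)).add bk2).const_mul _
    refine (integral_mono (bx.integrable lam3) (bz.integrable lam3) fun z => ?_).trans ?_
    · have h2 := mul_le_mul_of_nonneg_right (P07_point hL y p i x z) (hK.nonneg (x i - z))
      simp only
      refine h2.trans (le_of_eq ?_)
      ring
    · rw [integral_const_mul, integral_add ((bk1.const_mul _).integrable lam3)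
        (bk2.integrable lam3), integral_const_mul, R07_int1 hK (x i), mul_one]
  refine (Finset.sum_le_sum fun i _ => h1 i).trans ?_
  rw [← Finset.mul_sum, ← integral_finsetSum _ fun i _ => F3_x hψ (bR i)]
  have h2 : ∫ x, ∑ i, (((p : ℝ) + 1) ^ 2 * (nTh θ₁ y x + 1) ^ (2 * p)
        * (θ₁ (x i - y) ^ 2 + ∫ z, K (x i - z) * θ₁ (z - y) ^ 2 ∂lam3)) * ‖ψ x‖ ^ 2 ∂(piN ι)
      ≤ ∫ x, (((p : ℝ) + 1) ^ 2 * (2 * 4 ^ (p + 1)))
        * ((1 + nTh θ₁ y x ^ (2 * (p + 1)) + nKT K θ₁ y x ^ (2 * (p + 1))) * ‖ψ x‖ ^ 2)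
        ∂(piN ι) := by
    refine integral_mono (integrable_finsetSum _ fun i _ => F3_x hψ (bR i))
      ((F3_x hψ (((BM.const 1).add (hny.pow (2 * (p + 1)))).add
        (hKT.pow (2 * (p + 1))))).const_mul _) fun x => ?_
    simp only
    rw [← Finset.sum_mul, ← mul_assoc]
    refine mul_le_mul_of_nonneg_right ?_ (sq_nonneg _)
    have e3 : ∑ i, (((p : ℝ) + 1) ^ 2 * (nTh θ₁ y x + 1) ^ (2 * p)
          * (θ₁ (x i - y) ^ 2 + ∫ z, K (x i - z) * θ₁ (z - y) ^ 2 ∂lam3))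
        = ((p : ℝ) + 1) ^ 2 * ((nTh θ₁ y x + 1) ^ (2 * p) * (nTh θ₁ y x + nKT K θ₁ y x)) := by
      rw [← Finset.mul_sum, Finset.sum_add_distrib, mul_assoc]
      rfl
    rw [e3]
    have h4 := R07_alg (hn0 y x) (nKT_nonneg hK θ₁ y x) p
    have h8 := mul_le_mul_of_nonneg_left h4 (sq_nonneg ((p : ℝ) + 1))
    refine h8.trans (le_of_eq ?_)
    ring
  rw [integral_const_mul] at h2
  have h3 := mul_le_mul_of_nonneg_left h2 (show (0 : ℝ) ≤ 1 / 2 by norm_num)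
  refine h3.trans ?_
  have h9 : 0 ≤ ∫ x, (1 + nTh θ₁ y x ^ (2 * (p + 1)) + nKT K θ₁ y x ^ (2 * (p + 1))) * ‖ψ x‖ ^ 2
      ∂(piN ι) := by
    refine integral_nonneg fun x => mul_nonneg ?_ (sq_nonneg _)
    have a1 : 0 ≤ nTh θ₁ y x ^ (2 * (p + 1)) := pow_nonneg (hn0 y x) _
    have a2 : 0 ≤ nKT K θ₁ y x ^ (2 * (p + 1)) := pow_nonneg (nKT_nonneg hK θ₁ y x) _
    show 0 ≤ 1 + nTh θ₁ y x ^ (2 * (p + 1)) + nKT K θ₁ y x ^ (2 * (p + 1))
    linarith
  have h10 : 0 ≤ ((p : ℝ) + 1) ^ 2 * 4 ^ (p + 1) := by positivity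
  have h11 := mul_nonneg h10 h9
  push_cast
  linarith

end Pool.Agent.Lib.MP_4952d6_mp.LK
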