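import Pool.Agent.Lib.MP_4952d6_mp.Pr.R05
import Pool.Agent.Lib.MP_4952d6_mp.Pr.R06
import Pool.Agent.Lib.MP_4952d6_mp.Pr.R07
import Pool.Agent.Lib.MP_4952d6_mp.Pq.P07

/-!
# Pr.R08 (leaf F2): moments at the scale `l`

Model Pq/P07 (`P07_one`, `P07_rec`, `P07_alg`, `momentsG`, `hk_momentsG`: copy) with `loc_energyK`, `min_FK`, `ck_le`, `R07_dk`, `cover`, `coverK`, `momKT` instead of
`loc_energyG`, `min_FG`, `cq_le`, `P07_dq`, `cover`. There is no volume term.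
* `R08_one` (fixed `y`): the term `- Lam ∫ (nB + nKB) nTh^(2q)` comes from `loc_energyK`, the commutator `Lam ∑ ck ≤ Lam ∑ dk` from `min_FK`.
* `R08_rec`: multiply by `l²` (`Lam l² ≤ 1`), integrate over `y`: `(3 + 1) * 54 = 216` for `nB` and `54` for `nKB`: `270`; `∫∫ nKT^(2q) ≤ Xm (2q)` (`momKT`, Fubini).
* `momentsK`: in `momentsG` replace `216, 217` by `270, 271`; the additional terms are `2 q² 4^q (1 + 2 Xm (2q))`.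
* `hk_momentsK`: literally `hk_momentsG`.
-/

set_option autoImplicit false
set_option linter.unusedSectionVars false
set_option linter.unusedVariables false
open MeasureTheory Function Filter Topology Set ComplexConjugate
open scoped ENNReal

namespace Pool.Agent.Lib.MP_4952d6_mp.LK

open LA

variable {ι : Type*} [Fintype ι] [DecidableEq ι]

open LG

theorem R08_one {R₀ Lam l μ e κ : ℝ} {K : T3 → ℝ} {ε : ℝ} {𝒱 : T3 → ℝ≥0∞} {ψ : (ι → T3) → ℂ}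
    {g : ι → Fin 3 → (ι → T3) → ℂ} (hM : MiniK l Lam K ε R₀ 𝒱 μ e ψ g) (hl : 0 < l) (hl8 : l ≤ 1 / 8)
    {θ₁ θ₂ : T3 → ℝ} {θ₁' θ₂' : Fin 3 → T3 → ℝ} (hL : Loc2 l θ₁ θ₂ θ₁' θ₂')
    (hθ₂ : ∀ x, 0 ≤ θ₂ x) {v : T3 → ℝ≥0∞}
    (hvm : Measurable v) (hle : ∀ᵐ z ∂lam3, R₀ ≤ rr z → v z ≤ 𝒱 z) {m : ℕ} (hm : 0 < m)
    (hκ : 0 ≤ κ) (hbox : ∀ b : Fin 3 → ℝ, BoxIneq (ENNReal.ofReal κ) v (tbox b (4 * l / m)))
    (q : ℕ) (y : T3) :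
    (κ - μ) * (∫ x, nTh θ₁ y x ^ (2 * q + 1) * ‖ψ x‖ ^ 2 ∂(piN ι))
      - κ * (m : ℝ) ^ 3 * (∫ x, nTh θ₁ y x ^ (2 * q) * ‖ψ x‖ ^ 2 ∂(piN ι))
      - (3 / l ^ 2 + Lam) * (∫ x, (nB l y x * nTh θ₁ y x ^ (2 * q)) * ‖ψ x‖ ^ 2 ∂(piN ι))
      - Lam * (∫ x, (nKB K l y x * nTh θ₁ y x ^ (2 * q)) * ‖ψ x‖ ^ 2 ∂(piN ι))
      ≤ 12 * (q : ℝ) ^ 2 / l ^ 2 * (∫ x, nTh θ₁ y x ^ (2 * q - 1) * ‖ψ x‖ ^ 2 ∂(piN ι))
        + Lam * (2 * (q : ℝ) ^ 2 * 4 ^ q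
          * ∫ x, (1 + nTh θ₁ y x ^ (2 * q) + nKT K θ₁ y x ^ (2 * q)) * ‖ψ x‖ ^ 2 ∂(piN ι)) := by
  have hψ := hM.fe.hg.mem
  obtain ⟨hn, hn0, hn1, hB⟩ := nTh_bm (ι := ι) hL
  have hny : BM (fun x : ι → T3 => nTh θ₁ y x) := F3_slice hn y
  have hBy : BM (fun x : ι → T3 => nB l y x) := F3_slice hB y
  have hw := nTh_pow_WDN (ι := ι) hL y q
  have hFE := hM.fe.mul hw
  have h4l : (0 : ℝ) < 4 * l := by linarith
  have hm1 : (1 : ℝ) ≤ m := by exact_mod_cast hm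
  have hmr : 4 * l / m ≤ 1 := by
    rw [div_le_one (by linarith)]
    linarith
  have hKy : BM (fun x : ι → T3 => nKB K l y x) := nKB_bm hM.ker l y
  have hTy : BM (fun x : ι → T3 => nKT K θ₁ y x) := F3_slice (nKT_bm2 hM.ker hL) y
  have hloc := loc_energyK (C := Fin 3 → Fin m) hM.hv hM.hev hl hl8 hM.la0 hM.ker hM.eps hL hθ₂ y hFE hM.chem
    hvm hle
    (q := fun c => tbox (cellc (fun α => crd y α - 4 * l / 2) (4 * l) m c) (4 * l / m))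
    (fun c => tbox_meas _ hmr)
    (fun c c' hcc => cells_disj _ h4l (by linarith) hm hcc) hκ
    (fun c => hbox _)
    (fun x hx => cells_cover _ h4l hm (mem_tbox (by linarith)))
  have hcard : (Fintype.card (Fin 3 → Fin m) : ℝ) = (m : ℝ) ^ 3 := by
    rw [Fintype.card_fun, Fintype.card_fin, Fintype.card_fin]
    push_cast
    rfl
  rw [hcard] at hloc
  have hmin := min_FK hM.hv hM.ker hM.eps hM.fe hM.la0 hw hM.e0 hM.hmin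
    (by rw [hM.nrm, mul_one]; exact hM.heq)
  rw [hmin] at hloc
  have hpow : ∀ k : ℕ, BM (fun x : ι → T3 => nTh θ₁ y x ^ k) := fun k => hny.pow k
  -- the commutator of the jump term
  have hcq : Lam * ∑ i, ck K ε i ψ (fun x => nTh θ₁ y x ^ q)
      ≤ Lam * (2 * (q : ℝ) ^ 2 * 4 ^ q
          * ∫ x, (1 + nTh θ₁ y x ^ (2 * q) + nKT K θ₁ y x ^ (2 * q)) * ‖ψ x‖ ^ 2 ∂(piN ι)) := by
    refine mul_le_mul_of_nonneg_left ?_ hM.la0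
    refine (Finset.sum_le_sum fun i _ => ck_le hM.ker hM.eps hψ i (hpow q)).trans ?_
    exact R07_dk hM.ker hL y q hψ
  -- bounded measurable functions
  have hDm : BM (fun x : ι → T3 => Dth θ₁' θ₂' y x) := by
    have hms : ∀ i : ι, Measurable (fun x : ι → T3 => x i - y) := fun i =>
      measurable_sub' (measurable_pi_apply i) measurable_const
    refine ⟨?_, 3 / l ^ 2 * Fintype.card ι, fun x => ?_⟩
    · unfold Dth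
      exact Finset.measurable_sum _ fun i _ => Finset.measurable_sum _ fun α _ =>
        (((hL.meas1 α).comp (hms i)).pow_const 2).add (((hL.meas2 α).comp (hms i)).pow_const 2)
    · have h0 : 0 ≤ Dth θ₁' θ₂' y x := Finset.sum_nonneg fun i _ =>
        Finset.sum_nonneg fun α _ => add_nonneg (sq_nonneg _) (sq_nonneg _)
      rw [abs_of_nonneg h0]
      unfold Dth
      refine (Finset.sum_le_sum fun i _ => hL.grad (x i - y)).trans (le_of_eq ?_)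
      rw [Finset.sum_const, Finset.card_univ, nsmul_eq_mul, mul_comm]
  -- the left side
  have e1 : ∫ x, ((κ - μ) * nTh θ₁ y x - κ * (m : ℝ) ^ 3 + e - Dth θ₁' θ₂' y x
        - Lam * (nB l y x + nKB K l y x))
        * ‖mG (fun x => nTh θ₁ y x ^ q) ψ x‖ ^ 2 ∂(piN ι)
      = (κ - μ) * (∫ x, nTh θ₁ y x ^ (2 * q + 1) * ‖ψ x‖ ^ 2 ∂(piN ι))
        - κ * (m : ℝ) ^ 3 * (∫ x, nTh θ₁ y x ^ (2 * q) * ‖ψ x‖ ^ 2 ∂(piN ι))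
        + e * (∫ x, (nTh θ₁ y x ^ q) ^ 2 * ‖ψ x‖ ^ 2 ∂(piN ι))
        - (∫ x, (Dth θ₁' θ₂' y x * nTh θ₁ y x ^ (2 * q)) * ‖ψ x‖ ^ 2 ∂(piN ι))
        - Lam * (∫ x, (nB l y x * nTh θ₁ y x ^ (2 * q)) * ‖ψ x‖ ^ 2 ∂(piN ι))
        - Lam * (∫ x, (nKB K l y x * nTh θ₁ y x ^ (2 * q)) * ‖ψ x‖ ^ 2 ∂(piN ι)) := by
    have i1 := (F3_x hψ (hpow (2 * q + 1))).const_mul (κ - μ)
    have i2 := (F3_x hψ (hpow (2 * q))).const_mul (κ * (m : ℝ) ^ 3)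
    have i3 := (F3_x hψ ((hpow q).pow 2)).const_mul e
    have i4 := F3_x hψ (hDm.mul (hpow (2 * q)))
    have i5 := (F3_x hψ (hBy.mul (hpow (2 * q)))).const_mul Lam
    have i6 := (F3_x hψ (hKy.mul (hpow (2 * q)))).const_mul Lam
    have i12 : Integrable (fun x => (κ - μ) * (nTh θ₁ y x ^ (2 * q + 1) * ‖ψ x‖ ^ 2)
        - κ * (m : ℝ) ^ 3 * (nTh θ₁ y x ^ (2 * q) * ‖ψ x‖ ^ 2)) (piN ι) := i1.sub i2
    have i123 : Integrable (fun x => (κ - μ) * (nTh θ₁ y x ^ (2 * q + 1) * ‖ψ x‖ ^ 2)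
        - κ * (m : ℝ) ^ 3 * (nTh θ₁ y x ^ (2 * q) * ‖ψ x‖ ^ 2)
        + e * ((nTh θ₁ y x ^ q) ^ 2 * ‖ψ x‖ ^ 2)) (piN ι) := i12.add i3
    have i1234 : Integrable (fun x => (κ - μ) * (nTh θ₁ y x ^ (2 * q + 1) * ‖ψ x‖ ^ 2)
        - κ * (m : ℝ) ^ 3 * (nTh θ₁ y x ^ (2 * q) * ‖ψ x‖ ^ 2)
        + e * ((nTh θ₁ y x ^ q) ^ 2 * ‖ψ x‖ ^ 2)
        - (Dth θ₁' θ₂' y x * nTh θ₁ y x ^ (2 * q)) * ‖ψ x‖ ^ 2) (piN ι) := i123.sub i4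
    have i12345 : Integrable (fun x => (κ - μ) * (nTh θ₁ y x ^ (2 * q + 1) * ‖ψ x‖ ^ 2)
        - κ * (m : ℝ) ^ 3 * (nTh θ₁ y x ^ (2 * q) * ‖ψ x‖ ^ 2)
        + e * ((nTh θ₁ y x ^ q) ^ 2 * ‖ψ x‖ ^ 2)
        - (Dth θ₁' θ₂' y x * nTh θ₁ y x ^ (2 * q)) * ‖ψ x‖ ^ 2
        - Lam * ((nB l y x * nTh θ₁ y x ^ (2 * q)) * ‖ψ x‖ ^ 2)) (piN ι) := i1234.sub i5
    rw [← integral_const_mul (κ - μ), ← integral_const_mul (κ * (m : ℝ) ^ 3),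
      ← integral_const_mul e, ← integral_const_mul Lam, ← integral_const_mul Lam,
      ← integral_sub i1 i2,
      ← integral_add i12 i3, ← integral_sub i123 i4, ← integral_sub i1234 i5,
      ← integral_sub i12345 i6]
    refine integral_congr_ae (Eventually.of_forall fun x => ?_)
    dsimp only
    rw [F3_norm]
    ring
  rw [e1] at hloc
  have hD : ∫ x, (Dth θ₁' θ₂' y x * nTh θ₁ y x ^ (2 * q)) * ‖ψ x‖ ^ 2 ∂(piN ι)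
      ≤ 3 / l ^ 2 * ∫ x, (nB l y x * nTh θ₁ y x ^ (2 * q)) * ‖ψ x‖ ^ 2 ∂(piN ι) := by
    rw [← integral_const_mul]
    refine integral_mono (F3_x hψ (hDm.mul (hpow (2 * q))))
      ((F3_x hψ (hBy.mul (hpow (2 * q)))).const_mul _) fun x => ?_
    dsimp only
    have h1 := Dth_le hl hL y x
    have h2 : 0 ≤ nTh θ₁ y x ^ (2 * q) := pow_nonneg (hn0 y x) _
    have h3 := mul_le_mul_of_nonneg_right (mul_le_mul_of_nonneg_right h1 h2)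
      (sq_nonneg ‖ψ x‖)
    refine h3.trans (le_of_eq ?_)
    ring
  -- the right side
  have hP : ∑ i, ∑ α, ∫ x, nP θ₁ θ₁' y q i α x ^ 2 * ‖ψ x‖ ^ 2 ∂(piN ι)
      ≤ 12 * (q : ℝ) ^ 2 / l ^ 2 * ∫ x, nTh θ₁ y x ^ (2 * q - 1) * ‖ψ x‖ ^ 2 ∂(piN ι) := by
    have hPm : ∀ i α, Measurable (nP θ₁ θ₁' y q i α : (ι → T3) → ℝ) := by
      intro i α
      have hms : Measurable (fun x : ι → T3 => x i - y) :=
        measurable_sub' (measurable_pi_apply i) measurable_const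
      unfold nP
      have h1 : Measurable (fun x : ι → T3 => (q : ℝ) * nTh θ₁ y x ^ (q - 1)) :=
        ((hpow (q - 1)).1).const_mul _
      have h2 : Measurable (fun x : ι → T3 => 2 * θ₁ (x i - y)) :=
        (((hL.wd1 0).sm.measurable).comp hms).const_mul 2
      exact h1.mul (h2.mul ((hL.meas1 α).comp hms))
    have hint : ∀ i α, Integrable (fun x => nP θ₁ θ₁' y q i α x ^ 2 * ‖ψ x‖ ^ 2) (piN ι) := by
      intro i α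
      have h1 := (F3_x hψ (hpow (2 * q - 1))).const_mul (12 * (q : ℝ) ^ 2 / l ^ 2)
      refine Integrable.mono' h1 ?_ (Eventually.of_forall fun x => ?_)
      · exact (((hPm i α).pow_const 2).aestronglyMeasurable).mul
          ((hψ.1.norm).pow 2)
      · rw [Real.norm_eq_abs, abs_of_nonneg (mul_nonneg (sq_nonneg _) (sq_nonneg _)), ← mul_assoc]
        refine mul_le_mul_of_nonneg_right ?_ (sq_nonneg _)
        refine le_trans ?_ (nP_sq hl hL y q x)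
        have h2 : nP θ₁ θ₁' y q i α x ^ 2 ≤ ∑ α, nP θ₁ θ₁' y q i α x ^ 2 :=
          Finset.single_le_sum (f := fun α => nP θ₁ θ₁' y q i α x ^ 2)
            (fun α _ => sq_nonneg _) (Finset.mem_univ α)
        exact h2.trans (Finset.single_le_sum (f := fun i => ∑ α, nP θ₁ θ₁' y q i α x ^ 2)
          (fun i _ => Finset.sum_nonneg fun α _ => sq_nonneg _) (Finset.mem_univ i))
    have h1 : ∑ i, ∑ α, ∫ x, nP θ₁ θ₁' y q i α x ^ 2 * ‖ψ x‖ ^ 2 ∂(piN ι)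
        = ∫ x, ∑ i, ∑ α, nP θ₁ θ₁' y q i α x ^ 2 * ‖ψ x‖ ^ 2 ∂(piN ι) := by
      rw [integral_finsetSum _ (fun i _ => integrable_finsetSum _ fun α _ => hint i α)]
      refine Finset.sum_congr rfl fun i _ => ?_
      rw [integral_finsetSum _ (fun α _ => hint i α)]
    rw [h1, ← integral_const_mul]
    refine integral_mono (integrable_finsetSum _ fun i _ => integrable_finsetSum _ fun α _ =>
      hint i α) ((F3_x hψ (hpow (2 * q - 1))).const_mul _) fun x => ?_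
    dsimp only
    simp only [← Finset.sum_mul]
    rw [← mul_assoc]
    exact mul_le_mul_of_nonneg_right (nP_sq hl hL y q x) (sq_nonneg _)
  have e5 : (3 / l ^ 2 + Lam) * (∫ x, (nB l y x * nTh θ₁ y x ^ (2 * q)) * ‖ψ x‖ ^ 2 ∂(piN ι))
      = 3 / l ^ 2 * (∫ x, (nB l y x * nTh θ₁ y x ^ (2 * q)) * ‖ψ x‖ ^ 2 ∂(piN ι))
        + Lam * (∫ x, (nB l y x * nTh θ₁ y x ^ (2 * q)) * ‖ψ x‖ ^ 2 ∂(piN ι)) := by ring
  rw [e5]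
  linarith

theorem R08_rec {R₀ Lam l μ e κ : ℝ} {K : T3 → ℝ} {ε : ℝ} {𝒱 : T3 → ℝ≥0∞} {ψ : (ι → T3) → ℂ}
    {g : ι → Fin 3 → (ι → T3) → ℂ} (hM : MiniK l Lam K ε R₀ 𝒱 μ e ψ g) (hl : 0 < l) (hl8 : l ≤ 1 / 8)
    {θ₁ θ₂ : T3 → ℝ} {θ₁' θ₂' : Fin 3 → T3 → ℝ} (hL : Loc2 l θ₁ θ₂ θ₁' θ₂')
    (hθ₂ : ∀ x, 0 ≤ θ₂ x) {v : T3 → ℝ≥0∞}
    (hvm : Measurable v) (hle : ∀ᵐ z ∂lam3, R₀ ≤ rr z → v z ≤ 𝒱 z) {m : ℕ} (hm : 0 < m)
    (hκ : 0 ≤ κ) (hbox : ∀ b : Fin 3 → ℝ, BoxIneq (ENNReal.ofReal κ) v (tbox b (4 * l / m))) (q : ℕ) :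
    (κ * l ^ 2 - μ * l ^ 2 - 270) * Xm θ₁ ψ (2 * q + 1)
      ≤ κ * l ^ 2 * (m : ℝ) ^ 3 * Xm θ₁ ψ (2 * q) + 12 * (q : ℝ) ^ 2 * Xm θ₁ ψ (2 * q - 1)
        + 2 * (q : ℝ) ^ 2 * 4 ^ q * (1 + 2 * Xm θ₁ ψ (2 * q)) := by
  have hψ := hM.fe.hg.mem
  obtain ⟨hn, hn0, hn1, hB⟩ := nTh_bm (ι := ι) hL
  have hpow : ∀ k : ℕ, BM (fun p : T3 × (ι → T3) => nTh θ₁ p.1 p.2 ^ k) := fun k => hn.pow k
  have hKb : BM (fun p : T3 × (ι → T3) => nKB K l p.1 p.2) := nKB_bm2 hM.ker l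
  have hKt : BM (fun p : T3 × (ι → T3) => nKT K θ₁ p.1 p.2) := nKT_bm2 hM.ker hL
  have j1 := F3_y hψ (hpow (2 * q + 1))
  have j2 := F3_y hψ (hpow (2 * q))
  have j3 := F3_y hψ (hB.mul (hpow (2 * q)))
  have j4 := F3_y hψ (hpow (2 * q - 1))
  have j6 := F3_y hψ (hKb.mul (hpow (2 * q)))
  have j7 := F3_y hψ (hKt.pow (2 * q))
  dsimp only at j1 j2 j3 j4 j6 j7
  obtain ⟨B, hBd⟩ : ∃ B : ℝ, B = 2 * (q : ℝ) ^ 2 * 4 ^ q := ⟨_, rfl⟩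
  have hB0 : 0 ≤ B := by
    rw [hBd]
    positivity
  rw [← hBd]
  have hone : ∀ y : T3, (κ - μ) * (∫ x, nTh θ₁ y x ^ (2 * q + 1) * ‖ψ x‖ ^ 2 ∂(piN ι))
      - κ * (m : ℝ) ^ 3 * (∫ x, nTh θ₁ y x ^ (2 * q) * ‖ψ x‖ ^ 2 ∂(piN ι))
      - (3 / l ^ 2 + Lam) * (∫ x, (nB l y x * nTh θ₁ y x ^ (2 * q)) * ‖ψ x‖ ^ 2 ∂(piN ι))
      - Lam * (∫ x, (nKB K l y x * nTh θ₁ y x ^ (2 * q)) * ‖ψ x‖ ^ 2 ∂(piN ι))
      ≤ 12 * (q : ℝ) ^ 2 / l ^ 2 * (∫ x, nTh θ₁ y x ^ (2 * q - 1) * ‖ψ x‖ ^ 2 ∂(piN ι))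
        + (Lam * B + (Lam * B * (∫ x, nTh θ₁ y x ^ (2 * q) * ‖ψ x‖ ^ 2 ∂(piN ι))
          + Lam * B * ∫ x, nKT K θ₁ y x ^ (2 * q) * ‖ψ x‖ ^ 2 ∂(piN ι))) := by
    intro y
    have h1 := R08_one hM hl hl8 hL hθ₂ hvm hle hm hκ hbox q y
    rw [← hBd] at h1
    have a1 : Integrable (fun x => nTh θ₁ y x ^ (2 * q) * ‖ψ x‖ ^ 2) (piN ι) :=
      F3_x hψ (F3_slice (hpow (2 * q)) y)
    have a2 : Integrable (fun x => nKT K θ₁ y x ^ (2 * q) * ‖ψ x‖ ^ 2) (piN ι) :=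
      F3_x hψ (F3_slice (hKt.pow (2 * q)) y)
    have h2 : ∫ x, (1 + nTh θ₁ y x ^ (2 * q) + nKT K θ₁ y x ^ (2 * q)) * ‖ψ x‖ ^ 2 ∂(piN ι)
        = 1 + (∫ x, nTh θ₁ y x ^ (2 * q) * ‖ψ x‖ ^ 2 ∂(piN ι))
          + ∫ x, nKT K θ₁ y x ^ (2 * q) * ‖ψ x‖ ^ 2 ∂(piN ι) := by
      have h3 : ∫ x, (1 + nTh θ₁ y x ^ (2 * q) + nKT K θ₁ y x ^ (2 * q)) * ‖ψ x‖ ^ 2 ∂(piN ι)
          = (∫ x, ‖ψ x‖ ^ 2 ∂(piN ι)) + (∫ x, nTh θ₁ y x ^ (2 * q) * ‖ψ x‖ ^ 2 ∂(piN ι))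
            + ∫ x, nKT K θ₁ y x ^ (2 * q) * ‖ψ x‖ ^ 2 ∂(piN ι) := by
        have a3 : Integrable (fun x => ‖ψ x‖ ^ 2 + nTh θ₁ y x ^ (2 * q) * ‖ψ x‖ ^ 2) (piN ι) :=
          (int_sq hψ).add a1
        rw [← integral_add (int_sq hψ) a1, ← integral_add a3 a2]
        refine integral_congr_ae (Eventually.of_forall fun x => ?_)
        dsimp only
        ring
      rw [h3, hM.nrm]
    rw [h2] at h1
    linarith
  have k1 := (((j1.const_mul (κ - μ)).sub (j2.const_mul (κ * (m : ℝ) ^ 3))).sub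
    (j3.const_mul (3 / l ^ 2 + Lam))).sub (j6.const_mul Lam)
  have k2 := (j4.const_mul (12 * (q : ℝ) ^ 2 / l ^ 2)).add
    ((integrable_const (Lam * B)).add ((j2.const_mul (Lam * B)).add (j7.const_mul (Lam * B))))
  have hmono := integral_mono k1 k2 hone
  have j12 : Integrable (fun y => (κ - μ) * (∫ x, nTh θ₁ y x ^ (2 * q + 1) * ‖ψ x‖ ^ 2 ∂(piN ι))
      - κ * (m : ℝ) ^ 3 * (∫ x, nTh θ₁ y x ^ (2 * q) * ‖ψ x‖ ^ 2 ∂(piN ι))) lam3 :=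
    (j1.const_mul _).sub (j2.const_mul _)
  have j123 : Integrable (fun y => (κ - μ) * (∫ x, nTh θ₁ y x ^ (2 * q + 1) * ‖ψ x‖ ^ 2 ∂(piN ι))
      - κ * (m : ℝ) ^ 3 * (∫ x, nTh θ₁ y x ^ (2 * q) * ‖ψ x‖ ^ 2 ∂(piN ι))
      - (3 / l ^ 2 + Lam) * (∫ x, (nB l y x * nTh θ₁ y x ^ (2 * q)) * ‖ψ x‖ ^ 2 ∂(piN ι))) lam3 :=
    j12.sub (j3.const_mul _)
  have eL : ∫ y, ((κ - μ) * (∫ x, nTh θ₁ y x ^ (2 * q + 1) * ‖ψ x‖ ^ 2 ∂(piN ι))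
      - κ * (m : ℝ) ^ 3 * (∫ x, nTh θ₁ y x ^ (2 * q) * ‖ψ x‖ ^ 2 ∂(piN ι))
      - (3 / l ^ 2 + Lam) * (∫ x, (nB l y x * nTh θ₁ y x ^ (2 * q)) * ‖ψ x‖ ^ 2 ∂(piN ι))
      - Lam * (∫ x, (nKB K l y x * nTh θ₁ y x ^ (2 * q)) * ‖ψ x‖ ^ 2 ∂(piN ι))) ∂lam3
      = (κ - μ) * Xm θ₁ ψ (2 * q + 1) - κ * (m : ℝ) ^ 3 * Xm θ₁ ψ (2 * q)
        - (3 / l ^ 2 + Lam)
          * (∫ y, ∫ x, (nB l y x * nTh θ₁ y x ^ (2 * q)) * ‖ψ x‖ ^ 2 ∂(piN ι) ∂lam3)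
        - Lam
          * (∫ y, ∫ x, (nKB K l y x * nTh θ₁ y x ^ (2 * q)) * ‖ψ x‖ ^ 2 ∂(piN ι) ∂lam3) := by
    rw [integral_sub j123 (j6.const_mul _), integral_sub j12 (j3.const_mul _),
      integral_sub (j1.const_mul _) (j2.const_mul _), integral_const_mul, integral_const_mul,
      integral_const_mul, integral_const_mul]
    rfl
  obtain ⟨X', hX'⟩ : ∃ X' : ℝ,
      X' = ∫ y, ∫ x, nKT K θ₁ y x ^ (2 * q) * ‖ψ x‖ ^ 2 ∂(piN ι) ∂lam3 := ⟨_, rfl⟩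
  have eR : ∫ y, (12 * (q : ℝ) ^ 2 / l ^ 2
        * (∫ x, nTh θ₁ y x ^ (2 * q - 1) * ‖ψ x‖ ^ 2 ∂(piN ι))
        + (Lam * B + (Lam * B * (∫ x, nTh θ₁ y x ^ (2 * q) * ‖ψ x‖ ^ 2 ∂(piN ι))
          + Lam * B * ∫ x, nKT K θ₁ y x ^ (2 * q) * ‖ψ x‖ ^ 2 ∂(piN ι)))) ∂lam3
      = 12 * (q : ℝ) ^ 2 / l ^ 2 * Xm θ₁ ψ (2 * q - 1)
        + Lam * B * (1 + (Xm θ₁ ψ (2 * q) + X')) := by
    have j8 : Integrable (fun y : T3 => Lam * B * (∫ x, nTh θ₁ y x ^ (2 * q) * ‖ψ x‖ ^ 2 ∂(piN ι))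
        + Lam * B * ∫ x, nKT K θ₁ y x ^ (2 * q) * ‖ψ x‖ ^ 2 ∂(piN ι)) lam3 :=
      (j2.const_mul _).add (j7.const_mul _)
    have j5 : Integrable (fun y : T3 => Lam * B
        + (Lam * B * (∫ x, nTh θ₁ y x ^ (2 * q) * ‖ψ x‖ ^ 2 ∂(piN ι))
          + Lam * B * ∫ x, nKT K θ₁ y x ^ (2 * q) * ‖ψ x‖ ^ 2 ∂(piN ι))) lam3 :=
      (integrable_const _).add j8
    have e0 : ∫ _y : T3, Lam * B ∂lam3 = Lam * B := by simp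
    rw [integral_add (j4.const_mul _) j5, integral_add (integrable_const _) j8,
      integral_add (j2.const_mul _) (j7.const_mul _), e0,
      integral_const_mul, integral_const_mul, integral_const_mul, hX']
    unfold Xm
    ring
  have hmono2 := (eL.symm.le.trans hmono).trans eR.le
  have hcov : ∫ y, ∫ x, (nB l y x * nTh θ₁ y x ^ (2 * q)) * ‖ψ x‖ ^ 2 ∂(piN ι) ∂lam3
      ≤ 54 * Xm θ₁ ψ (2 * q + 1) := by
    have s1 := F3_swap hψ (hB.mul (hpow (2 * q)))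
    have s2 := F3_swap hψ (hpow (2 * q + 1))
    dsimp only at s1 s2
    unfold Xm
    rw [s1, s2, ← integral_const_mul]
    refine integral_mono (F3_x hψ (F3_avg (hB.mul (hpow (2 * q)))))
      ((F3_x hψ (F3_avg (hpow (2 * q + 1)))).const_mul _) fun x => ?_
    dsimp only
    rw [← mul_assoc]
    exact mul_le_mul_of_nonneg_right (cover hl hl8 hL (2 * q) x) (sq_nonneg _)
  have hcovK : ∫ y, ∫ x, (nKB K l y x * nTh θ₁ y x ^ (2 * q)) * ‖ψ x‖ ^ 2 ∂(piN ι) ∂lam3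
      ≤ 54 * Xm θ₁ ψ (2 * q + 1) := by
    have s1 := F3_swap hψ (hKb.mul (hpow (2 * q)))
    have s2 := F3_swap hψ (hpow (2 * q + 1))
    dsimp only at s1 s2
    unfold Xm
    rw [s1, s2, ← integral_const_mul]
    refine integral_mono (F3_x hψ (F3_avg (hKb.mul (hpow (2 * q)))))
      ((F3_x hψ (F3_avg (hpow (2 * q + 1)))).const_mul _) fun x => ?_
    dsimp only
    rw [← mul_assoc]
    exact mul_le_mul_of_nonneg_right (coverK hM.ker hl hl8 hL (2 * q) x) (sq_nonneg _)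
  have hX'2 : X' ≤ Xm θ₁ ψ (2 * q) := by
    have s1 := F3_swap hψ (hKt.pow (2 * q))
    have s2 := F3_swap hψ (hpow (2 * q))
    dsimp only at s1 s2
    rw [hX']
    unfold Xm
    rw [s1, s2]
    refine integral_mono (F3_x hψ (F3_avg (hKt.pow (2 * q))))
      (F3_x hψ (F3_avg (hpow (2 * q)))) fun x => ?_
    dsimp only
    exact mul_le_mul_of_nonneg_right (momKT hM.ker hL (2 * q) x) (sq_nonneg _)
  have hl2 : 0 < l ^ 2 := by positivity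
  have h3l : 0 ≤ 3 / l ^ 2 + Lam := by
    have := hM.la0
    positivity
  have h5 := mul_le_mul_of_nonneg_left hcov h3l
  have h5K := mul_le_mul_of_nonneg_left hcovK hM.la0
  have hX1 := Xm_nonneg hL ψ (2 * q + 1)
  have hX2 := Xm_nonneg hL ψ (2 * q)
  have h8 : Lam * B * (1 + (Xm θ₁ ψ (2 * q) + X')) ≤ Lam * B * (1 + 2 * Xm θ₁ ψ (2 * q)) :=
    mul_le_mul_of_nonneg_left (by linarith) (mul_nonneg hM.la0 hB0)
  have h6 : (κ - μ) * Xm θ₁ ψ (2 * q + 1) - κ * (m : ℝ) ^ 3 * Xm θ₁ ψ (2 * q)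
      - (3 / l ^ 2 + Lam) * (54 * Xm θ₁ ψ (2 * q + 1)) - Lam * (54 * Xm θ₁ ψ (2 * q + 1))
      ≤ 12 * (q : ℝ) ^ 2 / l ^ 2 * Xm θ₁ ψ (2 * q - 1) + Lam * B * (1 + 2 * Xm θ₁ ψ (2 * q)) := by
    linarith
  have h7 := mul_le_mul_of_nonneg_left h6 hl2.le
  have e1 : l ^ 2 * ((κ - μ) * Xm θ₁ ψ (2 * q + 1) - κ * (m : ℝ) ^ 3 * Xm θ₁ ψ (2 * q)
      - (3 / l ^ 2 + Lam) * (54 * Xm θ₁ ψ (2 * q + 1)) - Lam * (54 * Xm θ₁ ψ (2 * q + 1)))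
      = (κ * l ^ 2 - μ * l ^ 2 - 162) * Xm θ₁ ψ (2 * q + 1)
        - κ * l ^ 2 * (m : ℝ) ^ 3 * Xm θ₁ ψ (2 * q)
        - (Lam * l ^ 2) * (54 * Xm θ₁ ψ (2 * q + 1))
        - (Lam * l ^ 2) * (54 * Xm θ₁ ψ (2 * q + 1)) := by
    field_simp
    ring
  have e2 : l ^ 2 * (12 * (q : ℝ) ^ 2 / l ^ 2 * Xm θ₁ ψ (2 * q - 1)
        + Lam * B * (1 + 2 * Xm θ₁ ψ (2 * q)))
      = 12 * (q : ℝ) ^ 2 * Xm θ₁ ψ (2 * q - 1)
        + (Lam * l ^ 2) * (B * (1 + 2 * Xm θ₁ ψ (2 * q))) := by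
    field_simp
  rw [e1, e2] at h7
  have hla : Lam * l ^ 2 ≤ 1 := hM.la1
  have g1 : (Lam * l ^ 2) * (54 * Xm θ₁ ψ (2 * q + 1)) ≤ 1 * (54 * Xm θ₁ ψ (2 * q + 1)) :=
    mul_le_mul_of_nonneg_right hla (by positivity)
  have g3 : (Lam * l ^ 2) * (B * (1 + 2 * Xm θ₁ ψ (2 * q))) ≤ 1 * (B * (1 + 2 * Xm θ₁ ψ (2 * q))) :=
    mul_le_mul_of_nonneg_right hla (by positivity)
  linarith

end Pool.Agent.Lib.MP_4952d6_mp.LK
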