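import Pool.Agent.Lib.MP_4952d6_mp.Pr.R08

/-!
# Pr.R08b (leaf F3): moments at the scale `l`, final form

Copies of `momentsG` (Pq/P07 l.480-818; uses `P07_alg` as it is) and `hk_momentsG` (Pq/P07 l.819-end) with `R08_rec`: replace `216, 217` by `270, 271` (choice `κ l² = Kμ + 271`); the additional
terms are `2 q² 4^q (1 + 2 Xm (2q))` (no volume term, so `c₀` does not contain `N l³`; use `Xm (2q) ≤ ..` as in `momentsG`, or put `4 q² 4^q` into the constant `K` of `P07_alg`).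
-/

set_option autoImplicit false
set_option linter.unusedSectionVars false
set_option linter.unusedVariables false
open MeasureTheory Function Filter Topology Set ComplexConjugate
open scoped ENNReal

namespace Pool.Agent.Lib.MP_4952d6_mp.LK

open LA

variable {ι : Type*} [Fintype ι] [DecidableEq ι]

open LG

theorem momentsK (θ cw Kμ : ℝ) (hθ : 1 ≤ θ) (hcw : 0 < cw) (hKμ : 0 ≤ Kμ) (q : ℕ) :
    ∃ C Y0 : ℝ, 0 < C ∧ 0 < Y0 ∧ ∀ Y : ℝ, 0 < Y → Y < Y0 → ∀ (l R a : ℝ) (w : ℝ → ℝ)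
      (N : ℕ) (Lam : ℝ) (K : T3 → ℝ) (ε R₀ e : ℝ) (𝒱 : T3 → ℝ≥0∞) (ψ : (Fin N → T3) → ℂ)
      (g : Fin N → Fin 3 → (Fin N → T3) → ℂ), Par θ cw Kμ Y l R a w N R₀ 𝒱 →
      MiniK l Lam K ε R₀ 𝒱 (Kμ / l ^ 2) e ψ g →
      ∀ (θ₁ θ₂ : T3 → ℝ) (θ₁' θ₂' : Fin 3 → T3 → ℝ), Loc2 l θ₁ θ₂ θ₁' θ₂' → (∀ x, 0 ≤ θ₂ x) →
      Xm θ₁ ψ (2 * q + 1) ≤ C * (Y⁻¹) ^ (2 * q + 1) := by
  obtain ⟨K₀, hK₀⟩ : ∃ K₀ : ℝ, K₀ = 67584 * (Kμ + 271) / cw := ⟨_, rfl⟩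
  have hK₀p : 0 < K₀ := by
    rw [hK₀]
    positivity
  have hθ0 : 0 < θ := by linarith
  obtain ⟨D₁, hD₁⟩ : ∃ D₁ : ℝ, D₁ = 64 * θ * (Kμ + 271) * K₀ := ⟨_, rfl⟩
  have hD₁p : 0 < D₁ := by
    rw [hD₁]
    positivity
  obtain ⟨B₀, hB₀⟩ : ∃ B₀ : ℝ, B₀ = 2 * (q : ℝ) ^ 2 * 4 ^ q := ⟨_, rfl⟩
  have hB₀p : 0 ≤ B₀ := by
    rw [hB₀]
    positivity
  obtain ⟨D, hD⟩ : ∃ D : ℝ, D = D₁ + 2 * B₀ := ⟨_, rfl⟩
  have hDp : 0 < D := by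
    rw [hD]
    positivity
  refine ⟨2 * (D * (4 * D) ^ (2 * q) + 12 * (q : ℝ) ^ 2 * (7 * (q : ℝ)) ^ (2 * q - 1)) + 1 + 2 * B₀,
    min (min 1 K₀) (1 / (K₀ * θ ^ 3 + 1)), by positivity,
    lt_min (lt_min one_pos hK₀p) (by positivity), ?_⟩
  intro Y hY hY0 l R a w N Lam K ε R₀ e 𝒱 ψ g hP hM θ₁ θ₂ θ₁' θ₂' hL hθ₂
  have ha := hP.a_pos
  have haR := hP.a_le
  have hRa := hP.R_le
  have hla := hP.l_eq
  have hl8 := hP.l_le
  have hwm := hP.w_meas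
  have hw0 := hP.w_nonneg
  have hwR := hP.w_le
  have hws := hP.w_zero
  have hwi := hP.w_int
  have hle := hP.w_V
  have hY1 : Y < 1 := (hY0.trans_le (min_le_left _ _)).trans_le (min_le_left _ _)
  have hYK : Y < K₀ := (hY0.trans_le (min_le_left _ _)).trans_le (min_le_right _ _)
  have hYθ : K₀ * θ ^ 3 * Y ^ 2 ≤ 1 := by
    have h1 : Y < 1 / (K₀ * θ ^ 3 + 1) := hY0.trans_le (min_le_right _ _)
    rw [lt_div_iff₀ (by positivity)] at h1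
    have h2 : Y ^ 2 ≤ Y := by nlinarith
    have h3 : K₀ * θ ^ 3 * Y ^ 2 ≤ K₀ * θ ^ 3 * Y := mul_le_mul_of_nonneg_left h2 (by positivity)
    nlinarith
  have hR : 0 < R := by linarith
  have hl : 0 < l := by
    rw [hla]
    positivity
  have haY : a = l * Y := by
    rw [hla]
    field_simp
  obtain ⟨x, hx0, hx3⟩ : ∃ x : ℝ, 0 < x ∧ x ^ 3 = K₀ / Y := by
    refine ⟨(K₀ / Y) ^ ((1 : ℝ) / 3), Real.rpow_pos_of_pos (by positivity) _, ?_⟩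
    rw [← Real.rpow_natCast, ← Real.rpow_mul (by positivity)]
    norm_num
  have hx1 : 1 ≤ x := by
    have h1 : (1 : ℝ) ^ 3 ≤ x ^ 3 := by
      rw [hx3, one_pow, le_div_iff₀ hY]
      linarith
    exact le_of_pow_le_pow_left₀ (by norm_num) hx0.le h1
  obtain ⟨m, hm⟩ : ∃ m : ℕ, m = ⌈x⌉₊ := ⟨_, rfl⟩
  have hmx : x ≤ m := by
    rw [hm]
    exact Nat.le_ceil x
  have hm2 : (m : ℝ) ≤ 2 * x := by
    rw [hm]
    have h1 := (Nat.ceil_lt_add_one hx0.le).le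
    linarith
  have hm1 : (1 : ℝ) ≤ m := hx1.trans hmx
  have hm0 : 0 < m := by
    have h1 : (0 : ℝ) < m := by linarith
    exact_mod_cast h1
  have hm0r : (0 : ℝ) < m := by linarith
  have hm3 : K₀ / Y ≤ (m : ℝ) ^ 3 := by
    rw [← hx3]
    exact pow_le_pow_left₀ hx0.le hmx 3
  have hm3' : (m : ℝ) ^ 3 ≤ 8 * (K₀ / Y) := by
    rw [← hx3]
    have h1 := pow_le_pow_left₀ hm0r.le hm2 3
    have h2 : (2 * x) ^ 3 = 8 * x ^ 3 := by ring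
    rw [h2] at h1
    exact h1
  have hxθ : x * θ * Y ≤ 1 := by
    have h1 : (x * θ * Y) ^ 3 ≤ 1 ^ 3 := by
      have h2 : (x * θ * Y) ^ 3 = x ^ 3 * θ ^ 3 * Y ^ 3 := by ring
      rw [h2, hx3, one_pow]
      have h3 : K₀ / Y * θ ^ 3 * Y ^ 3 = K₀ * θ ^ 3 * Y ^ 2 := by
        field_simp
      rw [h3]
      exact hYθ
    exact le_of_pow_le_pow_left₀ (by norm_num) zero_le_one h1
  have hr : 2 * R ≤ 4 * l / m := by
    rw [le_div_iff₀ hm0r]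
    have h1 : R * m ≤ (θ * a) * (2 * x) := mul_le_mul hRa hm2 hm0r.le (by positivity)
    have h2 : (θ * a) * (2 * x) = 2 * ((x * θ * Y) * l) := by
      rw [haY]
      ring
    have h3 : (x * θ * Y) * l ≤ 1 * l := mul_le_mul_of_nonneg_right hxθ hl.le
    rw [h2] at h1
    linarith
  have hr2 : 4 * l / m ≤ 1 / 2 := by
    rw [div_le_iff₀ hm0r]
    linarith
  obtain ⟨κ, hκ⟩ : ∃ κ : ℝ, κ = cw * R / (1056 * (4 * l / m) ^ 3) := ⟨_, rfl⟩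
  have hκ0 : 0 < κ := by
    rw [hκ]
    positivity
  have hκl : κ * l ^ 2 = cw * (R / a) * (Y * (m : ℝ) ^ 3) / 67584 := by
    rw [hκ, haY]
    field_simp
    ring
  have hRa1 : 1 ≤ R / a := by
    rw [one_le_div ha]
    exact haR
  have hRa2 : R / a ≤ θ := by
    rw [div_le_iff₀ ha]
    exact hRa
  have hYm1 : K₀ ≤ Y * (m : ℝ) ^ 3 := by
    rw [div_le_iff₀ hY] at hm3
    linarith
  have hYm2 : Y * (m : ℝ) ^ 3 ≤ 8 * K₀ := by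
    have h1 := mul_le_mul_of_nonneg_left hm3' hY.le
    have h2 : Y * (8 * (K₀ / Y)) = 8 * K₀ := by
      field_simp
    rw [h2] at h1
    exact h1
  have hcK : cw * K₀ = 67584 * (Kμ + 271) := by
    rw [hK₀]
    field_simp
  have hκ1 : Kμ + 271 ≤ κ * l ^ 2 := by
    rw [hκl]
    have h1 : cw * K₀ ≤ cw * (R / a) * (Y * (m : ℝ) ^ 3) := by
      have h2 : cw * 1 ≤ cw * (R / a) := mul_le_mul_of_nonneg_left hRa1 hcw.le
      rw [mul_one] at h2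
      exact mul_le_mul h2 hYm1 hK₀p.le (by positivity)
    rw [hcK] at h1
    linarith
  have hκ2 : κ * l ^ 2 ≤ 8 * θ * (Kμ + 271) := by
    rw [hκl]
    have h1 : cw * (R / a) * (Y * (m : ℝ) ^ 3) ≤ cw * θ * (8 * K₀) :=
      mul_le_mul (mul_le_mul_of_nonneg_left hRa2 hcw.le) hYm2 (by positivity) (by positivity)
    have h2 : cw * θ * (8 * K₀) = 8 * θ * (cw * K₀) := by ring
    rw [h2, hcK] at h1
    linarith
  have hbox : ∀ b : Fin 3 → ℝ, BoxIneq (ENNReal.ofReal κ)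
      (fun y => ENNReal.ofReal (w (rr y))) (tbox b (4 * l / m)) := by
    intro b
    rw [hκ]
    exact box_torus hwm hw0 hR hcw hwR hws hwi hr hr2
  have hrec := R08_rec hM hl hl8 hL hθ₂ ((hwm.comp rr_measurable).ennreal_ofReal) hle hm0 hκ0.le
    hbox q
  have hmul : Kμ / l ^ 2 * l ^ 2 = Kμ := by
    field_simp
  rw [hmul] at hrec
  rw [← hB₀] at hrec
  have hY1' : 1 ≤ 1 / Y := by
    rw [le_div_iff₀ hY]
    linarith
  have hX0 := Xm_nonneg hL ψ (2 * q + 1)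
  have hX1 := Xm_nonneg hL ψ (2 * q)
  have hK' : κ * l ^ 2 * (m : ℝ) ^ 3 ≤ D₁ / Y := by
    have h1 : κ * l ^ 2 * (m : ℝ) ^ 3 ≤ 8 * θ * (Kμ + 271) * (8 * (K₀ / Y)) :=
      mul_le_mul hκ2 hm3' (by positivity) (by positivity)
    refine h1.trans (le_of_eq ?_)
    rw [hD₁]
    ring
  have hstep : Xm θ₁ ψ (2 * q + 1) ≤ D / Y * Xm θ₁ ψ (2 * q)
      + 12 * (q : ℝ) ^ 2 * Xm θ₁ ψ (2 * q - 1) + B₀ := by
    have h1 : 1 * Xm θ₁ ψ (2 * q + 1) ≤ (κ * l ^ 2 - Kμ - 270) * Xm θ₁ ψ (2 * q + 1) :=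
      mul_le_mul_of_nonneg_right (by linarith) hX0
    have h2 := mul_le_mul_of_nonneg_right hK' hX1
    have h3 : 2 * B₀ * Xm θ₁ ψ (2 * q) * 1 ≤ 2 * B₀ * Xm θ₁ ψ (2 * q) * (1 / Y) :=
      mul_le_mul_of_nonneg_left hY1' (by positivity)
    have e3 : D / Y * Xm θ₁ ψ (2 * q) = D₁ / Y * Xm θ₁ ψ (2 * q)
        + 2 * B₀ * Xm θ₁ ψ (2 * q) * (1 / Y) := by
      rw [hD]
      ring
    have e4 : B₀ * (1 + 2 * Xm θ₁ ψ (2 * q)) = B₀ + 2 * B₀ * Xm θ₁ ψ (2 * q) * 1 := by ring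
    rw [e3]
    rw [e4] at hrec
    linarith
  have hfin := P07_alg hL hM.fe.hg.mem hM.nrm (K := D / Y) (by positivity) q hstep
  refine hfin.trans ?_
  have hYi : 1 ≤ (Y⁻¹) ^ (2 * q + 1) := one_le_pow₀ ((one_le_inv₀ hY).mpr hY1.le)
  have e1 : D / Y * (4 * (D / Y)) ^ (2 * q) = D * (4 * D) ^ (2 * q) * (Y⁻¹) ^ (2 * q + 1) := by
    rw [pow_succ, div_eq_mul_inv, ← mul_assoc 4, mul_pow]
    ring
  rw [e1]
  have h3 : 0 ≤ 12 * (q : ℝ) ^ 2 * (7 * (q : ℝ)) ^ (2 * q - 1) := by positivity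
  have h4 := mul_le_mul_of_nonneg_left hYi h3
  rw [mul_one] at h4
  have h5 : 0 ≤ (Y⁻¹) ^ (2 * q + 1) := by positivity
  have h6 : B₀ * 1 ≤ B₀ * (Y⁻¹) ^ (2 * q + 1) := mul_le_mul_of_nonneg_left hYi hB₀p
  have e2 : (2 * (D * (4 * D) ^ (2 * q) + 12 * (q : ℝ) ^ 2 * (7 * (q : ℝ)) ^ (2 * q - 1)) + 1
      + 2 * B₀) * (Y⁻¹) ^ (2 * q + 1)
      = 2 * (D * (4 * D) ^ (2 * q) * (Y⁻¹) ^ (2 * q + 1))
        + 2 * (12 * (q : ℝ) ^ 2 * (7 * (q : ℝ)) ^ (2 * q - 1) * (Y⁻¹) ^ (2 * q + 1))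
        + (Y⁻¹) ^ (2 * q + 1) + 2 * (B₀ * (Y⁻¹) ^ (2 * q + 1)) := by ring
  rw [e2]
  linarith

theorem hk_momentsK (θ cw Kμ : ℝ) (hθ : 1 ≤ θ) (hcw : 0 < cw) (hKμ : 0 ≤ Kμ) (p : ℕ) :
    ∃ C Y0 : ℝ, 0 < C ∧ 0 < Y0 ∧ ∀ Y : ℝ, 0 < Y → Y < Y0 → ∀ (l R a : ℝ) (w : ℝ → ℝ)
      (N : ℕ) (Lam : ℝ) (K : T3 → ℝ) (ε R₀ e : ℝ) (𝒱 : T3 → ℝ≥0∞) (ψ : (Fin N → T3) → ℂ)
      (g : Fin N → Fin 3 → (Fin N → T3) → ℂ), Par θ cw Kμ Y l R a w N R₀ 𝒱 →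
      MiniK l Lam K ε R₀ 𝒱 (Kμ / l ^ 2) e ψ g →
      ∫ y, ∫ x, (∑ i, hk (2 * l ^ 2) (y - x i)) ^ p * ‖ψ x‖ ^ 2 ∂(piN (Fin N)) ∂lam3
        ≤ C * (N : ℝ) ^ p := by
  obtain ⟨C, Y0, hC, hY0, hmom⟩ := momentsK θ cw Kμ hθ hcw hKμ p
  refine ⟨1 + C, Y0, by linarith, hY0, ?_⟩
  intro Y hY hYY l R a w N Lam K ε R₀ e 𝒱 ψ g hP hM
  have ha := hP.a_pos
  have hl : 0 < l := by rw [hP.l_eq]; exact div_pos ha hY
  have hs : (0:ℝ) < 2 * l ^ 2 := by positivity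
  obtain ⟨θ₁, θ₂, θ₁', θ₂', hL, hθ₂⟩ := exists_Loc2' hl hP.l_le
  have hX := hmom Y hY hYY l R a w N Lam K ε R₀ e 𝒱 ψ g hP hM θ₁ θ₂ θ₁' θ₂' hL hθ₂
  set P : ℕ := 2 * p + 1 with hPdef
  set ρ : (Fin N → T3) → ℝ := fun x => ‖ψ x‖ ^ 2 with hρdef
  have hρ0 : ∀ x, 0 ≤ ρ x := fun x => by positivity
  have hρi : Integrable ρ (piN (Fin N)) := hM.fe.hg.mem.integrable_norm_pow (by norm_num)
  have hρ1 : ∫ x, ρ x ∂(piN (Fin N)) = 1 := hM.nrm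
  have hSb : BM (fun q : T3 × (Fin N → T3) => ∑ i, hk (2 * l ^ 2) (q.1 - q.2 i)) := H4_S_bm hs
  obtain ⟨hnb, hn0, hn1⟩ := nTh_bm (ι := Fin N) hL
  have hNpos : (0:ℝ) < N := by
    have h1 : (N : ℝ) * a ^ 3 = Y ^ 2 := hP.N_eq
    have h2 : 0 < Y ^ 2 := by positivity
    rw [← h1] at h2
    exact (pos_iff_pos_of_mul_pos h2).mpr (by positivity)
  have hlN : (l⁻¹) ^ 3 * Y⁻¹ = N := by
    have h1 : (N : ℝ) * a ^ 3 = Y ^ 2 := hP.N_eq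
    rw [hP.l_eq]
    have : (N : ℝ) = Y ^ 2 / a ^ 3 := by rw [← h1]; field_simp
    rw [this]
    field_simp
  -- the high moment
  have hSP := H4_int (hSb.pow P) hρi
  have hNP := H4_int (hnb.pow P) hρi
  have hkey : ∫ y, ∫ x, (∑ i, hk (2 * l ^ 2) (y - x i)) ^ P * ρ x ∂(piN (Fin N)) ∂lam3
      ≤ C * (N : ℝ) ^ P := by
    have e1 : ∫ y, ∫ x, (∑ i, hk (2 * l ^ 2) (y - x i)) ^ P * ρ x ∂(piN (Fin N)) ∂lam3
        = ∫ x, (∫ y, (∑ i, hk (2 * l ^ 2) (y - x i)) ^ P ∂lam3) * ρ x ∂(piN (Fin N)) := by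
      rw [integral_integral_swap hSP]
      refine integral_congr_ae (Filter.Eventually.of_forall fun x => ?_)
      exact integral_mul_const _ _
    have e2 : Xm θ₁ ψ P = ∫ x, (∫ y, nTh θ₁ y x ^ P ∂lam3) * ρ x ∂(piN (Fin N)) := by
      unfold Xm
      rw [integral_integral_swap hNP]
      refine integral_congr_ae (Filter.Eventually.of_forall fun x => ?_)
      exact integral_mul_const _ _
    have i1 : Integrable (fun x => (∫ y, (∑ i, hk (2 * l ^ 2) (y - x i)) ^ P ∂lam3) * ρ x)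
        (piN (Fin N)) := by
      have h := hSP.integral_prod_right
      refine h.congr (Filter.Eventually.of_forall fun x => ?_)
      exact integral_mul_const (ρ x) (fun y => (∑ i, hk (2 * l ^ 2) (y - x i)) ^ P)
    have i2 : Integrable (fun x => (∫ y, nTh θ₁ y x ^ P ∂lam3) * ρ x) (piN (Fin N)) := by
      have h := hNP.integral_prod_right
      refine h.congr (Filter.Eventually.of_forall fun x => ?_)
      exact integral_mul_const (ρ x) (fun y => nTh θ₁ y x ^ P)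
    rw [e1]
    calc ∫ x, (∫ y, (∑ i, hk (2 * l ^ 2) (y - x i)) ^ P ∂lam3) * ρ x ∂(piN (Fin N))
        ≤ ∫ x, ((l⁻¹) ^ 3) ^ P * ((∫ y, nTh θ₁ y x ^ P ∂lam3) * ρ x) ∂(piN (Fin N)) := by
          refine integral_mono i1 (i2.const_mul _) fun x => ?_
          have h := mul_le_mul_of_nonneg_right (jensen_loc hl hP.l_le hL P x) (hρ0 x)
          simpa only [mul_assoc] using h
      _ = ((l⁻¹) ^ 3) ^ P * Xm θ₁ ψ P := by rw [integral_const_mul, ← e2]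
      _ ≤ ((l⁻¹) ^ 3) ^ P * (C * (Y⁻¹) ^ P) :=
          mul_le_mul_of_nonneg_left hX (by positivity)
      _ = C * ((l⁻¹) ^ 3 * Y⁻¹) ^ P := by rw [mul_pow]; ring
      _ = C * (N : ℝ) ^ P := by rw [hlN]
  -- interpolation
  have hSp := H4_int (hSb.pow p) hρi
  have hpt : ∀ (y : T3) (x : Fin N → T3), (∑ i, hk (2 * l ^ 2) (y - x i)) ^ p * ρ x
      ≤ (N : ℝ) ^ p * ρ x
        + (N : ℝ) ^ p * ((N : ℝ)⁻¹) ^ P * ((∑ i, hk (2 * l ^ 2) (y - x i)) ^ P * ρ x) := by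
    intro y x
    set S := ∑ i, hk (2 * l ^ 2) (y - x i) with hS
    have hS0 : 0 ≤ S := Finset.sum_nonneg fun i _ => hk_nonneg _ _
    have h1 := H4_pow_le (t := (N : ℝ)⁻¹ * S) (by positivity) p
    have h2 : S ^ p = (N : ℝ) ^ p * ((N : ℝ)⁻¹ * S) ^ p := by
      rw [← mul_pow, mul_inv_cancel_left₀ hNpos.ne']
    have h3 : S ^ p ≤ (N : ℝ) ^ p * (1 + ((N : ℝ)⁻¹ * S) ^ P) := by
      rw [h2]; exact mul_le_mul_of_nonneg_left h1 (by positivity)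
    calc S ^ p * ρ x ≤ ((N : ℝ) ^ p * (1 + ((N : ℝ)⁻¹ * S) ^ P)) * ρ x :=
          mul_le_mul_of_nonneg_right h3 (hρ0 x)
      _ = _ := by rw [mul_pow]; ring
  have j1 : Integrable (fun y => ∫ x, (∑ i, hk (2 * l ^ 2) (y - x i)) ^ p * ρ x ∂(piN (Fin N)))
      lam3 := hSp.integral_prod_left
  have j2 : Integrable (fun y => ∫ x, (∑ i, hk (2 * l ^ 2) (y - x i)) ^ P * ρ x ∂(piN (Fin N)))
      lam3 := hSP.integral_prod_left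
  have hstep : ∀ᵐ y ∂lam3, ∫ x, (∑ i, hk (2 * l ^ 2) (y - x i)) ^ p * ρ x ∂(piN (Fin N))
      ≤ (N : ℝ) ^ p + (N : ℝ) ^ p * ((N : ℝ)⁻¹) ^ P
          * ∫ x, (∑ i, hk (2 * l ^ 2) (y - x i)) ^ P * ρ x ∂(piN (Fin N)) := by
    filter_upwards [hSp.prod_right_ae, hSP.prod_right_ae] with y k1 k2
    have := integral_mono k1 ((hρi.const_mul ((N : ℝ) ^ p)).add
      (k2.const_mul ((N : ℝ) ^ p * ((N : ℝ)⁻¹) ^ P))) (hpt y)
    refine this.trans (le_of_eq ?_)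
    have h3 := integral_add (hρi.const_mul ((N : ℝ) ^ p))
      (k2.const_mul ((N : ℝ) ^ p * ((N : ℝ)⁻¹) ^ P))
    simp only [Pi.add_apply] at h3 ⊢
    rw [h3, integral_const_mul, integral_const_mul, hρ1, mul_one]
  calc ∫ y, ∫ x, (∑ i, hk (2 * l ^ 2) (y - x i)) ^ p * ‖ψ x‖ ^ 2 ∂(piN (Fin N)) ∂lam3
      ≤ ∫ y, ((N : ℝ) ^ p + (N : ℝ) ^ p * ((N : ℝ)⁻¹) ^ P
          * ∫ x, (∑ i, hk (2 * l ^ 2) (y - x i)) ^ P * ρ x ∂(piN (Fin N))) ∂lam3 :=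
        integral_mono_ae j1 ((integrable_const _).add (j2.const_mul _)) hstep
    _ = (N : ℝ) ^ p + (N : ℝ) ^ p * ((N : ℝ)⁻¹) ^ P
          * ∫ y, ∫ x, (∑ i, hk (2 * l ^ 2) (y - x i)) ^ P * ρ x ∂(piN (Fin N)) ∂lam3 := by
        rw [integral_add (integrable_const _) (j2.const_mul _), integral_const_mul]
        simp
    _ ≤ (N : ℝ) ^ p + (N : ℝ) ^ p * ((N : ℝ)⁻¹) ^ P * (C * (N : ℝ) ^ P) := by
        gcongr
    _ = (1 + C) * (N : ℝ) ^ p := by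
        have : ((N : ℝ)⁻¹) ^ P * (N : ℝ) ^ P = 1 := by
          rw [← mul_pow, inv_mul_cancel₀ hNpos.ne', one_pow]
        linear_combination (N : ℝ) ^ p * C * this

end Pool.Agent.Lib.MP_4952d6_mp.LK
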