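import Pool.Agent.Lib.MP_4952d6_mp.Pr.R04
import Pool.Agent.Lib.MP_4952d6_mp.Pr.R05

/-!
# Pr.R09 (leaf G1): the heat inequality with the jump term

Copy of `heat_ineqG` (Pq/P08 l.37-225) with `min_idK`, `slice_energyK`, `gkW_eq`, `bk_indep`, `bk_ge`.
-/

set_option autoImplicit false
set_option linter.unusedSectionVars false
set_option linter.unusedVariables false
open MeasureTheory Function Filter Topology Set ComplexConjugate
open scoped ENNReal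

namespace Pool.Agent.Lib.MP_4952d6_mp.LK

open LA

variable {ι : Type*} [Fintype ι] [DecidableEq ι]

open LG

theorem heat_ineqK {R₀ Lam : ℝ} {𝒱 : T3 → ℝ≥0∞} (hv : AEMeasurable 𝒱 lam3)
    (hev : ∀ y, 𝒱 (-y) = 𝒱 y) (hLam : 0 ≤ Lam) {K : T3 → ℝ} (hK : Ker K) {ε : ℝ}
    (hε : ε = 1 ∨ ε = -1)
    {ψ : (ι → T3) → ℂ} {g : ι → Fin 3 → (ι → T3) → ℂ} (h : FE R₀ 𝒱 ψ g) {T : Finset ι}
    {Z : (ι → T3) → ℝ} {Z' Z'' : ι → Fin 3 → (ι → T3) → ℝ} (w : WDN Z Z')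
    (w' : ∀ i α, WD (piN ι) (tauN i α) (Z' i α) (Z'' i α)) (hZ : ∀ x, 0 ≤ Z x) (hZm : Measurable Z)
    (hdep : ∀ x y : ι → T3, (∀ i ∈ T, x i = y i) → Z x = Z y)
    {e : ℝ} (he : 0 ≤ e)
    (hmin : ∀ (φ : (ι → T3) → ℂ) (f : ι → Fin 3 → (ι → T3) → ℂ), HG φ f → Core R₀ φ →
      ENNReal.ofReal e * ∫⁻ x, ‖φ x‖ₑ ^ 2 ∂(piN ι)
        ≤ eS 𝒱 Finset.univ φ f + ENNReal.ofReal Lam * ∑ i, gk K ε i φ)
    (heq : rE 𝒱 Finset.univ ψ g + Lam * ∑ i, rk K ε i ψ = e * ∫ x, ‖ψ x‖ ^ 2 ∂(piN ι)) {d : ℝ}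
    (hd : 0 ≤ d) (hE : ENNReal.ofReal (e - d) ≤ E0K R₀ 𝒱 K ε Lam Tᶜ.card) :
    - ∫ x, (∑ i, ∑ α, Z'' i α x) * ‖ψ x‖ ^ 2 ∂(piN ι)
      ≤ 2 * d * (∫ x, Z x * ‖ψ x‖ ^ 2 ∂(piN ι))
        + Lam * ∑ i ∈ T, ∫ x, (∫ z, K (x i - z) * Z (update x i z) ∂lam3) * ‖ψ x‖ ^ 2 ∂(piN ι) := by
  have hid := min_idK hv hK hε h hLam w he hmin heq
  have hZB : BM Z := A5_bm w
  -- the case of no particle is included: `Z` is bounded as soon as there is one particle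
  obtain ⟨hPi, -, -⟩ := rE_eq hv h.hg h.fin
  -- bounds
  have hb' : ∀ i α, ∃ C, 0 ≤ C ∧ ∀ x, ‖Z' i α x‖ ≤ C := fun i α => (w' i α).exists_bdd
  have hb'' : ∀ i α, ∃ C, 0 ≤ C ∧ ∀ᵐ x ∂(piN ι), ‖Z'' i α x‖ ≤ C := fun i α => (w' i α).bound
  obtain ⟨C, hC⟩ : ∃ C, ∀ x, ‖Z x‖ ≤ C := by
    rcases isEmpty_or_nonempty ι with hι | hι
    · exact ⟨‖Z (fun i => (hι.false i).elim)‖, fun x => by
        have : x = (fun i => (hι.false i).elim) := funext fun i => (hι.false i).elim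
        rw [this]⟩
    · obtain ⟨i⟩ := hι
      obtain ⟨C, -, hC⟩ := (w i 0).exists_bdd
      exact ⟨C, hC⟩
  have hCae : ∀ᵐ x ∂(piN ι), ‖Z x‖ ≤ C := Eventually.of_forall hC
  have hZs : AEStronglyMeasurable Z (piN ι) := hZm.aestronglyMeasurable
  have iA : ∀ i α, Integrable (fun x => Z x * ‖g i α x‖ ^ 2) (piN ι) := fun i α =>
    P08_int hZs hCae (int_sq (h.hg.gmem i α))
  have iB : ∀ i α, Integrable (fun x => Z' i α x * (conj (ψ x) * g i α x).re) (piN ι) := fun i α => by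
    obtain ⟨C', -, hC'⟩ := hb' i α
    exact P08_int (w' i α).sm.aestronglyMeasurable (Eventually.of_forall hC')
      (P08_conj_int h.hg.mem (h.hg.gmem i α)).re
  have iC : ∀ i α, Integrable (fun x => Z'' i α x * ‖ψ x‖ ^ 2) (piN ι) := fun i α => by
    obtain ⟨C', -, hC'⟩ := hb'' i α
    exact P08_int (w' i α).aesm_deriv hC' (int_sq h.hg.mem)
  have iN : Integrable (fun x => Z x * ‖ψ x‖ ^ 2) (piN ι) := P08_int hZs hCae (int_sq h.hg.mem)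
  have iP : Integrable (fun x => Z x * ((potS 𝒱 Finset.univ x).toReal * ‖ψ x‖ ^ 2)) (piN ι) :=
    P08_int hZs hCae hPi
  -- the identity
  have hbG : bG 𝒱 ψ g Z Z' = (∑ i, ∑ α, ∫ x, Z x * ‖g i α x‖ ^ 2 ∂(piN ι))
      + (-(1 / 2)) * (∑ i, ∑ α, ∫ x, Z'' i α x * ‖ψ x‖ ^ 2 ∂(piN ι))
      + ∫ x, Z x * ((potS 𝒱 Finset.univ x).toReal * ‖ψ x‖ ^ 2) ∂(piN ι) := by
    unfold bG
    congr 1
    rw [Finset.mul_sum, ← Finset.sum_add_distrib]
    refine Finset.sum_congr rfl fun i _ => ?_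
    rw [Finset.mul_sum, ← Finset.sum_add_distrib]
    refine Finset.sum_congr rfl fun α _ => ?_
    rw [integral_add (iA i α) (iB i α), ibp_sq h.hg i α (w' i α)]
  have hsum : ∫ x, (∑ i, ∑ α, Z'' i α x) * ‖ψ x‖ ^ 2 ∂(piN ι)
      = ∑ i, ∑ α, ∫ x, Z'' i α x * ‖ψ x‖ ^ 2 ∂(piN ι) := by
    simp_rw [Finset.sum_mul]
    rw [integral_finsetSum _ fun i _ => integrable_finsetSum _ fun α _ => iC i α]
    refine Finset.sum_congr rfl fun i _ => ?_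
    rw [integral_finsetSum _ fun α _ => iC i α]
  -- the gap terms
  have hbT : ∀ i ∈ T, -(1 / 2 * ∫ x, (∫ z, K (x i - z) * Z (update x i z) ∂lam3) * ‖ψ x‖ ^ 2 ∂(piN ι))
      ≤ bk K ε i ψ Z := fun i _ => bk_ge hK hε h.hg.mem i hZB hZ
  have hdi : ∀ i ∈ Tᶜ, ∀ (x : ι → T3) (z : T3), Z (update x i z) = Z x := by
    intro i hi x z
    refine hdep _ _ fun j hj => ?_
    have hne : j ≠ i := by
      rintro rfl
      exact (Finset.mem_compl.1 hi) hj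
    rw [update_of_ne hne]
  have hbC : ∀ i ∈ Tᶜ, bk K ε i ψ Z
      = 1 / 2 * ∫ x, ∫ z, Z x * (K (x i - z) * ‖ψ x - (ε : ℂ) * ψ (update x i z)‖ ^ 2)
        ∂lam3 ∂(piN ι) := fun i hi =>
    bk_indep hK hε h.hg.mem i hZB (hdi i hi)
  have hbC0 : ∀ i ∈ Tᶜ, 0 ≤ bk K ε i ψ Z := fun i hi => by
    rw [hbC i hi]
    exact mul_nonneg (by norm_num) (integral_nonneg fun x => integral_nonneg fun z =>
      mul_nonneg (hZ x) (mul_nonneg (hK.nonneg _) (sq_nonneg _)))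
  -- the lower bound by slices
  set Kn := ∑ i, ∑ α, ∫ x, Z x * ‖g i α x‖ ^ 2 ∂(piN ι) with hKn
  set P := ∫ x, Z x * ((potS 𝒱 Finset.univ x).toReal * ‖ψ x‖ ^ 2) ∂(piN ι) with hP
  have hK0 : 0 ≤ Kn := Finset.sum_nonneg fun i _ => Finset.sum_nonneg fun α _ =>
    integral_nonneg fun x => mul_nonneg (hZ x) (sq_nonneg _)
  have hP0 : 0 ≤ P := integral_nonneg fun x =>
    mul_nonneg (hZ x) (mul_nonneg ENNReal.toReal_nonneg (sq_nonneg _))
  have hN0 : 0 ≤ ∫ x, Z x * ‖ψ x‖ ^ 2 ∂(piN ι) := integral_nonneg fun x => mul_nonneg (hZ x) (sq_nonneg _)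
  set B := ∑ i ∈ Tᶜ, bk K ε i ψ Z with hB
  have hB0 : 0 ≤ B := Finset.sum_nonneg hbC0
  have hLB0 : 0 ≤ Lam * B := mul_nonneg hLam hB0
  have hlow : (e - d) * ∫ x, Z x * ‖ψ x‖ ^ 2 ∂(piN ι) ≤ Kn + P + Lam * B := by
    rcases le_or_gt (e - d) 0 with hneg | hpos
    · exact (mul_nonpos_of_nonpos_of_nonneg hneg hN0).trans (add_nonneg (add_nonneg hK0 hP0) hLB0)
    have hs := slice_energyK (Lam := Lam) (S := T) hv hev hK ε (w := fun x => ENNReal.ofReal (Z x))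
      hZm.ennreal_ofReal (fun x y hxy => by rw [hdep x y hxy]) h.hg h.core
    have l1 : ∀ f : (ι → T3) → ℂ, MemLp f 2 (piN ι) → ∫⁻ x, ENNReal.ofReal (Z x) * ‖f x‖ₑ ^ 2 ∂(piN ι)
        = ENNReal.ofReal (∫ x, Z x * ‖f x‖ ^ 2 ∂(piN ι)) := by
      intro f hf
      rw [ofReal_integral_eq_lintegral_ofReal (P08_int hZs hCae (int_sq hf))
        (Eventually.of_forall fun x => mul_nonneg (hZ x) (sq_nonneg _))]
      refine lintegral_congr fun x => ?_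
      rw [ENNReal.ofReal_mul (hZ x), ENNReal.ofReal_pow (norm_nonneg _), ofReal_norm]
    have l2 : ∫⁻ x, ENNReal.ofReal (Z x) * (potS 𝒱 Tᶜ x * ‖ψ x‖ₑ ^ 2) ∂(piN ι) ≤ ENNReal.ofReal P := by
      rw [hP, ofReal_integral_eq_lintegral_ofReal iP
        (Eventually.of_forall fun x => mul_nonneg (hZ x) (mul_nonneg ENNReal.toReal_nonneg (sq_nonneg _)))]
      have hfin : ∫⁻ x, potS 𝒱 Finset.univ x * ‖ψ x‖ₑ ^ 2 ∂(piN ι) < ⊤ := by
        refine lt_of_le_of_lt ?_ h.fin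
        unfold eS
        exact le_add_self
      have hae : ∀ᵐ x ∂(piN ι), potS 𝒱 Finset.univ x * ‖ψ x‖ₑ ^ 2 < ⊤ := by
        refine ae_lt_top' ?_ hfin.ne
        exact (aem_potS hv _).mul (h.hg.mem.1.enorm.pow_const 2)
      refine lintegral_mono_ae ?_
      filter_upwards [hae] with x hx
      rw [ENNReal.ofReal_mul (hZ x)]
      refine mul_le_mul_right ?_ _
      have h1 : potS 𝒱 Tᶜ x * ‖ψ x‖ₑ ^ 2 ≤ potS 𝒱 Finset.univ x * ‖ψ x‖ₑ ^ 2 :=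
        mul_le_mul_left (potS_mono (Finset.subset_univ _) x) _
      refine h1.trans (le_of_eq ?_)
      rw [ENNReal.ofReal_mul ENNReal.toReal_nonneg, ENNReal.ofReal_pow (norm_nonneg _), ofReal_norm]
      rcases eq_or_ne (ψ x) 0 with h0 | h0
      · simp [h0]
      · have : potS 𝒱 Finset.univ x ≠ ⊤ := by
          intro ht
          rw [ht, ENNReal.top_mul] at hx
          · exact lt_irrefl _ hx
          · exact pow_ne_zero _ (by simpa using h0)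
        rw [ENNReal.ofReal_toReal this]
    have l3 : eW 𝒱 Tᶜ (fun x => ENNReal.ofReal (Z x)) ψ g ≤ ENNReal.ofReal (Kn + P) := by
      rw [ENNReal.ofReal_add hK0 hP0]
      unfold eW
      refine add_le_add ?_ l2
      rw [hKn, ENNReal.ofReal_sum_of_nonneg fun i _ => Finset.sum_nonneg fun α _ =>
        integral_nonneg fun x => mul_nonneg (hZ x) (sq_nonneg _)]
      refine (Finset.sum_le_sum_of_subset (Finset.subset_univ _)).trans (Finset.sum_le_sum fun i _ => ?_)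
      rw [ENNReal.ofReal_sum_of_nonneg fun α _ =>
        integral_nonneg fun x => mul_nonneg (hZ x) (sq_nonneg _)]
      exact Finset.sum_le_sum fun α _ => (l1 _ (h.hg.gmem i α)).le
    have l5 : ENNReal.ofReal Lam * ∑ i ∈ Tᶜ, gkW K ε (fun x => ENNReal.ofReal (Z x)) i ψ
        = ENNReal.ofReal (Lam * B) := by
      rw [ENNReal.ofReal_mul hLam, hB, ENNReal.ofReal_sum_of_nonneg hbC0]
      congr 1
      refine Finset.sum_congr rfl fun i hi => ?_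
      rw [hbC i hi, gkW_eq hK ε h.hg.mem i hZB hZ]
    have l4 : ENNReal.ofReal ((e - d) * ∫ x, Z x * ‖ψ x‖ ^ 2 ∂(piN ι))
        ≤ ENNReal.ofReal (Kn + P + Lam * B) := by
      rw [ENNReal.ofReal_mul hpos.le, ← l1 _ h.hg.mem, ENNReal.ofReal_add (add_nonneg hK0 hP0) hLB0]
      refine (mul_le_mul_left hE _).trans (hs.trans ?_)
      exact add_le_add l3 l5.le
    exact (ENNReal.ofReal_le_ofReal_iff (add_nonneg (add_nonneg hK0 hP0) hLB0)).1 l4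
  have hsplit : ∑ i, bk K ε i ψ Z = (∑ i ∈ T, bk K ε i ψ Z) + B := by
    rw [hB, Finset.sum_add_sum_compl]
  have hTsum : -(1 / 2 * ∑ i ∈ T, ∫ x, (∫ z, K (x i - z) * Z (update x i z) ∂lam3) * ‖ψ x‖ ^ 2 ∂(piN ι))
      ≤ ∑ i ∈ T, bk K ε i ψ Z := by
    rw [Finset.mul_sum, ← Finset.sum_neg_distrib]
    exact Finset.sum_le_sum hbT
  have hTL := mul_le_mul_of_nonneg_left hTsum hLam
  rw [hsum]
  rw [hbG, hsplit] at hid
  linarith

end Pool.Agent.Lib.MP_4952d6_mp.LK
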