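import Pool.Agent.Lib.MP_4952d6_mp.Pr.R01

/-!
# Pr.R10 (leaf G2): the resolvent of the jumps applied to the heat kernel

`wK K r = ∑_j 2⁻ʲ K * ... * K * hk r`. With `A f = LB.cn K f` (`cn w h z = ∫ y, w (z - y) * h y`): `0 ≤ A f` for `0 ≤ f`, `A f ≤ M` if `f ≤ M`, `A` maps `BM` to `BM`
(`BM.integral_right` or the lemmas on `cn` in Pk/G30, Po/N06), `A f ≤ c A g` if `f ≤ c g`. So the series converges (geometric, `|A^[j] (hk r) z| ≤ G1_b r`, `G1_hk`), `wK` is bounded by
`2 G1_b r`, measurable (`Measurable.tsum`-type lemma or limit of finite sums).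
* `wK_jump`: `A (wK) = ∑ 2⁻ʲ A^[j+1] (hk r) = 2 (wK - hk r) ≤ 2 wK` (exchange of the integral and the series: `integral_tsum` or `hasSum_integral_of_summable_norm`;
  `Summable.tsum_eq_zero_add`).
* `wK_even`: induction, `hk_neg`, `Ker.even`, `integral_neg_eq_self`.
* `wK_split`: `A^[j] (hk (s + t)) = cn (hk t) (A^[j] (hk s))`: induction, convolution is associative and commutative (Fubini), `hk_conv`; then exchange.
* `wK_time`: `hk r ≤ (√(ρ / r))³ hk ρ` (`hk_le_hk`, Pk/G12 l.265; see `P09_two` in Pq/P09) and positivity of `A`.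
* `wK_bm2`: `hk` is jointly continuous on `r > 0`; here only fixed `r`: composition with the measurable map `q ↦ q.1 - q.2 i`.
-/

set_option autoImplicit false
set_option linter.unusedSectionVars false
set_option linter.unusedVariables false
open MeasureTheory Function Filter Topology Set ComplexConjugate
open scoped ENNReal

namespace Pool.Agent.Lib.MP_4952d6_mp.LK

open LA

variable {ι : Type*} [Fintype ι] [DecidableEq ι]

/-- resolvent of the jumps, applied to the heat kernel -/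
noncomputable def wK (K : T3 → ℝ) (r : ℝ) (z : T3) : ℝ :=
  ∑' j : ℕ, (1 / 2 : ℝ) ^ j * ((LB.cn K)^[j] (hk r)) z

theorem cnK_bm {K : T3 → ℝ} (hK : Ker K) {f : T3 → ℝ} (hf : BM f) : BM (LB.cn K f) :=
  LB.cn_bm hK.bm hf

private theorem R10_int {w h : T3 → ℝ} (hw : BM w) (hh : BM h) (z : T3) :
    Integrable (fun y => w (z - y) * h y) lam3 := by
  have h1 : BM (fun y : T3 => w (z - y) * h y) :=
    (hw.comp (measurable_const.sub measurable_id)).mul hh
  exact h1.integrable _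

private theorem R10_mono {K : T3 → ℝ} (hK : Ker K) {f g : T3 → ℝ} (hf : BM f) (hg : BM g)
    (h : ∀ z, f z ≤ g z) (z : T3) : LB.cn K f z ≤ LB.cn K g z := by
  unfold LB.cn
  exact integral_mono (R10_int hK.bm hf z) (R10_int hK.bm hg z)
    fun y => mul_le_mul_of_nonneg_left (h y) (hK.nonneg _)

private theorem R10_const {K : T3 → ℝ} (hK : Ker K) (M : ℝ) (z : T3) :
    LB.cn K (fun _ => M) z = M := by
  unfold LB.cn
  rw [integral_mul_const, LB.int_sub_left, hK.int, one_mul]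

private theorem R10_iter {K : T3 → ℝ} (hK : Ker K) {f : T3 → ℝ} (hf : BM f) (h0 : ∀ z, 0 ≤ f z)
    {M : ℝ} (hM : ∀ z, f z ≤ M) (j : ℕ) :
    BM ((LB.cn K)^[j] f) ∧ (∀ z, 0 ≤ ((LB.cn K)^[j] f) z) ∧ ∀ z, ((LB.cn K)^[j] f) z ≤ M := by
  induction j with
  | zero => exact ⟨hf, h0, hM⟩
  | succ j ih =>
    obtain ⟨h1, h2, h3⟩ := ih
    rw [iterate_succ_apply']
    refine ⟨cnK_bm hK h1, fun z => LB.cn_nonneg hK.nonneg h2 z, fun z => ?_⟩
    refine (R10_mono hK h1 (BM.const M) h3 z).trans ?_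
    rw [R10_const hK]

theorem cnK_iter {K : T3 → ℝ} (hK : Ker K) {r : ℝ} (hr : 0 < r) (j : ℕ) :
    BM ((LB.cn K)^[j] (hk r)) ∧ (∀ z, 0 ≤ ((LB.cn K)^[j] (hk r)) z) ∧
      ∀ z, ((LB.cn K)^[j] (hk r)) z ≤ G1_b r :=
  R10_iter hK (LB.hk_bm hr) (hk_nonneg r) (fun z => G1_hk hr le_rfl z) j

theorem wK_hasSum {K : T3 → ℝ} (hK : Ker K) {r : ℝ} (hr : 0 < r) (z : T3) :
    HasSum (fun j : ℕ => (1 / 2 : ℝ) ^ j * ((LB.cn K)^[j] (hk r)) z) (wK K r z) := by
  have h1 : Summable (fun j : ℕ => (1 / 2 : ℝ) ^ j * ((LB.cn K)^[j] (hk r)) z) := by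
    refine Summable.of_nonneg_of_le (fun j => mul_nonneg (by positivity) ((cnK_iter hK hr j).2.1 z))
      (fun j => mul_le_mul_of_nonneg_left ((cnK_iter hK hr j).2.2 z) (by positivity))
      (hasSum_geometric_two.summable.mul_right (G1_b r))
  exact h1.hasSum

theorem wK_nonneg {K : T3 → ℝ} (hK : Ker K) {r : ℝ} (hr : 0 < r) (z : T3) : 0 ≤ wK K r z :=
  (wK_hasSum hK hr z).nonneg fun j => mul_nonneg (by positivity) ((cnK_iter hK hr j).2.1 z)

theorem wK_le {K : T3 → ℝ} (hK : Ker K) {r : ℝ} (hr : 0 < r) (z : T3) : wK K r z ≤ 2 * G1_b r :=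
  hasSum_le (fun j => mul_le_mul_of_nonneg_left ((cnK_iter hK hr j).2.2 z) (by positivity))
    (wK_hasSum hK hr z) (hasSum_geometric_two.mul_right (G1_b r))

theorem wK_bm {K : T3 → ℝ} (hK : Ker K) {r : ℝ} (hr : 0 < r) : BM (wK K r) := by
  refine ⟨?_, 2 * G1_b r, fun z => ?_⟩
  · refine measurable_of_tendsto_metrizable (f := fun (N : ℕ) (z : T3) =>
      ∑ j ∈ Finset.range N, (1 / 2 : ℝ) ^ j * ((LB.cn K)^[j] (hk r)) z) (fun N => ?_) ?_
    · exact Finset.measurable_fun_sum _ fun j _ => (cnK_iter hK hr j).1.1.const_mul _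
    · rw [tendsto_pi_nhds]
      intro z
      exact (wK_hasSum hK hr z).tendsto_sum_nat
  · rw [abs_of_nonneg (wK_nonneg hK hr z)]
    exact wK_le hK hr z

theorem hk_le_wK {K : T3 → ℝ} (hK : Ker K) {r : ℝ} (hr : 0 < r) (z : T3) : hk r z ≤ wK K r z := by
  have h1 := le_hasSum (wK_hasSum hK hr z) 0 fun j _ =>
    mul_nonneg (by positivity) ((cnK_iter hK hr j).2.1 z)
  simpa using h1

theorem wK_even {K : T3 → ℝ} (hK : Ker K) {r : ℝ} (hr : 0 < r) (z : T3) :
    wK K r (-z) = wK K r z := by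
  have h1 : ∀ (j : ℕ) (z : T3), ((LB.cn K)^[j] (hk r)) (-z) = ((LB.cn K)^[j] (hk r)) z := by
    intro j
    induction j with
    | zero => exact fun z => hk_neg r z
    | succ j ih =>
      intro z
      rw [iterate_succ_apply']
      exact LB.cn_neg hK.even ih z
  unfold wK
  exact tsum_congr fun j => by rw [h1 j z]

/-- exchange of a convolution and the series -/
private theorem R10_sum {w : T3 → ℝ} (hw : BM w) {f : ℕ → T3 → ℝ} (hf : ∀ j, BM (f j))
    (h0 : ∀ j z, 0 ≤ f j z) {M : ℝ} (hM : ∀ j z, f j z ≤ M) (z : T3) :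
    HasSum (fun j : ℕ => (1 / 2 : ℝ) ^ j * LB.cn w (f j) z)
      (LB.cn w (fun u => ∑' j : ℕ, (1 / 2 : ℝ) ^ j * f j u) z) := by
  obtain ⟨C, hC0, hC⟩ := hw.exists_nonneg_bound
  have hM0 : 0 ≤ M := (h0 0 0).trans (hM 0 0)
  have hbm : ∀ j : ℕ, BM (fun u : T3 => w (z - u) * ((1 / 2 : ℝ) ^ j * f j u)) := fun j =>
    (hw.comp (measurable_const.sub measurable_id)).mul ((hf j).const_mul _)
  have hint : ∀ j : ℕ, Integrable (fun u : T3 => w (z - u) * ((1 / 2 : ℝ) ^ j * f j u)) lam3 :=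
    fun j => (hbm j).integrable _
  have hle : ∀ j : ℕ, ∫ u, ‖w (z - u) * ((1 / 2 : ℝ) ^ j * f j u)‖ ∂lam3 ≤ (1 / 2 : ℝ) ^ j * (C * M) := by
    intro j
    have h1 : ∀ u, ‖w (z - u) * ((1 / 2 : ℝ) ^ j * f j u)‖ ≤ (1 / 2 : ℝ) ^ j * (C * M) := by
      intro u
      rw [Real.norm_eq_abs, abs_mul, abs_of_nonneg (mul_nonneg (by positivity) (h0 j u))]
      have h2 : (1 / 2 : ℝ) ^ j * f j u ≤ (1 / 2 : ℝ) ^ j * M :=
        mul_le_mul_of_nonneg_left (hM j u) (by positivity)
      have h3 := mul_le_mul (hC (z - u)) h2 (mul_nonneg (by positivity) (h0 j u)) hC0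
      calc _ ≤ C * ((1 / 2 : ℝ) ^ j * M) := h3
        _ = _ := by ring
    have h2 := integral_mono (hint j).norm (integrable_const ((1 / 2 : ℝ) ^ j * (C * M)))
      (μ := lam3) h1
    simpa using h2
  have hsum : Summable (fun j : ℕ => ∫ u, ‖w (z - u) * ((1 / 2 : ℝ) ^ j * f j u)‖ ∂lam3) :=
    Summable.of_nonneg_of_le (fun j => integral_nonneg fun u => norm_nonneg _) hle
      (hasSum_geometric_two.summable.mul_right (C * M))
  have h1 := hasSum_integral_of_summable_integral_norm hint hsum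
  have e1 : ∀ j : ℕ, ∫ u, w (z - u) * ((1 / 2 : ℝ) ^ j * f j u) ∂lam3 =
      (1 / 2 : ℝ) ^ j * LB.cn w (f j) z := by
    intro j
    unfold LB.cn
    rw [← integral_const_mul]
    refine integral_congr_ae (Eventually.of_forall fun y => ?_)
    simp only
    ring
  have e2 : ∫ u, ∑' j : ℕ, w (z - u) * ((1 / 2 : ℝ) ^ j * f j u) ∂lam3 =
      LB.cn w (fun u => ∑' j : ℕ, (1 / 2 : ℝ) ^ j * f j u) z := by
    unfold LB.cn
    refine integral_congr_ae (Eventually.of_forall fun y => ?_)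
    simp only
    rw [tsum_mul_left]
  rw [e2] at h1
  simpa only [e1] using h1

private theorem R10_sumK {K w : T3 → ℝ} (hK : Ker K) (hw : BM w) {r : ℝ} (hr : 0 < r) (z : T3) :
    HasSum (fun j : ℕ => (1 / 2 : ℝ) ^ j * LB.cn w ((LB.cn K)^[j] (hk r)) z)
      (LB.cn w (wK K r) z) :=
  R10_sum hw (fun j => (cnK_iter hK hr j).1) (fun j => (cnK_iter hK hr j).2.1)
    (fun j => (cnK_iter hK hr j).2.2) z

/-- after a jump -/
theorem wK_jump {K : T3 → ℝ} (hK : Ker K) {r : ℝ} (hr : 0 < r) (z : T3) :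
    ∫ u, K (z - u) * wK K r u ∂lam3 ≤ 2 * wK K r z := by
  have h1 := R10_sumK hK hK.bm hr z
  have h2 := (hasSum_nat_add_iff' 1).2 (wK_hasSum hK hr z)
  rw [Finset.sum_range_one] at h2
  have h3 := h1.mul_left (1 / 2 : ℝ)
  have e1 : (fun j : ℕ => (1 / 2 : ℝ) * ((1 / 2 : ℝ) ^ j * LB.cn K ((LB.cn K)^[j] (hk r)) z)) =
      fun j : ℕ => (1 / 2 : ℝ) ^ (j + 1) * ((LB.cn K)^[j + 1] (hk r)) z := by
    funext j
    rw [iterate_succ_apply', pow_succ]
    ring
  rw [e1] at h3
  have h4 := h3.unique h2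
  have h5 : (1 / 2 : ℝ) ^ 0 * ((LB.cn K)^[0] (hk r)) z = hk r z := by
    rw [pow_zero, one_mul, iterate_zero_apply]
  rw [h5] at h4
  have h6 := hk_nonneg r z
  have h7 : ∫ u, K (z - u) * wK K r u ∂lam3 = LB.cn K (wK K r) z := rfl
  rw [h7]
  linarith

private theorem R10_comm (a b : T3 → ℝ) (z : T3) : LB.cn a b z = LB.cn b a z := by
  unfold LB.cn
  rw [← LB.int_sub_left (fun y => a (z - y) * b y) z]
  refine integral_congr_ae (Eventually.of_forall fun y => ?_)
  simp only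
  rw [sub_sub_cancel, mul_comm]

private theorem R10_assoc {a b g : T3 → ℝ} (ha : BM a) (hb : BM b) (hg : BM g) (z : T3) :
    LB.cn a (LB.cn b g) z = LB.cn (LB.cn a b) g z := by
  have e1 : LB.cn a (LB.cn b g) z = ∫ y, ∫ u, a (z - y) * (b (y - u) * g u) ∂lam3 ∂lam3 := by
    unfold LB.cn
    refine integral_congr_ae (Eventually.of_forall fun y => ?_)
    simp only
    rw [integral_const_mul]
  have h1 : Integrable (uncurry fun y u : T3 => a (z - y) * (b (y - u) * g u)) (lam3.prod lam3) := by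
    have h2 : BM (fun q : T3 × T3 => a (z - q.1) * (b (q.1 - q.2) * g q.2)) :=
      (ha.comp (measurable_const.sub measurable_fst)).mul
        ((hb.comp (measurable_fst.sub measurable_snd)).mul (hg.comp measurable_snd))
    exact h2.integrable _
  rw [e1, integral_integral_swap h1]
  unfold LB.cn
  refine integral_congr_ae (Eventually.of_forall fun u => ?_)
  simp only
  rw [← LB.int_sub_right (fun y => a (z - u - y) * b y) u, ← integral_mul_const]
  refine integral_congr_ae (Eventually.of_forall fun y => ?_)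
  simp only
  rw [show z - u - (y - u) = z - y by abel]
  ring

/-- semigroup property -/
theorem wK_split {K : T3 → ℝ} (hK : Ker K) {s t : ℝ} (hs : 0 < s) (ht : 0 < t) (z : T3) :
    wK K (s + t) z = LB.cn (hk t) (wK K s) z := by
  have h1 : ∀ j : ℕ, (LB.cn K)^[j] (hk (s + t)) = LB.cn (hk t) ((LB.cn K)^[j] (hk s)) := by
    intro j
    induction j with
    | zero =>
      funext z
      rw [iterate_zero_apply, iterate_zero_apply, add_comm s t, ← hk_conv ht hs z]
      rfl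
    | succ j ih =>
      funext z
      rw [iterate_succ_apply', ih, iterate_succ_apply',
        R10_assoc hK.bm (LB.hk_bm ht) (cnK_iter hK hs j).1 z,
        R10_assoc (LB.hk_bm ht) hK.bm (cnK_iter hK hs j).1 z]
      have h2 : LB.cn K (hk t) = LB.cn (hk t) K := funext fun z => R10_comm _ _ z
      rw [h2]
  have h2 := R10_sumK hK (LB.hk_bm ht) hs z
  have h3 := wK_hasSum hK (add_pos hs ht) z
  simp only [h1] at h3
  exact h3.unique h2

/-- comparison of two times -/
theorem wK_time {K : T3 → ℝ} (hK : Ker K) {r ρ : ℝ} (hr : 0 < r) (hρ : r ≤ ρ) (z : T3) :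
    wK K r z ≤ Real.sqrt (ρ / r) ^ 3 * wK K ρ z := by
  have hρ0 : 0 < ρ := hr.trans_le hρ
  have h1 : ∀ (j : ℕ) (z : T3), ((LB.cn K)^[j] (hk r)) z ≤
      Real.sqrt (ρ / r) ^ 3 * ((LB.cn K)^[j] (hk ρ)) z := by
    intro j
    induction j with
    | zero => exact fun z => hk_le_hk hr hρ z
    | succ j ih =>
      intro z
      rw [iterate_succ_apply', iterate_succ_apply']
      refine (R10_mono hK (cnK_iter hK hr j).1 ((cnK_iter hK hρ0 j).1.const_mul _) ih z).trans
        (le_of_eq ?_)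
      unfold LB.cn
      rw [← integral_const_mul]
      refine integral_congr_ae (Eventually.of_forall fun y => ?_)
      simp only
      ring
  refine hasSum_le (fun j => ?_) (wK_hasSum hK hr z)
    ((wK_hasSum hK hρ0 z).mul_left (Real.sqrt (ρ / r) ^ 3))
  have h2 := mul_le_mul_of_nonneg_left (h1 j z) (by positivity : (0 : ℝ) ≤ (1 / 2 : ℝ) ^ j)
  calc _ ≤ _ := h2
    _ = _ := by ring

end Pool.Agent.Lib.MP_4952d6_mp.LK
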