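import Pool.Agent.Lib.MP_4952d6_mp.Pr.R10

/-!
# Pr.R11 (leaf G3): smoothness of `wK`

By `wK_split`, `wK K r = cn (hk (r/2)) (wK K (r/2))`. With `ω = wK K (r/2)`, which is `BM`: `dwK K α r = cn (dhk α (r/2)) ω`, `ddwK K α r = cn (ddhk α α (r/2)) ω`.
* `R11_WD`: for `hkD D s` and `ω` `BM`: `cn (hkD D s) ω` is bounded, continuous, Lipschitz along `tau α`, and has the derivative `cn (hkD (D + e_α) s) ω` everywhere.
* `wK_deriv_time`: near `τ = r`: `wK K τ z = cn (hk (τ - r/2)) ω z` for `τ > r/2` (`wK_split`), `hk_hasDerivAt_time`, differentiate under the integral (bound: `ddhk_le`, `G1_hk`).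
* `ddwK_bd`: `ddhk_le`: `|ddhk α α s| ≤ 6/s hk (2 s)`, so `|ddwK| ≤ 6/(r/2) G1_b(r) sup ω`; `wK_le`, monotone in `r ≥ ε`.
-/

set_option autoImplicit false
set_option linter.unusedSectionVars false
set_option linter.unusedVariables false
open MeasureTheory Function Filter Topology Set ComplexConjugate
open scoped ENNReal

namespace Pool.Agent.Lib.MP_4952d6_mp.LK

open LA

variable {ι : Type*} [Fintype ι] [DecidableEq ι]

/-- first derivatives of `wK` -/
noncomputable def dwK (K : T3 → ℝ) (α : Fin 3) (r : ℝ) (z : T3) : ℝ :=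
  LB.cn (dhk α (r / 2)) (wK K (r / 2)) z

/-- second derivatives of `wK` -/
noncomputable def ddwK (K : T3 → ℝ) (α : Fin 3) (r : ℝ) (z : T3) : ℝ :=
  LB.cn (ddhk α α (r / 2)) (wK K (r / 2)) z

private theorem R11_bdd {k : T3 → ℝ} (hk : Continuous k) : ∃ C, 0 ≤ C ∧ ∀ x, |k x| ≤ C := by
  obtain ⟨C, hC⟩ := (isCompact_univ (X := T3)).exists_bound_of_continuousOn hk.continuousOn
  exact ⟨max C 0, le_max_right _ _, fun x => (hC x (mem_univ x)).trans (le_max_left _ _)⟩

private theorem R11_meas {k ω : T3 → ℝ} (hk : Continuous k) (hω : BM ω) (z : T3) :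
    Measurable (fun y => k (z - y) * ω y) :=
  (hk.comp (continuous_const.sub continuous_id)).measurable.mul hω.meas

private theorem R11_int {k ω : T3 → ℝ} (hk : Continuous k) (hω : BM ω) (z : T3) :
    Integrable (fun y => k (z - y) * ω y) lam3 := by
  obtain ⟨C, hC0, hC⟩ := R11_bdd hk
  obtain ⟨M, hM0, hM⟩ := hω.exists_nonneg_bound
  refine Integrable.of_bound (R11_meas hk hω z).aestronglyMeasurable (C * M) (Eventually.of_forall fun y => ?_)
  rw [norm_mul]
  exact mul_le_mul (hC _) (hM _) (norm_nonneg _) hC0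

private theorem R11_le {f : T3 → ℝ} {C : ℝ} (h : ∀ y, |f y| ≤ C) : |∫ y, f y ∂lam3| ≤ C := by
  have h1 := norm_integral_le_of_norm_le_const (μ := lam3) (f := f) (C := C) (Eventually.of_forall fun y => h y)
  simpa using h1

private theorem R11_cont {k ω : T3 → ℝ} (hk : Continuous k) (hω : BM ω) : Continuous (LB.cn k ω) := by
  obtain ⟨C, hC0, hC⟩ := R11_bdd hk
  obtain ⟨M, hM0, hM⟩ := hω.exists_nonneg_bound
  unfold LB.cn
  refine continuous_of_dominated (bound := fun _ => C * M) (fun z => (R11_meas hk hω z).aestronglyMeasurable)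
    (fun z => Eventually.of_forall fun y => ?_) (integrable_const _) (Eventually.of_forall fun y => ?_)
  · rw [norm_mul]
    exact mul_le_mul (hC _) (hM _) (norm_nonneg _) hC0
  · exact (hk.comp (continuous_id.sub continuous_const)).mul continuous_const

/-- the directional derivative of `hkD` everywhere -/
private theorem R11_hd {D : Fin 3 → ℕ} {α : Fin 3} (hD : D α ≤ 1) {s : ℝ} (hs : 0 < s) (x : T3) (t : ℝ) :
    HasDerivAt (fun u : ℝ => hkD D s (x + tau α u)) (hkD (D + Pi.single α 1) s (x + tau α t)) t := by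
  have h1 : (fun u : ℝ => hkD D s (x + tau α u)) = fun u =>
      hk1 (D α) s (crd x α + u) * ∏ β ∈ Finset.univ.erase α, hk1 (D β) s (crd x β) := by
    funext u
    exact HKD2_tau D α s x u
  have h3 : hkD (D + Pi.single α 1) s (x + tau α t) =
      hk1 (D α + 1) s (crd x α + t) * ∏ β ∈ Finset.univ.erase α, hk1 (D β) s (crd x β) := by
    rw [HKD2_tau, Pi.add_apply, Pi.single_eq_same]
    congr 1
    refine Finset.prod_congr rfl fun β hβ => ?_
    rw [Pi.add_apply, Pi.single_eq_of_ne (Finset.ne_of_mem_erase hβ), add_zero]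
  rw [h1, h3]
  have h4 : HasDerivAt (fun u : ℝ => hk1 (D α) s (crd x α + u)) (hk1 (D α + 1) s (crd x α + t)) t :=
    (HKD2_deriv hD hs (crd x α + t)).comp_const_add (crd x α) t
  exact h4.mul_const _

/-- differentiation under the integral -/
private theorem R11_deriv {k k' ω : T3 → ℝ} {α : Fin 3} (hk : Continuous k) (hk' : Continuous k') (hω : BM ω)
    (h : ∀ (x : T3) (t : ℝ), HasDerivAt (fun u : ℝ => k (x + tau α u)) (k' (x + tau α t)) t) (z : T3) :
    HasDerivAt (fun t : ℝ => LB.cn k ω (z + tau α t)) (LB.cn k' ω z) 0 := by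
  obtain ⟨M, hM0, hM⟩ := hω.exists_nonneg_bound
  obtain ⟨C, hC0, hC⟩ := R11_bdd hk'
  have e : ∀ (y : T3) (u : ℝ), z + tau α u - y = (z - y) + tau α u := fun y u => by abel
  have h_bound : ∀ᵐ y ∂lam3, ∀ t ∈ (univ : Set ℝ), ‖k' (z + tau α t - y) * ω y‖ ≤ C * M := by
    refine Eventually.of_forall fun y t _ => ?_
    rw [norm_mul]
    exact mul_le_mul (hC _) (hM _) (norm_nonneg _) hC0
  have h_diff : ∀ᵐ y ∂lam3, ∀ t ∈ (univ : Set ℝ),
      HasDerivAt (fun t : ℝ => k (z + tau α t - y) * ω y) (k' (z + tau α t - y) * ω y) t := by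
    refine Eventually.of_forall fun y t _ => ?_
    have h2 : HasDerivAt (fun t : ℝ => k (z + tau α t - y)) (k' (z + tau α t - y)) t := by
      have h1 := h (z - y) t
      simp only [← e y] at h1
      exact h1
    exact h2.mul_const (ω y)
  have key := hasDerivAt_integral_of_dominated_loc_of_deriv_le (μ := lam3) (x₀ := (0 : ℝ)) (s := univ)
    (F := fun t y => k (z + tau α t - y) * ω y)
    (F' := fun t y => k' (z + tau α t - y) * ω y) (bound := fun _ => C * M)
    univ_mem (Eventually.of_forall fun t => (R11_meas hk hω _).aestronglyMeasurable)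
    (R11_int hk hω _) (R11_meas hk' hω _).aestronglyMeasurable h_bound (integrable_const _) h_diff
  have h5 := key.2
  have h6 : (∫ y, k' (z + tau α 0 - y) * ω y ∂lam3) = LB.cn k' ω z := by
    unfold LB.cn
    rw [tau_zero, add_zero]
  rw [h6] at h5
  exact h5

private theorem R11_cnbd {k ω : T3 → ℝ} (hk : Continuous k) (hω : BM ω) : ∃ C, ∀ z, ‖LB.cn k ω z‖ ≤ C := by
  obtain ⟨C, hC0, hC⟩ := R11_bdd hk
  obtain ⟨M, hM0, hM⟩ := hω.exists_nonneg_bound
  refine ⟨C * M, fun z => R11_le fun y => ?_⟩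
  rw [abs_mul]
  exact mul_le_mul (hC _) (hM _) (abs_nonneg _) hC0

private theorem R11_lip {k ω : T3 → ℝ} {α : Fin 3} (hk : Continuous k) (hω : BM ω) {L : ℝ} (hL0 : 0 ≤ L)
    (hL : ∀ x t, |k (x + tau α t) - k x| ≤ L * |t|) :
    ∃ C, ∀ z t, ‖LB.cn k ω (z + tau α t) - LB.cn k ω z‖ ≤ C * |t| := by
  obtain ⟨M, hM0, hM⟩ := hω.exists_nonneg_bound
  refine ⟨L * M, fun z t => ?_⟩
  have h0 : LB.cn k ω (z + tau α t) - LB.cn k ω z =
      ∫ y, (k (z + tau α t - y) * ω y - k (z - y) * ω y) ∂lam3 :=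
    (integral_sub (R11_int hk hω _) (R11_int hk hω _)).symm
  rw [h0]
  refine R11_le fun y => ?_
  rw [← sub_mul, abs_mul]
  have h1 : z + tau α t - y = (z - y) + tau α t := by abel
  rw [h1]
  have h2 := mul_le_mul (hL (z - y) t) (hM y) (abs_nonneg _) (mul_nonneg hL0 (abs_nonneg t))
  refine h2.trans (le_of_eq ?_)
  ring

private theorem R11_WD {ω : T3 → ℝ} (hω : BM ω) (D : Fin 3 → ℕ) (α : Fin 3) (hD : D α ≤ 1) {s : ℝ} (hs : 0 < s) :
    WD lam3 (tau α) (LB.cn (hkD D s) ω) (LB.cn (hkD (D + Pi.single α 1) s) ω) := by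
  have hk1 := hkD_continuous D hs
  have hk2 := hkD_continuous (D + Pi.single α 1) hs
  obtain ⟨L, hL0, hL⟩ := (hkD_WD D α hD hs).exists_lip
  exact ⟨tau_zero α, (R11_cont hk1 hω).stronglyMeasurable, R11_cnbd hk1 hω, R11_lip hk1 hω hL0 hL,
    Eventually.of_forall fun z => R11_deriv hk1 hk2 hω (R11_hd hD hs) z⟩

private theorem R11_eq {K : T3 → ℝ} (hK : Ker K) {r : ℝ} (hr : 0 < r) :
    wK K r = LB.cn (hk (r / 2)) (wK K (r / 2)) := by
  funext z
  have h := wK_split hK (half_pos hr) (half_pos hr) z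
  rwa [add_halves] at h

theorem wK_WD {K : T3 → ℝ} (hK : Ker K) (α : Fin 3) {r : ℝ} (hr : 0 < r) :
    WD lam3 (tau α) (wK K r) (dwK K α r) := by
  have h := R11_WD (wK_bm hK (half_pos hr)) 0 α (by simp) (half_pos hr)
  rw [zero_add] at h
  rw [R11_eq hK hr]
  exact h

theorem dwK_WD {K : T3 → ℝ} (hK : Ker K) (α : Fin 3) {r : ℝ} (hr : 0 < r) :
    WD lam3 (tau α) (dwK K α r) (ddwK K α r) :=
  R11_WD (wK_bm hK (half_pos hr)) (Pi.single α 1) α (HKD2_single_le α α) (half_pos hr)

theorem wK_cont {K : T3 → ℝ} (hK : Ker K) {r : ℝ} (hr : 0 < r) : Continuous (wK K r) := by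
  rw [R11_eq hK hr]
  exact R11_cont (hkD_continuous 0 (half_pos hr)) (wK_bm hK (half_pos hr))

theorem ddwK_meas {K : T3 → ℝ} (hK : Ker K) (α : Fin 3) {r : ℝ} (hr : 0 < r) :
    Measurable (ddwK K α r) :=
  (R11_cont (hkD_continuous _ (half_pos hr)) (wK_bm hK (half_pos hr))).measurable

private theorem R11_ddhk {ε s : ℝ} (hε : 0 < ε) (hs : ε ≤ s) (α : Fin 3) (x : T3) :
    |ddhk α α s x| ≤ 6 / ε * G1_b (2 * ε) := by
  have hs0 : 0 < s := hε.trans_le hs
  refine (ddhk_le α α hs0 x).trans ?_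
  exact mul_le_mul (div_le_div_of_nonneg_left (by norm_num) hε hs) (G1_hk (by positivity) (by linarith) x)
    (hk_nonneg _ _) (by positivity)

theorem wK_deriv_time {K : T3 → ℝ} (hK : Ker K) {r : ℝ} (hr : 0 < r) (z : T3) :
    HasDerivAt (fun t => wK K t z) (∑ α, ddwK K α r z) r := by
  have hr2 := half_pos hr
  have hω := wK_bm hK hr2
  obtain ⟨M, hM0, hM⟩ := hω.exists_nonneg_bound
  have hb0 : 0 ≤ 6 / (r / 4) * G1_b (2 * (r / 4)) := by
    have := G1_one_le (2 * (r / 4))
    positivity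
  have hS : Ioi (3 * r / 4) ∈ 𝓝 r := Ioi_mem_nhds (by linarith)
  have key := hasDerivAt_integral_of_dominated_loc_of_deriv_le (μ := lam3) (x₀ := r) (s := Ioi (3 * r / 4))
    (F := fun t y => hk (t - r / 2) (z - y) * wK K (r / 2) y)
    (F' := fun t y => (∑ α, ddhk α α (t - r / 2) (z - y)) * wK K (r / 2) y)
    (bound := fun _ => (3 * (6 / (r / 4) * G1_b (2 * (r / 4)))) * M)
    hS (by
      filter_upwards [hS] with t ht
      have ht' : 0 < t - r / 2 := by
        have : 3 * r / 4 < t := ht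
        linarith
      exact (R11_meas (hkD_continuous 0 ht') hω _).aestronglyMeasurable)
    (by
      have e : r - r / 2 = r / 2 := by ring
      simp only [e]
      exact R11_int (hkD_continuous 0 hr2) hω z)
    (by
      have e : r - r / 2 = r / 2 := by ring
      simp only [e]
      have hc : Continuous (fun x : T3 => ∑ α, ddhk α α (r / 2) x) :=
        continuous_finsetSum _ fun α _ => hkD_continuous _ hr2
      exact (R11_meas hc hω z).aestronglyMeasurable)
    (Eventually.of_forall fun y t ht => by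
      have ht' : r / 4 ≤ t - r / 2 := by
        have : 3 * r / 4 < t := ht
        linarith
      rw [norm_mul]
      refine mul_le_mul ?_ (hM _) (norm_nonneg _) (by positivity)
      refine (norm_sum_le _ _).trans ?_
      refine (Finset.sum_le_sum fun α _ => R11_ddhk (by positivity) ht' α (z - y)).trans ?_
      rw [Finset.sum_const, Finset.card_univ, Fintype.card_fin, nsmul_eq_mul]
      norm_num)
    (integrable_const _)
    (Eventually.of_forall fun y t ht => by
      have ht' : 0 < t - r / 2 := by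
        have : 3 * r / 4 < t := ht
        linarith
      refine HasDerivAt.mul_const ?_ _
      exact (hk_hasDerivAt_time ht' (z - y)).comp_sub_const t (r / 2))
  have h1 := key.2
  have e1 : (∫ y, (∑ α, ddhk α α (r - r / 2) (z - y)) * wK K (r / 2) y ∂lam3) = ∑ α, ddwK K α r z := by
    have e : r - r / 2 = r / 2 := by ring
    simp only [e, Finset.sum_mul]
    have hi : ∀ α ∈ (Finset.univ : Finset (Fin 3)),
        Integrable (fun y => ddhk α α (r / 2) (z - y) * wK K (r / 2) y) lam3 :=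
      fun α _ => R11_int (hkD_continuous _ hr2) hω z
    rw [integral_finsetSum _ hi]
    rfl
  rw [e1] at h1
  refine h1.congr_of_eventuallyEq ?_
  filter_upwards [hS] with t ht
  have ht' : 0 < t - r / 2 := by
    have : 3 * r / 4 < t := ht
    linarith
  have h2 := wK_split hK hr2 ht' z
  rw [add_sub_cancel] at h2
  rw [h2]
  rfl

theorem ddwK_even {K : T3 → ℝ} (hK : Ker K) (α : Fin 3) {r : ℝ} (hr : 0 < r) (z : T3) :
    ddwK K α r (-z) = ddwK K α r z := by
  unfold ddwK LB.cn
  rw [← integral_neg_eq_self (fun y => ddhk α α (r / 2) (-z - y) * wK K (r / 2) y)]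
  refine integral_congr_ae (Eventually.of_forall fun y => ?_)
  show ddhk α α (r / 2) (-z - -y) * wK K (r / 2) (-y) = ddhk α α (r / 2) (z - y) * wK K (r / 2) y
  rw [wK_even hK (half_pos hr), ← ddhk_neg α α (r / 2) (z - y)]
  congr 2
  abel

/-- bounds uniform in the times `≥ ε` -/
theorem wK_bd {K : T3 → ℝ} (hK : Ker K) {ε : ℝ} (hε : 0 < ε) : ∃ C : ℝ, 1 ≤ C ∧ ∀ r : ℝ, ε ≤ r →
    ∀ (α : Fin 3) (z : T3), wK K r z ≤ C ∧ |ddwK K α r z| ≤ C := by
  have hmono : ∀ {a b : ℝ}, 0 < a → a ≤ b → G1_b b ≤ G1_b a := by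
    intro a b ha hab
    unfold G1_b
    have h1 : (Real.sqrt (4 * Real.pi * b))⁻¹ ≤ (Real.sqrt (4 * Real.pi * a))⁻¹ := by
      apply inv_anti₀
      · exact Real.sqrt_pos.2 (by positivity)
      · exact Real.sqrt_le_sqrt (by gcongr)
    gcongr
  set A : ℝ := 2 * G1_b ε with hA
  set B : ℝ := 6 / (ε / 2) * G1_b (2 * (ε / 2)) * (2 * G1_b (ε / 2)) with hB
  have hA1 : 1 ≤ A := by
    have := G1_one_le ε
    rw [hA]
    linarith
  refine ⟨max A B, hA1.trans (le_max_left _ _), fun r hr α z => ⟨?_, ?_⟩⟩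
  · have hr0 : 0 < r := hε.trans_le hr
    refine ((wK_le hK hr0 z).trans ?_).trans (le_max_left _ _)
    exact mul_le_mul_of_nonneg_left (hmono hε hr) (by norm_num)
  · have hr0 : 0 < r := hε.trans_le hr
    refine le_trans ?_ (le_max_right _ _)
    unfold ddwK LB.cn
    refine R11_le fun y => ?_
    rw [abs_mul]
    refine mul_le_mul (R11_ddhk (half_pos hε) (by linarith) α _) ?_ (abs_nonneg _) ?_
    · rw [abs_of_nonneg (wK_nonneg hK (half_pos hr0) y)]
      refine (wK_le hK (half_pos hr0) y).trans ?_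
      exact mul_le_mul_of_nonneg_left (hmono (half_pos hε) (by linarith)) (by norm_num)
    · have := G1_one_le (2 * (ε / 2))
      positivity

end Pool.Agent.Lib.MP_4952d6_mp.LK
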