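import Pool.Agent.Lib.MP_4952d6_mp.Pr.R09
import Pool.Agent.Lib.MP_4952d6_mp.Pr.R11

/-!
# Pr.R12 (leaf G4): products of `wK`, heat flow

Model: section LA.G1 and `heat_mono` (Pk/G54 l.783-1190: `ZT_WDN`, `ZTg_WD`, `ZT_deriv`, `ZT_bd`, `g2_deriv`, `heat_mono`): copy with `wK K (r i)` instead of `hk (r i)`, `dwK K α`, `ddwK K α` instead of
`dhk α`, `ddhk α α` (`wK_WD`, `dwK_WD`, `wK_deriv_time`, `wK_bd`, `wK_cont`, `wK_even`, `ddwK_even`; `G1_comp`, `G1_mp`).
* `ZW_jump`: for `i ∈ T`: `∫ z, K (x i - z) * ZW K T r y (update x i z) = (∫ z, K (x i - z) * wK (y - z)) * ∏ (erase i)`; `z = y - u`: `K (x i - y + u)`, by `Ker.even`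
  `= K ((y - x i) - u)`; `wK_jump`: `≤ 2 wK (y - x i)`.
* `heat_monoK`: `heat_ineqK` with `d = |T| μ`: `-h' ≤ 2 |T| μ h + Lam |T| 2 h = |T| (2 μ + 2 Lam) h`, then as in `heat_mono`.
-/

set_option autoImplicit false
set_option linter.unusedSectionVars false
set_option linter.unusedVariables false
open MeasureTheory Function Filter Topology Set ComplexConjugate
open scoped ENNReal

namespace Pool.Agent.Lib.MP_4952d6_mp.LK

open LA

variable {ι : Type*} [Fintype ι] [DecidableEq ι]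

open LG

/-- product of `wK` over the particles in `T` -/
noncomputable def ZW {κ : Type*} (K : T3 → ℝ) (T : Finset κ) (r : κ → ℝ) (y : T3) (x : κ → T3) : ℝ :=
  ∏ i ∈ T, wK K (r i) (y - x i)

theorem R12_bm {K : T3 → ℝ} (hK : Ker K) {T : Finset ι} {r : ι → ℝ} (hr : ∀ i ∈ T, 0 < r i) (y : T3) :
    BM (fun x : ι → T3 => ZW K T r y x) := by
  unfold ZW
  exact BM.finset_prod T fun i hi => (wK_bm hK (hr i hi)).comp (measurable_const.sub (measurable_pi_apply i))

theorem ZW_bm {K : T3 → ℝ} (hK : Ker K) (T : Finset ι) {r : ι → ℝ} (hr : ∀ i, 0 < r i) (y : T3) :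
    BM (fun x : ι → T3 => ZW K T r y x) := by
  exact R12_bm hK (fun i _ => hr i) y

theorem ZW_nonneg {K : T3 → ℝ} (hK : Ker K) (T : Finset ι) {r : ι → ℝ} (hr : ∀ i, 0 < r i) (y : T3)
    (x : ι → T3) : 0 ≤ ZW K T r y x := by
  unfold ZW
  exact Finset.prod_nonneg fun i _ => wK_nonneg hK (hr i) _

theorem ZW_jump {K : T3 → ℝ} (hK : Ker K) {T : Finset ι} {r : ι → ℝ} (hr : ∀ i, 0 < r i) {i : ι}
    (hi : i ∈ T) (y : T3) (x : ι → T3) :
    ∫ z, K (x i - z) * ZW K T r y (update x i z) ∂lam3 ≤ 2 * ZW K T r y x := by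
  have h1 : ∀ z : T3, ZW K T r y (update x i z) =
      wK K (r i) (y - z) * ∏ j ∈ T.erase i, wK K (r j) (y - x j) := by
    intro z
    unfold ZW
    rw [← Finset.mul_prod_erase T (fun j => wK K (r j) (y - update x i z j)) hi, update_self]
    congr 1
    refine Finset.prod_congr rfl fun j hj => ?_
    rw [update_of_ne (Finset.ne_of_mem_erase hj)]
  have h2 : ZW K T r y x = wK K (r i) (y - x i) * ∏ j ∈ T.erase i, wK K (r j) (y - x j) := by
    unfold ZW
    rw [← Finset.mul_prod_erase T (fun j => wK K (r j) (y - x j)) hi]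
  have hP : 0 ≤ ∏ j ∈ T.erase i, wK K (r j) (y - x j) :=
    Finset.prod_nonneg fun j _ => wK_nonneg hK (hr j) _
  have h3 : ∫ z, K (x i - z) * ZW K T r y (update x i z) ∂lam3
      = (∫ z, K (x i - z) * wK K (r i) (y - z) ∂lam3) * ∏ j ∈ T.erase i, wK K (r j) (y - x j) := by
    rw [← integral_mul_const]
    refine integral_congr_ae (Filter.Eventually.of_forall fun z => ?_)
    simp only [h1]
    ring
  have h4 : ∫ z, K (x i - z) * wK K (r i) (y - z) ∂lam3 = ∫ u, K ((y - x i) - u) * wK K (r i) u ∂lam3 := by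
    rw [← integral_sub_left_eq_self (fun z => K (x i - z) * wK K (r i) (y - z)) lam3 y]
    refine integral_congr_ae (Filter.Eventually.of_forall fun u => ?_)
    have e1 : x i - (y - u) = -((y - x i) - u) := by abel
    have e2 : y - (y - u) = u := by abel
    simp only [e1, e2, hK.even]
  rw [h3, h4, h2]
  have h5 := mul_le_mul_of_nonneg_right (wK_jump hK (hr i) (y - x i)) hP
  linarith

/-- first derivatives of `ZW` -/
noncomputable def R12_g (K : T3 → ℝ) (T : Finset ι) (r : ι → ℝ) (y : T3) (i : ι) (α : Fin 3) (x : ι → T3) : ℝ :=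
  if i ∈ T then dwK K α (r i) (x i - y) * ∏ j ∈ T.erase i, wK K (r j) (y - x j) else 0

/-- second derivatives of `ZW` -/
noncomputable def R12_gg (K : T3 → ℝ) (T : Finset ι) (r : ι → ℝ) (y : T3) (i : ι) (α : Fin 3) (x : ι → T3) : ℝ :=
  if i ∈ T then ddwK K α (r i) (x i - y) * ∏ j ∈ T.erase i, wK K (r j) (y - x j) else 0

theorem R12_cont {K : T3 → ℝ} (hK : Ker K) {S : Finset ι} {r : ι → ℝ} (hr : ∀ j ∈ S, 0 < r j) (y : T3) :
    Continuous (fun x : ι → T3 => ∏ j ∈ S, wK K (r j) (y - x j)) := by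
  refine continuous_finsetProd _ fun j hj => ?_
  exact (wK_cont hK (hr j hj)).comp (continuous_const.sub (continuous_apply j))

theorem R12_inv {K : T3 → ℝ} (hK : Ker K) {S : Finset ι} {r : ι → ℝ} (hr : ∀ j ∈ S, 0 < r j) (y : T3) {i : ι}
    (hi : i ∉ S) (α : Fin 3) :
    WD (piN ι) (tauN i α) (fun x : ι → T3 => ∏ j ∈ S, wK K (r j) (y - x j)) (fun _ => 0) := by
  refine WD.of_invariant (tauN_zero i α) (R12_cont hK hr y).stronglyMeasurable ⟨∏ j ∈ S, 2 * G1_b (r j), fun x => ?_⟩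
    (fun x t => ?_)
  · rw [norm_prod]
    refine Finset.prod_le_prod (fun _ _ => norm_nonneg _) fun j hj => ?_
    rw [Real.norm_eq_abs, abs_of_nonneg (wK_nonneg hK (hr j hj) _)]
    exact wK_le hK (hr j hj) _
  · refine Finset.prod_congr rfl fun j hj => ?_
    have hji : j ≠ i := fun h => hi (h ▸ hj)
    rw [Pi.add_apply, tauN, Pi.single_eq_of_ne hji, add_zero]

theorem R12_neg {K : T3 → ℝ} (hK : Ker K) {s : ℝ} (hs : 0 < s) (u y : T3) : wK K s (u - y) = wK K s (y - u) := by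
  rw [← neg_sub, wK_even hK hs]

theorem R12_WDN {K : T3 → ℝ} (hK : Ker K) {T : Finset ι} {r : ι → ℝ} (hr : ∀ i ∈ T, 0 < r i) (y : T3) :
    WDN (ZW K T r y) (R12_g K T r y) := by
  intro i α
  by_cases hi : i ∈ T
  · have hr' : ∀ j ∈ T.erase i, 0 < r j := fun j hj => hr j (Finset.mem_of_mem_erase hj)
    have h1 := (G1_comp (wK_WD hK α (hr i hi)) y i).mul (R12_inv hK hr' y (Finset.notMem_erase i T) α)
    have e1 : ZW K T r y = fun x : ι → T3 => wK K (r i) (x i - y) * ∏ j ∈ T.erase i, wK K (r j) (y - x j) := by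
      funext x
      unfold ZW
      rw [R12_neg hK (hr i hi), Finset.mul_prod_erase T (fun j => wK K (r j) (y - x j)) hi]
    have e2 : R12_g K T r y i α = fun x : ι → T3 => dwK K α (r i) (x i - y) * ∏ j ∈ T.erase i, wK K (r j) (y - x j)
        + wK K (r i) (x i - y) * 0 := by
      funext x
      unfold R12_g
      rw [if_pos hi, mul_zero, add_zero]
    rw [e1, e2]
    exact h1
  · have h1 := R12_inv hK hr y hi α
    have e2 : R12_g K T r y i α = fun _ : ι → T3 => 0 := by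
      funext x
      unfold R12_g
      rw [if_neg hi]
    rw [e2]
    exact h1

theorem R12_g_WD {K : T3 → ℝ} (hK : Ker K) {T : Finset ι} {r : ι → ℝ} (hr : ∀ i ∈ T, 0 < r i) (y : T3) (i : ι)
    (α : Fin 3) : WD (piN ι) (tauN i α) (R12_g K T r y i α) (R12_gg K T r y i α) := by
  by_cases hi : i ∈ T
  · have hr' : ∀ j ∈ T.erase i, 0 < r j := fun j hj => hr j (Finset.mem_of_mem_erase hj)
    have h1 := (G1_comp (dwK_WD hK α (hr i hi)) y i).mul (R12_inv hK hr' y (Finset.notMem_erase i T) α)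
    have e1 : R12_g K T r y i α = fun x : ι → T3 => dwK K α (r i) (x i - y) * ∏ j ∈ T.erase i, wK K (r j) (y - x j) := by
      funext x
      unfold R12_g
      rw [if_pos hi]
    have e2 : R12_gg K T r y i α = fun x : ι → T3 => ddwK K α (r i) (x i - y) * ∏ j ∈ T.erase i, wK K (r j) (y - x j)
        + dwK K α (r i) (x i - y) * 0 := by
      funext x
      unfold R12_gg
      rw [if_pos hi, mul_zero, add_zero]
    rw [e1, e2]
    exact h1
  · have e1 : R12_g K T r y i α = fun _ : ι → T3 => 0 := by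
      funext x
      unfold R12_g
      rw [if_neg hi]
    have e2 : R12_gg K T r y i α = fun _ : ι → T3 => 0 := by
      funext x
      unfold R12_gg
      rw [if_neg hi]
    rw [e1, e2]
    exact WD.of_invariant (tauN_zero i α) stronglyMeasurable_const ⟨0, fun _ => by simp⟩ fun _ _ => rfl

theorem R12_deriv {K : T3 → ℝ} (hK : Ker K) {T : Finset ι} {r : ι → ℝ} (y : T3) (x : ι → T3) {τ : ℝ}
    (hr : ∀ i ∈ T, 0 < r i + τ) :
    HasDerivAt (fun t => ZW K T (fun i => r i + t) y x) (∑ i, ∑ α, R12_gg K T (fun i => r i + τ) y i α x) τ := by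
  have h := HasDerivAt.fun_finsetProd (u := T)
    (f := fun i t => wK K (r i + t) (y - x i)) (f' := fun i => ∑ α, ddwK K α (r i + τ) (y - x i)) (x := τ)
    (fun i hi => (wK_deriv_time hK (hr i hi) (y - x i)).comp_const_add (r i) τ)
  refine h.congr_deriv ?_
  rw [← Finset.sum_subset (Finset.subset_univ T) (f := fun i => ∑ α, R12_gg K T (fun i => r i + τ) y i α x)]
  · refine Finset.sum_congr rfl fun i hi => ?_
    rw [smul_eq_mul, mul_comm, Finset.sum_mul]
    refine Finset.sum_congr rfl fun α _ => ?_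
    unfold R12_gg
    rw [if_pos hi, ← neg_sub y (x i), ddwK_even hK α (hr i hi)]
  · intro i _ hi
    refine Finset.sum_eq_zero fun α _ => ?_
    unfold R12_gg
    rw [if_neg hi]

/-- bounds uniform in the times `≥ ε` -/
theorem R12_bd {K : T3 → ℝ} (hK : Ker K) (T : Finset ι) {ε : ℝ} (hε : 0 < ε) : ∃ C : ℝ, ∀ r : ι → ℝ,
    (∀ i ∈ T, ε ≤ r i) → ∀ (y : T3) (x : ι → T3), |ZW K T r y x| ≤ C ∧ |∑ i, ∑ α, R12_gg K T r y i α x| ≤ C := by
  obtain ⟨B, hB1, hB⟩ := wK_bd hK hε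
  have hB0 : 0 ≤ B := by linarith
  have hprod : ∀ r : ι → ℝ, (∀ i ∈ T, ε ≤ r i) → ∀ (y : T3) (x : ι → T3) (S : Finset ι), S ⊆ T →
      |∏ j ∈ S, wK K (r j) (y - x j)| ≤ B ^ T.card := by
    intro r hr y x S hS
    rw [Finset.abs_prod]
    calc ∏ j ∈ S, |wK K (r j) (y - x j)| ≤ ∏ j ∈ S, B := by
          refine Finset.prod_le_prod (fun _ _ => abs_nonneg _) fun j hj => ?_
          rw [abs_of_nonneg (wK_nonneg hK (hε.trans_le (hr j (hS hj))) _)]
          exact (hB (r j) (hr j (hS hj)) 0 _).1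
      _ = B ^ S.card := Finset.prod_const _
      _ ≤ B ^ T.card := pow_le_pow_right₀ hB1 (Finset.card_le_card hS)
  have hdd : ∀ r : ι → ℝ, (∀ i ∈ T, ε ≤ r i) → ∀ (y : T3) (x : ι → T3) (i : ι) (α : Fin 3),
      |R12_gg K T r y i α x| ≤ B * B ^ T.card := by
    intro r hr y x i α
    unfold R12_gg
    by_cases hi : i ∈ T
    · rw [if_pos hi, abs_mul]
      exact mul_le_mul (hB (r i) (hr i hi) α _).2 (hprod r hr y x _ (Finset.erase_subset i T)) (abs_nonneg _) hB0
    · rw [if_neg hi, abs_zero]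
      positivity
  refine ⟨B ^ T.card + ∑ _i : ι, ∑ _α : Fin 3, B * B ^ T.card, fun r hr y x => ⟨?_, ?_⟩⟩
  · have h1 : 0 ≤ ∑ _i : ι, ∑ _α : Fin 3, B * B ^ T.card :=
      Finset.sum_nonneg fun _ _ => Finset.sum_nonneg fun _ _ => by positivity
    have h2 := hprod r hr y x T (Finset.Subset.refl T)
    unfold ZW
    linarith
  · have h1 : 0 ≤ B ^ T.card := by positivity
    have h2 : |∑ i, ∑ α, R12_gg K T r y i α x| ≤ ∑ _i : ι, ∑ _α : Fin 3, B * B ^ T.card := by
      refine (Finset.abs_sum_le_sum_abs _ _).trans (Finset.sum_le_sum fun i _ => ?_)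
      refine (Finset.abs_sum_le_sum_abs _ _).trans (Finset.sum_le_sum fun α _ => ?_)
      exact hdd r hr y x i α
    linarith

/-- measurability of the second derivatives -/
theorem R12_meas {K : T3 → ℝ} (hK : Ker K) {T : Finset ι} {r : ι → ℝ} (hr : ∀ i ∈ T, 0 < r i) (y : T3) (i : ι)
    (α : Fin 3) : Measurable (R12_gg K T r y i α) := by
  by_cases hi : i ∈ T
  · have h1 : Measurable (fun x : ι → T3 => ddwK K α (r i) (x i - y)) :=
      (ddwK_meas hK α (hr i hi)).comp ((measurable_pi_apply i).sub measurable_const)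
    have hr' : ∀ j ∈ T.erase i, 0 < r j := fun j hj => hr j (Finset.mem_of_mem_erase hj)
    have h3 : Measurable (fun x : ι → T3 => ∏ j ∈ T.erase i, wK K (r j) (y - x j)) :=
      (R12_cont hK hr' y).measurable
    have e1 : R12_gg K T r y i α = fun x : ι → T3 => ddwK K α (r i) (x i - y) * ∏ j ∈ T.erase i, wK K (r j) (y - x j) := by
      funext x
      unfold R12_gg
      rw [if_pos hi]
    rw [e1]
    exact h1.mul h3
  · have e1 : R12_gg K T r y i α = fun _ : ι → T3 => 0 := by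
      funext x
      unfold R12_gg
      rw [if_neg hi]
    rw [e1]
    exact measurable_const

/-- derivative of the heat flow -/
theorem R12_flow {K : T3 → ℝ} (hK : Ker K) {ψ : (ι → T3) → ℂ} (hψ : MemLp ψ 2 (piN ι)) (T : Finset ι) {r : ι → ℝ}
    (hr : ∀ i ∈ T, 0 < r i) (y : T3) {τ : ℝ} (hτ : 0 ≤ τ) :
    HasDerivAt (fun t => ∫ x, ZW K T (fun i => r i + t) y x * ‖ψ x‖ ^ 2 ∂(piN ι))
      (∫ x, (∑ i, ∑ α, R12_gg K T (fun i => r i + τ) y i α x) * ‖ψ x‖ ^ 2 ∂(piN ι)) τ := by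
  obtain ⟨ε, hε, hεr⟩ := g2_eps T hr
  obtain ⟨C, hC⟩ := R12_bd hK T (half_pos hε)
  have hsq := g2_sq_int hψ
  have hbd : ∀ t : ℝ, t ∈ Metric.ball τ (ε / 2) → ∀ i ∈ T, ε / 2 ≤ r i + t := by
    intro t ht i hi
    rw [Metric.mem_ball, Real.dist_eq, abs_lt] at ht
    have := hεr i hi
    linarith
  have hpos : ∀ t : ℝ, t ∈ Metric.ball τ (ε / 2) → ∀ i ∈ T, 0 < r i + t := fun t ht i hi =>
    (half_pos hε).trans_le (hbd t ht i hi)
  have hself : τ ∈ Metric.ball τ (ε / 2) := Metric.mem_ball_self (half_pos hε)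
  have hm2 : ∀ t : ℝ, t ∈ Metric.ball τ (ε / 2) → AEStronglyMeasurable
      (fun x => ZW K T (fun i => r i + t) y x * ‖ψ x‖ ^ 2) (piN ι) := fun t ht =>
    (R12_bm hK (hpos t ht) y).meas.aestronglyMeasurable.mul hsq.aestronglyMeasurable
  have hm3 : Measurable (fun x => ∑ i, ∑ α, R12_gg K T (fun i => r i + τ) y i α x) :=
    Finset.measurable_sum _ fun i _ => Finset.measurable_sum _ fun α _ => R12_meas hK (hpos τ hself) y i α
  have hm4 : AEStronglyMeasurable
      (fun x => (∑ i, ∑ α, R12_gg K T (fun i => r i + τ) y i α x) * ‖ψ x‖ ^ 2) (piN ι) :=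
    hm3.aestronglyMeasurable.mul hsq.aestronglyMeasurable
  have hi1 : Integrable (fun x => ZW K T (fun i => r i + τ) y x * ‖ψ x‖ ^ 2) (piN ι) := by
    refine Integrable.mono' (hsq.const_mul C) (hm2 τ hself) (Filter.Eventually.of_forall fun x => ?_)
    rw [norm_mul, Real.norm_eq_abs, Real.norm_of_nonneg (sq_nonneg _)]
    exact mul_le_mul_of_nonneg_right (hC _ (hbd τ hself) y x).1 (sq_nonneg _)
  refine (hasDerivAt_integral_of_dominated_loc_of_deriv_le
    (F := fun t x => ZW K T (fun i => r i + t) y x * ‖ψ x‖ ^ 2)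
    (F' := fun t x => (∑ i, ∑ α, R12_gg K T (fun i => r i + t) y i α x) * ‖ψ x‖ ^ 2)
    (bound := fun x => C * ‖ψ x‖ ^ 2)
    (Metric.ball_mem_nhds τ (half_pos hε)) ?_ hi1 hm4 ?_ ?_ ?_).2
  · filter_upwards [Metric.ball_mem_nhds τ (half_pos hε)] with t ht
    exact hm2 t ht
  · refine Filter.Eventually.of_forall fun x t ht => ?_
    rw [norm_mul, Real.norm_eq_abs, Real.norm_of_nonneg (sq_nonneg _)]
    exact mul_le_mul_of_nonneg_right (hC _ (hbd t ht) y x).2 (sq_nonneg _)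
  · exact hsq.const_mul C
  · refine Filter.Eventually.of_forall fun x t ht => ?_
    exact (R12_deriv hK y x (hpos t ht)).mul_const _

theorem heat_monoK {l Lam R₀ μ e : ℝ} {K : T3 → ℝ} {ε : ℝ} {𝒱 : T3 → ℝ≥0∞} {ψ : (ι → T3) → ℂ}
    {g : ι → Fin 3 → (ι → T3) → ℂ} (hM : MiniK l Lam K ε R₀ 𝒱 μ e ψ g) (T : Finset ι) {r : ι → ℝ}
    (hr : ∀ i, 0 < r i) (y : T3) {τ : ℝ} (hτ : 0 ≤ τ) :
    ∫ x, ZW K T r y x * ‖ψ x‖ ^ 2 ∂(piN ι)
      ≤ Real.exp ((T.card : ℝ) * (2 * μ + 2 * Lam) * τ)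
        * ∫ x, ZW K T (fun i => r i + τ) y x * ‖ψ x‖ ^ 2 ∂(piN ι) := by
  have hK := hM.ker
  have hd : 0 ≤ (T.card : ℝ) * μ := mul_nonneg (Nat.cast_nonneg _) hM.mu0
  have hsq := g2_sq_int hM.fe.hg.mem
  have key : ∀ t : ℝ, 0 ≤ t →
      - ∫ x, (∑ i, ∑ α, R12_gg K T (fun i => r i + t) y i α x) * ‖ψ x‖ ^ 2 ∂(piN ι)
        ≤ ((T.card : ℝ) * (2 * μ + 2 * Lam)) * ∫ x, ZW K T (fun i => r i + t) y x * ‖ψ x‖ ^ 2 ∂(piN ι) := by
    intro t ht
    have hrt : ∀ i, 0 < r i + t := fun i => by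
      have := hr i
      linarith
    have hbm : BM (fun x : ι → T3 => ZW K T (fun i => r i + t) y x) := ZW_bm hK T hrt y
    have hZ0 : ∀ x : ι → T3, 0 ≤ ZW K T (fun i => r i + t) y x := fun x => ZW_nonneg hK T hrt y x
    have hZd : ∀ x x' : ι → T3, (∀ i ∈ T, x i = x' i) →
        ZW K T (fun i => r i + t) y x = ZW K T (fun i => r i + t) y x' :=
      fun x x' hx => Finset.prod_congr rfl fun i hi => by rw [hx i hi]
    have h1 := heat_ineqK hM.hv hM.hev hM.la0 hK hM.eps hM.fe (T := T) (R12_WDN hK (fun i _ => hrt i) y)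
      (fun i α => R12_g_WD hK (fun i _ => hrt i) y i α)
      hZ0 hbm.meas hZd hM.e0 hM.hmin (by rw [hM.nrm, mul_one]; exact hM.heq) hd (hM.chem T)
    have hint : Integrable (fun x => 2 * ZW K T (fun i => r i + t) y x * ‖ψ x‖ ^ 2) (piN ι) := by
      have h2 := (H2_int hsq hbm).const_mul 2
      refine h2.congr (Filter.Eventually.of_forall fun x => ?_)
      ring
    have h2 : ∀ i ∈ T, ∫ x, (∫ z, K (x i - z) * ZW K T (fun i => r i + t) y (update x i z) ∂lam3) * ‖ψ x‖ ^ 2 ∂(piN ι)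
        ≤ 2 * ∫ x, ZW K T (fun i => r i + t) y x * ‖ψ x‖ ^ 2 ∂(piN ι) := by
      intro i hi
      have h3 : 2 * ∫ x, ZW K T (fun i => r i + t) y x * ‖ψ x‖ ^ 2 ∂(piN ι)
          = ∫ x, 2 * ZW K T (fun i => r i + t) y x * ‖ψ x‖ ^ 2 ∂(piN ι) := by
        rw [← integral_const_mul]
        refine integral_congr_ae (Filter.Eventually.of_forall fun x => ?_)
        simp only
        ring
      rw [h3]
      refine integral_mono_of_nonneg (Filter.Eventually.of_forall fun x => ?_) hint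
        (Filter.Eventually.of_forall fun x => ?_)
      · refine mul_nonneg (integral_nonneg fun z => ?_) (sq_nonneg _)
        exact mul_nonneg (hK.nonneg _) (hZ0 _)
      · exact mul_le_mul_of_nonneg_right (ZW_jump hK hrt hi y x) (sq_nonneg _)
    have h4 : ∑ i ∈ T, ∫ x, (∫ z, K (x i - z) * ZW K T (fun i => r i + t) y (update x i z) ∂lam3) * ‖ψ x‖ ^ 2 ∂(piN ι)
        ≤ (T.card : ℝ) * (2 * ∫ x, ZW K T (fun i => r i + t) y x * ‖ψ x‖ ^ 2 ∂(piN ι)) := by
      have h5 := Finset.sum_le_card_nsmul T _ _ h2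
      rwa [nsmul_eq_mul] at h5
    have h6 := mul_le_mul_of_nonneg_left h4 hM.la0
    calc _ ≤ _ := h1
      _ ≤ 2 * ((T.card : ℝ) * μ) * (∫ x, ZW K T (fun i => r i + t) y x * ‖ψ x‖ ^ 2 ∂(piN ι)) +
          Lam * ((T.card : ℝ) * (2 * ∫ x, ZW K T (fun i => r i + t) y x * ‖ψ x‖ ^ 2 ∂(piN ι))) := by linarith
      _ = _ := by ring
  set m : ℝ := (T.card : ℝ) * (2 * μ + 2 * Lam) with hm
  set h : ℝ → ℝ := fun t => ∫ x, ZW K T (fun i => r i + t) y x * ‖ψ x‖ ^ 2 ∂(piN ι) with hh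
  have hder : ∀ t : ℝ, 0 ≤ t → HasDerivAt (fun t => Real.exp (m * t) * h t)
      (Real.exp (m * t) * m * h t + Real.exp (m * t)
        * ∫ x, (∑ i, ∑ α, R12_gg K T (fun i => r i + t) y i α x) * ‖ψ x‖ ^ 2 ∂(piN ι)) t := by
    intro t ht
    have h1 : HasDerivAt (fun t : ℝ => Real.exp (m * t)) (Real.exp (m * t) * m) t := by
      have h2 : HasDerivAt (fun t : ℝ => m * t) m t := by
        simpa using (hasDerivAt_id t).const_mul m
      exact h2.exp
    exact h1.mul (R12_flow hK hM.fe.hg.mem T (fun i _ => hr i) y ht)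
  have hmono : MonotoneOn (fun t => Real.exp (m * t) * h t) (Set.Ici 0) := by
    refine monotoneOn_of_deriv_nonneg (convex_Ici 0)
      (fun t ht => (hder t ht).continuousAt.continuousWithinAt) ?_ ?_
    · intro t ht
      rw [interior_Ici] at ht
      exact (hder t (le_of_lt ht)).differentiableAt.differentiableWithinAt
    · intro t ht
      rw [interior_Ici] at ht
      rw [(hder t (le_of_lt ht)).deriv]
      have h1 := key t (le_of_lt ht)
      have h2 : 0 ≤ Real.exp (m * t) * (m * h t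
          + ∫ x, (∑ i, ∑ α, R12_gg K T (fun i => r i + t) y i α x) * ‖ψ x‖ ^ 2 ∂(piN ι)) := by
        refine mul_nonneg (Real.exp_pos _).le ?_
        linarith
      linarith
  have h0 := hmono (Set.mem_Ici.2 le_rfl) (Set.mem_Ici.2 hτ) hτ
  simp only [mul_zero, Real.exp_zero, one_mul, hh, add_zero] at h0
  exact h0

end Pool.Agent.Lib.MP_4952d6_mp.LK
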