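import Pool.Agent.Lib.MP_4952d6_mp.Pr.R12

/-!
# Pr.R13 (leaf G5): heat flow of elementary symmetric sums

Copy of `P08_step`, `heat_elSG` (Pq/P08 l.370-end) with `wK K (r j) (y - x j)` instead of `hk (r j) (y - x j) + 1` and `ZW K` instead of `kT`, `heat_monoK`.
-/

set_option autoImplicit false
set_option linter.unusedSectionVars false
set_option linter.unusedVariables false
open MeasureTheory Function Filter Topology Set ComplexConjugate
open scoped ENNReal

namespace Pool.Agent.Lib.MP_4952d6_mp.LK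

open LA

variable {ι : Type*} [Fintype ι] [DecidableEq ι]

open LG

private lemma R13_bm_one {K : T3 → ℝ} (hK : Ker K) {s : ℝ} (hs : 0 < s) (y : T3) (j : ι) :
    BM (fun x : ι → T3 => wK K s (y - x j)) := by
  have h := ZW_bm hK ({j} : Finset ι) (r := fun _ => s) (fun _ => hs) y
  have e : (fun x : ι → T3 => ZW K ({j} : Finset ι) (fun _ => s) y x) = fun x : ι → T3 => wK K s (y - x j) := by
    funext x
    unfold ZW
    rw [Finset.prod_singleton]
  rw [e] at h
  exact h

/-- splitting off one particle -/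
private lemma R13_step {K : T3 → ℝ} (hK : Ker K) {ψ : (ι → T3) → ℂ} (hψ : Integrable (fun x => ‖ψ x‖ ^ 2) (piN ι)) {r : ι → ℝ}
    (hr : ∀ i, 0 < r i) (y : T3) (k : ℕ) (T U : Finset ι) (hd : Disjoint T U) :
    ∫ x, ZW K T r y x * elS (fun j => wK K (r j) (y - x j)) (k + 1) U * ‖ψ x‖ ^ 2 ∂(piN ι)
      = ∑ j ∈ U, ∫ x, ZW K (insert j T) r y x * elS (fun j => wK K (r j) (y - x j)) k (U.erase j)
          * ‖ψ x‖ ^ 2 ∂(piN ι) := by
  have hint : ∀ j ∈ U, Integrable (fun x => ZW K (insert j T) r y x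
      * elS (fun j => wK K (r j) (y - x j)) k (U.erase j) * ‖ψ x‖ ^ 2) (piN ι) := fun j _ =>
    H2_int hψ ((ZW_bm hK (insert j T) hr y).mul
      (H2_bm_elS (fun i => R13_bm_one hK (hr i) y i) k (U.erase j)))
  rw [← integral_finsetSum _ hint]
  refine integral_congr_ae (Eventually.of_forall fun x => ?_)
  beta_reduce
  have e1 : elS (fun j => wK K (r j) (y - x j)) (k + 1) U
      = ∑ j ∈ U, wK K (r j) (y - x j)
        * elS (fun j => wK K (r j) (y - x j)) k (U.erase j) := rfl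
  rw [e1, Finset.mul_sum, Finset.sum_mul]
  refine Finset.sum_congr rfl fun j hj => ?_
  have hjT : j ∉ T := fun h => (Finset.disjoint_left.1 hd) h hj
  have e2 : ZW K (insert j T) r y x = wK K (r j) (y - x j) * ZW K T r y x := by
    unfold ZW
    rw [Finset.prod_insert hjT]
  rw [e2]
  ring

theorem heat_elSK {l Lam R₀ μ e : ℝ} {K : T3 → ℝ} {ε : ℝ} {𝒱 : T3 → ℝ≥0∞} {ψ : (ι → T3) → ℂ}
    {g : ι → Fin 3 → (ι → T3) → ℂ} (hM : MiniK l Lam K ε R₀ 𝒱 μ e ψ g) {r : ι → ℝ}
    (hr : ∀ i, 0 < r i) (y : T3) {τ : ℝ} (hτ : 0 ≤ τ) (k : ℕ) (T U : Finset ι)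
    (hd : Disjoint T U) :
    ∫ x, ZW K T r y x * elS (fun j => wK K (r j) (y - x j)) k U * ‖ψ x‖ ^ 2 ∂(piN ι)
      ≤ Real.exp (((T.card : ℝ) + k) * (2 * μ + 2 * Lam) * τ)
        * ∫ x, ZW K T (fun i => r i + τ) y x * elS (fun j => wK K (r j + τ) (y - x j)) k U
          * ‖ψ x‖ ^ 2 ∂(piN ι) := by
  have hK := hM.ker
  have hψ : Integrable (fun x => ‖ψ x‖ ^ 2) (piN ι) := int_sq hM.fe.hg.mem
  have hr' : ∀ i, 0 < r i + τ := fun i => by linarith [hr i]
  induction k generalizing T U with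
  | zero =>
    have h := heat_monoK hM T hr y hτ
    have e1 : ∀ (q : ι → ℝ), ∫ x, ZW K T q y x * elS (fun j => wK K (q j) (y - x j)) 0 U
        * ‖ψ x‖ ^ 2 ∂(piN ι) = ∫ x, ZW K T q y x * ‖ψ x‖ ^ 2 ∂(piN ι) := by
      intro q
      refine integral_congr_ae (Eventually.of_forall fun x => ?_)
      beta_reduce
      have : elS (fun j => wK K (q j) (y - x j)) 0 U = 1 := rfl
      rw [this, mul_one]
    have e2 := e1 r
    have e3 := e1 (fun i => r i + τ)
    rw [e2, Nat.cast_zero, add_zero]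
    refine h.trans (le_of_eq ?_)
    rw [← e3]
  | succ k ih =>
    have s1 := R13_step hK hψ hr y k T U hd
    have s2 := R13_step hK hψ hr' y k T U hd
    rw [s1]
    refine le_trans ?_ (le_of_eq (congrArg
      (fun z => Real.exp (((T.card : ℝ) + (k + 1 : ℕ)) * (2 * μ + 2 * Lam) * τ) * z) s2.symm))
    rw [Finset.mul_sum]
    refine Finset.sum_le_sum fun j hj => ?_
    have hjT : j ∉ T := fun h => (Finset.disjoint_left.1 hd) h hj
    have hd' : Disjoint (insert j T) (U.erase j) := by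
      rw [Finset.disjoint_insert_left]
      exact ⟨Finset.notMem_erase j U, hd.mono_right (Finset.erase_subset j U)⟩
    have h := ih (insert j T) (U.erase j) hd'
    have e : ((((insert j T).card : ℝ)) + (k : ℝ)) * (2 * μ + 2 * Lam) * τ
        = ((T.card : ℝ) + ((k + 1 : ℕ) : ℝ)) * (2 * μ + 2 * Lam) * τ := by
      rw [Finset.card_insert_of_notMem hjT]
      push_cast
      ring
    rw [e] at h
    exact h

end Pool.Agent.Lib.MP_4952d6_mp.LK
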