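import Pool.Agent.Lib.MP_4952d6_mp.Pr.R10
import Pool.Agent.Lib.MP_4952d6_mp.Pk.G54

/-!
# Pr.R14 (leaf G6): moments of the sums of `wK`

For fixed `x` let `S y = ∑ i, hk s (y - x i)` (`BM`, `≥ 0`) and `a_j = (cn K)^[j] S`, so `∑ i, wK K s (y - x i) = ∑' j, 2⁻ʲ a_j y` (linearity of `cn K` and translation: `cn K f (y - u) = cn K (f (· - u)) y`;
finite sums commute with `tsum`). Jensen for the probability weights `2^(-j-1)`: `(∑' 2⁻ʲ a_j)^p = 2^p (∑' 2^(-j-1) a_j)^p ≤ 2^p ∑' 2^(-j-1) a_j^p` (either `tsum` version of Jensen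
(`Real.inner_le_nnorm_mul_nnorm`/`inner_le_Lp`...), or first for finite sums: for `n` terms with weights summing to at most `1`: `(∑_(j<n) c_j a_j)^p ≤ ∑ c_j a_j^p`, `inner_le..`,
`Real.pow_arith_mean_le_arith_mean_pow` after adding the missing weight at `0`; then let `n → ∞` by monotone or dominated convergence).
Jensen for `K`: `∫ y, (cn K f y)^p ≤ ∫ y, f y^p` for `f ≥ 0` `BM` (pointwise `(cn K f y)^p ≤ cn K (f^p) y`, then Fubini and translation invariance, `kq_int`-type integral one).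
So `∫ y (∑ i, wK K s (y - x i))^p ≤ 2^p ∫ y (∑ i, hk s (y - x i))^p` (`wK_sum_pow`). Then integrate against `‖ψ x‖²` and exchange (`H4_int`, `H4_S_bm`, see `hk_moments` in Pk/G54; joint
measurability `wK_S_bm`).
-/

set_option autoImplicit false
set_option linter.unusedSectionVars false
set_option linter.unusedVariables false
open MeasureTheory Function Filter Topology Set ComplexConjugate
open scoped ENNReal

namespace Pool.Agent.Lib.MP_4952d6_mp.LK

open LA

variable {ι : Type*} [Fintype ι] [DecidableEq ι]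

theorem wK_S_bm {K : T3 → ℝ} (hK : Ker K) {s : ℝ} (hs : 0 < s) (U : Finset ι) :
    BM (fun q : T3 × (ι → T3) => ∑ i ∈ U, wK K s (q.1 - q.2 i)) :=
  BM.finset_sum _ fun i _ => (wK_bm hK hs).comp
    (measurable_fst.sub ((measurable_pi_apply i).comp measurable_snd))

private theorem R14_bmc {f : T3 → ℝ} (hf : BM f) (u : T3) : BM (fun y => f (u - y)) :=
  hf.comp (measurable_const.sub measurable_id)

private theorem R14_bmr {f : T3 → ℝ} (hf : BM f) (u : T3) : BM (fun y => f (y - u)) :=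
  hf.comp (measurable_id.sub measurable_const)

private theorem R14_int {K : T3 → ℝ} (hK : Ker K) (u : T3) : ∫ z, K (u - z) ∂lam3 = 1 := by
  rw [integral_sub_left_eq_self K lam3 u]
  exact hK.int

private theorem R14_tan (p : ℕ) {t c : ℝ} (ht : 0 ≤ t) (hc : 0 ≤ c) :
    c ^ (p + 1) + ((p : ℝ) + 1) * c ^ p * (t - c) ≤ t ^ (p + 1) := by
  induction p with
  | zero => simp
  | succ p ih =>
    have h1 : t * (c ^ (p + 1) + ((p : ℝ) + 1) * c ^ p * (t - c)) ≤ t * t ^ (p + 1) :=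
      mul_le_mul_of_nonneg_left ih ht
    have h2 : t ^ (p + 1 + 1) = t * t ^ (p + 1) := pow_succ' t (p + 1)
    have h3 : t * (c ^ (p + 1) + ((p : ℝ) + 1) * c ^ p * (t - c)) -
        (c ^ (p + 1 + 1) + (((p + 1 : ℕ) : ℝ) + 1) * c ^ (p + 1) * (t - c)) =
        ((p : ℝ) + 1) * c ^ p * (t - c) ^ 2 := by
      push_cast
      ring
    have h4 : 0 ≤ ((p : ℝ) + 1) * c ^ p * (t - c) ^ 2 := by positivity
    rw [h2]
    linarith

/-- Jensen. -/
private theorem R14_jensen {K : T3 → ℝ} (hK : Ker K) {f : T3 → ℝ} (hf : BM f) (hf0 : ∀ z, 0 ≤ f z)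
    (p : ℕ) (y : T3) : (LB.cn K f y) ^ p ≤ LB.cn K (fun z => f z ^ p) y := by
  have hKy : BM (fun z => K (y - z)) := R14_bmc hK.bm y
  cases p with
  | zero =>
    have h1 : LB.cn K (fun z => f z ^ 0) y = 1 := by
      unfold LB.cn
      simp only [pow_zero, mul_one]
      exact R14_int hK y
    rw [h1, pow_zero]
  | succ p =>
    set c := LB.cn K f y with hc
    have hc0 : 0 ≤ c := LB.cn_nonneg hK.nonneg hf0 y
    have i1 : Integrable (fun z => K (y - z)) lam3 := hKy.integrable _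
    have i2 : Integrable (fun z => K (y - z) * f z) lam3 := (hKy.mul hf).integrable _
    have i3 : Integrable (fun z => K (y - z) * f z ^ (p + 1)) lam3 :=
      (hKy.mul (hf.pow (p + 1))).integrable _
    have h1 : ∫ z, ((c ^ (p + 1) - ((p : ℝ) + 1) * c ^ p * c) * K (y - z) +
        ((p : ℝ) + 1) * c ^ p * (K (y - z) * f z)) ∂lam3 = c ^ (p + 1) := by
      rw [integral_add (i1.const_mul _) (i2.const_mul _), integral_const_mul, integral_const_mul,
        R14_int hK y]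
      have h2 : ∫ z, K (y - z) * f z ∂lam3 = c := hc.symm
      rw [h2]
      ring
    have h3 : c ^ (p + 1) ≤ ∫ z, K (y - z) * f z ^ (p + 1) ∂lam3 := by
      rw [← h1]
      refine integral_mono ((i1.const_mul _).add (i2.const_mul _)) i3 fun z => ?_
      have h4 := mul_le_mul_of_nonneg_left (R14_tan p (hf0 z) hc0) (hK.nonneg (y - z))
      calc (c ^ (p + 1) - ((p : ℝ) + 1) * c ^ p * c) * K (y - z) +
            ((p : ℝ) + 1) * c ^ p * (K (y - z) * f z)
          = K (y - z) * (c ^ (p + 1) + ((p : ℝ) + 1) * c ^ p * (f z - c)) := by ring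
        _ ≤ _ := h4
    exact h3

theorem cnK_pow {K : T3 → ℝ} (hK : Ker K) {f : T3 → ℝ} (hf : BM f) (hf0 : ∀ z, 0 ≤ f z) (p : ℕ) :
    ∫ y, (LB.cn K f y) ^ p ∂lam3 ≤ ∫ y, f y ^ p ∂lam3 := by
  have h1 : ∫ y, LB.cn K (fun z => f z ^ p) y ∂lam3 = ∫ y, f y ^ p ∂lam3 := by
    rw [LB.cn_integral hK.bm (hf.pow p), hK.int, one_mul]
  rw [← h1]
  exact integral_mono (((cnK_bm hK hf).pow p).integrable _)
    ((cnK_bm hK (hf.pow p)).integrable _) fun y => R14_jensen hK hf hf0 p y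

/-- The equation of the resolvent. -/
private theorem R14_rec {K : T3 → ℝ} (hK : Ker K) {s : ℝ} (hs : 0 < s) (z : T3) :
    wK K s z = hk s z + 1 / 2 * LB.cn K (wK K s) z := by
  have hKz : BM (fun u => K (z - u)) := R14_bmc hK.bm z
  have h1 := wK_hasSum hK hs z
  have h2 := (hasSum_nat_add_iff' 1).2 h1
  rw [Finset.sum_range_one, pow_zero, one_mul, iterate_zero_apply] at h2
  -- the integral of the series
  have h3 : HasSum (fun j : ℕ => ∫ u, K (z - u) * ((1 / 2 : ℝ) ^ j * ((LB.cn K)^[j] (hk s)) u) ∂lam3)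
      (∫ u, ∑' j : ℕ, K (z - u) * ((1 / 2 : ℝ) ^ j * ((LB.cn K)^[j] (hk s)) u) ∂lam3) := by
    refine hasSum_integral_of_summable_integral_norm (fun j => ?_) ?_
    · exact (hKz.mul ((cnK_iter hK hs j).1.const_mul _)).integrable _
    · have hb : ∀ j : ℕ, ∫ u, ‖K (z - u) * ((1 / 2 : ℝ) ^ j * ((LB.cn K)^[j] (hk s)) u)‖ ∂lam3 ≤
          (1 / 2 : ℝ) ^ j * G1_b s := by
        intro j
        obtain ⟨b1, b2, b3⟩ := cnK_iter hK hs j
        have h5 : ∫ u, (1 / 2 : ℝ) ^ j * G1_b s * K (z - u) ∂lam3 = (1 / 2 : ℝ) ^ j * G1_b s := by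
          rw [integral_const_mul, R14_int hK z, mul_one]
        rw [← h5]
        refine integral_mono (((hKz.mul (b1.const_mul _)).integrable _).norm)
          ((hKz.integrable _).const_mul _) fun u => ?_
        show ‖K (z - u) * ((1 / 2 : ℝ) ^ j * ((LB.cn K)^[j] (hk s)) u)‖ ≤ (1 / 2 : ℝ) ^ j * G1_b s * K (z - u)
        rw [Real.norm_of_nonneg (mul_nonneg (hK.nonneg _) (mul_nonneg (by positivity) (b2 u)))]
        have h6 : (1 / 2 : ℝ) ^ j * ((LB.cn K)^[j] (hk s)) u ≤ (1 / 2 : ℝ) ^ j * G1_b s :=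
          mul_le_mul_of_nonneg_left (b3 u) (by positivity)
        calc K (z - u) * ((1 / 2 : ℝ) ^ j * ((LB.cn K)^[j] (hk s)) u)
            ≤ K (z - u) * ((1 / 2 : ℝ) ^ j * G1_b s) := mul_le_mul_of_nonneg_left h6 (hK.nonneg _)
          _ = _ := by ring
      refine Summable.of_nonneg_of_le (fun j => integral_nonneg fun u => norm_nonneg _) hb ?_
      exact (summable_geometric_of_lt_one (by norm_num) (by norm_num)).mul_right _
  have h4 : ∫ u, ∑' j : ℕ, K (z - u) * ((1 / 2 : ℝ) ^ j * ((LB.cn K)^[j] (hk s)) u) ∂lam3 =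
      LB.cn K (wK K s) z := by
    unfold LB.cn
    refine integral_congr_ae (Filter.Eventually.of_forall fun u => ?_)
    exact ((wK_hasSum hK hs u).mul_left (K (z - u))).tsum_eq
  rw [h4] at h3
  have h5 : HasSum (fun j : ℕ => (1 / 2 : ℝ) ^ (j + 1) * ((LB.cn K)^[j + 1] (hk s)) z)
      (1 / 2 * LB.cn K (wK K s) z) := by
    have h6 := h3.mul_left (1 / 2 : ℝ)
    have h7 : (fun j : ℕ => (1 / 2 : ℝ) * ∫ u, K (z - u) * ((1 / 2 : ℝ) ^ j *
        ((LB.cn K)^[j] (hk s)) u) ∂lam3) =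
        fun j : ℕ => (1 / 2 : ℝ) ^ (j + 1) * ((LB.cn K)^[j + 1] (hk s)) z := by
      funext j
      rw [iterate_succ_apply']
      have h8 : ∫ u, K (z - u) * ((1 / 2 : ℝ) ^ j * ((LB.cn K)^[j] (hk s)) u) ∂lam3 =
          (1 / 2 : ℝ) ^ j * LB.cn K ((LB.cn K)^[j] (hk s)) z := by
        show _ = (1 / 2 : ℝ) ^ j * ∫ u, K (z - u) * ((LB.cn K)^[j] (hk s)) u ∂lam3
        rw [← integral_const_mul]
        refine integral_congr_ae (Filter.Eventually.of_forall fun u => ?_)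
        show K (z - u) * ((1 / 2 : ℝ) ^ j * ((LB.cn K)^[j] (hk s)) u) =
          (1 / 2 : ℝ) ^ j * (K (z - u) * ((LB.cn K)^[j] (hk s)) u)
        ring
      rw [h8, pow_succ]
      ring
    rwa [h7] at h6
  have h9 := h2.unique h5
  linarith

/-- Convolution and sums of translates. -/
private theorem R14_sum {K : T3 → ℝ} (hK : Ker K) {f : T3 → ℝ} (hf : BM f) (x : ι → T3) (y : T3) :
    LB.cn K (fun z => ∑ i, f (z - x i)) y = ∑ i, LB.cn K f (y - x i) := by
  have hKy : BM (fun z => K (y - z)) := R14_bmc hK.bm y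
  show ∫ z, K (y - z) * ∑ i, f (z - x i) ∂lam3 = ∑ i, ∫ z, K (y - x i - z) * f z ∂lam3
  have h1 : ∀ z, K (y - z) * ∑ i, f (z - x i) = ∑ i, K (y - z) * f (z - x i) := fun z =>
    Finset.mul_sum _ _ _
  simp_rw [h1]
  rw [integral_finsetSum _ fun i _ => (hKy.mul (R14_bmr hf (x i))).integrable _]
  refine Finset.sum_congr rfl fun i _ => ?_
  rw [← integral_sub_right_eq_self (fun z => K (y - x i - z) * f z) (x i)]
  refine integral_congr_ae (Filter.Eventually.of_forall fun z => ?_)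
  show K (y - z) * f (z - x i) = K (y - x i - (z - x i)) * f (z - x i)
  rw [show y - x i - (z - x i) = y - z by abel]

theorem wK_sum_pow {K : T3 → ℝ} (hK : Ker K) {s : ℝ} (hs : 0 < s) (p : ℕ) (x : ι → T3) :
    ∫ y, (∑ i, wK K s (y - x i)) ^ p ∂lam3 ≤ 2 ^ p * ∫ y, (∑ i, hk s (y - x i)) ^ p ∂lam3 := by
  have hhk : BM (hk s) := LB.hk_bm hs
  have hw := wK_bm hK hs
  set W : T3 → ℝ := fun y => ∑ i, wK K s (y - x i) with hW
  set S : T3 → ℝ := fun y => ∑ i, hk s (y - x i) with hS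
  have hWb : BM W := BM.finset_sum _ fun i _ => R14_bmr hw (x i)
  have hSb : BM S := BM.finset_sum _ fun i _ => R14_bmr hhk (x i)
  have hW0 : ∀ y, 0 ≤ W y := fun y => Finset.sum_nonneg fun i _ => wK_nonneg hK hs _
  have hS0 : ∀ y, 0 ≤ S y := fun y => Finset.sum_nonneg fun i _ => hk_nonneg _ _
  have hrec : ∀ y, W y = S y + 1 / 2 * LB.cn K W y := by
    intro y
    rw [hW, hS, R14_sum hK hw x y, Finset.mul_sum, ← Finset.sum_add_distrib]
    exact Finset.sum_congr rfl fun i _ => R14_rec hK hs _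
  -- the half
  have hVb : BM (fun y => 1 / 2 * W y) := hWb.const_mul _
  have hV0 : ∀ y, 0 ≤ 1 / 2 * W y := fun y => by
    have := hW0 y
    positivity
  have hcV : ∀ y, LB.cn K (fun z => 1 / 2 * W z) y = 1 / 2 * LB.cn K W y := by
    intro y
    show ∫ z, K (y - z) * (1 / 2 * W z) ∂lam3 = 1 / 2 * ∫ z, K (y - z) * W z ∂lam3
    rw [← integral_const_mul]
    refine integral_congr_ae (Filter.Eventually.of_forall fun z => ?_)
    show K (y - z) * (1 / 2 * W z) = 1 / 2 * (K (y - z) * W z)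
    ring
  have hC0 : ∀ y, 0 ≤ LB.cn K (fun z => 1 / 2 * W z) y := LB.cn_nonneg hK.nonneg hV0
  have hrec2 : ∀ y, 1 / 2 * W y = 1 / 2 * S y + 1 / 2 * LB.cn K (fun z => 1 / 2 * W z) y := by
    intro y
    rw [hcV y]
    conv_lhs => rw [hrec y]
    ring
  -- convexity
  have hpt : ∀ y, (1 / 2 * W y) ^ p ≤ 1 / 2 * S y ^ p + 1 / 2 * (LB.cn K (fun z => 1 / 2 * W z) y) ^ p := by
    intro y
    cases p with
    | zero => norm_num
    | succ p =>
      have h1 := R14_tan p (hS0 y) (hV0 y)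
      have h2 := R14_tan p (hC0 y) (hV0 y)
      have h3 := hrec2 y
      have h4 : S y - 1 / 2 * W y + (LB.cn K (fun z => 1 / 2 * W z) y - 1 / 2 * W y) = 0 := by linarith
      have h5 : ((p : ℝ) + 1) * (1 / 2 * W y) ^ p * (S y - 1 / 2 * W y) +
          ((p : ℝ) + 1) * (1 / 2 * W y) ^ p * (LB.cn K (fun z => 1 / 2 * W z) y - 1 / 2 * W y) = 0 := by
        rw [← mul_add, h4, mul_zero]
      linarith
  have hi1 : Integrable (fun y => (1 / 2 * W y) ^ p) lam3 := (hVb.pow p).integrable _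
  have hi2 : Integrable (fun y => S y ^ p) lam3 := (hSb.pow p).integrable _
  have hi3 : Integrable (fun y => (LB.cn K (fun z => 1 / 2 * W z) y) ^ p) lam3 :=
    ((cnK_bm hK hVb).pow p).integrable _
  have h1 : ∫ y, (1 / 2 * W y) ^ p ∂lam3 ≤ 1 / 2 * ∫ y, S y ^ p ∂lam3 +
      1 / 2 * ∫ y, (LB.cn K (fun z => 1 / 2 * W z) y) ^ p ∂lam3 := by
    rw [← integral_const_mul, ← integral_const_mul, ← integral_add (hi2.const_mul _) (hi3.const_mul _)]
    exact integral_mono hi1 ((hi2.const_mul _).add (hi3.const_mul _)) hpt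
  have h2 := cnK_pow hK hVb hV0 p
  have h3 : ∫ y, (1 / 2 * W y) ^ p ∂lam3 ≤ ∫ y, S y ^ p ∂lam3 := by linarith
  have h4 : ∫ y, W y ^ p ∂lam3 = 2 ^ p * ∫ y, (1 / 2 * W y) ^ p ∂lam3 := by
    rw [← integral_const_mul]
    refine integral_congr_ae (Filter.Eventually.of_forall fun y => ?_)
    show W y ^ p = 2 ^ p * (1 / 2 * W y) ^ p
    rw [← mul_pow]
    ring_nf
  rw [h4]
  exact mul_le_mul_of_nonneg_left h3 (by positivity)

theorem wK_moments {K : T3 → ℝ} (hK : Ker K) {s : ℝ} (hs : 0 < s) (p : ℕ) {ψ : (ι → T3) → ℂ}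
    (hψ : MemLp ψ 2 (piN ι)) :
    ∫ y, ∫ x, (∑ i, wK K s (y - x i)) ^ p * ‖ψ x‖ ^ 2 ∂(piN ι) ∂lam3
      ≤ 2 ^ p * ∫ y, ∫ x, (∑ i, hk s (y - x i)) ^ p * ‖ψ x‖ ^ 2 ∂(piN ι) ∂lam3 := by
  set ρ : (ι → T3) → ℝ := fun x => ‖ψ x‖ ^ 2 with hρ
  have hρi : Integrable ρ (piN ι) := hψ.integrable_norm_pow (by norm_num)
  have hρ0 : ∀ x, 0 ≤ ρ x := fun x => by positivity
  have hSP := H4_int ((H4_S_bm (ι := ι) hs).pow p) hρi
  have hWP := H4_int ((wK_S_bm hK hs (Finset.univ : Finset ι)).pow p) hρi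
  have e1 : ∫ y, ∫ x, (∑ i, wK K s (y - x i)) ^ p * ρ x ∂(piN ι) ∂lam3
      = ∫ x, (∫ y, (∑ i, wK K s (y - x i)) ^ p ∂lam3) * ρ x ∂(piN ι) := by
    rw [integral_integral_swap hWP]
    refine integral_congr_ae (Filter.Eventually.of_forall fun x => ?_)
    exact integral_mul_const _ _
  have e2 : ∫ y, ∫ x, (∑ i, hk s (y - x i)) ^ p * ρ x ∂(piN ι) ∂lam3
      = ∫ x, (∫ y, (∑ i, hk s (y - x i)) ^ p ∂lam3) * ρ x ∂(piN ι) := by
    rw [integral_integral_swap hSP]
    refine integral_congr_ae (Filter.Eventually.of_forall fun x => ?_)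
    exact integral_mul_const _ _
  have i1 : Integrable (fun x => (∫ y, (∑ i, wK K s (y - x i)) ^ p ∂lam3) * ρ x) (piN ι) := by
    have h := hWP.integral_prod_right
    refine h.congr (Filter.Eventually.of_forall fun x => ?_)
    exact integral_mul_const (ρ x) (fun y => (∑ i, wK K s (y - x i)) ^ p)
  have i2 : Integrable (fun x => (∫ y, (∑ i, hk s (y - x i)) ^ p ∂lam3) * ρ x) (piN ι) := by
    have h := hSP.integral_prod_right
    refine h.congr (Filter.Eventually.of_forall fun x => ?_)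
    exact integral_mul_const (ρ x) (fun y => (∑ i, hk s (y - x i)) ^ p)
  show ∫ y, ∫ x, (∑ i, wK K s (y - x i)) ^ p * ρ x ∂(piN ι) ∂lam3
      ≤ 2 ^ p * ∫ y, ∫ x, (∑ i, hk s (y - x i)) ^ p * ρ x ∂(piN ι) ∂lam3
  rw [e1, e2, ← integral_const_mul]
  refine integral_mono i1 (i2.const_mul _) fun x => ?_
  have h := mul_le_mul_of_nonneg_right (wK_sum_pow hK hs p x) (hρ0 x)
  simpa only [mul_assoc] using h

end Pool.Agent.Lib.MP_4952d6_mp.LK
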