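import Pool.Agent.Lib.MP_4952d6_mp.Pr.R08b
import Pool.Agent.Lib.MP_4952d6_mp.Pr.R13
import Pool.Agent.Lib.MP_4952d6_mp.Pr.R14
import Pool.Agent.Lib.MP_4952d6_mp.Pq.P09

/-!
# Pr.R15 (leaf H): moments at small scales

Copy of Pq/P09 (`P09_key`, `smearedG`) with `wK K (r j)` instead of `hk (r j) + 1`, `ZW K` instead of `kT`: `ZT ≤ ZW` (`hk_le_wK`), `elS` is monotone, `heat_elSK` with `τ = l²`
(`(2 Kμ/l² + 2 Lam) l² ≤ 2 Kμ + 2`), `wK K (r + l²) ≤ √2³ wK K (2 l²)` for `r ≤ l²` (`wK_time`: `(2 l²)/(r + l²) ≤ 2`), `elS_le_pow`, `wK_moments`, `hk_momentsK`.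
-/

set_option autoImplicit false
set_option linter.unusedSectionVars false
set_option linter.unusedVariables false
open MeasureTheory Function Filter Topology Set ComplexConjugate
open scoped ENNReal

namespace Pool.Agent.Lib.MP_4952d6_mp.LK

open LA

variable {ι : Type*} [Fintype ι] [DecidableEq ι]

open LG

/-! ### bounded measurable functions -/

lemma R15_bm {K : T3 → ℝ} (hK : Ker K) {N : ℕ} {s : ℝ} (hs : 0 < s) (j : Fin N) :
    BM (fun z : T3 × (Fin N → T3) => wK K s (z.1 - z.2 j)) := by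
  have h := wK_S_bm hK hs ({j} : Finset (Fin N))
  simpa only [Finset.sum_singleton] using h

lemma R15_bm_elS {K : T3 → ℝ} (hK : Ker K) {N : ℕ} {r : Fin N → ℝ} (hr : ∀ i, 0 < r i) (k : ℕ) :
    ∀ U : Finset (Fin N),
      BM (fun z : T3 × (Fin N → T3) => elS (fun j => wK K (r j) (z.1 - z.2 j)) k U) := by
  induction k with
  | zero => intro U; exact BM.const 1
  | succ k ih =>
    intro U
    exact BM.finset_sum U fun j _ => (R15_bm hK (hr j) j).mul (ih (U.erase j))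

lemma R15_bm_ZW {K : T3 → ℝ} (hK : Ker K) {N : ℕ} {r : Fin N → ℝ} (hr : ∀ i, 0 < r i)
    (T : Finset (Fin N)) : BM (fun z : T3 × (Fin N → T3) => ZW K T r z.1 z.2) :=
  BM.finset_prod T fun j _ => R15_bm hK (hr j) j

lemma R15_bm_sum {K : T3 → ℝ} (hK : Ker K) {N : ℕ} {s : ℝ} (hs : 0 < s) (U : Finset (Fin N)) :
    BM (fun z : T3 × (Fin N → T3) => ∑ j ∈ U, wK K s (z.1 - z.2 j)) := wK_S_bm hK hs U

lemma R15_ZT_le_ZW {K : T3 → ℝ} (hK : Ker K) {N : ℕ} (T : Finset (Fin N)) {r : Fin N → ℝ}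
    (hr : ∀ i, 0 < r i) (y : T3) (x : Fin N → T3) : ZT T r y x ≤ ZW K T r y x :=
  Finset.prod_le_prod (fun i _ => hk_nonneg _ _) fun i _ => hk_le_wK hK (hr i) _

/-- comparison with the kernels of time `2 l²` -/
lemma R15_two {K : T3 → ℝ} (hK : Ker K) {l r : ℝ} (hl : 0 < l) (hr : 0 < r) (hrl : r ≤ l ^ 2)
    (z : T3) : wK K (r + l ^ 2) z ≤ Real.sqrt 2 ^ 3 * wK K (2 * l ^ 2) z := by
  have hl2 : 0 < l ^ 2 := by positivity
  have h1 := wK_time hK (r := r + l ^ 2) (ρ := 2 * l ^ 2) (by positivity) (by linarith) z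
  refine h1.trans (mul_le_mul_of_nonneg_right ?_ (wK_nonneg hK (by positivity) z))
  refine pow_le_pow_left₀ (Real.sqrt_nonneg _) (Real.sqrt_le_sqrt ?_) 3
  rw [div_le_iff₀ (by positivity)]
  linarith

/-- the key estimate for fixed `y` -/
lemma R15_key {c : ℕ → ℕ → ℝ} (hc0 : ∀ q k, 0 ≤ c q k)
    (hc : ∀ {ι : Type} [Fintype ι] [DecidableEq ι] (a : ι → ℝ) (M : ℝ), (∀ i, 0 ≤ a i) →
      (∀ i, a i ≤ M) → ∀ (q : ℕ) (U : Finset ι),
        (∑ i ∈ U, a i) ^ q ≤ ∑ k ∈ Finset.range (q + 1), c q k * M ^ (q - k) * elS a k U)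
    (q : ℕ) {N : ℕ} {Kμ l Lam R₀ e : ℝ} {K : T3 → ℝ} {ε : ℝ} {𝒱 : T3 → ℝ≥0∞} {ψ : (Fin N → T3) → ℂ}
    {g : Fin N → Fin 3 → (Fin N → T3) → ℂ} (hl : 0 < l) (hl1 : l ≤ 1)
    (hM : MiniK l Lam K ε R₀ 𝒱 (Kμ / l ^ 2) e ψ g) {s : ℝ} (hs : 0 < s) (hsl : s ≤ l ^ 2)
    (hsN : 1 ≤ N * (Real.sqrt s) ^ 3) {r : Fin N → ℝ} (hr : ∀ i, 0 < r i) (hrl : ∀ i, r i ≤ l ^ 2)
    (T U : Finset (Fin N)) (hd : Disjoint T U) (hU : ∀ j ∈ U, r j = s) (y : T3) :
    ∫ x, ZT T r y x * (∑ j ∈ U, hk s (y - x j)) ^ q * ‖ψ x‖ ^ 2 ∂(piN (Fin N))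
      ≤ ∑ k ∈ Finset.range (q + 1), (c q k * (8 * (N : ℝ)) ^ (q - k)
          * (Real.exp (((T.card : ℝ) + k) * (2 * Kμ + 2)) * (Real.sqrt 2 ^ 3) ^ (T.card + k)))
        * ∫ x, ZW K T (fun _ => 2 * l ^ 2) y x * (∑ j, wK K (2 * l ^ 2) (y - x j)) ^ k
          * ‖ψ x‖ ^ 2 ∂(piN (Fin N)) := by
  have hl2 : 0 < l ^ 2 := by positivity
  have hψ : MemLp ψ 2 (piN (Fin N)) := hM.fe.hg.mem
  have hs1 : s ≤ 1 := hsl.trans (pow_le_one₀ hl.le hl1)
  have h2l : ∀ _ : Fin N, 0 < 2 * l ^ 2 := fun _ => by positivity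
  have hrt : ∀ i, 0 < r i + l ^ 2 := fun i => by have := hr i; positivity
  have hK : Ker K := hM.ker
  have hk1 : ∀ {a : ℝ} (_ : 0 < a) (z : T3), 0 ≤ wK K a z := fun ha z => wK_nonneg hK ha z
  -- first step: powers to sums over distinct tuples
  have i1 : ∀ k, Integrable (fun x => ZW K T r y x * elS (fun j => wK K (r j) (y - x j)) k U
      * ‖ψ x‖ ^ 2) (piN (Fin N)) := fun k =>
    H5_sec hψ ((R15_bm_ZW hK hr T).mul (R15_bm_elS hK hr k U)) y
  have s1 : ∫ x, ZT T r y x * (∑ j ∈ U, hk s (y - x j)) ^ q * ‖ψ x‖ ^ 2 ∂(piN (Fin N))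
      ≤ ∑ k ∈ Finset.range (q + 1), (c q k * (8 * (N : ℝ)) ^ (q - k))
        * ∫ x, ZW K T r y x * elS (fun j => wK K (r j) (y - x j)) k U * ‖ψ x‖ ^ 2
          ∂(piN (Fin N)) := by
    have e2 : ∑ k ∈ Finset.range (q + 1), (c q k * (8 * (N : ℝ)) ^ (q - k))
        * ∫ x, ZW K T r y x * elS (fun j => wK K (r j) (y - x j)) k U * ‖ψ x‖ ^ 2 ∂(piN (Fin N))
        = ∫ x, ∑ k ∈ Finset.range (q + 1), (c q k * (8 * (N : ℝ)) ^ (q - k))
          * (ZW K T r y x * elS (fun j => wK K (r j) (y - x j)) k U * ‖ψ x‖ ^ 2)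
            ∂(piN (Fin N)) := by
      rw [integral_finsetSum _ (fun k _ => (i1 k).const_mul _)]
      refine Finset.sum_congr rfl fun k _ => ?_
      rw [integral_const_mul]
    rw [e2]
    refine integral_mono
      (H5_sec hψ ((H5_bm_ZT hr T).mul ((H5_bm_sum hs U).pow q)) y)
      (integrable_finsetSum _ fun k _ => (i1 k).const_mul _) fun x => ?_
    have h1 := hc (fun j => hk s (y - x j)) (8 * (N : ℝ)) (fun j => hk_nonneg _ _)
      (fun j => H5_bd hs hs1 hsN _) q U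
    have h2 := mul_le_mul_of_nonneg_right (mul_le_mul_of_nonneg_left h1
      (H5_ZT_nonneg T r y x)) (sq_nonneg ‖ψ x‖)
    refine h2.trans ?_
    rw [Finset.mul_sum, Finset.sum_mul]
    refine Finset.sum_le_sum fun k _ => ?_
    have h3 : elS (fun j => hk s (y - x j)) k U = elS (fun j => hk (r j) (y - x j)) k U :=
      H5_congr k U fun j hj => by simp only [hU j hj]
    have h4 : elS (fun j => hk (r j) (y - x j)) k U ≤ elS (fun j => wK K (r j) (y - x j)) k U :=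
      elS_mono (fun j => hk_nonneg _ _) (fun j => hk_le_wK hK (hr j) _) k U
    have h5 : 0 ≤ elS (fun j => hk (r j) (y - x j)) k U := elS_nonneg (fun j => hk_nonneg _ _) k U
    have h6 : ZT T r y x * elS (fun j => hk (r j) (y - x j)) k U
        ≤ ZW K T r y x * elS (fun j => wK K (r j) (y - x j)) k U :=
      mul_le_mul (R15_ZT_le_ZW hK T hr y x) h4 h5 (ZW_nonneg hK T hr y x)
    have hcoef : 0 ≤ c q k * (8 * (N : ℝ)) ^ (q - k) := by
      have := hc0 q k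
      positivity
    rw [h3]
    have h7 := mul_le_mul_of_nonneg_left (mul_le_mul_of_nonneg_right h6 (sq_nonneg ‖ψ x‖)) hcoef
    refine le_trans (le_of_eq ?_) h7
    ring
  refine s1.trans (Finset.sum_le_sum fun k _ => ?_)
  have hcoef : 0 ≤ c q k * (8 * (N : ℝ)) ^ (q - k) := by
    have := hc0 q k
    positivity
  rw [mul_assoc (c q k * (8 * (N : ℝ)) ^ (q - k))]
  refine mul_le_mul_of_nonneg_left ?_ hcoef
  have h1 := heat_elSK hM hr y hl2.le k T U hd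
  have h2 : ((T.card : ℝ) + k) * (2 * (Kμ / l ^ 2) + 2 * Lam) * l ^ 2
      ≤ ((T.card : ℝ) + k) * (2 * Kμ + 2) := by
    have e3 : ((T.card : ℝ) + k) * (2 * (Kμ / l ^ 2) + 2 * Lam) * l ^ 2
        = ((T.card : ℝ) + k) * (2 * Kμ + 2 * (Lam * l ^ 2)) := by
      field_simp
    rw [e3]
    refine mul_le_mul_of_nonneg_left ?_ (by positivity)
    linarith [hM.la1]
  have hI0 : 0 ≤ ∫ x, ZW K T (fun i => r i + l ^ 2) y x
      * elS (fun j => wK K (r j + l ^ 2) (y - x j)) k U * ‖ψ x‖ ^ 2 ∂(piN (Fin N)) :=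
    integral_nonneg fun x => mul_nonneg (mul_nonneg (ZW_nonneg hK T hrt y x)
      (elS_nonneg (fun j => hk1 (hrt j) _) k U)) (sq_nonneg _)
  refine (h1.trans (mul_le_mul_of_nonneg_right (Real.exp_le_exp.2 h2) hI0)).trans ?_
  rw [mul_assoc (Real.exp _)]
  refine mul_le_mul_of_nonneg_left ?_ (Real.exp_pos _).le
  rw [← integral_const_mul]
  refine integral_mono (H5_sec hψ ((R15_bm_ZW hK hrt T).mul (R15_bm_elS hK hrt k U)) y)
    ((H5_sec hψ ((R15_bm_ZW hK h2l T).mul ((R15_bm_sum hK (by positivity) Finset.univ).pow k))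
      y).const_mul _) fun x => ?_
  have hκ : 0 ≤ Real.sqrt 2 ^ 3 := by positivity
  have h3 : ZW K T (fun i => r i + l ^ 2) y x
      ≤ (Real.sqrt 2 ^ 3) ^ T.card * ZW K T (fun _ => 2 * l ^ 2) y x := by
    unfold ZW
    rw [← Finset.prod_const, ← Finset.prod_mul_distrib]
    exact Finset.prod_le_prod (fun i _ => hk1 (hrt i) _)
      (fun i _ => R15_two hK hl (hr i) (hrl i) _)
  have h4 : elS (fun j => wK K (r j + l ^ 2) (y - x j)) k U
      ≤ (Real.sqrt 2 ^ 3) ^ k * (∑ j, wK K (2 * l ^ 2) (y - x j)) ^ k := by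
    refine (elS_le_pow (fun j => hk1 (hrt j) _) k U).trans ?_
    rw [← mul_pow]
    refine pow_le_pow_left₀ (Finset.sum_nonneg fun j _ => hk1 (hrt j) _) ?_ k
    rw [Finset.mul_sum]
    refine (Finset.sum_le_sum fun j _ => R15_two hK hl (hr j) (hrl j) (y - x j)).trans ?_
    exact Finset.sum_le_sum_of_subset_of_nonneg (Finset.subset_univ U)
      (fun j _ _ => mul_nonneg hκ (hk1 (h2l j) _))
  have h5 := mul_le_mul h3 h4 (elS_nonneg (fun j => hk1 (hrt j) _) k U)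
    (mul_nonneg (by positivity) (ZW_nonneg hK T h2l y x))
  have h6 := mul_le_mul_of_nonneg_right h5 (sq_nonneg ‖ψ x‖)
  refine h6.trans (le_of_eq ?_)
  rw [pow_add]
  ring

theorem smearedK (θ cw Kμ : ℝ) (hθ : 1 ≤ θ) (hcw : 0 < cw) (hKμ : 0 ≤ Kμ) (q : ℕ) :
    ∃ C Y0 : ℝ, 0 < C ∧ 0 < Y0 ∧ ∀ Y : ℝ, 0 < Y → Y < Y0 → ∀ (l R a : ℝ) (w : ℝ → ℝ)
      (N : ℕ) (Lam : ℝ) (K : T3 → ℝ) (ε R₀ e : ℝ) (𝒱 : T3 → ℝ≥0∞) (ψ : (Fin N → T3) → ℂ)
      (g : Fin N → Fin 3 → (Fin N → T3) → ℂ), Par θ cw Kμ Y l R a w N R₀ 𝒱 →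
      MiniK l Lam K ε R₀ 𝒱 (Kμ / l ^ 2) e ψ g →
      ∀ s r : ℝ, 0 < s → s ≤ l ^ 2 → 1 ≤ N * (Real.sqrt s) ^ 3 → 0 < r → r ≤ l ^ 2 →
      (∑ m, ∫ y, ∫ x, hk r (y - x m) * (∑ j ∈ Finset.univ.erase m, hk s (y - x j)) ^ q
          * ‖ψ x‖ ^ 2 ∂(piN (Fin N)) ∂lam3 ≤ C * (N : ℝ) ^ (q + 1)) ∧
      (∀ m, ∫ y, ∫ x, (∑ j ∈ Finset.univ.erase m, hk s (y - x j)) ^ q
          * ‖ψ x‖ ^ 2 ∂(piN (Fin N)) ∂lam3 ≤ C * (N : ℝ) ^ q) := by
  obtain ⟨c, hc0, hc⟩ := pow_le_elS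
  have hmom := fun p => hk_momentsK θ cw Kμ hθ hcw hKμ p
  choose Cm0 Ym hCm0 hYm hmain using hmom
  obtain ⟨Cm, hCmd⟩ : ∃ Cm : ℕ → ℝ, Cm = fun p => 2 ^ p * Cm0 p := ⟨_, rfl⟩
  have hCm : ∀ p, 0 < Cm p := fun p => by
    have := hCm0 p
    rw [hCmd]
    positivity
  -- constants
  set D : ℕ → ℕ → ℝ := fun t k => c q k * 8 ^ (q - k)
    * (Real.exp (((t : ℝ) + k) * (2 * Kμ + 2)) * (Real.sqrt 2 ^ 3) ^ (t + k)) with hD
  have hD0 : ∀ t k, 0 ≤ D t k := fun t k => by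
    have := hc0 q k
    simp only [hD]
    positivity
  set C1 : ℝ := ∑ k ∈ Finset.range (q + 1), D 1 k * Cm (k + 1) with hC1
  set C2 : ℝ := ∑ k ∈ Finset.range (q + 1), D 0 k * Cm k with hC2
  have hC10 : 0 ≤ C1 := Finset.sum_nonneg fun k _ => mul_nonneg (hD0 1 k) (hCm (k + 1)).le
  have hC20 : 0 ≤ C2 := Finset.sum_nonneg fun k _ => mul_nonneg (hD0 0 k) (hCm k).le
  obtain ⟨Y0, hY0, hY0le⟩ : ∃ Y0 : ℝ, 0 < Y0 ∧ ∀ p ∈ Finset.range (q + 2), Y0 ≤ Ym p := by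
    have hne : (Finset.range (q + 2)).Nonempty := Finset.nonempty_range_iff.2 (by omega)
    refine ⟨(Finset.range (q + 2)).inf' hne Ym, ?_, fun p hp => Finset.inf'_le _ hp⟩
    rw [Finset.lt_inf'_iff]
    exact fun p _ => hYm p
  refine ⟨C1 + C2 + 1, Y0, by positivity, hY0, ?_⟩
  intro Y hY hYY l R a w N Lam K ε R₀ e 𝒱 ψ g hP hM s r hs hsl hsN hr hrl
  have hK : Ker K := hM.ker
  have hl : 0 < l := by
    rw [hP.l_eq]
    exact div_pos hP.a_pos hY
  have hl1 : l ≤ 1 := hP.l_le.trans (by norm_num)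
  have hl2 : 0 < l ^ 2 := by positivity
  have hψ : MemLp ψ 2 (piN (Fin N)) := hM.fe.hg.mem
  have hN0 : (0 : ℝ) ≤ N := Nat.cast_nonneg N
  have h2l : 0 < 2 * l ^ 2 := by positivity
  have hS : ∀ p ∈ Finset.range (q + 2),
      ∫ y, ∫ x, (∑ i, wK K (2 * l ^ 2) (y - x i)) ^ p * ‖ψ x‖ ^ 2 ∂(piN (Fin N)) ∂lam3
        ≤ Cm p * (N : ℝ) ^ p := fun p hp => by
    rw [hCmd]
    refine (wK_moments hK h2l p hψ).trans ?_
    rw [mul_assoc]
    exact mul_le_mul_of_nonneg_left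
      (hmain p Y hY (hYY.trans_le (hY0le p hp)) l R a w N Lam K ε R₀ e 𝒱 ψ g hP hM) (by positivity)
  have hSi : ∀ p, Integrable (fun y => ∫ x, (∑ i, wK K (2 * l ^ 2) (y - x i)) ^ p * ‖ψ x‖ ^ 2
      ∂(piN (Fin N))) lam3 := fun p =>
    H5_out hψ ((R15_bm_sum hK h2l Finset.univ).pow p)
  have hcoef : ∀ t k : ℕ, k ∈ Finset.range (q + 1) → c q k * (8 * (N : ℝ)) ^ (q - k)
      * (Real.exp (((t : ℝ) + k) * (2 * Kμ + 2)) * (Real.sqrt 2 ^ 3) ^ (t + k))
      = D t k * (N : ℝ) ^ (q - k) := by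
    intro t k _
    simp only [hD]
    rw [mul_pow]
    ring
  constructor
  · -- weighted case
    have hpt : ∀ y, ∑ m, ∫ x, hk r (y - x m) * (∑ j ∈ Finset.univ.erase m, hk s (y - x j)) ^ q
        * ‖ψ x‖ ^ 2 ∂(piN (Fin N)) ≤ ∑ k ∈ Finset.range (q + 1), (D 1 k * (N : ℝ) ^ (q - k))
          * ∫ x, (∑ i, wK K (2 * l ^ 2) (y - x i)) ^ (k + 1) * ‖ψ x‖ ^ 2 ∂(piN (Fin N)) := by
      intro y
      have hm : ∀ m : Fin N, ∫ x, hk r (y - x m)
          * (∑ j ∈ Finset.univ.erase m, hk s (y - x j)) ^ q * ‖ψ x‖ ^ 2 ∂(piN (Fin N))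
          ≤ ∑ k ∈ Finset.range (q + 1), (D 1 k * (N : ℝ) ^ (q - k))
          * ∫ x, wK K (2 * l ^ 2) (y - x m) * (∑ i, wK K (2 * l ^ 2) (y - x i)) ^ k
            * ‖ψ x‖ ^ 2 ∂(piN (Fin N)) := by
        intro m
        have h1 := R15_key hc0 hc q hl hl1 hM hs hsl hsN
          (r := fun i => if i = m then r else s)
          (fun i => by
            show 0 < (if i = m then r else s)
            split_ifs
            · exact hr
            · exact hs)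
          (fun i => by
            show (if i = m then r else s) ≤ l ^ 2
            split_ifs
            · exact hrl
            · exact hsl)
          {m} (Finset.univ.erase m)
          (by
            rw [Finset.disjoint_singleton_left]
            exact Finset.notMem_erase m _)
          (fun j hj => if_neg (Finset.ne_of_mem_erase hj)) y
        simp only [ZT, ZW, Finset.prod_singleton, if_true, Finset.card_singleton] at h1
        refine h1.trans (le_of_eq (Finset.sum_congr rfl fun k hk' => ?_))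
        rw [hcoef 1 k hk']
      refine (Finset.sum_le_sum fun m _ => hm m).trans (le_of_eq ?_)
      rw [Finset.sum_comm]
      refine Finset.sum_congr rfl fun k _ => ?_
      rw [← Finset.mul_sum]
      congr 1
      rw [← integral_finsetSum _ (fun m _ => H5_sec hψ
        (B := fun z => wK K (2 * l ^ 2) (z.1 - z.2 m)
          * (∑ i, wK K (2 * l ^ 2) (z.1 - z.2 i)) ^ k)
        ((R15_bm hK h2l m).mul ((R15_bm_sum hK h2l Finset.univ).pow k)) y)]
      refine integral_congr_ae (Eventually.of_forall fun x => ?_)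
      simp only
      rw [← Finset.sum_mul, ← Finset.sum_mul]
      ring
    have hFi : ∀ m : Fin N, Integrable (fun y => ∫ x, hk r (y - x m)
        * (∑ j ∈ Finset.univ.erase m, hk s (y - x j)) ^ q * ‖ψ x‖ ^ 2 ∂(piN (Fin N))) lam3 :=
      fun m => H5_out hψ ((H5_bm hr m).mul ((H5_bm_sum hs (Finset.univ.erase m)).pow q))
    rw [← integral_finsetSum _ (fun m _ => hFi m)]
    refine (integral_mono (integrable_finsetSum _ fun m _ => hFi m)
      (integrable_finsetSum _ fun k _ => (hSi (k + 1)).const_mul _) hpt).trans ?_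
    rw [integral_finsetSum _ (fun k _ => (hSi (k + 1)).const_mul _)]
    have h3 : ∀ k ∈ Finset.range (q + 1), ∫ y, (D 1 k * (N : ℝ) ^ (q - k))
        * ∫ x, (∑ i, wK K (2 * l ^ 2) (y - x i)) ^ (k + 1) * ‖ψ x‖ ^ 2 ∂(piN (Fin N)) ∂lam3
        ≤ D 1 k * Cm (k + 1) * (N : ℝ) ^ (q + 1) := by
      intro k hk'
      have hkq : k ≤ q := Nat.lt_succ_iff.1 (Finset.mem_range.1 hk')
      rw [integral_const_mul]
      have h4 := mul_le_mul_of_nonneg_left (hS (k + 1) (Finset.mem_range.2 (by omega)))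
        (mul_nonneg (hD0 1 k) (pow_nonneg hN0 (q - k)))
      refine h4.trans (le_of_eq ?_)
      have h5 : (N : ℝ) ^ (q + 1) = (N : ℝ) ^ (q - k) * (N : ℝ) ^ (k + 1) := by
        rw [← pow_add]
        congr 1
        omega
      rw [h5]
      ring
    refine (Finset.sum_le_sum h3).trans ?_
    rw [← Finset.sum_mul]
    refine mul_le_mul_of_nonneg_right ?_ (pow_nonneg hN0 _)
    linarith
  · -- uniform case
    intro m
    have hpt : ∀ y, ∫ x, (∑ j ∈ Finset.univ.erase m, hk s (y - x j)) ^ q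
        * ‖ψ x‖ ^ 2 ∂(piN (Fin N)) ≤ ∑ k ∈ Finset.range (q + 1), (D 0 k * (N : ℝ) ^ (q - k))
          * ∫ x, (∑ i, wK K (2 * l ^ 2) (y - x i)) ^ k * ‖ψ x‖ ^ 2 ∂(piN (Fin N)) := by
      intro y
      have h1 := R15_key hc0 hc q hl hl1 hM hs hsl hsN
        (r := fun _ => s) (fun _ => hs) (fun _ => hsl) ∅ (Finset.univ.erase m)
        (Finset.disjoint_empty_left _) (fun _ _ => rfl) y
      simp only [ZT, ZW, Finset.prod_empty, one_mul, Finset.card_empty] at h1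
      refine h1.trans (le_of_eq (Finset.sum_congr rfl fun k hk' => ?_))
      rw [hcoef 0 k hk']
    have hFi : Integrable (fun y => ∫ x, (∑ j ∈ Finset.univ.erase m, hk s (y - x j)) ^ q
        * ‖ψ x‖ ^ 2 ∂(piN (Fin N))) lam3 :=
      H5_out hψ ((H5_bm_sum hs (Finset.univ.erase m)).pow q)
    refine (integral_mono hFi
      (integrable_finsetSum _ fun k _ => (hSi k).const_mul _) hpt).trans ?_
    rw [integral_finsetSum _ (fun k _ => (hSi k).const_mul _)]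
    have h3 : ∀ k ∈ Finset.range (q + 1), ∫ y, (D 0 k * (N : ℝ) ^ (q - k))
        * ∫ x, (∑ i, wK K (2 * l ^ 2) (y - x i)) ^ k * ‖ψ x‖ ^ 2 ∂(piN (Fin N)) ∂lam3
        ≤ D 0 k * Cm k * (N : ℝ) ^ q := by
      intro k hk'
      have hkq : k ≤ q := Nat.lt_succ_iff.1 (Finset.mem_range.1 hk')
      rw [integral_const_mul]
      have h4 := mul_le_mul_of_nonneg_left (hS k (Finset.mem_range.2 (by omega)))
        (mul_nonneg (hD0 0 k) (pow_nonneg hN0 (q - k)))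
      refine h4.trans (le_of_eq ?_)
      have h5 : (N : ℝ) ^ q = (N : ℝ) ^ (q - k) * (N : ℝ) ^ k := by
        rw [← pow_add]
        congr 1
        omega
      rw [h5]
      ring
    refine (Finset.sum_le_sum h3).trans ?_
    rw [← Finset.sum_mul]
    refine mul_le_mul_of_nonneg_right ?_ (pow_nonneg hN0 _)
    linarith


end Pool.Agent.Lib.MP_4952d6_mp.LK
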