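import Pool.Agent.Lib.MP_4952d6_mp.Pr.R15
import Pool.Agent.Lib.MP_4952d6_mp.Pq.P10
import Pool.Agent.Lib.MP_4952d6_mp.Po.N13
import Pool.Agent.Lib.MP_4952d6_mp.Po.N28

/-!
# Pr.R16 (leaf I, mechanical): `LocO` for minimisers with a jump term

* `crowd_momentsK`: copy of `P10_crowd_moments` (Pq/P10) with `smearedK`.
* `nz_momentsK`, `crowdOK`, `smearedOK`: copies of `nz_moments`, `crowdO`, `smearedO` (Po/N13 l.262-440) with `MiniK l Lam K ε` instead of `Mini`, `smearedK`, `hk_momentsK`, `crowd_momentsK`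
  (`MC_Nl`, `MC_one`, `MC_nz_BM`, `MC_S_BM`, `crp_sm`, `smp_sm`, `smp_le`, `nzp_le`, `nzp_mono` as they are, namespace `O`).
* `locOK`: copy of `locO` (Po/N28 l.415-517).
-/

set_option autoImplicit false
set_option linter.unusedSectionVars false
set_option linter.unusedVariables false
open MeasureTheory Function Filter Topology Set ComplexConjugate
open scoped ENNReal

namespace Pool.Agent.Lib.MP_4952d6_mp.LK

open LA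

variable {ι : Type*} [Fintype ι] [DecidableEq ι]

open LG O LB

theorem crowd_momentsK (θ cw Kμ : ℝ) (hθ : 1 ≤ θ) (hcw : 0 < cw) (hKμ : 0 ≤ Kμ) (q : ℕ) :
    ∃ C Y0 : ℝ, 0 < C ∧ 0 < Y0 ∧ ∀ Y : ℝ, 0 < Y → Y < Y0 → ∀ (l R a : ℝ) (w : ℝ → ℝ)
      (N : ℕ) (Lam : ℝ) (K : T3 → ℝ) (ε R₀ e : ℝ) (𝒱 : T3 → ℝ≥0∞) (ψ : (Fin N → T3) → ℂ)
      (g : Fin N → Fin 3 → (Fin N → T3) → ℂ), Par θ cw Kμ Y l R a w N R₀ 𝒱 →
      MiniK l Lam K ε R₀ 𝒱 (Kμ / l ^ 2) e ψ g →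
      ∀ s : ℝ, 0 < s → 2 * s ≤ l ^ 2 → 1 ≤ N * (Real.sqrt s) ^ 3 →
      ∑ m, ∫ x, crowd s m x ^ q * ‖ψ x‖ ^ 2 ∂(piN (Fin N)) ≤ C * (N : ℝ) ^ (q + 1) := by
  obtain ⟨C, Y0, hC, hY0, hsm⟩ := smearedK θ cw Kμ hθ hcw hKμ q
  refine ⟨2 * 4 ^ q * C, Y0, by positivity, hY0, ?_⟩
  intro Y hY hYY l R a w N Lam K ε R₀ e 𝒱 ψ g hP hM s hs hsl hN
  have hl2 : 0 ≤ l ^ 2 := sq_nonneg l
  have h1 := (hsm Y hY hYY l R a w N Lam K ε R₀ e 𝒱 ψ g hP hM (2 * s) (s / 12) (by positivity) hsl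
    (hN.trans (mul_le_mul_of_nonneg_left
      (pow_le_pow_left₀ (Real.sqrt_nonneg _) (Real.sqrt_le_sqrt (by linarith)) 3)
      (Nat.cast_nonneg N))) (by positivity) (by linarith)).1
  have h2 : ∑ m, ∫ x, crowd s m x ^ q * ‖ψ x‖ ^ 2 ∂(piN (Fin N))
      ≤ ∑ m, 2 * 4 ^ q * ∫ y, ∫ x, H6f s q m (y, x) * ‖ψ x‖ ^ 2 ∂(piN (Fin N)) ∂lam3 :=
    Finset.sum_le_sum fun m _ => H6_one hM.fe.hg.mem hs q m
  rw [← Finset.mul_sum] at h2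
  refine h2.trans ?_
  have h3 : (2 * 4 ^ q : ℝ) * (∑ m, ∫ y, ∫ x, H6f s q m (y, x) * ‖ψ x‖ ^ 2 ∂(piN (Fin N)) ∂lam3)
      ≤ 2 * 4 ^ q * (C * (N : ℝ) ^ (q + 1)) := mul_le_mul_of_nonneg_left h1 (by positivity)
  exact h3.trans (le_of_eq (by ring))

theorem nz_momentsK (θ cw Kμ : ℝ) (hθ : 1 ≤ θ) (hcw : 0 < cw) (hKμ : 0 ≤ Kμ) (p : ℕ) :
    ∃ C Y0 : ℝ, 0 < C ∧ 0 < Y0 ∧ ∀ Y : ℝ, 0 < Y → Y < Y0 → ∀ (l R a : ℝ) (w : ℝ → ℝ)
      (N : ℕ) (Lam : ℝ) (K : T3 → ℝ) (ε R₀ e : ℝ) (𝒱 : T3 → ℝ≥0∞) (ψ : (Fin N → T3) → ℂ)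
      (g : Fin N → Fin 3 → (Fin N → T3) → ℂ), Par θ cw Kμ Y l R a w N R₀ 𝒱 →
      MiniK l Lam K ε R₀ 𝒱 (Kμ / l ^ 2) e ψ g →
      ∀ σ : ℝ, 0 < σ → 1 ≤ N * (Real.sqrt σ) ^ 3 → nzp σ p ψ ≤ C * (N : ℝ) ^ p := by
  obtain ⟨C1, Y1, hC1, hY1, H1⟩ := smearedK θ cw Kμ hθ hcw hKμ p
  obtain ⟨C2, Y2, hC2, hY2, H2⟩ := hk_momentsK θ cw Kμ hθ hcw hKμ p
  refine ⟨2 ^ (p - 1) * (C1 + 8 ^ p) + (Real.sqrt 2 ^ 3) ^ p * C2, min (min Y1 Y2) (1 / 200),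
    by positivity, lt_min (lt_min hY1 hY2) (by norm_num), ?_⟩
  intro Y hY hYlt l R a w N Lam K ε R₀ e 𝒱 ψ g hP hM σ hσ hσN
  have hYa : Y < Y1 := hYlt.trans_le ((min_le_left _ _).trans (min_le_left _ _))
  have hYb : Y < Y2 := hYlt.trans_le ((min_le_left _ _).trans (min_le_right _ _))
  obtain ⟨hl, hNl, hN1⟩ := MC_Nl hY hP
  have hψ : MemLp ψ 2 (piN (Fin N)) := hM.fe.hg.mem
  have hnrm := hM.nrm
  have hNp : 0 ≤ (N : ℝ) ^ p := by positivity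
  rcases le_or_gt σ (l ^ 2) with hc | hc
  · have hN0 : 0 < N := by
      have : (0:ℝ) < N := by linarith
      exact_mod_cast this
    set m : Fin N := ⟨0, hN0⟩ with hm
    have hl1 : l ^ 2 ≤ 1 := by
      have := hP.l_le
      nlinarith
    have hs1 : σ ≤ 1 := hc.trans hl1
    have Kh := (H1 Y hY hYa l R a w N Lam K ε R₀ e 𝒱 ψ g hP hM σ σ hσ hc hσN hσ hc).2 m
    have hpt : ∀ (z : T3) (x : Fin N → T3), nz σ z x ^ p
        ≤ 2 ^ (p - 1) * I2a_S σ m z x ^ p + (2 ^ (p - 1) * (8 * N) ^ p) * 1 := by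
      intro z x
      have e1 : nz σ z x = I2a_S σ m z x + hk σ (z - x m) := by
        unfold nz I2a_S
        exact (Finset.sum_erase_add _ _ (Finset.mem_univ m)).symm
      have e2 := H5_bd hσ hs1 hσN (z - x m)
      have e3 : nz σ z x ≤ I2a_S σ m z x + 8 * N := by rw [e1]; linarith
      have e0 : 0 ≤ nz σ z x := Finset.sum_nonneg fun j _ => hk_nonneg _ _
      have e4 := pow_le_pow_left₀ e0 e3 p
      have e5 := add_pow_le (I2a_S_nonneg σ m z x) (show (0:ℝ) ≤ 8 * N by positivity) p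
      refine e4.trans (e5.trans (le_of_eq ?_))
      ring
    have hB1 : BM (uncurry (fun (z : T3) (x : Fin N → T3) => (1:ℝ))) := BM.const 1
    have hB2 : BM (uncurry (fun (z : T3) (x : Fin N → T3) =>
        2 ^ (p - 1) * I2a_S σ m z x ^ p + (2 ^ (p - 1) * (8 * N) ^ p) * (1:ℝ))) :=
      ((MC_S_BM hσ m p).const_mul _).add (hB1.const_mul _)
    have k1 := I2a_J_mono hψ (MC_nz_BM hσ p) hB2 hpt
    rw [I2a_J_add hψ (MC_S_BM hσ m p) hB1, I2a_J_one hnrm] at k1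
    have k2 : I2a_J ψ (fun z x => I2a_S σ m z x ^ p) ≤ C1 * (N : ℝ) ^ p := Kh
    have k3 : nzp σ p ψ = I2a_J ψ (fun z x => nz σ z x ^ p) := rfl
    rw [k3]
    refine k1.trans ?_
    have k4 : (2:ℝ) ^ (p - 1) * I2a_J ψ (fun z x => I2a_S σ m z x ^ p)
        ≤ 2 ^ (p - 1) * (C1 * (N : ℝ) ^ p) := mul_le_mul_of_nonneg_left k2 (by positivity)
    have k5 : (8 * (N : ℝ)) ^ p = 8 ^ p * (N : ℝ) ^ p := mul_pow _ _ _
    rw [k5]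
    have k6 : 0 ≤ (Real.sqrt 2 ^ 3) ^ p * C2 * (N : ℝ) ^ p := by positivity
    nlinarith
  · have h1 := nzp_le hψ hσ (show σ ≤ 2 * σ by linarith) p
    have h2 := nzp_mono hψ (show (0:ℝ) < 2 * l ^ 2 by positivity)
      (show 2 * l ^ 2 ≤ 2 * σ by linarith) p
    have h3 : nzp (2 * l ^ 2) p ψ ≤ C2 * (N : ℝ) ^ p :=
      H2 Y hY hYb l R a w N Lam K ε R₀ e 𝒱 ψ g hP hM
    have e1 : 2 * σ / σ = 2 := by field_simp
    rw [e1] at h1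
    have h4 : (Real.sqrt 2 ^ 3) ^ p * nzp (2 * σ) p ψ ≤ (Real.sqrt 2 ^ 3) ^ p * (C2 * (N : ℝ) ^ p) :=
      mul_le_mul_of_nonneg_left (h2.trans h3) (by positivity)
    refine (h1.trans h4).trans ?_
    have k6 : 0 ≤ 2 ^ (p - 1) * (C1 + 8 ^ p) * (N : ℝ) ^ p := by positivity
    nlinarith

theorem crowdOK (θ cw Kμ : ℝ) (hθ : 1 ≤ θ) (hcw : 0 < cw) (hKμ : 0 ≤ Kμ) (q : ℕ) :
    ∃ C Y0 : ℝ, 0 < C ∧ 0 < Y0 ∧ ∀ Y : ℝ, 0 < Y → Y < Y0 → ∀ (l R a : ℝ) (w : ℝ → ℝ)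
      (N : ℕ) (Lam : ℝ) (K : T3 → ℝ) (ε R₀ e : ℝ) (𝒱 : T3 → ℝ≥0∞) (ψ : (Fin N → T3) → ℂ)
      (g : Fin N → Fin 3 → (Fin N → T3) → ℂ), Par θ cw Kμ Y l R a w N R₀ 𝒱 →
      MiniK l Lam K ε R₀ 𝒱 (Kμ / l ^ 2) e ψ g →
      ∀ s : ℝ, 0 < s → 1 ≤ N * (Real.sqrt s) ^ 3 → crp s q ψ ≤ C * (N : ℝ) ^ (q + 1) := by
  obtain ⟨C1, Y1, hC1, hY1, H1⟩ := crowd_momentsK θ cw Kμ hθ hcw hKμ q
  obtain ⟨C2, Y2, hC2, hY2, H2⟩ := nz_momentsK θ cw Kμ hθ hcw hKμ (q + 1)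
  refine ⟨C1 + 2 * 4 ^ q * (2 * C2), min (min Y1 Y2) (1 / 200),
    by positivity, lt_min (lt_min hY1 hY2) (by norm_num), ?_⟩
  intro Y hY hYlt l R a w N Lam K ε R₀ e 𝒱 ψ g hP hM s hs hsN
  have hYa : Y < Y1 := hYlt.trans_le ((min_le_left _ _).trans (min_le_left _ _))
  have hYb : Y < Y2 := hYlt.trans_le ((min_le_left _ _).trans (min_le_right _ _))
  have hYc : Y ≤ 1 / 200 := hYlt.le.trans (min_le_right _ _)
  obtain ⟨hl, hNl, hN1⟩ := MC_Nl hY hP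
  have hψ : MemLp ψ 2 (piN (Fin N)) := hM.fe.hg.mem
  have hNp : 0 ≤ (N : ℝ) ^ (q + 1) := by positivity
  rcases le_or_gt (2 * s) (l ^ 2) with hc | hc
  · have h1 : crp s q ψ ≤ C1 * (N : ℝ) ^ (q + 1) :=
      H1 Y hY hYa l R a w N Lam K ε R₀ e 𝒱 ψ g hP hM s hs hc hsN
    have k6 : 0 ≤ 2 * 4 ^ q * (2 * C2) * (N : ℝ) ^ (q + 1) := by positivity
    nlinarith
  · have h1 := crp_sm hψ hs q
    have h2 := smp_le hψ (show 0 < s / 12 by positivity) (show 0 < 2 * s by positivity) q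
    have h3 := H2 Y hY hYb l R a w N Lam K ε R₀ e 𝒱 ψ g hP hM (s / 12) (by positivity)
      (MC_one hl hNl hY hYc (c := 24) (by norm_num) le_rfl (by linarith))
    have h4 := H2 Y hY hYb l R a w N Lam K ε R₀ e 𝒱 ψ g hP hM (2 * s) (by positivity)
      (MC_one hl hNl hY hYc (c := 1) (by norm_num) (by norm_num) (by linarith))
    have h5 : (2:ℝ) * 4 ^ q * smp (s / 12) (2 * s) q ψ
        ≤ 2 * 4 ^ q * (C2 * (N : ℝ) ^ (q + 1) + C2 * (N : ℝ) ^ (q + 1)) :=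
      mul_le_mul_of_nonneg_left (by linarith) (by positivity)
    have k6 : 0 ≤ C1 * (N : ℝ) ^ (q + 1) := by positivity
    nlinarith

theorem smearedOK (θ cw Kμ : ℝ) (hθ : 1 ≤ θ) (hcw : 0 < cw) (hKμ : 0 ≤ Kμ) (q : ℕ) :
    ∃ C Y0 : ℝ, 0 < C ∧ 0 < Y0 ∧ ∀ Y : ℝ, 0 < Y → Y < Y0 → ∀ (l R a : ℝ) (w : ℝ → ℝ)
      (N : ℕ) (Lam : ℝ) (K : T3 → ℝ) (ε R₀ e : ℝ) (𝒱 : T3 → ℝ≥0∞) (ψ : (Fin N → T3) → ℂ)
      (g : Fin N → Fin 3 → (Fin N → T3) → ℂ), Par θ cw Kμ Y l R a w N R₀ 𝒱 →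
      MiniK l Lam K ε R₀ 𝒱 (Kμ / l ^ 2) e ψ g →
      ∀ r s : ℝ, 0 < r → 0 < s → 1 ≤ N * (Real.sqrt s) ^ 3 →
        smp r s q ψ ≤ C * (N : ℝ) ^ (q + 1) := by
  obtain ⟨C1, Y1, hC1, hY1, H1⟩ := smearedK θ cw Kμ hθ hcw hKμ q
  obtain ⟨C2, Y2, hC2, hY2, H2⟩ := nz_momentsK θ cw Kμ hθ hcw hKμ (q + 1)
  refine ⟨C1 + (2 * C2 + 2 * 4 ^ q * (2 * C2)), min (min Y1 Y2) (1 / 200),
    by positivity, lt_min (lt_min hY1 hY2) (by norm_num), ?_⟩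
  intro Y hY hYlt l R a w N Lam K ε R₀ e 𝒱 ψ g hP hM r s hr hs hsN
  have hYa : Y < Y1 := hYlt.trans_le ((min_le_left _ _).trans (min_le_left _ _))
  have hYb : Y < Y2 := hYlt.trans_le ((min_le_left _ _).trans (min_le_right _ _))
  have hYc : Y ≤ 1 / 200 := hYlt.le.trans (min_le_right _ _)
  obtain ⟨hl, hNl, hN1⟩ := MC_Nl hY hP
  have hψ : MemLp ψ 2 (piN (Fin N)) := hM.fe.hg.mem
  have hNp : 0 ≤ (N : ℝ) ^ (q + 1) := by positivity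
  have k1 : 0 ≤ C1 * (N : ℝ) ^ (q + 1) := by positivity
  have k2 : 0 ≤ 2 * C2 * (N : ℝ) ^ (q + 1) := by positivity
  have k3 : 0 ≤ 2 * 4 ^ q * (2 * C2) * (N : ℝ) ^ (q + 1) := by positivity
  rcases le_or_gt r (l ^ 2) with hc | hc
  · rcases le_or_gt s (l ^ 2) with hc' | hc'
    · have h1 : smp r s q ψ ≤ C1 * (N : ℝ) ^ (q + 1) :=
        (H1 Y hY hYa l R a w N Lam K ε R₀ e 𝒱 ψ g hP hM s r hs hc' hsN hr hc).1
      linarith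
    · have h1 := smp_sm hψ hr hs q
      have h2 := smp_le hψ (show 0 < r + s / 12 by positivity) (show 0 < 2 * s by positivity) q
      have h3 := H2 Y hY hYb l R a w N Lam K ε R₀ e 𝒱 ψ g hP hM (r + s / 12) (by positivity)
        (MC_one hl hNl hY hYc (c := 12) (by norm_num) (by norm_num) (by linarith))
      have h4 := H2 Y hY hYb l R a w N Lam K ε R₀ e 𝒱 ψ g hP hM (2 * s) (by positivity)
        (MC_one hl hNl hY hYc (c := 1) (by norm_num) (by norm_num) (by linarith))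
      have h5 : (2:ℝ) * 4 ^ q * smp (r + s / 12) (2 * s) q ψ
          ≤ 2 * 4 ^ q * (C2 * (N : ℝ) ^ (q + 1) + C2 * (N : ℝ) ^ (q + 1)) :=
        mul_le_mul_of_nonneg_left (by linarith) (by positivity)
      linarith
  · have h2 := smp_le hψ hr hs q
    have h3 := H2 Y hY hYb l R a w N Lam K ε R₀ e 𝒱 ψ g hP hM r hr
      (MC_one hl hNl hY hYc (c := 1) (by norm_num) (by norm_num) (by linarith))
    have h4 := H2 Y hY hYb l R a w N Lam K ε R₀ e 𝒱 ψ g hP hM s hs hsN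
    linarith

theorem locOK (θ cw Kμ cb : ℝ) (hθ : 1 ≤ θ) (hcw : 0 < cw) (hKμ : 0 ≤ Kμ) (hcb : 1 ≤ cb) :
    ∃ C Y0 : ℝ, 0 < C ∧ 0 < Y0 ∧ ∀ Y : ℝ, 0 < Y → Y < Y0 → ∀ (l R a : ℝ) (w : ℝ → ℝ)
      (N : ℕ) (Lam : ℝ) (K : T3 → ℝ) (ε R₀ e : ℝ) (𝒱 : T3 → ℝ≥0∞) (ψ : (Fin N → T3) → ℂ)
      (g : Fin N → Fin 3 → (Fin N → T3) → ℂ), Par θ cw Kμ Y l R a w N R₀ 𝒱 →
      MiniK l Lam K ε R₀ 𝒱 (Kμ / l ^ 2) e ψ g → ∀ u : ℝ, 0 < u → u ≤ 1 →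
      ∀ t T b : ℝ, 0 < t → 1 ≤ N * (Real.sqrt (t / 8)) ^ 3 → t ≤ T → 0 < b →
        64 * T ≤ cb * b / u ^ 3 → LocO C u t T b ψ := by
  obtain ⟨C1, Y1, hC1, hY1, H1⟩ := crowdOK θ cw Kμ hθ hcw hKμ 1
  obtain ⟨C2, Y2, hC2, hY2, H2⟩ := crowdOK θ cw Kμ hθ hcw hKμ 400
  obtain ⟨C3, Y3, hC3, hY3, H3⟩ := smearedOK θ cw Kμ hθ hcw hKμ 400
  obtain ⟨C4, Y4, hC4, hY4, H4⟩ := nz_momentsK θ cw Kμ hθ hcw hKμ 162
  obtain ⟨C5, Y5, hC5, hY5, H5⟩ := nz_momentsK θ cw Kμ hθ hcw hKμ 164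
  obtain ⟨A2, hA2⟩ : ∃ A2 : ℝ, A2 = 2 * cb + 2 ^ 401 * ((C2 + C3) + 1) := ⟨_, rfl⟩
  obtain ⟨A3, hA3⟩ : ∃ A3 : ℝ, A3 = 3 * (C4 + C5) + 1 := ⟨_, rfl⟩
  have hA2p : 0 < A2 := by rw [hA2]; positivity
  have hA3p : 0 < A3 := by rw [hA3]; positivity
  refine ⟨C1 + A2 + A3,
    min (min Y1 Y2) (min Y3 (min Y4 Y5)), by positivity,
    lt_min (lt_min hY1 hY2) (lt_min hY3 (lt_min hY4 hY5)), ?_⟩
  intro Y hY hYlt l R a w N Lam K ε R₀ e 𝒱 ψ g hPar hMini u hu hu1 t T b ht htN htT hb hTb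
  have hY1' : Y < Y1 := hYlt.trans_le ((min_le_left _ _).trans (min_le_left _ _))
  have hY2' : Y < Y2 := hYlt.trans_le ((min_le_left _ _).trans (min_le_right _ _))
  have hY3' : Y < Y3 := hYlt.trans_le ((min_le_right _ _).trans (min_le_left _ _))
  have hY4' : Y < Y4 :=
    hYlt.trans_le ((min_le_right _ _).trans ((min_le_right _ _).trans (min_le_left _ _)))
  have hY5' : Y < Y5 :=
    hYlt.trans_le ((min_le_right _ _).trans ((min_le_right _ _).trans (min_le_right _ _)))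
  have hψ : MemLp ψ 2 (piN (Fin N)) := hMini.fe.hg.mem
  have hnrm : ∫ x, ‖ψ x‖ ^ 2 ∂(piN (Fin N)) = 1 := hMini.nrm
  have hN : 0 < N := by
    rcases Nat.eq_zero_or_pos N with h | h
    · exfalso
      rw [h] at htN
      norm_num at htN
    · exact h
  have hn : (0 : ℝ) < N := by exact_mod_cast hN
  have hs1 : ∀ s, t / 8 ≤ s → 0 < s ∧ 1 ≤ N * (Real.sqrt s) ^ 3 := by
    intro s h1
    refine ⟨by linarith, htN.trans ?_⟩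
    refine mul_le_mul_of_nonneg_left ?_ hn.le
    exact pow_le_pow_left₀ (Real.sqrt_nonneg _) (Real.sqrt_le_sqrt h1) 3
  have hDb : 0 ≤ Db b ψ := by
    unfold Db Dm
    refine Finset.sum_nonneg fun j _ => tsum_nonneg fun k => mul_nonneg ?_ (sq_nonneg _)
    have h1 : 0 ≤ b * ksq (k j) := mul_nonneg hb.le (HKE_ksq_nonneg _)
    have h2 : Real.exp (-(b * ksq (k j))) ≤ 1 := Real.exp_le_one_iff.2 (by linarith)
    linarith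
  have hVV : 0 ≤ VV (T / 2) ψ := by
    unfold VV
    exact integral_nonneg fun z => integral_nonneg fun x => by positivity
  refine ⟨?_, ?_, ?_⟩
  · intro s h1 h2
    obtain ⟨hs, hsN⟩ := hs1 s h1
    have h3 := H1 Y hY hY1' l R a w N Lam K ε R₀ e 𝒱 ψ g hPar hMini s hs hsN
    rw [Fintype.card_fin]
    have h4 : ∀ m, ∫ x, ‖ψ x‖ ^ 2 * crowd s m x ∂(piN (Fin N)) =
        ∫ x, crowd s m x ^ 1 * ‖ψ x‖ ^ 2 ∂(piN (Fin N)) := by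
      intro m
      refine integral_congr_ae (Eventually.of_forall fun x => ?_)
      simp only [pow_one]
      ring
    rw [Finset.sum_congr rfl fun m _ => h4 m]
    unfold crp at h3
    refine h3.trans ?_
    refine mul_le_mul_of_nonneg_right ?_ (by positivity)
    linarith only [hA2p, hA3p]
  · intro r s hr hr2 h1 h2
    obtain ⟨hs, hsN⟩ := hs1 s h1
    have h3 := H2 Y hY hY2' l R a w N Lam K ε R₀ e 𝒱 ψ g hPar hMini s hs hsN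
    have h4 := H3 Y hY hY3' l R a w N Lam K ε R₀ e 𝒱 ψ g hPar hMini r s hr hs hsN
    have h5 : C2 * (N : ℝ) ^ (400 + 1) ≤ (C2 + C3) * (N : ℝ) ^ 401 :=
      mul_le_mul_of_nonneg_right (by linarith) (by positivity)
    have h6 : C3 * (N : ℝ) ^ (400 + 1) ≤ (C2 + C3) * (N : ℝ) ^ 401 :=
      mul_le_mul_of_nonneg_right (by linarith) (by positivity)
    have h7 := md_of hN hψ hnrm hu hu1 hr hs hb hcb (hr2.trans hTb) (by positivity : 0 ≤ C2 + C3)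
      (h3.trans h5) (h4.trans h6)
    rw [Fintype.card_fin]
    refine h7.trans ?_
    have h8 : 0 ≤ (N : ℝ) ^ 2 * (Db b ψ / u ^ 4 + u ^ 161 * (N : ℝ)) := by positivity
    rw [← hA2, mul_assoc, mul_assoc]
    refine mul_le_mul_of_nonneg_right ?_ h8
    linarith only [hC1, hA2p, hA3p]
  · intro s h1 h2
    have h1' : t / 8 ≤ s := by linarith
    have h2' : t / 8 ≤ T / 2 := by linarith
    obtain ⟨hs, hsN⟩ := hs1 s h1'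
    obtain ⟨hT, hTN⟩ := hs1 (T / 2) h2'
    have k1 := H4 Y hY hY4' l R a w N Lam K ε R₀ e 𝒱 ψ g hPar hMini s hs hsN
    have k2 := H5 Y hY hY5' l R a w N Lam K ε R₀ e 𝒱 ψ g hPar hMini s hs hsN
    have k3 := H5 Y hY hY5' l R a w N Lam K ε R₀ e 𝒱 ψ g hPar hMini (T / 2) hT hTN
    have h3 : C4 * (N : ℝ) ^ 162 ≤ (C4 + C5) * (N : ℝ) ^ 162 :=
      mul_le_mul_of_nonneg_right (by linarith) (by positivity)
    have h4 : C5 * (N : ℝ) ^ 164 ≤ (C4 + C5) * (N : ℝ) ^ 164 :=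
      mul_le_mul_of_nonneg_right (by linarith) (by positivity)
    have h5 := mv_of hN hψ hnrm hu hs (by linarith : 0 < T) (by positivity : 0 ≤ C4 + C5)
      (k1.trans h3) (k2.trans h4) (k3.trans h4)
    rw [Fintype.card_fin]
    refine h5.trans ?_
    have h8 : 0 ≤ (N : ℝ) * (VV (T / 2) ψ / u + u ^ 161 * (N : ℝ) ^ 2) := by positivity
    rw [← hA3, mul_assoc, mul_assoc]
    refine mul_le_mul_of_nonneg_right ?_ h8
    linarith only [hC1, hA2p, hA3p]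

end Pool.Agent.Lib.MP_4952d6_mp.LK
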