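import Pool.Agent.Lib.MP_4952d6_mp.Pr.R02
import Pool.Agent.Lib.MP_4952d6_mp.Pq.Q07

/-!
# Pr.R17 (leaf J1): the jump term in Fourier space; existence of minimisers

* `kh_abs`: `|∫ K Re ch| ≤ ∫ K = 1`.
* `rk_fourier`: by `rk_two`, `rk K ε i f = ∫‖f‖² - ε Re ∫∫ K (x i - z) conj (f x) f (update x i z)`. With `A f x = ∫ z, K (x i - z) f (update x i z)` (in `L²`, as `htj`), `fc (A f) k = K^(k i) fc f k`,
  `K^(p) = ∫ K(w) conj (ch p w) dw = kh K p` (real because `K` is even), and Parseval (polarised): `∫ conj f (A f) = ∑ K^(k i) ‖fc f k‖²`. Model: `MD2_dfm_one` (Po/N13 l.600-905, the same for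
  `K = hk r`, in the form `∫ K (‖f x - f x'‖²)`: its private lemmas are already written for a general `BM` kernel `K` with `∫ K = 1`).
* `tk_statement`: `M.Q07_ground` (Pq/Q07) with the weight `w k = Lam * ∑ i, (1 - ε * kh K (k i))`, between `0` and `2 N Lam`; `tW w ψ = ofReal (Lam ∑ rk) = ofReal Lam * ∑ gk` (`gk_eq`, `rk_fourier`; model `tW_gap`).
-/

set_option autoImplicit false
set_option linter.unusedSectionVars false
set_option linter.unusedVariables false
open MeasureTheory Function Filter Topology Set ComplexConjugate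
open scoped ENNReal

namespace Pool.Agent.Lib.MP_4952d6_mp.LK

open LA

variable {ι : Type*} [Fintype ι] [DecidableEq ι]

/-- Fourier coefficients of the kernel -/
noncomputable def kh (K : T3 → ℝ) (p : Fin 3 → ℤ) : ℝ := ∫ z, K z * (ch p z).re ∂lam3

theorem kh_abs {K : T3 → ℝ} (hK : Ker K) (p : Fin 3 → ℤ) : |kh K p| ≤ 1 := by
  have h := norm_integral_le_of_norm_le (f := fun z => K z * (ch p z).re) (hK.bm.integrable lam3)
    (Eventually.of_forall fun z => ?_)
  · rw [hK.int] at h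
    rw [← Real.norm_eq_abs]
    exact h
  · rw [norm_mul, Real.norm_of_nonneg (hK.nonneg z)]
    have h1 : ‖(ch p z).re‖ ≤ 1 := by
      rw [Real.norm_eq_abs, ← ch_norm p z]
      exact Complex.abs_re_le_norm _
    exact mul_le_of_le_one_right (hK.nonneg z) h1

/-! private tools: the convolution in one particle (as in LA/I1) -/

private lemma R17_int {K : T3 → ℝ} (hK : BM K) {ψ : (ι → T3) → ℂ} (hψ : MemLp ψ 2 (piN ι)) (m : ι) :
    Integrable (fun q : (ι → T3) × T3 => K (q.2 - q.1 m) * ‖ψ q.1‖ ^ 2) ((piN ι).prod lam3) := by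
  have h1 : Integrable (fun q : (ι → T3) × T3 => ‖ψ q.1‖ ^ 2) ((piN ι).prod lam3) :=
    (hψ.integrable_norm_pow two_ne_zero).comp_fst _
  have hb : BM (fun q : (ι → T3) × T3 => K (q.2 - q.1 m)) :=
    hK.comp (measurable_snd.sub ((measurable_pi_apply m).comp measurable_fst))
  obtain ⟨C, hC0, hC⟩ := hb.exists_nonneg_bound
  exact h1.bdd_mul hb.meas.aestronglyMeasurable (Eventually.of_forall hC)

private lemma R17_int' {K : T3 → ℝ} (hK : BM K) {ψ : (ι → T3) → ℂ} (hψ : MemLp ψ 2 (piN ι)) (m : ι) :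
    Integrable (fun q : (ι → T3) × T3 => K (q.1 m - q.2) * ‖ψ (update q.1 m q.2)‖ ^ 2)
      ((piN ι).prod lam3) := by
  have h := (mp_swap lam3 m).integrable_comp_of_integrable (R17_int hK hψ m)
  refine h.congr (Eventually.of_forall fun q => ?_)
  simp only [comp_apply, update_self]

private lemma R17_cs {K : T3 → ℝ} {f : T3 → ℂ} (hK0 : ∀ y, 0 ≤ K y) (hKi : Integrable K lam3)
    (h1 : ∫ y, K y ∂lam3 = 1) (hf : Integrable (fun y => K y * ‖f y‖ ^ 2) lam3)
    (hfm : AEStronglyMeasurable f lam3) :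
    ‖∫ y, (K y : ℂ) * f y ∂lam3‖ ^ 2 ≤ ∫ y, K y * ‖f y‖ ^ 2 ∂lam3 := by
  have hB : Integrable (fun y => K y * ‖f y‖) lam3 := by
    refine Integrable.mono' (hKi.add hf)
      (hKi.aestronglyMeasurable.mul hfm.norm) (Eventually.of_forall fun y => ?_)
    rw [Real.norm_of_nonneg (mul_nonneg (hK0 y) (norm_nonneg _)), Pi.add_apply]
    have h2 : ‖f y‖ ≤ 1 + ‖f y‖ ^ 2 := by nlinarith [sq_nonneg (‖f y‖ - 1), norm_nonneg (f y)]
    have := mul_le_mul_of_nonneg_left h2 (hK0 y)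
    linarith
  have h2 : ‖∫ y, (K y : ℂ) * f y ∂lam3‖ ≤ ∫ y, K y * ‖f y‖ ∂lam3 := by
    refine (norm_integral_le_integral_norm _).trans (le_of_eq ?_)
    refine integral_congr_ae (Eventually.of_forall fun y => ?_)
    simp only [norm_mul, Complex.norm_real, Real.norm_of_nonneg (hK0 y)]
  have h3 : (∫ y, K y * ‖f y‖ ∂lam3) ^ 2 ≤ (∫ y, K y * ‖f y‖ ^ 2 ∂lam3) * 1 := by
    refine cs_of_quadratic fun t => ?_
    have h4 : 0 ≤ ∫ y, K y * (‖f y‖ - t) ^ 2 ∂lam3 :=
      integral_nonneg fun y => mul_nonneg (hK0 y) (sq_nonneg _)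
    have h5 : ∫ y, K y * (‖f y‖ - t) ^ 2 ∂lam3
        = ∫ y, (K y * ‖f y‖ ^ 2 - 2 * t * (K y * ‖f y‖)) + t ^ 2 * K y ∂lam3 := by
      refine integral_congr_ae (Eventually.of_forall fun y => ?_)
      simp only
      ring
    rw [h5, integral_add (f := fun y => K y * ‖f y‖ ^ 2 - 2 * t * (K y * ‖f y‖))
      (g := fun y => t ^ 2 * K y) (hf.sub (hB.const_mul _)) (hKi.const_mul _),
      integral_sub hf (hB.const_mul _), integral_const_mul, integral_const_mul, h1] at h4
    linarith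
  have h6 := pow_le_pow_left₀ (norm_nonneg _) h2 2
  linarith

private noncomputable def R17_C (K : T3 → ℝ) (m : ι) (ψ : (ι → T3) → ℂ) (x : ι → T3) : ℂ :=
  ∫ y, (K (x m - y) : ℂ) * ψ (update x m y) ∂lam3

private lemma R17_asm {ψ : (ι → T3) → ℂ} (hψ : MemLp ψ 2 (piN ι)) (m : ι) :
    AEStronglyMeasurable (fun q : (ι → T3) × T3 => ψ (update q.1 m q.2))
      ((piN ι).prod lam3) :=
  hψ.1.comp_measurePreserving (mp_upd lam3 m)

private lemma R17_Kint {K : T3 → ℝ} (hK : BM K) (z : T3) :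
    Integrable (fun y => K (z - y)) lam3 :=
  (hK.comp (measurable_const.sub measurable_id)).integrable _

private lemma R17_K1 {K : T3 → ℝ} (h1 : ∫ y, K y ∂lam3 = 1) (z : T3) :
    ∫ y, K (z - y) ∂lam3 = 1 := by
  rw [integral_sub_left_eq_self (fun y => K y) lam3 z, h1]

private lemma R17_main {K : T3 → ℝ} (hK : BM K) (hK0 : ∀ y, 0 ≤ K y) (h1 : ∫ y, K y ∂lam3 = 1)
    {ψ : (ι → T3) → ℂ} (hψ : MemLp ψ 2 (piN ι)) (m : ι) :
    ∀ᵐ x ∂(piN ι), ‖R17_C K m ψ x‖ ^ 2 ≤ ∫ y, K (x m - y) * ‖ψ (update x m y)‖ ^ 2 ∂lam3 := by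
  have h := (R17_int' hK hψ m).prod_right_ae
  have h' := (R17_asm hψ m).prodMk_left
  filter_upwards [h, h'] with x hx hx'
  exact R17_cs (fun y => hK0 _) (R17_Kint hK _) (R17_K1 h1 _) hx hx'

private lemma R17_Casm {K : T3 → ℝ} (hK : BM K) {ψ : (ι → T3) → ℂ} (hψ : MemLp ψ 2 (piN ι))
    (m : ι) : AEStronglyMeasurable (R17_C K m ψ) (piN ι) := by
  have h2 : AEStronglyMeasurable (fun q : (ι → T3) × T3 => ((K (q.1 m - q.2) : ℝ) : ℂ))
      ((piN ι).prod lam3) :=
    (Complex.measurable_ofReal.comp (hK.meas.comp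
      (((measurable_pi_apply m).comp measurable_fst).sub measurable_snd))).aestronglyMeasurable
  exact (h2.mul (R17_asm hψ m)).integral_prod_right'

private lemma R17_memLp {K : T3 → ℝ} (hK : BM K) (hK0 : ∀ y, 0 ≤ K y)
    (h1 : ∫ y, K y ∂lam3 = 1) {ψ : (ι → T3) → ℂ} (hψ : MemLp ψ 2 (piN ι)) (m : ι) :
    MemLp (R17_C K m ψ) 2 (piN ι) := by
  have hm := R17_Casm hK hψ m
  rw [memLp_two_iff_integrable_sq_norm hm]
  have h := (R17_int' hK hψ m).integral_prod_left
  refine h.mono' (hm.norm.pow 2) ?_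
  filter_upwards [R17_main hK hK0 h1 hψ m] with x hx
  rw [Real.norm_of_nonneg (sq_nonneg _)]
  exact hx

private lemma R17_chN (k : ι → Fin 3 → ℤ) (m : ι) (x : ι → T3) (y : T3) :
    chN k (update x m y) = chN k x * ch (k m) (y - x m) := by
  have e : update x m y = x + Pi.single m (y - x m) := by
    ext1 i
    by_cases hi : i = m
    · subst hi
      simp
    · simp [hi]
  rw [e, chN_add_arg, chN_single]

private lemma R17_fcK {K : T3 → ℝ} (hK : BM K) {ψ : (ι → T3) → ℂ} (hψ : MemLp ψ 2 (piN ι))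
    (m : ι) (k : ι → Fin 3 → ℤ) :
    fc (R17_C K m ψ) k = fc3 (fun x => (K x : ℂ)) (k m) * fc ψ k := by
  have hcm : Measurable (fun x => conj (chN k x)) :=
    (Complex.continuous_conj.comp (chN_continuous k)).measurable
  have hG : Integrable (fun q : (ι → T3) × T3 =>
      (conj (chN k (update q.1 m q.2)) * (K (q.2 - q.1 m) : ℂ)) * ψ q.1)
      ((piN ι).prod lam3) := by
    have h0 : Integrable (fun q : (ι → T3) × T3 => ψ q.1) ((piN ι).prod lam3) :=
      (hψ.integrable one_le_two).comp_fst _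
    obtain ⟨C, hC0, hC⟩ := hK.exists_nonneg_bound
    refine h0.bdd_mul (c := C) ?_ (Eventually.of_forall fun q => ?_)
    · refine Measurable.aestronglyMeasurable ?_
      exact (hcm.comp (measurable_upd m)).mul (Complex.measurable_ofReal.comp
        (hK.meas.comp (measurable_snd.sub ((measurable_pi_apply m).comp measurable_fst))))
    · rw [norm_mul, RCLike.norm_conj, chN_norm, one_mul, Complex.norm_real]
      exact hC _
  have hG' := (mp_swap lam3 m).integrable_comp_of_integrable hG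
  have e1 : fc (R17_C K m ψ) k = ∫ q, (fun q : (ι → T3) × T3 =>
      (conj (chN k (update q.1 m q.2)) * (K (q.2 - q.1 m) : ℂ)) * ψ q.1)
      (update q.1 m q.2, q.1 m) ∂((piN ι).prod lam3) := by
    refine Eq.trans ?_ (integral_prod _ hG').symm
    unfold fc
    refine integral_congr_ae (Eventually.of_forall fun x => ?_)
    simp only [R17_C]
    rw [← integral_const_mul]
    refine integral_congr_ae (Eventually.of_forall fun y => ?_)
    simp only [comp_apply, update_self, update_idem, update_eq_self]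
    ring
  rw [e1, mp_integral (mp_swap lam3 m) hG.aestronglyMeasurable, integral_prod _ hG]
  unfold fc
  rw [← integral_const_mul]
  refine integral_congr_ae (Eventually.of_forall fun x => ?_)
  simp only [R17_chN]
  have e2 : ∀ y : T3, conj (chN k x * ch (k m) (y - x m)) * (K (y - x m) : ℂ) * ψ x
      = (conj (chN k x) * ψ x) * (fun z => conj (ch (k m) z) * (K z : ℂ)) (y - x m) := by
    intro y
    simp only [map_mul]
    ring
  simp_rw [e2]
  rw [integral_const_mul, integral_sub_right_eq_self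
    (fun z => conj (ch (k m) z) * (K z : ℂ)) (x m)]
  unfold fc3
  ring

/-- the Fourier coefficients of the kernel are real -/
private lemma R17_kh {K : T3 → ℝ} (hK : Ker K) (p : Fin 3 → ℤ) :
    fc3 (fun x => (K x : ℂ)) p = ((kh K p : ℝ) : ℂ) := by
  have hI : Integrable (fun x => conj (ch p x) * (K x : ℂ)) lam3 := by
    have h0 : Integrable (fun x => (K x : ℂ)) lam3 := (hK.bm.integrable lam3).ofReal
    refine h0.bdd_mul (c := 1)
      ((Complex.continuous_conj.comp (ch_continuous p)).measurable.aestronglyMeasurable)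
      (Eventually.of_forall fun x => ?_)
    rw [RCLike.norm_conj, ch_norm]
  have e1 : conj (fc3 (fun x => (K x : ℂ)) p) = fc3 (fun x => (K x : ℂ)) p := by
    unfold fc3
    rw [← integral_conj, ← integral_neg_eq_self (fun x => conj (ch p x) * (K x : ℂ)) lam3]
    refine integral_congr_ae (Eventually.of_forall fun x => ?_)
    simp only
    rw [ch_neg_arg, hK.even, Complex.conj_conj, map_mul, Complex.conj_conj, Complex.conj_ofReal]
  have e2 : (fc3 (fun x => (K x : ℂ)) p).re = kh K p := by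
    unfold fc3 kh
    have h := integral_re hI
    simp only [RCLike.re_eq_complex_re] at h
    rw [← h]
    refine integral_congr_ae (Eventually.of_forall fun x => ?_)
    simp only [Complex.mul_re, Complex.conj_re, Complex.conj_im, Complex.ofReal_re,
      Complex.ofReal_im]
    ring
  rw [← e2]
  exact (Complex.conj_eq_iff_re.1 e1).symm

private lemma R17_sum {K : T3 → ℝ} (hK : Ker K) {f : (ι → T3) → ℂ} (hf : MemLp f 2 (piN ι)) (i : ι) :
    HasSum (fun k : ι → Fin 3 → ℤ => kh K (k i) * ‖fc f k‖ ^ 2)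
      (∫ q, kq K i q * LG.P03_re i f q ∂((piN ι).prod lam3)) := by
  have hA := R17_memLp hK.bm hK.nonneg hK.int hf i
  have hP := Complex.hasSum_re (parseval hf hA)
  have e : (fun k : ι → Fin 3 → ℤ => (conj (fc f k) * fc (R17_C K i f) k).re)
      = fun k => kh K (k i) * ‖fc f k‖ ^ 2 := by
    funext k
    rw [R17_fcK hK.bm hf, R17_kh hK]
    have e3 : conj (fc f k) * (((kh K (k i) : ℝ) : ℂ) * fc f k)
        = ((kh K (k i) * ‖fc f k‖ ^ 2 : ℝ) : ℂ) := by
      have e4 : fc f k * conj (fc f k) = ((‖fc f k‖ ^ 2 : ℝ) : ℂ) := by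
        rw [Complex.mul_conj, Complex.normSq_eq_norm_sq]
      calc conj (fc f k) * (((kh K (k i) : ℝ) : ℂ) * fc f k)
          = ((kh K (k i) : ℝ) : ℂ) * (fc f k * conj (fc f k)) := by ring
        _ = _ := by rw [e4, ← Complex.ofReal_mul]
    rw [e3, Complex.ofReal_re]
  rw [e] at hP
  have h0 : Integrable (fun q : (ι → T3) × T3 => conj (f q.1) * f (update q.1 i q.2))
      ((piN ι).prod lam3) := by
    have h1 := LG.P03_fst_memLp hf
    have h2 := LG.P03_upd_memLp hf i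
    have hc : MemLp (fun q : (ι → T3) × T3 => conj (f q.1)) 2 ((piN ι).prod lam3) := by
      refine h1.of_le_mul (c := 1) (Complex.continuous_conj.comp_aestronglyMeasurable h1.1) ?_
      exact Eventually.of_forall fun x => by simp
    exact MemLp.integrable_mul hc h2
  have hC : Integrable (fun q : (ι → T3) × T3 =>
      conj (f q.1) * ((K (q.1 i - q.2) : ℂ) * f (update q.1 i q.2))) ((piN ι).prod lam3) := by
    obtain ⟨C, hC0, hC⟩ := hK.bm.exists_nonneg_bound
    have h3 := h0.bdd_mul (c := C) (f := fun q : (ι → T3) × T3 => ((K (q.1 i - q.2) : ℝ) : ℂ))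
      (Complex.measurable_ofReal.comp (hK.bm.meas.comp
        (((measurable_pi_apply i).comp measurable_fst).sub measurable_snd))).aestronglyMeasurable
      (Eventually.of_forall fun q => by rw [Complex.norm_real]; exact hC _)
    refine h3.congr (Eventually.of_forall fun q => ?_)
    simp only
    ring
  have eC : ∫ q, conj (f q.1) * ((K (q.1 i - q.2) : ℂ) * f (update q.1 i q.2))
        ∂((piN ι).prod lam3)
      = ∫ x, conj (f x) * R17_C K i f x ∂(piN ι) := by
    rw [integral_prod _ hC]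
    refine integral_congr_ae (Eventually.of_forall fun x => ?_)
    simp only [R17_C]
    rw [integral_const_mul]
  have eD : ∫ q, kq K i q * LG.P03_re i f q ∂((piN ι).prod lam3)
      = (∫ x, conj (f x) * R17_C K i f x ∂(piN ι)).re := by
    have h := integral_re hC
    simp only [RCLike.re_eq_complex_re] at h
    rw [← eC, ← h]
    refine integral_congr_ae (Eventually.of_forall fun q => ?_)
    simp only [kq, LG.P03_re]
    rw [← Complex.re_ofReal_mul]
    congr 1
    ring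
  rw [eD]
  exact hP

theorem rk_fourier {K : T3 → ℝ} (hK : Ker K) {ε : ℝ} (hε : ε = 1 ∨ ε = -1) {f : (ι → T3) → ℂ}
    (hf : MemLp f 2 (piN ι)) (i : ι) :
    rk K ε i f = ∑' k : ι → Fin 3 → ℤ, (1 - ε * kh K (k i)) * ‖fc f k‖ ^ 2 := by
  rw [rk_two hK hε hf, ← ((parseval_sq hf).sub ((R17_sum hK hf i).mul_left ε)).tsum_eq]
  refine tsum_congr fun k => ?_
  ring

private lemma R17_w {K : T3 → ℝ} (hK : Ker K) {ε : ℝ} (hε : ε = 1 ∨ ε = -1) (p : Fin 3 → ℤ) :
    0 ≤ 1 - ε * kh K p ∧ 1 - ε * kh K p ≤ 2 := by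
  have h := abs_le.1 (kh_abs hK p)
  rcases hε with rfl | rfl
  · constructor <;> linarith [h.1, h.2]
  · constructor <;> linarith [h.1, h.2]

private lemma R17_tW {N : ℕ} {K : T3 → ℝ} (hK : Ker K) {ε : ℝ} (hε : ε = 1 ∨ ε = -1) {Lam : ℝ}
    (hL : 0 ≤ Lam) {φ : (Fin N → T3) → ℂ} (hφ : MemLp φ 2 (piN (Fin N))) :
    M.tW (fun k => Lam * ∑ i, (1 - ε * kh K (k i))) φ = ENNReal.ofReal Lam * ∑ i, gk K ε i φ := by
  have hs : Summable fun k : Fin N → Fin 3 → ℤ => ‖fc φ k‖ ^ 2 := (parseval_sq hφ).summable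
  have hi : ∀ i : Fin N, Summable fun k : Fin N → Fin 3 → ℤ => (1 - ε * kh K (k i)) * ‖fc φ k‖ ^ 2 := by
    intro i
    refine Summable.of_nonneg_of_le (fun k => mul_nonneg (R17_w hK hε _).1 (sq_nonneg _))
      (fun k => mul_le_mul_of_nonneg_right (R17_w hK hε _).2 (sq_nonneg _)) (hs.mul_left 2)
  have e : (fun k : Fin N → Fin 3 → ℤ => (Lam * ∑ i, (1 - ε * kh K (k i))) * ‖fc φ k‖ ^ 2)
      = fun k => Lam * ∑ i, (1 - ε * kh K (k i)) * ‖fc φ k‖ ^ 2 := by
    funext k
    rw [mul_assoc, Finset.sum_mul]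
  have h0 : ∀ k : Fin N → Fin 3 → ℤ, 0 ≤ (Lam * ∑ i, (1 - ε * kh K (k i))) * ‖fc φ k‖ ^ 2 :=
    fun k => mul_nonneg (mul_nonneg hL (Finset.sum_nonneg fun i _ => (R17_w hK hε _).1))
      (sq_nonneg _)
  have hsum : Summable fun k : Fin N → Fin 3 → ℤ =>
      (Lam * ∑ i, (1 - ε * kh K (k i))) * ‖fc φ k‖ ^ 2 := by
    rw [e]
    exact (summable_sum fun i _ => hi i).mul_left Lam
  unfold M.tW
  rw [← ENNReal.ofReal_tsum_of_nonneg h0 hsum, e, tsum_mul_left,
    Summable.tsum_finsetSum fun i _ => hi i, ENNReal.ofReal_mul hL]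
  congr 1
  rw [ENNReal.ofReal_sum_of_nonneg fun i _ => tsum_nonneg fun k =>
    mul_nonneg (R17_w hK hε _).1 (sq_nonneg _)]
  refine Finset.sum_congr rfl fun i _ => ?_
  rw [gk_eq hK ε hφ i, rk_fourier hK hε hφ i]

/-- **Existence of minimisers with a jump term on the torus.** -/
theorem tk_statement (N : ℕ) (R₀ Lam : ℝ) (𝒱 : T3 → ℝ≥0∞) {K : T3 → ℝ} (hK : Ker K) {ε : ℝ}
    (hε : ε = 1 ∨ ε = -1)
    (hV : AEMeasurable (fun x : Fin N → T3 => ∑ i, ∑ j ∈ Finset.Ioi i, 𝒱 (x i - x j)) (piN (Fin N)))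
    (hL : 0 ≤ Lam) (h : ∃ φ : (Fin N → T3) → ℂ, tAdm R₀ 𝒱 φ) :
    ∃ ψ : (Fin N → T3) → ℂ, tAdm R₀ 𝒱 ψ ∧ ∀ φ : (Fin N → T3) → ℂ, tAdm R₀ 𝒱 φ →
      tE 𝒱 ψ + ENNReal.ofReal Lam * ∑ i, gk K ε i ψ
        ≤ tE 𝒱 φ + ENNReal.ofReal Lam * ∑ i, gk K ε i φ := by
  have h0 : ∀ k : Fin N → Fin 3 → ℤ, 0 ≤ Lam * ∑ i, (1 - ε * kh K (k i)) := fun k =>
    mul_nonneg hL (Finset.sum_nonneg fun i _ => (R17_w hK hε _).1)
  have hB : ∃ B : ℝ, ∀ k : Fin N → Fin 3 → ℤ, Lam * ∑ i, (1 - ε * kh K (k i)) ≤ B := by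
    refine ⟨Lam * ∑ i : Fin N, (2 : ℝ), fun k => mul_le_mul_of_nonneg_left ?_ hL⟩
    exact Finset.sum_le_sum fun i _ => (R17_w hK hε _).2
  obtain ⟨ψ, hψ, hmin⟩ := M.Q07_ground h0 hB hV h
  refine ⟨ψ, hψ, fun φ hφ => ?_⟩
  have h1 := hmin φ hφ
  rw [R17_tW hK hε hL hψ.1, R17_tW hK hε hL hφ.1] at h1
  exact h1

end Pool.Agent.Lib.MP_4952d6_mp.LK
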