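import Pool.Agent.Lib.MP_4952d6_mp.Pr.R04
import Pool.Agent.Lib.MP_4952d6_mp.Pr.R05
import Pool.Agent.Lib.MP_4952d6_mp.Pq.P11
import Pool.Agent.Lib.MP_4952d6_mp.Pq.P11

/-!
# Pr.R18 (leaf J2): the chemical potential with a jump term

Copy of Pq/P11. Changes: the new particle costs `rk K ε 0 Φ ≤ 2 ∫ ‖Φ‖² = 2 m` (`rk_le`); old particles: `rk_mG`, `bk j.succ (ext χ) (Az f ^ 2) = bk j χ (GA f)`,
`ck ≤ dk ≤ 2 ∫ (1 - f²) ‖χ‖²` (`P11_point`; the `y`-integral of `1 - f(rr (y - x j))²` and of `1 - f(rr (y - w))²` is `∫ (1 - f²)`, then `∫ w, K (x j - w) = 1`). Together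
`e m + √(δ C) + n c + Lam (2 m + 1)`, divided by `m ≥ 1/2`: `2 n c + 4 Lam`.
-/

set_option autoImplicit false
set_option linter.unusedSectionVars false
set_option linter.unusedVariables false
open MeasureTheory Function Filter Topology Set ComplexConjugate
open scoped ENNReal

namespace Pool.Agent.Lib.MP_4952d6_mp.LK

open LA

variable {ι : Type*} [Fintype ι] [DecidableEq ι]

open LG

theorem R18_pair {n : ℕ} {χ : (Fin n → T3) → ℂ} (hχ : MemLp χ 2 (piN (Fin n))) {K : T3 → ℝ}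
    (hK : Ker K) (ε : ℝ) (j : Fin n) :
    Integrable (fun q : (Fin n → T3) × T3 =>
      K (q.1 j - q.2) * (‖χ q.1‖ ^ 2 - ε * (conj (χ q.1) * χ (update q.1 j q.2)).re))
      ((piN (Fin n)).prod lam3) := by
  have h1 : MemLp (fun q : (Fin n → T3) × T3 => χ q.1) 2 ((piN (Fin n)).prod lam3) :=
    hχ.comp_measurePreserving measurePreserving_fst
  have h2 : Integrable (fun q : (Fin n → T3) × T3 =>
      ‖χ q.1‖ ^ 2 - ε * (conj (χ q.1) * χ (update q.1 j q.2)).re) ((piN (Fin n)).prod lam3) :=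
    (int_sq h1).sub ((P03_re_int hχ j).const_mul ε)
  exact P03_mul h2 (kq_bm hK j)

theorem R18_bk {n : ℕ} {b : ℝ} {f g k1 : ℝ → ℝ} (hJ : JData b f g k1) {χ : (Fin n → T3) → ℂ}
    (hχ : MemLp χ 2 (piN (Fin n))) {K : T3 → ℝ} (hK : Ker K) (ε : ℝ) (j : Fin n) :
    bk K ε j.succ (ext χ) (fun z => Az f z ^ 2) = bk K ε j χ (GA f) := by
  obtain ⟨H, hH⟩ : ∃ H : (Fin n → T3) → ℝ, H = fun x => ∫ w,
      K (x j - w) * (‖χ x‖ ^ 2 - ε * (conj (χ x) * χ (update x j w)).re) ∂lam3 := ⟨_, rfl⟩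
  have hHi : Integrable H (piN (Fin n)) := by
    rw [hH]
    exact (R18_pair hχ hK ε j).integral_prod_left
  obtain ⟨hA, -, -⟩ := AA_bm (n := n) hJ
  have hFi : Integrable (fun q : T3 × (Fin n → T3) => AA f q.1 q.2 ^ 2 * H q.2)
      (lam3.prod (piN (Fin n))) := by
    obtain ⟨C, hC0, hC⟩ := (hA.pow 2).exists_nonneg_bound
    have h1 : Integrable (fun q : T3 × (Fin n → T3) => H q.2) (lam3.prod (piN (Fin n))) :=
      measurePreserving_snd.integrable_comp_of_integrable hHi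
    exact h1.bdd_mul (hA.pow 2).1.aestronglyMeasurable (c := C)
      (Eventually.of_forall fun x => hC x)
  have h1 : bk K ε j.succ (ext χ) (fun z => Az f z ^ 2)
      = ∫ z, (fun q : T3 × (Fin n → T3) => AA f q.1 q.2 ^ 2 * H q.2) (z 0, tl z)
        ∂(piN (Fin (n + 1))) := by
    unfold bk
    refine integral_congr_ae (Eventually.of_forall fun z => ?_)
    dsimp only
    rw [integral_const_mul, hH]
    unfold Az
    congr 1
    refine integral_congr_ae (Eventually.of_forall fun w => ?_)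
    dsimp only
    unfold LA.ext
    rw [P11_tl_upd]
    rfl
  rw [h1, P11_int hFi]
  unfold bk
  refine integral_congr_ae (Eventually.of_forall fun x => ?_)
  dsimp only
  rw [integral_mul_const, integral_const_mul, hH]
  rfl

theorem R18_dk {n : ℕ} {b : ℝ} {f g k1 : ℝ → ℝ} (hJ : JData b f g k1) {χ : (Fin n → T3) → ℂ}
    (hχ : MemLp χ 2 (piN (Fin n))) {K : T3 → ℝ} (hK : Ker K) (j : Fin n) :
    dk K j.succ (ext χ) (Az f)
      ≤ 2 * (∫ y, (1 - f (rr y) ^ 2) ∂lam3) * ∫ x, ‖χ x‖ ^ 2 ∂(piN (Fin n)) := by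
  obtain ⟨hA, -, -⟩ := AA_bm (n := n) hJ
  obtain ⟨I, hI⟩ : ∃ I : ℝ, I = ∫ y, (1 - f (rr y) ^ 2) ∂lam3 := ⟨_, rfl⟩
  obtain ⟨D, hD⟩ : ∃ D : T3 × (Fin n → T3) → ℝ, D = fun q => ∫ w,
      K (q.2 j - w) * (AA f q.1 q.2 - AA f q.1 (update q.2 j w)) ^ 2 ∂lam3 := ⟨_, rfl⟩
  have hupd : Measurable (fun p : (T3 × (Fin n → T3)) × T3 =>
      (p.1.1, update p.1.2 j p.2)) := by
    have h1 : Measurable (fun q : (Fin n → T3) × T3 => update q.1 j q.2) :=
      (LB.mp_upd (ι := Fin n) j).measurable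
    have h2 : Measurable (fun p : (T3 × (Fin n → T3)) × T3 => (p.1.2, p.2)) :=
      (measurable_snd.comp measurable_fst).prodMk measurable_snd
    exact (measurable_fst.comp measurable_fst).prodMk (h1.comp h2)
  have hKp : BM (fun p : (T3 × (Fin n → T3)) × T3 => K (p.1.2 j - p.2)) :=
    (kq_bm hK j).comp (φ := fun p : (T3 × (Fin n → T3)) × T3 => (p.1.2, p.2))
      ((measurable_snd.comp measurable_fst).prodMk measurable_snd)
  have hU : BM (fun p : (T3 × (Fin n → T3)) × T3 =>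
      K (p.1.2 j - p.2) * (AA f p.1.1 p.1.2 - AA f p.1.1 (update p.1.2 j p.2)) ^ 2) :=
    hKp.mul (((hA.comp (φ := fun p : (T3 × (Fin n → T3)) × T3 => p.1) measurable_fst).sub
      (hA.comp hupd)).pow 2)
  have hDb : BM D := by
    rw [hD]
    exact BM.integral_right (f := fun (q : T3 × (Fin n → T3)) (w : T3) =>
      K (q.2 j - w) * (AA f q.1 q.2 - AA f q.1 (update q.2 j w)) ^ 2) hU lam3
  have hfb : BM (fun y : T3 => 1 - f (rr y) ^ 2) := (BM.const 1).sub (hJ.f_bm.pow 2)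
  have hms : ∀ w : T3, Measurable (fun y : T3 => y - w) := fun w =>
    measurable_sub' measurable_id measurable_const
  have hms' : ∀ y : T3, Measurable (fun w : T3 => y - w) := fun y =>
    measurable_sub' measurable_const measurable_id
  have hpair : ∀ x : Fin n → T3, BM (fun p : T3 × T3 => K (x j - p.2) * (1 - f (rr (p.1 - p.2)) ^ 2)) := by
    intro x
    exact (hK.bm.comp (φ := fun p : T3 × T3 => x j - p.2) ((hms' (x j)).comp measurable_snd)).mul
      (hfb.comp (φ := fun p : T3 × T3 => p.1 - p.2)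
        (measurable_sub' measurable_fst measurable_snd))
  have hM : ∀ x : Fin n → T3, BM (fun y : T3 => ∫ w, K (x j - w) * (1 - f (rr (y - w)) ^ 2) ∂lam3) := by
    intro x
    exact BM.integral_right (f := fun (y : T3) (w : T3) => K (x j - w) * (1 - f (rr (y - w)) ^ 2))
      (hpair x) lam3
  -- the inner integral
  have hD1 : ∀ (y : T3) (x : Fin n → T3), D (y, x) ≤ 2 * (1 - f (rr (y - x j)) ^ 2)
      + 2 * ∫ w, K (x j - w) * (1 - f (rr (y - w)) ^ 2) ∂lam3 := by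
    intro y x
    have hb : BM (fun w : T3 => K (x j - w) * (1 - f (rr (y - w)) ^ 2)) :=
      (hK.bm.comp (hms' (x j))).mul (hfb.comp (hms' y))
    have hs : BM (fun w : T3 => K (x j - w) * (AA f y x - AA f y (update x j w)) ^ 2) :=
      hU.comp (φ := fun w : T3 => ((y, x), w)) (measurable_const.prodMk measurable_id)
    have hc : BM (fun w : T3 => 2 * (1 - f (rr (y - x j)) ^ 2) * K (x j - w)) :=
      (hK.bm.comp (hms' (x j))).const_mul _
    have h1 : ∫ w, K (x j - w) * (AA f y x - AA f y (update x j w)) ^ 2 ∂lam3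
        ≤ ∫ w, (2 * (1 - f (rr (y - x j)) ^ 2) * K (x j - w)
          + 2 * (K (x j - w) * (1 - f (rr (y - w)) ^ 2))) ∂lam3 := by
      refine integral_mono (hs.integrable _) ((hc.add (hb.const_mul 2)).integrable _) fun w => ?_
      dsimp only
      have h4 := mul_le_mul_of_nonneg_left (P11_point hJ j y w x) (hK.nonneg (x j - w))
      refine h4.trans (le_of_eq ?_)
      ring
    have h2 : ∫ w, (2 * (1 - f (rr (y - x j)) ^ 2) * K (x j - w)
          + 2 * (K (x j - w) * (1 - f (rr (y - w)) ^ 2))) ∂lam3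
        = 2 * (1 - f (rr (y - x j)) ^ 2)
          + 2 * ∫ w, K (x j - w) * (1 - f (rr (y - w)) ^ 2) ∂lam3 := by
      rw [integral_add (hc.integrable _) ((hb.const_mul 2).integrable _), integral_const_mul,
        integral_const_mul, kq_int hK, mul_one]
    rw [hD]
    exact h1.trans (le_of_eq h2)
  have hD2 : ∀ x : Fin n → T3, ∫ y, D (y, x) ∂lam3 ≤ 4 * I := by
    intro x
    have hb : BM (fun y : T3 => 1 - f (rr (y - x j)) ^ 2) := hfb.comp (hms (x j))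
    have h1 : ∫ y, D (y, x) ∂lam3 ≤ ∫ y, (2 * (1 - f (rr (y - x j)) ^ 2)
        + 2 * ∫ w, K (x j - w) * (1 - f (rr (y - w)) ^ 2) ∂lam3) ∂lam3 :=
      integral_mono ((B3_slice hDb x).integrable _)
        (((hb.const_mul 2).add ((hM x).const_mul 2)).integrable _) fun y => hD1 y x
    have h3 : ∫ y, 2 * (1 - f (rr (y - x j)) ^ 2) ∂lam3 = 2 * I := by
      rw [integral_const_mul, integral_shift (fun y => 1 - f (rr y) ^ 2) (x j), hI]
    have h4 : ∫ y, 2 * ∫ w, K (x j - w) * (1 - f (rr (y - w)) ^ 2) ∂lam3 ∂lam3 = 2 * I := by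
      rw [integral_const_mul]
      have h5 : ∫ y, ∫ w, K (x j - w) * (1 - f (rr (y - w)) ^ 2) ∂lam3 ∂lam3
          = ∫ w, ∫ y, K (x j - w) * (1 - f (rr (y - w)) ^ 2) ∂lam3 ∂lam3 :=
        integral_integral_swap ((hpair x).integrable _)
      have h6 : ∀ w : T3, ∫ y, K (x j - w) * (1 - f (rr (y - w)) ^ 2) ∂lam3 = I * K (x j - w) := by
        intro w
        rw [integral_const_mul, integral_shift (fun y => 1 - f (rr y) ^ 2) w, hI, mul_comm]
      rw [h5, integral_congr_ae (Eventually.of_forall h6), integral_const_mul, kq_int hK, mul_one]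
    have h2 : ∫ y, (2 * (1 - f (rr (y - x j)) ^ 2)
        + 2 * ∫ w, K (x j - w) * (1 - f (rr (y - w)) ^ 2) ∂lam3) ∂lam3 = 4 * I := by
      rw [integral_add ((hb.const_mul 2).integrable _) (((hM x).const_mul 2).integrable _), h3, h4]
      ring
    exact h1.trans (le_of_eq h2)
  have hχi := int_sq hχ
  have hFi : Integrable (fun q : T3 × (Fin n → T3) => D q * ‖χ q.2‖ ^ 2)
      (lam3.prod (piN (Fin n))) := by
    obtain ⟨C, hC0, hC⟩ := hDb.exists_nonneg_bound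
    have h1 : Integrable (fun q : T3 × (Fin n → T3) => ‖χ q.2‖ ^ 2) (lam3.prod (piN (Fin n))) :=
      measurePreserving_snd.integrable_comp_of_integrable hχi
    exact h1.bdd_mul hDb.1.aestronglyMeasurable (c := C) (Eventually.of_forall fun x => hC x)
  have h1 : dk K j.succ (ext χ) (Az f)
      = 1 / 2 * ∫ z, (fun q : T3 × (Fin n → T3) => D q * ‖χ q.2‖ ^ 2) (z 0, tl z)
        ∂(piN (Fin (n + 1))) := by
    unfold dk
    congr 1
    refine integral_congr_ae (Eventually.of_forall fun z => ?_)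
    dsimp only
    rw [hD]
    dsimp only
    rw [← integral_mul_const]
    refine integral_congr_ae (Eventually.of_forall fun w => ?_)
    dsimp only
    unfold LA.ext Az
    rw [P11_tl_upd, P11_zero_upd]
    have h5 : tl z j = z j.succ := rfl
    rw [h5]
    ring
  rw [h1, P11_int hFi]
  have h2 : ∫ x, ∫ y, D (y, x) * ‖χ x‖ ^ 2 ∂lam3 ∂(piN (Fin n))
      ≤ ∫ x, 4 * I * ‖χ x‖ ^ 2 ∂(piN (Fin n)) := by
    refine integral_mono hFi.integral_prod_right (hχi.const_mul _) fun x => ?_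
    dsimp only
    rw [integral_mul_const]
    exact mul_le_mul_of_nonneg_right (hD2 x) (sq_nonneg _)
  rw [integral_const_mul] at h2
  dsimp only
  rw [← hI]
  linarith

/-- jump term of an old particle in the trial state -/
theorem R18_rk {n : ℕ} {b : ℝ} {f g k1 : ℝ → ℝ} (hJ : JData b f g k1) {χ : (Fin n → T3) → ℂ}
    (hχ : MemLp χ 2 (piN (Fin n))) {K : T3 → ℝ} (hK : Ker K) {ε : ℝ} (hε : ε = 1 ∨ ε = -1)
    (j : Fin n) :
    rk K ε j.succ (mG (Az f) (ext χ)) ≤ bk K ε j χ (GA f)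
      + 2 * (∫ y, (1 - f (rr y) ^ 2) ∂lam3) * ∫ x, ‖χ x‖ ^ 2 ∂(piN (Fin n)) := by
  have h1 := rk_mG hK hε (P11_ext_mem hχ) j.succ (P11_Az_bm (n := n) hJ)
  have h2 := ck_le hK hε (P11_ext_mem hχ) j.succ (P11_Az_bm (n := n) hJ)
  have h3 := R18_dk hJ hχ hK j
  have h4 := R18_bk hJ hχ hK ε j
  rw [h1, h4]
  linarith

theorem chemK {n : ℕ} {R₀ Lam : ℝ} {𝒱 : T3 → ℝ≥0∞} (hv : AEMeasurable 𝒱 lam3)
    (hev : ∀ y, 𝒱 (-y) = 𝒱 y) (hLam : 0 ≤ Lam) {K : T3 → ℝ} (hK : Ker K) {ε : ℝ}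
    (hε : ε = 1 ∨ ε = -1) {b : ℝ} {f g k1 : ℝ → ℝ} (hJ : JData b f g k1)
    (hf0 : ∀ r, 0 ≤ r → r < R₀ → f r = 0) {c : ℝ} (hc0 : 0 ≤ c)
    (hc : ∫⁻ y, (ENNReal.ofReal (g (rr y) ^ 2 * rr y ^ 2 + |JData.eff f g k1 (rr y)|)
      + 𝒱 y * ENNReal.ofReal (f (rr y) ^ 2)) ∂lam3 ≤ ENNReal.ofReal c)
    (hn : (n : ℝ) * ∫ y, (1 - f (rr y) ^ 2) ∂lam3 ≤ 1 / 2) :
    E0K R₀ 𝒱 K ε Lam (n + 1) ≤ E0K R₀ 𝒱 K ε Lam n + ENNReal.ofReal (2 * n * c + 4 * Lam) := by
  by_cases htop : E0K R₀ 𝒱 K ε Lam n = ⊤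
  · rw [htop, top_add]
    exact le_top
  obtain ⟨e, he⟩ : ∃ e : ℝ, e = (E0K R₀ 𝒱 K ε Lam n).toReal := ⟨_, rfl⟩
  have he0 : 0 ≤ e := by
    rw [he]
    exact ENNReal.toReal_nonneg
  have heE : ENNReal.ofReal e = E0K R₀ 𝒱 K ε Lam n := by
    rw [he]
    exact ENNReal.ofReal_toReal htop
  have hmin : ∀ (φ : (Fin n → T3) → ℂ) (f' : Fin n → Fin 3 → (Fin n → T3) → ℂ), HG φ f' →
      Core R₀ φ → ENNReal.ofReal e * ∫⁻ x, ‖φ x‖ₑ ^ 2 ∂(piN (Fin n))
        ≤ eS 𝒱 Finset.univ φ f' + ENNReal.ofReal Lam * ∑ i, gk K ε i φ := by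
    intro φ f' h1 h2
    rw [heE]
    exact E0K_le_card hev hK ε (Fintype.card_fin n) h1 h2
  obtain ⟨hA, hAj, hA0⟩ := AA_bm (n := n) hJ
  have hG : BM (GA f : (Fin n → T3) → ℝ) := B3_avg (hA.pow 2)
  obtain ⟨Kb, hKb0, hKb⟩ : ∃ Kb : ℝ, 0 ≤ Kb ∧ ∀ (j : Fin n) (α : Fin 3) (x : Fin n → T3),
      |GA' f g j α x| ≤ Kb := by
    have h1 : ∀ (j : Fin n) (α : Fin 3), ∃ C : ℝ, 0 ≤ C ∧ ∀ x, |GA' f g j α x| ≤ C := by
      intro j α
      have h2 : BM (fun q : T3 × (Fin n → T3) => 2 * AA f q.1 q.2 * AAj f g j α q.1 q.2) :=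
        (hA.const_mul 2).mul (hAj j α)
      have h3 : BM (GA' f g j α : (Fin n → T3) → ℝ) := B3_avg h2
      exact h3.exists_nonneg_bound
    choose C hC0 hC using h1
    refine ⟨∑ j, ∑ α, C j α, Finset.sum_nonneg fun j _ => Finset.sum_nonneg fun α _ => hC0 j α,
      fun j α x => (hC j α x).trans ?_⟩
    have h4 : C j α ≤ ∑ α, C j α :=
      Finset.single_le_sum (f := fun α => C j α) (fun α _ => hC0 j α) (Finset.mem_univ α)
    have h5 : ∑ α, C j α ≤ ∑ j, ∑ α, C j α :=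
      Finset.single_le_sum (f := fun j => ∑ α, C j α)
        (fun j _ => Finset.sum_nonneg fun α _ => hC0 j α) (Finset.mem_univ j)
    exact h4.trans h5
  obtain ⟨I, hI⟩ : ∃ I : ℝ, I = ∫ y, (1 - f (rr y) ^ 2) ∂lam3 := ⟨_, rfl⟩
  obtain ⟨C, hC⟩ : ∃ C : ℝ, C = 6 * n * Kb ^ 2 + 2 * (e + 1) + Lam * (n * 2) := ⟨_, rfl⟩
  have hC0 : 0 ≤ C := by
    rw [hC]
    positivity
  have key : ∀ δ : ℝ, 0 < δ → δ ≤ 1 →
      E0K R₀ 𝒱 K ε Lam (n + 1)
        ≤ ENNReal.ofReal (e + (2 * n * c + 4 * Lam) + 2 * Real.sqrt (δ * C)) := by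
    intro δ hδ hδ1
    have hlt : E0K R₀ 𝒱 K ε Lam n < E0K R₀ 𝒱 K ε Lam n + ENNReal.ofReal δ := by
      refine ENNReal.lt_add_right htop ?_
      rw [Ne, ENNReal.ofReal_eq_zero, not_le]
      exact hδ
    have hlt2 : (⨅ (φ : (Fin n → T3) → ℂ) (_ : tAdm R₀ 𝒱 φ),
        (tE 𝒱 φ + ENNReal.ofReal Lam * ∑ i, gk K ε i φ))
        < E0K R₀ 𝒱 K ε Lam n + ENNReal.ofReal δ := hlt
    obtain ⟨χ, hχ1⟩ := iInf_lt_iff.mp hlt2
    obtain ⟨hadm, hχ2⟩ := iInf_lt_iff.mp hχ1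
    obtain ⟨h, hFE⟩ := FE_of_tAdm hev hadm
    obtain ⟨hint, hrE, hrE0⟩ := rE_eq hv hFE.hg hFE.fin
    have hS : ∫ x, ‖χ x‖ ^ 2 ∂(piN (Fin n)) = 1 := hadm.2.1
    obtain ⟨q, hq⟩ : ∃ q : ℝ, q = ∑ i, rk K ε i χ := ⟨_, rfl⟩
    have hq0 : 0 ≤ q := by
      rw [hq]
      exact Finset.sum_nonneg fun i _ => rk_nonneg hK ε i χ
    have hgq : ∑ i, gk K ε i χ = ENNReal.ofReal q := by
      rw [hq, ENNReal.ofReal_sum_of_nonneg fun i _ => rk_nonneg hK ε i χ]
      exact Finset.sum_congr rfl fun i _ => gk_eq hK ε hFE.hg.mem i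
    have hr1 : rE 𝒱 Finset.univ χ h + Lam * q ≤ e + δ := by
      rw [tE_eq_eS hev hFE.hg, ← hrE, hgq, ← ENNReal.ofReal_mul hLam,
        ← ENNReal.ofReal_add hrE0 (mul_nonneg hLam hq0), ← heE,
        ← ENNReal.ofReal_add he0 hδ.le] at hχ2
      exact (ENNReal.ofReal_le_ofReal_iff (by linarith)).mp hχ2.le
    have hr2 : e ≤ rE 𝒱 Finset.univ χ h + Lam * q := by
      have h1 := hmin χ h hFE.hg hFE.core
      rw [lint_sq hFE.hg.mem, hS, ENNReal.ofReal_one, mul_one, ← hrE, hgq,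
        ← ENNReal.ofReal_mul hLam, ← ENNReal.ofReal_add hrE0 (mul_nonneg hLam hq0)] at h1
      exact (ENNReal.ofReal_le_ofReal_iff (add_nonneg hrE0 (mul_nonneg hLam hq0))).mp h1
    have hvar := var_csK hv hK hε hFE hLam (GA_WDN hJ) he0 hmin
    obtain ⟨m, hm⟩ : ∃ m : ℝ, m = ∫ x, GA f x * ‖χ x‖ ^ 2 ∂(piN (Fin n)) := ⟨_, rfl⟩
    obtain ⟨B, hBd⟩ : ∃ B : ℝ, B = ∑ i, bk K ε i χ (GA f) := ⟨_, rfl⟩
    rw [← hm, hS, mul_one, ← hq, ← hBd] at hvar
    have hbd := B4_bound hv hFE (fun x => (GA_bounds hJ x).1) (fun x => (GA_bounds hJ x).2.1)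
      hKb hS
    have hGi : Integrable (fun x => GA f x * ‖χ x‖ ^ 2) (piN (Fin n)) := by
      obtain ⟨D, hD0, hD⟩ := hG.exists_nonneg_bound
      exact (int_sq hFE.hg.mem).bdd_mul hG.1.aestronglyMeasurable (c := D)
        (Eventually.of_forall fun x => hD x)
    have hm2 : 1 / 2 ≤ m := by
      have h1 : ∫ x, (1 / 2 : ℝ) * ‖χ x‖ ^ 2 ∂(piN (Fin n)) ≤ m := by
        rw [hm]
        refine integral_mono ((int_sq hFE.hg.mem).const_mul _) hGi fun x => ?_
        dsimp only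
        refine mul_le_mul_of_nonneg_right ?_ (sq_nonneg _)
        have h2 := (GA_bounds hJ x).2.2
        linarith
      rwa [integral_const_mul, hS, mul_one] at h1
    have hG2 : 0 ≤ e * ∫ x, GA f x ^ 2 * ‖χ x‖ ^ 2 ∂(piN (Fin n)) :=
      mul_nonneg he0 (integral_nonneg fun x => mul_nonneg (sq_nonneg _) (sq_nonneg _))
    have hgap : Lam * ∑ i, rk K ε i (mG (GA f) χ) ≤ Lam * (n * 2) := by
      refine mul_le_mul_of_nonneg_left ?_ hLam
      have hmem : MemLp (mG (GA f) χ) 2 (piN (Fin n)) := (hFE.hg.mul (GA_WDN hJ)).mem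
      have h1 : ∀ i : Fin n, rk K ε i (mG (GA f) χ) ≤ 2 := by
        intro i
        refine (rk_le hK hε hmem i).trans ?_
        refine (mul_le_mul_of_nonneg_left (le_trans ?_ hS.le) (by norm_num)).trans
          (le_of_eq (mul_one 2))
        refine integral_mono (int_sq hmem) (int_sq hFE.hg.mem) fun x => ?_
        dsimp only
        unfold mG
        rw [norm_mul, Complex.norm_real, Real.norm_eq_abs, abs_of_nonneg (GA_bounds hJ x).1]
        exact pow_le_pow_left₀ (mul_nonneg (GA_bounds hJ x).1 (norm_nonneg _))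
          (mul_le_of_le_one_left (norm_nonneg _) (GA_bounds hJ x).2.1) 2
      refine (Finset.sum_le_sum fun i _ => h1 i).trans (le_of_eq ?_)
      simp
    have hqL : 0 ≤ Lam * q := mul_nonneg hLam hq0
    have hB : (bG 𝒱 χ h (GA f) (GA' f g) + Lam * B - e * m) ^ 2 ≤ δ * C := by
      refine hvar.trans ?_
      have h1 : rE 𝒱 Finset.univ (mG (GA f) χ) (mGg (GA f) (GA' f g) χ h)
          + Lam * ∑ i, rk K ε i (mG (GA f) χ)
          - e * ∫ x, GA f x ^ 2 * ‖χ x‖ ^ 2 ∂(piN (Fin n)) ≤ C := by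
        rw [hC]
        linarith
      have h2 : 0 ≤ rE 𝒱 Finset.univ χ h + Lam * q - e := by linarith
      have h3 : rE 𝒱 Finset.univ χ h + Lam * q - e ≤ δ := by linarith
      exact (mul_le_mul_of_nonneg_left h1 h2).trans (mul_le_mul_of_nonneg_right h3 hC0)
    have hB2 : bG 𝒱 χ h (GA f) (GA' f g) + Lam * B ≤ e * m + Real.sqrt (δ * C) := by
      have h1 := (le_abs_self _).trans (Real.abs_le_sqrt hB)
      linarith
    have htr := trial_energy hv hev hJ hc0 hc hFE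
    have hpos := P11_bG hJ hc0 hc hFE
    rw [hS, mul_one] at htr hpos
    have hHG := (ext_HG hFE.hg).mul (Az_WDN hJ)
    have hE := E0K_le_card (R₀ := R₀) (Lam := Lam) (𝒱 := 𝒱) hev hK ε (Fintype.card_fin (n + 1)) hHG
      (B4_core hf0 hFE.core)
    have hnorm : ∫ z, ‖mG (Az f) (ext χ) z‖ ^ 2 ∂(piN (Fin (n + 1))) = m := by
      have h1 := B4_norm hJ hFE.hg.mem
      rw [lint_sq hHG.mem, ← hm] at h1
      have h2 : 0 ≤ ∫ z, ‖mG (Az f) (ext χ) z‖ ^ 2 ∂(piN (Fin (n + 1))) :=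
        integral_nonneg fun z => sq_nonneg _
      exact le_antisymm ((ENNReal.ofReal_le_ofReal_iff (by linarith)).mp h1.le)
        ((ENNReal.ofReal_le_ofReal_iff h2).mp h1.ge)
    -- the gap terms of the trial state
    have hgs0 : ∑ i, rk K ε i (mG (Az f) (ext χ)) ≤ 2 * m + B + 1 := by
      rw [Fin.sum_univ_succ]
      have h2 : rk K ε 0 (mG (Az f) (ext χ)) ≤ 2 * m := by
        rw [← hnorm]
        exact rk_le hK hε hHG.mem 0
      have h3 : ∑ j : Fin n, rk K ε j.succ (mG (Az f) (ext χ)) ≤ B + n * (2 * I) := by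
        have h4 : ∀ j : Fin n, rk K ε j.succ (mG (Az f) (ext χ))
            ≤ bk K ε j χ (GA f) + 2 * I := by
          intro j
          have h5 := R18_rk hJ hFE.hg.mem hK hε j
          rwa [hS, mul_one, ← hI] at h5
        refine (Finset.sum_le_sum fun j _ => h4 j).trans (le_of_eq ?_)
        rw [Finset.sum_add_distrib, Finset.sum_const, Finset.card_univ, Fintype.card_fin,
          nsmul_eq_mul, ← hBd]
      rw [← hI] at hn
      linarith
    have hs0 : 0 ≤ 2 * m + B + 1 :=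
      (Finset.sum_nonneg fun i _ => rk_nonneg hK ε i _).trans hgs0
    have hgs : ∑ i, gk K ε i (mG (Az f) (ext χ)) ≤ ENNReal.ofReal (2 * m + B + 1) := by
      have h1 : ∑ i, gk K ε i (mG (Az f) (ext χ))
          = ENNReal.ofReal (∑ i, rk K ε i (mG (Az f) (ext χ))) := by
        rw [ENNReal.ofReal_sum_of_nonneg fun i _ => rk_nonneg hK ε i _]
        exact Finset.sum_congr rfl fun i _ => gk_eq hK ε hHG.mem i
      rw [h1]
      exact ENNReal.ofReal_le_ofReal hgs0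
    have hm0 : 0 < m := by linarith
    have hfin : E0K R₀ 𝒱 K ε Lam (n + 1) * ENNReal.ofReal m
        ≤ ENNReal.ofReal ((e + (2 * n * c + 4 * Lam) + 2 * Real.sqrt (δ * C)) * m) := by
      have h5 : 0 ≤ Real.sqrt (δ * C) := Real.sqrt_nonneg _
      have h6 : 0 ≤ (n : ℝ) * c := mul_nonneg (Nat.cast_nonneg n) hc0
      have hE2 : E0K R₀ 𝒱 K ε Lam (n + 1) * ENNReal.ofReal m
          ≤ ENNReal.ofReal (bG 𝒱 χ h (GA f) (GA' f g) + n * c)
            + ENNReal.ofReal Lam * ENNReal.ofReal (2 * m + B + 1) := by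
        have h7 : ∫⁻ z, ‖mG (Az f) (ext χ) z‖ₑ ^ 2 ∂(piN (Fin (n + 1))) = ENNReal.ofReal m := by
          rw [lint_sq hHG.mem, hnorm]
        rw [h7] at hE
        exact hE.trans (add_le_add htr (mul_le_mul_right hgs _))
      rw [← ENNReal.ofReal_mul hLam, ← ENNReal.ofReal_add hpos (mul_nonneg hLam hs0)] at hE2
      refine hE2.trans (ENNReal.ofReal_le_ofReal ?_)
      have h8 : (n : ℝ) * c ≤ 2 * (n * c) * m := by nlinarith
      have h9 : Real.sqrt (δ * C) ≤ 2 * Real.sqrt (δ * C) * m := by nlinarith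
      have h10 : Lam ≤ 2 * Lam * m := by nlinarith
      nlinarith
    have hmne : ENNReal.ofReal m ≠ 0 := by
      rw [Ne, ENNReal.ofReal_eq_zero, not_le]
      exact hm0
    rw [← ENNReal.le_div_iff_mul_le (Or.inl hmne) (Or.inl ENNReal.ofReal_ne_top),
      ← ENNReal.ofReal_div_of_pos hm0, mul_div_assoc, div_self hm0.ne', mul_one] at hfin
    exact hfin
  refine ENNReal.le_of_forall_pos_le_add fun η hη _ => ?_
  have hηr : (0 : ℝ) < η := hη
  obtain ⟨δ, hδ⟩ : ∃ δ : ℝ, δ = min 1 ((η : ℝ) ^ 2 / (4 * (C + 1))) := ⟨_, rfl⟩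
  have hδ0 : 0 < δ := by
    rw [hδ]
    exact lt_min one_pos (by positivity)
  have hδ1 : δ ≤ 1 := by
    rw [hδ]
    exact min_le_left _ _
  have hδ2 : δ * C ≤ ((η : ℝ) / 2) ^ 2 := by
    have h1 : δ ≤ (η : ℝ) ^ 2 / (4 * (C + 1)) := by
      rw [hδ]
      exact min_le_right _ _
    have h2 : δ * (4 * (C + 1)) ≤ (η : ℝ) ^ 2 := by
      rwa [le_div_iff₀ (by positivity)] at h1
    nlinarith
  have h3 : Real.sqrt (δ * C) ≤ (η : ℝ) / 2 := by
    rw [← Real.sqrt_sq (show (0 : ℝ) ≤ η / 2 by positivity)]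
    exact Real.sqrt_le_sqrt hδ2
  refine (key δ hδ0 hδ1).trans ?_
  have h6 : 0 ≤ 2 * (n : ℝ) * c + 4 * Lam := by positivity
  have h7 : ENNReal.ofReal (e + (2 * n * c + 4 * Lam) + 2 * Real.sqrt (δ * C))
      ≤ ENNReal.ofReal (e + (2 * n * c + 4 * Lam) + η) := ENNReal.ofReal_le_ofReal (by linarith)
  refine h7.trans (le_of_eq ?_)
  rw [ENNReal.ofReal_add (by linarith) hηr.le, ENNReal.ofReal_add he0 h6, heE,
    ENNReal.ofReal_coe_nnreal]

theorem E0K_zero (R₀ Lam : ℝ) (𝒱 : T3 → ℝ≥0∞) (K : T3 → ℝ) (ε : ℝ) : E0K R₀ 𝒱 K ε Lam 0 = 0 := by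
  have h0 : tE 𝒱 (fun _ : Fin 0 → T3 => (1 : ℂ)) = 0 := by
    unfold tE
    simp
  have hadm : tAdm R₀ 𝒱 (fun _ : Fin 0 → T3 => (1 : ℂ)) := by
    refine ⟨memLp_const _, by simp, fun x i => i.elim0, ?_⟩
    rw [h0]
    exact ENNReal.zero_lt_top
  refine le_antisymm ?_ zero_le
  unfold E0K
  refine (iInf₂_le _ hadm).trans (le_of_eq ?_)
  rw [h0]
  simp

/-- all ground state energies up to `N` particles -/
theorem E0K_chain {N : ℕ} {R₀ Lam μ : ℝ} {𝒱 : T3 → ℝ≥0∞} {K : T3 → ℝ} {ε : ℝ} (hμ : 0 ≤ μ)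
    (h : ∀ n < N, E0K R₀ 𝒱 K ε Lam (n + 1) ≤ E0K R₀ 𝒱 K ε Lam n + ENNReal.ofReal μ) :
    ∀ k n, n + k = N → E0K R₀ 𝒱 K ε Lam n < ⊤ ∧
      E0K R₀ 𝒱 K ε Lam N ≤ E0K R₀ 𝒱 K ε Lam n + ENNReal.ofReal (k * μ) := by
  have hfin : ∀ m, m ≤ N → E0K R₀ 𝒱 K ε Lam m < ⊤ := by
    intro m
    induction m with
    | zero =>
      intro _
      rw [E0K_zero]
      exact ENNReal.zero_lt_top
    | succ m ih =>
      intro hm
      exact (h m (by omega)).trans_lt
        (ENNReal.add_lt_top.mpr ⟨ih (by omega), ENNReal.ofReal_lt_top⟩)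
  intro k
  induction k with
  | zero =>
    intro n hn
    refine ⟨hfin n (by omega), ?_⟩
    have h1 : n = N := by omega
    rw [h1]
    exact le_self_add
  | succ k ih =>
    intro n hn
    refine ⟨hfin n (by omega), ?_⟩
    have h1 := (ih (n + 1) (by omega)).2
    have h2 := h n (by omega)
    refine h1.trans ((add_le_add h2 le_rfl).trans (le_of_eq ?_))
    rw [add_assoc, ← ENNReal.ofReal_add hμ (by positivity)]
    congr 2
    push_cast
    ring

end Pool.Agent.Lib.MP_4952d6_mp.LK
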