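import Pool.Agent.Lib.MP_4952d6_mp.Pr.R16
import Pool.Agent.Lib.MP_4952d6_mp.Pr.R19
import Pool.Agent.Lib.MP_4952d6_mp.Pq.P13

/-!
# Pr.R20 (leaf L, mechanical): `LocO` for minimisers with a jump term, torus form

Model `om_torus` (Po/N28 l.533-580) and `la_finalG` (Pq/P13 l.47-end: how the fields of `RegG` are used; `c (a Y) ≤ a`).
-/

set_option autoImplicit false
set_option linter.unusedSectionVars false
set_option linter.unusedVariables false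
open MeasureTheory Function Filter Topology Set ComplexConjugate
open scoped ENNReal

namespace Pool.Agent.Lib.MP_4952d6_mp.LK

open LA

variable {ι : Type*} [Fintype ι] [DecidableEq ι]

open LG O

theorem locO_torusK (θ cw cb : ℝ) (hcw : 0 < cw) (hcb : 1 ≤ cb) : ∃ C Y0 : ℝ, 0 < C ∧ 0 < Y0 ∧
    ∀ Y : ℝ, 0 < Y → Y < Y0 → ∀ (N : ℕ) (W f Q w : ℝ → ℝ) (R₀ R a Lam c : ℝ) (K : T3 → ℝ) (ε : ℝ)
      (𝒱 : T3 → ℝ≥0∞), a ≤ Y / 8 → c ≤ 1 → RegG θ cw c Y W f Q w R₀ R a N 𝒱 → Ker K →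
      (ε = 1 ∨ ε = -1) → 0 ≤ Lam → Lam * (a / Y) ^ 2 ≤ 1 →
      ∀ ψ : (Fin N → T3) → ℂ, tAdm R₀ 𝒱 ψ → (∀ φ : (Fin N → T3) → ℂ, tAdm R₀ 𝒱 φ →
        tE 𝒱 ψ + ENNReal.ofReal Lam * ∑ i, gk K ε i ψ
          ≤ tE 𝒱 φ + ENNReal.ofReal Lam * ∑ i, gk K ε i φ) →
      ∀ u : ℝ, 0 < u → u ≤ 1 → ∀ t T b : ℝ, 0 < t → 1 ≤ N * (Real.sqrt (t / 8)) ^ 3 → t ≤ T → 0 < b →
        64 * T ≤ cb * b / u ^ 3 → LocO C u t T b ψ := by
  obtain ⟨Km, hKm, hmini⟩ := exists_miniK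
  obtain ⟨Y1, hY1, hmini⟩ := hmini (max θ 1) (le_max_right _ _)
  obtain ⟨C, Y2, hC, hY2, hloc⟩ := locOK (max θ 1) cw Km cb (le_max_right _ _) hcw hKm.le hcb
  refine ⟨C, min Y1 (min Y2 1), hC, lt_min hY1 (lt_min hY2 one_pos), ?_⟩
  intro Y hY hYlt N W f Q w R₀ R a Lam c K ε 𝒱 ha hc hr hK hε hL0 hL1 ψ hψ hmin
    u hu hu1 t T b ht htN htT hb hTb
  have hYa : Y < Y1 := hYlt.trans_le (min_le_left _ _)
  have hYb : Y < Y2 := hYlt.trans_le ((min_le_right _ _).trans (min_le_left _ _))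
  have hY1' : Y ≤ 1 := (hYlt.trans_le ((min_le_right _ _).trans (min_le_right _ _))).le
  have ha0 : 0 < a := hr.sc.a_pos
  have hl8 : a / Y ≤ 1 / 8 := by
    rw [div_le_iff₀ hY]
    linarith
  have hRθ : R ≤ max θ 1 * a := hr.Rle.trans (mul_le_mul_of_nonneg_right (le_max_left _ _) ha0.le)
  have hVi : ∫⁻ y, 𝒱 y ∂lam3 ≤ (∫⁻ y, ENNReal.ofReal (2 * W (rr y)) ∂lam3) + ENNReal.ofReal a := by
    refine hr.V_int.trans (add_le_add_right (ENNReal.ofReal_le_ofReal ?_) _)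
    have h1 : c * (a * Y) ≤ 1 * (a * Y) := mul_le_mul_of_nonneg_right hc (by positivity)
    have h2 : a * Y ≤ a * 1 := mul_le_mul_of_nonneg_left hY1' ha0.le
    linarith
  obtain ⟨g, e, hM⟩ := hmini Y hY hYa N W f Q R₀ R a Lam K ε hr.sc hl8 hr.Na hRθ hL0 hL1 hK hε 𝒱
    hr.V_meas hr.V_even hr.V_ge hVi ψ hψ hmin
  have hpar : Par (max θ 1) cw Km Y (a / Y) R a w N R₀ 𝒱 :=
    ⟨ha0, hr.sc.a_le, hRθ, rfl, hl8, hr.Na, hr.wm, hr.w0, hr.wb, hr.wz, hr.wc, hr.V_w⟩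
  exact hloc Y hY hYb (a / Y) R a w N Lam K ε R₀ e 𝒱 ψ g hpar hM u hu hu1 t T b ht htN htT hb hTb

end Pool.Agent.Lib.MP_4952d6_mp.LK
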