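import Pool.Agent.Lib.MP_4952d6_mp.Pr.R17
import Pool.Agent.Lib.MP_4952d6_mp.Pd.D03

/-!
# Pr.R21 (leaf M1): weights of the momenta which come from jumps

`Wg β w`: a continuous weight `0 ≤ w ≤ 1`, `w x ≤ β |x|²`, such that for every scale `l` the lattice weight `w (pm l p)` is `(1 - kh K p) / 2` for a jump kernel `K`
(`pm l p = 2 π l p`, Pd/D02). Model of everything: Pd/D02 with `w` instead of `wv y` and `β` instead of `b`, `nr y ^ 2 / 4 ≤ b`.
* `Wg.avg`: with `K` from `ker`: `½ (w(pm (p+n)) + w(pm (p-n))) - w(pm p) = ½ ∫ K (Re ch p - ½ Re ch (p+n) - ½ Re ch (p-n)) = ½ ∫ K Re (ch p) (1 - Re (ch n))`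
  (`ch_add`, `ch_neg`: `Re (ab) + Re (a conj b) = 2 Re a Re b`; `kh` is linear in the integrand), absolute value at most `½ ∫ K (1 - Re ch n) = w (pm l n) ≤ β l² ksq n` (`pm_nr`).
* `Wg.neg_pm`: `kh K (-p) = kh K p` (`ch_neg`).
* `Ew_sym`: proof of `Ec_sym`. `Ew_sub_abs`: proof of `Ec_sub_abs`. `Dm_source_w`: `Dm_source_cos`.
* `rk_Dww`: `rk_fourier`: `∑ i, rk K 1 i ψ = ∑ i ∑' k (1 - kh K (k i)) ‖fc ψ k‖² = 2 Dm (w ∘ pm l) ψ` (definition of `Dm`, Po/N01).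
* `Dww_le_nuQ`: `w 0 = 0` (`le_sq`, `nonneg`), `w ≤ 1`: `w (pm l (k j)) ≤ if k j ≠ 0 then 1 else 0` (`pm_zero`), `nuQ` (Pk/G08).
* `Dww_le_Db`: `w x ≤ min 1 (β |x|²) ≤ 2 max 1 β (1 - exp (-|x|²))` (`min_le_exp` of Pd/D05: `min s 1 ≤ 2 (1 - exp (-s))`; it may be copied), `pm_nr`, monotonicity of `Dm` (`Dm_mono` of Pd/D05; copy or import).
-/

set_option autoImplicit false
set_option linter.unusedSectionVars false
set_option linter.unusedVariables false
open MeasureTheory Function Filter Topology Set ComplexConjugate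
open scoped ENNReal

namespace Pool.Agent.Lib.MP_4952d6_mp.LK

open LA O LB

/-- Weights which come from jumps. -/
structure Wg (β : ℝ) (w : (Fin 3 → ℝ) → ℝ) : Prop where
  b0 : 0 ≤ β
  cont : Continuous w
  nonneg : ∀ x, 0 ≤ w x
  le_one : ∀ x, w x ≤ 1
  le_sq : ∀ x, w x ≤ β * nr x ^ 2
  ker : ∀ l : ℝ, 0 < l → ∃ K : T3 → ℝ, Ker K ∧ ∀ p : Fin 3 → ℤ, w (pm l p) = (1 - kh K p) / 2

/-- The symbol with the source `w`. -/
noncomputable def Ew (w : (Fin 3 → ℝ) → ℝ) (lam l : ℝ) (p : Fin 3 → ℤ) : ℝ :=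
  ksq p + lam * w (pm l p) / l ^ 2

/-- The number of particles weighted by `w`. -/
noncomputable def Dww {N : ℕ} (w : (Fin 3 → ℝ) → ℝ) (l : ℝ) (ψ : (Fin N → T3) → ℂ) : ℝ :=
  Dm (fun p => w (pm l p)) ψ

private lemma R21_kh_neg (K : T3 → ℝ) (p : Fin 3 → ℤ) : kh K (-p) = kh K p := by
  unfold kh
  refine integral_congr_ae (Eventually.of_forall fun z => ?_)
  simp only [ch_neg, Complex.conj_re]

private lemma R21_ch_bm (p : Fin 3 → ℤ) : BM (fun z : T3 => (ch p z).re) := by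
  refine ⟨(Complex.continuous_re.comp (ch_continuous p)).measurable, 1, fun z => ?_⟩
  rw [← ch_norm p z]
  exact Complex.abs_re_le_norm _

private lemma R21_two (p n : Fin 3 → ℤ) (z : T3) :
    (ch (p + n) z).re + (ch (p - n) z).re = 2 * ((ch p z).re * (ch n z).re) := by
  rw [sub_eq_add_neg, ch_add, ch_add, ch_neg, Complex.mul_re, Complex.mul_re, Complex.conj_re,
    Complex.conj_im]
  ring

private lemma R21_avg {K : T3 → ℝ} (hK : Ker K) (p n : Fin 3 → ℤ) :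
    |kh K p - (kh K (p + n) + kh K (p - n)) / 2| ≤ 1 - kh K n := by
  have b : ∀ m : Fin 3 → ℤ, Integrable (fun z => K z * (ch m z).re) lam3 := fun m =>
    (hK.bm.mul (R21_ch_bm m)).integrable _
  have b2 : Integrable (fun z => K z * ((ch p z).re * (ch n z).re)) lam3 :=
    (hK.bm.mul ((R21_ch_bm p).mul (R21_ch_bm n))).integrable _
  have e1 : kh K (p + n) + kh K (p - n) = 2 * ∫ z, K z * ((ch p z).re * (ch n z).re) ∂lam3 := by
    unfold kh
    rw [← integral_add (b _) (b _), ← integral_const_mul]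
    refine integral_congr_ae (Eventually.of_forall fun z => ?_)
    have := R21_two p n z
    simp only
    linear_combination K z * this
  have e2 : kh K p - (kh K (p + n) + kh K (p - n)) / 2
      = ∫ z, K z * ((ch p z).re * (1 - (ch n z).re)) ∂lam3 := by
    have e3 : ∫ z, K z * ((ch p z).re * (1 - (ch n z).re)) ∂lam3
        = kh K p - ∫ z, K z * ((ch p z).re * (ch n z).re) ∂lam3 := by
      unfold kh
      rw [← integral_sub (b _) b2]
      refine integral_congr_ae (Eventually.of_forall fun z => ?_)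
      simp only
      ring
    rw [e3, e1]
    ring
  have hKi : Integrable K lam3 := hK.bm.integrable _
  have e4 : 1 - kh K n = ∫ z, K z * (1 - (ch n z).re) ∂lam3 := by
    have e5 : ∫ z, K z * (1 - (ch n z).re) ∂lam3
        = (∫ z, K z ∂lam3) - ∫ z, K z * (ch n z).re ∂lam3 := by
      rw [← integral_sub hKi (b _)]
      refine integral_congr_ae (Eventually.of_forall fun z => ?_)
      simp only
      ring
    rw [e5, hK.int]
    rfl
  rw [e2, e4, ← Real.norm_eq_abs]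
  refine norm_integral_le_of_norm_le ((hK.bm.mul ((BM.const 1).sub (R21_ch_bm n))).integrable _)
    (Eventually.of_forall fun z => ?_)
  have h1 : |(ch p z).re| ≤ 1 := by
    rw [← ch_norm p z]
    exact Complex.abs_re_le_norm _
  have h2 : (ch n z).re ≤ 1 := by
    rw [← ch_norm n z]
    exact Complex.re_le_norm _
  rw [Real.norm_eq_abs, abs_mul, abs_mul, abs_of_nonneg (hK.nonneg z),
    abs_of_nonneg (show 0 ≤ 1 - (ch n z).re by linarith)]
  refine mul_le_mul_of_nonneg_left ?_ (hK.nonneg z)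
  exact mul_le_of_le_one_left (by linarith) h1

lemma Wg.neg_pm {β : ℝ} {w : (Fin 3 → ℝ) → ℝ} (h : Wg β w) {l : ℝ} (hl : 0 < l) (p : Fin 3 → ℤ) :
    w (pm l (-p)) = w (pm l p) := by
  obtain ⟨K, hK, hw⟩ := h.ker l hl
  rw [hw, hw, R21_kh_neg]

lemma Wg.avg {β : ℝ} {w : (Fin 3 → ℝ) → ℝ} (h : Wg β w) {l : ℝ} (hl : 0 < l) (p n : Fin 3 → ℤ) :
    |1 / 2 * (w (pm l (p + n)) + w (pm l (p - n))) - w (pm l p)| ≤ β * (l ^ 2 * ksq n) := by
  obtain ⟨K, hK, hw⟩ := h.ker l hl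
  have h1 := R21_avg hK p n
  have h2 := h.le_sq (pm l n)
  rw [pm_nr, hw n] at h2
  have e : 1 / 2 * (w (pm l (p + n)) + w (pm l (p - n))) - w (pm l p)
      = 1 / 2 * (kh K p - (kh K (p + n) + kh K (p - n)) / 2) := by
    rw [hw, hw, hw]
    ring
  rw [e, abs_mul, abs_of_nonneg (show (0 : ℝ) ≤ 1 / 2 by norm_num)]
  linarith

private lemma R21_abs {β lam l : ℝ} {w : (Fin 3 → ℝ) → ℝ} (h : Wg β w) (hlb : |lam| * β ≤ 1 / 8)
    (hl : 0 < l) (p : Fin 3 → ℤ) : |lam * w (pm l p) / l ^ 2| ≤ 1 / 8 * ksq p := by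
  have h1 := h.nonneg (pm l p)
  have h2 := h.le_sq (pm l p)
  rw [pm_nr] at h2
  have hk := ksq_nonneg p
  rw [abs_div, abs_mul, abs_of_nonneg h1, abs_of_nonneg (sq_nonneg l), div_le_iff₀ (by positivity)]
  calc |lam| * w (pm l p) ≤ |lam| * (β * (l ^ 2 * ksq p)) :=
        mul_le_mul_of_nonneg_left h2 (abs_nonneg _)
    _ = (|lam| * β) * (l ^ 2 * ksq p) := by ring
    _ ≤ 1 / 8 * (l ^ 2 * ksq p) := mul_le_mul_of_nonneg_right hlb (by positivity)
    _ = _ := by ring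

theorem Ew_sym {β lam l : ℝ} {w : (Fin 3 → ℝ) → ℝ} (h : Wg β w) (hlb : |lam| * β ≤ 1 / 8)
    (hl : 0 < l) : Sym (Ew w lam l) := by
  refine ⟨fun p => ?_, fun p => ?_, fun p => ?_, fun M hM p => ?_⟩
  · have := (abs_le.1 (R21_abs h hlb hl p)).1
    unfold Ew
    linarith
  · have := (abs_le.1 (R21_abs h hlb hl p)).2
    unfold Ew
    linarith
  · unfold Ew
    rw [ksq_neg, h.neg_pm hl]
  · have hpi2 : Real.pi ^ 2 ≤ 10 := by
      have := Real.pi_lt_d2
      nlinarith [Real.pi_pos]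
    have hl2 : 0 < l ^ 2 := by positivity
    have hsym : ∑ n ∈ bx M, th M n ^ 2 * Ew w lam l (p + n)
        = ∑ n ∈ bx M, th M n ^ 2 * Ew w lam l (p - n) := by
      refine Finset.sum_nbij' (fun n => -n) (fun n => -n) ?_ ?_ ?_ ?_ ?_
      · intro n hn; exact bx_neg.2 hn
      · intro n hn; exact bx_neg.2 hn
      · intro n _; simp
      · intro n _; simp
      · intro n _
        simp only [th_neg, sub_neg_eq_add]
    have hhalf : ∑ n ∈ bx M, th M n ^ 2 * Ew w lam l (p + n)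
        = ∑ n ∈ bx M, th M n ^ 2 * (1 / 2 * (Ew w lam l (p + n) + Ew w lam l (p - n))) := by
      have : ∑ n ∈ bx M, th M n ^ 2 * (1 / 2 * (Ew w lam l (p + n) + Ew w lam l (p - n)))
          = 1 / 2 * ∑ n ∈ bx M, th M n ^ 2 * Ew w lam l (p + n)
            + 1 / 2 * ∑ n ∈ bx M, th M n ^ 2 * Ew w lam l (p - n) := by
        rw [Finset.mul_sum, Finset.mul_sum, ← Finset.sum_add_distrib]
        refine Finset.sum_congr rfl fun n _ => ?_
        ring
      rw [this, ← hsym]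
      ring
    rw [hhalf]
    have hpt : ∀ n ∈ bx M, 1 / 2 * (Ew w lam l (p + n) + Ew w lam l (p - n))
        ≤ Ew w lam l p + 150 * (M : ℝ) ^ 2 := by
      intro n hn
      have hkn := ksq_bx hn
      have hkn0 := ksq_nonneg n
      have hkn' : ksq n ≤ 120 * (M : ℝ) ^ 2 := by
        have : 12 * Real.pi ^ 2 * (M : ℝ) ^ 2 ≤ 120 * (M : ℝ) ^ 2 := by
          have : 0 ≤ (M : ℝ) ^ 2 := by positivity
          nlinarith
        linarith
      have hav2 := h.avg hl p n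
      set D := 1 / 2 * (w (pm l (p + n)) + w (pm l (p - n))) - w (pm l p) with hD
      have h1 : 1 / 2 * (Ew w lam l (p + n) + Ew w lam l (p - n))
          = Ew w lam l p + ksq n + lam * D / l ^ 2 := by
        unfold Ew
        rw [hD, ksq_add_cpn, ksq_sub_cpn]
        field_simp
        ring
      rw [h1]
      have h2 : lam * D / l ^ 2 ≤ 1 / 8 * ksq n := by
        rw [div_le_iff₀ hl2]
        calc lam * D ≤ |lam * D| := le_abs_self _
          _ = |lam| * |D| := abs_mul _ _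
          _ ≤ |lam| * (β * (l ^ 2 * ksq n)) := mul_le_mul_of_nonneg_left hav2 (abs_nonneg _)
          _ = (|lam| * β) * (l ^ 2 * ksq n) := by ring
          _ ≤ 1 / 8 * (l ^ 2 * ksq n) := mul_le_mul_of_nonneg_right hlb (by positivity)
          _ = 1 / 8 * ksq n * l ^ 2 := by ring
      linarith
    calc ∑ n ∈ bx M, th M n ^ 2 * (1 / 2 * (Ew w lam l (p + n) + Ew w lam l (p - n)))
        ≤ ∑ n ∈ bx M, th M n ^ 2 * (Ew w lam l p + 150 * (M : ℝ) ^ 2) := by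
          refine Finset.sum_le_sum fun n hn => ?_
          have := hpt n hn
          have h0 : 0 ≤ th M n ^ 2 := by positivity
          exact mul_le_mul_of_nonneg_left this h0
      _ = Ew w lam l p + 150 * (M : ℝ) ^ 2 := by
          rw [← Finset.sum_mul, th_sq_sum hM, one_mul]

lemma Ew_sub_abs {β lam l : ℝ} {w : (Fin 3 → ℝ) → ℝ} (h : Wg β w) (h2 : |lam| ≤ 1 / 8) (hl : 0 < l)
    (p : Fin 3 → ℤ) : |Ew w lam l p - ksq p| ≤ 8 * Real.pi * (1 / l ^ 2) := by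
  have e : Ew w lam l p - ksq p = lam * w (pm l p) / l ^ 2 := by unfold Ew; ring
  rw [e, abs_div, abs_mul, abs_of_nonneg (h.nonneg _), abs_of_nonneg (sq_nonneg l)]
  rw [mul_one_div]
  apply div_le_div_of_nonneg_right _ (by positivity)
  have h3 := Real.pi_gt_three
  calc |lam| * w (pm l p) ≤ 1 / 8 * 1 :=
        mul_le_mul h2 (h.le_one _) (h.nonneg _) (by norm_num)
    _ ≤ _ := by linarith

lemma Dm_source_w {N : ℕ} (w : (Fin 3 → ℝ) → ℝ) (lam l : ℝ) (ψ : (Fin N → T3) → ℂ) :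
    Dm (fun p => Ew w lam l p - ksq p) ψ = lam / l ^ 2 * Dww w l ψ := by
  have h : (fun p => Ew w lam l p - ksq p) = fun p => lam / l ^ 2 * w (pm l p) := by
    funext p
    unfold Ew
    ring
  rw [h]
  unfold Dww Dm
  rw [Finset.mul_sum]
  refine Finset.sum_congr rfl fun j _ => ?_
  rw [← tsum_mul_left]
  refine tsum_congr fun k => ?_
  ring

lemma Dww_nonneg {N : ℕ} {β : ℝ} {w : (Fin 3 → ℝ) → ℝ} (h : Wg β w) (l : ℝ) (ψ : (Fin N → T3) → ℂ) :
    0 ≤ Dww w l ψ := by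
  unfold Dww Dm
  exact Finset.sum_nonneg fun j _ => tsum_nonneg fun k => mul_nonneg (h.nonneg _) (sq_nonneg _)

theorem rk_Dww {N : ℕ} {w : (Fin 3 → ℝ) → ℝ} {l : ℝ} {K : T3 → ℝ} (hK : Ker K)
    (h : ∀ p : Fin 3 → ℤ, w (pm l p) = (1 - kh K p) / 2) {ψ : (Fin N → T3) → ℂ}
    (hψ : MemLp ψ 2 (piN (Fin N))) : ∑ i, rk K 1 i ψ = 2 * Dww w l ψ := by
  unfold Dww Dm
  rw [Finset.mul_sum]
  refine Finset.sum_congr rfl fun i _ => ?_
  rw [rk_fourier hK (Or.inl rfl) hψ i, ← tsum_mul_left]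
  refine tsum_congr fun k => ?_
  show (1 - 1 * kh K (k i)) * ‖fc ψ k‖ ^ 2 = 2 * (w (pm l (k i)) * ‖fc ψ k‖ ^ 2)
  rw [h (k i)]
  ring

private lemma R21_sum {N : ℕ} {ψ : (Fin N → T3) → ℂ} (hψ : MemLp ψ 2 (piN (Fin N)))
    {χ : (Fin 3 → ℤ) → ℝ} {C : ℝ} (hχ : ∀ p, |χ p| ≤ C) (j : Fin N) :
    Summable fun k : Fin N → Fin 3 → ℤ => χ (k j) * ‖fc ψ k‖ ^ 2 := by
  have hs := (parseval_sq hψ).summable
  refine Summable.of_norm_bounded (hs.mul_left C) fun k => ?_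
  rw [Real.norm_eq_abs, abs_mul, abs_of_nonneg (sq_nonneg ‖fc ψ k‖)]
  exact mul_le_mul_of_nonneg_right (hχ _) (sq_nonneg _)

private lemma R21_mono {N : ℕ} {ψ : (Fin N → T3) → ℂ} (hψ : MemLp ψ 2 (piN (Fin N)))
    {φ φ' : (Fin 3 → ℤ) → ℝ} {C : ℝ} (h : ∀ p, φ p ≤ φ' p) (h1 : ∀ p, |φ p| ≤ C)
    (h2 : ∀ p, |φ' p| ≤ C) : Dm φ ψ ≤ Dm φ' ψ := by
  unfold Dm
  refine Finset.sum_le_sum fun j _ => ?_
  exact (R21_sum hψ h1 j).tsum_le_tsum
    (fun k => mul_le_mul_of_nonneg_right (h _) (sq_nonneg _)) (R21_sum hψ h2 j)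

theorem Dww_le_nuQ {N : ℕ} {β : ℝ} {w : (Fin 3 → ℝ) → ℝ} (h : Wg β w) (l : ℝ)
    {ψ : (Fin N → T3) → ℂ} (hψ : MemLp ψ 2 (piN (Fin N))) : Dww w l ψ ≤ ∑ i, nuQ (fc ψ) i := by
  have hw0 : w (pm l 0) = 0 := by
    have h1 := h.le_sq (pm l 0)
    have h2 := h.nonneg (pm l 0)
    have h3 : nr (pm l 0) ^ 2 = 0 := by
      rw [pm_zero, nr_sq]
      simp
    rw [h3, mul_zero] at h1
    exact le_antisymm h1 h2
  have hb : ∀ p, |w (pm l p)| ≤ 1 := fun p => by
    rw [abs_of_nonneg (h.nonneg _)]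
    exact h.le_one _
  unfold Dww Dm nuQ
  refine Finset.sum_le_sum fun j _ => ?_
  have hs := (parseval_sq hψ).summable
  refine (R21_sum hψ (χ := fun p => w (pm l p)) hb j).tsum_le_tsum (fun k => ?_)
    (ite_summable hs (fun k => sq_nonneg _) fun k => k j ≠ 0)
  by_cases hk : k j = 0
  · rw [if_neg (not_not.2 hk)]
    show w (pm l (k j)) * ‖fc ψ k‖ ^ 2 ≤ 0
    rw [hk, hw0, zero_mul]
  · rw [if_pos hk]
    exact mul_le_of_le_one_left (sq_nonneg _) (h.le_one _)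

private lemma R21_min {s : ℝ} (hs : 0 ≤ s) : min s 1 ≤ 2 * (1 - Real.exp (-s)) := by
  have h1 : Real.exp (-s) * (1 + s) ≤ 1 := by
    have h2 := Real.add_one_le_exp s
    have h3 := Real.exp_pos (-s)
    have h4 : Real.exp (-s) * Real.exp s = 1 := by rw [← Real.exp_add]; simp
    nlinarith
  rcases le_total s 1 with h | h
  · rw [min_eq_left h]
    have h3 := Real.exp_pos (-s)
    nlinarith
  · rw [min_eq_right h]
    have h3 : Real.exp (-s) ≤ Real.exp (-1) := Real.exp_le_exp.2 (by linarith)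
    have h4 : Real.exp (-1) ≤ 1 / 2 := by
      have h5 := Real.add_one_le_exp (1 : ℝ)
      have h6 : Real.exp (-1) * Real.exp 1 = 1 := by rw [← Real.exp_add]; simp
      have h7 := Real.exp_pos (-1 : ℝ)
      nlinarith
    linarith

private lemma R21_smul {N : ℕ} (ψ : (Fin N → T3) → ℂ) (φ : (Fin 3 → ℤ) → ℝ) (c : ℝ) :
    Dm (fun p => c * φ p) ψ = c * Dm φ ψ := by
  unfold Dm
  rw [Finset.mul_sum]
  refine Finset.sum_congr rfl fun j _ => ?_
  rw [← tsum_mul_left]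
  exact tsum_congr fun k => by ring

theorem Dww_le_Db {N : ℕ} {β : ℝ} {w : (Fin 3 → ℝ) → ℝ} (h : Wg β w) (l : ℝ)
    {ψ : (Fin N → T3) → ℂ} (hψ : MemLp ψ 2 (piN (Fin N))) :
    Dww w l ψ ≤ 2 * max 1 β * Db (l ^ 2) ψ := by
  have hM1 : 1 ≤ max 1 β := le_max_left _ _
  have hM2 : β ≤ max 1 β := le_max_right _ _
  obtain ⟨M, hM⟩ : ∃ M, M = max 1 β := ⟨_, rfl⟩
  rw [← hM] at hM1 hM2 ⊢
  unfold Dww Db
  rw [← R21_smul]
  have he : ∀ p, 0 ≤ 1 - Real.exp (-(l ^ 2 * ksq p)) ∧ 1 - Real.exp (-(l ^ 2 * ksq p)) ≤ 1 := by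
    intro p
    have h1 : 0 ≤ l ^ 2 * ksq p := mul_nonneg (sq_nonneg _) (ksq_nonneg p)
    have h2 : Real.exp (-(l ^ 2 * ksq p)) ≤ 1 := by
      rw [Real.exp_le_one_iff]
      linarith
    have h3 := Real.exp_pos (-(l ^ 2 * ksq p))
    exact ⟨by linarith, by linarith⟩
  refine R21_mono (C := 2 * M) hψ (fun p => ?_) (fun p => ?_) (fun p => ?_)
  · have h0 : 0 ≤ l ^ 2 * ksq p := mul_nonneg (sq_nonneg _) (ksq_nonneg p)
    have h1 := R21_min h0
    have h2 : w (pm l p) ≤ M * min (l ^ 2 * ksq p) 1 := by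
      rcases le_total (l ^ 2 * ksq p) 1 with h3 | h3
      · rw [min_eq_left h3]
        have h4 := h.le_sq (pm l p)
        rw [pm_nr] at h4
        exact h4.trans (mul_le_mul_of_nonneg_right hM2 h0)
      · rw [min_eq_right h3, mul_one]
        exact (h.le_one _).trans hM1
    have h3 := mul_le_mul_of_nonneg_left h1 (show 0 ≤ M by linarith)
    linarith
  · rw [abs_of_nonneg (h.nonneg _)]
    have := h.le_one (pm l p)
    linarith
  · obtain ⟨h1, h2⟩ := he p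
    rw [abs_of_nonneg (mul_nonneg (by linarith) h1)]
    have h3 := mul_le_mul_of_nonneg_left h2 (show 0 ≤ 2 * M by linarith)
    linarith

end Pool.Agent.Lib.MP_4952d6_mp.LK
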