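import Pool.Agent.Lib.MP_4952d6_mp.Pr.R21

/-!
# Pr.R22 (leaf M2): the limit of the lattice sums with a source `w`

Model: Pd/D03 with `w` instead of `wv y`: `wjw w x = w x * Jgd (|x|²)`, `Gw w = 1/(16 π³) ∫ wjw w`. All proofs as there (`wj_le`: `wjw w x ≤ 4 β |x|` near `0` and `≤ 4/|x|`, so `≤ 4 β + 4`;
continuity at `0` by `squeeze_zero`; `Jgd_continuousAt`, `Jnr_integrable`, `Jnr_integral`, `ae_nr_pos`, `riemann_tendsto`, `riemann_summable`, `LSg_summable`, `epsf_Jg`, `Jg_up_gen`, `Jg_dn_gen`, `Jb_zero` are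
used as they are; `LSO t 1 0 l = LSg t l (Ew w 0 l)` as in `LSO_eq_LSg`).
-/

set_option autoImplicit false
set_option linter.unusedSectionVars false
set_option linter.unusedVariables false
open MeasureTheory Function Filter Topology Set ComplexConjugate
open scoped ENNReal

namespace Pool.Agent.Lib.MP_4952d6_mp.LK

open LA O LB

/-- The density of the excitations with the weight `w`. -/
noncomputable def wjw (w : (Fin 3 → ℝ) → ℝ) (x : Fin 3 → ℝ) : ℝ := w x * Jgd (nr x ^ 2)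

/-- The limiting weighted number of excitations. -/
noncomputable def Gw (w : (Fin 3 → ℝ) → ℝ) : ℝ :=
  1 / (16 * Real.pi ^ 3) * ∫ x : Fin 3 → ℝ, wjw w x

private lemma R22_zero_of {β : ℝ} {w : (Fin 3 → ℝ) → ℝ} (h : Wg β w) {x : Fin 3 → ℝ}
    (hx : nr x = 0) : w x = 0 := by
  refine le_antisymm ?_ (h.nonneg x)
  have h1 := h.le_sq x
  rw [hx] at h1
  linarith

lemma wjw_nonneg {β : ℝ} {w : (Fin 3 → ℝ) → ℝ} (h : Wg β w) (x : Fin 3 → ℝ) : 0 ≤ wjw w x := by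
  unfold wjw
  rcases (nr_nonneg x).eq_or_lt with h1 | h1
  · rw [R22_zero_of h h1.symm, zero_mul]
  · exact mul_nonneg (h.nonneg x) (Jgd_pos (by positivity)).le

private lemma R22_le_nr {β : ℝ} {w : (Fin 3 → ℝ) → ℝ} (h : Wg β w) (x : Fin 3 → ℝ) :
    wjw w x ≤ 4 * β * nr x := by
  have hb := h.b0
  unfold wjw
  rcases (nr_nonneg x).eq_or_lt with h0 | h0
  · rw [R22_zero_of h h0.symm, zero_mul, ← h0, mul_zero]
  · have h1 := h.le_sq x
    have h2 := Jgd_le_sqrt (s := nr x ^ 2) (by positivity)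
    rw [Real.sqrt_sq h0.le] at h2
    have h3 := (Jgd_pos (s := nr x ^ 2) (by positivity)).le
    calc w x * Jgd (nr x ^ 2) ≤ β * nr x ^ 2 * (4 / nr x) :=
          mul_le_mul h1 h2 h3 (by positivity)
      _ = 4 * β * nr x := by field_simp

private lemma R22_le_J {β : ℝ} {w : (Fin 3 → ℝ) → ℝ} (h : Wg β w) {x : Fin 3 → ℝ}
    (hx : 0 < nr x) : wjw w x ≤ Jgd (nr x ^ 2) := by
  unfold wjw
  have h3 := (Jgd_pos (s := nr x ^ 2) (by positivity)).le
  have := mul_le_mul_of_nonneg_right (h.le_one x) h3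
  linarith

private lemma R22_le {β : ℝ} {w : (Fin 3 → ℝ) → ℝ} (h : Wg β w) (x : Fin 3 → ℝ) :
    wjw w x ≤ 4 * β + 4 := by
  have hb := h.b0
  rcases le_total (nr x) 1 with h1 | h1
  · have h2 := R22_le_nr h x
    have h3 : 4 * β * nr x ≤ 4 * β * 1 := mul_le_mul_of_nonneg_left h1 (by positivity)
    linarith
  · have h0 : 0 < nr x := by linarith
    have h2 := R22_le_J h h0
    have h3 := Jgd_le_sqrt (s := nr x ^ 2) (by positivity)
    rw [Real.sqrt_sq h0.le] at h3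
    have h4 : 4 / nr x ≤ 4 := by
      rw [div_le_iff₀ h0]
      linarith
    linarith

private lemma R22_continuous {β : ℝ} {w : (Fin 3 → ℝ) → ℝ} (h : Wg β w) :
    Continuous (wjw w) := by
  rw [continuous_iff_continuousAt]
  intro x
  rcases (nr_nonneg x).eq_or_lt with h1 | h1
  · have h0 : wjw w x = 0 := by
      unfold wjw
      rw [R22_zero_of h h1.symm, zero_mul]
    have h2 : Tendsto (fun z => 4 * β * nr z) (𝓝 x) (𝓝 0) := by
      have h3 := (continuous_const.mul nr_cont).tendsto (f := fun z => 4 * β * nr z) x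
      rwa [← h1, mul_zero] at h3
    show Tendsto (wjw w) (𝓝 x) (𝓝 (wjw w x))
    rw [h0]
    exact squeeze_zero (fun z => wjw_nonneg h z) (fun z => R22_le_nr h z) h2
  · have hs : ContinuousAt Jgd (nr x ^ 2) := Jgd_continuousAt (by positivity)
    exact h.cont.continuousAt.mul
      (ContinuousAt.comp (f := fun x => nr x ^ 2) hs (nr_cont.pow 2).continuousAt)

lemma wjw_integrable {β : ℝ} {w : (Fin 3 → ℝ) → ℝ} (h : Wg β w) : Integrable (wjw w) := by
  unfold wjw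
  refine Jnr_integrable.bdd_mul (c := 1) h.cont.aestronglyMeasurable
    (Eventually.of_forall fun x => ?_)
  rw [Real.norm_eq_abs, abs_of_nonneg (h.nonneg x)]
  exact h.le_one x

lemma Gw_nonneg {β : ℝ} {w : (Fin 3 → ℝ) → ℝ} (h : Wg β w) : 0 ≤ Gw w := by
  have hpi := Real.pi_pos
  unfold Gw
  exact mul_nonneg (by positivity) (integral_nonneg fun x => wjw_nonneg h x)

lemma Gw_le_two {β : ℝ} {w : (Fin 3 → ℝ) → ℝ} (h : Wg β w) : Gw w ≤ 2 := by
  have hpi := Real.pi_pos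
  refine le_trans ?_ F1_kappa2
  rw [← Jnr_integral]
  unfold Gw
  refine mul_le_mul_of_nonneg_left ?_ (by positivity)
  refine integral_mono_ae (wjw_integrable h) Jnr_integrable ?_
  filter_upwards [ae_nr_pos] with x hx
  exact R22_le_J h hx

/-! ### Riemann sums -/

private noncomputable def R22_FW (w : (Fin 3 → ℝ) → ℝ) (τ : ℝ) (x : Fin 3 → ℝ) : ℝ :=
  Real.exp (-(τ * nr x ^ 2)) * wjw w x

private lemma R22_FW_continuous {β : ℝ} {w : (Fin 3 → ℝ) → ℝ} (h : Wg β w) (τ : ℝ) :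
    Continuous (R22_FW w τ) := by
  unfold R22_FW
  exact (Real.continuous_exp.comp ((continuous_const.mul (nr_cont.pow 2)).neg)).mul
    (R22_continuous h)

private lemma R22_FW_bound {β : ℝ} {w : (Fin 3 → ℝ) → ℝ} (h : Wg β w) (τ : ℝ) (x : Fin 3 → ℝ) :
    |R22_FW w τ x| ≤ (4 * β + 4) * Real.exp (-(τ * nr x ^ 2)) := by
  unfold R22_FW
  rw [abs_mul, abs_of_pos (Real.exp_pos _), abs_of_nonneg (wjw_nonneg h x), mul_comm]
  exact mul_le_mul_of_nonneg_right (R22_le h x) (Real.exp_pos _).le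

private lemma R22_FW_summable {β : ℝ} {w : (Fin 3 → ℝ) → ℝ} (h : Wg β w) {τ l : ℝ} (hτ : 0 < τ)
    (hl : 0 < l) : Summable fun p => R22_FW w τ (pm l p) :=
  riemann_summable hτ (R22_FW_bound h τ) (h := 2 * Real.pi * l)
    (by have := Real.pi_pos; positivity)

private lemma R22_FW_limit {β : ℝ} {w : (Fin 3 → ℝ) → ℝ} (h : Wg β w) {τ : ℝ} (hτ : 0 < τ) :
    Tendsto (fun l : ℝ => 1 / 2 * (l ^ 3 * ∑' p : Fin 3 → ℤ, R22_FW w τ (pm l p))) (𝓝[>] 0)
      (𝓝 (1 / (16 * Real.pi ^ 3) * ∫ x, R22_FW w τ x)) := by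
  have hpi := Real.pi_pos
  have h1 := riemann_tendsto (R22_FW_continuous h τ) hτ (R22_FW_bound h τ)
  have h2 : Tendsto (fun l : ℝ => 2 * Real.pi * l) (𝓝[>] 0) (𝓝[>] 0) := by
    refine tendsto_nhdsWithin_iff.2 ⟨?_, ?_⟩
    · have h3 : Tendsto (fun l : ℝ => 2 * Real.pi * l) (𝓝 0) (𝓝 (2 * Real.pi * 0)) :=
        (continuous_const.mul continuous_id).tendsto 0
      rw [mul_zero] at h3
      exact h3.mono_left nhdsWithin_le_nhds
    · filter_upwards [self_mem_nhdsWithin] with l hl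
      have hl0 : (0:ℝ) < l := hl
      show (0:ℝ) < 2 * Real.pi * l
      positivity
  have h4 := (h1.comp h2).const_mul (1 / (16 * Real.pi ^ 3))
  refine h4.congr fun l => ?_
  simp only [Function.comp]
  have h5 : ∀ p : Fin 3 → ℤ, R22_FW w τ (fun α => 2 * Real.pi * l * (p α : ℝ))
      = R22_FW w τ (pm l p) := fun p => rfl
  rw [tsum_congr h5]
  field_simp
  ring

private lemma R22_FW_lim0 {β : ℝ} {w : (Fin 3 → ℝ) → ℝ} (h : Wg β w) :
    Tendsto (fun τ : ℝ => 1 / (16 * Real.pi ^ 3) * ∫ x, R22_FW w τ x) (𝓝[>] 0) (𝓝 (Gw w)) := by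
  unfold Gw
  refine Tendsto.const_mul _ ?_
  refine tendsto_integral_filter_of_dominated_convergence (fun x => wjw w x) ?_ ?_ ?_ ?_
  · exact Eventually.of_forall fun τ => (R22_FW_continuous h τ).aestronglyMeasurable
  · filter_upwards [self_mem_nhdsWithin] with τ hτ
    have hτ0 : (0:ℝ) < τ := hτ
    refine Eventually.of_forall fun x => ?_
    unfold R22_FW
    rw [norm_mul, Real.norm_eq_abs, Real.norm_eq_abs, abs_of_pos (Real.exp_pos _),
      abs_of_nonneg (wjw_nonneg h x)]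
    have h1 : Real.exp (-(τ * nr x ^ 2)) ≤ 1 := by
      rw [Real.exp_le_one_iff]
      have : 0 ≤ τ * nr x ^ 2 := by positivity
      linarith
    have := mul_le_mul_of_nonneg_right h1 (wjw_nonneg h x)
    linarith
  · exact wjw_integrable h
  · refine Eventually.of_forall fun x => ?_
    have hc : Continuous (fun τ : ℝ => R22_FW w τ x) := by
      unfold R22_FW
      fun_prop
    have h1 := hc.tendsto 0
    have e : R22_FW w 0 x = wjw w x := by
      unfold R22_FW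
      rw [zero_mul, neg_zero, Real.exp_zero, one_mul]
    rw [e] at h1
    exact h1.mono_left nhdsWithin_le_nhds

/-! ### The lattice sum -/

private lemma R22_LSO {t l : ℝ} (hl : 0 < l) (w : (Fin 3 → ℝ) → ℝ) :
    LSO t 1 0 l = LSg t l (Ew w 0 l) := by
  unfold LSO LSg
  refine tsum_congr fun p => ?_
  have h1 : Es 1 0 l p = ksq p := by
    unfold Es eO
    field_simp
    ring
  have h2 : Ew w 0 l p = ksq p := by
    unfold Ew
    ring
  rw [h1, h2]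

private lemma R22_LSg_ge {β lam l τ c : ℝ} {w : (Fin 3 → ℝ) → ℝ} (h : Wg β w)
    (hlb : |lam| * β ≤ 1 / 8) (hl : 0 < l) (hτ : 0 < τ)
    (hc : ∀ x : Fin 3 → ℝ, 0 < nr x → Jg (nr x ^ 2) + c * wjw w x ≤ Jg (nr x ^ 2 + lam * w x)) :
    LSO (l ^ 2 * τ) 1 0 l + c / l ^ 2 * ∑' p : Fin 3 → ℤ, R22_FW w τ (pm l p)
      ≤ LSg (l ^ 2 * τ) l (Ew w lam l) := by
  have hpi := Real.pi_pos
  have ht : 0 < l ^ 2 * τ := by positivity
  rw [R22_LSO hl w]
  have hS0 : Sym (Ew w 0 l) := Ew_sym h (by rw [abs_zero, zero_mul]; norm_num) hl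
  have hS : Sym (Ew w lam l) := Ew_sym h hlb hl
  unfold LSg
  rw [← tsum_mul_left,
    ← (LSg_summable hS0 ht hl).tsum_add ((R22_FW_summable h hτ hl).mul_left _)]
  refine ((LSg_summable hS0 ht hl).add ((R22_FW_summable h hτ hl).mul_left _)).tsum_le_tsum
    (fun p => ?_) (LSg_summable hS ht hl)
  rcases eq_or_ne p 0 with hp | hp
  · rw [if_pos hp, if_pos hp, hp, pm_zero]
    unfold R22_FW wjw
    rw [R22_zero_of h (by unfold nr; simp)]
    simp
  · rw [if_neg hp, if_neg hp]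
    have hk := ksq_pos hp
    have hx2 := pm_nr l p
    have hx : 0 < nr (pm l p) := by
      refine lt_of_le_of_ne (nr_nonneg _) fun h0 => ?_
      rw [← h0] at hx2
      have : 0 < l ^ 2 * ksq p := by positivity
      linarith [hx2]
    have h1 := hc (pm l p) hx
    have h2 : l ^ 2 * Ew w 0 l p = nr (pm l p) ^ 2 := by
      unfold Ew
      rw [hx2]
      ring
    have h3 : l ^ 2 * Ew w lam l p = nr (pm l p) ^ 2 + lam * w (pm l p) := by
      unfold Ew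
      rw [hx2]
      field_simp
    rw [epsf_Jg hl, epsf_Jg hl, h2, h3, Mul_et_sq]
    unfold R22_FW
    rw [hx2]
    have e3 : l ^ 2 * τ * ksq p = τ * (l ^ 2 * ksq p) := by ring
    rw [e3]
    rw [hx2] at h1
    set e := Real.exp (-(τ * (l ^ 2 * ksq p))) with he
    have he0 : 0 < e := Real.exp_pos _
    have h4 : 0 ≤ e * (1 / l ^ 2) := by positivity
    have h5 := mul_le_mul_of_nonneg_left h1 h4
    have e4 : c / l ^ 2 * (e * wjw w (pm l p)) = e * (1 / l ^ 2) * (c * wjw w (pm l p)) := by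
      ring
    rw [e4]
    linarith

/-- The limit of the lattice sum with the source `w`. -/
theorem oj_w {β lam c η : ℝ} {w : (Fin 3 → ℝ) → ℝ} (h : Wg β w) (hlb : |lam| * β ≤ 1 / 8)
    (hη : 0 < η)
    (hc : ∀ x : Fin 3 → ℝ, 0 < nr x → Jg (nr x ^ 2) + c * wjw w x ≤ Jg (nr x ^ 2 + lam * w x)) :
    ∃ u₀ : ℝ, 0 < u₀ ∧ ∀ u : ℝ, 0 < u → u < u₀ → ∃ l₀ : ℝ, 0 < l₀ ∧ ∀ l : ℝ, 0 < l → l < l₀ →
      Jf 0 + c * Gw w - η
        ≤ 4 * Real.sqrt Real.pi / u ^ 8 + 1 / 2 * l ^ 5 * LSg (l ^ 2 * u ^ 16) l (Ew w lam l) := by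
  obtain ⟨u₁, hu₁, hJ⟩ := oj_statement 1 0 (η / 2) one_pos (by rw [abs_zero, zero_mul]; norm_num)
    (by rw [abs_zero]; norm_num) (by positivity)
  set δ : ℝ := η / (4 * (|c| + 1)) with hδ
  have hc0 := abs_nonneg c
  have hδ0 : 0 < δ := by positivity
  have h1 := Metric.tendsto_nhds.1 (R22_FW_lim0 h) δ hδ0
  obtain ⟨τ0, hτ0, h2⟩ := mem_nhdsGT_iff_exists_Ioo_subset.1 h1
  have hτ0' : (0:ℝ) < τ0 := hτ0
  refine ⟨min u₁ (min 1 τ0), lt_min hu₁ (lt_min one_pos hτ0'), fun u hu hlt => ?_⟩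
  have hu1 : u < u₁ := hlt.trans_le (min_le_left _ _)
  have hu2 : u < 1 := hlt.trans_le ((min_le_right _ _).trans (min_le_left _ _))
  have hu3 : u < τ0 := hlt.trans_le ((min_le_right _ _).trans (min_le_right _ _))
  have hτ : 0 < u ^ 16 := by positivity
  have hττ : u ^ 16 < τ0 := lt_of_le_of_lt (pow_le_of_le_one hu.le hu2.le (by norm_num)) hu3
  have h3 := h2 ⟨hτ, hττ⟩
  simp only [Set.mem_ofPred_eq] at h3
  rw [Real.dist_eq] at h3
  have h4 := Metric.tendsto_nhds.1 (R22_FW_limit h hτ) δ hδ0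
  obtain ⟨l1, hl1, h5⟩ := mem_nhdsGT_iff_exists_Ioo_subset.1 h4
  have hl1' : (0:ℝ) < l1 := hl1
  obtain ⟨l₀, hl₀, hJ'⟩ := hJ u hu hu1
  refine ⟨min l₀ l1, lt_min hl₀ hl1', fun l hl hll => ?_⟩
  have hl2 : l < l₀ := hll.trans_le (min_le_left _ _)
  have hl3 : l < l1 := hll.trans_le (min_le_right _ _)
  have h6 := h5 ⟨hl, hl3⟩
  simp only [Set.mem_ofPred_eq] at h6
  rw [Real.dist_eq] at h6
  have h7 := hJ' l hl hl2
  rw [JO_eq, Jb_zero] at h7
  have h8 := R22_LSg_ge h hlb hl hτ hc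
  set S := ∑' p : Fin 3 → ℤ, R22_FW w (u ^ 16) (pm l p) with hS
  have h9 : |1 / 2 * (l ^ 3 * S) - Gw w| ≤ 2 * δ := by
    have := abs_sub_le (1 / 2 * (l ^ 3 * S))
      (1 / (16 * Real.pi ^ 3) * ∫ x, R22_FW w (u ^ 16) x) (Gw w)
    linarith
  have h10 : |c * (1 / 2 * (l ^ 3 * S) - Gw w)| ≤ η / 2 := by
    rw [abs_mul]
    calc |c| * |1 / 2 * (l ^ 3 * S) - Gw w| ≤ |c| * (2 * δ) := mul_le_mul_of_nonneg_left h9 hc0
      _ ≤ (|c| + 1) * (2 * δ) := mul_le_mul_of_nonneg_right (by linarith) (by positivity)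
      _ = η / 2 := by rw [hδ]; field_simp; norm_num
  have h11 := (abs_le.1 h10).1
  have h12 : 1 / 2 * l ^ 5 * (LSO (l ^ 2 * u ^ 16) 1 0 l + c / l ^ 2 * S)
      ≤ 1 / 2 * l ^ 5 * LSg (l ^ 2 * u ^ 16) l (Ew w lam l) :=
    mul_le_mul_of_nonneg_left h8 (by positivity)
  have e5 : 1 / 2 * l ^ 5 * (LSO (l ^ 2 * u ^ 16) 1 0 l + c / l ^ 2 * S)
      = 1 / 2 * l ^ 5 * LSO (l ^ 2 * u ^ 16) 1 0 l + c * (1 / 2 * (l ^ 3 * S)) := by
    field_simp
  rw [e5] at h12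
  linarith

theorem oj_w_up {β κ : ℝ} {w : (Fin 3 → ℝ) → ℝ} (h : Wg β w) (hκ : 0 < κ) :
    ∀ x : Fin 3 → ℝ, 0 < nr x →
      Jg (nr x ^ 2) + κ * ((1 + κ * β) ^ 2)⁻¹ * wjw w x ≤ Jg (nr x ^ 2 + κ * w x) := by
  intro x hx
  have h2 := Jg_up_gen (s := nr x ^ 2) (by positivity) (h.nonneg x) h.b0 (h.le_sq x) hκ
  unfold wjw
  have e : κ * ((1 + κ * β) ^ 2)⁻¹ * (w x * Jgd (nr x ^ 2))
      = κ * w x * (((1 + κ * β) ^ 2)⁻¹ * Jgd (nr x ^ 2)) := by ring
  rw [e]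
  linarith

theorem oj_w_dn {β κ : ℝ} {w : (Fin 3 → ℝ) → ℝ} (h : Wg β w) (hκ : 0 ≤ κ)
    (hκb : κ * β ≤ 1 / 8) :
    ∀ x : Fin 3 → ℝ, 0 < nr x →
      Jg (nr x ^ 2) + -(κ * ((1 - κ * β) ^ 2)⁻¹) * wjw w x ≤ Jg (nr x ^ 2 + -κ * w x) := by
  intro x hx
  have h2 := Jg_dn_gen (s := nr x ^ 2) (by positivity) (h.nonneg x) h.b0 (h.le_sq x) hκ hκb
  unfold wjw
  have e : κ * ((1 - κ * β) ^ 2)⁻¹ * (w x * Jgd (nr x ^ 2))
      = κ * w x * (((1 - κ * β) ^ 2)⁻¹ * Jgd (nr x ^ 2)) := by ring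
  rw [neg_mul, e]
  linarith

end Pool.Agent.Lib.MP_4952d6_mp.LK
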