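import Pool.Agent.Lib.MP_4952d6_mp.Pr.R22
import Pool.Agent.Lib.MP_4952d6_mp.Pd.D07

/-!
# Pr.R23 (leaf M3): the Gaussian-cosine weights

`wb b y x = (1 - exp (-b |x|²) cos (x·y)) / 2`.
* `wb_wg`: `nonneg`, `le_one`: `|exp (-s) cos t| ≤ 1`. `le_sq`: `1 - e^(-s) cos t = (1 - e^(-s)) + e^(-s) (1 - cos t) ≤ s + t²/2`, `t² ≤ |x|² |y|²` (`dot_sq_le`), `β = b + nr y ^ 2`.
  `ker`: for `l > 0`, `s = b l²`, `c : T3`, `c α = (l y α : UnitAddCircle)`: `K z = (hk s (z - c) + hk s (z + c)) / 2`: `BM` (`hk_bm`), `≥ 0`, even (`hk_neg`), integral one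
  (`hk_integral`, translation). `kh K p = ∫ K Re ch p = exp (-(s ksq p)) Re (ch p c)`: `∫ hk s z * ch p z = exp (-(s ksq p))` (Fourier coefficients of the heat kernel: see the lemma
  used in `htj`/`MD2_dfm_one` (Po/N13) or Pk/G11; `hk` even makes it real), translation `ch_add_arg`, `Re (ch p c) = cos (2 π l ∑ p α y α)` (`ch_real`, Pd/D07 l.60), and
  `∑ α, pm l p α * y α = 2 π l ∑ p α y α`, `nr (pm l p) ^ 2 = l ^ 2 * ksq p` (`pm_nr`).
* `Dww_wb_zero`: `wb b 0 (pm l p) = (1 - exp (-(b l² ksq p)))/2`, linearity (`Dm`: `Finset.mul_sum`, `tsum_mul_left` as in `Dm_source`).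
* `Gw_wb_zero`: `Gw (wb b 0) = Fb b / 2` (`integral_nr`, `sig_eq`, as in `Jnr_integral` and the definition of `Fb`, Po/N06).
* `wb_wv`: `wb b y x - wv y x = cos (x·y) (1 - exp (-b|x|²)) / 2`; so `|Dww (wb b y) l ψ - Dw y l ψ| ≤ Db (b l²) ψ / 2` (`Dm_mono`, `Dm_add` of Pd/D05; copy) and
  `|Gw (wb b y) - G3 y| ≤ Fb b / 2` (`integral_sub`, `Gw_wb_zero`).
-/

set_option autoImplicit false
set_option linter.unusedSectionVars false
set_option linter.unusedVariables false
open MeasureTheory Function Filter Topology Set ComplexConjugate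
open scoped ENNReal

namespace Pool.Agent.Lib.MP_4952d6_mp.LK

open LA O LB

/-- The Gaussian-cosine weights. -/
noncomputable def wb (b : ℝ) (y x : Fin 3 → ℝ) : ℝ :=
  (1 - Real.exp (-(b * nr x ^ 2)) * Real.cos (∑ α, x α * y α)) / 2

private lemma R23_ex (b : ℝ) (hb : 0 ≤ b) (x : Fin 3 → ℝ) :
    0 < Real.exp (-(b * nr x ^ 2)) ∧ Real.exp (-(b * nr x ^ 2)) ≤ 1 :=
  ⟨Real.exp_pos _, Real.exp_le_one_iff.2 (neg_nonpos.2 (by positivity))⟩

/-- `Re ∫ hk ch` is real. -/
private lemma R23_ft {s : ℝ} (hs : 0 < s) (p : Fin 3 → ℤ) :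
    ∫ z, (hk s z : ℂ) * ch p z ∂lam3 = ((Real.exp (-(s * ksq p)) : ℝ) : ℂ) := by
  have h := fc3_hk hs p
  unfold fc3 at h
  have h2 := congrArg (starRingEnd ℂ) h
  rw [← integral_conj, Complex.conj_ofReal] at h2
  rw [← h2]
  refine integral_congr_ae (Eventually.of_forall fun z => ?_)
  show (hk s z : ℂ) * ch p z = (starRingEnd ℂ) ((starRingEnd ℂ) (ch p z) * (hk s z : ℂ))
  rw [map_mul, Complex.conj_conj, Complex.conj_ofReal, mul_comm]

private lemma R23_hkint {s : ℝ} (hs : 0 < s) : Integrable (hk s) lam3 := (H4_hk_bm hs).integrable lam3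

private lemma R23_chint {s : ℝ} (hs : 0 < s) (p : Fin 3 → ℤ) :
    Integrable (fun z => (hk s z : ℂ) * ch p z) lam3 := by
  refine (R23_hkint hs).ofReal.mul_bdd (c := 1) (ch_continuous p).aestronglyMeasurable
    (Eventually.of_forall fun z => ?_)
  rw [ch_norm]

private lemma R23_shift {s : ℝ} (hs : 0 < s) (p : Fin 3 → ℤ) (c : T3) :
    ∫ z, hk s (z - c) * (ch p z).re ∂lam3 = Real.exp (-(s * ksq p)) * (ch p c).re := by
  have h1 : ∫ z, hk s (z - c) * (ch p z).re ∂lam3 = ∫ z, hk s z * (ch p (z + c)).re ∂lam3 := by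
    rw [← integral_sub_right_eq_self (μ := lam3) (fun z => hk s z * (ch p (z + c)).re) c]
    refine integral_congr_ae (Eventually.of_forall fun z => ?_)
    show hk s (z - c) * (ch p z).re = hk s (z - c) * (ch p (z - c + c)).re
    rw [sub_add_cancel]
  have h2 : ∀ z, hk s z * (ch p (z + c)).re = (((hk s z : ℂ) * ch p z) * ch p c).re := by
    intro z
    rw [ch_add_arg, mul_assoc, Complex.re_ofReal_mul]
  rw [h1, integral_congr_ae (Eventually.of_forall h2)]
  have h3 : ∫ z, (((hk s z : ℂ) * ch p z) * ch p c).re ∂lam3 =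
      (∫ z, ((hk s z : ℂ) * ch p z) * ch p c ∂lam3).re :=
    integral_re ((R23_chint hs p).mul_const (ch p c))
  rw [h3, integral_mul_const, R23_ft hs p, Complex.re_ofReal_mul]

/-- The kernel. -/
private noncomputable def R23_K (s : ℝ) (c z : T3) : ℝ := (hk s (z - c) + hk s (z + c)) / 2

private lemma R23_ker {s : ℝ} (hs : 0 < s) (c : T3) : Ker (R23_K s c) := by
  have hb1 : BM (fun z : T3 => hk s (z - c)) := (H4_hk_bm hs).comp (measurable_id.sub_const c)
  have hb2 : BM (fun z : T3 => hk s (z + c)) := (H4_hk_bm hs).comp (measurable_id.add_const c)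
  refine ⟨?_, ?_, ?_, ?_⟩
  · have h := BM.const_mul (1 / 2 : ℝ) (hb1.add hb2)
    have e : R23_K s c = fun z => (1 / 2 : ℝ) * (hk s (z - c) + hk s (z + c)) := by
      funext z
      unfold R23_K
      ring
    rw [e]
    exact h
  · intro z
    unfold R23_K
    have h1 := hk_nonneg s (z - c)
    have h2 := hk_nonneg s (z + c)
    linarith
  · intro z
    unfold R23_K
    have h1 : -z - c = -(z + c) := by abel
    have h2 : -z + c = -(z - c) := by abel
    rw [h1, h2, hk_neg, hk_neg, add_comm]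
  · have e : ∀ z, R23_K s c z = (1 / 2 : ℝ) * (hk s (z - c) + hk s (z + c)) := by
      intro z
      unfold R23_K
      ring
    rw [integral_congr_ae (Eventually.of_forall e), integral_const_mul,
      integral_add (hb1.integrable lam3) (hb2.integrable lam3),
      integral_sub_right_eq_self (μ := lam3) (fun z => hk s z) c,
      integral_add_right_eq_self (μ := lam3) (fun z => hk s z) c, hk_integral hs]
    norm_num

private lemma R23_kh {s : ℝ} (hs : 0 < s) (c : T3) (p : Fin 3 → ℤ) :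
    kh (R23_K s c) p = Real.exp (-(s * ksq p)) * (ch p c).re := by
  unfold kh
  have hre : BM (fun z : T3 => (ch p z).re) :=
    ⟨Complex.measurable_re.comp (ch_continuous p).measurable, 1, fun z => by
      rw [← ch_norm p z]
      exact Complex.abs_re_le_norm _⟩
  have hb1 : BM (fun z : T3 => hk s (z - c)) := (H4_hk_bm hs).comp (measurable_id.sub_const c)
  have hb2 : BM (fun z : T3 => hk s (z + c)) := (H4_hk_bm hs).comp (measurable_id.add_const c)
  have e : ∀ z, R23_K s c z * (ch p z).re =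
      (1 / 2 : ℝ) * (hk s (z - c) * (ch p z).re + hk s (z + c) * (ch p z).re) := by
    intro z
    unfold R23_K
    ring
  have h2 := R23_shift hs p (-c)
  simp only [sub_neg_eq_add] at h2
  rw [integral_congr_ae (Eventually.of_forall e), integral_const_mul,
    integral_add ((hb1.mul hre).integrable lam3) ((hb2.mul hre).integrable lam3),
    R23_shift hs p c, h2, ch_neg_arg, Complex.conj_re]
  ring

private lemma R23_zero (b : ℝ) (x : Fin 3 → ℝ) :
    wb b 0 x = (1 - Real.exp (-(b * nr x ^ 2))) / 2 := by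
  unfold wb
  simp

private lemma R23_wd (b : ℝ) (hb : 0 ≤ b) (y x : Fin 3 → ℝ) :
    |wb b y x - wv y x| ≤ wb b 0 x := by
  rw [R23_zero]
  unfold wb wv
  obtain ⟨h1, h2⟩ := R23_ex b hb x
  have h3 := Real.cos_le_one (∑ α, x α * y α)
  have h4 := Real.neg_one_le_cos (∑ α, x α * y α)
  rw [abs_le]
  constructor <;> nlinarith

theorem wb_wg {b : ℝ} (hb : 0 < b) (y : Fin 3 → ℝ) : Wg (b + nr y ^ 2) (wb b y) := by
  refine ⟨by positivity, ?_, ?_, ?_, ?_, ?_⟩
  · unfold wb
    have h1 : Continuous fun x : Fin 3 → ℝ => Real.exp (-(b * nr x ^ 2)) :=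
      Real.continuous_exp.comp (continuous_const.mul (nr_cont.pow 2)).neg
    have h2 : Continuous fun x : Fin 3 → ℝ => Real.cos (∑ α, x α * y α) := by fun_prop
    exact (continuous_const.sub (h1.mul h2)).div_const 2
  · intro x
    unfold wb
    obtain ⟨h1, h2⟩ := R23_ex b hb.le x
    have h3 := Real.cos_le_one (∑ α, x α * y α)
    nlinarith
  · intro x
    unfold wb
    obtain ⟨h1, h2⟩ := R23_ex b hb.le x
    have h4 := Real.neg_one_le_cos (∑ α, x α * y α)
    nlinarith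
  · intro x
    unfold wb
    obtain ⟨h1, h2⟩ := R23_ex b hb.le x
    have h3 := Real.cos_le_one (∑ α, x α * y α)
    have h5 := Real.one_sub_sq_div_two_le_cos (x := ∑ α, x α * y α)
    have h6 := dot_sq_le x y
    have h7 := Real.add_one_le_exp (-(b * nr x ^ 2))
    have h8 : Real.exp (-(b * nr x ^ 2)) * (1 - Real.cos (∑ α, x α * y α)) ≤
        1 - Real.cos (∑ α, x α * y α) :=
      mul_le_of_le_one_left (by linarith) h2
    have h9 : 0 ≤ b * nr x ^ 2 := by positivity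
    have h10 : 0 ≤ nr x ^ 2 * nr y ^ 2 := by positivity
    nlinarith
  · intro l hl
    have hs : 0 < b * l ^ 2 := by positivity
    refine ⟨R23_K (b * l ^ 2) (fun α => ((l * y α : ℝ) : UnitAddCircle)), R23_ker hs _, fun p => ?_⟩
    rw [R23_kh hs, ch_real, Complex.exp_ofReal_mul_I_re]
    unfold wb
    have h1 : b * nr (pm l p) ^ 2 = b * l ^ 2 * ksq p := by
      rw [pm_nr]
      ring
    have h2 : ∑ α, pm l p α * y α = 2 * Real.pi * ∑ α, (p α : ℝ) * (l * y α) := by
      rw [Finset.mul_sum]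
      refine Finset.sum_congr rfl fun α _ => ?_
      unfold pm
      ring
    rw [h1, h2]

theorem Dww_wb_zero {N : ℕ} (b l : ℝ) (ψ : (Fin N → T3) → ℂ) :
    Dww (wb b 0) l ψ = Db (b * l ^ 2) ψ / 2 := by
  unfold Dww
  have h : (fun p => wb b 0 (pm l p)) =
      fun p => (1 / 2 : ℝ) * (1 - Real.exp (-(b * l ^ 2 * ksq p))) := by
    funext p
    rw [R23_zero, pm_nr]
    ring_nf
  rw [h, Dm_smul]
  unfold Db
  ring

theorem Gw_wb_zero {b : ℝ} (hb : 0 < b) : Gw (wb b 0) = Fb b / 2 := by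
  unfold Gw Fb
  have e : ∀ x : Fin 3 → ℝ, wjw (wb b 0) x =
      (fun r : ℝ => (1 - Real.exp (-(b * r ^ 2))) / 2 * Jgd (r ^ 2)) (nr x) := by
    intro x
    unfold wjw
    rw [R23_zero]
  rw [integral_congr_ae (Eventually.of_forall e),
    integral_nr (fun r : ℝ => (1 - Real.exp (-(b * r ^ 2))) / 2 * Jgd (r ^ 2)), sig_eq]
  have e2 : ∫ r in Ioi (0 : ℝ), r ^ 2 * ((1 - Real.exp (-(b * r ^ 2))) / 2 * Jgd (r ^ 2)) =
      (1 / 2 : ℝ) * ∫ r in Ioi (0 : ℝ), (1 - Real.exp (-(b * r ^ 2))) * (r ^ 2 * Jgd (r ^ 2)) := by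
    rw [← integral_const_mul]
    refine integral_congr_ae (Eventually.of_forall fun r => ?_)
    show r ^ 2 * ((1 - Real.exp (-(b * r ^ 2))) / 2 * Jgd (r ^ 2)) =
      (1 / 2 : ℝ) * ((1 - Real.exp (-(b * r ^ 2))) * (r ^ 2 * Jgd (r ^ 2)))
    ring
  rw [e2]
  have := Real.pi_pos
  field_simp
  ring

theorem Dww_wb_near {N : ℕ} {b : ℝ} (hb : 0 < b) (y : Fin 3 → ℝ) (l : ℝ) {ψ : (Fin N → T3) → ℂ}
    (hψ : MemLp ψ 2 (piN (Fin N))) :
    |Dww (wb b y) l ψ - Dw y l ψ| ≤ Db (b * l ^ 2) ψ / 2 := by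
  have hg1 := wb_wg hb y
  have hg0 := wb_wg hb 0
  have a1 : ∀ p, |wb b y (pm l p)| ≤ 2 := fun p => by
    rw [abs_of_nonneg (hg1.nonneg _)]
    linarith [hg1.le_one (pm l p)]
  have a0 : ∀ p, |wb b 0 (pm l p)| ≤ 2 := fun p => by
    rw [abs_of_nonneg (hg0.nonneg _)]
    linarith [hg0.le_one (pm l p)]
  have av : ∀ p, |wv y (pm l p)| ≤ 2 := fun p => by
    rw [abs_of_nonneg (wv_nonneg _ _)]
    linarith [wv_le_one y (pm l p)]
  have s1 : ∀ p, |wb b y (pm l p) + wb b 0 (pm l p)| ≤ 2 := fun p => by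
    rw [abs_of_nonneg (add_nonneg (hg1.nonneg _) (hg0.nonneg _))]
    linarith [hg1.le_one (pm l p), hg0.le_one (pm l p)]
  have s2 : ∀ p, |wv y (pm l p) + wb b 0 (pm l p)| ≤ 2 := fun p => by
    rw [abs_of_nonneg (add_nonneg (wv_nonneg _ _) (hg0.nonneg _))]
    linarith [wv_le_one y (pm l p), hg0.le_one (pm l p)]
  have hd : ∀ p, |wb b y (pm l p) - wv y (pm l p)| ≤ wb b 0 (pm l p) := fun p =>
    R23_wd b hb.le y (pm l p)
  have e0 : Dm (fun p => wb b 0 (pm l p)) ψ = Db (b * l ^ 2) ψ / 2 := Dww_wb_zero b l ψ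
  have m1 : Dm (fun p => wb b y (pm l p)) ψ ≤
      Dm (fun p => wv y (pm l p) + wb b 0 (pm l p)) ψ :=
    Dm_mono hψ (fun p => by linarith [(abs_le.1 (hd p)).2]) a1 s2
  have m2 : Dm (fun p => wv y (pm l p)) ψ ≤
      Dm (fun p => wb b y (pm l p) + wb b 0 (pm l p)) ψ :=
    Dm_mono hψ (fun p => by linarith [(abs_le.1 (hd p)).1]) av s1
  rw [Dm_add hψ av a0, e0] at m1
  rw [Dm_add hψ a1 a0, e0] at m2
  unfold Dww Dw
  rw [abs_le]
  constructor <;> linarith

theorem Gw_wb_near {b : ℝ} (hb : 0 < b) (y : Fin 3 → ℝ) : |Gw (wb b y) - G3 y| ≤ Fb b / 2 := by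
  have i1 := wjw_integrable (wb_wg hb y)
  have i0 := wjw_integrable (wb_wg hb 0)
  have iv := wj_integrable y
  have hpi := Real.pi_pos
  rw [← Gw_wb_zero hb]
  unfold Gw G3
  rw [← mul_sub, ← integral_sub i1 iv, abs_mul, abs_of_nonneg (by positivity)]
  refine mul_le_mul_of_nonneg_left ?_ (by positivity)
  rw [← Real.norm_eq_abs]
  refine norm_integral_le_of_norm_le i0 (Eventually.of_forall fun x => ?_)
  rw [Real.norm_eq_abs]
  unfold wjw wj
  rw [← sub_mul, abs_mul]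
  rcases (nr_nonneg x).eq_or_lt with h | h
  · have h1 : wb b y x - wv y x = 0 := by
      have h2 := R23_wd b hb.le y x
      have h3 := (wb_wg hb 0).le_sq x
      rw [← h] at h3
      have h4 : wb b 0 x ≤ 0 := by simpa using h3
      exact abs_eq_zero.1 (le_antisymm (h2.trans h4) (abs_nonneg _))
    have h5 : wb b 0 x = 0 := by
      have h3 := (wb_wg hb 0).le_sq x
      rw [← h] at h3
      have h4 : wb b 0 x ≤ 0 := by simpa using h3
      exact le_antisymm h4 ((wb_wg hb 0).nonneg x)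
    rw [h1, h5]
    simp
  · have h6 := (Jgd_pos (s := nr x ^ 2) (by positivity)).le
    rw [abs_of_nonneg h6]
    exact mul_le_mul_of_nonneg_right (R23_wd b hb.le y x) h6

end Pool.Agent.Lib.MP_4952d6_mp.LK
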