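import Pool.Agent.Lib.MP_4952d6_mp.Pr.R20
import Pool.Agent.Lib.MP_4952d6_mp.Pr.R22
import Pool.Agent.Lib.MP_4952d6_mp.Pd.D04
import Pool.Agent.Lib.MP_4952d6_mp.Pq.P21

/-!
# Pr.R24 (leaf N1a): minimisers with a source, torus form

`l = a / u ^ 160`, `1 / l² = N a` (`F2_one`). Let `h : Wg β w`.
1. Kernel: `h.ker l`: `K`, `Ker K`, `w (pm l p) = (1 - kh K p)/2`. If `0 ≤ lam` put `ε = 1`, `Lam = lam / (2 l²)`: `Lam ∑ rk K 1 i φ = lam / l² * Dww w l φ` (`rk_Dww`); if `lam < 0` put `ε = -1`,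
   `Lam = -lam / (2 l²)`: `Lam ∑ rk K (-1) i φ = Lam (2 N - 2 Dww) = const + lam / l² * Dww w l φ` (`rk_neg` of R02, `∫‖φ‖² = 1`; `tAdm` gives `MemLp` and norm one). `Lam * l² ≤ 1`, `0 ≤ Lam`. `gk_eq` (R02):
   `ofReal Lam * ∑ gk = ofReal (Lam * ∑ rk)`.
2. `tk_statement` (R17) gives a minimiser `ψ` (`P14_aem` of Pq/P14 for the measurability; an admissible function from `ug_statement` (Pq/P21), as in `lbg_torus` (Pq/P14); `V_int`, `V_top` as there); `tE ψ < ⊤`,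
   `tE φ < ⊤` (`tAdm`), so in real numbers `E(ψ) + lam N a Dww(ψ) ≤ E(φ) + lam N a Dww(φ)` for every admissible `φ`.
3. `locO_torusK θ cw 64` (R20), `Y = u ^ 160`, `t = (a/u^152)²`, `T = (a/u^160)²/u³`, `b = (a/u^160)²`; `t ≤ T` and `1 ≤ N (√(t/8))³` as in the proof of `om_statement` (Po/N29 l.179-221), `64 T = 64 b/u³`
   gives `LocO C u t T b ψ`.
-/

set_option autoImplicit false
set_option linter.unusedSectionVars false
set_option linter.unusedVariables false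
open MeasureTheory Function Filter Topology Set ComplexConjugate
open scoped ENNReal

namespace Pool.Agent.Lib.MP_4952d6_mp.LK

open LA O LB

open LG

private lemma R24_real {N : ℕ} {R₀ : ℝ} {𝒱 : T3 → ℝ≥0∞} {K : T3 → ℝ} (hK : Ker K) {ε Lam : ℝ}
    (hL : 0 ≤ Lam) {ψ φ : (Fin N → T3) → ℂ} (hψ : tAdm R₀ 𝒱 ψ) (hφ : tAdm R₀ 𝒱 φ)
    (h : tE 𝒱 ψ + ENNReal.ofReal Lam * ∑ i, gk K ε i ψ
      ≤ tE 𝒱 φ + ENNReal.ofReal Lam * ∑ i, gk K ε i φ) :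
    (tE 𝒱 ψ).toReal + Lam * ∑ i, rk K ε i ψ ≤ (tE 𝒱 φ).toReal + Lam * ∑ i, rk K ε i φ := by
  have h0 : ∀ (χ : (Fin N → T3) → ℂ) (i : Fin N), 0 ≤ rk K ε i χ := fun χ i => by
    unfold rk
    refine mul_nonneg (by norm_num) (integral_nonneg fun x => integral_nonneg fun z => ?_)
    exact mul_nonneg (hK.nonneg _) (sq_nonneg _)
  have h1 : ∀ χ : (Fin N → T3) → ℂ, 0 ≤ Lam * ∑ i, rk K ε i χ := fun χ =>
    mul_nonneg hL (Finset.sum_nonneg fun i _ => h0 χ i)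
  have e : ∀ χ : (Fin N → T3) → ℂ, tAdm R₀ 𝒱 χ → tE 𝒱 χ + ENNReal.ofReal Lam * ∑ i, gk K ε i χ
      = ENNReal.ofReal ((tE 𝒱 χ).toReal + Lam * ∑ i, rk K ε i χ) := by
    intro χ hχ
    rw [ENNReal.ofReal_add ENNReal.toReal_nonneg (h1 χ), ENNReal.ofReal_toReal hχ.2.2.2.ne,
      ENNReal.ofReal_mul hL, ENNReal.ofReal_sum_of_nonneg fun i _ => h0 χ i]
    congr 2
    exact Finset.sum_congr rfl fun i _ => gk_eq hK ε hχ.1 i
  rw [e ψ hψ, e φ hφ, ENNReal.ofReal_le_ofReal_iff (add_nonneg ENNReal.toReal_nonneg (h1 φ))] at h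
  exact h

/-- the jump kernel, the sign and the strength for the source `lam w` -/
private lemma R24_data {N : ℕ} {β lam l : ℝ} {w : (Fin 3 → ℝ) → ℝ} (hw : Wg β w) (hl : 0 < l)
    (h2 : |lam| ≤ 1 / 8) :
    ∃ (K : T3 → ℝ) (ε Lam c0 : ℝ), Ker K ∧ (ε = 1 ∨ ε = -1) ∧ 0 ≤ Lam ∧ Lam * l ^ 2 ≤ 1 ∧
      ∀ (R₀ : ℝ) (𝒱 : T3 → ℝ≥0∞) (χ : (Fin N → T3) → ℂ), tAdm R₀ 𝒱 χ →
        Lam * ∑ i, rk K ε i χ = c0 + lam * (1 / l ^ 2) * Dww w l χ := by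
  obtain ⟨K, hK, hKw⟩ := hw.ker l hl
  have hl2 : l ^ 2 ≠ 0 := by positivity
  obtain ⟨h3, h4⟩ := abs_le.1 h2
  rcases le_total 0 lam with hs | hs
  · refine ⟨K, 1, lam / (2 * l ^ 2), 0, hK, Or.inl rfl, by positivity, ?_, fun R₀ 𝒱 χ hχ => ?_⟩
    · have e : lam / (2 * l ^ 2) * l ^ 2 = lam / 2 := by field_simp
      rw [e]
      linarith
    · rw [rk_Dww hK hKw hχ.1]
      field_simp
      ring
  · refine ⟨K, -1, -lam / (2 * l ^ 2), -lam / l ^ 2 * N, hK, Or.inr rfl,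
      div_nonneg (by linarith) (by positivity), ?_, fun R₀ 𝒱 χ hχ => ?_⟩
    · have e : -lam / (2 * l ^ 2) * l ^ 2 = -lam / 2 := by field_simp
      rw [e]
      linarith
    · have e1 : ∑ i, rk K (-1) i χ = 2 * N - 2 * Dww w l χ := by
        rw [← rk_Dww hK hKw hχ.1]
        have e2 : ∀ i : Fin N, rk K (-1) i χ = 2 - rk K 1 i χ := fun i => by
          rw [rk_neg hK hχ.1 i, hχ.2.1, mul_one]
        rw [Finset.sum_congr rfl fun i _ => e2 i, Finset.sum_sub_distrib, Finset.sum_const,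
          Finset.card_univ, Fintype.card_fin, nsmul_eq_mul]
        ring
      rw [e1]
      field_simp
      ring

private lemma R24_num {N : ℕ} {a u : ℝ} (ha : 0 < a) (hu : 0 < u) (hu1 : u ≤ 1 / 2)
    (hN : (N : ℝ) * a ^ 3 = u ^ 320) :
    1 ≤ N * (Real.sqrt ((a / u ^ 152) ^ 2 / 8)) ^ 3 ∧
      (a / u ^ 152) ^ 2 ≤ (a / u ^ 160) ^ 2 / u ^ 3 := by
  have hu1' : u ≤ 1 := by linarith
  have hN0 : (0 : ℝ) ≤ N := Nat.cast_nonneg N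
  constructor
  · have h1 : a / u ^ 152 / 3 ≤ Real.sqrt ((a / u ^ 152) ^ 2 / 8) := by
      refine Real.le_sqrt_of_sq_le ?_
      rw [div_pow (a / u ^ 152) 3 2]
      exact div_le_div_of_nonneg_left (sq_nonneg _) (by norm_num) (by norm_num)
    have h2 : (a / u ^ 152 / 3) ^ 3 ≤ Real.sqrt ((a / u ^ 152) ^ 2 / 8) ^ 3 :=
      pow_le_pow_left₀ (by positivity) h1 3
    have h3 : (N : ℝ) * (a / u ^ 152 / 3) ^ 3 = 1 / (27 * u ^ 136) := by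
      have e : (N : ℝ) * (a / u ^ 152 / 3) ^ 3 = (N * a ^ 3) / (27 * u ^ 456) := by
        rw [div_pow, div_pow]
        ring
      rw [e, hN, show (456 : ℕ) = 320 + 136 by norm_num, pow_add]
      field_simp
    have h4 : 27 * u ^ 136 ≤ 1 := by
      have h5 : u ^ 136 ≤ u ^ 5 := pow_le_pow_of_le_one hu.le hu1' (by norm_num)
      have h6 : u ^ 5 ≤ (1 / 2) ^ 5 := pow_le_pow_left₀ hu.le hu1 5
      norm_num at h6
      linarith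
    have h7 : 1 ≤ 1 / (27 * u ^ 136) := by
      rw [le_div_iff₀ (by positivity)]
      linarith
    calc (1 : ℝ) ≤ 1 / (27 * u ^ 136) := h7
      _ = (N : ℝ) * (a / u ^ 152 / 3) ^ 3 := h3.symm
      _ ≤ _ := mul_le_mul_of_nonneg_left h2 hN0
  · rw [div_pow, div_pow, div_div, ← pow_mul, ← pow_mul, ← pow_add]
    exact div_le_div_of_nonneg_left (sq_nonneg _) (by positivity)
      (pow_le_pow_of_le_one hu.le hu1' (by norm_num))

/-- **Minimisers with a source.** -/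
theorem src_min (θ cw : ℝ) (hcw : 0 < cw) {β lam : ℝ} {w : (Fin 3 → ℝ) → ℝ} (hw : Wg β w)
    (h2 : |lam| ≤ 1 / 8) :
    ∃ C c' u₀ : ℝ, 0 < C ∧ 0 < c' ∧ 0 < u₀ ∧ ∀ u : ℝ, 0 < u → u < u₀ → ∃ a₀ : ℝ, 0 < a₀ ∧
      ∀ (N : ℕ) (W f Q sh : ℝ → ℝ) (R₀ R a : ℝ) (𝒱 : T3 → ℝ≥0∞), a < a₀ →
      RegG θ cw c' (u ^ 160) W f Q sh R₀ R a N 𝒱 →
      ∃ ψ : (Fin N → T3) → ℂ, tAdm R₀ 𝒱 ψ ∧
        LocO C u ((a / u ^ 152) ^ 2) ((a / u ^ 160) ^ 2 / u ^ 3) ((a / u ^ 160) ^ 2) ψ ∧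
        ∀ φ : (Fin N → T3) → ℂ, tAdm R₀ 𝒱 φ →
          (tE 𝒱 ψ).toReal + lam * (N * a) * Dww w (a / u ^ 160) ψ
            ≤ (tE 𝒱 φ).toReal + lam * (N * a) * Dww w (a / u ^ 160) φ := by
  obtain ⟨C, Y1, hC, hY1, hloc⟩ := locO_torusK θ cw 64 hcw (by norm_num)
  obtain ⟨CU, Y3, hCU, hY3, hU⟩ := ug_statement θ 1 1 one_pos le_rfl one_pos
  refine ⟨C, 1, min (1 / 2) (min Y1 Y3), hC, one_pos, lt_min (by norm_num) (lt_min hY1 hY3),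
    fun u hu hult => ?_⟩
  have hu12 : u < 1 / 2 := hult.trans_le (min_le_left _ _)
  have hu1 : u ≤ 1 := by linarith
  have hY : 0 < u ^ 160 := by positivity
  have hYu : u ^ 160 ≤ u := by
    calc u ^ 160 = u * u ^ 159 := by ring
      _ ≤ u * 1 := mul_le_mul_of_nonneg_left (pow_le_one₀ hu.le hu1) hu.le
      _ = u := mul_one _
  have hYa : u ^ 160 < Y1 :=
    hYu.trans_lt (hult.trans_le ((min_le_right _ _).trans (min_le_left _ _)))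
  have hYb : u ^ 160 < Y3 :=
    hYu.trans_lt (hult.trans_le ((min_le_right _ _).trans (min_le_right _ _)))
  obtain ⟨a3, ha3, hU'⟩ := hU (u ^ 160) hY hYb
  refine ⟨min (u ^ 160 / 8) a3, lt_min (by positivity) ha3, ?_⟩
  intro N W f Q sh R₀ R a 𝒱 halt hr
  have ha : 0 < a := hr.sc.a_pos
  have ha8 : a ≤ u ^ 160 / 8 := (halt.trans_le (min_le_left _ _)).le
  have haC : a < a3 := halt.trans_le (min_le_right _ _)
  have hNa : (N : ℝ) * a ^ 3 = u ^ 320 := by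
    rw [hr.Na]
    ring
  obtain ⟨e1, -, -⟩ := F2_one ha hu hNa
  have hl : 0 < a / u ^ 160 := by positivity
  have hWfin : ∫⁻ y, ENNReal.ofReal (2 * W (rr y)) ∂lam3 ≠ ⊤ := by
    obtain ⟨M, hM0, hM⟩ := hr.sc.exists_M
    refine ne_top_of_le_ne_top (b := ENNReal.ofReal (2 * M)) ENNReal.ofReal_ne_top ?_
    calc ∫⁻ y, ENNReal.ofReal (2 * W (rr y)) ∂lam3
        ≤ ∫⁻ _, ENNReal.ofReal (2 * M) ∂lam3 := lintegral_mono fun y =>
          ENNReal.ofReal_le_ofReal (mul_le_mul_of_nonneg_left (hM _) (by norm_num))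
      _ = ENNReal.ofReal (2 * M) := by rw [lintegral_const, measure_univ, mul_one]
  have hVfin : ∫⁻ y, 𝒱 y ∂lam3 ≠ ⊤ :=
    ne_top_of_le_ne_top (ENNReal.add_ne_top.2 ⟨hWfin, ENNReal.ofReal_ne_top⟩) hr.V_int
  obtain ⟨χ, hχ, -, -⟩ := hU' N W f Q R₀ R a hr.sc haC hr.Na hr.Rle 𝒱 hr.V_meas hVfin hr.V_ge
  obtain ⟨K, ε, Lam, c0, hK, hε, hL0, hL1, hLam⟩ := R24_data (N := N) (lam := lam) hw hl h2
  obtain ⟨ψ, hψ, hmin⟩ := tk_statement N R₀ Lam 𝒱 hK hε (LG.P14_aem hr.V_meas) hL0 ⟨χ, hχ⟩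
  obtain ⟨n1, n2⟩ := R24_num ha hu hu12.le hNa
  refine ⟨ψ, hψ, ?_, fun φ hφ => ?_⟩
  · refine hloc (u ^ 160) hY hYa N W f Q sh R₀ R a Lam 1 K ε 𝒱 ha8 le_rfl hr hK hε hL0 hL1 ψ hψ hmin
      u hu hu1 _ _ _ (by positivity) n1 n2 (by positivity) (le_of_eq ?_)
    ring
  · have h := R24_real hK hL0 hψ hφ (hmin φ hφ)
    rw [hLam R₀ 𝒱 ψ hψ, hLam R₀ 𝒱 φ hφ, e1] at h
    linarith

end Pool.Agent.Lib.MP_4952d6_mp.LK
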