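import Pool.Agent.Lib.MP_4952d6_mp.Pr.R24

/-!
# Pr.R24b (leaf N1b): a priori bound for minimisers with a source

`l = a / u ^ 160`, `1 / l² = N a` (`F2_one`), `X = N² a u ^ 160 = (N a) (N u ^ 160)`, `N a ≥ 0`.
Lower bound for `E(ψ)`: `ol_statement` (Po/N34) with `b = 1`, `lam = -1/8` (as in `F2_step`, Po/N11, with `oj_statement`), uses `LocO` only: `E(ψ) ≥ 4πN²a + X (Jb 1 (-1/8) - 1) + (1/8 - C'' u) N a Db (l²) ψ - X`.
Upper bound: `hmin` with `φ = χ` = the trial state of `ug_statement` (Pq/P21; `UGStatement`, Pq/P14) for `s = 1`, `η = 1`: `E(χ) ≤ 4πN²a + X C₁` (with `V_int` as in `Gc_step` (Pd/D04)/`lbg_torus` (Pq/P14), `c' = 1/CU`),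
`Dww(χ) ≤ ∑ nuQ ≤ N u^160 C₂` (`Dww_le_nuQ`).
If `lam ≥ 0`: `E(ψ) ≤ E(χ) + lam N a Dww(χ)` (`Dww(ψ) ≥ 0`). If `lam < 0`: `E(ψ) ≤ E(χ) + |lam| N a Dww(ψ)` and `Dww(ψ) ≤ 2 max 1 β Db (l²) ψ` (`Dww_le_Db`), `|lam| 2 max 1 β ≤ 1/16`.
So `(1/8 - 1/16 - C'' u) N a Db (l²) ψ ≤ X C₃`, and `C'' u ≤ 1/32` for small `u`.
-/

set_option autoImplicit false
set_option linter.unusedSectionVars false
set_option linter.unusedVariables false
open MeasureTheory Function Filter Topology Set ComplexConjugate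
open scoped ENNReal

namespace Pool.Agent.Lib.MP_4952d6_mp.LK

open LA O LB

open LG

private lemma R24b_Db0 {N : ℕ} (b : ℝ) (hb : 0 ≤ b) (ψ : (Fin N → T3) → ℂ) : 0 ≤ Db b ψ := by
  unfold Db Dm
  refine Finset.sum_nonneg fun j _ => tsum_nonneg fun k => mul_nonneg ?_ (sq_nonneg _)
  have : Real.exp (-(b * ksq (k j))) ≤ 1 := by
    rw [Real.exp_le_one_iff]
    have : 0 ≤ b * ksq (k j) := mul_nonneg hb (ksq_nonneg _)
    linarith
  linarith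

/-- Numbers. -/
private lemma R24b_num {A X J1 C u P D B Eψ Eχ lam Dψ Dχ β n1 : ℝ} (hA : 0 ≤ A) (hX : 0 ≤ X) (hu : 0 < u)
    (hC : 0 ≤ C) (hCu : C * u ≤ 1 / 32) (hn : 0 ≤ n1) (hDψ : 0 ≤ Dψ) (hDχ : 0 ≤ Dχ)
    (h1 : |lam| * β ≤ 1 / 32) (h2 : |lam| ≤ 1 / 32)
    (hlow : B + (J1 - 1) * X - C * u * (X + A * n1) + 1 / 8 * A * n1 ≤ Eψ)
    (hup : Eχ ≤ B + X * (|P| + 2)) (hmin : Eψ + lam * A * Dψ ≤ Eχ + lam * A * Dχ)
    (hχ : A * Dχ ≤ X * (|D| + 1)) (hDb : Dψ ≤ 2 * max 1 β * n1) :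
    A * n1 ≤ 32 * (|P| + |D| + |J1| + 5) * X := by
  have h3 : |lam| * max 1 β ≤ 1 / 32 := by
    rcases le_total (1 : ℝ) β with h | h
    · rw [max_eq_right h]
      exact h1
    · rw [max_eq_left h, mul_one]
      exact h2
  have hAn : 0 ≤ A * n1 := mul_nonneg hA hn
  have h4 : -lam * A * Dψ ≤ 1 / 16 * (A * n1) := by
    have h5 : -lam * (A * Dψ) ≤ |lam| * (A * Dψ) :=
      mul_le_mul_of_nonneg_right (neg_le_abs lam) (mul_nonneg hA hDψ)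
    have h6 : |lam| * (A * Dψ) ≤ |lam| * (A * (2 * max 1 β * n1)) :=
      mul_le_mul_of_nonneg_left (mul_le_mul_of_nonneg_left hDb hA) (abs_nonneg _)
    have h7 : |lam| * (A * (2 * max 1 β * n1)) = 2 * (|lam| * max 1 β) * (A * n1) := by ring
    have h8 : 2 * (|lam| * max 1 β) * (A * n1) ≤ 1 / 16 * (A * n1) :=
      mul_le_mul_of_nonneg_right (by linarith) hAn
    linarith
  have h5 : lam * A * Dχ ≤ X * (|D| + 1) := by
    have h6 : lam * (A * Dχ) ≤ 1 * (A * Dχ) :=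
      mul_le_mul_of_nonneg_right ((le_abs_self lam).trans (by linarith)) (mul_nonneg hA hDχ)
    linarith
  have h6 : C * u * (X + A * n1) ≤ 1 / 32 * (X + A * n1) := mul_le_mul_of_nonneg_right hCu (by linarith)
  have h7 : -(|J1| * X) ≤ J1 * X := by
    have := mul_le_mul_of_nonneg_right (neg_abs_le J1) hX
    linarith
  nlinarith

/-- **A priori bound for minimisers with a source.** -/
theorem src_ap (θ cw : ℝ) (hcw : 0 < cw) {β lam : ℝ} {w : (Fin 3 → ℝ) → ℝ} (hw : Wg β w)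
    (h1 : |lam| * β ≤ 1 / 32) (h2 : |lam| ≤ 1 / 32) (C : ℝ) :
    ∃ M c' u₀ : ℝ, 0 < M ∧ 0 < c' ∧ 0 < u₀ ∧ ∀ u : ℝ, 0 < u → u < u₀ → ∃ a₀ : ℝ, 0 < a₀ ∧
      ∀ (N : ℕ) (W f Q sh : ℝ → ℝ) (R₀ R a : ℝ) (𝒱 : T3 → ℝ≥0∞), a < a₀ →
      RegG θ cw c' (u ^ 160) W f Q sh R₀ R a N 𝒱 →
      ∀ ψ : (Fin N → T3) → ℂ, tAdm R₀ 𝒱 ψ →
        LocO C u ((a / u ^ 152) ^ 2) ((a / u ^ 160) ^ 2 / u ^ 3) ((a / u ^ 160) ^ 2) ψ →
        (∀ φ : (Fin N → T3) → ℂ, tAdm R₀ 𝒱 φ →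
          (tE 𝒱 ψ).toReal + lam * (N * a) * Dww w (a / u ^ 160) ψ
            ≤ (tE 𝒱 φ).toReal + lam * (N * a) * Dww w (a / u ^ 160) φ) →
        N * a * Db ((a / u ^ 160) ^ 2) ψ ≤ M * (N ^ 2 * a * u ^ 160) := by
  obtain ⟨CL, u₁, hCL, hu₁, hL⟩ := ol_statement θ C 1 (-(1 / 8)) one_pos
    (by rw [abs_neg, abs_of_pos (by norm_num)]; norm_num) (by rw [abs_neg, abs_of_pos (by norm_num)])
  obtain ⟨u₂, hu₂, hJ⟩ := oj_statement 1 (-(1 / 8)) 1 one_pos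
    (by rw [abs_neg, abs_of_pos (by norm_num)]; norm_num) (by rw [abs_neg, abs_of_pos (by norm_num)]) one_pos
  obtain ⟨CU, Y0, hCU, hY0, hU⟩ := ug_statement θ 1 1 one_pos le_rfl one_pos
  refine ⟨32 * (|Phk (Real.sqrt 1)| + |Dk (Real.sqrt 1)| + |Jb 1 (-(1 / 8))| + 5), 1 / CU,
    min (min u₁ u₂) (min (min 1 Y0) (1 / (32 * (CL + 1)))), by positivity, by positivity,
    lt_min (lt_min hu₁ hu₂) (lt_min (lt_min one_pos hY0) (by positivity)), fun u hu hlt => ?_⟩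
  have hu1 : u < u₁ := hlt.trans_le ((min_le_left _ _).trans (min_le_left _ _))
  have hu2 : u < u₂ := hlt.trans_le ((min_le_left _ _).trans (min_le_right _ _))
  have hu3 : u < 1 := hlt.trans_le ((min_le_right _ _).trans ((min_le_left _ _).trans (min_le_left _ _)))
  have hu4 : u < Y0 := hlt.trans_le ((min_le_right _ _).trans ((min_le_left _ _).trans (min_le_right _ _)))
  have hu5 : u < 1 / (32 * (CL + 1)) := hlt.trans_le ((min_le_right _ _).trans (min_le_right _ _))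
  obtain ⟨a₁, ha₁, hL'⟩ := hL u hu hu1
  obtain ⟨l₀, hl₀, hJ'⟩ := hJ u hu hu2
  have hYu : u ^ 160 < Y0 := lt_of_le_of_lt (pow_le_of_le_one hu.le hu3.le (by norm_num)) hu4
  obtain ⟨a₂, ha₂, hU'⟩ := hU (u ^ 160) (by positivity) hYu
  refine ⟨min (min a₁ a₂) (l₀ * u ^ 160), lt_min (lt_min ha₁ ha₂) (by positivity), ?_⟩
  intro N W f Q sh R₀ R a 𝒱 hlta hr ψ hψ hloc hmin
  have haa1 : a < a₁ := hlta.trans_le ((min_le_left _ _).trans (min_le_left _ _))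
  have haa2 : a < a₂ := hlta.trans_le ((min_le_left _ _).trans (min_le_right _ _))
  have haa3 : a < l₀ * u ^ 160 := hlta.trans_le (min_le_right _ _)
  have ha := hr.sc.a_pos
  have hNa : (N : ℝ) * a ^ 3 = u ^ 320 := by
    rw [hr.Na]
    ring
  obtain ⟨e1, e2, hN0⟩ := F2_one ha hu hNa
  have hlow := hL' N W f Q R₀ R a hr.sc haa1 hNa hr.Rle 𝒱 hr.V_ge ψ hψ hloc
  have hWfin : ∫⁻ y, ENNReal.ofReal (2 * W (rr y)) ∂lam3 ≠ ⊤ := by
    obtain ⟨M, hM0, hM⟩ := hr.sc.exists_M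
    refine ne_top_of_le_ne_top (b := ENNReal.ofReal (2 * M)) ENNReal.ofReal_ne_top ?_
    calc ∫⁻ y, ENNReal.ofReal (2 * W (rr y)) ∂lam3
        ≤ ∫⁻ _, ENNReal.ofReal (2 * M) ∂lam3 := lintegral_mono fun y =>
          ENNReal.ofReal_le_ofReal (mul_le_mul_of_nonneg_left (hM _) (by norm_num))
      _ = ENNReal.ofReal (2 * M) := by rw [lintegral_const, measure_univ, mul_one]
  have hVfin : ∫⁻ y, 𝒱 y ∂lam3 ≠ ⊤ :=
    ne_top_of_le_ne_top (ENNReal.add_ne_top.2 ⟨hWfin, ENNReal.ofReal_ne_top⟩) hr.V_int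
  obtain ⟨χ, hχ, hχE, hχn⟩ := hU' N W f Q R₀ R a hr.sc haa2 hr.Na hr.Rle 𝒱 hr.V_meas hVfin hr.V_ge
  have hm := hmin χ hχ
  obtain ⟨l, hl⟩ : ∃ l : ℝ, l = a / u ^ 160 := ⟨_, rfl⟩
  have ht : l ^ 2 * u ^ 16 = (a / u ^ 152) ^ 2 := by
    rw [hl]; field_simp
  rw [← hl] at e1 e2 hlow hm ⊢
  have hl0 : 0 < l := by rw [hl]; positivity
  have hll : l < l₀ := by rw [hl, div_lt_iff₀ (by positivity)]; exact haa3
  have hj := hJ' l hl0 hll
  obtain ⟨X, hX⟩ : ∃ X : ℝ, X = N ^ 2 * a * u ^ 160 := ⟨_, rfl⟩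
  rw [← hX] at e2 hlow hχE ⊢
  have hX0 : 0 < X := by rw [hX]; positivity
  have hlX : l ^ 5 * X = 1 := by
    rw [← e2]; field_simp
  rw [ht, JO_eq] at hj
  have hj2 : (Jb 1 (-(1 / 8)) - 1) * X ≤
      4 * Real.sqrt Real.pi / u ^ 8 * X + 1 / 2 * LSO ((a / u ^ 152) ^ 2) 1 (-(1 / 8)) l := by
    have h3 := mul_le_mul_of_nonneg_right hj hX0.le
    refine h3.trans (le_of_eq ?_)
    calc (4 * Real.sqrt Real.pi / u ^ 8 + 1 / 2 * l ^ 5 * LSO ((a / u ^ 152) ^ 2) 1 (-(1 / 8)) l) * X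
        = 4 * Real.sqrt Real.pi / u ^ 8 * X + 1 / 2 * LSO ((a / u ^ 152) ^ 2) 1 (-(1 / 8)) l * (l ^ 5 * X) := by
          ring
      _ = _ := by rw [hlX, mul_one]
  rw [Dm_source hl0, one_mul] at hlow
  have e3 : -(1 / 8) / l ^ 2 = -(1 / 8) * (N * a) := by rw [← e1]; ring
  rw [e3] at hlow
  have hlow' := ENNReal.toReal_mono hψ.2.2.2.ne hlow
  rw [ENNReal.toReal_ofReal'] at hlow'
  have hlow2 := (le_max_left _ _).trans hlow'
  have hdiff : ∫⁻ y, 𝒱 y ∂lam3 - ∫⁻ y, ENNReal.ofReal (2 * W (rr y)) ∂lam3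
      ≤ ENNReal.ofReal (1 / CU * (a * u ^ 160)) := by
    rw [tsub_le_iff_left]
    exact hr.V_int
  have hup : tE 𝒱 χ ≤ ENNReal.ofReal (4 * Real.pi * N ^ 2 * a + X * (|Phk (Real.sqrt 1)| + 2)) := by
    refine (hχE.trans (add_le_add (ENNReal.ofReal_le_ofReal
      (q := 4 * Real.pi * N ^ 2 * a + X * (|Phk (Real.sqrt 1)| + 1)) ?_) (mul_le_mul_right hdiff _))).trans ?_
    · have := mul_le_mul_of_nonneg_left (le_abs_self (Phk (Real.sqrt 1))) hX0.le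
      linarith
    · have h9 : 0 ≤ X * (|Phk (Real.sqrt 1)| + 1) := by positivity
      have h10 : 0 ≤ 4 * Real.pi * (N : ℝ) ^ 2 * a := by positivity
      rw [← ENNReal.ofReal_mul (by positivity), ← ENNReal.ofReal_add (by linarith) (by positivity)]
      refine ENNReal.ofReal_le_ofReal (le_of_eq ?_)
      rw [hX]
      field_simp
      ring
  have hup2 : (tE 𝒱 χ).toReal ≤ 4 * Real.pi * N ^ 2 * a + X * (|Phk (Real.sqrt 1)| + 2) := by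
    have h9 : 0 ≤ X * (|Phk (Real.sqrt 1)| + 2) := by positivity
    have h10 : 0 ≤ 4 * Real.pi * (N : ℝ) ^ 2 * a := by positivity
    exact ENNReal.toReal_le_of_le_ofReal (by linarith) hup
  have hDχ : (N * a) * Dww w l χ ≤ X * (|Dk (Real.sqrt 1)| + 1) := by
    have h9 := (Dww_le_nuQ hw l hχ.1).trans hχn
    have hNa0 : (0 : ℝ) ≤ N * a := by positivity
    have h10 := mul_le_mul_of_nonneg_left h9 hNa0
    have h11 : N * a * (N * u ^ 160 * (Dk (Real.sqrt 1) + 1)) = X * (Dk (Real.sqrt 1) + 1) := by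
      rw [hX]; ring
    rw [h11] at h10
    have h12 := mul_le_mul_of_nonneg_left (le_abs_self (Dk (Real.sqrt 1))) hX0.le
    linarith
  have hCu : CL * u ≤ 1 / 32 := by
    rw [lt_div_iff₀ (by positivity)] at hu5
    nlinarith
  refine R24b_num (A := N * a) (X := X) (J1 := Jb 1 (-(1 / 8))) (C := CL) (u := u) (P := Phk (Real.sqrt 1))
    (D := Dk (Real.sqrt 1)) (B := 4 * Real.pi * N ^ 2 * a) (lam := lam) (β := β)
    (by positivity) hX0.le hu hCL hCu (R24b_Db0 _ (sq_nonneg l) ψ) (Dww_nonneg hw l ψ)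
    (Dww_nonneg hw l χ) h1 h2 ?_ hup2 hm hDχ (Dww_le_Db hw l hψ.1)
  refine le_trans ?_ hlow2
  linarith

end Pool.Agent.Lib.MP_4952d6_mp.LK
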