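import Pool.Agent.Lib.MP_4952d6_mp.Pr.R24b

/-!
# Pr.R24c (leaf N1c): the lower bound of the energy with a source, for ALL states

`l = a / u ^ 160`, so `1 / l² = N a` (`F2_one`), `X = N² a u ^ 160`, `N a ≥ 0`.
1. `src_min` (R24): `ψ` with `LocO C ..` and `E(ψ) + lam N a Dww(ψ) ≤ E(φ) + lam N a Dww(φ)` for every admissible `φ`; `src_ap` (R24b) with this `C`: `N a Db (l²) ψ ≤ M X`. (`c'` smaller: `RegG` is monotone in `c'`: build it by `{ hr with V_int := .. }`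
   or take it as a local lemma `R24_mono`; R25 has `RegG.mono_c`, do not import R25.)
2. `ol_gen θ C` (Pd/D01) with `E = Ew w lam l` (`Ew_sym`, `Ew_sub_abs`, `Dm_source_w`) and `oj_w` (R22), exactly as in `Gc_step` (Pd/D04 l.30-90) up to `hj2`, `hlow`:
   `E(ψ) + lam N a Dww(ψ) ≥ 4πN²a + X (Jf 0 + c Gw w - η/4) - C' u (X + N a Db (l²) ψ)`, and `C' u (1 + M) ≤ η/4` for small `u`.
3. So `E(φ) + lam N a Dww(φ) ≥ 4πN²a + X (Jf 0 + c Gw w - η)` in real numbers (`tE φ ≠ ⊤`: `tAdm`); write it as `ofReal (.. - lam N a Dww φ) ≤ tE φ` (`ENNReal.ofReal_le_of_le_toReal`).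
-/

set_option autoImplicit false
set_option linter.unusedSectionVars false
set_option linter.unusedVariables false
open MeasureTheory Function Filter Topology Set ComplexConjugate
open scoped ENNReal

namespace Pool.Agent.Lib.MP_4952d6_mp.LK

open LA O LB

open LG

/-- `RegG` is monotone in the constant of `V_int`. -/
private lemma R24c_mono {θ cw c c' Y : ℝ} {W f Q w : ℝ → ℝ} {R₀ R a : ℝ} {N : ℕ} {𝒱 : T3 → ℝ≥0∞}
    (hY : 0 ≤ Y) (hc : c ≤ c') (hr : RegG θ cw c Y W f Q w R₀ R a N 𝒱) :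
    RegG θ cw c' Y W f Q w R₀ R a N 𝒱 := by
  refine { hr with V_int := hr.V_int.trans (add_le_add_right (ENNReal.ofReal_le_ofReal ?_) _) }
  exact mul_le_mul_of_nonneg_right hc (mul_nonneg hr.sc.a_pos.le hY)

/-- **Lower bound of the energy with a source, for all states.** -/
theorem lb_all (θ cw : ℝ) (hcw : 0 < cw) {β lam c η : ℝ} {w : (Fin 3 → ℝ) → ℝ} (hw : Wg β w)
    (h1 : |lam| * β ≤ 1 / 32) (h2 : |lam| ≤ 1 / 32) (hη : 0 < η)
    (hc : ∀ x : Fin 3 → ℝ, 0 < nr x → Jg (nr x ^ 2) + c * wjw w x ≤ Jg (nr x ^ 2 + lam * w x)) :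
    ∃ c' u₀ : ℝ, 0 < c' ∧ 0 < u₀ ∧ ∀ u : ℝ, 0 < u → u < u₀ → ∃ a₀ : ℝ, 0 < a₀ ∧
      ∀ (N : ℕ) (W f Q sh : ℝ → ℝ) (R₀ R a : ℝ) (𝒱 : T3 → ℝ≥0∞), a < a₀ →
      RegG θ cw c' (u ^ 160) W f Q sh R₀ R a N 𝒱 →
      ∀ φ : (Fin N → T3) → ℂ, tAdm R₀ 𝒱 φ →
      ENNReal.ofReal (4 * Real.pi * N ^ 2 * a + N ^ 2 * a * u ^ 160 * (Jf 0 + c * Gw w - η)
        - lam * (N * a) * Dww w (a / u ^ 160) φ) ≤ tE 𝒱 φ := by
  obtain ⟨CM, c₁, u₁, hCM, hc₁, hu₁, hS⟩ := src_min θ cw hcw hw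
    (show |lam| ≤ 1 / 8 by linarith only [h2])
  obtain ⟨M, c₂, u₂, hM, hc₂, hu₂, hA⟩ := src_ap θ cw hcw hw h1 h2 CM
  obtain ⟨C, u₃, hC, hu₃, hL⟩ := ol_gen θ CM
  have hlb : |lam| * β ≤ 1 / 8 := by linarith only [h1]
  obtain ⟨u₄, hu₄, hJ⟩ := oj_w (η := η / 4) hw hlb (by positivity) hc
  refine ⟨min c₁ c₂, min (min (min u₁ u₂) (min u₃ u₄)) (η / (4 * ((C + 1) * (1 + M)))),
    lt_min hc₁ hc₂, lt_min (lt_min (lt_min hu₁ hu₂) (lt_min hu₃ hu₄)) (by positivity),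
    fun u hu hlt => ?_⟩
  have hlt' : u < min (min u₁ u₂) (min u₃ u₄) := hlt.trans_le (min_le_left _ _)
  have hv1 : u < u₁ := hlt'.trans_le ((min_le_left _ _).trans (min_le_left _ _))
  have hv2 : u < u₂ := hlt'.trans_le ((min_le_left _ _).trans (min_le_right _ _))
  have hv3 : u < u₃ := hlt'.trans_le ((min_le_right _ _).trans (min_le_left _ _))
  have hv4 : u < u₄ := hlt'.trans_le ((min_le_right _ _).trans (min_le_right _ _))
  have hv5 : u < η / (4 * ((C + 1) * (1 + M))) := hlt.trans_le (min_le_right _ _)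
  obtain ⟨a₁, ha₁, hS'⟩ := hS u hu hv1
  obtain ⟨a₂, ha₂, hA'⟩ := hA u hu hv2
  obtain ⟨a₃, ha₃, hL'⟩ := hL u hu hv3
  obtain ⟨l₀, hl₀, hJ'⟩ := hJ u hu hv4
  refine ⟨min (min a₁ a₂) (min a₃ (l₀ * u ^ 160)),
    lt_min (lt_min ha₁ ha₂) (lt_min ha₃ (by positivity)),
    fun N W f Q sh R₀ R a 𝒱 hlta hr φ hφ => ?_⟩
  have haa1 : a < a₁ := hlta.trans_le ((min_le_left _ _).trans (min_le_left _ _))
  have haa2 : a < a₂ := hlta.trans_le ((min_le_left _ _).trans (min_le_right _ _))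
  have haa3 : a < a₃ := hlta.trans_le ((min_le_right _ _).trans (min_le_left _ _))
  have haa4 : a < l₀ * u ^ 160 := hlta.trans_le ((min_le_right _ _).trans (min_le_right _ _))
  have hY0 : (0 : ℝ) ≤ u ^ 160 := by positivity
  have hr1 := R24c_mono hY0 (min_le_left c₁ c₂) hr
  have hr2 := R24c_mono hY0 (min_le_right c₁ c₂) hr
  obtain ⟨ψ, hψ, hloc, hmin⟩ := hS' N W f Q sh R₀ R a 𝒱 haa1 hr1
  have hap := hA' N W f Q sh R₀ R a 𝒱 haa2 hr2 ψ hψ hloc hmin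
  have ha := hr.sc.a_pos
  have hNa : (N : ℝ) * a ^ 3 = u ^ 320 := by rw [hr.Na]; ring
  obtain ⟨e1, e2, hN0⟩ := F2_one ha hu hNa
  have hmφ := hmin φ hφ
  set l : ℝ := a / u ^ 160 with hl
  have hl0 : 0 < l := by positivity
  have hll : l < l₀ := by rw [hl, div_lt_iff₀ (by positivity)]; exact haa4
  have hSy : Sym (Ew w lam l) := Ew_sym hw hlb hl0
  have hEb : ∀ p, |Ew w lam l p - ksq p| ≤ 8 * Real.pi * (N * a) := fun p => by
    rw [← e1]
    exact Ew_sub_abs hw (by linarith only [h2]) hl0 p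
  have hlow := hL' N W f Q R₀ R a hr.sc haa3 hNa hr.Rle 𝒱 hr.V_ge ψ hψ hloc
    (Ew w lam l) hSy hEb
  have hj := hJ' l hl0 hll
  set X : ℝ := N ^ 2 * a * u ^ 160 with hX
  have hX0 : 0 < X := by positivity
  have hlX : l ^ 5 * X = 1 := by
    rw [← e2]; field_simp
  have ht : l ^ 2 * u ^ 16 = (a / u ^ 152) ^ 2 := by
    rw [hl]; field_simp
  rw [ht] at hj
  set S : ℝ := LSg ((a / u ^ 152) ^ 2) l (Ew w lam l) with hS0
  have hj2 : (Jf 0 + c * Gw w - η / 4) * X ≤ 4 * Real.sqrt Real.pi / u ^ 8 * X + 1 / 2 * S := by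
    have h3 := mul_le_mul_of_nonneg_right hj hX0.le
    refine h3.trans (le_of_eq ?_)
    calc (4 * Real.sqrt Real.pi / u ^ 8 + 1 / 2 * l ^ 5 * S) * X
        = 4 * Real.sqrt Real.pi / u ^ 8 * X + 1 / 2 * S * (l ^ 5 * X) := by ring
      _ = _ := by rw [hlX, mul_one]
  rw [Dm_source_w] at hlow
  have e3 : lam / l ^ 2 = lam * (N * a) := by rw [← e1]; ring
  rw [e3] at hlow
  have hlow' := (ENNReal.ofReal_le_iff_le_toReal hψ.2.2.2.ne).1 hlow
  set n1 : ℝ := Db (l ^ 2) ψ with hn1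
  have hCu : C * u * (1 + M) ≤ η / 4 := by
    have h5 : u * (4 * ((C + 1) * (1 + M))) < η := by
      rwa [lt_div_iff₀ (by positivity)] at hv5
    have h6 : 0 ≤ u * (1 + M) := by positivity
    linarith only [h5, h6]
  have h6 : C * u * (X + N * a * n1) ≤ η / 4 * X := by
    have h7 : C * u * (X + N * a * n1) ≤ C * u * (X + M * X) :=
      mul_le_mul_of_nonneg_left (by linarith only [hap]) (by positivity)
    have h8 : C * u * (1 + M) * X ≤ η / 4 * X := mul_le_mul_of_nonneg_right hCu hX0.le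
    linarith only [h7, h8]
  have h9 : 0 ≤ η * X := by positivity
  refine ENNReal.ofReal_le_of_le_toReal ?_
  linarith only [hmφ, hlow', hj2, h6, h9]

end Pool.Agent.Lib.MP_4952d6_mp.LK
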