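import Pool.Agent.Lib.MP_4952d6_mp.Pr.R24c

/-!
# Pr.R25 (leaf N2): the weighted numbers of excitations of all states of low energy

`nm_point`: choose `κ = min (1/32) (ε/24) / (β + 1)`, `η₀ = ε κ / 8`; `lb_all` for `lam = κ`, `c = κ ((1+κβ)²)⁻¹` (`oj_w_up`) and for `lam = -κ`, `c = -κ ((1-κβ)²)⁻¹` (`oj_w_dn`), error `η₀`, and
`tE φ ≤ ofReal (4πN²a + X (Jf 0 + η₀))`: `X (κ ((1+κβ)²)⁻¹ G - 2 η₀) ≤ κ N a D` and `X (-κ ((1-κβ)²)⁻¹ G - 2 η₀) ≤ - κ N a D` (`ofReal` is monotone: `ENNReal.ofReal_le_ofReal_iff` with a nonnegative right side,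
`Jf 0 ≥ 0`), `X = (N a) (N u^160)`, so with `q = N u^160`: `|D/q - G| ≤ ε`, numbers as in `F2_num` (Po/N11) (`0 ≤ G ≤ 2`, `1 - 2x ≤ (1+x)⁻²`, `(1-x)⁻² ≤ 1 + 3x` for `x ≤ 1/8`).
The sum `RegG` with a smaller constant: `RegG.mono_c` (`V_int`).
-/

set_option autoImplicit false
set_option linter.unusedSectionVars false
set_option linter.unusedVariables false
open MeasureTheory Function Filter Topology Set ComplexConjugate
open scoped ENNReal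

namespace Pool.Agent.Lib.MP_4952d6_mp.LK

open LA O LB

open LG

theorem RegG.mono_c {θ cw c c' Y : ℝ} {W f Q sh : ℝ → ℝ} {R₀ R a : ℝ} {N : ℕ} {𝒱 : T3 → ℝ≥0∞}
    (h : RegG θ cw c Y W f Q sh R₀ R a N 𝒱) (hY : 0 ≤ Y) (hc : c ≤ c') :
    RegG θ cw c' Y W f Q sh R₀ R a N 𝒱 :=
  { h with
    V_int := h.V_int.trans (add_le_add le_rfl (ENNReal.ofReal_le_ofReal
      (mul_le_mul_of_nonneg_right hc (mul_nonneg h.sc.a_pos.le hY)))) }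

/-- Numbers. -/
lemma R25_num {X A q D κ x ε G J0 E₀ η cp cm : ℝ} (hA : 0 < A) (hq : 0 < q) (hX : X = A * q)
    (hκ : 0 < κ) (hx0 : 0 ≤ x) (hx1 : x ≤ 1 / 32) (hx2 : x ≤ ε / 24) (hη : η = ε * κ / 8)
    (hG0 : 0 ≤ G) (hG2 : G ≤ 2) (hcp : cp = κ * ((1 + x) ^ 2)⁻¹) (hcm : cm = -(κ * ((1 - x) ^ 2)⁻¹))
    (i1 : E₀ + X * (J0 + cp * G - η) - κ * A * D ≤ E₀ + X * (J0 + η))
    (i2 : E₀ + X * (J0 + cm * G - η) - -κ * A * D ≤ E₀ + X * (J0 + η)) : |D / q - G| ≤ ε := by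
  subst hX
  have g1 : 1 - 2 * x ≤ ((1 + x) ^ 2)⁻¹ := by
    rw [← one_div, le_div_iff₀ (by positivity)]
    nlinarith [mul_nonneg hx0 hx0, mul_nonneg (mul_nonneg hx0 hx0) hx0]
  have g2 : ((1 - x) ^ 2)⁻¹ ≤ 1 + 3 * x := by
    have h1 : 0 < 1 - x := by linarith
    rw [← one_div, div_le_iff₀ (by positivity)]
    nlinarith [mul_nonneg hx0 hx0, mul_nonneg (mul_nonneg hx0 hx0) hx0]
  have u1 : (1 - 2 * x) * G ≤ ((1 + x) ^ 2)⁻¹ * G := mul_le_mul_of_nonneg_right g1 hG0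
  have u2 : ((1 - x) ^ 2)⁻¹ * G ≤ (1 + 3 * x) * G := mul_le_mul_of_nonneg_right g2 hG0
  have u3 : x * G ≤ x * 2 := mul_le_mul_of_nonneg_left hG2 hx0
  have j1 : q * (cp * G - 2 * η) ≤ κ * D := by
    refine le_of_mul_le_mul_left ?_ hA
    linarith
  have j2 : q * (cm * G - 2 * η) ≤ -κ * D := by
    refine le_of_mul_le_mul_left ?_ hA
    linarith
  have l1 : κ * (G - ε) ≤ cp * G - 2 * η := by
    rw [hcp, hη]
    have h1 : κ * (G - ε) ≤ κ * (((1 + x) ^ 2)⁻¹ * G - ε / 4) :=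
      mul_le_mul_of_nonneg_left (by linarith) hκ.le
    linarith
  have l2 : -(κ * (G + ε)) ≤ cm * G - 2 * η := by
    rw [hcm, hη]
    have h1 : κ * (((1 - x) ^ 2)⁻¹ * G + ε / 4) ≤ κ * (G + ε) :=
      mul_le_mul_of_nonneg_left (by linarith) hκ.le
    linarith
  have m1 : κ * (q * (G - ε)) ≤ κ * D := by
    have h1 := mul_le_mul_of_nonneg_left l1 hq.le
    linarith
  have m2 : κ * D ≤ κ * (q * (G + ε)) := by
    have h1 := mul_le_mul_of_nonneg_left l2 hq.le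
    linarith
  have p1 := le_of_mul_le_mul_left m1 hκ
  have p2 := le_of_mul_le_mul_left m2 hκ
  rw [abs_le]
  constructor
  · have : G - ε ≤ D / q := by rw [le_div_iff₀ hq]; linarith
    linarith
  · have : D / q ≤ G + ε := by rw [div_le_iff₀ hq]; linarith
    linarith

/-- **The weighted number of excitations of every state of low energy.** -/
theorem nm_point (θ cw : ℝ) (hcw : 0 < cw) {β ε : ℝ} {w : (Fin 3 → ℝ) → ℝ} (hw : Wg β w)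
    (hε : 0 < ε) :
    ∃ η c u₀ : ℝ, 0 < η ∧ 0 < c ∧ 0 < u₀ ∧ ∀ u : ℝ, 0 < u → u < u₀ → ∃ a₀ : ℝ, 0 < a₀ ∧
      ∀ (N : ℕ) (W f Q sh : ℝ → ℝ) (R₀ R a : ℝ) (𝒱 : T3 → ℝ≥0∞) (φ : (Fin N → T3) → ℂ), a < a₀ →
      RegG θ cw c (u ^ 160) W f Q sh R₀ R a N 𝒱 → tAdm R₀ 𝒱 φ →
      tE 𝒱 φ ≤ ENNReal.ofReal (4 * Real.pi * N ^ 2 * a + N ^ 2 * a * u ^ 160 * (Jf 0 + η)) →
      |Dww w (a / u ^ 160) φ / (N * u ^ 160) - Gw w| ≤ ε := by
  have hβ : 0 ≤ β := hw.b0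
  set κ : ℝ := min (1 / 32) (ε / 24) / (β + 1) with hκ
  have hm0 : 0 < min (1 / 32) (ε / 24) := lt_min (by norm_num) (by positivity)
  have hκ0 : 0 < κ := by positivity
  have hκe : κ * (β + 1) = min (1 / 32) (ε / 24) := by
    rw [hκ]
    field_simp
  have hκβ0 : 0 ≤ κ * β := by positivity
  have hκβ : κ * β ≤ min (1 / 32) (ε / 24) := by linarith
  have hκβ1 : κ * β ≤ 1 / 32 := hκβ.trans (min_le_left _ _)
  have hκβ2 : κ * β ≤ ε / 24 := hκβ.trans (min_le_right _ _)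
  have hκ32 : κ ≤ 1 / 32 := by
    have := min_le_left (1 / 32 : ℝ) (ε / 24)
    linarith
  set η : ℝ := ε * κ / 8 with hη
  have hη0 : 0 < η := by positivity
  obtain ⟨c1, v1, hc1, hv1, s1⟩ := lb_all θ cw hcw (lam := κ) (c := κ * ((1 + κ * β) ^ 2)⁻¹) hw
    (by rwa [abs_of_pos hκ0]) (by rwa [abs_of_pos hκ0]) hη0 (oj_w_up hw hκ0)
  obtain ⟨c2, v2, hc2, hv2, s2⟩ := lb_all θ cw hcw (lam := -κ) (c := -(κ * ((1 - κ * β) ^ 2)⁻¹)) hw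
    (by rwa [abs_neg, abs_of_pos hκ0]) (by rwa [abs_neg, abs_of_pos hκ0]) hη0
    (oj_w_dn hw hκ0.le (by linarith))
  refine ⟨η, min c1 c2, min v1 v2, hη0, lt_min hc1 hc2, lt_min hv1 hv2, fun u hu hlt => ?_⟩
  obtain ⟨a1, ha1, t1⟩ := s1 u hu (hlt.trans_le (min_le_left _ _))
  obtain ⟨a2, ha2, t2⟩ := s2 u hu (hlt.trans_le (min_le_right _ _))
  refine ⟨min a1 a2, lt_min ha1 ha2, fun N W f Q sh R₀ R a 𝒱 φ hlta hr hφ hE => ?_⟩
  have ha := hr.sc.a_pos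
  have hY : (0 : ℝ) ≤ u ^ 160 := by positivity
  obtain ⟨e1, e2, hN0⟩ := F2_one ha hu (by rw [hr.Na]; ring)
  have r1 := t1 N W f Q sh R₀ R a 𝒱 (hlta.trans_le (min_le_left _ _))
    (RegG.mono_c hr hY (min_le_left _ _)) φ hφ
  have r2 := t2 N W f Q sh R₀ R a 𝒱 (hlta.trans_le (min_le_right _ _))
    (RegG.mono_c hr hY (min_le_right _ _)) φ hφ
  have hJ0 : 0 ≤ Jf 0 := by
    rw [Jf_zero_eq]
    positivity
  have hR : 0 ≤ 4 * Real.pi * (N : ℝ) ^ 2 * a + (N : ℝ) ^ 2 * a * u ^ 160 * (Jf 0 + η) := by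
    positivity
  have q1 := (ENNReal.ofReal_le_ofReal_iff hR).1 (r1.trans hE)
  have q2 := (ENNReal.ofReal_le_ofReal_iff hR).1 (r2.trans hE)
  refine R25_num (X := (N : ℝ) ^ 2 * a * u ^ 160) (A := N * a) (q := N * u ^ 160) (κ := κ)
    (x := κ * β) (η := η) (J0 := Jf 0) (E₀ := 4 * Real.pi * (N : ℝ) ^ 2 * a)
    (cp := κ * ((1 + κ * β) ^ 2)⁻¹) (cm := -(κ * ((1 - κ * β) ^ 2)⁻¹))
    (by positivity) (by positivity) (by ring) hκ0 hκβ0 hκβ1 hκβ2 hη (Gw_nonneg hw) (Gw_le_two hw)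
    rfl rfl ?_ ?_
  · linarith
  · linarith

end Pool.Agent.Lib.MP_4952d6_mp.LK
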