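import Pool.Agent.Lib.MP_4952d6_mp.Pr.R23
import Pool.Agent.Lib.MP_4952d6_mp.Pr.R24c

/-!
# Pr.R25b (leaf N2b): a linear upper bound for the number of excitations of every state

`lb_all` (R24c) for `w = wb 1 0` (`wb_wg`, `β = 1 + nr 0 ^ 2 = 1`), `lam = -(1/32)`, `c = -(1/32 * ((1 - 1/32)^2)⁻¹)` (`oj_w_dn` of R22 with `κ = 1/32`), `η = 1`. `X = N² a u^160 = (N a) (N u^160)`. With
`tE φ ≤ ofReal (4πN²a + X (Jf 0 + x))` and `ENNReal.ofReal_le_ofReal_iff` (the right side is `≥ 0`: `Jf 0 ≥ 0`, see `hJ0` in `Gc_step`, Pd/D04):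
`(1/32) N a Dww ≤ X (x + 1 + (1/32) ((31/32)²)⁻¹ Gw) ≤ X (x + 2)` (`Gw_le_two`), so `Dww / (N u^160) ≤ 32 (x + 2) ≤ 64 (1 + x)` and `Db (l²) φ = 2 Dww` (`Dww_wb_zero`, `1 * l^2`). `M = 128`.
-/

set_option autoImplicit false
set_option linter.unusedSectionVars false
set_option linter.unusedVariables false
open MeasureTheory Function Filter Topology Set ComplexConjugate
open scoped ENNReal

namespace Pool.Agent.Lib.MP_4952d6_mp.LK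

open LA O LB

open LG

/-- Numbers. -/
private lemma R25b_num {A q D x G J0 E₀ B : ℝ} (hA : 0 < A) (hq : 0 < q) (hx : 0 ≤ x)
    (hG0 : 0 ≤ G) (hG2 : G ≤ 2) (hB : B = 2 * D)
    (i : E₀ + A * q * (J0 + -(1 / 32 * ((1 - 1 / 32 * 1) ^ 2)⁻¹) * G - 1) - -(1 / 32) * A * D ≤
      E₀ + A * q * (J0 + x)) : B / q ≤ 128 * (1 + x) := by
  have h1 : A * D ≤ A * (q * (32 * (x + 2))) := by
    have e : (1 / 32 * ((1 - 1 / 32 * 1 : ℝ) ^ 2)⁻¹) * G ≤ 1 := by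
      have : (1 / 32 * ((1 - 1 / 32 * 1 : ℝ) ^ 2)⁻¹) = 32 / 961 := by norm_num
      rw [this]
      linarith
    have e2 : A * q * ((1 / 32 * ((1 - 1 / 32 * 1 : ℝ) ^ 2)⁻¹) * G) ≤ A * q * 1 :=
      mul_le_mul_of_nonneg_left e (by positivity)
    linarith
  have h2 : D ≤ q * (32 * (x + 2)) := le_of_mul_le_mul_left h1 hA
  rw [div_le_iff₀ hq, hB]
  have h3 : 0 ≤ q * x := by positivity
  linarith

theorem nm_up (θ cw : ℝ) (hcw : 0 < cw) :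
    ∃ M c u₀ : ℝ, 0 < M ∧ 0 < c ∧ 0 < u₀ ∧ ∀ u : ℝ, 0 < u → u < u₀ → ∃ a₀ : ℝ, 0 < a₀ ∧
      ∀ (N : ℕ) (W f Q sh : ℝ → ℝ) (R₀ R a x : ℝ) (𝒱 : T3 → ℝ≥0∞) (φ : (Fin N → T3) → ℂ), a < a₀ →
      RegG θ cw c (u ^ 160) W f Q sh R₀ R a N 𝒱 → tAdm R₀ 𝒱 φ → 0 ≤ x →
      tE 𝒱 φ ≤ ENNReal.ofReal (4 * Real.pi * N ^ 2 * a + N ^ 2 * a * u ^ 160 * (Jf 0 + x)) →
      Db ((a / u ^ 160) ^ 2) φ / (N * u ^ 160) ≤ M * (1 + x) := by
  have hn : nr 0 = 0 := by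
    unfold nr
    simp
  have hw : Wg 1 (wb 1 0) := by
    have h := wb_wg one_pos (0 : Fin 3 → ℝ)
    rwa [hn, show (1 : ℝ) + 0 ^ 2 = 1 by norm_num] at h
  obtain ⟨c, u₀, hc, hu₀, s⟩ := lb_all θ cw hcw (lam := -(1 / 32))
    (c := -(1 / 32 * ((1 - 1 / 32 * 1) ^ 2)⁻¹)) (η := 1) hw
    (by rw [abs_neg, abs_of_pos (by norm_num)]; norm_num)
    (by rw [abs_neg, abs_of_pos (by norm_num)]) one_pos
    (oj_w_dn hw (by norm_num) (by norm_num))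
  refine ⟨128, c, u₀, by norm_num, hc, hu₀, fun u hu hlt => ?_⟩
  obtain ⟨a₀, ha₀, t⟩ := s u hu hlt
  refine ⟨a₀, ha₀, fun N W f Q sh R₀ R a x 𝒱 φ hlta hr hφ hx hE => ?_⟩
  have ha := hr.sc.a_pos
  obtain ⟨e1, e2, hN0⟩ := F2_one ha hu (by rw [hr.Na]; ring)
  have r := t N W f Q sh R₀ R a 𝒱 hlta hr φ hφ
  have hJ0 : 0 ≤ Jf 0 := by
    rw [Jf_zero_eq]
    positivity
  have hR : 0 ≤ 4 * Real.pi * (N : ℝ) ^ 2 * a + (N : ℝ) ^ 2 * a * u ^ 160 * (Jf 0 + x) := by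
    positivity
  have q := (ENNReal.ofReal_le_ofReal_iff hR).1 (r.trans hE)
  have hD : Db ((a / u ^ 160) ^ 2) φ = 2 * Dww (wb 1 0) (a / u ^ 160) φ := by
    rw [Dww_wb_zero, one_mul]
    ring
  refine R25b_num (A := N * a) (q := N * u ^ 160) (D := Dww (wb 1 0) (a / u ^ 160) φ) (x := x)
    (G := Gw (wb 1 0)) (J0 := Jf 0) (E₀ := 4 * Real.pi * (N : ℝ) ^ 2 * a)
    (by positivity) (by positivity) hx (Gw_nonneg hw) (Gw_le_two hw) hD ?_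
  linarith

end Pool.Agent.Lib.MP_4952d6_mp.LK
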