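import Pool.Agent.Lib.MP_4952d6_mp.Pr.R23
import Pool.Agent.Lib.MP_4952d6_mp.Pr.R25
import Pool.Agent.Lib.MP_4952d6_mp.Po.N22

/-!
# Pr.R26 (leaf N3): the momentum distribution of all states of low energy, torus form

* `nm_og`: `nm_point` with `wb b 0`, `ε/2` (`wb_wg`, `Dww_wb_zero`, `Gw_wb_zero`).
* `nm_all`: for `b = 1, .., m` at once (induction, model `F3_all`, Po/N22 l.100-130; take the minimum of the constants; `η` also: `tE φ ≤ ofReal (.. (Jf 0 + min ..))` implies the bound with the larger `η`).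
* `nm_thr`: copy of `ot_of` (Po/N22 l.148-215) with `weights_close`, `nm_all`, `tAdm` (`.1 : MemLp`).
-/

set_option autoImplicit false
set_option linter.unusedSectionVars false
set_option linter.unusedVariables false
open MeasureTheory Function Filter Topology Set ComplexConjugate
open scoped ENNReal

namespace Pool.Agent.Lib.MP_4952d6_mp.LK

open LA O LB

open LG

theorem nm_og (θ cw : ℝ) (hcw : 0 < cw) {b ε : ℝ} (hb : 0 < b) (hε : 0 < ε) :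
    ∃ η c u₀ : ℝ, 0 < η ∧ 0 < c ∧ 0 < u₀ ∧ ∀ u : ℝ, 0 < u → u < u₀ → ∃ a₀ : ℝ, 0 < a₀ ∧
      ∀ (N : ℕ) (W f Q sh : ℝ → ℝ) (R₀ R a : ℝ) (𝒱 : T3 → ℝ≥0∞) (φ : (Fin N → T3) → ℂ), a < a₀ →
      RegG θ cw c (u ^ 160) W f Q sh R₀ R a N 𝒱 → tAdm R₀ 𝒱 φ →
      tE 𝒱 φ ≤ ENNReal.ofReal (4 * Real.pi * N ^ 2 * a + N ^ 2 * a * u ^ 160 * (Jf 0 + η)) →
      |Db (b * (a / u ^ 160) ^ 2) φ / (N * u ^ 160) - Fb b| ≤ ε := by
  obtain ⟨η, c, u₀, hη, hc, hu₀, h1⟩ := nm_point θ cw hcw (wb_wg hb 0) (half_pos hε)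
  refine ⟨η, c, u₀, hη, hc, hu₀, fun u hu hlt => ?_⟩
  obtain ⟨a₀, ha₀, h2⟩ := h1 u hu hlt
  refine ⟨a₀, ha₀, fun N W f Q sh R₀ R a 𝒱 φ hlta hr hadm hE => ?_⟩
  have h3 := h2 N W f Q sh R₀ R a 𝒱 φ hlta hr hadm hE
  rw [Dww_wb_zero, Gw_wb_zero hb] at h3
  have e : Db (b * (a / u ^ 160) ^ 2) φ / 2 / (N * u ^ 160) - Fb b / 2 =
      (Db (b * (a / u ^ 160) ^ 2) φ / (N * u ^ 160) - Fb b) / 2 := by ring
  rw [e, abs_div, abs_two] at h3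
  linarith

/-- The numbers `b = 1, …, m` at once. -/
lemma nm_all (θ cw : ℝ) (hcw : 0 < cw) {ε : ℝ} (hε : 0 < ε) (m : ℕ) :
    ∃ η c u₀ : ℝ, 0 < η ∧ 0 < c ∧ 0 < u₀ ∧ ∀ u : ℝ, 0 < u → u < u₀ → ∃ a₀ : ℝ, 0 < a₀ ∧
      ∀ (N : ℕ) (W f Q sh : ℝ → ℝ) (R₀ R a : ℝ) (𝒱 : T3 → ℝ≥0∞) (φ : (Fin N → T3) → ℂ), a < a₀ →
      RegG θ cw c (u ^ 160) W f Q sh R₀ R a N 𝒱 → tAdm R₀ 𝒱 φ →
      tE 𝒱 φ ≤ ENNReal.ofReal (4 * Real.pi * N ^ 2 * a + N ^ 2 * a * u ^ 160 * (Jf 0 + η)) →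
      ∀ b : ℕ, 1 ≤ b → b ≤ m → |Db ((b : ℝ) * (a / u ^ 160) ^ 2) φ / (N * u ^ 160) - Fb (b : ℝ)| ≤ ε := by
  induction m with
  | zero =>
    exact ⟨1, 1, 1, one_pos, one_pos, one_pos, fun u _ _ => ⟨1, one_pos, fun N W f Q sh R₀ R a 𝒱 φ _ _ _ _ b h1 h2 =>
      absurd (h1.trans h2) (by omega)⟩⟩
  | succ n ih =>
    obtain ⟨η1, c1, u1, hη1, hc1, hu1, h1⟩ := ih
    obtain ⟨η2, c2, u2, hη2, hc2, hu2, h2⟩ := nm_og θ cw hcw (b := (n : ℝ) + 1) (by positivity) hε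
    refine ⟨min η1 η2, min c1 c2, min u1 u2, lt_min hη1 hη2, lt_min hc1 hc2, lt_min hu1 hu2, fun u hu hlt => ?_⟩
    obtain ⟨a1, ha1, k1⟩ := h1 u hu (hlt.trans_le (min_le_left _ _))
    obtain ⟨a2, ha2, k2⟩ := h2 u hu (hlt.trans_le (min_le_right _ _))
    refine ⟨min a1 a2, lt_min ha1 ha2, fun N W f Q sh R₀ R a 𝒱 φ hlta hr hadm hE b hb1 hb2 => ?_⟩
    have ha := hr.sc.a_pos
    have hu160 : (0 : ℝ) ≤ u ^ 160 := by positivity
    have hmono : ∀ η' : ℝ, min η1 η2 ≤ η' →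
        tE 𝒱 φ ≤ ENNReal.ofReal (4 * Real.pi * N ^ 2 * a + N ^ 2 * a * u ^ 160 * (Jf 0 + η')) := by
      intro η' hη'
      refine hE.trans (ENNReal.ofReal_le_ofReal ?_)
      have h3 : 0 ≤ (N : ℝ) ^ 2 * a * u ^ 160 := by positivity
      have h4 := mul_le_mul_of_nonneg_left (add_le_add_right hη' (Jf 0)) h3
      linarith
    rcases Nat.lt_or_eq_of_le hb2 with hb | hb
    · exact k1 N W f Q sh R₀ R a 𝒱 φ (hlta.trans_le (min_le_left _ _))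
        (RegG.mono_c hr hu160 (min_le_left _ _)) hadm (hmono η1 (min_le_left _ _)) b hb1 (by omega)
    · rw [hb]
      push_cast
      exact k2 N W f Q sh R₀ R a 𝒱 φ (hlta.trans_le (min_le_right _ _))
        (RegG.mono_c hr hu160 (min_le_right _ _)) hadm (hmono η2 (min_le_right _ _))

/-- **Momentum distribution above an infrared cutoff, all states of low energy, torus form.** -/
theorem nm_thr (θ cw : ℝ) (hcw : 0 < cw) {d₀ ε : ℝ} (hd₀ : 0 < d₀) (hε : 0 < ε) :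
    ∃ η c u₀ : ℝ, 0 < η ∧ 0 < c ∧ 0 < u₀ ∧ ∀ u : ℝ, 0 < u → u < u₀ → ∃ a₀ : ℝ, 0 < a₀ ∧
      ∀ (N : ℕ) (W f Q sh : ℝ → ℝ) (R₀ R a : ℝ) (𝒱 : T3 → ℝ≥0∞) (φ : (Fin N → T3) → ℂ), a < a₀ →
      RegG θ cw c (u ^ 160) W f Q sh R₀ R a N 𝒱 → tAdm R₀ 𝒱 φ →
      tE 𝒱 φ ≤ ENNReal.ofReal (4 * Real.pi * N ^ 2 * a + N ^ 2 * a * u ^ 160 * (Jf 0 + η)) →
      ∀ d : ℝ, d₀ ≤ d → |Dm (ind d (a / u ^ 160)) φ / (N * u ^ 160) - FF d| ≤ ε := by
  obtain ⟨B, ζ, hζ, H⟩ := weights_close hd₀ hε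
  obtain ⟨η, c, u₀, hη, hc, hu₀, h1⟩ := nm_all θ cw hcw hζ B
  refine ⟨η, c, u₀, hη, hc, hu₀, fun u hu hlt => ?_⟩
  obtain ⟨a₀, ha₀, h2⟩ := h1 u hu hlt
  refine ⟨a₀, ha₀, fun N W f Q sh R₀ R a 𝒱 φ hlta hr hadm hE d hd => ?_⟩
  have h3 := h2 N W f Q sh R₀ R a 𝒱 φ hlta hr hadm hE
  have ha := hr.sc.a_pos
  have hN0 : (0 : ℝ) < N := by
    rcases Nat.eq_zero_or_pos N with h0 | h0
    · exfalso
      have h4 := hr.Na
      rw [h0, Nat.cast_zero, zero_mul] at h4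
      have h5 : 0 < (u ^ 160) ^ 2 := by positivity
      linarith
    · exact_mod_cast h0
  set q : ℝ := N * u ^ 160 with hq
  have hq0 : 0 < q := by positivity
  set l : ℝ := a / u ^ 160 with hl
  have hψ := hadm.1
  have hy : ∀ p : Fin 3 → ℤ, 0 ≤ l ^ 2 * ksq p := fun p => mul_nonneg (sq_nonneg _) (ksq_nonneg p)
  have hz : ∀ p : Fin 3 → ℤ, Real.exp (-(l ^ 2 * ksq p)) ∈ Icc (0:ℝ) 1 := fun p =>
    ⟨(Real.exp_pos _).le, by rw [Real.exp_le_one_iff]; have := hy p; linarith⟩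
  have hsum := (F3_bdd_summable hψ (φ := fun _ => 1) (C := 1) (fun p => by simp)).1
  have hw : Summable fun x : Fin N × (Fin N → Fin 3 → ℤ) => ‖fc φ x.2‖ ^ 2 / q := by
    simp only [one_mul] at hsum
    exact hsum.div_const q
  have key := H (Fin N × (Fin N → Fin 3 → ℤ)) (fun x => Real.exp (-(l ^ 2 * ksq (x.2 x.1))))
    (fun x => ‖fc φ x.2‖ ^ 2 / q) (fun x => hz _) (fun x => by positivity) hw ?_ d hd
  · have e : ∑' x : Fin N × (Fin N → Fin 3 → ℤ),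
        (if Real.exp (-(l ^ 2 * ksq (x.2 x.1))) ≤ Real.exp (-(d ^ 2)) then ‖fc φ x.2‖ ^ 2 / q else 0)
        = Dm (ind d l) φ / q := by
      rw [← (F3_bdd_summable hψ (φ := ind d l) (C := 1) (fun p => by
        unfold ind; split_ifs <;> simp)).2, ← tsum_div_const]
      refine tsum_congr fun x => ?_
      unfold ind
      by_cases hx : d ^ 2 ≤ l ^ 2 * ksq (x.2 x.1)
      · rw [if_pos (by rw [Real.exp_le_exp]; linarith), if_pos hx, one_mul]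
      · rw [if_neg (by rw [Real.exp_le_exp]; intro h; exact hx (by linarith)), if_neg hx, zero_mul,
          zero_div]
    rw [e] at key
    exact key
  · intro b hb1 hb2
    have h4 := h3 b hb1 hb2
    have e : ∑' x : Fin N × (Fin N → Fin 3 → ℤ),
        (1 - Real.exp (-(l ^ 2 * ksq (x.2 x.1))) ^ b) * (‖fc φ x.2‖ ^ 2 / q)
        = Db ((b : ℝ) * l ^ 2) φ / q := by
      unfold Db
      rw [← (F3_bdd_summable hψ (φ := fun p => 1 - Real.exp (-((b : ℝ) * l ^ 2 * ksq p))) (C := 1)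
        (fun p => ?_)).2, ← tsum_div_const]
      · refine tsum_congr fun x => ?_
        rw [← Real.exp_nat_mul, mul_div_assoc]
        congr 3
        ring_nf
      · have h5 : Real.exp (-((b : ℝ) * l ^ 2 * ksq p)) ≤ 1 := by
          rw [Real.exp_le_one_iff]
          have : 0 ≤ (b : ℝ) * (l ^ 2 * ksq p) := mul_nonneg (Nat.cast_nonneg b) (hy p)
          linarith
        have h6 := Real.exp_pos (-((b : ℝ) * l ^ 2 * ksq p))
        rw [abs_le]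
        constructor <;> linarith
    rw [e]
    exact h4

end Pool.Agent.Lib.MP_4952d6_mp.LK
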