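import Pool.Agent.Lib.MP_4952d6_mp.Pr.R26

/-!
# Pr.R27 (leaf N4): the number of excitations weighted by `(1 - cos (p·y))/2`, all states of low energy, fixed `y`

`Fb_tendsto` (as at the beginning of `GcOn_local`, Pd/D05 l.395-405) gives `b > 0` with `Fb b ≤ ε/4`. `nm_point` (R25) for `w = wb b y` (`wb_wg`, R23) with `ε/4`, and `nm_og` (R26) for this `b` with `ε/4`; minimum of the
constants (`η`: `tE φ ≤ ofReal (.. (Jf 0 + min η η'))` implies the bound with the larger `η`; `RegG.mono_c` for `c`). `l = a / u^160`, `q = N u^160`: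
`|Dw y l φ / q - G3 y| ≤ |Dww (wb b y) l φ - Dw y l φ| / q + |Dww/q - Gw| + |Gw - G3 y| ≤ (Db (b l²) φ / q)/2 + ε/4 + Fb b/2 ≤ (Fb b + ε/4)/2 + ε/4 + Fb b/2 ≤ ε`
(`Dww_wb_near`, `Gw_wb_near`).
-/

set_option autoImplicit false
set_option linter.unusedSectionVars false
set_option linter.unusedVariables false
open MeasureTheory Function Filter Topology Set ComplexConjugate
open scoped ENNReal

namespace Pool.Agent.Lib.MP_4952d6_mp.LK

open LA O LB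

open LG

theorem nm_cos (θ cw : ℝ) (hcw : 0 < cw) (y : Fin 3 → ℝ) {ε : ℝ} (hε : 0 < ε) :
    ∃ η c u₀ : ℝ, 0 < η ∧ 0 < c ∧ 0 < u₀ ∧ ∀ u : ℝ, 0 < u → u < u₀ → ∃ a₀ : ℝ, 0 < a₀ ∧
      ∀ (N : ℕ) (W f Q sh : ℝ → ℝ) (R₀ R a : ℝ) (𝒱 : T3 → ℝ≥0∞) (φ : (Fin N → T3) → ℂ), a < a₀ →
      RegG θ cw c (u ^ 160) W f Q sh R₀ R a N 𝒱 → tAdm R₀ 𝒱 φ →
      tE 𝒱 φ ≤ ENNReal.ofReal (4 * Real.pi * N ^ 2 * a + N ^ 2 * a * u ^ 160 * (Jf 0 + η)) →
      |Dw y (a / u ^ 160) φ / (N * u ^ 160) - G3 y| ≤ ε := by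
  have h1 := Metric.tendsto_nhds.1 Fb_tendsto (ε / 4) (by positivity)
  obtain ⟨b', hb', h2⟩ := mem_nhdsGT_iff_exists_Ioo_subset.1 h1
  have hb'' : (0:ℝ) < b' := hb'
  obtain ⟨b, hb, hbF⟩ : ∃ b : ℝ, 0 < b ∧ Fb b ≤ ε / 4 := by
    have hb0 : (0:ℝ) < b' / 2 := by positivity
    have h3 := h2 (show b' / 2 ∈ Ioo (0:ℝ) b' from ⟨hb0, by linarith⟩)
    simp only [Set.mem_ofPred_eq] at h3
    rw [Real.dist_eq, sub_zero, abs_of_nonneg (Fb_nonneg hb0.le)] at h3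
    exact ⟨b' / 2, hb0, h3.le⟩
  obtain ⟨η1, c1, u1, hη1, hc1, hu1, s1⟩ := nm_point θ cw hcw (wb_wg hb y) (ε := ε / 4) (by positivity)
  obtain ⟨η2, c2, u2, hη2, hc2, hu2, s2⟩ := nm_og θ cw hcw hb (ε := ε / 4) (by positivity)
  refine ⟨min η1 η2, min c1 c2, min u1 u2, lt_min hη1 hη2, lt_min hc1 hc2, lt_min hu1 hu2, fun u hu hlt => ?_⟩
  obtain ⟨a1, ha1, k1⟩ := s1 u hu (hlt.trans_le (min_le_left _ _))
  obtain ⟨a2, ha2, k2⟩ := s2 u hu (hlt.trans_le (min_le_right _ _))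
  refine ⟨min a1 a2, lt_min ha1 ha2, fun N W f Q sh R₀ R a 𝒱 φ hlta hr hadm hE => ?_⟩
  have ha := hr.sc.a_pos
  have hu160 : (0 : ℝ) < u ^ 160 := by positivity
  have hmono : ∀ η' : ℝ, min η1 η2 ≤ η' →
      tE 𝒱 φ ≤ ENNReal.ofReal (4 * Real.pi * N ^ 2 * a + N ^ 2 * a * u ^ 160 * (Jf 0 + η')) := by
    intro η' hη'
    refine hE.trans (ENNReal.ofReal_le_ofReal ?_)
    have h3 : 0 ≤ (N : ℝ) ^ 2 * a * u ^ 160 := by positivity
    have h4 := mul_le_mul_of_nonneg_left (add_le_add_right hη' (Jf 0)) h3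
    linarith
  have j1 := k1 N W f Q sh R₀ R a 𝒱 φ (hlta.trans_le (min_le_left _ _))
    (RegG.mono_c hr hu160.le (min_le_left _ _)) hadm (hmono η1 (min_le_left _ _))
  have j2 := k2 N W f Q sh R₀ R a 𝒱 φ (hlta.trans_le (min_le_right _ _))
    (RegG.mono_c hr hu160.le (min_le_right _ _)) hadm (hmono η2 (min_le_right _ _))
  have hN : (0 : ℝ) < N := by
    rcases (Nat.cast_nonneg N : (0 : ℝ) ≤ N).lt_or_eq with h | h
    · exact h
    · have h5 := hr.Na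
      rw [← h, zero_mul] at h5
      exact absurd h5.symm (by positivity)
  have hq : (0 : ℝ) < N * u ^ 160 := mul_pos hN hu160
  have j3 := Dww_wb_near hb y (a / u ^ 160) hadm.1
  have j4 := Gw_wb_near hb y
  have j5 : |Dww (wb b y) (a / u ^ 160) φ / (N * u ^ 160) - Dw y (a / u ^ 160) φ / (N * u ^ 160)| ≤
      Db (b * (a / u ^ 160) ^ 2) φ / (N * u ^ 160) / 2 := by
    rw [← sub_div, abs_div, abs_of_pos hq, div_right_comm]
    exact div_le_div_of_nonneg_right j3 hq.le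
  have j6 := (abs_le.1 j2).2
  have j7 := abs_le.1 j1
  have j8 := abs_le.1 j4
  have j9 := abs_le.1 j5
  rw [abs_le]
  constructor <;> linarith [j7.1, j7.2, j8.1, j8.2, j9.1, j9.2]

end Pool.Agent.Lib.MP_4952d6_mp.LK
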