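import Pool.Agent.Lib.MP_4952d6_mp.Pr.R27

/-!
# Pr.R27b (leaf N4b): compact sets of displacements

Copy of `GcOn_local`, `Gc_compact`, `Gc_comb` (Pd/D05 l.378-520) with `nm_cos` (R27) for `Gc_point` and `nm_og` (R26) for `og_all`; `hr.adm.1` is now `hφ.1` (`tAdm`). The constant `η` is also minimised
(`tE φ ≤ ofReal (.. (Jf 0 + min η η'))` implies the bound with the larger `η`: make a small lemma `low_mono`). `RegG.mono_c` (R25) for `hr.mono`.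
-/

set_option autoImplicit false
set_option linter.unusedSectionVars false
set_option linter.unusedVariables false
open MeasureTheory Function Filter Topology Set ComplexConjugate
open scoped ENNReal

namespace Pool.Agent.Lib.MP_4952d6_mp.LK

open LA O LB

open LG

/-- The statement on a set of displacements. -/
def GcN (θ cw ε : ℝ) (K : Set (Fin 3 → ℝ)) : Prop :=
    ∃ η c u₀ : ℝ, 0 < η ∧ 0 < c ∧ 0 < u₀ ∧ ∀ u : ℝ, 0 < u → u < u₀ → ∃ a₀ : ℝ, 0 < a₀ ∧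
      ∀ (N : ℕ) (W f Q sh : ℝ → ℝ) (R₀ R a : ℝ) (𝒱 : T3 → ℝ≥0∞) (φ : (Fin N → T3) → ℂ), a < a₀ →
      RegG θ cw c (u ^ 160) W f Q sh R₀ R a N 𝒱 → tAdm R₀ 𝒱 φ →
      tE 𝒱 φ ≤ ENNReal.ofReal (4 * Real.pi * N ^ 2 * a + N ^ 2 * a * u ^ 160 * (Jf 0 + η)) →
      ∀ y ∈ K, |Dw y (a / u ^ 160) φ / (N * u ^ 160) - G3 y| ≤ ε

private lemma R27b_low {N : ℕ} {a u J η η' : ℝ} (ha : 0 < a) (hu : 0 < u) {E : ℝ≥0∞}
    (hE : E ≤ ENNReal.ofReal (4 * Real.pi * N ^ 2 * a + N ^ 2 * a * u ^ 160 * (J + η))) (hη : η ≤ η') :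
    E ≤ ENNReal.ofReal (4 * Real.pi * N ^ 2 * a + N ^ 2 * a * u ^ 160 * (J + η')) := by
  refine hE.trans (ENNReal.ofReal_le_ofReal ?_)
  have h3 : 0 ≤ (N : ℝ) ^ 2 * a * u ^ 160 := by positivity
  have h4 := mul_le_mul_of_nonneg_left (add_le_add_right hη J) h3
  linarith

lemma GcN_local (θ cw : ℝ) (hcw : 0 < cw) {ε : ℝ} (hε : 0 < ε) (y₀ : Fin 3 → ℝ) :
    ∃ t ∈ 𝓝 y₀, GcN θ cw ε t := by
  set s : ℝ := ε / 12 with hs
  have hs0 : 0 < s := by positivity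
  -- small displacement
  have h1 := Metric.tendsto_nhds.1 Fb_tendsto (s * ε / 8) (by positivity)
  obtain ⟨b2', hb2', h2⟩ := mem_nhdsGT_iff_exists_Ioo_subset.1 h1
  have hb2'' : (0:ℝ) < b2' := hb2'
  set b2 : ℝ := b2' / 2 with hb2
  have hb20 : 0 < b2 := by positivity
  have h3 := h2 (show b2 ∈ Ioo (0:ℝ) b2' from ⟨hb20, by rw [hb2]; linarith⟩)
  simp only [Set.mem_ofPred_eq] at h3
  rw [Real.dist_eq, sub_zero, abs_of_nonneg (Fb_nonneg hb20.le)] at h3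
  set b1 : ℝ := (2 * nr y₀ + 1) ^ 2 / 4 + 1 with hb1
  have hb10 : 0 < b1 := by positivity
  obtain ⟨η1, c1, v1, hη1, hc1, hv1, s1⟩ := nm_og θ cw hcw (b := b1) (ε := 1) hb10 one_pos
  obtain ⟨η2, c2, v2, hη2, hc2, hv2, s2⟩ := nm_og θ cw hcw (b := b2) (ε := s * ε / 8) hb20 (by positivity)
  obtain ⟨η3, c3, v3, hη3, hc3, hv3, s3⟩ := nm_cos θ cw hcw y₀ (ε := ε / 4) (by positivity)
  -- the neighbourhood
  have n1 : ∀ᶠ y in 𝓝 y₀, nr (y - y₀) ^ 2 / 4 < b2 := by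
    have hc : Continuous fun y : Fin 3 → ℝ => nr (y - y₀) ^ 2 / 4 :=
      ((nr_cont.comp (continuous_id.sub continuous_const)).pow 2).div_const 4
    have h := hc.tendsto y₀
    have e : nr (y₀ - y₀) ^ 2 / 4 = 0 := by
      rw [sub_self, nr_sq]; simp
    rw [e] at h
    exact h.eventually_lt_const hb20
  have n2 : ∀ᶠ y in 𝓝 y₀, nr (y + y₀) ^ 2 / 4 < b1 := by
    have hc : Continuous fun y : Fin 3 → ℝ => nr (y + y₀) ^ 2 / 4 :=
      ((nr_cont.comp (continuous_id.add continuous_const)).pow 2).div_const 4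
    have h := hc.tendsto y₀
    refine h.eventually_lt_const ?_
    have e : nr (y₀ + y₀) = 2 * nr y₀ := by
      unfold nr
      have : ∑ α, (y₀ + y₀) α ^ 2 = 2 ^ 2 * ∑ α, y₀ α ^ 2 := by
        rw [Finset.mul_sum]
        exact Finset.sum_congr rfl fun α _ => by rw [Pi.add_apply]; ring
      rw [this, Real.sqrt_mul (by norm_num), Real.sqrt_sq (by norm_num)]
    rw [e, hb1]
    have := nr_nonneg y₀
    nlinarith
  have n3 : ∀ᶠ y in 𝓝 y₀, |G3 y₀ - G3 y| < ε / 4 := by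
    have h := Metric.tendsto_nhds.1 (G3_continuous.tendsto y₀) (ε / 4) (by positivity)
    filter_upwards [h] with y hy
    rwa [Real.dist_eq, abs_sub_comm] at hy
  refine ⟨_, (n1.and (n2.and n3)), min η1 (min η2 η3), min c1 (min c2 c3), min v1 (min v2 v3),
    lt_min hη1 (lt_min hη2 hη3), lt_min hc1 (lt_min hc2 hc3), lt_min hv1 (lt_min hv2 hv3), fun u hu hlt => ?_⟩
  obtain ⟨a1, ha1, t1⟩ := s1 u hu (hlt.trans_le (min_le_left _ _))
  obtain ⟨a2, ha2, t2⟩ := s2 u hu (hlt.trans_le ((min_le_right _ _).trans (min_le_left _ _)))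
  obtain ⟨a3, ha3, t3⟩ := s3 u hu (hlt.trans_le ((min_le_right _ _).trans (min_le_right _ _)))
  refine ⟨min a1 (min a2 a3), lt_min ha1 (lt_min ha2 ha3),
    fun N W f Q sh R₀ R a 𝒱 ψ hlta hr hadm hE y hy => ?_⟩
  obtain ⟨hy1, hy2, hy3⟩ := hy
  have ha := hr.sc.a_pos
  have hY : (0 : ℝ) ≤ u ^ 160 := by positivity
  obtain ⟨e1, e2, hN0⟩ := F2_one ha hu (by rw [hr.Na]; ring)
  have r1 := t1 N W f Q sh R₀ R a 𝒱 ψ (hlta.trans_le (min_le_left _ _))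
    (RegG.mono_c hr hY (min_le_left _ _)) hadm (R27b_low ha hu hE (min_le_left _ _))
  have r2 := t2 N W f Q sh R₀ R a 𝒱 ψ (hlta.trans_le ((min_le_right _ _).trans (min_le_left _ _)))
    (RegG.mono_c hr hY ((min_le_right _ _).trans (min_le_left _ _))) hadm
    (R27b_low ha hu hE ((min_le_right _ _).trans (min_le_left _ _)))
  have r3 := t3 N W f Q sh R₀ R a 𝒱 ψ (hlta.trans_le ((min_le_right _ _).trans (min_le_right _ _)))
    (RegG.mono_c hr hY ((min_le_right _ _).trans (min_le_right _ _))) hadm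
    (R27b_low ha hu hE ((min_le_right _ _).trans (min_le_right _ _)))
  set l : ℝ := a / u ^ 160 with hl
  set q : ℝ := N * u ^ 160 with hq
  have hq0 : 0 < q := by positivity
  have m1 := Dw_le_Db hadm.1 hy2.le l
  have m2 := Dw_le_Db hadm.1 hy1.le l
  have m3 := Dw_diff hadm.1 y y₀ l hs0
  have k1 : Db (b1 * l ^ 2) ψ ≤ 3 * q := by
    have h4 := (abs_le.1 r1).2
    have h5 := Fb_le_two hb10.le
    have h6 : Db (b1 * l ^ 2) ψ / q ≤ 3 := by linarith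
    rwa [div_le_iff₀ hq0] at h6
  have k2 : Db (b2 * l ^ 2) ψ ≤ s * ε / 4 * q := by
    have h4 := (abs_le.1 r2).2
    have h6 : Db (b2 * l ^ 2) ψ / q ≤ s * ε / 4 := by linarith
    rwa [div_le_iff₀ hq0] at h6
  have k3 : |Dw y l ψ - Dw y₀ l ψ| ≤ ε / 2 * q := by
    refine m3.trans ?_
    have h4 : s / 2 * Dw (y + y₀) l ψ ≤ s / 2 * (6 * q) :=
      mul_le_mul_of_nonneg_left (by linarith) (by positivity)
    have h5 : 1 / (2 * s) * Dw (y - y₀) l ψ ≤ 1 / (2 * s) * (s * ε / 2 * q) :=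
      mul_le_mul_of_nonneg_left (by linarith) (by positivity)
    have h6 : s / 2 * (6 * q) = ε / 4 * q := by rw [hs]; ring
    have h7 : 1 / (2 * s) * (s * ε / 2 * q) = ε / 4 * q := by field_simp; norm_num
    linarith
  have k4 : |Dw y l ψ / q - Dw y₀ l ψ / q| ≤ ε / 2 := by
    rw [← sub_div, abs_div, abs_of_pos hq0, div_le_iff₀ hq0]
    exact k3
  have t := abs_sub_le (Dw y l ψ / q) (Dw y₀ l ψ / q) (G3 y)
  have t' := abs_sub_le (Dw y₀ l ψ / q) (G3 y₀) (G3 y)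
  linarith

theorem GcN_compact (θ cw : ℝ) (hcw : 0 < cw) {ε : ℝ} (hε : 0 < ε) {K : Set (Fin 3 → ℝ)}
    (hK : IsCompact K) : GcN θ cw ε K := by
  refine hK.induction_on (p := GcN θ cw ε) ?_ ?_ ?_ ?_
  · exact ⟨1, 1, 1, one_pos, one_pos, one_pos, fun u hu _ => ⟨1, one_pos,
      fun N W f Q sh R₀ R a 𝒱 ψ _ _ _ _ y hy => absurd hy (Set.notMem_empty y)⟩⟩
  · rintro s t hst ⟨η, c, u₀, hη, hc, hu₀, h⟩
    refine ⟨η, c, u₀, hη, hc, hu₀, fun u hu hlt => ?_⟩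
    obtain ⟨a₀, ha₀, h'⟩ := h u hu hlt
    exact ⟨a₀, ha₀, fun N W f Q sh R₀ R a 𝒱 ψ hlta hr hadm hE y hy =>
      h' N W f Q sh R₀ R a 𝒱 ψ hlta hr hadm hE y (hst hy)⟩
  · rintro s t ⟨η, c, u₀, hη, hc, hu₀, h⟩ ⟨η', c', u₀', hη', hc', hu₀', h'⟩
    refine ⟨min η η', min c c', min u₀ u₀', lt_min hη hη', lt_min hc hc', lt_min hu₀ hu₀', fun u hu hlt => ?_⟩
    obtain ⟨a₀, ha₀, g⟩ := h u hu (hlt.trans_le (min_le_left _ _))
    obtain ⟨a₀', ha₀', g'⟩ := h' u hu (hlt.trans_le (min_le_right _ _))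
    refine ⟨min a₀ a₀', lt_min ha₀ ha₀', fun N W f Q sh R₀ R a 𝒱 ψ hlta hr hadm hE y hy => ?_⟩
    have ha := hr.sc.a_pos
    have hY : (0 : ℝ) ≤ u ^ 160 := by positivity
    rcases hy with hy | hy
    · exact g N W f Q sh R₀ R a 𝒱 ψ (hlta.trans_le (min_le_left _ _))
        (RegG.mono_c hr hY (min_le_left _ _)) hadm (R27b_low ha hu hE (min_le_left _ _)) y hy
    · exact g' N W f Q sh R₀ R a 𝒱 ψ (hlta.trans_le (min_le_right _ _))
        (RegG.mono_c hr hY (min_le_right _ _)) hadm (R27b_low ha hu hE (min_le_right _ _)) y hy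
  · intro y₀ _
    obtain ⟨t, ht, h⟩ := GcN_local θ cw hcw hε y₀
    exact ⟨t, mem_nhdsWithin_of_mem_nhds ht, h⟩

/-- The two torus statements together. -/
theorem nm_comb (θ cw : ℝ) (hcw : 0 < cw) {ε b : ℝ} (hε : 0 < ε) (hb : 0 < b)
    {K : Set (Fin 3 → ℝ)} (hK : IsCompact K) :
    ∃ η c u₀ : ℝ, 0 < η ∧ 0 < c ∧ 0 < u₀ ∧ ∀ u : ℝ, 0 < u → u < u₀ → ∃ a₀ : ℝ, 0 < a₀ ∧
      ∀ (N : ℕ) (W f Q sh : ℝ → ℝ) (R₀ R a : ℝ) (𝒱 : T3 → ℝ≥0∞) (φ : (Fin N → T3) → ℂ), a < a₀ →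
      RegG θ cw c (u ^ 160) W f Q sh R₀ R a N 𝒱 → tAdm R₀ 𝒱 φ →
      tE 𝒱 φ ≤ ENNReal.ofReal (4 * Real.pi * N ^ 2 * a + N ^ 2 * a * u ^ 160 * (Jf 0 + η)) →
      (∀ y ∈ K, |Dw y (a / u ^ 160) φ / (N * u ^ 160) - G3 y| ≤ ε) ∧
      ∀ y : Fin 3 → ℝ, Dw y (a / u ^ 160) φ / (N * u ^ 160)
        ≤ 2 * max 1 (nr y ^ 2 / (4 * b)) * (8 / (3 * Real.sqrt Real.pi) + ε) := by
  obtain ⟨η1, c1, v1, hη1, hc1, hv1, s1⟩ := GcN_compact θ cw hcw hε hK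
  obtain ⟨η2, c2, v2, hη2, hc2, hv2, s2⟩ := nm_og θ cw hcw hb hε
  refine ⟨min η1 η2, min c1 c2, min v1 v2, lt_min hη1 hη2, lt_min hc1 hc2, lt_min hv1 hv2, fun u hu hlt => ?_⟩
  obtain ⟨a1, ha1, t1⟩ := s1 u hu (hlt.trans_le (min_le_left _ _))
  obtain ⟨a2, ha2, t2⟩ := s2 u hu (hlt.trans_le (min_le_right _ _))
  refine ⟨min a1 a2, lt_min ha1 ha2, fun N W f Q sh R₀ R a 𝒱 ψ hlta hr hadm hE => ?_⟩
  have ha := hr.sc.a_pos
  have hY : (0 : ℝ) ≤ u ^ 160 := by positivity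
  refine ⟨?_, fun y => ?_⟩
  · exact t1 N W f Q sh R₀ R a 𝒱 ψ (hlta.trans_le (min_le_left _ _))
      (RegG.mono_c hr hY (min_le_left _ _)) hadm (R27b_low ha hu hE (min_le_left _ _))
  · have r2 := t2 N W f Q sh R₀ R a 𝒱 ψ (hlta.trans_le (min_le_right _ _))
      (RegG.mono_c hr hY (min_le_right _ _)) hadm (R27b_low ha hu hE (min_le_right _ _))
    obtain ⟨e1, e2, hN0⟩ := F2_one ha hu (by rw [hr.Na]; ring)
    have hq0 : 0 < (N : ℝ) * u ^ 160 := by positivity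
    have h1 := Dw_le_Db_all hadm.1 y hb (a / u ^ 160)
    have h2 : Db (b * (a / u ^ 160) ^ 2) ψ / (N * u ^ 160) ≤ 8 / (3 * Real.sqrt Real.pi) + ε := by
      have h3 := (abs_le.1 r2).2
      have h4 := Fb_le hb.le
      linarith
    set M : ℝ := max 1 (nr y ^ 2 / (4 * b)) with hM
    have hM1 : 1 ≤ M := le_max_left _ _
    calc Dw y (a / u ^ 160) ψ / (N * u ^ 160)
        ≤ 2 * M * Db (b * (a / u ^ 160) ^ 2) ψ / (N * u ^ 160) :=
          div_le_div_of_nonneg_right h1 hq0.le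
      _ = 2 * M * (Db (b * (a / u ^ 160) ^ 2) ψ / (N * u ^ 160)) := by ring
      _ ≤ _ := mul_le_mul_of_nonneg_left h2 (by linarith)

end Pool.Agent.Lib.MP_4952d6_mp.LK
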