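import Pool.Agent.Lib.MP_4952d6_mp.Pq.P16
import Pool.Agent.Lib.MP_4952d6_mp.Pq.P19

/-!
# Pr.R28 (leaf T1): from the box of side `L` to the torus, states of low energy

Model: `plb_of` (Pq/P16, the whole construction of `hreg`, `P16_shape`, `O.F4_trunc`) and `otd_of` (Po/N12). `A = scatLen m R₀ v`, `θ = 2 R / A`, `cw = sig * Iw / R` as there.
Given `c, η, δ, ρ`: `YA = √(ρ A³) ≤ 1`, `J = Jf 0` (`1 ≤ J` as in `plb_of`), `κ = η / (8 π + 8 J)`, `δ' = min δ (κ YA)`; `htr δ' (c (A/2) (YA/2) / (2 sig))` gives `W f Q a` (`(1 - δ') A ≤ a`, so `(1 - δ) A ≤ a`).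
`aT` given: `F4_side hρ (max (2 R) (a / aT))` gives `N₁`. `hreg` is literally the one of `plb_of`. `adm_TT` for `tAdm`.
Energy: `energy_eq`: `energy m v N L ψ = ofReal (1/(2 m L²)) * tE (Vp m L v) (TT N L ψ)`; `O.FE2_unit` with `K = J + 4 π x` gives
`N (2π/m ρ A (1 + (J/(4π) + x) YA)) = 1/(2 m L²) (4πN²(A/L) + N²(A/L) YA (J + 4πx))`, cancel the factor (`ENNReal.mul_le_mul_iff_right`, as in `hE0` of `plb_of`). It remains
`4πN² q + N² q YA (J + 4πx) ≤ 4πN²(a/L) + N²(a/L) Y (J + η + 8πx)`, `q = A/L`, `Y = √(ρ a³)`: `a/L ≥ (1-δ') q`, `(a/L) Y ≥ (1-δ')(1-3δ') q YA ≥ (1-4δ') q YA` (`O.F4_ratio`), so after division by `N² q`: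
`4π + YA (J + 4πx) ≤ 4π (1-δ') + (1-4δ') YA (J + η + 8πx)` because `4πδ' ≤ 4πκ YA`, `4δ'J YA ≤ 4κJ YA`, `4κ(π+J) = η/2 ≤ (1-4δ') η` and `4πx ≤ (1-4δ') 8πx` (`δ' ≤ 1/10`).
-/

set_option autoImplicit false
set_option linter.unusedSectionVars false
set_option linter.unusedVariables false
open MeasureTheory Function Filter Topology Set ComplexConjugate
open scoped ENNReal

namespace Pool.Agent.Lib.MP_4952d6_mp.LK

open LA LG

private lemma R28_low {N a Y A Z L J η x δ κ : ℝ} (hJ1 : 1 ≤ J) (hη : 0 < η) (hx : 0 ≤ x) (ha : 0 < a)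
    (hA : 0 < A) (hY : 0 < Y) (hZ : 0 < Z) (hZ1 : Z ≤ 1) (haA : (1 - δ) * A ≤ a)
    (hYZ : (1 - 3 * δ) * Z ≤ Y) (hL : 0 < L) (hδ : 0 ≤ δ) (hδ1 : δ ≤ 1 / 10) (hδ2 : δ ≤ κ * Z)
    (hκ : κ = η / (8 * Real.pi + 8 * J)) :
    4 * Real.pi * N ^ 2 * (A / L) + N ^ 2 * (A / L) * Z * (J + 4 * Real.pi * x)
      ≤ 4 * Real.pi * N ^ 2 * (a / L) + N ^ 2 * (a / L) * Y * (J + η + 8 * Real.pi * x) := by
  have hp := Real.pi_pos
  have hκ' : κ * (8 * Real.pi + 8 * J) = η := by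
    rw [hκ]
    have : 8 * Real.pi + 8 * J ≠ 0 := by positivity
    field_simp
  have hκ0 : 0 ≤ κ := by rw [hκ]; positivity
  have b1 : (1 - δ) * (A / L) ≤ a / L := by
    rw [← mul_div_assoc]
    exact div_le_div_of_nonneg_right haA hL.le
  have hd1 : 0 ≤ 1 - δ := by linarith
  have hd3 : 0 ≤ 1 - 3 * δ := by linarith
  have hAL : 0 < A / L := by positivity
  set q : ℝ := A / L with hq
  set K : ℝ := J + η + 8 * Real.pi * x with hK
  have hxp : 0 ≤ Real.pi * x := by positivity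
  have hK0 : 0 ≤ K := by
    rw [hK]
    linarith
  have b2 : (1 - δ) * q * ((1 - 3 * δ) * Z) ≤ (a / L) * Y :=
    mul_le_mul b1 hYZ (by positivity) (by positivity)
  have b3 : (1 - 4 * δ) * (q * Z) ≤ (1 - δ) * q * ((1 - 3 * δ) * Z) := by
    have : 0 ≤ δ ^ 2 * (q * Z) := by positivity
    nlinarith
  have b4 : (1 - 4 * δ) * (q * Z) * K ≤ (a / L) * Y * K :=
    mul_le_mul_of_nonneg_right (b3.trans b2) hK0
  have b5 : 4 * Real.pi * ((1 - δ) * q) ≤ 4 * Real.pi * (a / L) :=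
    mul_le_mul_of_nonneg_left b1 (by positivity)
  have c1 : 4 * Real.pi * δ ≤ 4 * Real.pi * (κ * Z) := mul_le_mul_of_nonneg_left hδ2 (by positivity)
  have c2 : 4 * δ * (Z * J) ≤ 4 * (κ * Z) * (1 * J) := by gcongr
  have c3 : 4 * δ * (Z * η) ≤ 4 * (1 / 10) * (Z * η) := by gcongr
  have c4 : 4 * δ * (Z * (8 * Real.pi * x)) ≤ 4 * (1 / 10) * (Z * (8 * Real.pi * x)) := by gcongr
  have c5 : κ * Z * (8 * Real.pi + 8 * J) = η * Z := by
    rw [← hκ']
    ring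
  have c6 : 0 ≤ η * Z := by positivity
  have c7 : 0 ≤ Z * (Real.pi * x) := by positivity
  have c8 : 4 * Real.pi + Z * (J + 4 * Real.pi * x) ≤ 4 * Real.pi * (1 - δ) + (1 - 4 * δ) * Z * K := by
    have e1 : (1 - 4 * δ) * Z * K = Z * J + Z * η + Z * (8 * Real.pi * x) - 4 * δ * (Z * J) - 4 * δ * (Z * η)
        - 4 * δ * (Z * (8 * Real.pi * x)) := by
      rw [hK]
      ring
    rw [e1]
    linarith
  have c9 := mul_le_mul_of_nonneg_left c8 hAL.le
  have hN2 : 0 ≤ N ^ 2 := sq_nonneg N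
  have b6 : 4 * Real.pi * q + q * Z * (J + 4 * Real.pi * x) ≤ 4 * Real.pi * (a / L) + (a / L) * Y * K := by
    linarith
  have b7 := mul_le_mul_of_nonneg_left b6 hN2
  linarith

/-- **Transfer to the torus.** -/
theorem near_transfer {m R₀ R : ℝ} {v : (Fin 3 → ℝ) → ℝ} (h : Phys m R₀ R v) :
    0 < scatLen m R₀ v ∧ ∃ θ cw : ℝ, 0 < cw ∧ ∀ c η δ ρ : ℝ, 0 < c → 0 < η → 0 < δ → δ ≤ 1 / 10 →
      0 < ρ → ρ * scatLen m R₀ v ^ 3 ≤ 1 →
      ∃ a : ℝ, 0 < a ∧ a ≤ scatLen m R₀ v ∧ (1 - δ) * scatLen m R₀ v ≤ a ∧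
        ∀ aT : ℝ, 0 < aT → ∃ N₁ : ℕ, 1 ≤ N₁ ∧ ∀ N : ℕ, N₁ ≤ N →
          0 < side ρ N ∧ a / side ρ N < aT ∧
          (∃ W f Q w : ℝ → ℝ, RegG θ cw c (Real.sqrt (ρ * a ^ 3)) W f Q w (R₀ / side ρ N)
            (R / side ρ N) (a / side ρ N) N (Vp m (side ρ N) v)) ∧
          ∀ ψ : (Fin N → Fin 3 → ℝ) → ℂ, Admissible m R₀ v N (side ρ N) ψ →
            tAdm (R₀ / side ρ N) (Vp m (side ρ N) v) (TT N (side ρ N) ψ) ∧
            ∀ x : ℝ, 0 ≤ x →
              energy m v N (side ρ N) ψ ≤ ENNReal.ofReal (N * (2 * Real.pi / m * ρ * scatLen m R₀ v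
                * (1 + (Jf 0 / (4 * Real.pi) + x) * Real.sqrt (ρ * scatLen m R₀ v ^ 3)))) →
              tE (Vp m (side ρ N) v) (TT N (side ρ N) ψ)
                ≤ ENNReal.ofReal (4 * Real.pi * N ^ 2 * (a / side ρ N)
                  + N ^ 2 * (a / side ρ N) * Real.sqrt (ρ * a ^ 3) * (Jf 0 + η + 8 * Real.pi * x)) := by
  obtain ⟨hm, hR0, hR, hv, hv0, hrad, hsupp, hgen⟩ := h
  have hRpos : 0 < R := hR0.trans_lt hR
  have hσ := sig_pos
  have hvm : AEMeasurable v volume := hv.aestronglyMeasurable.aemeasurable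
  obtain ⟨hA0, htr⟩ := O.F4_trunc hm hR0 hR hv hv0 hrad hsupp hgen
  obtain ⟨w0, hw0m, hw00, hw01, hw0R, hw0I, hw0V⟩ := P16_shape hm hR0 hR hv hv0 hrad hsupp hgen
  set A : ℝ := scatLen m R₀ v with hA
  have hpi := Real.pi_pos
  have hJ1 : 1 ≤ Jf 0 := by
    have h1 : (1.76 : ℝ) ≤ Real.sqrt Real.pi := by
      apply Real.le_sqrt_of_sq_le
      have := Real.pi_gt_d2
      norm_num
      linarith
    rw [Jf_zero_eq]
    linarith
  have hJ0 : 0 < Jf 0 := by linarith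
  set Iw : ℝ := ∫ r in Ioi (0:ℝ), r ^ 2 * w0 r with hIw
  set cw : ℝ := sig * Iw / R with hcw
  have hcw0 : 0 < cw := by rw [hcw]; positivity
  refine ⟨hA0, 2 * R / A, cw, hcw0, fun c η δ ρ hc hη hδ hδ1 hρ hρA => ?_⟩
  set YA : ℝ := Real.sqrt (ρ * A ^ 3) with hYAd
  have hYA : 0 < YA := Y_pos hρ hA0
  have hYA1 : YA ≤ 1 := by
    rw [hYAd]
    exact Real.sqrt_le_one.2 hρA
  set κ : ℝ := η / (8 * Real.pi + 8 * Jf 0) with hκ
  have hκ0 : 0 < κ := by positivity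
  set δ' : ℝ := min δ (κ * YA) with hδ'
  have hδ'0 : 0 < δ' := lt_min hδ (by positivity)
  have hδ'd : δ' ≤ δ := min_le_left _ _
  have hδ'1 : δ' ≤ 1 / 10 := hδ'd.trans hδ1
  have hδ'2 : δ' ≤ κ * YA := min_le_right _ _
  obtain ⟨W, f, Q, a, h, haA, haA', hV⟩ := htr δ' (c * (A / 2) * (YA / 2) / (2 * sig)) hδ'0
    (by positivity)
  have ha : 0 < a := h.a_pos
  have hA2a : A ≤ 2 * a := by
    have := mul_le_mul_of_nonneg_right hδ'1 hA0.le
    linarith
  obtain ⟨hr1, hr2, hr3⟩ := O.F4_ratio hρ ha haA hδ'0.le (by linarith) haA'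
  have hY := Y_pos hρ ha
  have hY2 := Y_sq hρ ha
  refine ⟨a, ha, haA, ?_, fun aT haT => ?_⟩
  · have := mul_le_mul_of_nonneg_right hδ'd hA0.le
    linarith
  set Y : ℝ := Real.sqrt (ρ * a ^ 3) with hYd
  have hYA2Y : YA / 2 ≤ Y := by
    have h1 : (1 / 2 : ℝ) ≤ 1 - 3 * δ' := by linarith
    have h2 := mul_le_mul_of_nonneg_right h1 hYA.le
    linarith
  obtain ⟨NS, hNS1, hNS⟩ := F4_side hρ (show 0 < max (2 * R) (a / aT) from
    lt_max_of_lt_left (by linarith))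
  refine ⟨NS, hNS1, fun N hNS' => ?_⟩
  have hN1 : 1 ≤ N := hNS1.trans hNS'
  have hN0 : (0:ℝ) < N := by exact_mod_cast hN1
  have hside := hNS N hNS'
  have hLp := side_pos hρ hN1
  have hL3 := side_cube hρ hN1
  set L : ℝ := side ρ N with hLdef
  have h2R : 2 * R < L := (le_max_left _ _).trans_lt hside
  have hLa : a / L < aT := by
    have h1 : a / aT < L := (le_max_right _ _).trans_lt hside
    rw [div_lt_iff₀ haT] at h1
    rw [div_lt_iff₀ hLp]; linarith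
  obtain ⟨hV1, hV2, hV3⟩ := hV L h2R
  -- the torus data
  have hreg : RegG (2 * R / A) cw c Y (fun t => L ^ 2 * W (L * t)) (fun t => f (L * t)) (fun t => Q (L * t) / L)
      (fun t => L ^ 2 * w0 (L * t)) (R₀ / L) (R / L) (a / L) N (Vp m L v) :=
    { sc := h.scale hLp
      Na := by
        rw [hY2, ← hL3, div_pow]
        field_simp
      Rle := by
        rw [← mul_div_assoc]
        refine div_le_div_of_nonneg_right ?_ hLp.le
        rw [div_mul_eq_mul_div, le_div_iff₀ hA0]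
        linarith only [mul_le_mul_of_nonneg_left hA2a hRpos.le]
      wm := (hw0m.comp (measurable_const_mul L)).const_mul _
      w0 := fun t => by
        have := hw00 (L * t)
        positivity
      wb := fun t => by
        have h1 := mul_le_mul_of_nonneg_left (hw01 (L * t)) (sq_nonneg L)
        refine h1.trans (le_of_eq ?_)
        rw [inv_div, div_pow, inv_pow]
        field_simp
      wz := fun t ht => by
        rw [div_le_iff₀ hLp] at ht
        rw [hw0R (L * t) (by linarith), mul_zero]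
      wc := by
        rw [F5_scale hLp, ← hIw, hcw]
        refine le_of_eq ?_
        field_simp
      V_meas := (aem_vper hLp hvm).const_mul _
      V_even := F5_Vp_neg hLp hrad
      V_ge := hV1
      V_int := by
        rw [tsub_le_iff_left] at hV3
        refine hV3.trans (add_le_add_right (ENNReal.ofReal_le_ofReal ?_) _)
        have h1 : A / 2 ≤ a := by linarith
        calc 2 * sig / L * (c * (A / 2) * (YA / 2) / (2 * sig))
            = c * ((A / 2) * (YA / 2)) / L := by field_simp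
          _ ≤ c * (a * Y) / L := by gcongr
          _ = c * (a / L * Y) := by ring
      V_w := hw0V L hLp }
  refine ⟨hLp, hLa, ⟨_, _, _, _, hreg⟩, fun ψ hψ => ⟨adm_TT hm hLp hR0 hvm hψ, fun x hx hen => ?_⟩⟩
  have hL2 : 0 < 1 / (2 * m * L ^ 2) := by positivity
  rw [energy_eq hm hLp hvm hψ.1.1, ← O.FE2_unit (K := Jf 0 + 4 * Real.pi * x) hm hLp hL3 (by
    field_simp), ENNReal.ofReal_mul hL2.le] at hen
  have h2 := (ENNReal.mul_le_mul_iff_right (ENNReal.ofReal_pos.2 hL2).ne' ENNReal.ofReal_ne_top).1 hen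
  refine h2.trans (ENNReal.ofReal_le_ofReal ?_)
  exact R28_low hJ1 hη hx ha hA0 hY hYA hYA1 haA' hr1 hLp hδ'0.le hδ'1 hδ'2 hκ

end Pool.Agent.Lib.MP_4952d6_mp.LK
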