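import Pool.Agent.Lib.MP_4952d6_mp.Pr.R26
import Pool.Agent.Lib.MP_4952d6_mp.Pr.R28

/-!
# Pr.R29 (leaf T2): the momentum distribution of all states of low energy, physical form

Model: `otd_of` (Po/N12 l.375-535), without the windows. `near_transfer` (R28) gives `θ, cw`; `nm_thr` (R26) for `d₀`, `ε/2` gives `ηT, c, uT`; `δ = min (1/10) (ε/20)`, `η = ηT/(16 π)`, transfer with `ηT/2`; `ρ₁ = min 1 (uT ^ 320) / a ^ 3`:
`u ^ 160 = √(ρ a'³)` (`O.F4_root`; `a'` = the length of the transfer), `√(ρ a'³) ≤ √(ρ a³)` (`O.F4_ratio`), so `u < uT`, `ρ a³ ≤ 1`. `Jf 0 + ηT/2 + 8π η ≤ Jf 0 + ηT`. The end (threshold `d' = d √(a/a')`, `O.F4_mom`, `O.F4_FF_close`, `O.F4_end`, `F4_FF_le_two`)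
is literally the end of `otd_of`.
-/

set_option autoImplicit false
set_option linter.unusedSectionVars false
set_option linter.unusedVariables false
open MeasureTheory Function Filter Topology Set ComplexConjugate
open scoped ENNReal

namespace Pool.Agent.Lib.MP_4952d6_mp.LK

open LA O LB

open LG

/-- **Momentum distribution of all states of low energy.** -/
theorem nmd_thr {m R₀ R : ℝ} {v : (Fin 3 → ℝ) → ℝ} (h : Phys m R₀ R v) {a : ℝ}
    (ha : a = scatLen m R₀ v) {d₀ ε : ℝ} (hd₀ : 0 < d₀) (hε : 0 < ε) :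
    ∃ η : ℝ, 0 < η ∧ Dilute fun ρ N => ∀ ψ : (Fin N → Fin 3 → ℝ) → ℂ,
      Admissible m R₀ v N (side ρ N) ψ →
      energy m v N (side ρ N) ψ ≤ ENNReal.ofReal (N * (2 * Real.pi / m * ρ * a
        * (1 + (Jf 0 / (4 * Real.pi) + η) * Real.sqrt (ρ * a ^ 3)))) →
      ∀ d : ℝ, d₀ ≤ d →
        |momFraction N (side ρ N) (d * Real.sqrt (ρ * a)) ψ - FF d * Real.sqrt (ρ * a ^ 3)|
          ≤ ε * Real.sqrt (ρ * a ^ 3) := by
  have hpi := Real.pi_pos
  subst ha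
  obtain ⟨hA0, θ, cw, hcw, htr⟩ := near_transfer h
  obtain ⟨ηT, c, uT, hηT, hc, huT, hT⟩ := nm_thr θ cw hcw hd₀ (half_pos hε)
  refine ⟨ηT / (16 * Real.pi), by positivity, ?_⟩
  set A : ℝ := scatLen m R₀ v with hA
  set δ : ℝ := min (1 / 10) (ε / 20) with hδ
  have hδ0 : 0 < δ := lt_min (by norm_num) (by positivity)
  have hδ1 : δ ≤ 1 / 10 := min_le_left _ _
  have hδ2 : δ ≤ ε / 20 := min_le_right _ _
  have hm0 : 0 < min (1 : ℝ) (uT ^ 320) := lt_min one_pos (by positivity)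
  refine ⟨min 1 (uT ^ 320) / A ^ 3, by positivity, fun ρ hρ hρ1 => ?_⟩
  rw [lt_div_iff₀ (by positivity)] at hρ1
  have hle1 : ρ * A ^ 3 ≤ 1 := hρ1.le.trans (min_le_left _ _)
  have hlt2 : ρ * A ^ 3 < uT ^ 320 := hρ1.trans_le (min_le_right _ _)
  have hYA := Y_pos hρ hA0
  obtain ⟨a, ha, haA, haA', hsd⟩ := htr c (ηT / 2) δ ρ hc (half_pos hηT) hδ0 hδ1 hρ hle1
  obtain ⟨hr1, hr2, hr3⟩ := F4_ratio hρ ha haA hδ0.le (by linarith) haA'
  have hY := Y_pos hρ ha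
  have hY2 := Y_sq hρ ha
  obtain ⟨u, hu0, hu⟩ := F4_root hY
  have hult : u < uT := by
    have h1 : u ^ 160 < uT ^ 160 := by
      rw [hu]
      refine hr2.trans_lt ?_
      rw [Real.sqrt_lt' (by positivity)]
      calc ρ * A ^ 3 < uT ^ 320 := hlt2
        _ = (uT ^ 160) ^ 2 := by ring
    exact lt_of_pow_lt_pow_left₀ 160 huT.le h1
  obtain ⟨aT, haT, hT'⟩ := hT u hu0 hult
  obtain ⟨N₁, hN₁, hsd'⟩ := hsd aT haT
  refine ⟨N₁, fun N hN ψ hψ hEψ d hd => ?_⟩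
  obtain ⟨hL, hLa, ⟨W, f, Q, w, hreg⟩, hall⟩ := hsd' N hN
  obtain ⟨hadm, hEn⟩ := hall ψ hψ
  have hE := hEn (ηT / (16 * Real.pi)) (by positivity) hEψ
  have hN1 : 1 ≤ N := hN₁.trans hN
  have hL3 := side_cube hρ hN1
  set YA : ℝ := Real.sqrt (ρ * A ^ 3) with hYAd
  set Y : ℝ := Real.sqrt (ρ * a ^ 3) with hYd
  set L : ℝ := side ρ N with hLdef
  have e8 : Jf 0 + ηT / 2 + 8 * Real.pi * (ηT / (16 * Real.pi)) = Jf 0 + ηT := by
    field_simp
    ring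
  rw [e8] at hE
  rw [← hu] at hE hreg
  -- the threshold
  have hAa : 1 ≤ A / a := by rwa [one_le_div ha]
  set d' : ℝ := d * Real.sqrt (A / a) with hd'
  have hd0 : 0 < d := hd₀.trans_le hd
  have hsq1 : 1 ≤ Real.sqrt (A / a) := Real.one_le_sqrt.2 hAa
  have hdd' : d ≤ d' := le_mul_of_one_le_right hd0.le hsq1
  have hfin := hT' N W f Q w _ _ _ _ _ hLa hreg hadm hE d' (hd.trans hdd')
  have hs : 0 < ρ * a := by positivity
  have e1 : ρ * a * d' ^ 2 = (d * Real.sqrt (ρ * A)) ^ 2 := by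
    rw [hd', mul_pow, mul_pow, Real.sq_sqrt (by positivity), Real.sq_sqrt (by positivity)]
    field_simp
  have e2 : ρ * a * (a / L / u ^ 160) ^ 2 = 1 / L ^ 2 := by
    rw [hu, div_pow, hY2]
    field_simp
  rw [F4_mom hL hs e1 e2 hψ.1.1]
  have hfin2 : |Dm (ind d' (a / L / u ^ 160)) (TT N L ψ) / N / Y - FF d'| ≤ ε / 2 := by
    rw [div_div, ← hu]
    exact hfin
  have hFd' : |FF d' - FF d| ≤ 2 * (2 * δ) := by
    have h1 := FF_anti hd0.le hdd'
    have h2 := F4_FF_close hd0 hdd'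
    have h3 : (d' - d) / d ≤ 2 * δ := by
      rw [div_le_iff₀ hd0, hd']
      have := mul_le_mul_of_nonneg_left hr3 hd0.le
      linarith
    rw [abs_sub_comm, abs_of_nonneg (by linarith)]
    linarith
  have hend := F4_end hY hYA hr1 hr2 hδ0.le (FF_nonneg (hd0.le.trans hdd'))
    (F4_FF_le_two (hd0.le.trans hdd')) hfin2 hFd'
  refine hend.trans (mul_le_mul_of_nonneg_right ?_ hYA.le)
  linarith

end Pool.Agent.Lib.MP_4952d6_mp.LK
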