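import Pool.Agent.Lib.MP_4952d6_mp.Pr.R25b
import Pool.Agent.Lib.MP_4952d6_mp.Pr.R28
import Pool.Agent.Lib.MP_4952d6_mp.Pd.D08

/-!
# Pr.R29b (leaf T3): linear upper bounds for all states, physical form

`near_transfer` (R28) gives `θ, cw`; `nm_up` (R25b) gives `M₁, c, uT`; transfer with `η = 1`, `δ = 1/10`, `ρ₁ = min 1 (uT ^ 320) / a ^ 3` (as in R29). `a'` = the length of the transfer, `Y = √(ρ a'³) = u ^ 160 ≤ √(ρ a³)`, `l = a' / L / u ^ 160`.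
So `Db (l²) (TT ψ) / (N Y) ≤ M₁ (1 + (1 + 8πx)) ≤ 26 M₁ (1 + x)`.
* thresholds: `O.F4_mom` with `d' = d √(a/a') ≥ d ≥ d₀` (as in `otd_of`, Po/N12): `momFraction = Dm (ind d' l) (TT ψ) / N`, `ind d' l p ≤ (1 - exp (-(l² ksq p))) / (1 - exp (-d₀²))` (`Dm_mono` of Pd/D05), so `≤ Db (l²) / (1 - exp (-d₀²)) / N`.
* `exF_eq`, `hly` as in `oed_of` (Pd/D06): `exF = Dw y' l (TT ψ) / N`, `y' = √(ρ a') • y`, `Dw_le_Db_all` with `b = 1`: `Dw y' l ≤ 2 max 1 (nr y' ^ 2 / 4) Db (1 * l²)`, `nr y' ^ 2 ≤ ρ a ∑ y²` (`nr_sq`, `nr_smul`).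
-/

set_option autoImplicit false
set_option linter.unusedSectionVars false
set_option linter.unusedVariables false
open MeasureTheory Function Filter Topology Set ComplexConjugate
open scoped ENNReal

namespace Pool.Agent.Lib.MP_4952d6_mp.LK

open LA O LB

open LG

/-- thresholds and the smooth cutoff -/
private lemma R29b_ind {N : ℕ} {φ : (Fin N → T3) → ℂ} (hφ : MemLp φ 2 (piN (Fin N))) {d₀ d' l : ℝ}
    (hd₀ : 0 < d₀) (hd : d₀ ≤ d') :
    Dm (ind d' l) φ ≤ (1 - Real.exp (-(d₀ ^ 2)))⁻¹ * Db (l ^ 2) φ := by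
  set κ : ℝ := 1 - Real.exp (-(d₀ ^ 2)) with hκ
  have hκ0 : 0 < κ := by
    have h0 := pow_pos hd₀ 2
    have h1 : Real.exp (-(d₀ ^ 2)) < Real.exp 0 := Real.exp_lt_exp.2 (by linarith)
    rw [Real.exp_zero] at h1
    linarith
  have hκ1 : κ ≤ 1 := by
    have := Real.exp_pos (-(d₀ ^ 2))
    linarith
  have hi1 : 1 ≤ κ⁻¹ := (one_le_inv₀ hκ0).2 hκ1
  have hb : ∀ p : Fin 3 → ℤ, 0 ≤ 1 - Real.exp (-(l ^ 2 * ksq p)) ∧ 1 - Real.exp (-(l ^ 2 * ksq p)) ≤ 1 := by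
    intro p
    have h1 : 0 ≤ ksq p := by
      have h2 := pm_nr 1 p
      rw [one_pow, one_mul] at h2
      rw [← h2]
      positivity
    have h2 : Real.exp (-(l ^ 2 * ksq p)) ≤ 1 := Real.exp_le_one_iff.2 (by
      have := mul_nonneg (sq_nonneg l) h1
      linarith)
    have h3 := Real.exp_pos (-(l ^ 2 * ksq p))
    exact ⟨by linarith, by linarith⟩
  unfold Db
  rw [← Dm_smul]
  refine Dm_mono (C := κ⁻¹) hφ (fun p => ?_) (fun p => ?_) (fun p => ?_)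
  · unfold ind
    split_ifs with h
    · rw [← div_eq_inv_mul, le_div_iff₀ hκ0, one_mul, hκ]
      have h1 : d₀ ^ 2 ≤ l ^ 2 * ksq p := (pow_le_pow_left₀ hd₀.le hd 2).trans h
      have h2 : Real.exp (-(l ^ 2 * ksq p)) ≤ Real.exp (-(d₀ ^ 2)) := Real.exp_le_exp.2 (by linarith)
      linarith
    · exact mul_nonneg (by positivity) (hb p).1
  · unfold ind
    split_ifs
    · rwa [abs_one]
    · rw [abs_zero]
      positivity
  · rw [abs_of_nonneg (mul_nonneg (by positivity) (hb p).1)]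
    exact mul_le_of_le_one_right (by positivity) (hb p).2

/-- Linear upper bounds for all states. -/
theorem nmd_up {m R₀ R : ℝ} {v : (Fin 3 → ℝ) → ℝ} (h : Phys m R₀ R v) {a : ℝ}
    (ha : a = scatLen m R₀ v) {d₀ : ℝ} (hd₀ : 0 < d₀) :
    ∃ M : ℝ, 0 < M ∧ Dilute fun ρ N => ∀ ψ : (Fin N → Fin 3 → ℝ) → ℂ,
      Admissible m R₀ v N (side ρ N) ψ → ∀ x : ℝ, 0 ≤ x →
      energy m v N (side ρ N) ψ ≤ ENNReal.ofReal (N * (2 * Real.pi / m * ρ * a
        * (1 + (Jf 0 / (4 * Real.pi) + x) * Real.sqrt (ρ * a ^ 3)))) →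
      (∀ d : ℝ, d₀ ≤ d →
        momFraction N (side ρ N) (d * Real.sqrt (ρ * a)) ψ ≤ M * (1 + x) * Real.sqrt (ρ * a ^ 3)) ∧
      ∀ y : Fin 3 → ℝ, exF N (side ρ N) y ψ
        ≤ M * (1 + x) * (1 + ρ * a * ∑ α, y α ^ 2) * Real.sqrt (ρ * a ^ 3) := by
  subst ha
  obtain ⟨hA0, θ, cw, hcw, htr⟩ := near_transfer h
  obtain ⟨M₁, c, uT, hM₁, hc, huT, hup⟩ := nm_up θ cw hcw
  set A : ℝ := scatLen m R₀ v with hA
  set κ : ℝ := 1 - Real.exp (-(d₀ ^ 2)) with hκ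
  have hκ0 : 0 < κ := by
    have h0 := pow_pos hd₀ 2
    have h1 : Real.exp (-(d₀ ^ 2)) < Real.exp 0 := Real.exp_lt_exp.2 (by linarith)
    rw [Real.exp_zero] at h1
    linarith
  have hM0 : 0 < 52 * M₁ + κ⁻¹ * (26 * M₁) := by positivity
  refine ⟨52 * M₁ + κ⁻¹ * (26 * M₁), hM0, min 1 (uT ^ 320) / A ^ 3, by positivity, fun ρ hρ hρ1 => ?_⟩
  rw [lt_div_iff₀ (by positivity)] at hρ1
  have hρA1 : ρ * A ^ 3 ≤ 1 := (hρ1.trans_le (min_le_left _ _)).le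
  have hρAu : ρ * A ^ 3 < uT ^ 320 := hρ1.trans_le (min_le_right _ _)
  obtain ⟨a, ha, haA, haA', hN⟩ := htr c 1 (1 / 10) ρ hc one_pos (by norm_num) le_rfl hρ hρA1
  obtain ⟨hr1, hr2, hr3⟩ := F4_ratio hρ ha haA (by norm_num) (by norm_num) haA'
  have hY := Y_pos hρ ha
  have hY2 := Y_sq hρ ha
  have hYA := Y_pos hρ hA0
  obtain ⟨u, hu0, hu⟩ := F4_root hY
  have hult : u < uT := by
    have h1 : u ^ 320 < uT ^ 320 := by
      calc u ^ 320 = (u ^ 160) ^ 2 := by ring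
        _ = ρ * a ^ 3 := by rw [hu, hY2]
        _ ≤ ρ * A ^ 3 := mul_le_mul_of_nonneg_left (pow_le_pow_left₀ ha.le haA 3) hρ.le
        _ < uT ^ 320 := hρAu
    exact lt_of_pow_lt_pow_left₀ 320 huT.le h1
  obtain ⟨a₀, ha₀, hup'⟩ := hup u hu0 hult
  obtain ⟨N₁, hN₁, hN'⟩ := hN a₀ ha₀
  refine ⟨N₁, fun N hNN ψ hψ x hx hen => ?_⟩
  obtain ⟨hL, haL, ⟨W, f, Q, w, hreg⟩, hψ'⟩ := hN' N hNN
  obtain ⟨hadm, henx⟩ := hψ' ψ hψ
  have hE := henx x hx hen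
  have hN0 : (0 : ℝ) < N := by exact_mod_cast (lt_of_lt_of_le hN₁ hNN)
  set L : ℝ := side ρ N with hLdef
  set Y : ℝ := Real.sqrt (ρ * a ^ 3) with hYd
  set YA : ℝ := Real.sqrt (ρ * A ^ 3) with hYAd
  rw [← hu] at hreg
  have hpi := Real.pi_pos
  have hDb := hup' N W f Q w (R₀ / L) (R / L) (a / L) (1 + 8 * Real.pi * x) (Vp m L v) (TT N L ψ) haL
    hreg hadm (by positivity) (by
      rw [hu, ← add_assoc]
      exact hE)
  set l : ℝ := a / L / u ^ 160 with hl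
  rw [hu, div_le_iff₀ (by positivity)] at hDb
  have hD : Db (l ^ 2) (TT N L ψ) ≤ 26 * M₁ * (1 + x) * Y * N := by
    refine hDb.trans ?_
    have h1 : M₁ * (1 + (1 + 8 * Real.pi * x)) ≤ 26 * M₁ * (1 + x) := by
      have h2 : 8 * Real.pi ≤ 26 := by
        have := Real.pi_lt_d2
        linarith
      have h3 := mul_le_mul_of_nonneg_right h2 hx
      have h4 : 1 + (1 + 8 * Real.pi * x) ≤ 26 * (1 + x) := by linarith
      have h5 := mul_le_mul_of_nonneg_left h4 hM₁.le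
      linarith
    have h2 := mul_le_mul_of_nonneg_right h1 (by positivity : (0 : ℝ) ≤ N * Y)
    linarith
  have hX : 0 ≤ M₁ * (1 + x) := by positivity
  refine ⟨fun d hd => ?_, fun y => ?_⟩
  · have hAa : 1 ≤ A / a := by rwa [one_le_div ha]
    have hd0 : 0 < d := hd₀.trans_le hd
    have hsq1 : 1 ≤ Real.sqrt (A / a) := Real.one_le_sqrt.2 hAa
    have hdd' : d ≤ d * Real.sqrt (A / a) := le_mul_of_one_le_right hd0.le hsq1
    have hs : 0 < ρ * a := by positivity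
    have e1 : ρ * a * (d * Real.sqrt (A / a)) ^ 2 = (d * Real.sqrt (ρ * A)) ^ 2 := by
      rw [mul_pow, mul_pow, Real.sq_sqrt (by positivity), Real.sq_sqrt (by positivity)]
      field_simp
    have e2 : ρ * a * l ^ 2 = 1 / L ^ 2 := by
      rw [hl, hu, div_pow, hY2]
      field_simp
    rw [F4_mom hL hs e1 e2 hψ.1.1, div_le_iff₀ hN0]
    have h1 := R29b_ind (l := l) hadm.1 hd₀ (hd.trans hdd')
    have h2 := mul_le_mul_of_nonneg_left hD (inv_nonneg.2 hκ0.le)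
    have h3 : κ⁻¹ * (26 * M₁ * (1 + x) * Y * N) ≤
        (52 * M₁ + κ⁻¹ * (26 * M₁)) * (1 + x) * YA * N := by
      have h4 : κ⁻¹ * (26 * M₁) ≤ 52 * M₁ + κ⁻¹ * (26 * M₁) := by linarith
      calc κ⁻¹ * (26 * M₁ * (1 + x) * Y * N) = κ⁻¹ * (26 * M₁) * (1 + x) * Y * N := by ring
        _ ≤ (52 * M₁ + κ⁻¹ * (26 * M₁)) * (1 + x) * YA * N := by gcongr
    exact h1.trans (h2.trans h3)
  · have hly : ∀ α, l * (Real.sqrt (ρ * a) • y) α = y α / L := by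
      intro α
      rw [Pi.smul_apply, smul_eq_mul, hl, hu, hYd]
      have e4 : Real.sqrt (ρ * a ^ 3) = a * Real.sqrt (ρ * a) := by
        rw [show ρ * a ^ 3 = a ^ 2 * (ρ * a) by ring, Real.sqrt_mul (by positivity),
          Real.sqrt_sq ha.le]
      have hsa : 0 < Real.sqrt (ρ * a) := Real.sqrt_pos.2 (by positivity)
      rw [e4]
      field_simp
    rw [exF_eq hL hψ.1.1 hly, div_le_iff₀ hN0]
    have h1 := Dw_le_Db_all hadm.1 (Real.sqrt (ρ * a) • y) one_pos l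
    rw [one_mul, mul_one] at h1
    have hS : 0 ≤ ∑ α, y α ^ 2 := Finset.sum_nonneg fun α _ => sq_nonneg _
    have h2 : nr (Real.sqrt (ρ * a) • y) ^ 2 = ρ * a * ∑ α, y α ^ 2 := by
      rw [nr_smul (Real.sqrt_nonneg _), mul_pow, Real.sq_sqrt (by positivity)]
      unfold nr
      rw [Real.sq_sqrt hS]
    have h3 : 2 * max 1 (nr (Real.sqrt (ρ * a) • y) ^ 2 / 4) ≤ 2 * (1 + ρ * A * ∑ α, y α ^ 2) := by
      have h4 : ρ * a * ∑ α, y α ^ 2 ≤ ρ * A * ∑ α, y α ^ 2 :=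
        mul_le_mul_of_nonneg_right (mul_le_mul_of_nonneg_left haA hρ.le) hS
      have h5 : 0 ≤ ρ * a * ∑ α, y α ^ 2 := by positivity
      rw [h2]
      refine mul_le_mul_of_nonneg_left (max_le (by linarith) (by linarith)) (by norm_num)
    have hD0 : 0 ≤ Db (l ^ 2) (TT N L ψ) := by
      have h6 := R29b_ind (l := l) hadm.1 hd₀ le_rfl
      have h7 : 0 ≤ Dm (ind d₀ l) (TT N L ψ) := by
        unfold Dm ind
        refine Finset.sum_nonneg fun j _ => tsum_nonneg fun k => ?_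
        split_ifs <;> positivity
      have h8 := h7.trans h6
      exact (mul_nonneg_iff_of_pos_left (inv_pos.2 hκ0)).1 h8
    have hP : 0 ≤ 1 + ρ * A * ∑ α, y α ^ 2 := by positivity
    calc Dw (Real.sqrt (ρ * a) • y) l (TT N L ψ)
        ≤ 2 * max 1 (nr (Real.sqrt (ρ * a) • y) ^ 2 / 4) * Db (l ^ 2) (TT N L ψ) := h1
      _ ≤ 2 * (1 + ρ * A * ∑ α, y α ^ 2) * Db (l ^ 2) (TT N L ψ) :=
          mul_le_mul_of_nonneg_right h3 hD0
      _ ≤ 2 * (1 + ρ * A * ∑ α, y α ^ 2) * (26 * M₁ * (1 + x) * Y * N) :=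
          mul_le_mul_of_nonneg_left hD (by positivity)
      _ = 52 * M₁ * (1 + x) * (1 + ρ * A * ∑ α, y α ^ 2) * Y * N := by ring
      _ ≤ (52 * M₁ + κ⁻¹ * (26 * M₁)) * (1 + x) * (1 + ρ * A * ∑ α, y α ^ 2) * YA * N := by
          have h4 : 52 * M₁ ≤ 52 * M₁ + κ⁻¹ * (26 * M₁) := by
            have : 0 ≤ κ⁻¹ * (26 * M₁) := by positivity
            linarith
          gcongr

end Pool.Agent.Lib.MP_4952d6_mp.LK
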