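import Pool.Agent.Lib.MP_4952d6_mp.Pr.R27b
import Pool.Agent.Lib.MP_4952d6_mp.Pr.R28
import Pool.Agent.Lib.MP_4952d6_mp.Pd.D08

/-!
# Pr.R30 (leaf T4): the density matrix of all states of low energy, physical form, two parts

Copy of `oed_of` (Pd/D06 l.80-293) with `near_transfer` (R28) and `nm_comb` (R27b) for `Gc_comb`, as in R29 (constants: `η = ηT/(16π)`, transfer with `ηT/2`, `ρ₁ = min 1 (uT ^ 320) / a ^ 3`); the end (displacement) is literally the one of `oed_of`.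
-/

set_option autoImplicit false
set_option linter.unusedSectionVars false
set_option linter.unusedVariables false
open MeasureTheory Function Filter Topology Set ComplexConjugate
open scoped ENNReal

namespace Pool.Agent.Lib.MP_4952d6_mp.LK

open LA O LB

open LG

theorem ned_parts {m R₀ R : ℝ} {v : (Fin 3 → ℝ) → ℝ} (h : Phys m R₀ R v) {a : ℝ}
    (ha : a = scatLen m R₀ v) {D ε b : ℝ} (hD : 0 < D) (hε : 0 < ε) (hb : 0 < b) :
    ∃ η : ℝ, 0 < η ∧ Dilute fun ρ N => ∀ ψ : (Fin N → Fin 3 → ℝ) → ℂ,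
      Admissible m R₀ v N (side ρ N) ψ →
      energy m v N (side ρ N) ψ ≤ ENNReal.ofReal (N * (2 * Real.pi / m * ρ * a
        * (1 + (Jf 0 / (4 * Real.pi) + η) * Real.sqrt (ρ * a ^ 3)))) →
      (∀ y : Fin 3 → ℝ, nr y * Real.sqrt (ρ * a) ≤ D →
        |exF N (side ρ N) y ψ - G3 (Real.sqrt (ρ * a) • y) * Real.sqrt (ρ * a ^ 3)|
          ≤ ε * Real.sqrt (ρ * a ^ 3)) ∧
      ∀ y : Fin 3 → ℝ, exF N (side ρ N) y ψ
        ≤ 2 * max 1 (ρ * a * nr y ^ 2 / (4 * b))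
          * (8 / (3 * Real.sqrt Real.pi) + ε) * Real.sqrt (ρ * a ^ 3) := by
  obtain ⟨hA0, θ, cw, hcw, htr⟩ := near_transfer h
  subst ha
  set A : ℝ := scatLen m R₀ v with hA
  have hpi := Real.pi_pos
  obtain ⟨ηT, c, uT, hηT, hc, huT, hT'⟩ := nm_comb θ cw hcw (ε := ε / 4) (by positivity) hb (nr_compact D)
  obtain ⟨δc, hδc, hcont⟩ := Metric.uniformContinuousOn_iff.1
    ((nr_compact D).uniformContinuousOn_of_continuous G3_continuous.continuousOn) (ε / 8)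
    (by positivity)
  set δ : ℝ := min (min (1 / 10) (ε / 20)) (δc / (2 * (D + 1))) with hδ
  have hδ0 : 0 < δ := lt_min (lt_min (by norm_num) (by positivity)) (by positivity)
  have hδ1 : δ ≤ 1 / 10 := (min_le_left _ _).trans (min_le_left _ _)
  have hδ2 : δ ≤ ε / 20 := (min_le_left _ _).trans (min_le_right _ _)
  have hδ3 : δ * D < δc := by
    have h1 : δ ≤ δc / (2 * (D + 1)) := min_le_right _ _
    rw [le_div_iff₀ (by positivity)] at h1
    nlinarith
  have hmin0 : 0 < min 1 (uT ^ 320) := lt_min one_pos (by positivity)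
  refine ⟨ηT / (16 * Real.pi), by positivity, min 1 (uT ^ 320) / A ^ 3, by positivity, fun ρ hρ hρ1 => ?_⟩
  have hρA : ρ * A ^ 3 < min 1 (uT ^ 320) := by
    rwa [lt_div_iff₀ (by positivity)] at hρ1
  have hYA := Y_pos hρ hA0
  have hYA2 := Y_sq hρ hA0
  set YA : ℝ := Real.sqrt (ρ * A ^ 3) with hYAd
  obtain ⟨a, ha, haA, haA', hN⟩ := htr c (ηT / 2) δ ρ hc (by positivity) hδ0 hδ1 hρ
    (hρA.le.trans (min_le_left _ _))
  obtain ⟨hr1, hr2, hr3⟩ := F4_ratio hρ ha haA hδ0.le (by linarith) haA'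
  have hY := Y_pos hρ ha
  have hY2 := Y_sq hρ ha
  obtain ⟨u, hu0, hu⟩ := F4_root hY
  set Y : ℝ := Real.sqrt (ρ * a ^ 3) with hYd
  have huuT : u < uT := by
    have h1 : u ^ 320 < uT ^ 320 := by
      have e1 : u ^ 320 = ρ * a ^ 3 := by
        rw [← hY2, ← hu, ← pow_mul]
      rw [e1]
      have h2 : ρ * a ^ 3 ≤ ρ * A ^ 3 :=
        mul_le_mul_of_nonneg_left (pow_le_pow_left₀ ha.le haA 3) hρ.le
      exact h2.trans_lt (hρA.trans_le (min_le_right _ _))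
    exact lt_of_pow_lt_pow_left₀ 320 huT.le h1
  obtain ⟨aT, haT, hT''⟩ := hT' u hu0 huuT
  obtain ⟨N₁, hN1, hN'⟩ := hN aT haT
  refine ⟨N₁, fun N hNN ψ hψ hE => ?_⟩
  obtain ⟨hL, hLa, ⟨W, f, Q, w, hreg⟩, hψ'⟩ := hN' N hNN
  obtain ⟨hadm, hen⟩ := hψ' ψ hψ
  have hE' := hen (ηT / (16 * Real.pi)) (by positivity) hE
  set L : ℝ := side ρ N with hLdef
  have eJ : Jf 0 + ηT / 2 + 8 * Real.pi * (ηT / (16 * Real.pi)) = Jf 0 + ηT := by
    field_simp
    ring
  rw [eJ, ← hu] at hE'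
  rw [← hu] at hreg
  -- the displacement
  obtain ⟨hfinA, hfinB⟩ := hT'' N _ _ _ _ _ _ _ _ _ hLa hreg hadm hE'
  have hAa : 1 ≤ A / a := by rwa [one_le_div ha]
  have hly : ∀ y : Fin 3 → ℝ, ∀ α, a / L / u ^ 160 * (Real.sqrt (ρ * a) • y) α = y α / L := by
    intro y α
    rw [Pi.smul_apply, smul_eq_mul, hu, hYd]
    have e4 : Real.sqrt (ρ * a ^ 3) = a * Real.sqrt (ρ * a) := by
      rw [show ρ * a ^ 3 = a ^ 2 * (ρ * a) by ring, Real.sqrt_mul (by positivity),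
        Real.sqrt_sq ha.le]
    have hsa : 0 < Real.sqrt (ρ * a) := Real.sqrt_pos.2 (by positivity)
    rw [e4]
    field_simp
  refine ⟨fun y hy => ?_, fun y => ?_⟩
  swap
  · have hsa : 0 < Real.sqrt (ρ * a) := Real.sqrt_pos.2 (by positivity)
    have h1 := hfinB (Real.sqrt (ρ * a) • y)
    rw [exF_eq hL hψ.1.1 (hly y)]
    rw [nr_smul hsa.le, mul_pow, Real.sq_sqrt (by positivity : 0 ≤ ρ * a), ← div_div,
      div_le_iff₀ (by positivity : 0 < u ^ 160)] at h1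
    refine h1.trans ?_
    rw [hu]
    have h2 : ρ * a * nr y ^ 2 / (4 * b) ≤ ρ * A * nr y ^ 2 / (4 * b) :=
      div_le_div_of_nonneg_right (mul_le_mul_of_nonneg_right
        (mul_le_mul_of_nonneg_left haA hρ.le) (sq_nonneg _)) (by positivity)
    have h3 : max 1 (ρ * a * nr y ^ 2 / (4 * b)) ≤ max 1 (ρ * A * nr y ^ 2 / (4 * b)) :=
      max_le_max le_rfl h2
    have hpi := Real.pi_pos
    have h4 : 0 ≤ 8 / (3 * Real.sqrt Real.pi) := by positivity
    have h5 : (1:ℝ) ≤ max 1 (ρ * A * nr y ^ 2 / (4 * b)) := le_max_left _ _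
    refine mul_le_mul ?_ hr2 hY.le (by positivity)
    refine mul_le_mul (by linarith) (by linarith) (by positivity) (by linarith)
  set η : Fin 3 → ℝ := Real.sqrt (ρ * A) • y with hη
  set y' : Fin 3 → ℝ := Real.sqrt (ρ * a) • y with hy'
  have hsa : 0 < Real.sqrt (ρ * a) := Real.sqrt_pos.2 (by positivity)
  have hsA : 0 < Real.sqrt (ρ * A) := Real.sqrt_pos.2 (by positivity)
  have hsaA : Real.sqrt (ρ * a) ≤ Real.sqrt (ρ * A) :=
    Real.sqrt_le_sqrt (mul_le_mul_of_nonneg_left haA hρ.le)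
  have hnη : nr η ≤ D := by
    rw [hη, nr_smul hsA.le, mul_comm]
    exact hy
  have hny : nr y' ≤ D := by
    rw [hy', nr_smul hsa.le]
    refine le_trans ?_ hnη
    rw [hη, nr_smul hsA.le]
    exact mul_le_mul_of_nonneg_right hsaA (nr_nonneg y)
  have hratio : (1 - δ) * Real.sqrt (ρ * A) ≤ Real.sqrt (ρ * a) := by
    refine Real.le_sqrt_of_sq_le ?_
    rw [mul_pow, Real.sq_sqrt (by positivity)]
    have h1 : (1 - δ) ^ 2 ≤ 1 - δ := by nlinarith
    calc (1 - δ) ^ 2 * (ρ * A) ≤ (1 - δ) * (ρ * A) :=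
          mul_le_mul_of_nonneg_right h1 (by positivity)
      _ = ρ * ((1 - δ) * A) := by ring
      _ ≤ ρ * a := mul_le_mul_of_nonneg_left haA' hρ.le
  have hdist : dist y' η < δc := by
    refine lt_of_le_of_lt ?_ hδ3
    rw [dist_comm, dist_eq_norm]
    have e : η - y' = (Real.sqrt (ρ * A) - Real.sqrt (ρ * a)) • y := by
      rw [hη, hy', sub_smul]
    rw [e, norm_smul, Real.norm_eq_abs, abs_of_nonneg (by linarith)]
    have h1 : ‖y‖ ≤ nr y := norm_le_nr y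
    have h2 : Real.sqrt (ρ * A) - Real.sqrt (ρ * a) ≤ δ * Real.sqrt (ρ * A) := by linarith
    calc (Real.sqrt (ρ * A) - Real.sqrt (ρ * a)) * ‖y‖ ≤ (δ * Real.sqrt (ρ * A)) * nr y :=
          mul_le_mul h2 h1 (norm_nonneg _) (by positivity)
      _ = δ * (nr y * Real.sqrt (ρ * A)) := by ring
      _ ≤ δ * D := mul_le_mul_of_nonneg_left hy hδ0.le
  have hfin := hfinA y' hny
  have hcos := hcont y' hny η hnη hdist
  rw [Real.dist_eq] at hcos
  rw [exF_eq hL hψ.1.1 (hly y)]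
  have hfin2 : |Dw y' (a / L / u ^ 160) (TT N L ψ) / N / Y - G3 y'| ≤ ε / 4 := by
    rw [div_div, ← hu]
    exact hfin
  have hend := F4_end hY hYA hr1 hr2 hδ0.le (G3_nonneg y') (G3_le_two y') hfin2
    (Cs := ε / 8 / (2 * δ)) (s := G3 η) (by
      have e5 : ε / 8 / (2 * δ) * (2 * δ) = ε / 8 := by field_simp
      rw [e5]
      exact hcos.le)
  refine hend.trans (mul_le_mul_of_nonneg_right ?_ hYA.le)
  have e6 : 2 * (ε / 8 / (2 * δ)) * δ = ε / 8 := by field_simp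
  rw [e6]
  linarith

end Pool.Agent.Lib.MP_4952d6_mp.LK
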