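import Pool.Agent.Lib.MP_4952d6_mp.Pr.R30

/-!
# Pr.R30b (leaf T5): the density matrix of all states of low energy, physical form

Copy of the last part of `oed_final` (Pd/D08 l.150-234) with `ned_parts` (R30) for `hO'`; `1 ≤ N`, `0 < side ρ N` from `Dilute.small` (Pq/P19) and `side_pos`.
-/

set_option autoImplicit false
set_option linter.unusedSectionVars false
set_option linter.unusedVariables false
open MeasureTheory Function Filter Topology Set ComplexConjugate
open scoped ENNReal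

namespace Pool.Agent.Lib.MP_4952d6_mp.LK

open LA O LB

open LG

/-- **The one particle density matrix of all states of low energy.** -/
theorem ned_near {m R₀ R : ℝ} {v : (Fin 3 → ℝ) → ℝ} (h : Phys m R₀ R v) {a : ℝ}
    (ha : a = scatLen m R₀ v) {ε : ℝ} (hε : 0 < ε) :
    ∃ η : ℝ, 0 < η ∧ Dilute fun ρ N => ∀ ψ : (Fin N → Fin 3 → ℝ) → ℂ,
      Admissible m R₀ v N (side ρ N) ψ →
      energy m v N (side ρ N) ψ ≤ ENNReal.ofReal (N * (2 * Real.pi / m * ρ * a
        * (1 + (Jf 0 / (4 * Real.pi) + η) * Real.sqrt (ρ * a ^ 3)))) →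
      ∀ y : Fin 3 → ℝ,
        |densityMatrix N (side ρ N) ψ y
          - (1 - 2 * G3 (Real.sqrt (ρ * a) • y) * Real.sqrt (ρ * a ^ 3))|
          ≤ ε * (1 + ρ * a * ∑ α, y α ^ 2) * Real.sqrt (ρ * a ^ 3) := by
  have hpi := Real.pi_pos
  obtain ⟨hA0, -⟩ := F4_trunc h.hm h.hR0 h.hR h.hv h.hv0 h.hrad h.hsupp h.hgen
  rw [← ha] at hA0
  have hkap : 8 / (3 * Real.sqrt Real.pi) ≤ 161 / 100 := by
    have h0 : (5 / 3 : ℝ) ≤ Real.sqrt Real.pi := by
      refine Real.le_sqrt_of_sq_le ?_
      have := Real.pi_gt_d2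
      linarith
    rw [div_le_iff₀ (by positivity)]
    linarith
  set e' : ℝ := min (ε / 4) (1 / 4) with he'
  have he0 : 0 < e' := lt_min (by positivity) (by norm_num)
  have he1 : e' ≤ ε / 4 := min_le_left _ _
  have he2 : e' ≤ 1 / 4 := min_le_right _ _
  set D : ℝ := 16 / ε + 1 with hD
  have hD1 : 1 ≤ D := by
    have : 0 < 16 / ε := by positivity
    linarith
  have hDε : 16 ≤ ε * D := by
    have : ε * D = 16 + ε := by rw [hD]; field_simp
    linarith
  obtain ⟨η, hη, hdil⟩ := ned_parts h ha (D := D) (ε := e') (b := 4 / ε) (by linarith) he0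
    (by positivity)
  refine ⟨η, hη, (hdil.and (Dilute.small one_pos 1)).mono fun ρ N hρ hP ψ hψ hen y => ?_⟩
  obtain ⟨hP1, -, hN1⟩ := hP
  have hL : 0 < side ρ N := side_pos hρ hN1
  obtain ⟨h1', h1B⟩ := hP1 ψ hψ hen
  rw [densityMatrix_eq hN1 hL y hψ.1 hψ.2.1]
  have hB := h1B y
  rw [← nr_sq]
  set Y : ℝ := Real.sqrt (ρ * a ^ 3) with hY
  have hY0 : 0 ≤ Y := Real.sqrt_nonneg _
  set E := exF N (side ρ N) y ψ with hE
  have hs2 : Real.sqrt (ρ * a) ^ 2 = ρ * a :=
    Real.sq_sqrt (by positivity)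
  set s := Real.sqrt (ρ * a) with hs
  have hs0 : 0 ≤ s := Real.sqrt_nonneg _
  set g := G3 (s • y) with hg
  have hg0 : 0 ≤ g := G3_nonneg _
  have hg2 : g ≤ 2 := G3_le_two _
  have e : 1 - 2 * E - (1 - 2 * g * Y) = -(2 * (E - g * Y)) := by ring
  rw [e, abs_neg, abs_mul, abs_of_pos (by norm_num : (0:ℝ) < 2)]
  set X : ℝ := ρ * a * nr y ^ 2 with hX
  have hX0 : 0 ≤ X := by
    have := nr_nonneg y
    positivity
  rcases le_total (nr y * s) D with hy | hy
  · have h1 := h1' y hy
    have h2 : e' * Y ≤ ε / 4 * Y := mul_le_mul_of_nonneg_right he1 hY0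
    have h3 : 0 ≤ ε * X * Y := by positivity
    have h4 : 0 ≤ ε * Y := by positivity
    linarith
  · have hXD : D ^ 2 ≤ X := by
      have h1 : (nr y * s) ^ 2 = X := by
        rw [mul_pow, hs2, hX]
        ring
      rw [← h1]
      exact pow_le_pow_left₀ (by linarith) hy 2
    have hXε : 16 ≤ ε * X := by
      have h1 : D ≤ D ^ 2 := by nlinarith
      have h2 : ε * D ≤ ε * X := mul_le_mul_of_nonneg_left (h1.trans hXD) hε.le
      linarith
    have h7 : X / (4 * (4 / ε)) = ε * X / 16 := by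
      have h7a : (4 * (4 / ε)) = 16 / ε := by ring
      rw [h7a, div_div_eq_mul_div, mul_comm]
    have h8 : 2 * max 1 (X / (4 * (4 / ε))) * (8 / (3 * Real.sqrt Real.pi) + e')
        ≤ 2 * (ε * X / 16) * 2 := by
      rw [h7, max_eq_right (by linarith)]
      have h9 : 0 ≤ 8 / (3 * Real.sqrt Real.pi) := by positivity
      have h10 : 0 ≤ ε * X := by positivity
      refine mul_le_mul le_rfl (by linarith) (by linarith) (by linarith)
    have h9 := mul_le_mul_of_nonneg_right h8 hY0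
    have h10 := hB.trans h9
    have hE0 : 0 ≤ E := by
      rw [hE]
      unfold exF
      refine mul_nonneg (by positivity) (Finset.sum_nonneg fun i _ => tsum_nonneg fun k =>
        mul_nonneg ?_ (sq_nonneg _))
      have := Real.cos_le_one ((2 * Real.pi / side ρ N) * ∑ α, (k i α : ℝ) * y α)
      linarith
    have h11 : g * Y ≤ 2 * Y := mul_le_mul_of_nonneg_right hg2 hY0
    have h12 : 0 ≤ g * Y := mul_nonneg hg0 hY0
    have h13 : 16 * Y ≤ ε * X * Y := mul_le_mul_of_nonneg_right hXε hY0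
    have h14 : 0 ≤ ε * Y := by positivity
    have h15 : |E - g * Y| ≤ ε * X / 4 * Y := by
      rw [abs_le]
      constructor
      · linarith
      · linarith
    linarith

end Pool.Agent.Lib.MP_4952d6_mp.LK
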