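import Pool.Agent.Lib.MP_4952d6_mp.Pq.P20

/-!
# Pr.R31 (leaf T6): the ground state energy as a reference

All from `gap_full` (Pq/P20; `Phys` gives its hypotheses, `R' = R`), second clause with `s = 0`: `gapEnergy m (0 * _) v N L ψ = energy m v N L ψ` (`zero_mul`, `ofReal_zero`), so `IsGapGround` with gap `0 * _` means: `ψ` is admissible and minimises the energy `E₀`, and
`|E₀/N - 2πρa/m (1 + f Z)| ≤ ε' 2πρa/m Z` (`f = Jf 0/(4π)`, `Z = √(ρ a³)`), `E₀ ≠ ⊤`.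
* lower bound for every admissible `ψ`: `E₀ ≤ energy ψ` and `E₀ ≥ N 2πρa/m (1 + (f - ε) Z)` (`ENNReal.ofReal_le_iff..`, `ENNReal.ofReal_toReal`).
* `IsNear`: `energy ψ ≤ E₀ + ofReal (x N (ρa/m) Z) ≤ ofReal (N 2πρa/m (1 + (f+ε) Z)) + ofReal (N 2πρa/m x Z)` (`1 ≤ 2π`, `ENNReal.ofReal_add`).
`1 ≤ N`: `Dilute.small` (Pq/P19), `Dilute.and`; `side_pos`.
-/

set_option autoImplicit false
set_option linter.unusedSectionVars false
set_option linter.unusedVariables false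
open MeasureTheory Function Filter Topology Set ComplexConjugate
open scoped ENNReal

namespace Pool.Agent.Lib.MP_4952d6_mp.LK

open LA LG

/-- Energies relative to the ground state energy. -/
theorem near_abs {m R₀ R : ℝ} {v : (Fin 3 → ℝ) → ℝ} (h : Phys m R₀ R v) {a : ℝ}
    (ha : a = scatLen m R₀ v) {ε : ℝ} (hε : 0 < ε) :
    Dilute fun ρ N => 1 ≤ N ∧ 0 < side ρ N ∧
      (∃ ψ, IsNear m R₀ 0 v N (side ρ N) ψ) ∧
      (∀ ψ, Admissible m R₀ v N (side ρ N) ψ →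
        ENNReal.ofReal (N * (2 * Real.pi / m * ρ * a
          * (1 + (Jf 0 / (4 * Real.pi) - ε) * Real.sqrt (ρ * a ^ 3)))) ≤ energy m v N (side ρ N) ψ) ∧
      ∀ x : ℝ, 0 ≤ x → ∀ ψ,
        IsNear m R₀ (x * (N * (ρ * a / m) * Real.sqrt (ρ * a ^ 3))) v N (side ρ N) ψ →
        energy m v N (side ρ N) ψ ≤ ENNReal.ofReal (N * (2 * Real.pi / m * ρ * a
          * (1 + (Jf 0 / (4 * Real.pi) + (ε + x)) * Real.sqrt (ρ * a ^ 3)))) := by
  obtain ⟨ha0, hE, -⟩ := gap_full h.hm h.hR0 h.hv h.hv0 h.hrad h.hsupp h.hgen ha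
  refine ((hE ε hε).and (Dilute.small one_pos 1)).mono ?_
  rintro ρ N hρ ⟨hg, -, hN1⟩
  have hL : 0 < side ρ N := side_pos hρ hN1
  obtain ⟨⟨ψ₀, hψ₀⟩, hall⟩ := hg 0 le_rfl (by norm_num)
  obtain ⟨hne, habs⟩ := hall ψ₀ hψ₀
  have hgap : ∀ ψ, gapEnergy m (0 * (ρ * a / (2 * m))) v N (side ρ N) ψ =
      energy m v N (side ρ N) ψ := by
    intro ψ
    rw [gapEnergy, zero_mul, zero_mul, ENNReal.ofReal_zero, add_zero]
  rw [hgap] at hne habs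
  have hmin : ∀ φ, Admissible m R₀ v N (side ρ N) φ →
      energy m v N (side ρ N) ψ₀ ≤ energy m v N (side ρ N) φ := by
    intro φ hφ
    have h1 := hψ₀.2 φ hφ
    rwa [hgap, hgap] at h1
  obtain ⟨E₀, hE₀⟩ : ∃ E₀ : ℝ, E₀ = (energy m v N (side ρ N) ψ₀).toReal := ⟨_, rfl⟩
  have hE₀' : energy m v N (side ρ N) ψ₀ = ENNReal.ofReal E₀ := by
    rw [hE₀, ENNReal.ofReal_toReal hne]
  have hE₀0 : 0 ≤ E₀ := by
    rw [hE₀]
    exact ENNReal.toReal_nonneg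
  rw [← hE₀] at habs
  have hm : 0 < m := h.hm
  have hN : (0 : ℝ) < N := by exact_mod_cast hN1
  obtain ⟨Z, hZ⟩ : ∃ Z : ℝ, Z = Real.sqrt (ρ * a ^ 3) := ⟨_, rfl⟩
  have hZ0 : 0 ≤ Z := hZ ▸ Real.sqrt_nonneg _
  obtain ⟨f, hf⟩ : ∃ f : ℝ, f = Jf 0 / (4 * Real.pi) := ⟨_, rfl⟩
  obtain ⟨q, hq⟩ : ∃ q : ℝ, q = 2 * Real.pi * ρ * a / m := ⟨_, rfl⟩
  have hq' : 2 * Real.pi / m * ρ * a = q := by
    rw [hq]
    ring
  have hq0 : 0 < q := by
    rw [hq]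
    positivity
  rw [← hZ, ← hf, ← hq] at habs
  rw [← hZ, ← hf, hq']
  obtain ⟨h1, h2⟩ := abs_le.1 habs
  have hdiv : E₀ / N * N = E₀ := div_mul_cancel₀ E₀ hN.ne'
  have hlow : N * (q * (1 + (f - ε) * Z)) ≤ E₀ := by
    have h3 : q * (1 + (f - ε) * Z) ≤ E₀ / N := by linarith
    calc (N : ℝ) * (q * (1 + (f - ε) * Z)) ≤ N * (E₀ / N) := mul_le_mul_of_nonneg_left h3 hN.le
      _ = E₀ := by rw [mul_comm, hdiv]
  have hup : E₀ ≤ N * (q * (1 + (f + ε) * Z)) := by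
    have h3 : E₀ / N ≤ q * (1 + (f + ε) * Z) := by linarith
    calc E₀ = N * (E₀ / N) := by rw [mul_comm, hdiv]
      _ ≤ N * (q * (1 + (f + ε) * Z)) := mul_le_mul_of_nonneg_left h3 hN.le
  refine ⟨hN1, hL, ⟨ψ₀, hψ₀.1, fun φ hφ => ?_⟩, fun ψ hψ => ?_, fun x hx ψ hψ => ?_⟩
  · rw [ENNReal.ofReal_zero, add_zero]
    exact hmin φ hφ
  · refine le_trans ?_ (hmin ψ hψ)
    rw [hE₀']
    exact ENNReal.ofReal_le_ofReal hlow
  · have hy0 : 0 ≤ x * (N * (ρ * a / m) * Z) := by positivity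
    refine (hψ.2 ψ₀ hψ₀.1).trans ?_
    rw [hE₀', ← ENNReal.ofReal_add hE₀0 hy0]
    apply ENNReal.ofReal_le_ofReal
    have h4 : ρ * a / m ≤ q := by
      rw [← hq']
      have h5 : 2 * Real.pi / m * ρ * a = (2 * Real.pi) * (ρ * a / m) := by ring
      rw [h5]
      have h6 : 0 ≤ ρ * a / m := by positivity
      have h7 : (1 : ℝ) ≤ 2 * Real.pi := by linarith [Real.pi_gt_three]
      exact le_mul_of_one_le_left h6 h7
    have h8 : x * (N * (ρ * a / m) * Z) ≤ x * (N * q * Z) := by gcongr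
    have h9 : N * (q * (1 + (f + (ε + x)) * Z)) = N * (q * (1 + (f + ε) * Z)) + x * (N * q * Z) := by
      ring
    rw [h9]
    exact add_le_add hup h8

end Pool.Agent.Lib.MP_4952d6_mp.LK
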