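import Pool.Agent.Lib.MP_4952d6_mp.Pr.R29
import Pool.Agent.Lib.MP_4952d6_mp.Pr.R29b
import Pool.Agent.Lib.MP_4952d6_mp.Pr.R31

/-!
# Pr.R32 (leaf T7): the momentum distribution of all states, with an error which is linear in the excess energy

`Z = √(ρ a³) > 0`, `E(ψ) ≤ N (2π/m) ρ a (1 + (f + ε₁ + x) Z)` by `near_abs` (R31) with `ε₁ = min 1 (η/2)`, where `η` is the minimum of the one of `nmd_thr` (R29) for `d₀, ε` and the one of the fifth clause of `gap_full` (Pq/P20; `s = 0`, `Dg 0 = 8/(3√π)`: `Dg_zero`;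
`Jf 0 - 0 * Dg 0 = Jf 0`) for `ε`; `M₁` from `nmd_up` (R29b) for `d₀`.
If `x ≤ η/2`: `E(ψ) ≤ N (2π/m) ρ a (1 + (f + η) Z)`, both statements follow with error `ε`. If `x > η/2`: `1 ≤ 2x/η`; `0 ≤ momFraction ≤ M₁ (1 + ε₁ + x) Z ≤ M₁ (2 + x) Z`, `0 ≤ FF d ≤ 2` (`FF_nonneg`, `F4_FF_le_two`), so the difference is at most
`(M₁ (2 + x) + 2) Z ≤ (M₁ (4/η + 1) + 4/η) x Z`; the last statement: `1 - condFraction ≥ 0` (`condFraction_eq`, Pk/G29, `nuQ_nonneg`) and `8/(3√π) ≤ 2 ≤ (4/η) x`. `M = M₁ (4/η + 1) + 4/η`.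
-/

set_option autoImplicit false
set_option linter.unusedSectionVars false
set_option linter.unusedVariables false
open MeasureTheory Function Filter Topology Set ComplexConjugate
open scoped ENNReal

namespace Pool.Agent.Lib.MP_4952d6_mp.LK

open LA O LB

open LG

/-- **Momentum distribution above an infrared cutoff, all states**; the error is linear in the excess energy. -/
theorem thr_full {m R₀ R : ℝ} {v : (Fin 3 → ℝ) → ℝ} (h : Phys m R₀ R v) {a : ℝ}
    (ha : a = scatLen m R₀ v) {d₀ ε : ℝ} (hd₀ : 0 < d₀) (hε : 0 < ε) :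
    ∃ M : ℝ, 0 < M ∧ Dilute fun ρ N => ∀ x : ℝ, 0 ≤ x → ∀ ψ,
      IsNear m R₀ (x * (N * (ρ * a / m) * Real.sqrt (ρ * a ^ 3))) v N (side ρ N) ψ →
      (∀ d : ℝ, d₀ ≤ d →
        |momFraction N (side ρ N) (d * Real.sqrt (ρ * a)) ψ - FF d * Real.sqrt (ρ * a ^ 3)|
          ≤ (ε + M * x) * Real.sqrt (ρ * a ^ 3)) ∧
      (8 / (3 * Real.sqrt Real.pi) - (ε + M * x)) * Real.sqrt (ρ * a ^ 3)
        ≤ 1 - condFraction N (side ρ N) ψ := by
  obtain ⟨ha0, -, -, -, h5, -⟩ := gap_full h.hm h.hR0 h.hv h.hv0 h.hrad h.hsupp h.hgen ha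
  obtain ⟨η₂, hη₂, hD2⟩ := h5 0 ε le_rfl (by norm_num) hε
  obtain ⟨η₁, hη₁, hD1⟩ := nmd_thr h ha hd₀ hε
  obtain ⟨M₁, hM₁, hD3⟩ := nmd_up h ha hd₀
  obtain ⟨η, hη⟩ : ∃ η : ℝ, η = min η₁ η₂ := ⟨_, rfl⟩
  have hη0 : 0 < η := by rw [hη]; exact lt_min hη₁ hη₂
  have hηa : η ≤ η₁ := by rw [hη]; exact min_le_left _ _
  have hηb : η ≤ η₂ := by rw [hη]; exact min_le_right _ _
  obtain ⟨ε₁, hε₁⟩ : ∃ ε₁ : ℝ, ε₁ = min 1 (η / 2) := ⟨_, rfl⟩
  have hε₁0 : 0 < ε₁ := by rw [hε₁]; exact lt_min one_pos (by linarith)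
  have hε₁1 : ε₁ ≤ 1 := by rw [hε₁]; exact min_le_left _ _
  have hε₁η : ε₁ ≤ η / 2 := by rw [hε₁]; exact min_le_right _ _
  have hD4 := near_abs h ha hε₁0
  have hM0 : 0 < M₁ * (4 / η + 1) + 4 / η := by positivity
  refine ⟨M₁ * (4 / η + 1) + 4 / η, hM0, ?_⟩
  refine (((hD1.and hD2).and hD3).and hD4).mono ?_
  rintro ρ N hρ ⟨⟨⟨g1, g2⟩, g3⟩, hN, hs, -, -, g4⟩ x hx ψ hψ
  have hA : Admissible m R₀ v N (side ρ N) ψ := hψ.1
  have hE := g4 x hx ψ hψ
  obtain ⟨Z, hZ⟩ : ∃ Z : ℝ, Z = Real.sqrt (ρ * a ^ 3) := ⟨_, rfl⟩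
  have hZ0 : 0 ≤ Z := by rw [hZ]; exact Real.sqrt_nonneg _
  have hmono : ∀ y z : ℝ, y ≤ z →
      ENNReal.ofReal (N * (2 * Real.pi / m * ρ * a
          * (1 + (Jf 0 / (4 * Real.pi) + y) * Real.sqrt (ρ * a ^ 3)))) ≤
        ENNReal.ofReal (N * (2 * Real.pi / m * ρ * a
          * (1 + (Jf 0 / (4 * Real.pi) + z) * Real.sqrt (ρ * a ^ 3)))) := by
    intro y z hyz
    apply ENNReal.ofReal_le_ofReal
    have hc : 0 ≤ 2 * Real.pi / m * ρ * a := by
      have := h.hm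
      have := Real.pi_pos
      positivity
    have h1 : (Jf 0 / (4 * Real.pi) + y) * Real.sqrt (ρ * a ^ 3) ≤
        (Jf 0 / (4 * Real.pi) + z) * Real.sqrt (ρ * a ^ 3) :=
      mul_le_mul_of_nonneg_right (by linarith) (Real.sqrt_nonneg _)
    exact mul_le_mul_of_nonneg_left (mul_le_mul_of_nonneg_left (by linarith) hc) (Nat.cast_nonneg N)
  have hMx : 0 ≤ (M₁ * (4 / η + 1) + 4 / η) * x := mul_nonneg hM0.le hx
  rcases le_or_gt x (η / 2) with hxη | hxη
  · constructor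
    · intro d hd
      have h1 := g1 ψ hA (hE.trans (hmono _ _ (by linarith))) d hd
      rw [← hZ] at h1 ⊢
      refine h1.trans (mul_le_mul_of_nonneg_right (by linarith) hZ0)
    · have h1 := g2 ψ hA (by
        rw [zero_mul, sub_zero]
        exact hE.trans (hmono _ _ (by linarith)))
      rw [Dg_zero] at h1
      rw [← hZ] at h1 ⊢
      refine le_trans (mul_le_mul_of_nonneg_right (by linarith) hZ0) h1
  · have hone : 1 ≤ 2 * x / η := by
      rw [le_div_iff₀ hη0]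
      linarith
    have hMx' : M₁ * (2 + x) + 2 ≤ (M₁ * (4 / η + 1) + 4 / η) * x := by
      have e1 : (M₁ * (4 / η + 1) + 4 / η) * x = M₁ * (2 * (2 * x / η) + x) + 2 * (2 * x / η) := by
        ring
      rw [e1]
      have h1 : M₁ * (2 + x) ≤ M₁ * (2 * (2 * x / η) + x) :=
        mul_le_mul_of_nonneg_left (by linarith) hM₁.le
      linarith
    constructor
    · intro d hd
      have hd0 : 0 ≤ d := hd₀.le.trans hd
      have h1 := (g3 ψ hA (ε₁ + x) (by linarith) hE).1 d hd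
      have h2 : 0 ≤ momFraction N (side ρ N) (d * Real.sqrt (ρ * a)) ψ := by
        unfold momFraction
        refine mul_nonneg (by positivity) (Finset.sum_nonneg fun i _ => tsum_nonneg fun k => ?_)
        split_ifs
        · positivity
        · exact le_rfl
      have h3 := FF_nonneg hd0
      have h4 := F4_FF_le_two hd0
      rw [← hZ] at h1 ⊢
      have h5 : M₁ * (1 + (ε₁ + x)) * Z ≤ M₁ * (2 + x) * Z := by
        apply mul_le_mul_of_nonneg_right _ hZ0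
        apply mul_le_mul_of_nonneg_left _ hM₁.le
        linarith
      have h6 : FF d * Z ≤ 2 * Z := mul_le_mul_of_nonneg_right h4 hZ0
      have h7 : 0 ≤ FF d * Z := mul_nonneg h3 hZ0
      have h8 : (M₁ * (2 + x) + 2) * Z ≤ (ε + (M₁ * (4 / η + 1) + 4 / η) * x) * Z :=
        mul_le_mul_of_nonneg_right (by linarith) hZ0
      have h9 : 0 ≤ M₁ * (2 + x) * Z := by positivity
      have h10 : (M₁ * (2 + x) + 2) * Z = M₁ * (2 + x) * Z + 2 * Z := by ring
      rw [abs_le]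
      constructor
      · linarith
      · linarith
    · have hcf : 0 ≤ 1 - condFraction N (side ρ N) ψ := by
        rw [condFraction_eq hN hs hA]
        have h1 : 0 ≤ (∑ i, nuQ (fc (TT N (side ρ N) ψ)) i) / (N : ℝ) :=
          div_nonneg (Finset.sum_nonneg fun i _ => nuQ_nonneg _ _) (Nat.cast_nonneg N)
        linarith
      have h1 : 8 / (3 * Real.sqrt Real.pi) ≤ 2 := by
        have hp : (4 / 3 : ℝ) ≤ Real.sqrt Real.pi := by
          apply Real.le_sqrt_of_sq_le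
          nlinarith [Real.pi_gt_three]
        rw [div_le_iff₀ (by positivity)]
        linarith
      have h2 : (8 / (3 * Real.sqrt Real.pi) - (ε + (M₁ * (4 / η + 1) + 4 / η) * x)) *
          Real.sqrt (ρ * a ^ 3) ≤ 0 := by
        apply mul_nonpos_of_nonpos_of_nonneg _ (Real.sqrt_nonneg _)
        have h3 : 0 ≤ M₁ * (2 + x) := by positivity
        linarith
      exact h2.trans hcf

end Pool.Agent.Lib.MP_4952d6_mp.LK
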