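import Pool.Agent.Lib.MP_4952d6_mp.Pr.R29b
import Pool.Agent.Lib.MP_4952d6_mp.Pr.R30b
import Pool.Agent.Lib.MP_4952d6_mp.Pr.R31

/-!
# Pr.R32b (leaf T8): the density matrix of all states, with an error which is linear in the excess energy

As R32: `Z = √(ρ a³) > 0`, `X = ρ a ∑ y² ≥ 0`, `E(ψ) ≤ N (2π/m) ρ a (1 + (f + ε₁ + x) Z)` by `near_abs` (R31) with `ε₁ = min 1 (η/2)`, `η` of `ned_near` (R30b) for `ε`; `M₁` from `nmd_up` (R29b) for `d₀ = 1`.
If `x ≤ η/2`: `ned_near`. If `x > η/2`: `densityMatrix = 1 - 2 exF` (`densityMatrix_eq`, Pd/D07), `0 ≤ exF ≤ M₁ (1 + ε₁ + x) (1 + X) Z ≤ M₁ (2 + x) (1 + X) Z`, `0 ≤ G3 ≤ 2` (`G3_nonneg`, `G3_le_two`), so the difference is at most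
`(2 M₁ (2 + x) + 4) (1 + X) Z ≤ (2 M₁ (4/η + 1) + 8/η) x (1 + X) Z`.
-/

set_option autoImplicit false
set_option linter.unusedSectionVars false
set_option linter.unusedVariables false
open MeasureTheory Function Filter Topology Set ComplexConjugate
open scoped ENNReal

namespace Pool.Agent.Lib.MP_4952d6_mp.LK

open LA O LB

open LG

/-- **The one particle density matrix, all states**; the error is linear in the excess energy. -/
theorem dm_full {m R₀ R : ℝ} {v : (Fin 3 → ℝ) → ℝ} (h : Phys m R₀ R v) {a : ℝ}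
    (ha : a = scatLen m R₀ v) {ε : ℝ} (hε : 0 < ε) :
    ∃ M : ℝ, 0 < M ∧ Dilute fun ρ N => ∀ x : ℝ, 0 ≤ x → ∀ ψ,
      IsNear m R₀ (x * (N * (ρ * a / m) * Real.sqrt (ρ * a ^ 3))) v N (side ρ N) ψ →
      ∀ y : Fin 3 → ℝ,
        |densityMatrix N (side ρ N) ψ y
          - (1 - 2 * G3 (Real.sqrt (ρ * a) • y) * Real.sqrt (ρ * a ^ 3))|
          ≤ (ε + M * x) * (1 + ρ * a * ∑ α, y α ^ 2) * Real.sqrt (ρ * a ^ 3) := by
  have hapos : 0 < a := by
    rw [ha]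
    exact P23_a h
  have hm := h.hm
  obtain ⟨η, hη, h1⟩ := ned_near h ha hε
  obtain ⟨M₁, hM₁, h2⟩ := nmd_up h ha (d₀ := 1) one_pos
  have hε₁ : 0 < min 1 (η / 2) := lt_min one_pos (by linarith)
  have h3 := near_abs h ha hε₁
  obtain ⟨e₁, he₁⟩ : ∃ e₁, e₁ = min 1 (η / 2) := ⟨_, rfl⟩
  rw [← he₁] at hε₁ h3
  have he1 : e₁ ≤ 1 := by
    rw [he₁]
    exact min_le_left _ _
  have he2 : e₁ ≤ η / 2 := by
    rw [he₁]
    exact min_le_right _ _
  refine ⟨2 * M₁ * (4 / η + 1) + 8 / η, by positivity, ((h1.and h2).and h3).mono ?_⟩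
  rintro ρ N hρ ⟨⟨k1, k2⟩, hN1, hside, -, -, hE⟩ x hx ψ hψ y
  have hen := hE x hx ψ hψ
  obtain ⟨Z, hZ⟩ : ∃ Z, Z = Real.sqrt (ρ * a ^ 3) := ⟨_, rfl⟩
  have hZ0 : 0 ≤ Z := by
    rw [hZ]
    exact Real.sqrt_nonneg _
  obtain ⟨X, hX⟩ : ∃ X, X = ρ * a * ∑ α, y α ^ 2 := ⟨_, rfl⟩
  have hX0 : 0 ≤ X := by
    rw [hX]
    exact mul_nonneg (by positivity) (Finset.sum_nonneg fun α _ => sq_nonneg _)
  have hXZ : 0 ≤ (1 + X) * Z := mul_nonneg (by linarith) hZ0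
  rcases le_total x (η / 2) with hxη | hxη
  · have hle : energy m v N (side ρ N) ψ ≤ ENNReal.ofReal (N * (2 * Real.pi / m * ρ * a
        * (1 + (Jf 0 / (4 * Real.pi) + η) * Real.sqrt (ρ * a ^ 3)))) := by
      refine hen.trans (ENNReal.ofReal_le_ofReal ?_)
      have hc : (0 : ℝ) ≤ 2 * Real.pi / m * ρ * a := by positivity
      refine mul_le_mul_of_nonneg_left (mul_le_mul_of_nonneg_left ?_ hc) (Nat.cast_nonneg N)
      rw [← hZ]
      have h4 : (Jf 0 / (4 * Real.pi) + (e₁ + x)) * Z ≤ (Jf 0 / (4 * Real.pi) + η) * Z :=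
        mul_le_mul_of_nonneg_right (by linarith) hZ0
      linarith
    have h4 := k1 ψ hψ.1 hle y
    refine h4.trans ?_
    rw [← hZ, ← hX]
    have h5 : 0 ≤ (2 * M₁ * (4 / η + 1) + 8 / η) * x := by positivity
    have h6 : ε * ((1 + X) * Z) ≤ (ε + (2 * M₁ * (4 / η + 1) + 8 / η) * x) * ((1 + X) * Z) :=
      mul_le_mul_of_nonneg_right (by linarith) hXZ
    linarith
  · have h4 := (k2 ψ hψ.1 (e₁ + x) (by linarith) hen).2 y
    rw [densityMatrix_eq hN1 hside y hψ.1.1 hψ.1.2.1]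
    rw [← hZ, ← hX] at h4 ⊢
    obtain ⟨E, hEd⟩ : ∃ E, E = exF N (side ρ N) y ψ := ⟨_, rfl⟩
    obtain ⟨g, hg⟩ : ∃ g, g = G3 (Real.sqrt (ρ * a) • y) := ⟨_, rfl⟩
    have hg0 : 0 ≤ g := by
      rw [hg]
      exact G3_nonneg _
    have hg2 : g ≤ 2 := by
      rw [hg]
      exact G3_le_two _
    have hE0 : 0 ≤ E := by
      rw [hEd]
      unfold exF
      refine mul_nonneg (by positivity) (Finset.sum_nonneg fun i _ => tsum_nonneg fun k =>
        mul_nonneg ?_ (sq_nonneg _))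
      have := Real.cos_le_one ((2 * Real.pi / side ρ N) * ∑ α, (k i α : ℝ) * y α)
      linarith
    rw [← hEd] at h4 ⊢
    rw [← hg]
    have hx1 : 1 ≤ 2 * x / η := by
      rw [le_div_iff₀ hη]
      linarith
    have e0 : 1 - 2 * E - (1 - 2 * g * Z) = 2 * (g * Z - E) := by ring
    rw [e0]
    have hgZ : g * Z ≤ 2 * ((1 + X) * Z) := by
      have h5 : g * Z ≤ 2 * Z := mul_le_mul_of_nonneg_right hg2 hZ0
      have h6 : 0 ≤ X * Z := mul_nonneg hX0 hZ0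
      linarith
    have hgZ0 : 0 ≤ g * Z := mul_nonneg hg0 hZ0
    have hE1 : E ≤ M₁ * (2 + x) * ((1 + X) * Z) := by
      have h5 : M₁ * (1 + (e₁ + x)) * ((1 + X) * Z) ≤ M₁ * (2 + x) * ((1 + X) * Z) :=
        mul_le_mul_of_nonneg_right (mul_le_mul_of_nonneg_left (by linarith) hM₁.le) hXZ
      linarith
    have hcoef : 2 * (M₁ * (2 + x)) + 4 ≤ (2 * M₁ * (4 / η + 1) + 8 / η) * x := by
      have h5 : (2 * M₁ * (4 / η + 1) + 8 / η) * x =
          4 * M₁ * (2 * x / η) + 2 * M₁ * x + 4 * (2 * x / η) := by ring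
      rw [h5]
      have h6 : 4 * M₁ * 1 ≤ 4 * M₁ * (2 * x / η) := mul_le_mul_of_nonneg_left hx1 (by positivity)
      linarith
    have hfin : 2 * (M₁ * (2 + x) * ((1 + X) * Z)) + 4 * ((1 + X) * Z) ≤
        (2 * M₁ * (4 / η + 1) + 8 / η) * x * ((1 + X) * Z) := by
      have h5 := mul_le_mul_of_nonneg_right hcoef hXZ
      linarith
    have hε0 : 0 ≤ ε * ((1 + X) * Z) := mul_nonneg hε.le hXZ
    have hpos2 : 0 ≤ M₁ * (2 + x) * ((1 + X) * Z) := by positivity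
    rw [abs_le]
    constructor
    · linarith
    · linarith

end Pool.Agent.Lib.MP_4952d6_mp.LK
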