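import Mathlib

/-!
# Pr.R33 (leaf I1): comparison of two sums with a nonincreasing weight

`n ≥ 1`, `θₙ t = (1/n) ∑_{j=1}^n 1(j/n ≤ θ t)`: `θₙ t ≤ θ t ≤ θₙ t + 1/n` for `t ≥ d₀`. For each `j` the set `{t ≥ d₀ | j/n ≤ θ t}` is the complement in `[d₀, ∞)` of an upper set `U`, which is empty or all of `[d₀, ∞)` or `[s, ∞)` or `(s, ∞)`, `s ≥ d₀`
(`s` = the infimum of `{t ≥ d₀ | θ t < j/n}`; `θ` is antitone). For `[s, ∞)`: hypothesis `h s`. For `(s, ∞)`: limit of `[s + 1/k, ∞)` (`tendsto_tsum_of_dominated_convergence` with the bound `w`, resp. `w'`), so also `≤ δ`. Hence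
`∑_{r ≥ d₀, j/n ≤ θ} w ≤ ∑_{r ≥ d₀, j/n ≤ θ} w' + 2 δ`, so `∑ θₙ w ≤ ∑ θₙ w' + 2 δ` and `∑ θ w ≤ ∑ θ w' + 2 δ + (1/n) ∑ w`; let `n → ∞` (`le_of_forall_pos_le_add`).
-/

set_option autoImplicit false
set_option linter.unusedSectionVars false
set_option linter.unusedVariables false
open Function Filter Topology Set

namespace Pool.Agent.Lib.MP_4952d6_mp.LK

private theorem R33_tend {X : Type*} {w : X → ℝ} (hw : ∀ x, 0 ≤ w x) (hs : Summable w)
    (r : X → ℝ) (s : ℝ) :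
    Tendsto (fun k : ℕ => ∑' x, (r ⁻¹' Ici (s + 1 / ((k : ℝ) + 1))).indicator w x) atTop
      (𝓝 (∑' x, (r ⁻¹' Ioi s).indicator w x)) := by
  refine tendsto_tsum_of_dominated_convergence (bound := w) hs (fun x => ?_)
    (Eventually.of_forall fun k x => ?_)
  · by_cases hx : s < r x
    · have h1 : ∀ᶠ k : ℕ in atTop, 1 / ((k : ℝ) + 1) ≤ r x - s :=
        (tendsto_one_div_add_atTop_nhds_zero_nat (𝕜 := ℝ)).eventually
          (Iic_mem_nhds (by linarith))
      have h2 : (fun _ : ℕ => (r ⁻¹' Ioi s).indicator w x) =ᶠ[atTop]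
          fun k : ℕ => (r ⁻¹' Ici (s + 1 / ((k : ℝ) + 1))).indicator w x := by
        filter_upwards [h1] with k hk
        have h3 : x ∈ r ⁻¹' Ioi s := hx
        have h4 : x ∈ r ⁻¹' Ici (s + 1 / ((k : ℝ) + 1)) := by
          show s + 1 / ((k : ℝ) + 1) ≤ r x
          linarith
        rw [Set.indicator_of_mem h3, Set.indicator_of_mem h4]
      exact Tendsto.congr' h2 tendsto_const_nhds
    · have h2 : (fun k : ℕ => (r ⁻¹' Ici (s + 1 / ((k : ℝ) + 1))).indicator w x) =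
          fun _ : ℕ => (r ⁻¹' Ioi s).indicator w x := by
        funext k
        have h3 : x ∉ r ⁻¹' Ioi s := hx
        have h4 : x ∉ r ⁻¹' Ici (s + 1 / ((k : ℝ) + 1)) := by
          intro h5
          have h6 : s + 1 / ((k : ℝ) + 1) ≤ r x := h5
          have h7 : (0 : ℝ) < 1 / ((k : ℝ) + 1) := by positivity
          exact hx (by linarith)
        rw [Set.indicator_of_notMem h3, Set.indicator_of_notMem h4]
      rw [h2]
      exact tendsto_const_nhds
  · rw [Real.norm_eq_abs, abs_of_nonneg (Set.indicator_nonneg (fun x _ => hw x) x)]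
    exact Set.indicator_le_self' (fun x _ => hw x) x

private theorem R33_upper {X : Type*} {w w' : X → ℝ} (hw : ∀ x, 0 ≤ w x) (hw' : ∀ x, 0 ≤ w' x)
    (hs : Summable w) (hs' : Summable w') {r : X → ℝ} {d₀ δ : ℝ}
    (h : ∀ d, d₀ ≤ d → |(∑' x, (r ⁻¹' Ici d).indicator w x) -
      ∑' x, (r ⁻¹' Ici d).indicator w' x| ≤ δ) (S : Set ℝ) (hS : S ⊆ Ici d₀)
    (hu : ∀ t ∈ S, ∀ t', t ≤ t' → t' ∈ S) :
    |(∑' x, (r ⁻¹' S).indicator w x) - ∑' x, (r ⁻¹' S).indicator w' x| ≤ δ := by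
  have hδ : 0 ≤ δ := (abs_nonneg _).trans (h d₀ le_rfl)
  rcases S.eq_empty_or_nonempty with rfl | hne
  · simpa using hδ
  · have hbd : BddBelow S := ⟨d₀, fun t ht => hS ht⟩
    have hd : d₀ ≤ sInf S := le_csInf hne fun t ht => hS ht
    by_cases hmem : sInf S ∈ S
    · have h1 : S = Ici (sInf S) := by
        ext t
        exact ⟨fun ht => csInf_le hbd ht, fun ht => hu _ hmem t ht⟩
      rw [h1]
      exact h _ hd
    · have h1 : S = Ioi (sInf S) := by
        ext t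
        refine ⟨fun ht => lt_of_le_of_ne (csInf_le hbd ht) fun h2 => hmem (h2 ▸ ht), fun ht => ?_⟩
        obtain ⟨t', ht', h2⟩ := exists_lt_of_csInf_lt hne ht
        exact hu t' ht' t h2.le
      rw [h1]
      have h2 := ((R33_tend hw hs r (sInf S)).sub (R33_tend hw' hs' r (sInf S))).abs
      refine le_of_tendsto h2 (Eventually.of_forall fun k => h _ ?_)
      have h7 : (0 : ℝ) < 1 / ((k : ℝ) + 1) := by positivity
      linarith

private theorem R33_layer {X : Type*} {w w' : X → ℝ} (hw : ∀ x, 0 ≤ w x) (hw' : ∀ x, 0 ≤ w' x)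
    (hs : Summable w) (hs' : Summable w') {r : X → ℝ} {θ : ℝ → ℝ} {d₀ δ : ℝ}
    (hθ : AntitoneOn θ (Ici d₀))
    (h : ∀ d, d₀ ≤ d → |(∑' x, (r ⁻¹' Ici d).indicator w x) -
      ∑' x, (r ⁻¹' Ici d).indicator w' x| ≤ δ) (c : ℝ) :
    (∑' x, (r ⁻¹' {t | d₀ ≤ t ∧ c ≤ θ t}).indicator w x) ≤
      (∑' x, (r ⁻¹' {t | d₀ ≤ t ∧ c ≤ θ t}).indicator w' x) + 2 * δ := by
  have h1 := R33_upper hw hw' hs hs' h {t | d₀ ≤ t ∧ θ t < c} (fun t ht => ht.1)
    (fun t ht t' htt => ⟨ht.1.trans htt, (hθ ht.1 (ht.1.trans htt) htt).trans_lt ht.2⟩)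
  have h2 := h d₀ le_rfl
  have h3 : ∀ u : X → ℝ, Summable u → (∑' x, (r ⁻¹' Ici d₀).indicator u x) =
      (∑' x, (r ⁻¹' {t | d₀ ≤ t ∧ c ≤ θ t}).indicator u x) +
        ∑' x, (r ⁻¹' {t | d₀ ≤ t ∧ θ t < c}).indicator u x := by
    intro u hu
    rw [← (hu.indicator _).tsum_add (hu.indicator _)]
    refine tsum_congr fun x => ?_
    by_cases h4 : d₀ ≤ r x
    · by_cases h5 : c ≤ θ (r x)
      · have e1 : x ∈ r ⁻¹' Ici d₀ := h4
        have e2 : x ∈ r ⁻¹' {t | d₀ ≤ t ∧ c ≤ θ t} := ⟨h4, h5⟩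
        have e3 : x ∉ r ⁻¹' {t | d₀ ≤ t ∧ θ t < c} := fun h6 => absurd h5 (not_le.2 h6.2)
        rw [Set.indicator_of_mem e1, Set.indicator_of_mem e2, Set.indicator_of_notMem e3, add_zero]
      · have e1 : x ∈ r ⁻¹' Ici d₀ := h4
        have e2 : x ∉ r ⁻¹' {t | d₀ ≤ t ∧ c ≤ θ t} := fun h6 => h5 h6.2
        have e3 : x ∈ r ⁻¹' {t | d₀ ≤ t ∧ θ t < c} := ⟨h4, not_le.1 h5⟩
        rw [Set.indicator_of_mem e1, Set.indicator_of_notMem e2, Set.indicator_of_mem e3, zero_add]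
    · have e1 : x ∉ r ⁻¹' Ici d₀ := h4
      have e2 : x ∉ r ⁻¹' {t | d₀ ≤ t ∧ c ≤ θ t} := fun h6 => h4 h6.1
      have e3 : x ∉ r ⁻¹' {t | d₀ ≤ t ∧ θ t < c} := fun h6 => h4 h6.1
      rw [Set.indicator_of_notMem e1, Set.indicator_of_notMem e2, Set.indicator_of_notMem e3,
        add_zero]
  rw [h3 w hs, h3 w' hs'] at h2
  have h4 := abs_le.1 h1
  have h5 := abs_le.1 h2
  linarith [h4.1, h5.2]

private theorem R33_step {n : ℕ} (hn : 0 < n) {y : ℝ} (h0 : 0 ≤ y) (h1 : y ≤ 1) :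
    (∑ j ∈ Finset.range n, if ((j : ℝ) + 1) / n ≤ y then (1 : ℝ) / n else 0) ≤ y ∧
      y ≤ (∑ j ∈ Finset.range n, if ((j : ℝ) + 1) / n ≤ y then (1 : ℝ) / n else 0) + 1 / n := by
  have hn' : (0 : ℝ) < n := by exact_mod_cast hn
  have hm : ⌊y * n⌋₊ ≤ n := by
    have h2 : y * n ≤ (n : ℕ) := by nlinarith
    exact Nat.floor_le_of_le h2
  have h2 : (∑ j ∈ Finset.range n, if ((j : ℝ) + 1) / n ≤ y then (1 : ℝ) / n else 0) =
      (⌊y * n⌋₊ : ℝ) / n := by
    have h3 : (Finset.range n).filter (fun j : ℕ => ((j : ℝ) + 1) / n ≤ y) =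
        Finset.range ⌊y * n⌋₊ := by
      ext j
      rw [Finset.mem_filter, Finset.mem_range, Finset.mem_range, div_le_iff₀ hn']
      have h4 : ((j : ℝ) + 1 ≤ y * n) ↔ j + 1 ≤ ⌊y * n⌋₊ := by
        rw [Nat.le_floor_iff (by positivity)]
        push_cast
        rfl
      rw [h4]
      omega
    rw [← Finset.sum_filter, h3, Finset.sum_const, Finset.card_range, nsmul_eq_mul]
    ring
  rw [h2]
  have h3 : (⌊y * n⌋₊ : ℝ) ≤ y * n := Nat.floor_le (by positivity)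
  have h4 : y * n < (⌊y * n⌋₊ : ℝ) + 1 := Nat.lt_floor_add_one _
  constructor
  · rw [div_le_iff₀ hn']
    exact h3
  · rw [← add_div, le_div_iff₀ hn']
    exact h4.le

/-- Comparison of two sums with a nonincreasing weight. -/
theorem anti_compare {X : Type*} {w w' : X → ℝ} (hw : ∀ x, 0 ≤ w x) (hw' : ∀ x, 0 ≤ w' x)
    (hs : Summable w) (hs' : Summable w') {r : X → ℝ} {θ : ℝ → ℝ} {d₀ δ : ℝ}
    (hθ : AntitoneOn θ (Ici d₀)) (h0 : ∀ t, 0 ≤ θ t) (h1 : ∀ t, θ t ≤ 1)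
    (h : ∀ d, d₀ ≤ d → |(∑' x, if d ≤ r x then w x else 0) - ∑' x, if d ≤ r x then w' x else 0| ≤ δ) :
    (∑' x, if d₀ ≤ r x then θ (r x) * w x else 0)
      ≤ (∑' x, if d₀ ≤ r x then θ (r x) * w' x else 0) + 2 * δ := by
  classical
  have hind : ∀ (u : X → ℝ) (d : ℝ), (∑' x, if d ≤ r x then u x else 0) =
      ∑' x, (r ⁻¹' Ici d).indicator u x := by
    intro u d
    refine tsum_congr fun x => ?_
    by_cases h2 : d ≤ r x
    · have e1 : x ∈ r ⁻¹' Ici d := h2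
      rw [if_pos h2, Set.indicator_of_mem e1]
    · have e1 : x ∉ r ⁻¹' Ici d := h2
      rw [if_neg h2, Set.indicator_of_notMem e1]
  have h' : ∀ d, d₀ ≤ d → |(∑' x, (r ⁻¹' Ici d).indicator w x) -
      ∑' x, (r ⁻¹' Ici d).indicator w' x| ≤ δ := by
    intro d hd
    rw [← hind, ← hind]
    exact h d hd
  -- the step functions
  let T : ℕ → ℕ → Set X := fun n j => r ⁻¹' {t | d₀ ≤ t ∧ ((j : ℝ) + 1) / n ≤ θ t}
  have hst : ∀ (n : ℕ) (u : X → ℝ) (x : X), (∑ j ∈ Finset.range n, (1 : ℝ) / n * (T n j).indicator u x) =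
      if d₀ ≤ r x then
        (∑ j ∈ Finset.range n, if ((j : ℝ) + 1) / n ≤ θ (r x) then (1 : ℝ) / n else 0) * u x
      else 0 := by
    intro n u x
    by_cases h2 : d₀ ≤ r x
    · rw [if_pos h2, Finset.sum_mul]
      refine Finset.sum_congr rfl fun j _ => ?_
      by_cases h3 : ((j : ℝ) + 1) / n ≤ θ (r x)
      · have e1 : x ∈ T n j := ⟨h2, h3⟩
        rw [if_pos h3, Set.indicator_of_mem e1]
      · have e1 : x ∉ T n j := fun h4 => h3 h4.2
        rw [if_neg h3, Set.indicator_of_notMem e1, mul_zero, zero_mul]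
    · rw [if_neg h2]
      refine Finset.sum_eq_zero fun j _ => ?_
      have e1 : x ∉ T n j := fun h4 => h2 h4.1
      rw [Set.indicator_of_notMem e1, mul_zero]
  have hsum : ∀ (n : ℕ) (u : X → ℝ), Summable u → ∀ j, Summable ((T n j).indicator u) :=
    fun n u hu j => hu.indicator _
  have hsumθ : ∀ u : X → ℝ, (∀ x, 0 ≤ u x) → Summable u →
      Summable fun x => if d₀ ≤ r x then θ (r x) * u x else 0 := by
    intro u hu0 hu
    refine Summable.of_nonneg_of_le (fun x => ?_) (fun x => ?_) hu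
    · split_ifs
      · exact mul_nonneg (h0 _) (hu0 x)
      · exact le_rfl
    · split_ifs
      · exact mul_le_of_le_one_left (hu0 x) (h1 _)
      · exact hu0 x
  have hsw : ∀ (n : ℕ) (u : X → ℝ), Summable u →
      Summable fun x => ∑ j ∈ Finset.range n, (1 : ℝ) / n * (T n j).indicator u x := by
    intro n u hu
    exact summable_sum fun j _ => (hsum n u hu j).mul_left _
  have htw : ∀ (n : ℕ) (u : X → ℝ), Summable u →
      (∑' x, ∑ j ∈ Finset.range n, (1 : ℝ) / n * (T n j).indicator u x) =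
        ∑ j ∈ Finset.range n, (1 : ℝ) / n * ∑' x, (T n j).indicator u x := by
    intro n u hu
    rw [Summable.tsum_finsetSum fun j _ => (hsum n u hu j).mul_left _]
    refine Finset.sum_congr rfl fun j _ => ?_
    rw [tsum_mul_left]
  have hδ : 0 ≤ δ := (abs_nonneg _).trans (h d₀ le_rfl)
  have hmain : ∀ n : ℕ, 0 < n → (∑' x, if d₀ ≤ r x then θ (r x) * w x else 0)
      ≤ ((∑' x, if d₀ ≤ r x then θ (r x) * w' x else 0) + 2 * δ) + 1 / n * ∑' x, w x := by
    intro n hn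
    have hn' : (0 : ℝ) < n := by exact_mod_cast hn
    have e1 : (∑' x, if d₀ ≤ r x then θ (r x) * w x else 0) ≤
        (∑' x, ∑ j ∈ Finset.range n, (1 : ℝ) / n * (T n j).indicator w x) +
          ∑' x, 1 / (n : ℝ) * w x := by
      rw [← (hsw n w hs).tsum_add (hs.mul_left _)]
      refine (hsumθ w hw hs).tsum_le_tsum (fun x => ?_) ((hsw n w hs).add (hs.mul_left _))
      rw [hst]
      by_cases h2 : d₀ ≤ r x
      · rw [if_pos h2, if_pos h2, ← add_mul]
        exact mul_le_mul_of_nonneg_right (R33_step hn (h0 _) (h1 _)).2 (hw x)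
      · rw [if_neg h2, if_neg h2, zero_add]
        exact mul_nonneg (by positivity) (hw x)
    have e2 : (∑' x, ∑ j ∈ Finset.range n, (1 : ℝ) / n * (T n j).indicator w' x) ≤
        ∑' x, if d₀ ≤ r x then θ (r x) * w' x else 0 := by
      refine (hsw n w' hs').tsum_le_tsum (fun x => ?_) (hsumθ w' hw' hs')
      rw [hst]
      by_cases h2 : d₀ ≤ r x
      · rw [if_pos h2, if_pos h2]
        exact mul_le_mul_of_nonneg_right (R33_step hn (h0 _) (h1 _)).1 (hw' x)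
      · rw [if_neg h2, if_neg h2]
    have e3 : (∑ j ∈ Finset.range n, (1 : ℝ) / n * ∑' x, (T n j).indicator w x) ≤
        (∑ j ∈ Finset.range n, (1 : ℝ) / n * ∑' x, (T n j).indicator w' x) + 2 * δ := by
      have e4 : (∑ j ∈ Finset.range n, (1 : ℝ) / n * ∑' x, (T n j).indicator w x) ≤
          ∑ j ∈ Finset.range n, ((1 : ℝ) / n * ∑' x, (T n j).indicator w' x + 1 / n * (2 * δ)) := by
        refine Finset.sum_le_sum fun j _ => ?_
        rw [← mul_add]
        exact mul_le_mul_of_nonneg_left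
          (R33_layer hw hw' hs hs' hθ h' (((j : ℝ) + 1) / n)) (by positivity)
      rw [Finset.sum_add_distrib, Finset.sum_const, Finset.card_range, nsmul_eq_mul] at e4
      have e5 : (n : ℝ) * (1 / n * (2 * δ)) = 2 * δ := by
        field_simp
      rw [e5] at e4
      exact e4
    rw [htw n w hs, tsum_mul_left] at e1
    rw [htw n w' hs'] at e2
    linarith
  refine le_of_forall_pos_le_add fun ε hε => ?_
  have hW : 0 ≤ ∑' x, w x := tsum_nonneg hw
  obtain ⟨n, hn⟩ := exists_nat_gt ((∑' x, w x) / ε)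
  have hn0 : (0 : ℝ) < n := lt_of_le_of_lt (div_nonneg hW hε.le) hn
  have hn1 : 0 < n := by exact_mod_cast hn0
  refine (hmain n hn1).trans ?_
  have h2 : 1 / (n : ℝ) * ∑' x, w x ≤ ε := by
    rw [div_lt_iff₀ hε] at hn
    rw [one_div, inv_mul_le_iff₀ hn0]
    linarith
  linarith

end Pool.Agent.Lib.MP_4952d6_mp.LK
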