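import Pool.Agent.Lib.MP_4952d6_mp.Pq.Q07
import Pool.Agent.Lib.MP_4952d6_mp.Pq.P19
import Pool.Agent.Lib.MP_4952d6_mp.Po.N22
import Pool.Agent.Lib.MP_4952d6_mp.Pr.R33

/-!
# Pr.R34 (leaf I2): a gap for the small momenta only

`irFraction N L κ θ ψ = (1/N) ∑ᵢ ⟨ψ, θ(|pᵢ|/κ) 1(pᵢ ≠ 0) ψ⟩`.
* `ir_exists`: `Q07_energy`/`Q07_phys` (Pq/Q07) with the weights `w k = Λ ∑ i, (if k i = 0 then 0 else θ (2π/L √(∑ (k i)²) / κ))`, `Λ = 2 m L² g`, bounded by `Λ N`: `Q07_ground`, `fourierC_eq` (`fourierC N L ψ k = fc (TT N L ψ) k`), `energy_eq`, `adm_TT`, `adm_BB`, `TT_BB`, as in the proof of `Q07_phys`;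
  `tW w φ = ofReal (∑' k, w k ‖fc φ k‖²)` and `= ofReal (Λ N irFraction)` as in `tW_gap`.
* `ir_nonneg`, `ir_le`: `1 - condFraction = (1/N) ∑ i nuQ (fc (TT N L ψ)) i` (`condFraction_eq`, Pk/G29), `nuQ f i = ∑' k, if k i ≠ 0 then ‖f k‖² else 0` (Pk/G08), summability from `parseval_sq`.
* `ir_compare`: on `X = Fin N × (Fin N → Fin 3 → ℤ)` put `w x = ‖fourierC N L ψ x.2‖²/N`, `r x = 2π/L √(∑ (x.2 x.1)²) / κ` (`F3_bdd_summable`, Po/N22, for the sums over `X`). `momFraction N L (d κ) ψ = ∑' x, if d ≤ r x then w x else 0` for `d > 0` (`(dκ)² ≤ (2π/L)² ∑ ↔ d ≤ r`), and, `θ = 1` on `(0, d₀]`,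
  `1 - condFraction = irFraction + momFraction (d₀ κ) - ∑' x, if d₀ ≤ r x then θ (r x) * w x else 0` (pointwise: momentum zero: `0 = 0 + 0 - 0` (`r = 0 < d₀`); `0 < r < d₀`: `1 = 1 + 0 - 0`; `r ≥ d₀`: `1 = θ + 1 - θ`). Subtract the same for `φ`; `anti_compare` (R33) with `w ↔ φ`, `w' ↔ ψ`.
-/

set_option autoImplicit false
set_option linter.unusedSectionVars false
set_option linter.unusedVariables false
open MeasureTheory Function Filter Topology Set ComplexConjugate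
open scoped ENNReal

namespace Pool.Agent.Lib.MP_4952d6_mp.LK

open LA O LB

open LG

/-- `(1/N) ∑ᵢ ⟨ψ, θ(|pᵢ|/κ) 1(pᵢ ≠ 0) ψ⟩` -/
noncomputable def irFraction (N : ℕ) (L κ : ℝ) (θ : ℝ → ℝ) (ψ : (Fin N → Fin 3 → ℝ) → ℂ) : ℝ :=
  (1 / (N : ℝ)) * ∑ i : Fin N, ∑' k : Fin N → Fin 3 → ℤ,
    (if k i = 0 then 0
      else θ (2 * Real.pi / L * Real.sqrt (∑ α, (k i α : ℝ) ^ 2) / κ) * ‖fourierC N L ψ k‖ ^ 2)

/-- The energy with the gap `g θ(|p|/κ)` for the momenta `p ≠ 0`. -/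
noncomputable def irEnergy (m g κ : ℝ) (θ : ℝ → ℝ) (v : (Fin 3 → ℝ) → ℝ) (N : ℕ) (L : ℝ)
    (ψ : (Fin N → Fin 3 → ℝ) → ℂ) : ℝ≥0∞ :=
  energy m v N L ψ + ENNReal.ofReal (g * (N * irFraction N L κ θ ψ))

/-- Its ground states. -/
def IsIrGround (m R₀ g κ : ℝ) (θ : ℝ → ℝ) (v : (Fin 3 → ℝ) → ℝ) (N : ℕ) (L : ℝ)
    (ψ : (Fin N → Fin 3 → ℝ) → ℂ) : Prop :=
  Admissible m R₀ v N L ψ ∧ ∀ φ : (Fin N → Fin 3 → ℝ) → ℂ, Admissible m R₀ v N L φ →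
    irEnergy m g κ θ v N L ψ ≤ irEnergy m g κ θ v N L φ

theorem ir_nonneg {N : ℕ} {L κ : ℝ} {θ : ℝ → ℝ} (h0 : ∀ t, 0 ≤ θ t)
    (ψ : (Fin N → Fin 3 → ℝ) → ℂ) : 0 ≤ irFraction N L κ θ ψ := by
  unfold irFraction
  refine mul_nonneg (by positivity) (Finset.sum_nonneg fun i _ => tsum_nonneg fun k => ?_)
  split_ifs
  · exact le_rfl
  · exact mul_nonneg (h0 _) (sq_nonneg _)

/-- The length of the momentum in units of `κ`. -/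
private noncomputable def R34_q (L κ : ℝ) (p : Fin 3 → ℤ) : ℝ :=
  2 * Real.pi / L * Real.sqrt (∑ α, (p α : ℝ) ^ 2) / κ

/-- The weight of the gap. -/
private noncomputable def R34_c (L κ : ℝ) (θ : ℝ → ℝ) (p : Fin 3 → ℤ) : ℝ :=
  if p = 0 then 0 else θ (R34_q L κ p)

private theorem R34_c_mem {L κ : ℝ} {θ : ℝ → ℝ} (h0 : ∀ t, 0 ≤ θ t) (h1 : ∀ t, θ t ≤ 1)
    (p : Fin 3 → ℤ) : 0 ≤ R34_c L κ θ p ∧ R34_c L κ θ p ≤ 1 := by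
  unfold R34_c
  split_ifs
  · exact ⟨le_rfl, zero_le_one⟩
  · exact ⟨h0 _, h1 _⟩

private theorem R34_abs {x : ℝ} (h : 0 ≤ x ∧ x ≤ 1) : |x| ≤ 1 := by
  rw [abs_of_nonneg h.1]
  exact h.2

private theorem R34_ir {L κ : ℝ} {N : ℕ} (hL : 0 < L) (θ : ℝ → ℝ)
    {ψ : (Fin N → Fin 3 → ℝ) → ℂ}
    (hψ : AEStronglyMeasurable ψ (volume.restrict (box N L))) :
    irFraction N L κ θ ψ = Dm (R34_c L κ θ) (TT N L ψ) / N := by
  unfold irFraction Dm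
  rw [one_div, inv_mul_eq_div]
  congr 1
  refine Finset.sum_congr rfl fun j _ => tsum_congr fun k => ?_
  rw [fourierC_eq hL hψ]
  unfold R34_c
  by_cases h : k j = 0
  · rw [if_pos h, if_pos h, zero_mul]
  · rw [if_neg h, if_neg h]
    rfl

private theorem R34_cond {m R₀ L : ℝ} {v : (Fin 3 → ℝ) → ℝ} {N : ℕ} (hN : 1 ≤ N) (hL : 0 < L)
    {ψ : (Fin N → Fin 3 → ℝ) → ℂ} (hψ : Admissible m R₀ v N L ψ) :
    1 - condFraction N L ψ = Dm (fun p => if p = 0 then 0 else 1) (TT N L ψ) / N := by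
  rw [condFraction_eq hN hL hψ, sub_sub_cancel]
  unfold Dm nuQ
  congr 1
  refine Finset.sum_congr rfl fun j _ => tsum_congr fun k => ?_
  beta_reduce
  by_cases h : k j = 0
  · rw [if_neg (not_not.2 h), if_pos h, zero_mul]
  · rw [if_pos h, if_neg h, one_mul]

private theorem R34_sum {N : ℕ} {f : (Fin N → T3) → ℂ} (hf : MemLp f 2 (piN (Fin N)))
    {c : (Fin 3 → ℤ) → ℝ} (hc : ∀ p, 0 ≤ c p ∧ c p ≤ 1) (j : Fin N) :
    Summable fun k : Fin N → Fin 3 → ℤ => c (k j) * ‖fc f k‖ ^ 2 := by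
  refine Summable.of_nonneg_of_le (fun k => mul_nonneg (hc _).1 (sq_nonneg _)) (fun k => ?_)
    (parseval_sq hf).summable
  exact (mul_le_mul_of_nonneg_right (hc _).2 (sq_nonneg _)).trans (le_of_eq (one_mul _))

private theorem R34_mono {N : ℕ} {f : (Fin N → T3) → ℂ} (hf : MemLp f 2 (piN (Fin N)))
    {c c' : (Fin 3 → ℤ) → ℝ} (hc : ∀ p, 0 ≤ c p ∧ c p ≤ 1) (hc' : ∀ p, 0 ≤ c' p ∧ c' p ≤ 1)
    (h : ∀ p, c p ≤ c' p) : Dm c f ≤ Dm c' f := by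
  unfold Dm
  refine Finset.sum_le_sum fun j _ => Summable.tsum_le_tsum (fun k => ?_) (R34_sum hf hc j)
    (R34_sum hf hc' j)
  exact mul_le_mul_of_nonneg_right (h _) (sq_nonneg _)

private theorem R34_one (p : Fin 3 → ℤ) :
    (0 : ℝ) ≤ (if p = 0 then 0 else 1) ∧ (if p = 0 then (0 : ℝ) else 1) ≤ 1 := by
  split_ifs <;> norm_num

theorem ir_le {m R₀ L κ : ℝ} {v : (Fin 3 → ℝ) → ℝ} {N : ℕ} (hN : 1 ≤ N) (hL : 0 < L) {θ : ℝ → ℝ}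
    (h0 : ∀ t, 0 ≤ θ t) (h1 : ∀ t, θ t ≤ 1) {ψ : (Fin N → Fin 3 → ℝ) → ℂ}
    (hψ : Admissible m R₀ v N L ψ) : irFraction N L κ θ ψ ≤ 1 - condFraction N L ψ := by
  rw [R34_ir hL θ hψ.1.1, R34_cond hN hL hψ]
  refine div_le_div_of_nonneg_right ?_ (Nat.cast_nonneg N)
  refine R34_mono (memLp_TT hL hψ.1) (R34_c_mem h0 h1) R34_one fun p => ?_
  unfold R34_c
  split_ifs
  · exact le_rfl
  · exact h1 _

private theorem R34_tW {N : ℕ} {Λ : ℝ} (hΛ : 0 ≤ Λ) {c : (Fin 3 → ℤ) → ℝ}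
    (hc : ∀ p, 0 ≤ c p ∧ c p ≤ 1) {f : (Fin N → T3) → ℂ} (hf : MemLp f 2 (piN (Fin N))) :
    M.tW (fun k => Λ * ∑ i, c (k i)) f = ENNReal.ofReal (Λ * Dm c f) := by
  have h0 : ∀ k : Fin N → Fin 3 → ℤ, 0 ≤ (Λ * ∑ i, c (k i)) * ‖fc f k‖ ^ 2 := fun k =>
    mul_nonneg (mul_nonneg hΛ (Finset.sum_nonneg fun i _ => (hc _).1)) (sq_nonneg _)
  have e : (fun k : Fin N → Fin 3 → ℤ => (Λ * ∑ i, c (k i)) * ‖fc f k‖ ^ 2)
      = fun k => Λ * ∑ i, c (k i) * ‖fc f k‖ ^ 2 := by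
    funext k
    rw [mul_assoc, Finset.sum_mul]
  have hs : Summable fun k : Fin N → Fin 3 → ℤ => (Λ * ∑ i, c (k i)) * ‖fc f k‖ ^ 2 := by
    rw [e]
    exact (summable_sum fun i _ => R34_sum hf hc i).mul_left Λ
  unfold M.tW
  rw [← ENNReal.ofReal_tsum_of_nonneg h0 hs]
  congr 1
  rw [e, tsum_mul_left, Summable.tsum_finsetSum fun i _ => R34_sum hf hc i]
  rfl

private theorem R34_energy {m R₀ L g κ : ℝ} {v : (Fin 3 → ℝ) → ℝ} {N : ℕ} (hN : 1 ≤ N)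
    (hm : 0 < m) (hL : 0 < L) (hv : AEMeasurable v volume) (hg : 0 ≤ g) {θ : ℝ → ℝ}
    (h0 : ∀ t, 0 ≤ θ t) (h1 : ∀ t, θ t ≤ 1) {ψ : (Fin N → Fin 3 → ℝ) → ℂ}
    (h : Admissible m R₀ v N L ψ) :
    irEnergy m g κ θ v N L ψ = ENNReal.ofReal (1 / (2 * m * L ^ 2)) *
      (tE (Vp m L v) (TT N L ψ) +
        M.tW (fun k => (2 * m * L ^ 2 * g) * ∑ i, R34_c L κ θ (k i)) (TT N L ψ)) := by
  have hN0 : (N : ℝ) ≠ 0 := by
    have : (1 : ℝ) ≤ N := by exact_mod_cast hN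
    linarith
  have hc : (0 : ℝ) < 2 * m * L ^ 2 := by positivity
  unfold irEnergy
  rw [energy_eq hm hL hv h.1.1, R34_ir hL θ h.1.1,
    R34_tW (by positivity) (R34_c_mem h0 h1) (memLp_TT hL h.1), mul_add,
    ← ENNReal.ofReal_mul (by positivity)]
  congr 2
  field_simp

theorem ir_exists {m R₀ L g κ : ℝ} {v : (Fin 3 → ℝ) → ℝ} {N : ℕ} (hN : 1 ≤ N) (hm : 0 < m)
    (hL : 0 < L) (hR : 0 ≤ R₀) (hv : AEMeasurable v volume) (hg : 0 ≤ g) {θ : ℝ → ℝ}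
    (h0 : ∀ t, 0 ≤ θ t) (h1 : ∀ t, θ t ≤ 1) (h : ∃ φ, Admissible m R₀ v N L φ) :
    ∃ ψ, IsIrGround m R₀ g κ θ v N L ψ := by
  have hV : AEMeasurable (fun x : Fin N → T3 => ∑ i, ∑ j ∈ Finset.Ioi i, Vp m L v (x i - x j))
      (piN (Fin N)) := by
    have e : (fun x : Fin N → T3 => ∑ i, ∑ j ∈ Finset.Ioi i, Vp m L v (x i - x j))
        = fun x => ENNReal.ofReal (2 * m * L ^ 2)
          * ∑ i, ∑ j ∈ Finset.Ioi i, vper L v (x i - x j) := by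
      funext x
      simp only [Vp, Finset.mul_sum]
    rw [e]
    exact (aem_pair hL hv).const_mul _
  obtain ⟨φ₀, hφ₀⟩ := h
  have hΛ : (0 : ℝ) ≤ 2 * m * L ^ 2 * g := by positivity
  have hw0 : ∀ k : Fin N → Fin 3 → ℤ, 0 ≤ (2 * m * L ^ 2 * g) * ∑ i, R34_c L κ θ (k i) := fun k =>
    mul_nonneg hΛ (Finset.sum_nonneg fun i _ => (R34_c_mem h0 h1 _).1)
  have hwB : ∃ B : ℝ, ∀ k : Fin N → Fin 3 → ℤ,
      (2 * m * L ^ 2 * g) * ∑ i, R34_c L κ θ (k i) ≤ B := by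
    refine ⟨(2 * m * L ^ 2 * g) * N, fun k => mul_le_mul_of_nonneg_left ?_ hΛ⟩
    calc ∑ i : Fin N, R34_c L κ θ (k i) ≤ ∑ i : Fin N, (1 : ℝ) :=
          Finset.sum_le_sum fun i _ => (R34_c_mem h0 h1 _).2
      _ = N := by simp
  obtain ⟨f, hf, hmin⟩ := M.Q07_ground (R₀ := R₀ / L) hw0 hwB hV
    ⟨TT N L φ₀, adm_TT hm hL hR hv hφ₀⟩
  have hB := adm_BB hm hL hR hv hf
  refine ⟨Pool.Agent.Lib.MP_4952d6_mp.BB N L f, hB, fun φ hφ => ?_⟩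
  rw [R34_energy hN hm hL hv hg h0 h1 hB, TT_BB hL, R34_energy hN hm hL hv hg h0 h1 hφ]
  exact mul_le_mul_right (hmin _ (adm_TT hm hL hR hv hφ)) _

private theorem R34_q_zero {L κ : ℝ} : R34_q L κ 0 = 0 := by
  unfold R34_q
  simp

private theorem R34_q_pos {L κ : ℝ} (hL : 0 < L) (hκ : 0 < κ) {p : Fin 3 → ℤ} (hp : p ≠ 0) :
    0 < R34_q L κ p := by
  have h1 : 0 < ∑ α, (p α : ℝ) ^ 2 := by
    obtain ⟨α, hα⟩ := Function.ne_iff.1 hp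
    refine Finset.sum_pos' (fun β _ => sq_nonneg _) ⟨α, Finset.mem_univ _, ?_⟩
    have h2 : (p α : ℝ) ≠ 0 := by exact_mod_cast hα
    positivity
  have h2 := Real.sqrt_pos.2 h1
  unfold R34_q
  have := Real.pi_pos
  positivity

private theorem R34_thr {L κ d : ℝ} (hL : 0 < L) (hκ : 0 < κ) (hd : 0 < d) (p : Fin 3 → ℤ) :
    (d * κ) ^ 2 ≤ (2 * Real.pi / L) ^ 2 * ∑ α, (p α : ℝ) ^ 2 ↔ d ≤ R34_q L κ p := by
  have h0 : 0 ≤ ∑ α, (p α : ℝ) ^ 2 := Finset.sum_nonneg fun α _ => sq_nonneg _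
  have h1 : (2 * Real.pi / L) ^ 2 * ∑ α, (p α : ℝ) ^ 2 =
      (2 * Real.pi / L * Real.sqrt (∑ α, (p α : ℝ) ^ 2)) ^ 2 := by
    rw [mul_pow, Real.sq_sqrt h0]
  have h2 : 0 ≤ 2 * Real.pi / L * Real.sqrt (∑ α, (p α : ℝ) ^ 2) := by
    have := Real.pi_pos
    positivity
  unfold R34_q
  rw [h1, le_div_iff₀ hκ, sq_le_sq₀ (by positivity) h2]

private theorem R34_mom {L κ d : ℝ} {N : ℕ} (hL : 0 < L) (hκ : 0 < κ) (hd : 0 < d)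
    {ψ : (Fin N → Fin 3 → ℝ) → ℂ}
    (hψ : AEStronglyMeasurable ψ (volume.restrict (box N L))) :
    momFraction N L (d * κ) ψ = Dm (fun p => if d ≤ R34_q L κ p then 1 else 0) (TT N L ψ) / N := by
  unfold momFraction Dm
  rw [one_div, inv_mul_eq_div]
  congr 1
  refine Finset.sum_congr rfl fun j _ => tsum_congr fun k => ?_
  rw [fourierC_eq hL hψ]
  beta_reduce
  by_cases h : d ≤ R34_q L κ (k j)
  · rw [if_pos h, if_pos ((R34_thr hL hκ hd _).2 h), one_mul]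
  · rw [if_neg h, if_neg fun h3 => h ((R34_thr hL hκ hd _).1 h3), zero_mul]

private theorem R34_X {N : ℕ} {f : (Fin N → T3) → ℂ} (hf : MemLp f 2 (piN (Fin N)))
    {c : (Fin 3 → ℤ) → ℝ} (hc : ∀ p, 0 ≤ c p ∧ c p ≤ 1) :
    (Summable fun x : Fin N × (Fin N → Fin 3 → ℤ) => c (x.2 x.1) * (‖fc f x.2‖ ^ 2 / N)) ∧
    ∑' x : Fin N × (Fin N → Fin 3 → ℤ), c (x.2 x.1) * (‖fc f x.2‖ ^ 2 / N) = Dm c f / N := by
  obtain ⟨h1, h2⟩ := F3_bdd_summable hf (φ := c) (C := 1) fun p => R34_abs (hc p)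
  have e : (fun x : Fin N × (Fin N → Fin 3 → ℤ) => c (x.2 x.1) * (‖fc f x.2‖ ^ 2 / N)) =
      fun x => c (x.2 x.1) * ‖fc f x.2‖ ^ 2 / N := by
    funext x
    rw [mul_div_assoc]
  refine ⟨?_, ?_⟩
  · rw [e]
    exact h1.div_const _
  · rw [e, tsum_div_const, h2]

private theorem R34_ind {L κ d : ℝ} (p : Fin 3 → ℤ) :
    (0 : ℝ) ≤ (if d ≤ R34_q L κ p then 1 else 0) ∧ (if d ≤ R34_q L κ p then (1 : ℝ) else 0) ≤ 1 := by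
  split_ifs <;> norm_num

private theorem R34_th {L κ d : ℝ} {θ : ℝ → ℝ} (h0 : ∀ t, 0 ≤ θ t) (h1 : ∀ t, θ t ≤ 1)
    (p : Fin 3 → ℤ) : (0 : ℝ) ≤ (if d ≤ R34_q L κ p then θ (R34_q L κ p) else 0) ∧
      (if d ≤ R34_q L κ p then θ (R34_q L κ p) else 0) ≤ 1 := by
  split_ifs
  · exact ⟨h0 _, h1 _⟩
  · exact ⟨le_rfl, zero_le_one⟩

/-- The depletion as a sum of three terms. -/
private theorem R34_split {m R₀ L κ d₀ : ℝ} {v : (Fin 3 → ℝ) → ℝ} {N : ℕ} (hN : 1 ≤ N)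
    (hL : 0 < L) (hκ : 0 < κ) (hd₀ : 0 < d₀) {θ : ℝ → ℝ} (h0 : ∀ t, 0 ≤ θ t)
    (h1 : ∀ t, θ t ≤ 1) (hθ1 : ∀ t, 0 < t → t ≤ d₀ → θ t = 1) {ψ : (Fin N → Fin 3 → ℝ) → ℂ}
    (hψ : Admissible m R₀ v N L ψ) :
    1 - condFraction N L ψ = irFraction N L κ θ ψ + momFraction N L (d₀ * κ) ψ
      - Dm (fun p => if d₀ ≤ R34_q L κ p then θ (R34_q L κ p) else 0) (TT N L ψ) / N := by
  have hT := memLp_TT hL hψ.1
  obtain ⟨s1, e1⟩ := R34_X hT R34_one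
  obtain ⟨s2, e2⟩ := R34_X hT (R34_c_mem (L := L) (κ := κ) h0 h1)
  obtain ⟨s3, e3⟩ := R34_X hT (R34_ind (L := L) (κ := κ) (d := d₀))
  obtain ⟨s4, e4⟩ := R34_X hT (R34_th (L := L) (κ := κ) (d := d₀) h0 h1)
  rw [R34_cond hN hL hψ, R34_ir hL θ hψ.1.1, R34_mom hL hκ hd₀ hψ.1.1, ← e1, ← e2, ← e3, ← e4,
    ← s2.tsum_add s3, ← (s2.add s3).tsum_sub s4]
  refine tsum_congr fun x => ?_
  rw [← add_mul, ← sub_mul]
  congr 1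
  unfold R34_c
  by_cases hp : x.2 x.1 = 0
  · rw [hp, R34_q_zero, if_pos rfl, if_pos rfl, if_neg (not_le.2 hd₀), if_neg (not_le.2 hd₀)]
    norm_num
  · rw [if_neg hp, if_neg hp]
    by_cases hd : d₀ ≤ R34_q L κ (x.2 x.1)
    · rw [if_pos hd, if_pos hd]
      ring
    · rw [if_neg hd, if_neg hd, hθ1 _ (R34_q_pos hL hκ hp) (not_le.1 hd).le]
      ring

theorem ir_compare {m R₀ L κ d₀ δ τ : ℝ} {v : (Fin 3 → ℝ) → ℝ} {N : ℕ} (hN : 1 ≤ N) (hL : 0 < L)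
    (hκ : 0 < κ) (hd₀ : 0 < d₀) {θ : ℝ → ℝ} (hθ : AntitoneOn θ (Ioi 0))
    (h0 : ∀ t, 0 ≤ θ t) (h1 : ∀ t, θ t ≤ 1) (hθ1 : ∀ t, 0 < t → t ≤ d₀ → θ t = 1)
    {ψ φ : (Fin N → Fin 3 → ℝ) → ℂ} (hψ : Admissible m R₀ v N L ψ) (hφ : Admissible m R₀ v N L φ)
    (hd : ∀ d, d₀ ≤ d → |momFraction N L (d * κ) ψ - momFraction N L (d * κ) φ| ≤ δ)
    (hi : irFraction N L κ θ ψ ≤ irFraction N L κ θ φ + τ) :
    1 - condFraction N L ψ ≤ 1 - condFraction N L φ + (τ + 3 * δ) := by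
  have hN0 : (0 : ℝ) ≤ N := Nat.cast_nonneg N
  have hTψ := memLp_TT hL hψ.1
  have hTφ := memLp_TT hL hφ.1
  -- the weights
  have hs : ∀ {χ : (Fin N → Fin 3 → ℝ) → ℂ}, MemLp (TT N L χ) 2 (piN (Fin N)) →
      Summable fun x : Fin N × (Fin N → Fin 3 → ℤ) => ‖fc (TT N L χ) x.2‖ ^ 2 / (N : ℝ) := by
    intro χ hχ
    have h2 := (R34_X hχ (c := fun _ => 1) fun p => ⟨zero_le_one, le_rfl⟩).1
    simp only [one_mul] at h2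
    exact h2
  have hi1 : ∀ {χ : (Fin N → Fin 3 → ℝ) → ℂ}, MemLp (TT N L χ) 2 (piN (Fin N)) → ∀ d : ℝ,
      (∑' x : Fin N × (Fin N → Fin 3 → ℤ), if d ≤ R34_q L κ (x.2 x.1) then
        ‖fc (TT N L χ) x.2‖ ^ 2 / (N : ℝ) else 0) =
      Dm (fun p => if d ≤ R34_q L κ p then 1 else 0) (TT N L χ) / N := by
    intro χ hχ d
    rw [← (R34_X hχ (R34_ind (L := L) (κ := κ) (d := d))).2]
    refine tsum_congr fun x => ?_
    split_ifs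
    · rw [one_mul]
    · rw [zero_mul]
  have hi2 : ∀ {χ : (Fin N → Fin 3 → ℝ) → ℂ}, MemLp (TT N L χ) 2 (piN (Fin N)) →
      (∑' x : Fin N × (Fin N → Fin 3 → ℤ), if d₀ ≤ R34_q L κ (x.2 x.1) then
        θ (R34_q L κ (x.2 x.1)) * (‖fc (TT N L χ) x.2‖ ^ 2 / (N : ℝ)) else 0) =
      Dm (fun p => if d₀ ≤ R34_q L κ p then θ (R34_q L κ p) else 0) (TT N L χ) / N := by
    intro χ hχ
    rw [← (R34_X hχ (R34_th (L := L) (κ := κ) (d := d₀) h0 h1)).2]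
    refine tsum_congr fun x => ?_
    split_ifs
    · rfl
    · rw [zero_mul]
  have key := anti_compare (X := Fin N × (Fin N → Fin 3 → ℤ))
    (w := fun x => ‖fc (TT N L φ) x.2‖ ^ 2 / (N : ℝ))
    (w' := fun x => ‖fc (TT N L ψ) x.2‖ ^ 2 / (N : ℝ))
    (fun x => by positivity) (fun x => by positivity) (hs hTφ) (hs hTψ)
    (r := fun x => R34_q L κ (x.2 x.1)) (θ := θ) (d₀ := d₀) (δ := δ)
    (hθ.mono fun t ht => hd₀.trans_le ht) h0 h1 (by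
      intro d hdd
      have hd0 : 0 < d := hd₀.trans_le hdd
      rw [hi1 hTφ, hi1 hTψ, ← R34_mom hL hκ hd0 hφ.1.1, ← R34_mom hL hκ hd0 hψ.1.1, abs_sub_comm]
      exact hd d hdd)
  rw [hi2 hTφ, hi2 hTψ] at key
  have e1 := R34_split hN hL hκ hd₀ h0 h1 hθ1 hψ
  have e2 := R34_split hN hL hκ hd₀ h0 h1 hθ1 hφ
  have h3 := (abs_le.1 (hd d₀ le_rfl)).2
  linarith

end Pool.Agent.Lib.MP_4952d6_mp.LK
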