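import Pool.Agent.Lib.MP_4952d6_mp.Pr.R34
import Pool.Agent.Lib.MP_4952d6_mp.Pq.P26

/-!
# Pr.R36 (leaf I4): the diagonal form

Model `diag`, `diag3` (Pq/P25, P26: `P25_P`, `P25_M`, `P25_ex`, `P25_below`, `P25_above`, `P25_small`). For `n : ℕ` let `s₁ n` be the number of `h` for `d₀ = ε = 1/(n+2)` and `s n = min (s₁ n) (1/(n+2))`; `h` for `s₀ = s n` gives the threshold `r n`.
For `ρ > 0`, `M = P25_M r ρ`: `γ ρ = s (M - 1)`, `δ ρ = 1/(M + 1)` (for `ρ ≤ 0` the value is arbitrary but positive, e.g. the same formula). If `M ≥ 1` put `n = M - 1 < M`, `ρ < r n` (`P25_below`), so for large `N` the law holds with the error `1/(n+2) = 1/(M+1)` for `s = s n`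
and all `θ` which are `1` on `(0, 1/(n+2)]`. Given `ε`: `1/(k+2) ≤ ε`, for `ρ < P25_small r k`: `k < M`, so `1/(M+1) ≤ 1/(k+2) ≤ ε`. `γ ρ ≤ 1/(M+1)` (for `M ≥ 1`) and `M → ∞` as `ρ → 0+`.
-/

set_option autoImplicit false
set_option linter.unusedSectionVars false
set_option linter.unusedVariables false
open MeasureTheory Function Filter Topology Set ComplexConjugate
open scoped ENNReal

namespace Pool.Agent.Lib.MP_4952d6_mp.LK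

open LA LG

/-- The diagonal form. -/
theorem ir_diag {m R₀ a : ℝ} {v : (Fin 3 → ℝ) → ℝ}
    (h : ∀ d₀ ε : ℝ, 0 < d₀ → 0 < ε → ∃ s₁ : ℝ, 0 < s₁ ∧ ∀ s₀ : ℝ, 0 < s₀ →
      Dilute fun ρ N => ∀ s : ℝ, s₀ ≤ s → s ≤ s₁ →
      ∀ θ : ℝ → ℝ, AntitoneOn θ (Ioi 0) → (∀ t, 0 ≤ θ t) → (∀ t, θ t ≤ 1) →
      (∀ t, 0 < t → t ≤ d₀ → θ t = 1) →
      (∃ ψ, IsIrGround m R₀ (s * (ρ * a / (2 * m))) (Real.sqrt (ρ * a)) θ v N (side ρ N) ψ) ∧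
      ∀ ψ, IsIrGround m R₀ (s * (ρ * a / (2 * m))) (Real.sqrt (ρ * a)) θ v N (side ρ N) ψ →
        |1 - condFraction N (side ρ N) ψ - 8 / (3 * Real.sqrt Real.pi) * Real.sqrt (ρ * a ^ 3)|
          ≤ ε * Real.sqrt (ρ * a ^ 3)) :
    ∃ γ δ : ℝ → ℝ, (∀ ρ, 0 < γ ρ) ∧ (∀ ρ, 0 < δ ρ) ∧ Tendsto γ (𝓝[>] 0) (𝓝 0) ∧
      Tendsto δ (𝓝[>] 0) (𝓝 0) ∧ ∀ ε : ℝ, 0 < ε → Dilute fun ρ N =>
      ∀ θ : ℝ → ℝ, AntitoneOn θ (Ioi 0) → (∀ t, 0 ≤ θ t) → (∀ t, θ t ≤ 1) →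
      (∀ t, 0 < t → t ≤ δ ρ → θ t = 1) →
      (∃ ψ, IsIrGround m R₀ (γ ρ * (ρ * a / (2 * m))) (Real.sqrt (ρ * a)) θ v N (side ρ N) ψ) ∧
      ∀ ψ, IsIrGround m R₀ (γ ρ * (ρ * a / (2 * m))) (Real.sqrt (ρ * a)) θ v N (side ρ N) ψ →
        |1 - condFraction N (side ρ N) ψ - 8 / (3 * Real.sqrt Real.pi) * Real.sqrt (ρ * a ^ 3)|
          ≤ ε * Real.sqrt (ρ * a ^ 3) := by
  have ht : ∀ n : ℕ, 0 < 1 / ((n : ℝ) + 2) := fun n => by positivity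
  choose s₁ hs₁ hlaw using fun n : ℕ => h (1 / ((n : ℝ) + 2)) (1 / ((n : ℝ) + 2)) (ht n) (ht n)
  obtain ⟨s, hs⟩ : ∃ s : ℕ → ℝ, s = fun n => min (s₁ n) (1 / ((n : ℝ) + 2)) := ⟨_, rfl⟩
  have hs0 : ∀ n, 0 < s n := fun n => by
    rw [hs]
    exact lt_min (hs₁ n) (ht n)
  have hs1 : ∀ n, s n ≤ s₁ n := fun n => by
    rw [hs]
    exact min_le_left _ _
  have hs2 : ∀ n, s n ≤ 1 / ((n : ℝ) + 2) := fun n => by
    rw [hs]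
    exact min_le_right _ _
  have hl : ∀ n : ℕ, Dilute fun ρ N =>
      ∀ θ : ℝ → ℝ, AntitoneOn θ (Ioi 0) → (∀ t, 0 ≤ θ t) → (∀ t, θ t ≤ 1) →
      (∀ t, 0 < t → t ≤ 1 / ((n : ℝ) + 2) → θ t = 1) →
      (∃ ψ, IsIrGround m R₀ (s n * (ρ * a / (2 * m))) (Real.sqrt (ρ * a)) θ v N (side ρ N) ψ) ∧
      ∀ ψ, IsIrGround m R₀ (s n * (ρ * a / (2 * m))) (Real.sqrt (ρ * a)) θ v N (side ρ N) ψ →
        |1 - condFraction N (side ρ N) ψ - 8 / (3 * Real.sqrt Real.pi) * Real.sqrt (ρ * a ^ 3)|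
          ≤ 1 / ((n : ℝ) + 2) * Real.sqrt (ρ * a ^ 3) := fun n =>
    (hlaw n (s n) (hs0 n)).mono fun ρ N _ hh => hh (s n) le_rfl (hs1 n)
  choose r hr hrr using hl
  have hγ0 : ∀ ρ, 0 < s (P25_M r ρ - 1) := fun ρ => hs0 _
  have hδ0 : ∀ ρ, 0 < 1 / ((P25_M r ρ : ℝ) + 1) := fun ρ => by positivity
  -- close to zero the number `M` is large
  have key : ∀ n : ℕ, ∃ δ : ℝ, 0 < δ ∧ ∀ ρ, 0 < ρ → ρ < δ → ∃ k, P25_M r ρ = k + 1 ∧ n ≤ k := by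
    intro n
    obtain ⟨δ, hδ, hδP⟩ := P25_small hr n
    refine ⟨δ, hδ, fun ρ hρ hlt => ⟨P25_M r ρ - 1, ?_, ?_⟩⟩ <;>
    · have h1 := P25_above r hρ (hδP ρ hlt)
      omega
  have hle : ∀ n k : ℕ, n ≤ k → 1 / ((k : ℝ) + 2) ≤ 1 / ((n : ℝ) + 1) := fun n k hnk => by
    refine one_div_le_one_div_of_le (by positivity) ?_
    have : (n : ℝ) ≤ k := by exact_mod_cast hnk
    linarith
  refine ⟨fun ρ => s (P25_M r ρ - 1), fun ρ => 1 / ((P25_M r ρ : ℝ) + 1), hγ0, hδ0, ?_, ?_, ?_⟩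
  · rw [Metric.tendsto_nhdsWithin_nhds]
    intro ε hε
    obtain ⟨n, hn⟩ := exists_nat_one_div_lt hε
    obtain ⟨δ, hδ, hk⟩ := key n
    refine ⟨δ, hδ, fun ρ hρ hdist => ?_⟩
    have hρ0 : 0 < ρ := hρ
    rw [Real.dist_eq, sub_zero, abs_of_pos hρ0] at hdist
    obtain ⟨k, hM, hnk⟩ := hk ρ hρ0 hdist
    rw [Real.dist_eq, sub_zero, abs_of_pos (hγ0 ρ), hM, Nat.add_sub_cancel]
    exact ((hs2 k).trans (hle n k hnk)).trans_lt hn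
  · rw [Metric.tendsto_nhdsWithin_nhds]
    intro ε hε
    obtain ⟨n, hn⟩ := exists_nat_one_div_lt hε
    obtain ⟨δ, hδ, hk⟩ := key n
    refine ⟨δ, hδ, fun ρ hρ hdist => ?_⟩
    have hρ0 : 0 < ρ := hρ
    rw [Real.dist_eq, sub_zero, abs_of_pos hρ0] at hdist
    obtain ⟨k, hM, hnk⟩ := hk ρ hρ0 hdist
    rw [Real.dist_eq, sub_zero, abs_of_pos (hδ0 ρ)]
    refine lt_of_le_of_lt ?_ hn
    refine one_div_le_one_div_of_le (by positivity) ?_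
    have : (n : ℝ) ≤ k := by exact_mod_cast hnk
    rw [hM]
    push_cast
    linarith
  · intro ε hε
    obtain ⟨n, hn⟩ := exists_nat_one_div_lt hε
    obtain ⟨δ, hδ, hk⟩ := key n
    refine ⟨δ, hδ, fun ρ hρ hlt => ?_⟩
    obtain ⟨k, hM, hnk⟩ := hk ρ hρ hlt
    have h2 : P25_P r ρ k := P25_below r (by omega)
    obtain ⟨N₁, hN₁⟩ := hrr k ρ hρ (h2 k le_rfl).1
    refine ⟨N₁, fun N hN θ hθ hθ0 hθ1 hθd => ?_⟩
    have hd : 1 / ((P25_M r ρ : ℝ) + 1) = 1 / ((k : ℝ) + 2) := by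
      rw [hM]
      push_cast
      ring
    have h3 := hN₁ N hN θ hθ hθ0 hθ1 fun t ht0 ht1 => hθd t ht0 (ht1.trans hd.ge)
    have hγk : s (P25_M r ρ - 1) = s k := by rw [hM, Nat.add_sub_cancel]
    show (∃ ψ, IsIrGround m R₀ (s (P25_M r ρ - 1) * (ρ * a / (2 * m))) (Real.sqrt (ρ * a)) θ v N
        (side ρ N) ψ) ∧
      ∀ ψ, IsIrGround m R₀ (s (P25_M r ρ - 1) * (ρ * a / (2 * m))) (Real.sqrt (ρ * a)) θ v N
        (side ρ N) ψ →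
        |1 - condFraction N (side ρ N) ψ - 8 / (3 * Real.sqrt Real.pi) * Real.sqrt (ρ * a ^ 3)|
          ≤ ε * Real.sqrt (ρ * a ^ 3)
    rw [hγk]
    exact ⟨h3.1, fun ψ hψ => (h3.2 ψ hψ).trans
      (mul_le_mul_of_nonneg_right ((hle n k hnk).trans hn.le) (Real.sqrt_nonneg _))⟩

end Pool.Agent.Lib.MP_4952d6_mp.LK
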