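import Pool.Agent.Lib.MP_4952d6_mp.Pq.P20
import Pool.Agent.Lib.MP_4952d6_mp.Pd.D08

/-!
# Pr.R38 (leaf X1): mixed states

* `mix_low`: `E j = (energy (ψ j)).toReal`, `E₀ = (energy φ₀).toReal` (all finite: third or second field of `Admissible`), `y j = (E j - E₀)/c ≥ 0` (`h₀`). `IsNear m R₀ (y j * c) v N L (ψ j)`: `energy (ψ j) = ofReal (E j) = ofReal E₀ + ofReal (E j - E₀) ≤ energy φ + ofReal (y j * c)`.
  So `lam j * (t - (ε + M y j) z) ≤ lam j * q (ψ j)`. `∑ lam j E j` is summable with sum `≤ E₀ + x c` (`ENNReal.tsum_toReal_eq`, `ENNReal.summable_toReal`: the sum in `hE` is finite), so `∑ lam j y j ≤ x`; `lam j q (ψ j)` is summable (`|q| ≤ B`).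
-/

set_option autoImplicit false
set_option linter.unusedSectionVars false
set_option linter.unusedVariables false
open MeasureTheory Function Filter Topology Set ComplexConjugate
open scoped ENNReal

namespace Pool.Agent.Lib.MP_4952d6_mp.LK

open LA O LB

open LG

private theorem R38_sum {lam : ℕ → ℝ} {e : ℕ → ℝ≥0∞} {e0 : ℝ≥0∞} {x c : ℝ} (hc : 0 < c)
    (hx : 0 ≤ x) (hl : ∀ j, 0 ≤ lam j) (hs : HasSum lam 1) (he : ∀ j, e j ≠ ⊤) (he0 : e0 ≠ ⊤)
    (hE : ∑' j, ENNReal.ofReal (lam j) * e j ≤ e0 + ENNReal.ofReal (x * c)) :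
    (Summable fun j => lam j * (((e j).toReal - e0.toReal) / c)) ∧
      ∑' j, lam j * (((e j).toReal - e0.toReal) / c) ≤ x := by
  have htop : e0 + ENNReal.ofReal (x * c) ≠ ⊤ := ENNReal.add_ne_top.2 ⟨he0, ENNReal.ofReal_ne_top⟩
  have hne : ∑' j, ENNReal.ofReal (lam j) * e j ≠ ⊤ := ne_top_of_le_ne_top htop hE
  have h1 : ∀ j, (ENNReal.ofReal (lam j) * e j).toReal = lam j * (e j).toReal := by
    intro j
    rw [ENNReal.toReal_mul, ENNReal.toReal_ofReal (hl j)]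
  have hsum : Summable fun j => lam j * (e j).toReal := by
    have h := ENNReal.summable_toReal hne
    simpa only [h1] using h
  have htot : ∑' j, lam j * (e j).toReal ≤ e0.toReal + x * c := by
    have h2 := ENNReal.toReal_mono htop hE
    rw [ENNReal.tsum_toReal_eq fun j => ENNReal.mul_ne_top ENNReal.ofReal_ne_top (he j),
      ENNReal.toReal_add he0 ENNReal.ofReal_ne_top, ENNReal.toReal_ofReal (by positivity)] at h2
    simpa only [h1] using h2
  have hh : HasSum (fun j => lam j * (((e j).toReal - e0.toReal) / c))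
      ((∑' j, lam j * (e j).toReal - 1 * e0.toReal) * c⁻¹) := by
    have h3 := (hsum.hasSum.sub (hs.mul_right e0.toReal)).mul_right c⁻¹
    have e1 : (fun j => lam j * (((e j).toReal - e0.toReal) / c)) =
        fun j => (lam j * (e j).toReal - lam j * e0.toReal) * c⁻¹ := by
      funext j
      rw [div_eq_mul_inv]
      ring
    rw [e1]
    exact h3
  refine ⟨hh.summable, ?_⟩
  rw [hh.tsum_eq, ← div_eq_mul_inv, div_le_iff₀ hc]
  linarith

private theorem R38_core {lam q y : ℕ → ℝ} {t ε M z x B : ℝ} (hl : ∀ j, 0 ≤ lam j)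
    (hs : HasSum lam 1) (hz : 0 ≤ z) (hM : 0 ≤ M) (hqB : ∀ j, |q j| ≤ B)
    (hy : Summable fun j => lam j * y j) (hyx : ∑' j, lam j * y j ≤ x)
    (hq : ∀ j, t - (ε + M * y j) * z ≤ q j) : t - (ε + M * x) * z ≤ ∑' j, lam j * q j := by
  have h1 : HasSum (fun j => lam j * (t - (ε + M * y j) * z))
      (1 * (t - ε * z) - (∑' j, lam j * y j) * (M * z)) := by
    have h := (hs.mul_right (t - ε * z)).sub (hy.hasSum.mul_right (M * z))
    have e1 : (fun j => lam j * (t - (ε + M * y j) * z)) =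
        fun j => lam j * (t - ε * z) - lam j * y j * (M * z) := by
      funext j
      ring
    rw [e1]
    exact h
  have h2 : Summable fun j => lam j * q j := by
    refine Summable.of_norm_bounded (g := fun j => lam j * B) (hs.summable.mul_right B) fun j => ?_
    rw [Real.norm_eq_abs, abs_mul, abs_of_nonneg (hl j)]
    exact mul_le_mul_of_nonneg_left (hqB j) (hl j)
  have h3 := hasSum_le (fun j => mul_le_mul_of_nonneg_left (hq j) (hl j)) h1 h2.hasSum
  have h4 := mul_le_mul_of_nonneg_right hyx (mul_nonneg hM hz)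
  linarith

/-- Averages over mixed states. -/
theorem mix_low {m R₀ L c ε M t z x B : ℝ} {v : (Fin 3 → ℝ) → ℝ} {N : ℕ} (hc : 0 < c) (hz : 0 ≤ z)
    (hM : 0 ≤ M) {φ₀ : (Fin N → Fin 3 → ℝ) → ℂ} (h₀ : IsNear m R₀ 0 v N L φ₀)
    {q : ((Fin N → Fin 3 → ℝ) → ℂ) → ℝ} (hqB : ∀ ψ, Admissible m R₀ v N L ψ → |q ψ| ≤ B)
    (hq : ∀ y : ℝ, 0 ≤ y → ∀ ψ, IsNear m R₀ (y * c) v N L ψ → t - (ε + M * y) * z ≤ q ψ)
    {lam : ℕ → ℝ} {ψ : ℕ → (Fin N → Fin 3 → ℝ) → ℂ} (hl : ∀ j, 0 ≤ lam j) (hs : HasSum lam 1)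
    (ha : ∀ j, Admissible m R₀ v N L (ψ j)) (hx : 0 ≤ x)
    (hE : ∑' j, ENNReal.ofReal (lam j) * energy m v N L (ψ j)
      ≤ energy m v N L φ₀ + ENNReal.ofReal (x * c)) :
    t - (ε + M * x) * z ≤ ∑' j, lam j * q (ψ j) := by
  have he0 : energy m v N L φ₀ ≠ ⊤ := (h₀.1.2.2.2).ne
  have he : ∀ j, energy m v N L (ψ j) ≠ ⊤ := fun j => ((ha j).2.2.2).ne
  obtain ⟨hy, hyx⟩ := R38_sum hc hx hl hs he he0 hE
  refine R38_core hl hs hz hM (fun j => hqB _ (ha j)) hy hyx fun j => ?_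
  have hle : energy m v N L φ₀ ≤ energy m v N L (ψ j) := by
    have h := h₀.2 (ψ j) (ha j)
    rwa [ENNReal.ofReal_zero, add_zero] at h
  have hle' : (energy m v N L φ₀).toReal ≤ (energy m v N L (ψ j)).toReal :=
    ENNReal.toReal_mono (he j) hle
  have hd : 0 ≤ (energy m v N L (ψ j)).toReal - (energy m v N L φ₀).toReal := by linarith
  refine hq _ (div_nonneg hd hc.le) _ ⟨ha j, fun φ hφ => ?_⟩
  rw [div_mul_cancel₀ _ hc.ne']
  have e1 : energy m v N L (ψ j) = energy m v N L φ₀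
      + ENNReal.ofReal ((energy m v N L (ψ j)).toReal - (energy m v N L φ₀).toReal) := by
    have h1 : energy m v N L φ₀ = ENNReal.ofReal (energy m v N L φ₀).toReal :=
      (ENNReal.ofReal_toReal he0).symm
    have h2 : energy m v N L (ψ j) = ENNReal.ofReal (energy m v N L (ψ j)).toReal :=
      (ENNReal.ofReal_toReal (he j)).symm
    calc energy m v N L (ψ j) = ENNReal.ofReal (energy m v N L (ψ j)).toReal := h2
      _ = ENNReal.ofReal ((energy m v N L φ₀).toReal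
          + ((energy m v N L (ψ j)).toReal - (energy m v N L φ₀).toReal)) := by
        rw [add_sub_cancel]
      _ = ENNReal.ofReal (energy m v N L φ₀).toReal
          + ENNReal.ofReal ((energy m v N L (ψ j)).toReal - (energy m v N L φ₀).toReal) :=
        ENNReal.ofReal_add ENNReal.toReal_nonneg hd
      _ = _ := by rw [← h1]
  have h3 := h₀.2 φ hφ
  rw [ENNReal.ofReal_zero, add_zero] at h3
  exact e1.le.trans (add_le_add h3 le_rfl)

/-- Averages over mixed states, two sides. -/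
theorem mix_abs {m R₀ L c ε M t z x B : ℝ} {v : (Fin 3 → ℝ) → ℝ} {N : ℕ} (hc : 0 < c) (hz : 0 ≤ z)
    (hM : 0 ≤ M) {φ₀ : (Fin N → Fin 3 → ℝ) → ℂ} (h₀ : IsNear m R₀ 0 v N L φ₀)
    {q : ((Fin N → Fin 3 → ℝ) → ℂ) → ℝ} (hqB : ∀ ψ, Admissible m R₀ v N L ψ → |q ψ| ≤ B)
    (hq : ∀ y : ℝ, 0 ≤ y → ∀ ψ, IsNear m R₀ (y * c) v N L ψ → |q ψ - t| ≤ (ε + M * y) * z)
    {lam : ℕ → ℝ} {ψ : ℕ → (Fin N → Fin 3 → ℝ) → ℂ} (hl : ∀ j, 0 ≤ lam j) (hs : HasSum lam 1)
    (ha : ∀ j, Admissible m R₀ v N L (ψ j)) (hx : 0 ≤ x)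
    (hE : ∑' j, ENNReal.ofReal (lam j) * energy m v N L (ψ j)
      ≤ energy m v N L φ₀ + ENNReal.ofReal (x * c)) :
    |(∑' j, lam j * q (ψ j)) - t| ≤ (ε + M * x) * z := by
  have h1 := mix_low (q := q) (t := t) (ε := ε) hc hz hM h₀ hqB (fun y hy ψ hψ => by
    have h := abs_le.1 (hq y hy ψ hψ)
    linarith [h.1]) hl hs ha hx hE
  have h2 := mix_low (q := fun ψ => -q ψ) (t := -t) (ε := ε) (B := B) hc hz hM h₀
    (fun ψ hψ => by
      rw [abs_neg]
      exact hqB ψ hψ) (fun y hy ψ hψ => by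
    have h := abs_le.1 (hq y hy ψ hψ)
    linarith [h.2]) hl hs ha hx hE
  have e : ∑' j, lam j * (fun ψ => -q ψ) (ψ j) = -∑' j, lam j * q (ψ j) := by
    rw [← tsum_neg]
    refine tsum_congr fun j => ?_
    ring
  rw [e] at h2
  rw [abs_le]
  constructor <;> linarith

end Pool.Agent.Lib.MP_4952d6_mp.LK
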