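import Pool.Agent.Lib.MP_4952d6_mp.Pq.P20
import Pool.Agent.Lib.MP_4952d6_mp.Pd.D08

/-!
# Pr.R39 (leaf X2): bounds

`momFraction`, `1 - condFraction`, `densityMatrix` of an admissible state are in `[0, 1]`, `[0, 1]`, `[-1, 1]` (the constant `3` is enough): `condFraction_eq` (Pk/G29), `nuQ` (Pk/G08), `parseval_sq`, `fourierC_eq` (for `momFraction`, termwise `≤ ‖fourierC‖²`, whose sum over `k` is `1`),
`densityMatrix_eq` (Pd/D07) and `0 ≤ exF ≤ 1`.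
-/

set_option autoImplicit false
set_option linter.unusedSectionVars false
set_option linter.unusedVariables false
open MeasureTheory Function Filter Topology Set ComplexConjugate
open scoped ENNReal

namespace Pool.Agent.Lib.MP_4952d6_mp.LK

open LA O LB

open LG

private lemma R39_sum {m R₀ L : ℝ} {v : (Fin 3 → ℝ) → ℝ} {N : ℕ} (hL : 0 < L)
    {ψ : (Fin N → Fin 3 → ℝ) → ℂ} (h : Admissible m R₀ v N L ψ) :
    HasSum (fun k : Fin N → Fin 3 → ℤ => ‖fourierC N L ψ k‖ ^ 2) 1 := by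
  have h5 := parseval_sq (memLp_TT hL h.1)
  rw [← norm_TT hL h.1.1, h.2.1] at h5
  have e : (fun k : Fin N → Fin 3 → ℤ => ‖fourierC N L ψ k‖ ^ 2) = fun k => ‖fc (TT N L ψ) k‖ ^ 2 := by
    funext k
    rw [fourierC_eq hL h.1.1]
  rw [e]
  exact h5

private lemma R39_avg {N : ℕ} (hN : 1 ≤ N) {κ : Type*} {c : Fin N → κ → ℝ} {f : κ → ℝ} (hf : HasSum f 1)
    (h0 : ∀ i k, 0 ≤ c i k) (h1 : ∀ i k, c i k ≤ f k) :
    0 ≤ (1 / (N : ℝ)) * ∑ i, ∑' k, c i k ∧ (1 / (N : ℝ)) * ∑ i, ∑' k, c i k ≤ 1 := by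
  have hN0 : (0 : ℝ) < N := by exact_mod_cast hN
  have hi : ∀ i, ∑' k, c i k ≤ 1 := by
    intro i
    rw [← hf.tsum_eq]
    exact Summable.tsum_le_tsum (h1 i) (Summable.of_nonneg_of_le (h0 i) (h1 i) hf.summable) hf.summable
  refine ⟨mul_nonneg (by positivity) (Finset.sum_nonneg fun i _ => tsum_nonneg (h0 i)), ?_⟩
  have h2 : ∑ i, ∑' k, c i k ≤ (N : ℝ) := by
    calc ∑ i, ∑' k, c i k ≤ ∑ _i : Fin N, (1 : ℝ) := Finset.sum_le_sum fun i _ => hi i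
      _ = N := by simp
  rw [one_div, inv_mul_le_iff₀ hN0, mul_one]
  exact h2

theorem mom_bd {m R₀ L κ : ℝ} {v : (Fin 3 → ℝ) → ℝ} {N : ℕ} (hN : 1 ≤ N) (hL : 0 < L)
    {ψ : (Fin N → Fin 3 → ℝ) → ℂ} (h : Admissible m R₀ v N L ψ) : |momFraction N L κ ψ| ≤ 3 := by
  have hs := R39_sum hL h
  have h1 := R39_avg hN (c := fun (i : Fin N) (k : Fin N → Fin 3 → ℤ) =>
    if κ ^ 2 ≤ (2 * Real.pi / L) ^ 2 * ∑ α, (k i α : ℝ) ^ 2 then ‖fourierC N L ψ k‖ ^ 2 else 0) hs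
    (fun i k => by split_ifs <;> positivity)
    (fun i k => by
      split_ifs
      · exact le_rfl
      · positivity)
  have e : momFraction N L κ ψ = (1 / (N : ℝ)) * ∑ i : Fin N, ∑' k : Fin N → Fin 3 → ℤ,
    (if κ ^ 2 ≤ (2 * Real.pi / L) ^ 2 * ∑ α, (k i α : ℝ) ^ 2 then ‖fourierC N L ψ k‖ ^ 2 else 0) := rfl
  rw [e, abs_le]
  constructor
  · linarith [h1.1]
  · linarith [h1.2]

theorem cond_bd {m R₀ L : ℝ} {v : (Fin 3 → ℝ) → ℝ} {N : ℕ} (hN : 1 ≤ N) (hL : 0 < L)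
    {ψ : (Fin N → Fin 3 → ℝ) → ℂ} (h : Admissible m R₀ v N L ψ) :
    |1 - condFraction N L ψ| ≤ 3 := by
  have hs := R39_sum hL h
  have h1 := R39_avg hN (c := fun (i : Fin N) (k : Fin N → Fin 3 → ℤ) =>
    if k i = 0 then ‖fourierC N L ψ k‖ ^ 2 else 0) hs
    (fun i k => by split_ifs <;> positivity)
    (fun i k => by
      split_ifs
      · exact le_rfl
      · positivity)
  have e : condFraction N L ψ = (1 / (N : ℝ)) * ∑ i : Fin N, ∑' k : Fin N → Fin 3 → ℤ,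
    (if k i = 0 then ‖fourierC N L ψ k‖ ^ 2 else 0) := rfl
  rw [e, abs_le]
  constructor
  · linarith [h1.1, h1.2]
  · linarith [h1.1, h1.2]

theorem dm_bd {m R₀ L : ℝ} {v : (Fin 3 → ℝ) → ℝ} {N : ℕ} (hN : 1 ≤ N) (hL : 0 < L) (y : Fin 3 → ℝ)
    {ψ : (Fin N → Fin 3 → ℝ) → ℂ} (h : Admissible m R₀ v N L ψ) : |densityMatrix N L ψ y| ≤ 3 := by
  have hs := R39_sum hL h
  have hc : ∀ (i : Fin N) (k : Fin N → Fin 3 → ℤ),
      0 ≤ (1 - Real.cos ((2 * Real.pi / L) * ∑ α, (k i α : ℝ) * y α)) / 2 ∧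
      (1 - Real.cos ((2 * Real.pi / L) * ∑ α, (k i α : ℝ) * y α)) / 2 ≤ 1 := by
    intro i k
    have h1 := Real.cos_le_one ((2 * Real.pi / L) * ∑ α, (k i α : ℝ) * y α)
    have h2 := Real.neg_one_le_cos ((2 * Real.pi / L) * ∑ α, (k i α : ℝ) * y α)
    constructor <;> linarith
  have h1 := R39_avg hN (c := fun (i : Fin N) (k : Fin N → Fin 3 → ℤ) =>
    (1 - Real.cos ((2 * Real.pi / L) * ∑ α, (k i α : ℝ) * y α)) / 2 * ‖fourierC N L ψ k‖ ^ 2) hs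
    (fun i k => mul_nonneg (hc i k).1 (sq_nonneg _))
    (fun i k => mul_le_of_le_one_left (sq_nonneg _) (hc i k).2)
  have e : exF N L y ψ = (1 / (N : ℝ)) * ∑ i : Fin N, ∑' k : Fin N → Fin 3 → ℤ,
    (1 - Real.cos ((2 * Real.pi / L) * ∑ α, (k i α : ℝ) * y α)) / 2 * ‖fourierC N L ψ k‖ ^ 2 := rfl
  rw [densityMatrix_eq hN hL y h.1 h.2.1, e, abs_le]
  constructor
  · linarith [h1.1, h1.2]
  · linarith [h1.1, h1.2]

end Pool.Agent.Lib.MP_4952d6_mp.LK
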