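import Pool.Agent.Lib.MP_4952d6_mp.Pr.R26
import Pool.Agent.Lib.MP_4952d6_mp.Pr.R28

/-!
# Pr.R40 (leaf T9): few particles with intermediate momenta in all states of low energy

`d₁ = √(ε/12)`. Given `d₀ ≤ d₁`: `near_transfer` (R28) gives `θ, cw`; `nm_og` (R26) with `b = 1/(2 d₀²)`, error `1` gives `ηT, c, uT`; then exactly as R29 (transfer with `ηT/2`, `η = ηT/(16π)`, `δ = 1/10`, `ρ₁ = min 1 (uT ^ 320) / a ^ 3`, `O.F4_root`, `O.F4_ratio`, `O.F4_mom` with the thresholds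
`δ' = δ √(a/a')` and `d' = d₀ √(a/a')`, `a'` = the length of the transfer, `a ≤ 2 a'`): the difference is `(1/N) Dm (ind δ' l - ind d' l) (TT ψ)`, and for `x = l² ksq p ∈ [δ'², d'²)`: `b x ≤ b d'² = (a/a')/2 ≤ 1`, so `1 - exp (-(b x)) ≥ b x / 2 ≥ b δ'²/2`, hence
`ind δ' l p - ind d' l p ≤ (2/(b δ'²)) (1 - exp (-(b l² ksq p)))` (both sides are `≥ 0`; the left side is `0` for other `x`). `Dm_mono`, `Dm_smul`, `Dm_add` (Pd/D05): `≤ (4 d₀²/δ²) Db (b l²) (TT ψ) / N ≤ (4 d₀²/δ²) (Fb b + 1) Y ≤ (12 d₀²/δ²) Y ≤ (ε/δ²) Z` (`Fb_le_two`, `Y = √(ρ a'³) ≤ Z`).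
-/

set_option autoImplicit false
set_option linter.unusedSectionVars false
set_option linter.unusedVariables false
open MeasureTheory Function Filter Topology Set ComplexConjugate
open scoped ENNReal

namespace Pool.Agent.Lib.MP_4952d6_mp.LK

open LA O LB

open LG

/-- The comparison of the weights. -/
private lemma R40_weight {b δ' d' l : ℝ} (hb : 0 < b) (hδ : 0 < δ') (hδd : δ' ≤ d') (hbd : b * d' ^ 2 ≤ 1)
    (p : Fin 3 → ℤ) :
    ind δ' l p ≤ ind d' l p + 2 / (b * δ' ^ 2) * (1 - Real.exp (-(b * l ^ 2 * ksq p))) := by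
  have hx : 0 ≤ l ^ 2 * ksq p := mul_nonneg (sq_nonneg _) (ksq_nonneg p)
  have hbx : 0 ≤ b * l ^ 2 * ksq p := by
    have := mul_nonneg hb.le hx
    linarith [mul_assoc b (l ^ 2) (ksq p)]
  have he : 0 ≤ 1 - Real.exp (-(b * l ^ 2 * ksq p)) := by
    have : Real.exp (-(b * l ^ 2 * ksq p)) ≤ 1 := by
      rw [Real.exp_le_one_iff]
      linarith
    linarith
  have hc : 0 < 2 / (b * δ' ^ 2) := by positivity
  have hce := mul_nonneg hc.le he
  unfold ind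
  by_cases h1 : d' ^ 2 ≤ l ^ 2 * ksq p
  · have h2 : δ' ^ 2 ≤ l ^ 2 * ksq p := (pow_le_pow_left₀ hδ.le hδd 2).trans h1
    rw [if_pos h1, if_pos h2]
    linarith
  · rw [if_neg h1]
    by_cases h2 : δ' ^ 2 ≤ l ^ 2 * ksq p
    · rw [if_pos h2, zero_add]
      push Not at h1
      have h3 : b * l ^ 2 * ksq p ≤ 1 := by
        have := mul_le_mul_of_nonneg_left h1.le hb.le
        linarith [mul_assoc b (l ^ 2) (ksq p)]
      have h4 := min_le_exp hbx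
      rw [min_eq_left h3] at h4
      have h5 : b * δ' ^ 2 ≤ b * l ^ 2 * ksq p := by
        have := mul_le_mul_of_nonneg_left h2 hb.le
        linarith [mul_assoc b (l ^ 2) (ksq p)]
      have h6 : b * δ' ^ 2 / 2 ≤ 1 - Real.exp (-(b * l ^ 2 * ksq p)) := by linarith
      calc (1 : ℝ) = 2 / (b * δ' ^ 2) * (b * δ' ^ 2 / 2) := by field_simp
        _ ≤ _ := mul_le_mul_of_nonneg_left h6 hc.le
    · rw [if_neg h2]
      linarith

/-- Few particles with intermediate momenta. -/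
theorem nmd_mid {m R₀ R : ℝ} {v : (Fin 3 → ℝ) → ℝ} (h : Phys m R₀ R v) {a : ℝ}
    (ha : a = scatLen m R₀ v) {ε : ℝ} (hε : 0 < ε) :
    ∃ d₁ : ℝ, 0 < d₁ ∧ ∀ d₀ : ℝ, 0 < d₀ → d₀ ≤ d₁ →
      ∃ η : ℝ, 0 < η ∧ Dilute fun ρ N => ∀ ψ : (Fin N → Fin 3 → ℝ) → ℂ,
      Admissible m R₀ v N (side ρ N) ψ →
      energy m v N (side ρ N) ψ ≤ ENNReal.ofReal (N * (2 * Real.pi / m * ρ * a
        * (1 + (Jf 0 / (4 * Real.pi) + η) * Real.sqrt (ρ * a ^ 3)))) →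
      ∀ δ : ℝ, 0 < δ → δ ≤ d₀ →
        momFraction N (side ρ N) (δ * Real.sqrt (ρ * a)) ψ
          - momFraction N (side ρ N) (d₀ * Real.sqrt (ρ * a)) ψ
          ≤ ε / δ ^ 2 * Real.sqrt (ρ * a ^ 3) := by
  have hpi := Real.pi_pos
  subst ha
  obtain ⟨hA0, θ, cw, hcw, htr⟩ := near_transfer h
  refine ⟨Real.sqrt (ε / 12), Real.sqrt_pos.2 (by positivity), fun d₀ hd₀ hd₁ => ?_⟩
  have hd₀2 : 12 * d₀ ^ 2 ≤ ε := by
    have h1 : d₀ ^ 2 ≤ Real.sqrt (ε / 12) ^ 2 := pow_le_pow_left₀ hd₀.le hd₁ 2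
    rw [Real.sq_sqrt (by positivity)] at h1
    linarith
  have hb : 0 < 1 / (2 * d₀ ^ 2) := by positivity
  obtain ⟨ηT, c, uT, hηT, hc, huT, hT⟩ := nm_og θ cw hcw hb one_pos
  refine ⟨ηT / (16 * Real.pi), by positivity, ?_⟩
  set A : ℝ := scatLen m R₀ v with hA
  have hm0 : 0 < min (1 : ℝ) (uT ^ 320) := lt_min one_pos (by positivity)
  refine ⟨min 1 (uT ^ 320) / A ^ 3, by positivity, fun ρ hρ hρ1 => ?_⟩
  rw [lt_div_iff₀ (by positivity)] at hρ1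
  have hle1 : ρ * A ^ 3 ≤ 1 := hρ1.le.trans (min_le_left _ _)
  have hlt2 : ρ * A ^ 3 < uT ^ 320 := hρ1.trans_le (min_le_right _ _)
  have hYA := Y_pos hρ hA0
  obtain ⟨a, ha, haA, haA', hsd⟩ := htr c (ηT / 2) (1 / 10) ρ hc (half_pos hηT) (by norm_num) le_rfl hρ hle1
  obtain ⟨hr1, hr2, hr3⟩ := F4_ratio hρ ha haA (by norm_num) (by norm_num) haA'
  have hY := Y_pos hρ ha
  have hY2 := Y_sq hρ ha
  obtain ⟨u, hu0, hu⟩ := F4_root hY
  have hult : u < uT := by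
    have h1 : u ^ 160 < uT ^ 160 := by
      rw [hu]
      refine hr2.trans_lt ?_
      rw [Real.sqrt_lt' (by positivity)]
      calc ρ * A ^ 3 < uT ^ 320 := hlt2
        _ = (uT ^ 160) ^ 2 := by ring
    exact lt_of_pow_lt_pow_left₀ 160 huT.le h1
  obtain ⟨aT, haT, hT'⟩ := hT u hu0 hult
  obtain ⟨N₁, hN₁, hsd'⟩ := hsd aT haT
  refine ⟨N₁, fun N hN ψ hψ hEψ δ hδ0 hδd => ?_⟩
  obtain ⟨hL, hLa, ⟨W, f, Q, w, hreg⟩, hall⟩ := hsd' N hN
  obtain ⟨hadm, hEn⟩ := hall ψ hψ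
  have hE := hEn (ηT / (16 * Real.pi)) (by positivity) hEψ
  have hN1 : 1 ≤ N := hN₁.trans hN
  have hN0 : (0 : ℝ) < N := by exact_mod_cast hN1
  have hL3 := side_cube hρ hN1
  set YA : ℝ := Real.sqrt (ρ * A ^ 3) with hYAd
  set Y : ℝ := Real.sqrt (ρ * a ^ 3) with hYd
  set L : ℝ := side ρ N with hLdef
  have e8 : Jf 0 + ηT / 2 + 8 * Real.pi * (ηT / (16 * Real.pi)) = Jf 0 + ηT := by
    field_simp
    ring
  rw [e8] at hE
  rw [← hu] at hE hreg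
  have hfin := hT' N W f Q w _ _ _ _ _ hLa hreg hadm hE
  -- the thresholds
  have hAa : 1 ≤ A / a := by rwa [one_le_div ha]
  have hAa2 : A / a ≤ 2 := by
    rw [div_le_iff₀ ha]
    linarith
  have hsq1 : 1 ≤ Real.sqrt (A / a) := Real.one_le_sqrt.2 hAa
  have hsq0 : 0 < Real.sqrt (A / a) := by linarith
  have hsq2 : Real.sqrt (A / a) ^ 2 = A / a := Real.sq_sqrt (by positivity)
  have hs : 0 < ρ * a := by positivity
  have e1 : ∀ d : ℝ, ρ * a * (d * Real.sqrt (A / a)) ^ 2 = (d * Real.sqrt (ρ * A)) ^ 2 := by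
    intro d
    rw [mul_pow, mul_pow, hsq2, Real.sq_sqrt (by positivity)]
    field_simp
  have e2 : ρ * a * (a / L / u ^ 160) ^ 2 = 1 / L ^ 2 := by
    rw [hu, div_pow, hY2]
    field_simp
  rw [F4_mom hL hs (e1 δ) e2 hψ.1.1, F4_mom hL hs (e1 d₀) e2 hψ.1.1]
  set δ' : ℝ := δ * Real.sqrt (A / a) with hδ'
  set d' : ℝ := d₀ * Real.sqrt (A / a) with hd'
  set b : ℝ := 1 / (2 * d₀ ^ 2) with hbdef
  set l : ℝ := a / L / u ^ 160 with hldef
  have hδ'0 : 0 < δ' := mul_pos hδ0 hsq0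
  have hδ'd : δ' ≤ d' := mul_le_mul_of_nonneg_right hδd hsq0.le
  have hδδ' : δ ≤ δ' := le_mul_of_one_le_right hδ0.le hsq1
  have hbd : b * d' ^ 2 ≤ 1 := by
    have h1 : b * d' ^ 2 = A / a / 2 := by
      rw [hbdef, hd', mul_pow, hsq2]
      field_simp
    rw [h1]
    linarith
  have hφ := hadm.1
  have hcpos : 0 < 2 / (b * δ' ^ 2) := by positivity
  -- bounds of the multipliers
  have hind : ∀ (d : ℝ) (p : Fin 3 → ℤ), |ind d l p| ≤ 1 := by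
    intro d p
    unfold ind
    split_ifs <;> simp
  have hexp : ∀ p : Fin 3 → ℤ, |1 - Real.exp (-(b * l ^ 2 * ksq p))| ≤ 1 := by
    intro p
    have h1 : 0 ≤ b * l ^ 2 * ksq p := mul_nonneg (mul_nonneg hb.le (sq_nonneg _)) (ksq_nonneg p)
    have h2 : Real.exp (-(b * l ^ 2 * ksq p)) ≤ 1 := by
      rw [Real.exp_le_one_iff]
      linarith
    have h3 := Real.exp_pos (-(b * l ^ 2 * ksq p))
    rw [abs_le]
    constructor <;> linarith
  have hexp2 : ∀ p : Fin 3 → ℤ, |2 / (b * δ' ^ 2) * (1 - Real.exp (-(b * l ^ 2 * ksq p)))| ≤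
      2 / (b * δ' ^ 2) := by
    intro p
    rw [abs_mul, abs_of_pos hcpos]
    calc _ ≤ 2 / (b * δ' ^ 2) * 1 := mul_le_mul_of_nonneg_left (hexp p) hcpos.le
      _ = _ := mul_one _
  have hD : Dm (ind δ' l) (TT N L ψ) ≤ Dm (ind d' l) (TT N L ψ) +
      2 / (b * δ' ^ 2) * Db (b * l ^ 2) (TT N L ψ) := by
    have h1 := Dm_mono hφ (φ := ind δ' l)
      (φ' := fun p => ind d' l p + 2 / (b * δ' ^ 2) * (1 - Real.exp (-(b * l ^ 2 * ksq p))))
      (C := 1 + 2 / (b * δ' ^ 2)) (fun p => R40_weight hb hδ'0 hδ'd hbd p)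
      (fun p => (hind _ p).trans (by linarith))
      (fun p => (abs_add_le _ _).trans (add_le_add (hind _ p) (hexp2 p)))
    have h2 := Dm_add hφ (φ := ind d' l)
      (φ' := fun p => 2 / (b * δ' ^ 2) * (1 - Real.exp (-(b * l ^ 2 * ksq p))))
      (C := 1 + 2 / (b * δ' ^ 2)) (fun p => (hind _ p).trans (by linarith))
      (fun p => (hexp2 p).trans (by linarith))
    rw [h2, Dm_smul] at h1
    exact h1
  have hDb : Db (b * l ^ 2) (TT N L ψ) ≤ 3 * (N * Y) := by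
    have h1 := (abs_le.1 hfin).2
    have h2 := Fb_le_two hb.le
    have h3 : Db (b * l ^ 2) (TT N L ψ) / (N * Y) ≤ 3 := by
      rw [← hu]
      linarith
    rwa [div_le_iff₀ (by positivity)] at h3
  have hfin3 : Dm (ind δ' l) (TT N L ψ) / N - Dm (ind d' l) (TT N L ψ) / N ≤
      2 / (b * δ' ^ 2) * (3 * Y) := by
    rw [← sub_div, div_le_iff₀ hN0]
    have h1 := mul_le_mul_of_nonneg_left hDb hcpos.le
    calc _ ≤ 2 / (b * δ' ^ 2) * Db (b * l ^ 2) (TT N L ψ) := by linarith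
      _ ≤ _ := h1
      _ = _ := by ring
  refine hfin3.trans ?_
  have h1 : 2 / (b * δ' ^ 2) * (3 * Y) = 12 * d₀ ^ 2 / δ' ^ 2 * Y := by
    rw [hbdef]
    field_simp
    ring
  rw [h1]
  have h2 : 12 * d₀ ^ 2 / δ' ^ 2 ≤ ε / δ ^ 2 :=
    div_le_div₀ hε.le hd₀2 (by positivity) (pow_le_pow_left₀ hδ0.le hδδ' 2)
  exact mul_le_mul h2 hr2 hY.le (by positivity)

end Pool.Agent.Lib.MP_4952d6_mp.LK
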