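import Pool.Agent.Lib.MP_4952d6_mp.Pr.R34

/-!
# Pr.R41 (leaf I5): comparison with a small interval

As `ir_compare` (R34), but `θ = 1` only on `(0, δ₁]`, and the thresholds are controlled for `d ≥ d₀`. If `d₀ ≤ δ₁`: `ir_compare` and `0 ≤ μ` (`min δ₁ d₀ = d₀`). If `δ₁ < d₀`: with `w x = ‖fc (TT N L ψ) x.2‖²/N`, `r x`:
`1 - cf = irFraction + ∑ (δ₁ ≤ r < d₀) (1 - θ) w + momFraction (d₀ κ) - ∑ (r ≥ d₀) θ w`; the second sum is `≥ 0` for `φ` and `≤ momFraction (δ₁ κ) - momFraction (d₀ κ) ≤ μ` for `ψ`; `anti_compare` (R33) for the last one with `d₀`. (Copy `R34_q`, `R34_split`, .. with the name `R41_`.)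
-/

set_option autoImplicit false
set_option linter.unusedSectionVars false
set_option linter.unusedVariables false
open MeasureTheory Function Filter Topology Set ComplexConjugate
open scoped ENNReal

namespace Pool.Agent.Lib.MP_4952d6_mp.LK

open LA O LB

open LG

private noncomputable def R41_q (L κ : ℝ) (p : Fin 3 → ℤ) : ℝ :=
  2 * Real.pi / L * Real.sqrt (∑ α, (p α : ℝ) ^ 2) / κ

private noncomputable def R41_c (L κ : ℝ) (θ : ℝ → ℝ) (p : Fin 3 → ℤ) : ℝ :=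
  if p = 0 then 0 else θ (R41_q L κ p)

private theorem R41_c_mem {L κ : ℝ} {θ : ℝ → ℝ} (h0 : ∀ t, 0 ≤ θ t) (h1 : ∀ t, θ t ≤ 1)
    (p : Fin 3 → ℤ) : 0 ≤ R41_c L κ θ p ∧ R41_c L κ θ p ≤ 1 := by
  unfold R41_c
  split_ifs
  · exact ⟨le_rfl, zero_le_one⟩
  · exact ⟨h0 _, h1 _⟩

private theorem R41_abs {x : ℝ} (h : 0 ≤ x ∧ x ≤ 1) : |x| ≤ 1 := by
  rw [abs_of_nonneg h.1]
  exact h.2

private theorem R41_ir {L κ : ℝ} {N : ℕ} (hL : 0 < L) (θ : ℝ → ℝ)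
    {ψ : (Fin N → Fin 3 → ℝ) → ℂ}
    (hψ : AEStronglyMeasurable ψ (volume.restrict (box N L))) :
    irFraction N L κ θ ψ = Dm (R41_c L κ θ) (TT N L ψ) / N := by
  unfold irFraction Dm
  rw [one_div, inv_mul_eq_div]
  congr 1
  refine Finset.sum_congr rfl fun j _ => tsum_congr fun k => ?_
  rw [fourierC_eq hL hψ]
  unfold R41_c
  by_cases h : k j = 0
  · rw [if_pos h, if_pos h, zero_mul]
  · rw [if_neg h, if_neg h]
    rfl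

private theorem R41_cond {m R₀ L : ℝ} {v : (Fin 3 → ℝ) → ℝ} {N : ℕ} (hN : 1 ≤ N) (hL : 0 < L)
    {ψ : (Fin N → Fin 3 → ℝ) → ℂ} (hψ : Admissible m R₀ v N L ψ) :
    1 - condFraction N L ψ = Dm (fun p => if p = 0 then 0 else 1) (TT N L ψ) / N := by
  rw [condFraction_eq hN hL hψ, sub_sub_cancel]
  unfold Dm nuQ
  congr 1
  refine Finset.sum_congr rfl fun j _ => tsum_congr fun k => ?_
  beta_reduce
  by_cases h : k j = 0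
  · rw [if_neg (not_not.2 h), if_pos h, zero_mul]
  · rw [if_pos h, if_neg h, one_mul]

private theorem R41_one (p : Fin 3 → ℤ) :
    (0 : ℝ) ≤ (if p = 0 then 0 else 1) ∧ (if p = 0 then (0 : ℝ) else 1) ≤ 1 := by
  split_ifs <;> norm_num

private theorem R41_q_zero {L κ : ℝ} : R41_q L κ 0 = 0 := by
  unfold R41_q
  simp

private theorem R41_q_pos {L κ : ℝ} (hL : 0 < L) (hκ : 0 < κ) {p : Fin 3 → ℤ} (hp : p ≠ 0) :
    0 < R41_q L κ p := by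
  have h1 : 0 < ∑ α, (p α : ℝ) ^ 2 := by
    obtain ⟨α, hα⟩ := Function.ne_iff.1 hp
    refine Finset.sum_pos' (fun β _ => sq_nonneg _) ⟨α, Finset.mem_univ _, ?_⟩
    have h2 : (p α : ℝ) ≠ 0 := by exact_mod_cast hα
    positivity
  have h2 := Real.sqrt_pos.2 h1
  unfold R41_q
  have := Real.pi_pos
  positivity

private theorem R41_thr {L κ d : ℝ} (hL : 0 < L) (hκ : 0 < κ) (hd : 0 < d) (p : Fin 3 → ℤ) :
    (d * κ) ^ 2 ≤ (2 * Real.pi / L) ^ 2 * ∑ α, (p α : ℝ) ^ 2 ↔ d ≤ R41_q L κ p := by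
  have h0 : 0 ≤ ∑ α, (p α : ℝ) ^ 2 := Finset.sum_nonneg fun α _ => sq_nonneg _
  have h1 : (2 * Real.pi / L) ^ 2 * ∑ α, (p α : ℝ) ^ 2 =
      (2 * Real.pi / L * Real.sqrt (∑ α, (p α : ℝ) ^ 2)) ^ 2 := by
    rw [mul_pow, Real.sq_sqrt h0]
  have h2 : 0 ≤ 2 * Real.pi / L * Real.sqrt (∑ α, (p α : ℝ) ^ 2) := by
    have := Real.pi_pos
    positivity
  unfold R41_q
  rw [h1, le_div_iff₀ hκ, sq_le_sq₀ (by positivity) h2]

private theorem R41_mom {L κ d : ℝ} {N : ℕ} (hL : 0 < L) (hκ : 0 < κ) (hd : 0 < d)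
    {ψ : (Fin N → Fin 3 → ℝ) → ℂ}
    (hψ : AEStronglyMeasurable ψ (volume.restrict (box N L))) :
    momFraction N L (d * κ) ψ = Dm (fun p => if d ≤ R41_q L κ p then 1 else 0) (TT N L ψ) / N := by
  unfold momFraction Dm
  rw [one_div, inv_mul_eq_div]
  congr 1
  refine Finset.sum_congr rfl fun j _ => tsum_congr fun k => ?_
  rw [fourierC_eq hL hψ]
  beta_reduce
  by_cases h : d ≤ R41_q L κ (k j)
  · rw [if_pos h, if_pos ((R41_thr hL hκ hd _).2 h), one_mul]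
  · rw [if_neg h, if_neg fun h3 => h ((R41_thr hL hκ hd _).1 h3), zero_mul]

private theorem R41_X {N : ℕ} {f : (Fin N → T3) → ℂ} (hf : MemLp f 2 (piN (Fin N)))
    {c : (Fin 3 → ℤ) → ℝ} (hc : ∀ p, 0 ≤ c p ∧ c p ≤ 1) :
    (Summable fun x : Fin N × (Fin N → Fin 3 → ℤ) => c (x.2 x.1) * (‖fc f x.2‖ ^ 2 / N)) ∧
    ∑' x : Fin N × (Fin N → Fin 3 → ℤ), c (x.2 x.1) * (‖fc f x.2‖ ^ 2 / N) = Dm c f / N := by
  obtain ⟨h1, h2⟩ := F3_bdd_summable hf (φ := c) (C := 1) fun p => R41_abs (hc p)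
  have e : (fun x : Fin N × (Fin N → Fin 3 → ℤ) => c (x.2 x.1) * (‖fc f x.2‖ ^ 2 / N)) =
      fun x => c (x.2 x.1) * ‖fc f x.2‖ ^ 2 / N := by
    funext x
    rw [mul_div_assoc]
  refine ⟨?_, ?_⟩
  · rw [e]
    exact h1.div_const _
  · rw [e, tsum_div_const, h2]

private theorem R41_ind {L κ d : ℝ} (p : Fin 3 → ℤ) :
    (0 : ℝ) ≤ (if d ≤ R41_q L κ p then 1 else 0) ∧ (if d ≤ R41_q L κ p then (1 : ℝ) else 0) ≤ 1 := by
  split_ifs <;> norm_num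

private theorem R41_th {L κ d : ℝ} {θ : ℝ → ℝ} (h0 : ∀ t, 0 ≤ θ t) (h1 : ∀ t, θ t ≤ 1)
    (p : Fin 3 → ℤ) : (0 : ℝ) ≤ (if d ≤ R41_q L κ p then θ (R41_q L κ p) else 0) ∧
      (if d ≤ R41_q L κ p then θ (R41_q L κ p) else 0) ≤ 1 := by
  split_ifs
  · exact ⟨h0 _, h1 _⟩
  · exact ⟨le_rfl, zero_le_one⟩

private theorem R41_le {N : ℕ} {f : (Fin N → T3) → ℂ} (hf : MemLp f 2 (piN (Fin N)))
    {c₁ c₂ c₃ c₄ : (Fin 3 → ℤ) → ℝ} (h₁ : ∀ p, 0 ≤ c₁ p ∧ c₁ p ≤ 1) (h₂ : ∀ p, 0 ≤ c₂ p ∧ c₂ p ≤ 1)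
    (h₃ : ∀ p, 0 ≤ c₃ p ∧ c₃ p ≤ 1) (h₄ : ∀ p, 0 ≤ c₄ p ∧ c₄ p ≤ 1)
    (h : ∀ p, c₁ p + c₂ p ≤ c₃ p + c₄ p) :
    Dm c₁ f / N + Dm c₂ f / N ≤ Dm c₃ f / N + Dm c₄ f / N := by
  obtain ⟨s1, e1⟩ := R41_X hf h₁
  obtain ⟨s2, e2⟩ := R41_X hf h₂
  obtain ⟨s3, e3⟩ := R41_X hf h₃
  obtain ⟨s4, e4⟩ := R41_X hf h₄
  rw [← e1, ← e2, ← e3, ← e4, ← s1.tsum_add s2, ← s3.tsum_add s4]
  refine Summable.tsum_le_tsum (fun x => ?_) (s1.add s2) (s3.add s4)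
  rw [← add_mul, ← add_mul]
  exact mul_le_mul_of_nonneg_right (h _) (by positivity)

/-- The depletion from above. -/
private theorem R41_upper {m R₀ L κ d₀ δ₁ : ℝ} {v : (Fin 3 → ℝ) → ℝ} {N : ℕ} (hN : 1 ≤ N)
    (hL : 0 < L) (hκ : 0 < κ) (hδ₁ : 0 < δ₁) (hd : δ₁ ≤ d₀) {θ : ℝ → ℝ} (h0 : ∀ t, 0 ≤ θ t)
    (h1 : ∀ t, θ t ≤ 1) (hθ1 : ∀ t, 0 < t → t ≤ δ₁ → θ t = 1) {ψ : (Fin N → Fin 3 → ℝ) → ℂ}
    (hψ : Admissible m R₀ v N L ψ) :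
    (1 - condFraction N L ψ) +
      Dm (fun p => if d₀ ≤ R41_q L κ p then θ (R41_q L κ p) else 0) (TT N L ψ) / N ≤
      irFraction N L κ θ ψ + momFraction N L (δ₁ * κ) ψ := by
  rw [R41_cond hN hL hψ, R41_ir hL θ hψ.1.1, R41_mom hL hκ hδ₁ hψ.1.1]
  refine R41_le (memLp_TT hL hψ.1) R41_one (R41_th h0 h1) (R41_c_mem h0 h1) R41_ind fun p => ?_
  unfold R41_c
  by_cases hp : p = 0
  · have hd₀ : 0 < d₀ := hδ₁.trans_le hd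
    rw [hp, R41_q_zero, if_pos rfl, if_pos rfl, if_neg (not_le.2 hd₀), if_neg (not_le.2 hδ₁)]
  · rw [if_neg hp, if_neg hp]
    by_cases h2 : d₀ ≤ R41_q L κ p
    · rw [if_pos h2, if_pos (hd.trans h2)]
      exact le_of_eq (add_comm _ _)
    · rw [if_neg h2]
      by_cases h3 : δ₁ ≤ R41_q L κ p
      · rw [if_pos h3]
        have := h0 (R41_q L κ p)
        linarith
      · rw [if_neg h3, hθ1 _ (R41_q_pos hL hκ hp) (not_le.1 h3).le]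

/-- The depletion from below. -/
private theorem R41_lower {m R₀ L κ d₀ : ℝ} {v : (Fin 3 → ℝ) → ℝ} {N : ℕ} (hN : 1 ≤ N)
    (hL : 0 < L) (hκ : 0 < κ) (hd₀ : 0 < d₀) {θ : ℝ → ℝ} (h0 : ∀ t, 0 ≤ θ t)
    (h1 : ∀ t, θ t ≤ 1) {ψ : (Fin N → Fin 3 → ℝ) → ℂ}
    (hψ : Admissible m R₀ v N L ψ) :
    irFraction N L κ θ ψ + momFraction N L (d₀ * κ) ψ ≤ (1 - condFraction N L ψ) +
      Dm (fun p => if d₀ ≤ R41_q L κ p then θ (R41_q L κ p) else 0) (TT N L ψ) / N := by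
  rw [R41_cond hN hL hψ, R41_ir hL θ hψ.1.1, R41_mom hL hκ hd₀ hψ.1.1]
  refine R41_le (memLp_TT hL hψ.1) (R41_c_mem h0 h1) R41_ind R41_one (R41_th h0 h1) fun p => ?_
  unfold R41_c
  by_cases hp : p = 0
  · rw [hp, R41_q_zero, if_pos rfl, if_pos rfl, if_neg (not_le.2 hd₀), if_neg (not_le.2 hd₀)]
  · rw [if_neg hp, if_neg hp]
    by_cases h2 : d₀ ≤ R41_q L κ p
    · rw [if_pos h2, if_pos h2]
      exact le_of_eq (add_comm _ _)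
    · rw [if_neg h2, if_neg h2]
      have := h1 (R41_q L κ p)
      linarith

theorem ir_compare2 {m R₀ L κ d₀ δ₁ δ τ μ : ℝ} {v : (Fin 3 → ℝ) → ℝ} {N : ℕ} (hN : 1 ≤ N)
    (hL : 0 < L) (hκ : 0 < κ) (hd₀ : 0 < d₀) (hδ₁ : 0 < δ₁) {θ : ℝ → ℝ} (hθ : AntitoneOn θ (Ioi 0))
    (h0 : ∀ t, 0 ≤ θ t) (h1 : ∀ t, θ t ≤ 1) (hθ1 : ∀ t, 0 < t → t ≤ δ₁ → θ t = 1)
    {ψ φ : (Fin N → Fin 3 → ℝ) → ℂ} (hψ : Admissible m R₀ v N L ψ) (hφ : Admissible m R₀ v N L φ)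
    (hd : ∀ d, d₀ ≤ d → |momFraction N L (d * κ) ψ - momFraction N L (d * κ) φ| ≤ δ)
    (hμ : momFraction N L (min δ₁ d₀ * κ) ψ - momFraction N L (d₀ * κ) ψ ≤ μ)
    (hi : irFraction N L κ θ ψ ≤ irFraction N L κ θ φ + τ) :
    1 - condFraction N L ψ ≤ 1 - condFraction N L φ + (τ + 3 * δ + μ) := by
  rcases le_or_gt d₀ δ₁ with hc | hc
  · have h := ir_compare hN hL hκ hd₀ hθ h0 h1 (fun t ht htd => hθ1 t ht (htd.trans hc)) hψ hφ hd hi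
    rw [min_eq_right hc, sub_self] at hμ
    linarith
  rw [min_eq_left hc.le] at hμ
  have hN0 : (0 : ℝ) ≤ N := Nat.cast_nonneg N
  have hTψ := memLp_TT hL hψ.1
  have hTφ := memLp_TT hL hφ.1
  -- the weights
  have hs : ∀ {χ : (Fin N → Fin 3 → ℝ) → ℂ}, MemLp (TT N L χ) 2 (piN (Fin N)) →
      Summable fun x : Fin N × (Fin N → Fin 3 → ℤ) => ‖fc (TT N L χ) x.2‖ ^ 2 / (N : ℝ) := by
    intro χ hχ
    have h2 := (R41_X hχ (c := fun _ => 1) fun p => ⟨zero_le_one, le_rfl⟩).1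
    simp only [one_mul] at h2
    exact h2
  have hi1 : ∀ {χ : (Fin N → Fin 3 → ℝ) → ℂ}, MemLp (TT N L χ) 2 (piN (Fin N)) → ∀ d : ℝ,
      (∑' x : Fin N × (Fin N → Fin 3 → ℤ), if d ≤ R41_q L κ (x.2 x.1) then
        ‖fc (TT N L χ) x.2‖ ^ 2 / (N : ℝ) else 0) =
      Dm (fun p => if d ≤ R41_q L κ p then 1 else 0) (TT N L χ) / N := by
    intro χ hχ d
    rw [← (R41_X hχ (R41_ind (L := L) (κ := κ) (d := d))).2]
    refine tsum_congr fun x => ?_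
    split_ifs
    · rw [one_mul]
    · rw [zero_mul]
  have hi2 : ∀ {χ : (Fin N → Fin 3 → ℝ) → ℂ}, MemLp (TT N L χ) 2 (piN (Fin N)) →
      (∑' x : Fin N × (Fin N → Fin 3 → ℤ), if d₀ ≤ R41_q L κ (x.2 x.1) then
        θ (R41_q L κ (x.2 x.1)) * (‖fc (TT N L χ) x.2‖ ^ 2 / (N : ℝ)) else 0) =
      Dm (fun p => if d₀ ≤ R41_q L κ p then θ (R41_q L κ p) else 0) (TT N L χ) / N := by
    intro χ hχ
    rw [← (R41_X hχ (R41_th (L := L) (κ := κ) (d := d₀) h0 h1)).2]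
    refine tsum_congr fun x => ?_
    split_ifs
    · rfl
    · rw [zero_mul]
  have key := anti_compare (X := Fin N × (Fin N → Fin 3 → ℤ))
    (w := fun x => ‖fc (TT N L φ) x.2‖ ^ 2 / (N : ℝ))
    (w' := fun x => ‖fc (TT N L ψ) x.2‖ ^ 2 / (N : ℝ))
    (fun x => by positivity) (fun x => by positivity) (hs hTφ) (hs hTψ)
    (r := fun x => R41_q L κ (x.2 x.1)) (θ := θ) (d₀ := d₀) (δ := δ)
    (hθ.mono fun t ht => hd₀.trans_le ht) h0 h1 (by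
      intro d hdd
      have hd0 : 0 < d := hd₀.trans_le hdd
      rw [hi1 hTφ, hi1 hTψ, ← R41_mom hL hκ hd0 hφ.1.1, ← R41_mom hL hκ hd0 hψ.1.1, abs_sub_comm]
      exact hd d hdd)
  rw [hi2 hTφ, hi2 hTψ] at key
  have e1 := R41_upper hN hL hκ hδ₁ hc.le h0 h1 hθ1 hψ
  have e2 := R41_lower hN hL hκ hd₀ h0 h1 hφ
  have h3 := (abs_le.1 (hd d₀ le_rfl)).2
  linarith

end Pool.Agent.Lib.MP_4952d6_mp.LK
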