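import Pool.Agent.Lib.MP_4952d6_mp.Pr.R29
import Pool.Agent.Lib.MP_4952d6_mp.Pr.R31
import Pool.Agent.Lib.MP_4952d6_mp.Pr.R40
import Pool.Agent.Lib.MP_4952d6_mp.Pr.R41

/-!
# Pr.R42 (leaf I6): the gap of the small momenta, uniform form

As `ir_pt` (R35; copy it, with `R35_num` renamed). `d₀ = min d₁ 1` from `nmd_mid` (R40) for `ε/4`; `η` = the minimum of the ones of `nmd_mid` for `d₀`, of `nmd_thr` for `d₀, ε/20`, and of the fifth clause of `gap_full` for `ε`; `s₁ = η/2`;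
`ε' = min (min (1/2) (η/4)) (min (ε/10) (ε₁/(8 π)))` is the error of the energies. Step 2 of R35 gives `irFraction ψ ≤ irFraction χ + (8π ε'/s) Z ≤ irFraction χ + (ε₁/s) Z`. `ir_compare2` (R41) with `δ₁ = δ`, `μ = (ε/4)/(min δ d₀)² Z ≤ ((ε/4)/δ² + ..)`: for `δ ≤ d₀`: `μ = (ε/4)/δ² Z` by `nmd_mid`;
for `δ > d₀`: `min δ d₀ = d₀` and the difference is `0`, take `μ = 0`. So `1 - condFraction ψ ≤ (κ' + ε') Z + (ε₁/s) Z + (3 ε/10) Z + (ε/4)/δ² Z ≤ (κ' + ε (1 + 1/δ²) + ε₁/s) Z`.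
-/

set_option autoImplicit false
set_option linter.unusedSectionVars false
set_option linter.unusedVariables false
open MeasureTheory Function Filter Topology Set ComplexConjugate
open scoped ENNReal

namespace Pool.Agent.Lib.MP_4952d6_mp.LK

open LA O LB

open LG

/-- Numbers. -/
private lemma R42_num {Eψ Eχ e f Z s η ε₁ ε₂ x y G D : ℝ} (he : 0 < e) (hZ : 0 < Z) (hs0 : 0 < s)
    (hsη : s ≤ η / 2) (hε₁ : 0 ≤ ε₁) (h1 : ε₁ ≤ 1 / 2) (h2 : ε₁ ≤ η / 4) (h4 : ε₁ ≤ ε₂ / (8 * Real.pi))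
    (hG : G = s * e / (4 * Real.pi)) (hD : D ≤ 31 / 20) (hy : y ≤ (D + ε₁) * Z) (hx0 : 0 ≤ x)
    (hE : Eψ + G * x ≤ Eχ + G * y) (hup : Eχ ≤ e * (1 + (f + ε₁) * Z)) (hlow : e * (1 + (f - ε₁) * Z) ≤ Eψ) :
    Eψ ≤ e * (1 + (f + η) * Z) ∧ x ≤ y + ε₂ / s * Z := by
  have hπ := Real.pi_gt_three
  have hπ0 := Real.pi_pos
  have hG0 : 0 < G := by rw [hG]; positivity
  have hy3 : y ≤ 3 * Z := hy.trans (mul_le_mul_of_nonneg_right (by linarith) hZ.le)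
  constructor
  · have h5 : 0 ≤ G * x := mul_nonneg hG0.le hx0
    have h6 : G * y ≤ G * (3 * Z) := mul_le_mul_of_nonneg_left hy3 hG0.le
    have h7 : G * (3 * Z) ≤ e * (s / 4 * Z) := by
      have h8 : G * (3 * Z) = e * (s * Z) * (3 / (4 * Real.pi)) := by rw [hG]; ring
      have h9 : 3 / (4 * Real.pi) ≤ 1 / 4 := by
        rw [div_le_div_iff₀ (by positivity) (by norm_num)]
        linarith
      have h10 := mul_le_mul_of_nonneg_left h9 (show 0 ≤ e * (s * Z) by positivity)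
      rw [h8]
      linarith
    have h11 : e * (1 + (f + ε₁) * Z) + e * (s / 4 * Z) ≤ e * (1 + (f + η) * Z) := by
      have h12 : (ε₁ + s / 4) * Z ≤ η * Z := mul_le_mul_of_nonneg_right (by linarith) hZ.le
      have h13 := mul_le_mul_of_nonneg_left h12 he.le
      linarith
    linarith
  · have h5 : G * (x - y) ≤ e * (2 * ε₁ * Z) := by
      have h6 : e * (1 + (f + ε₁) * Z) - e * (1 + (f - ε₁) * Z) = e * (2 * ε₁ * Z) := by ring
      linarith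
    have h6 : e * (2 * ε₁ * Z) ≤ G * (ε₂ / s * Z) := by
      have h7 : ε₁ * (8 * Real.pi) ≤ ε₂ := by
        rwa [le_div_iff₀ (by positivity)] at h4
      have h8 : G * (ε₂ / s * Z) = e * Z * (ε₂ / (4 * Real.pi)) := by
        rw [hG]
        field_simp
      have h9 : 2 * ε₁ ≤ ε₂ / (4 * Real.pi) := by
        rw [le_div_iff₀ (by positivity)]
        linarith
      have h10 := mul_le_mul_of_nonneg_left h9 (show 0 ≤ e * Z by positivity)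
      rw [h8]
      linarith
    have h7 : x - y ≤ ε₂ / s * Z := le_of_mul_le_mul_left (h5.trans h6) hG0
    linarith

/-- The law with a gap of the small momenta, uniform form. -/
theorem ir_pt2 {m R₀ R : ℝ} {v : (Fin 3 → ℝ) → ℝ} (h : Phys m R₀ R v) {a : ℝ}
    (ha : a = scatLen m R₀ v) {ε : ℝ} (hε : 0 < ε) :
    ∃ s₁ : ℝ, 0 < s₁ ∧ ∀ ε₁ : ℝ, 0 < ε₁ → Dilute fun ρ N => ∀ s : ℝ, 0 < s → s ≤ s₁ →
      ∀ δ : ℝ, 0 < δ → ∀ θ : ℝ → ℝ, AntitoneOn θ (Ioi 0) → (∀ t, 0 ≤ θ t) → (∀ t, θ t ≤ 1) →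
      (∀ t, 0 < t → t ≤ δ → θ t = 1) →
      (∃ ψ, IsIrGround m R₀ (s * (ρ * a / (2 * m))) (Real.sqrt (ρ * a)) θ v N (side ρ N) ψ) ∧
      ∀ ψ, IsIrGround m R₀ (s * (ρ * a / (2 * m))) (Real.sqrt (ρ * a)) θ v N (side ρ N) ψ →
        (8 / (3 * Real.sqrt Real.pi) - ε) * Real.sqrt (ρ * a ^ 3) ≤ 1 - condFraction N (side ρ N) ψ ∧
        1 - condFraction N (side ρ N) ψ
          ≤ (8 / (3 * Real.sqrt Real.pi) + ε * (1 + 1 / δ ^ 2) + ε₁ / s)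
            * Real.sqrt (ρ * a ^ 3) := by
  obtain ⟨ha0, -, -, -, hLow, hUp⟩ := gap_full h.hm h.hR0 h.hv h.hv0 h.hrad h.hsupp h.hgen ha
  obtain ⟨d₀, hd₀, hMid⟩ := nmd_mid h ha (show 0 < ε / 4 by positivity)
  obtain ⟨η₀, hη₀, hMid'⟩ := hMid d₀ hd₀ le_rfl
  obtain ⟨η₁, hη₁, hThr⟩ := nmd_thr h ha hd₀ (show 0 < ε / 20 by positivity)
  obtain ⟨η₂, hη₂, hLow'⟩ := hLow 0 ε le_rfl (by norm_num) hε
  obtain ⟨η, hη⟩ : ∃ η : ℝ, η = min η₀ (min η₁ η₂) := ⟨_, rfl⟩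
  have hη0 : 0 < η := by rw [hη]; exact lt_min hη₀ (lt_min hη₁ hη₂)
  have hηa : η ≤ η₁ := by rw [hη]; exact (min_le_right _ _).trans (min_le_left _ _)
  have hηb : η ≤ η₂ := by rw [hη]; exact (min_le_right _ _).trans (min_le_right _ _)
  have hηc : η ≤ η₀ := by rw [hη]; exact min_le_left _ _
  refine ⟨η / 2, half_pos hη0, fun ε₂ hε₂ => ?_⟩
  obtain ⟨ε₁, hε₁⟩ : ∃ ε₁ : ℝ, ε₁ = min (min (1 / 2) (η / 4)) (min (ε / 10) (ε₂ / (8 * Real.pi))) := ⟨_, rfl⟩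
  have hε₁0 : 0 < ε₁ := by
    rw [hε₁]
    exact lt_min (lt_min (by norm_num) (by positivity)) (lt_min (by positivity) (by positivity))
  have hε₁a : ε₁ ≤ 1 / 2 := by rw [hε₁]; exact (min_le_left _ _).trans (min_le_left _ _)
  have hε₁b : ε₁ ≤ η / 4 := by rw [hε₁]; exact (min_le_left _ _).trans (min_le_right _ _)
  have hε₁c : ε₁ ≤ ε / 10 := by rw [hε₁]; exact (min_le_right _ _).trans (min_le_left _ _)
  have hε₁d : ε₁ ≤ ε₂ / (8 * Real.pi) := by rw [hε₁]; exact (min_le_right _ _).trans (min_le_right _ _)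
  refine (((near_abs h ha hε₁0).and (hUp 0 ε₁ le_rfl (by norm_num) hε₁0)).and
    ((hThr.and hLow').and hMid')).mono fun ρ N hρ hP => ?_
  obtain ⟨⟨⟨hN, hL, -, hlb, -⟩, χ, hχ, hχE, hχD⟩, ⟨hthr, hlow⟩, hmid⟩ := hP
  intro s hs0 hs1 δ hδ θ hθ h0 h1 hθ1
  have hm := h.hm
  have hN0 : (0 : ℝ) < N := by exact_mod_cast hN
  have hρa : 0 < ρ * a := mul_pos hρ ha0
  have hκ : 0 < Real.sqrt (ρ * a) := Real.sqrt_pos.2 hρa
  have hZ : 0 < Real.sqrt (ρ * a ^ 3) := Real.sqrt_pos.2 (by positivity)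
  have hg0 : 0 ≤ s * (ρ * a / (2 * m)) := by positivity
  have hJ0 : 0 ≤ Jf 0 := by
    rw [Jf_zero_eq]
    positivity
  rw [zero_mul, sub_zero] at hχE hlow
  rw [Dg_zero] at hχD hlow
  obtain ⟨D, hD⟩ : ∃ D : ℝ, D = 8 / (3 * Real.sqrt Real.pi) := ⟨_, rfl⟩
  have hDle : D ≤ 31 / 20 := by rw [hD]; exact P14_c0
  obtain ⟨Z, hZdef⟩ : ∃ Z : ℝ, Z = Real.sqrt (ρ * a ^ 3) := ⟨_, rfl⟩
  obtain ⟨f, hf⟩ : ∃ f : ℝ, f = Jf 0 / (4 * Real.pi) := ⟨_, rfl⟩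
  have hf0 : 0 ≤ f := by rw [hf]; positivity
  rw [← hZdef] at hZ hχE hχD hlow hlb hthr hmid ⊢
  rw [← hf] at hχE hlow hlb hthr hmid
  rw [← hD] at hχD hlow ⊢
  obtain ⟨e, he⟩ : ∃ e : ℝ, e = N * (2 * Real.pi / m * ρ * a) := ⟨_, rfl⟩
  have he0 : 0 < e := by rw [he]; positivity
  have hee : ∀ c : ℝ, (N : ℝ) * (2 * Real.pi / m * ρ * a * (1 + c * Z)) = e * (1 + c * Z) := fun c => by
    rw [he]; ring
  rw [hee] at hχE
  have hnn : ∀ c : ℝ, 0 ≤ c → 0 ≤ e * (1 + c * Z) := fun c hc => by positivity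
  have hmono : ∀ c c' : ℝ, c ≤ c' → e * (1 + c * Z) ≤ e * (1 + c' * Z) := fun c c' hc => by
    have := mul_le_mul_of_nonneg_right hc hZ.le
    exact mul_le_mul_of_nonneg_left (by linarith) he0.le
  refine ⟨ir_exists hN hm hL h.hR0 h.hv.aestronglyMeasurable.aemeasurable hg0 h0 h1 ⟨χ, hχ⟩, ?_⟩
  rintro ψ ⟨hψ, hmin⟩
  -- real energies
  have hG : s * (ρ * a / (2 * m)) * N = s * e / (4 * Real.pi) := by
    rw [he]
    have := Real.pi_pos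
    field_simp
    ring
  have hxψ := ir_nonneg (N := N) (L := side ρ N) (κ := Real.sqrt (ρ * a)) h0 ψ
  have hxχ := ir_nonneg (N := N) (L := side ρ N) (κ := Real.sqrt (ρ * a)) h0 χ
  have hE : (energy m v N (side ρ N) ψ).toReal +
      s * e / (4 * Real.pi) * irFraction N (side ρ N) (Real.sqrt (ρ * a)) θ ψ ≤
      (energy m v N (side ρ N) χ).toReal +
      s * e / (4 * Real.pi) * irFraction N (side ρ N) (Real.sqrt (ρ * a)) θ χ := by
    have h5 := hmin χ hχ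
    unfold irEnergy at h5
    have k1 : 0 ≤ s * (ρ * a / (2 * m)) * (N * irFraction N (side ρ N) (Real.sqrt (ρ * a)) θ ψ) :=
      mul_nonneg hg0 (mul_nonneg hN0.le hxψ)
    have k2 : 0 ≤ s * (ρ * a / (2 * m)) * (N * irFraction N (side ρ N) (Real.sqrt (ρ * a)) θ χ) :=
      mul_nonneg hg0 (mul_nonneg hN0.le hxχ)
    have h6 := ENNReal.toReal_mono (ENNReal.add_ne_top.2 ⟨hχ.2.2.2.ne, ENNReal.ofReal_ne_top⟩) h5
    rw [ENNReal.toReal_add hψ.2.2.2.ne ENNReal.ofReal_ne_top,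
      ENNReal.toReal_add hχ.2.2.2.ne ENNReal.ofReal_ne_top, ENNReal.toReal_ofReal k1,
      ENNReal.toReal_ofReal k2] at h6
    rw [← hG]
    linarith
  have hupχ : (energy m v N (side ρ N) χ).toReal ≤ e * (1 + (f + ε₁) * Z) :=
    ENNReal.toReal_le_of_le_ofReal (hnn _ (by linarith)) hχE
  have hlbψ : e * (1 + (f - ε₁) * Z) ≤ (energy m v N (side ρ N) ψ).toReal := by
    have h5 := hlb ψ hψ
    rw [hee] at h5
    have h6 := ENNReal.toReal_mono hψ.2.2.2.ne h5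
    rw [ENNReal.toReal_ofReal'] at h6
    exact (le_max_left _ _).trans h6
  have hirχ : irFraction N (side ρ N) (Real.sqrt (ρ * a)) θ χ ≤ (D + ε₁) * Z :=
    (ir_le hN hL h0 h1 hχ).trans hχD
  obtain ⟨r1, r2⟩ := R42_num he0 hZ hs0 hs1 hε₁0.le hε₁a hε₁b hε₁d rfl hDle hirχ hxψ hE hupχ hlbψ
  have hEψ : energy m v N (side ρ N) ψ ≤ ENNReal.ofReal (e * (1 + (f + η) * Z)) := by
    rw [← ENNReal.ofReal_toReal hψ.2.2.2.ne]
    exact ENNReal.ofReal_le_ofReal r1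
  have tψ := hthr ψ hψ (by
    rw [hee]
    exact hEψ.trans (ENNReal.ofReal_le_ofReal (hmono _ _ (by linarith))))
  have tχ := hthr χ hχ (by
    rw [hee]
    exact hχE.trans (ENNReal.ofReal_le_ofReal (hmono _ _ (by linarith))))
  have lψ := hlow ψ hψ (by
    rw [hee]
    exact hEψ.trans (ENNReal.ofReal_le_ofReal (hmono _ _ (by linarith))))
  have mψ := hmid ψ hψ (by
    rw [hee]
    exact hEψ.trans (ENNReal.ofReal_le_ofReal (hmono _ _ (by linarith))))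
  have hμ : momFraction N (side ρ N) (min δ d₀ * Real.sqrt (ρ * a)) ψ
      - momFraction N (side ρ N) (d₀ * Real.sqrt (ρ * a)) ψ ≤ ε / 4 / δ ^ 2 * Z := by
    rcases le_total δ d₀ with hδ0 | hδ0
    · rw [min_eq_left hδ0]
      exact mψ δ hδ hδ0
    · rw [min_eq_right hδ0, sub_self]
      positivity
  have hcmp := ir_compare2 (δ₁ := δ) (δ := ε / 10 * Z) (τ := ε₂ / s * Z) (μ := ε / 4 / δ ^ 2 * Z)
    hN hL hκ hd₀ hδ hθ h0 h1 hθ1 hψ hχ (by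
    intro d hd
    have j1 := abs_le.1 (tψ d hd)
    have j2 := abs_le.1 (tχ d hd)
    rw [abs_le]
    constructor <;> linarith [j1.1, j1.2, j2.1, j2.2]) hμ r2
  have q1 : ε₁ * Z ≤ ε / 10 * Z := mul_le_mul_of_nonneg_right hε₁c hZ.le
  have q2 : 0 < ε * Z := mul_pos hε hZ
  have q3 : 0 ≤ ε / δ ^ 2 * Z := by positivity
  have q4 : ε / 4 / δ ^ 2 * Z = 1 / 4 * (ε / δ ^ 2 * Z) := by ring
  have q5 : (D + ε * (1 + 1 / δ ^ 2) + ε₂ / s) * Z = D * Z + ε * Z + ε / δ ^ 2 * Z + ε₂ / s * Z := by ring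
  constructor
  · linarith
  · rw [q5]
    rw [q4] at hcmp
    linarith

end Pool.Agent.Lib.MP_4952d6_mp.LK
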