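import Pool.Agent.Lib.MP_4952d6_mp.Pr.R36

/-!
# Pr.R43 (leaf I7): the diagonal form, uniform in the interval

As `ir_diag` (R36), with `h` for `ε = 1/(n+2)`: `s₁ n`, `s n = min (s₁ n) (1/(n+2))`, `ε₁ = s n/(n+2)`, threshold `r n`; `γ ρ = s (P25_M r ρ - 1)`. For `M = P25_M r ρ ≥ 1`, `n = M - 1`: `ρ < r n`, so for large `N` and `s = γ ρ = s n`: `1 - condFraction ≤ (κ' + (1/(n+2)) (1 + 1/δ²) + 1/(n+2)) Z ≤ (κ' + (2/(n+2)) (1 + 1/δ²)) Z`.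
Given `ε` take `k` with `2/(k+2) ≤ ε` and `ρ < P25_small r k`.
-/

set_option autoImplicit false
set_option linter.unusedSectionVars false
set_option linter.unusedVariables false
open MeasureTheory Function Filter Topology Set ComplexConjugate
open scoped ENNReal

namespace Pool.Agent.Lib.MP_4952d6_mp.LK

open LA LG

/-- The diagonal form, uniform in the interval. -/
theorem ir_diag2 {m R₀ a : ℝ} {v : (Fin 3 → ℝ) → ℝ}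
    (h : ∀ ε : ℝ, 0 < ε → ∃ s₁ : ℝ, 0 < s₁ ∧ ∀ ε₁ : ℝ, 0 < ε₁ → Dilute fun ρ N =>
      ∀ s : ℝ, 0 < s → s ≤ s₁ →
      ∀ δ : ℝ, 0 < δ → ∀ θ : ℝ → ℝ, AntitoneOn θ (Ioi 0) → (∀ t, 0 ≤ θ t) → (∀ t, θ t ≤ 1) →
      (∀ t, 0 < t → t ≤ δ → θ t = 1) →
      (∃ ψ, IsIrGround m R₀ (s * (ρ * a / (2 * m))) (Real.sqrt (ρ * a)) θ v N (side ρ N) ψ) ∧
      ∀ ψ, IsIrGround m R₀ (s * (ρ * a / (2 * m))) (Real.sqrt (ρ * a)) θ v N (side ρ N) ψ →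
        (8 / (3 * Real.sqrt Real.pi) - ε) * Real.sqrt (ρ * a ^ 3) ≤ 1 - condFraction N (side ρ N) ψ ∧
        1 - condFraction N (side ρ N) ψ
          ≤ (8 / (3 * Real.sqrt Real.pi) + ε * (1 + 1 / δ ^ 2) + ε₁ / s)
            * Real.sqrt (ρ * a ^ 3)) :
    ∃ γ : ℝ → ℝ, (∀ ρ, 0 < γ ρ) ∧ Tendsto γ (𝓝[>] 0) (𝓝 0) ∧ ∀ ε : ℝ, 0 < ε → Dilute fun ρ N =>
      ∀ δ : ℝ, 0 < δ → ∀ θ : ℝ → ℝ, AntitoneOn θ (Ioi 0) → (∀ t, 0 ≤ θ t) → (∀ t, θ t ≤ 1) →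
      (∀ t, 0 < t → t ≤ δ → θ t = 1) →
      (∃ ψ, IsIrGround m R₀ (γ ρ * (ρ * a / (2 * m))) (Real.sqrt (ρ * a)) θ v N (side ρ N) ψ) ∧
      ∀ ψ, IsIrGround m R₀ (γ ρ * (ρ * a / (2 * m))) (Real.sqrt (ρ * a)) θ v N (side ρ N) ψ →
        (8 / (3 * Real.sqrt Real.pi) - ε) * Real.sqrt (ρ * a ^ 3) ≤ 1 - condFraction N (side ρ N) ψ ∧
        1 - condFraction N (side ρ N) ψ
          ≤ (8 / (3 * Real.sqrt Real.pi) + ε * (1 + 1 / δ ^ 2)) * Real.sqrt (ρ * a ^ 3) := by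
  have ht : ∀ n : ℕ, 0 < 1 / ((n : ℝ) + 2) := fun n => by positivity
  choose s₁ hs₁ hlaw using fun n : ℕ => h (1 / ((n : ℝ) + 2)) (ht n)
  obtain ⟨s, hs⟩ : ∃ s : ℕ → ℝ, s = fun n => min (s₁ n) (1 / ((n : ℝ) + 2)) := ⟨_, rfl⟩
  have hs0 : ∀ n, 0 < s n := fun n => by
    rw [hs]
    exact lt_min (hs₁ n) (ht n)
  have hs1 : ∀ n, s n ≤ s₁ n := fun n => by
    rw [hs]
    exact min_le_left _ _
  have hs2 : ∀ n, s n ≤ 1 / ((n : ℝ) + 2) := fun n => by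
    rw [hs]
    exact min_le_right _ _
  have hl : ∀ n : ℕ, Dilute fun ρ N =>
      ∀ δ : ℝ, 0 < δ → ∀ θ : ℝ → ℝ, AntitoneOn θ (Ioi 0) → (∀ t, 0 ≤ θ t) → (∀ t, θ t ≤ 1) →
      (∀ t, 0 < t → t ≤ δ → θ t = 1) →
      (∃ ψ, IsIrGround m R₀ (s n * (ρ * a / (2 * m))) (Real.sqrt (ρ * a)) θ v N (side ρ N) ψ) ∧
      ∀ ψ, IsIrGround m R₀ (s n * (ρ * a / (2 * m))) (Real.sqrt (ρ * a)) θ v N (side ρ N) ψ →
        (8 / (3 * Real.sqrt Real.pi) - 1 / ((n : ℝ) + 2)) * Real.sqrt (ρ * a ^ 3)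
            ≤ 1 - condFraction N (side ρ N) ψ ∧
          1 - condFraction N (side ρ N) ψ
            ≤ (8 / (3 * Real.sqrt Real.pi) + 2 / ((n : ℝ) + 2) * (1 + 1 / δ ^ 2))
              * Real.sqrt (ρ * a ^ 3) := fun n =>
    (hlaw n (s n / ((n : ℝ) + 2)) (div_pos (hs0 n) (by positivity))).mono fun ρ N _ hh δ hδ θ k1 k2 k3 k4 => by
      obtain ⟨e1, e2⟩ := hh (s n) (hs0 n) (hs1 n) δ hδ θ k1 k2 k3 k4
      refine ⟨e1, fun ψ hψ => ⟨(e2 ψ hψ).1, (e2 ψ hψ).2.trans ?_⟩⟩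
      refine mul_le_mul_of_nonneg_right ?_ (Real.sqrt_nonneg _)
      have q1 : s n / ((n : ℝ) + 2) / s n = 1 / ((n : ℝ) + 2) := by
        have := (hs0 n).ne'
        field_simp
      rw [q1]
      have q2 : 0 ≤ 1 / ((n : ℝ) + 2) * (1 / δ ^ 2) := by positivity
      have q3 : 2 / ((n : ℝ) + 2) = 2 * (1 / ((n : ℝ) + 2)) := by ring
      rw [q3]
      linarith
  choose r hr hrr using hl
  have hγ0 : ∀ ρ, 0 < s (P25_M r ρ - 1) := fun ρ => hs0 _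
  -- close to zero the number `M` is large
  have key : ∀ n : ℕ, ∃ δ : ℝ, 0 < δ ∧ ∀ ρ, 0 < ρ → ρ < δ → ∃ k, P25_M r ρ = k + 1 ∧ n ≤ k := by
    intro n
    obtain ⟨δ, hδ, hδP⟩ := P25_small hr n
    refine ⟨δ, hδ, fun ρ hρ hlt => ⟨P25_M r ρ - 1, ?_, ?_⟩⟩ <;>
    · have h1 := P25_above r hρ (hδP ρ hlt)
      omega
  have hle : ∀ n k : ℕ, n ≤ k → 1 / ((k : ℝ) + 2) ≤ 1 / ((n : ℝ) + 1) := fun n k hnk => by
    refine one_div_le_one_div_of_le (by positivity) ?_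
    have : (n : ℝ) ≤ k := by exact_mod_cast hnk
    linarith
  refine ⟨fun ρ => s (P25_M r ρ - 1), hγ0, ?_, ?_⟩
  · rw [Metric.tendsto_nhdsWithin_nhds]
    intro ε hε
    obtain ⟨n, hn⟩ := exists_nat_one_div_lt hε
    obtain ⟨δ, hδ, hk⟩ := key n
    refine ⟨δ, hδ, fun ρ hρ hdist => ?_⟩
    have hρ0 : 0 < ρ := hρ
    rw [Real.dist_eq, sub_zero, abs_of_pos hρ0] at hdist
    obtain ⟨k, hM, hnk⟩ := hk ρ hρ0 hdist
    rw [Real.dist_eq, sub_zero, abs_of_pos (hγ0 ρ), hM, Nat.add_sub_cancel]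
    exact ((hs2 k).trans (hle n k hnk)).trans_lt hn
  · intro ε hε
    obtain ⟨n, hn⟩ := exists_nat_one_div_lt (half_pos hε)
    obtain ⟨δ, hδ, hk⟩ := key n
    refine ⟨δ, hδ, fun ρ hρ hlt => ?_⟩
    obtain ⟨k, hM, hnk⟩ := hk ρ hρ hlt
    have h2 : P25_P r ρ k := P25_below r (by omega)
    obtain ⟨N₁, hN₁⟩ := hrr k ρ hρ (h2 k le_rfl).1
    refine ⟨N₁, fun N hN δ' hδ' θ hθ hθ0 hθ1 hθd => ?_⟩
    have h3 := hN₁ N hN δ' hδ' θ hθ hθ0 hθ1 hθd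
    have hγk : s (P25_M r ρ - 1) = s k := by rw [hM, Nat.add_sub_cancel]
    have hk1 : 1 / ((k : ℝ) + 2) ≤ ε / 2 := (hle n k hnk).trans hn.le
    show (∃ ψ, IsIrGround m R₀ (s (P25_M r ρ - 1) * (ρ * a / (2 * m))) (Real.sqrt (ρ * a)) θ v N
        (side ρ N) ψ) ∧
      ∀ ψ, IsIrGround m R₀ (s (P25_M r ρ - 1) * (ρ * a / (2 * m))) (Real.sqrt (ρ * a)) θ v N
        (side ρ N) ψ →
        (8 / (3 * Real.sqrt Real.pi) - ε) * Real.sqrt (ρ * a ^ 3) ≤ 1 - condFraction N (side ρ N) ψ ∧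
        1 - condFraction N (side ρ N) ψ
          ≤ (8 / (3 * Real.sqrt Real.pi) + ε * (1 + 1 / δ' ^ 2)) * Real.sqrt (ρ * a ^ 3)
    rw [hγk]
    refine ⟨h3.1, fun ψ hψ => ⟨le_trans ?_ (h3.2 ψ hψ).1, (h3.2 ψ hψ).2.trans ?_⟩⟩
    · exact mul_le_mul_of_nonneg_right (by linarith) (Real.sqrt_nonneg _)
    · refine mul_le_mul_of_nonneg_right ?_ (Real.sqrt_nonneg _)
      have q3 : 2 / ((k : ℝ) + 2) = 2 * (1 / ((k : ℝ) + 2)) := by ring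
      have q4 : 2 / ((k : ℝ) + 2) * (1 + 1 / δ' ^ 2) ≤ ε * (1 + 1 / δ' ^ 2) := by
        refine mul_le_mul_of_nonneg_right ?_ (by positivity)
        rw [q3]
        linarith
      linarith

end Pool.Agent.Lib.MP_4952d6_mp.LK
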